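import Pool.Agent.P.MP_8c7dae_pr.Defs2

open Set

namespace Pool.Agent.P.MP_8c7dae_pr

namespace Bridge

lemma sqN_eq (s : ℕ × ℕ × ℕ) : sqN s = sq (toCell s) := by
  ext p
  have h : (0 : ℝ) < 2 ^ s.1 := by positivity
  simp only [sqN, sq, toCell, mem_prod, mem_Icc, div_le_iff₀ h, le_div_iff₀ h, mem_ofPred_eq,
    Int.cast_natCast, mul_comm ((2 : ℝ) ^ s.1), and_assoc]

lemma isClosed_sqN (s : ℕ × ℕ × ℕ) : IsClosed (sqN s) := isClosed_Icc.prod isClosed_Icc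

lemma isPreconnected_sqN (s : ℕ × ℕ × ℕ) : IsPreconnected (sqN s) :=
  isPreconnected_Icc.prod isPreconnected_Icc

lemma family {L : List (ℕ × ℕ × ℕ)} {n : ℕ} {x y : Pt} (h : Reach (cellSet L) n x y) :
    x = y ∨ ∃ S : Finset (ℕ × ℕ × ℕ), (∀ s ∈ S, s ∈ L) ∧ S.card ≤ n ∧
      IsConnected (⋃ s ∈ S, sqN s) ∧ (∃ s ∈ S, x ∈ sqN s) ∧ (∃ s ∈ S, y ∈ sqN s) := by
  induction h with
  | refl n x => exact Or.inl rfl
  | @step n x y z v _ hv hy hz ih =>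
    obtain ⟨s, hs, rfl⟩ := hv
    rw [← sqN_eq] at hy hz
    right
    rcases ih with rfl | ⟨S, h1, h2, h3, ⟨a, a1, a2⟩, ⟨b, b1, b2⟩⟩
    · refine ⟨{s}, by simpa using hs, by simp, ?_, ⟨s, by simp, hy⟩, ⟨s, by simp, hz⟩⟩
      rw [Finset.set_biUnion_singleton]
      exact ⟨⟨_, hy⟩, isPreconnected_sqN s⟩
    · refine ⟨insert s S, fun t ht => ?_, (Finset.card_insert_le _ _).trans (by omega), ?_,
        ⟨a, by simp [a1], a2⟩, ⟨s, by simp, hz⟩⟩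
      · rcases Finset.mem_insert.1 ht with rfl | ht
        · exact hs
        · exact h1 t ht
      · rw [Finset.set_biUnion_insert]
        exact IsConnected.union ⟨y, hy, mem_biUnion b1 b2⟩ ⟨⟨_, hy⟩, isPreconnected_sqN s⟩ h3

lemma reach {L : List (ℕ × ℕ × ℕ)} {S : Finset (ℕ × ℕ × ℕ)} (h1 : ∀ s ∈ S, s ∈ L)
    (h3 : IsConnected (⋃ s ∈ S, sqN s)) {x y : Pt} (hx : ∃ s ∈ S, x ∈ sqN s)
    (hy : ∃ s ∈ S, y ∈ sqN s) : Reach (cellSet L) S.card x y := by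
  classical
  obtain ⟨a, a1, a2⟩ := hx
  let T : ℕ → Finset (ℕ × ℕ × ℕ) := fun k =>
    S.filter fun s => ∀ z ∈ sqN s, Reach (cellSet L) k x z
  have hT : ∀ k s, s ∈ T k ↔ s ∈ S ∧ ∀ z ∈ sqN s, Reach (cellSet L) k x z := fun k s =>
    Finset.mem_filter
  have hsub : ∀ k, T k ⊆ S := fun k => Finset.filter_subset _ _
  have hmono : ∀ k, T k ⊆ T (k + 1) := fun k s hs =>
    (hT _ _).2 ⟨((hT _ _).1 hs).1, fun z hz => (((hT _ _).1 hs).2 z hz).mono_n (by omega)⟩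
  have hstep : ∀ k s z, s ∈ S → z ∈ sqN s → Reach (cellSet L) k x z → s ∈ T (k + 1) :=
    fun k s z hs hz hr => (hT _ _).2 ⟨hs, fun z' hz' =>
      hr.step ⟨s, h1 s hs, rfl⟩ (sqN_eq s ▸ hz) (sqN_eq s ▸ hz')⟩
  have key : ∀ k, T (k + 1) = S ∨ k + 1 ≤ (T (k + 1)).card := by
    intro k
    induction k with
    | zero => exact Or.inr (Finset.card_pos.2 ⟨a, hstep 0 a x a1 a2 (Reach.refl _ _)⟩)
    | succ k ih =>
      by_cases he : T (k + 1) = S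
      · exact Or.inl (Finset.Subset.antisymm (hsub _) (he ▸ hmono _))
      right
      have h4 := ih.resolve_left he
      obtain ⟨b, b1, b2⟩ := Finset.exists_of_ssubset (lt_of_le_of_ne (hsub (k + 1)) he)
      obtain ⟨c, hc⟩ := Finset.card_pos.1 (show 0 < (T (k + 1)).card by omega)
      have ne : ∀ s, (sqN s).Nonempty := fun s =>
        (nonempty_Icc.2 (by gcongr; linarith)).prod (nonempty_Icc.2 (by gcongr; linarith))
      obtain ⟨z, -, z1, z2⟩ := isPreconnected_closed_iff.1 h3.2 (⋃ s ∈ T (k + 1), sqN s)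
        (⋃ s ∈ S \ T (k + 1), sqN s) (isClosed_biUnion_finset fun s _ => isClosed_sqN s)
        (isClosed_biUnion_finset fun s _ => isClosed_sqN s)
        (by
          intro z hz
          obtain ⟨s, s1, s2⟩ := mem_iUnion₂.1 hz
          by_cases hs : s ∈ T (k + 1)
          · exact Or.inl (mem_biUnion hs s2)
          · exact Or.inr (mem_biUnion (Finset.mem_sdiff.2 ⟨s1, hs⟩) s2))
        (let ⟨z, hz⟩ := ne c; ⟨z, mem_biUnion (hsub _ hc) hz, mem_biUnion hc hz⟩)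
        (let ⟨z, hz⟩ := ne b; ⟨z, mem_biUnion b1 hz, mem_biUnion (Finset.mem_sdiff.2 ⟨b1, b2⟩) hz⟩)
      obtain ⟨s, s1, s2⟩ := mem_iUnion₂.1 z1
      obtain ⟨t, t1, t2⟩ := mem_iUnion₂.1 z2
      rw [Finset.mem_sdiff] at t1
      have h5 := hstep (k + 1) t z t1.1 t2 (((hT _ _).1 s1).2 z s2)
      have := Finset.card_lt_card (Finset.ssubset_iff_of_subset (hmono (k + 1)) |>.2 ⟨t, h5, t1.2⟩)
      omega
  obtain ⟨k, hk⟩ : ∃ k, S.card = k + 1 :=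
    ⟨S.card - 1, by have := Finset.card_pos.2 ⟨a, a1⟩; omega⟩
  have he : T (k + 1) = S := (key k).elim id fun h => Finset.eq_of_subset_of_card_le (hsub _)
    (by omega)
  obtain ⟨b, b1, b2⟩ := hy
  rw [hk]
  exact ((hT _ _).1 (he ▸ b1)).2 y b2

end Bridge

theorem bridge (L : List (ℕ × ℕ × ℕ)) :
    sInf {m : ℕ | ∃ S : Finset (ℕ × ℕ × ℕ),
        (∀ s ∈ S, s ∈ L) ∧ S.card = m ∧
        IsConnected (⋃ s ∈ S, sqN s) ∧
        (∃ s ∈ S, ((0 : ℝ), (0 : ℝ)) ∈ sqN s) ∧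
        (∃ s ∈ S, ((1 : ℝ), (1 : ℝ)) ∈ sqN s)} = dS (cellSet L) {(0, 0)} {(1, 1)} := by
  set A := {m : ℕ | ∃ S : Finset (ℕ × ℕ × ℕ),
        (∀ s ∈ S, s ∈ L) ∧ S.card = m ∧
        IsConnected (⋃ s ∈ S, sqN s) ∧
        (∃ s ∈ S, ((0 : ℝ), (0 : ℝ)) ∈ sqN s) ∧
        (∃ s ∈ S, ((1 : ℝ), (1 : ℝ)) ∈ sqN s)} with hA
  rw [dS]
  set B := {n | ∃ x ∈ ({(0, 0)} : Set Pt), ∃ y ∈ ({(1, 1)} : Set Pt), Reach (cellSet L) n x y}
    with hB
  have h1 : A ⊆ B := by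
    rintro _ ⟨S, a1, rfl, a3, a4, a5⟩
    exact ⟨_, rfl, _, rfl, Bridge.reach a1 a3 a4 a5⟩
  have h2 : ∀ n ∈ B, ∃ m ∈ A, m ≤ n := by
    rintro n ⟨_, rfl, _, rfl, h⟩
    rcases Bridge.family h with h | ⟨S, a1, a2, a3, a4, a5⟩
    · simp at h
    · exact ⟨_, ⟨S, a1, rfl, a3, a4, a5⟩, a2⟩
  rcases B.eq_empty_or_nonempty with h | h
  · have hA0 : A = ∅ := subset_empty_iff.1 (h ▸ h1)
    rw [h, hA0]
  · obtain ⟨m, m1, m2⟩ := h2 _ (Nat.sInf_mem h)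
    exact le_antisymm ((Nat.sInf_le m1).trans m2) (Nat.sInf_le (h1 (Nat.sInf_mem ⟨m, m1⟩)))

end Pool.Agent.P.MP_8c7dae_pr
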