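import Pool.Agent.P.MP_8c7dae_pr.Struct

open MeasureTheory Set Filter

namespace Pool.Agent.P.MP_8c7dae_pr

namespace Cov

lemma exists_desc (h : ℕ) (c : Cell) : ∃ u, u ∈ desc h c :=
  ⟨(c.1 + h, c.2.1 * 2 ^ h, c.2.2 * 2 ^ h), by
    simp only [desc, Finset.mem_image, Finset.mem_product, Finset.mem_range]
    exact ⟨(0, 0), ⟨by positivity, by positivity⟩, by simp⟩⟩

lemma S_le_of_comp {ω : Om} {D t : ℕ} (h : ∀ c ∈ desc D root, S ω c ≤ t) {c : Cell}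
    (hc : Below root c) (hD : c.1 ≤ D) : S ω c ≤ t := by
  obtain ⟨u, hu⟩ := exists_desc (D - c.1) c
  rw [mem_desc] at hu
  exact (S_mono hu.2).trans (h u (mem_desc.2 ⟨by simp only [root]; omega, hc.trans hu.2⟩))

lemma depth_of_comp {ω : Om} {D k : ℕ} (h : ∀ c ∈ desc D root, S ω c ≤ k) {w : Cell}
    (hw : w ∈ TQ ω k) : D ≤ w.1 := by
  by_contra hlt
  rw [mem_TQ] at hw
  obtain ⟨u, hu⟩ := exists_desc (D - w.1) w
  rw [mem_desc] at hu
  have h1 := h u (mem_desc.2 ⟨by simp only [root]; omega, hw.2.trans hu.2⟩)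
  have h2 := S_ge (ω := ω) hu.2 (by omega)
  have h3 := hw.1.2
  omega

lemma blk_fst {l c : Cell} (h : c ∈ blk l) : c.1 = l.1 := by
  simp only [blk, Finset.mem_insert, Finset.mem_singleton] at h
  rcases h with rfl | rfl | rfl | rfl <;> rfl

lemma exists_div_pow_le (C : ℝ) {ε : ℝ} (hε : 0 < ε) : ∃ D0 : ℕ, ∀ D, D0 ≤ D → C / 2 ^ D ≤ ε := by
  obtain ⟨D0, h⟩ := exists_nat_ge (C / ε)
  refine ⟨D0, fun D hD => ?_⟩
  have h1 : (D : ℝ) ≤ 2 ^ D := by exact_mod_cast (Nat.lt_two_pow_self (n := D)).le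
  have h2 : (D0 : ℝ) ≤ D := by exact_mod_cast hD
  rw [div_le_iff₀ hε] at h
  rw [div_le_iff₀ (by positivity)]
  nlinarith

lemma Pr_early {N : ℕ} (hN : 2 ≤ N) (D s0 : ℕ) :
    Pr N (fun ω => ∃ c ∈ desc D root, S ω c ≤ s0 * N) ≤ Real.exp (7 * s0) / 2 ^ D := by
  refine (Pr_le_card (desc D root) (Elem.ex _ fun c _ => elem_S_le c _)
    (B := fun c ω => S ω c ≤ s0 * N) (fun c _ => elem_S_le c _) (fun ω hω => hω)
    (ε := Real.exp (7 * s0) * (1 / 8) ^ D) fun c hc => ?_).trans ?_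
  · have h := Pr_S_le hN (x := 7) (by norm_num) c (s0 * N)
    have e1 : c.1 = D := by simpa [root] using (mem_desc.1 hc).1
    have e2 : 7 * q N * ((s0 * N : ℕ) : ℝ) = 7 * s0 := by
      push_cast
      linear_combination (7 * (s0 : ℝ)) * q_mul hN
    rw [e1, e2] at h
    norm_num at h ⊢
    exact h
  · have h1 : ((desc D root).card : ℝ) ≤ 4 ^ D := by exact_mod_cast card_desc D root
    refine (mul_le_mul_of_nonneg_right h1 (by positivity)).trans (le_of_eq ?_)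
    rw [mul_left_comm, ← mul_pow, div_eq_mul_inv (Real.exp _), ← inv_pow]
    norm_num

lemma side_bound {N : ℕ} {ω : Om} {k1 k2 : ℕ} {v : ℕ → Cell} {G : ℕ → Om → Prop} {κ K R : ℝ}
    {i lo hi : ℕ} {e : Cell} (hκ : 0 < κ) (hK : 0 < K) (hR : 0 ≤ R)
    (h : Side N ω k1 v G κ K i lo hi e) (hX : (Xh ω k2 e : ℝ) ≤ K * a N (k2 - S ω e))
    (ha : (a N (k2 - S ω e) : ℝ) ≤ R * a N (k1 - S ω e)) :
    (Xh ω k2 e : ℝ) ≤ K ^ 2 * R / κ * ((hi - lo : ℕ) : ℝ) := by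
  obtain ⟨c, j1, j2, h1, h2, h3, -, -, -, -, h4, h5⟩ := h
  have h6 : ((j2 + 1 - j1 : ℕ) : ℝ) ≤ ((hi - lo : ℕ) : ℝ) := by exact_mod_cast (by omega)
  have h7 : (a N (k1 - S ω c) : ℝ) ≤ ((hi - lo : ℕ) : ℝ) / κ := by
    rw [le_div_iff₀ hκ]; linarith
  calc (Xh ω k2 e : ℝ) ≤ K * (R * (K * (((hi - lo : ℕ) : ℝ) / κ))) := by
        refine hX.trans (mul_le_mul_of_nonneg_left (ha.trans ?_) hK.le)
        exact mul_le_mul_of_nonneg_left (h5.trans (mul_le_mul_of_nonneg_left h7 hK.le)) hR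
    _ = _ := by ring

end Cov

open Cov

theorem cov : ∃ K : ℝ, 0 < K ∧ ∀ (s0 : ℕ) (η : ℝ), 0 < η → ∃ w t0 : ℕ, ∀ N, 2 ≤ N →
    ∀ k1 k2 : ℕ, t0 * N ≤ k1 → t0 * N ≤ k2 → ∀ R : ℝ, 0 ≤ R →
      (∀ s, s0 * N ≤ s → s ≤ w * N → (a N (k2 - s) : ℝ) ≤ R * a N (k1 - s)) →
      Pr N (fun ω => ∃ x ∈ Q, ∃ y ∈ Q,
        K * R * d ω k1 x y + η * a N k2 < d ω k2 x y) ≤ η := by
  obtain ⟨h, κ, K, p2, C, hκ, hK, hp2, hst⟩ := struct
  refine ⟨2 * (K ^ 2 / κ), by positivity, fun s0 η hη => ?_⟩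
  obtain ⟨m0, hm0⟩ := Mx_small (η := η ^ 3 / 1024) (by positivity)
  obtain ⟨D1, hD1⟩ := exists_div_pow_le C (ε := η / 4) (by positivity)
  obtain ⟨D2, hD2⟩ := exists_div_pow_le (Real.exp (7 * s0)) (ε := η / 4) (by positivity)
  obtain ⟨D, hDa, hDb, hDc, hDd⟩ : ∃ D, m0 ≤ D ∧ D1 ≤ D ∧ D2 ≤ D ∧ 1 ≤ D :=
    ⟨m0 + D1 + D2 + 1, by omega, by omega, by omega, by omega⟩
  obtain ⟨t0, ht0⟩ := hm0 D hDa
  obtain ⟨w, hw⟩ := hst (fun _ _ _ => True) 0 (fun _ _ => Elem.const _)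
    (fun _ _ _ _ _ => rfl) (fun N _ j _ => by rw [Pr_false (by simp)]; exact hp2.le) D 0 (η / 4)
    (by positivity)
  refine ⟨w, w + t0, fun N hN k1 k2 hk1 hk2 R hR ha => ?_⟩
  rw [add_mul] at hk1 hk2
  obtain ⟨Bad, hBe, hBp, hB⟩ := hw N hN k1 k2 (by rw [add_zero]; omega)
  have e0 : Elem (fun ω => ∃ x ∈ Q, ∃ y ∈ Q,
      2 * (K ^ 2 / κ) * R * d ω k1 x y + η * a N k2 < d ω k2 x y) :=
    (elem_TQ k1).map₂ (elem_TQ k2) fun A B => ∃ x ∈ Q, ∃ y ∈ Q,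
      2 * (K ^ 2 / κ) * R * (dS A {x} {y} : ℝ) + η * a N k2 < (dS B {x} {y} : ℝ)
  have e2 : Elem (fun ω => ∃ c ∈ desc D root, S ω c ≤ s0 * N) :=
    Elem.ex _ fun c _ => elem_S_le c _
  have e3 : Elem (fun ω => η / 16 * a N k2 ≤ Mx ω k2 D) :=
    (elem_Mx k2 D).map fun t => η / 16 * a N k2 ≤ (t : ℝ)
  have ha1 : (1 : ℝ) ≤ a N k2 := by exact_mod_cast one_le_a N k2
  have p3 : Pr N (fun ω => η / 16 * a N k2 ≤ Mx ω k2 D) ≤ η / 4 := by
    have ht : 0 < (η / 16 * a N k2) ^ 2 := by positivity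
    refine (Pr_le_E_div e3 ((elem_Mx k2 D).cast.pow 2) ht (fun ω => by positivity)
      fun ω hω => pow_le_pow_left₀ (by positivity) hω 2).trans ?_
    rw [div_le_iff₀ ht]
    exact (ht0 N hN k2 (by omega)).trans (le_of_eq (by ring))
  have p2' := (Pr_early hN D s0).trans (hD2 D hDc)
  have p1 := hD1 D hDb
  have q1 := Pr_le_add (N := N) (e2.or e3) e2 e3 fun ω hω => hω
  have q2 := Pr_le_add (N := N) e0 hBe (e2.or e3) fun ω hω => ?_
  · linarith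
  by_contra hcon
  push Not at hcon
  obtain ⟨hb1, hb2, hb3⟩ := hcon
  obtain ⟨x, hx, y, hy, hlt⟩ := hω
  obtain ⟨hcomp, hgood⟩ := hB ω hb1
  obtain ⟨p, v, hc, h0, h1⟩ := (conn_TQ (ω := ω) (k := k1) (I := {x}) (J := {y}) hx hy rfl rfl).geod
  have h0' : p 0 = x := h0
  have h1' : p (dS (TQ ω k1) {x} {y}) = y := h1
  set n := dS (TQ ω k1) {x} {y} with hn
  have hcompD : ∀ c ∈ desc D root, S ω c ≤ k1 := fun c hc =>
    (S_le_of_comp hcomp (mem_desc.1 hc).2 (by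
      have := (mem_desc.1 hc).1
      simp only [root] at this
      omega)).trans (by omega)
  obtain ⟨m, hm, hm2⟩ := greedy (TQ ω k1) (TQ ω k2) (fun u hu => (mem_TQ.1 hu).2) p v n hc
    (h0' ▸ hx) (h1' ▸ hy) D (fun j hj => depth_of_comp hcompD (hc j (Nat.zero_le _) hj).1)
    (K ^ 2 * R / κ) (by positivity) (Xh ω k2) (2 * 4 * Mx ω k2 D)
    (fun c hc x hx y hy => reach_Xh_Q hc hx hy)
    (fun x hx y hy hxy => reach_near 4 hx hy (by exact_mod_cast hxy))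
    (fun τ hτ hτ0 hτ1 => by
      obtain ⟨J, hJ, hcard, hJg⟩ := hgood p v n hc τ hτ hτ0 hτ1
      obtain ⟨j, hj⟩ : J.Nonempty := Finset.card_pos.1 (by omega)
      have hjD : j < D := Finset.mem_range.1 (hJ hj)
      obtain ⟨lo, hi, l, cm, cp, hl, g1, g2, g3, g4, g5, g6, g7, g8, g9, g10, g11, g12⟩ := hJg j hj
      have key : ∀ e ∈ blk l, ∀ t < n, Below e (v t) →
          (a N (k2 - S ω e) : ℝ) ≤ R * a N (k1 - S ω e) := fun e he t ht hb => by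
        have hr : Below root e :=
          (mem_TQ.1 (hc t (Nat.zero_le _) ht).1).2.of_le hb (Nat.zero_le _)
        have hf : e.1 = D + j * h := by rw [blk_fst he, hl]
        have hjh : j * h ≤ D * h := Nat.mul_le_mul_right _ hjD.le
        refine ha _ ?_ (S_le_of_comp hcomp hr (by omega))
        have a1 : anc D e ∈ desc D root :=
          mem_desc.2 ⟨by simp [root], hr.anc_below (Nat.zero_le _) (by omega)⟩
        exact (hb2 _ a1).le.trans (S_mono (below_anc (by omega)))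
      refine ⟨lo, hi, l, cm, cp, by omega, g1, g2, g3, g4, g5, g6, g7, g8, ?_⟩
      have s1 := side_bound hκ hK hR g11 g9 (key cm g4 lo (by omega) g6)
      have s2 := side_bound hκ hK hR g12 g10 (key cp g5 (hi - 1) (by omega) g7)
      have s3 : ((hi - lo : ℕ) : ℝ) = ((τ - lo : ℕ) : ℝ) + ((hi - τ : ℕ) : ℝ) := by
        exact_mod_cast (by omega)
      rw [s3, mul_add]
      linarith)
  rw [h0', h1'] at hm
  have hd : (d ω k2 x y : ℝ) ≤ m := by exact_mod_cast d_le hm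
  have e : (d ω k1 x y : ℝ) = n := rfl
  rw [e] at hlt
  push_cast at hm2
  have e' : 2 * (K ^ 2 * R / κ) * (n : ℝ) = 2 * (K ^ 2 / κ) * R * n := by ring
  linarith

end Pool.Agent.P.MP_8c7dae_pr
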