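import Pool.Agent.P.MP_8c7dae_pr.Defs2

open Set

namespace Pool.Agent.P.MP_8c7dae_pr

namespace CoverAux

lemma mem_blk {c l : Cell} : c ∈ blk l ↔ c.1 = l.1 ∧ l.2.1 ≤ c.2.1 ∧ c.2.1 ≤ l.2.1 + 1 ∧
    l.2.2 ≤ c.2.2 ∧ c.2.2 ≤ l.2.2 + 1 := by
  obtain ⟨c0, c1, c2⟩ := c
  obtain ⟨l0, l1, l2⟩ := l
  simp only [blk, Finset.mem_insert, Finset.mem_singleton, Prod.mk.injEq]
  omega

lemma self_mem_blk (l : Cell) : l ∈ blk l := by simp [blk]

lemma card_blk (l : Cell) : (blk l).card ≤ 4 := Finset.card_le_four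

/-- the common corner of the cells of a block -/
noncomputable def ctr (l : Cell) : Pt := (((l.2.1 : ℝ) + 1) / 2 ^ l.1, ((l.2.2 : ℝ) + 1) / 2 ^ l.1)

lemma ctr_mem {c l : Cell} (h : c ∈ blk l) : ctr l ∈ sq c := by
  obtain ⟨e, h1, h2, h3, h4⟩ := mem_blk.1 h
  have hp := two_pow_pos' l.1
  have a1 : (l.2.1 : ℝ) ≤ c.2.1 := by exact_mod_cast h1
  have a2 : (c.2.1 : ℝ) ≤ l.2.1 + 1 := by exact_mod_cast h2
  have a3 : (l.2.2 : ℝ) ≤ c.2.2 := by exact_mod_cast h3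
  have a4 : (c.2.2 : ℝ) ≤ l.2.2 + 1 := by exact_mod_cast h4
  simp only [sq, ctr, mem_ofPred_eq, e]
  rw [mul_div_cancel₀ _ hp.ne', mul_div_cancel₀ _ hp.ne']
  exact ⟨a2, by linarith, a4, by linarith⟩

lemma coord_le (i : ℕ) (p z : Pt) :
    |2 ^ i * p.1 - 2 ^ i * z.1| ≤ 2 ^ i * dist p z ∧
      |2 ^ i * p.2 - 2 ^ i * z.2| ≤ 2 ^ i * dist p z := by
  have hp := two_pow_pos' i
  rw [← mul_sub, ← mul_sub, abs_mul, abs_mul, abs_of_pos hp, Prod.dist_eq, Real.dist_eq,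
    Real.dist_eq]
  exact ⟨mul_le_mul_of_nonneg_left (le_max_left _ _) hp.le,
    mul_le_mul_of_nonneg_left (le_max_right _ _) hp.le⟩

lemma anc_mem_blk {i : ℕ} {v : Cell} {p z : Pt} (hi : i ≤ v.1) (hp : p ∈ sq v)
    (hd : 2 ^ i * dist p z < 1 / 2) : anc i v ∈ blk (ll i z) := by
  obtain ⟨h1, h2, h3, h4⟩ := sq_sub_anc hi hp
  simp only [anc_fst] at h1 h2 h3 h4
  obtain ⟨d1, d2⟩ := coord_le i p z
  rw [abs_le] at d1 d2
  have f1 := Int.floor_le (2 ^ i * z.1 - 1 / 2 : ℝ)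
  have f2 := Int.lt_floor_add_one (2 ^ i * z.1 - 1 / 2 : ℝ)
  have f3 := Int.floor_le (2 ^ i * z.2 - 1 / 2 : ℝ)
  have f4 := Int.lt_floor_add_one (2 ^ i * z.2 - 1 / 2 : ℝ)
  have g1 : ⌊(2 ^ i * z.1 - 1 / 2 : ℝ)⌋ < (anc i v).2.1 + 1 := by
    have : ((⌊(2 ^ i * z.1 - 1 / 2 : ℝ)⌋ : ℤ) : ℝ) < ((anc i v).2.1 : ℝ) + 1 := by linarith
    exact_mod_cast this
  have g2 : (anc i v).2.1 < ⌊(2 ^ i * z.1 - 1 / 2 : ℝ)⌋ + 2 := by
    have : ((anc i v).2.1 : ℝ) < ((⌊(2 ^ i * z.1 - 1 / 2 : ℝ)⌋ : ℤ) : ℝ) + 2 := by linarith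
    exact_mod_cast this
  have g3 : ⌊(2 ^ i * z.2 - 1 / 2 : ℝ)⌋ < (anc i v).2.2 + 1 := by
    have : ((⌊(2 ^ i * z.2 - 1 / 2 : ℝ)⌋ : ℤ) : ℝ) < ((anc i v).2.2 : ℝ) + 1 := by linarith
    exact_mod_cast this
  have g4 : (anc i v).2.2 < ⌊(2 ^ i * z.2 - 1 / 2 : ℝ)⌋ + 2 := by
    have : ((anc i v).2.2 : ℝ) < ((⌊(2 ^ i * z.2 - 1 / 2 : ℝ)⌋ : ℤ) : ℝ) + 2 := by linarith
    exact_mod_cast this
  rw [mem_blk]
  simp only [ll, anc_fst]
  exact ⟨trivial, by omega, by omega, by omega, by omega⟩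

lemma dist_ctr_ll (i : ℕ) (z : Pt) : 2 ^ i * dist (ctr (ll i z)) z ≤ 1 / 2 := by
  have hp := two_pow_pos' i
  have f1 := Int.floor_le (2 ^ i * z.1 - 1 / 2 : ℝ)
  have f2 := Int.lt_floor_add_one (2 ^ i * z.1 - 1 / 2 : ℝ)
  have f3 := Int.floor_le (2 ^ i * z.2 - 1 / 2 : ℝ)
  have f4 := Int.lt_floor_add_one (2 ^ i * z.2 - 1 / 2 : ℝ)
  rw [Prod.dist_eq, mul_max_of_nonneg _ _ hp.le, Real.dist_eq, Real.dist_eq,
    ← abs_of_pos hp, ← abs_mul, ← abs_mul, mul_sub, mul_sub]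
  simp only [ctr, ll]
  rw [mul_div_cancel₀ _ hp.ne', mul_div_cancel₀ _ hp.ne']
  refine max_le (abs_le.2 ⟨?_, ?_⟩) (abs_le.2 ⟨?_, ?_⟩) <;> linarith

lemma scale_le {i h k : ℕ} (hh : k ≤ h) {x y : ℝ} (hx : 0 ≤ x) (hxy : 2 ^ (i + h) * x ≤ y) :
    2 ^ i * x ≤ y / 2 ^ k := by
  have h1 : (2 : ℝ) ^ k ≤ 2 ^ h := pow_le_pow_right₀ (by norm_num) hh
  have h2 := two_pow_pos' i
  rw [le_div_iff₀ (two_pow_pos' k)]
  calc 2 ^ i * x * 2 ^ k ≤ 2 ^ i * x * 2 ^ h := by gcongr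
    _ = 2 ^ (i + h) * x := by ring
    _ ≤ y := hxy

lemma tri (i : ℕ) (x y z : Pt) : 2 ^ i * dist x z ≤ 2 ^ i * dist x y + 2 ^ i * dist y z := by
  rw [← mul_add]
  exact mul_le_mul_of_nonneg_left (dist_triangle x y z) (two_pow_pos' i).le

/-- the pattern lemma -/
lemma pattern (g : ℕ → Cell) (W : Cell → ℕ) (p : ℕ → Pt) {ρ : ℝ} (hρ : 0 < ρ) (s : ℕ) :
    ∀ (F : Finset Cell), F.card ≤ s → ∀ a b : ℕ, a ≤ b → (∀ j, a ≤ j → j < b → g j ∈ F) →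
      (2 ^ (s + 1) - 1) * ρ ≤ dist (p a) (p b) →
      ∃ a' b', a ≤ a' ∧ a' < b' ∧ b' ≤ b ∧ g (b' - 1) = g a' ∧ ρ ≤ dist (p a') (p b') ∧
        ∀ j, a' ≤ j → j < b' → W (g j) ≤ W (g a') := by
  induction s with
  | zero =>
    intro F hF a b hab hg hd
    rcases hab.eq_or_lt with rfl | hlt
    · simp only [dist_self] at hd
      norm_num at hd
      linarith
    · have := Finset.card_pos.2 ⟨_, hg a le_rfl hlt⟩
      omega
  | succ s ih =>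
    intro F hF a b hab hg hd
    have hs : (1 : ℝ) ≤ 2 ^ (s + 1) := one_le_pow₀ (by norm_num)
    rcases hab.eq_or_lt with rfl | hlt
    · simp only [dist_self] at hd
      rw [pow_succ] at hd
      nlinarith
    obtain ⟨c, hcF, hc⟩ := F.exists_max_image W ⟨_, hg a le_rfl hlt⟩
    have hcard : (F.erase c).card ≤ s := by
      rw [Finset.card_erase_of_mem hcF]; omega
    by_cases hex : ∃ j, a ≤ j ∧ j < b ∧ g j = c
    · obtain ⟨j0, h1, h2, h3⟩ := hex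
      obtain ⟨t, t1, t2, t3, t4⟩ := exists_first (P := fun j => g j = c) h1 h3
      obtain ⟨u, u1, u2, u3, u4⟩ := exists_last (P := fun j => g j = c)
        (show j0 ≤ b - 1 by omega) h3
      by_cases hρd : ρ ≤ dist (p t) (p (u + 1))
      · refine ⟨t, u + 1, t1, by omega, by omega, by simp [t3, u3], hρd, fun j j1 j2 => ?_⟩
        rw [t3]
        exact hc _ (hg j (by omega) (by omega))
      · have htri := dist_triangle4 (p a) (p t) (p (u + 1)) (p b)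
        push Not at hρd
        by_cases hl : (2 ^ (s + 1) - 1) * ρ ≤ dist (p a) (p t)
        · obtain ⟨a', b', e1, e2, e3, e4⟩ := ih (F.erase c) hcard a t t1
            (fun j j1 j2 => Finset.mem_erase.2 ⟨t4 j j1 j2, hg j j1 (by omega)⟩) hl
          exact ⟨a', b', e1, e2, by omega, e4⟩
        · push Not at hl
          obtain ⟨a', b', e1, e2, e3, e4⟩ := ih (F.erase c) hcard (u + 1) b (by omega)
            (fun j j1 j2 => Finset.mem_erase.2 ⟨u4 j (by omega) (by omega), hg j (by omega) j2⟩)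
            (by rw [pow_succ 2 (s + 1)] at hd; nlinarith)
          exact ⟨a', b', by omega, e2, e3, e4⟩
    · refine ih (F.erase c) hcard a b hab
        (fun j j1 j2 => Finset.mem_erase.2 ⟨fun h => hex ⟨j, j1, j2, h⟩, hg j j1 j2⟩) ?_
      rw [pow_succ 2 (s + 1)] at hd
      nlinarith

/-- the pattern lemma in a block -/
lemma pattern_blk (W : Cell → ℕ) (p : ℕ → Pt) (v : ℕ → Cell) (i : ℕ) (l : Cell) {a b : ℕ}
    (hab : a ≤ b) (hg : ∀ j, a ≤ j → j < b → anc i (v j) ∈ blk l)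
    (hd : 1 / 4 ≤ 2 ^ i * dist (p a) (p b)) :
    ∃ a' b', a ≤ a' ∧ a' < b' ∧ b' ≤ b ∧ anc i (v (b' - 1)) = anc i (v a') ∧
      1 / (128 * 2 ^ i) ≤ dist (p a') (p b') ∧
      ∀ j, a' ≤ j → j < b' → W (anc i (v j)) ≤ W (anc i (v a')) := by
  have hp := two_pow_pos' i
  refine pattern (fun j => anc i (v j)) W p (by positivity) 4 (blk l) (card_blk l) a b hab hg ?_
  rw [mul_one_div, div_le_iff₀ (by positivity)]
  norm_num
  linarith

lemma blk_sub {i h : ℕ} (hh : 6 ≤ h) {z z' : Pt} (h1 : 1 / 16 ≤ 2 ^ i * dist z' z)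
    (h2 : 2 ^ i * dist z' z ≤ 7 / 16) : ll (i + h) z' ∈ subs h (ll i z) (ll (i + h) z) := by
  have hc : 2 ^ i * dist (ctr (ll (i + h) z')) z' ≤ 1 / 2 / 2 ^ 6 :=
    scale_le hh dist_nonneg (dist_ctr_ll (i + h) z')
  have key : ∀ c ∈ blk (ll (i + h) z'), anc i c ∈ blk (ll i z) ∧ Below (anc i c) c := by
    intro c hc'
    have e : c.1 = i + h := (mem_blk.1 hc').1
    refine ⟨anc_mem_blk (by omega) (ctr_mem hc') ?_, below_anc (by omega)⟩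
    have := tri i (ctr (ll (i + h) z')) z' z
    norm_num at hc ⊢
    linarith
  simp only [subs, Finset.mem_filter, Finset.mem_biUnion]
  refine ⟨⟨_, (key _ (self_mem_blk _)).1, mem_desc.2 ⟨rfl, (key _ (self_mem_blk _)).2⟩⟩,
    fun c hc' => ⟨⟨_, key c hc'⟩, fun hc'' => ?_⟩⟩
  have e : c.1 = i + h := (mem_blk.1 hc').1
  have d1 : 2 ^ (i + h) * dist (ctr (ll (i + h) z')) (ctr (ll (i + h) z)) ≤ 1 :=
    dist_le_of_mem_sq' e.ge (ctr_mem hc') (ctr_mem hc'')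
  have d2 := scale_le hh dist_nonneg d1
  have d3 := scale_le hh dist_nonneg (dist_ctr_ll (i + h) z)
  have t1 := tri i z' (ctr (ll (i + h) z')) z
  have t2 := tri i (ctr (ll (i + h) z')) (ctr (ll (i + h) z)) z
  rw [dist_comm z' (ctr _)] at t1
  norm_num at hc d2 d3 h1
  linarith

/-- the core lemma on an annular stretch -/
lemma core_lemma (A : Set Cell) (W : Cell → ℕ) (p : ℕ → Pt) (v : ℕ → Cell) (n : ℕ)
    (hc : IsCh A p v 0 n) (i h : ℕ) (hh : 6 ≤ h) (hd : ∀ j < n, i + h ≤ (v j).1) (z : Pt)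
    (α : Cell → ℝ) (G : Cell → Prop)
    (hLB : ∀ l ∈ subs h (ll i z) (ll (i + h) z), ∀ c ∈ blk l, G c ∧
      LBs {u | u ∈ A ∧ ∃ c' ∈ blk l, Below c' u ∧ W c' ≤ W c} (1 / (128 * 2 ^ (i + h))) (α c))
    {a b : ℕ} (hab : a ≤ b) (hbn : b ≤ n)
    (hann : ∀ j, a ≤ j → j ≤ b → 1 / 16 ≤ 2 ^ i * dist (p j) z ∧ 2 ^ i * dist (p j) z ≤ 7 / 16)
    (hmove : 1 / 4 ≤ 2 ^ i * dist (p a) (p b)) :
    ∃ a' b' cp, a ≤ a' ∧ a' < b' ∧ b' ≤ b ∧ cp ∈ blk (ll i z) ∧ Below cp (v a') ∧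
      Below cp (v (b' - 1)) ∧
      ∃ c j1 j2, a' ≤ j1 ∧ j1 ≤ j2 ∧ j2 < b' ∧ c.1 = i + h ∧ G c ∧ Below c (v j1) ∧
        Below c (v j2) ∧ α c ≤ ((j2 + 1 - j1 : ℕ) : ℝ) ∧
        ∃ c0 ∈ blk (ll i z), Below c0 c ∧ W c0 ≤ W cp := by
  have hg : ∀ j, a ≤ j → j < b → anc i (v j) ∈ blk (ll i z) := fun j j1 j2 =>
    anc_mem_blk (by have := hd j (by omega); omega) (hc j (by omega) (by omega)).2.1
      (by have := (hann j j1 j2.le).2; linarith)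
  obtain ⟨a', b', e1, e2, e3, e4, e5, e6⟩ := pattern_blk W p v i _ hab hg hmove
  have hsub := blk_sub hh (hann a' e1 (by omega)).1 (hann a' e1 (by omega)).2
  have hfar : 1 / 4 ≤ 2 ^ (i + h) * dist (p b') (p a') := by
    have h1 : (2 : ℝ) ^ 6 ≤ 2 ^ h := pow_le_pow_right₀ (by norm_num) hh
    have h2 := two_pow_pos' i
    rw [div_le_iff₀ (by positivity), dist_comm] at e5
    have h3 : 0 ≤ 2 ^ i * dist (p b') (p a') := by positivity
    rw [pow_add]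
    nlinarith
  obtain ⟨e, f1, f2, f3, f4⟩ := exists_first
    (P := fun j => 1 / 4 ≤ 2 ^ (i + h) * dist (p j) (p a')) e2.le hfar
  have hg' : ∀ j, a' ≤ j → j < e → anc (i + h) (v j) ∈ blk (ll (i + h) (p a')) := fun j j1 j2 =>
    anc_mem_blk (hd j (by omega)) (hc j (by omega) (by omega)).2.1
      (by have := not_le.1 (f4 j j1 j2); linarith)
  obtain ⟨j1, j2, k1, k2, k3, k4, k5, k6⟩ := pattern_blk W p v (i + h) _ f1 hg'
    (by rw [dist_comm]; exact f3)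
  obtain ⟨hG, hL⟩ := hLB _ hsub _ (hg' j1 k1 (by omega))
  have hch : IsCh {u | u ∈ A ∧ ∃ c' ∈ blk (ll (i + h) (p a')), Below c' u ∧
      W c' ≤ W (anc (i + h) (v j1))} p v j1 j2 :=
    hc.restrict (Nat.zero_le _) (by omega) fun t t1 t2 =>
      ⟨(hc t (by omega) (by omega)).1, _, hg' t (by omega) (by omega),
        below_anc (hd t (by omega)), k6 t t1 t2⟩
  have hα := hL _ _ _ (hch.reach k2.le) k5
  have hi : ∀ j < n, i ≤ (v j).1 := fun j hj => by have := hd j hj; omega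
  refine ⟨a', b', anc i (v a'), e1, e2, e3, hg a' e1 (by omega), below_anc (hi _ (by omega)),
    e4 ▸ below_anc (hi _ (by omega)), anc (i + h) (v j1), j1, j2 - 1, k1, by omega, by omega, rfl,
    hG, below_anc (hd _ (by omega)), k4 ▸ below_anc (hd _ (by omega)), ?_,
    anc i (v j1), hg j1 (by omega) (by omega), ?_, e6 j1 k1 (by omega)⟩
  · rwa [show j2 - 1 + 1 - j1 = j2 - j1 by omega]
  · exact (below_anc (hi _ (by omega))).anc_below (by simp) (hd _ (by omega))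

/-- valid intervals of the greedy covering -/
def Valid (v : ℕ → Cell) (n D : ℕ) (Λ : ℝ) (X2 : Cell → ℕ) (a b : ℕ) (l cm cp : Cell) : Prop :=
  D ≤ l.1 ∧ a < b ∧ b ≤ n ∧ cm ∈ blk l ∧ cp ∈ blk l ∧ Below cm (v a) ∧ Below cp (v (b - 1)) ∧
    (∀ j, a ≤ j → j < b → ∃ c ∈ blk l, Below c (v j)) ∧
    (X2 cm + X2 cp : ℝ) ≤ Λ * ((b - a : ℕ) : ℝ)

/-- interlocked valid intervals have touching end cells -/
lemma touch {A : Set Cell} {p : ℕ → Pt} {v : ℕ → Cell} {n D : ℕ} {Λ : ℝ} {X2 : Cell → ℕ}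
    (hc : IsCh A p v 0 n) {a b a' b' : ℕ} {l cm cp l' cm' cp' : Cell}
    (h : Valid v n D Λ X2 a b l cm cp) (h' : Valid v n D Λ X2 a' b' l' cm' cp')
    (h1 : a ≤ a') (h2 : a' ≤ b) (h3 : b < b') : ∃ w, w ∈ sq cp ∧ w ∈ sq cm' := by
  obtain ⟨-, v2, v3, -, v5, -, v7, v8, -⟩ := h
  obtain ⟨-, -, w3, w4, -, w6, -, w8, -⟩ := h'
  rcases h2.eq_or_lt with rfl | hlt
  · have := (hc (a' - 1) (Nat.zero_le _) (by omega)).2.2
    rw [show a' - 1 + 1 = a' by omega] at this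
    exact ⟨p a', v7.sq_sub this, w6.sq_sub (hc a' (Nat.zero_le _) (by omega)).2.1⟩
  · rcases le_total l.1 l'.1 with hl | hl
    · obtain ⟨c, c1, c2⟩ := w8 (b - 1) (by omega) (by omega)
      have hb : Below cp c := v7.of_le c2 (by rw [(mem_blk.1 v5).1, (mem_blk.1 c1).1]; exact hl)
      exact ⟨ctr l', hb.sq_sub (ctr_mem c1), ctr_mem w4⟩
    · obtain ⟨c, c1, c2⟩ := v8 a' h1 hlt
      have hb : Below cm' c := w6.of_le c2 (by rw [(mem_blk.1 w4).1, (mem_blk.1 c1).1]; exact hl)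
      exact ⟨ctr l, ctr_mem v5, hb.sq_sub (ctr_mem c1)⟩

end CoverAux

open CoverAux

theorem ll_nested (i h : ℕ) (hh : 2 ≤ h) (z : Pt) :
    ∀ c ∈ blk (ll (i + h) z), ∃ c0 ∈ blk (ll i z), Below c0 c := by
  intro c hc
  have e : c.1 = i + h := (mem_blk.1 hc).1
  refine ⟨anc i c, anc_mem_blk (by omega) (ctr_mem hc) ?_, below_anc (by omega)⟩
  have := scale_le hh dist_nonneg (dist_ctr_ll (i + h) z)
  norm_num at this ⊢
  linarith

theorem local_interval (A : Set Cell) (W : Cell → ℕ) (p : ℕ → Pt) (v : ℕ → Cell) (n : ℕ)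
    (hc : IsCh A p v 0 n) (i h : ℕ) (hh : 6 ≤ h) (hd : ∀ j < n, i + h ≤ (v j).1) (z : Pt)
    (τ : ℕ) (hτ : τ ≤ n) (hz : 2 ^ i * dist (p τ) z ≤ 1 / 32)
    (hx : 1 ≤ 2 ^ i * dist (p τ) (p 0)) (hy : 1 ≤ 2 ^ i * dist (p τ) (p n))
    (α : Cell → ℝ) (G : Cell → Prop)
    (hLB : ∀ l ∈ subs h (ll i z) (ll (i + h) z), ∀ c ∈ blk l, G c ∧
      LBs {u | u ∈ A ∧ ∃ c' ∈ blk l, Below c' u ∧ W c' ≤ W c} (1 / (128 * 2 ^ (i + h))) (α c)) :
    ∃ a b cm cp, a ≤ τ ∧ τ < b ∧ b ≤ n ∧ cm ∈ blk (ll i z) ∧ cp ∈ blk (ll i z) ∧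
      Below cm (v a) ∧ Below cp (v (b - 1)) ∧
      (∀ j, a ≤ j → j < b → ∃ c ∈ blk (ll i z), Below c (v j)) ∧
      (∃ c j1 j2, a ≤ j1 ∧ j1 ≤ j2 ∧ j2 < τ ∧ c.1 = i + h ∧ G c ∧ Below c (v j1) ∧
        Below c (v j2) ∧ α c ≤ ((j2 + 1 - j1 : ℕ) : ℝ) ∧
        ∃ c0 ∈ blk (ll i z), Below c0 c ∧ W c0 ≤ W cm) ∧
      (∃ c j1 j2, τ ≤ j1 ∧ j1 ≤ j2 ∧ j2 < b ∧ c.1 = i + h ∧ G c ∧ Below c (v j1) ∧
        Below c (v j2) ∧ α c ≤ ((j2 + 1 - j1 : ℕ) : ℝ) ∧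
        ∃ c0 ∈ blk (ll i z), Below c0 c ∧ W c0 ≤ W cp) := by
  set f : ℕ → ℝ := fun j => 2 ^ i * dist (p j) z with hf
  have hstep : ∀ j < n, f (j + 1) ≤ f j + 1 / 64 ∧ f j ≤ f (j + 1) + 1 / 64 := by
    intro j hj
    obtain ⟨-, h1, h2⟩ := hc j (Nat.zero_le _) hj
    have h3 := scale_le hh dist_nonneg (dist_le_of_mem_sq' (hd j hj) h1 h2)
    have t1 := tri i (p (j + 1)) (p j) z
    have t2 := tri i (p j) (p (j + 1)) z
    rw [dist_comm (p (j + 1)) (p j)] at t1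
    norm_num at h3
    simp only [hf]
    constructor <;> linarith
  have hfar : ∀ j k, f j ≤ 2 ^ i * dist (p j) (p k) + f k := fun j k => tri i _ _ _
  have hτ' : f τ ≤ 1 / 32 := hz
  have h0 : 3 / 8 ≤ f 0 := by
    have := tri i (p τ) z (p 0)
    rw [dist_comm z] at this
    simp only [hf]
    linarith
  have hn : 3 / 8 ≤ f n := by
    have := tri i (p τ) z (p n)
    rw [dist_comm z] at this
    simp only [hf]
    linarith
  obtain ⟨t2, a1, a2, a3, a4⟩ := exists_first (P := fun j => 3 / 8 ≤ f j) hτ hn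
  obtain ⟨t1, b1, b2, b3, b4⟩ := exists_last (P := fun j => f j ≤ 1 / 8) a1 (by linarith)
  obtain ⟨s2, -, c2, c3, c4⟩ := exists_last (P := fun j => 3 / 8 ≤ f j) (Nat.zero_le τ) h0
  obtain ⟨s1, d1, d2, d3, d4⟩ := exists_first (P := fun j => f j ≤ 1 / 8) (b := τ) c2 (by linarith)
  have ht2 : τ < t2 := lt_of_le_of_ne a1 (by rintro rfl; linarith)
  have hs2 : s2 < τ := lt_of_le_of_ne c2 (by rintro rfl; linarith)
  have ht1 : t1 < t2 := lt_of_le_of_ne b2 (by rintro rfl; linarith)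
  have hs1 : s2 < s1 := lt_of_le_of_ne d1 (by rintro rfl; linarith)
  have hup : ∀ j, s2 ≤ j → j ≤ t2 → f j ≤ 7 / 16 := by
    intro j j1 j2
    rcases j1.eq_or_lt with rfl | j1
    · have := not_le.1 (c4 (s2 + 1) (by omega) (by omega))
      have := (hstep s2 (by omega)).2
      linarith
    rcases j2.eq_or_lt with rfl | j2
    · have h1 := not_le.1 (a4 (j - 1) (by omega) (by omega))
      have h2 := (hstep (j - 1) (by omega)).1
      rw [show j - 1 + 1 = j by omega] at h2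
      linarith
    rcases le_total j τ with h1 | h1
    · have := not_le.1 (c4 j j1 h1); linarith
    · have := not_le.1 (a4 j h1 j2); linarith
  obtain ⟨a, b', cm, e1, e2, e3, e4, e5, -, c, j1, j2, e6, e7, e8, e9⟩ :=
    core_lemma A W p v n hc i h hh hd z α G hLB d1 (by omega) (fun j j1 j2 => by
      refine ⟨?_, hup j j1 (by omega)⟩
      change 1 / 16 ≤ f j
      rcases j2.eq_or_lt with rfl | j2
      · have h1 := not_le.1 (d4 (j - 1) (by omega) (by omega))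
        have h2 := (hstep (j - 1) (by omega)).2
        rw [show j - 1 + 1 = j by omega] at h2
        linarith
      · have := not_le.1 (d4 j j1 j2); linarith) (by have := hfar s2 s1; linarith)
  obtain ⟨a', b, cp, g1, g2, g3, g4, -, g5, c', k1, k2, g6, g7, g8, g9⟩ :=
    core_lemma A W p v n hc i h hh hd z α G hLB b2 a2 (fun j j1 j2 => by
      refine ⟨?_, hup j (by omega) j2⟩
      change 1 / 16 ≤ f j
      rcases j1.eq_or_lt with rfl | j1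
      · have h1 := not_le.1 (b4 (t1 + 1) (by omega) (by omega))
        have h2 := (hstep t1 (by omega)).1
        linarith
      · have := not_le.1 (b4 j j1 j2); linarith)
      (by have := hfar t2 t1; rw [dist_comm] at this; linarith)
  refine ⟨a, b, cm, cp, by omega, by omega, by omega, e4, g4, e5, g5, fun j j1 j2 => ?_,
    ⟨c, j1, j2, e6, e7, by omega, e9⟩, ⟨c', k1, k2, by omega, g7, g8, g9⟩⟩
  have hi : i ≤ (v j).1 := by have := hd j (by omega); omega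
  refine ⟨anc i (v j), anc_mem_blk hi (hc j (by omega) (by omega)).2.1 ?_, below_anc hi⟩
  have := hup j (by omega) (by omega)
  change f j < 1 / 2
  linarith

theorem greedy (A A2 : Set Cell) (hA : ∀ u ∈ A, Below root u) (p : ℕ → Pt) (v : ℕ → Cell)
    (n : ℕ) (hc : IsCh A p v 0 n) (h0 : p 0 ∈ Q) (h1 : p n ∈ Q) (D : ℕ)
    (hd : ∀ j < n, D ≤ (v j).1) (Λ : ℝ) (hΛ : 0 ≤ Λ) (X2 : Cell → ℕ) (I0 : ℕ)
    (hX : ∀ c, Below root c → ∀ x ∈ sq c, ∀ y ∈ sq c, Reach A2 (X2 c) x y)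
    (hI : ∀ x ∈ Q, ∀ y ∈ Q, 2 ^ D * dist x y ≤ 4 → Reach A2 I0 x y)
    (hval : ∀ τ ≤ n, 1 < 2 ^ D * dist (p τ) (p 0) → 1 < 2 ^ D * dist (p τ) (p n) →
      ∃ (a b : ℕ) (l cm cp : Cell), D ≤ l.1 ∧ a ≤ τ ∧ τ < b ∧ b ≤ n ∧ cm ∈ blk l ∧ cp ∈ blk l ∧
        Below cm (v a) ∧ Below cp (v (b - 1)) ∧
        (∀ j, a ≤ j → j < b → ∃ c ∈ blk l, Below c (v j)) ∧
        (X2 cm + X2 cp : ℝ) ≤ Λ * ((b - a : ℕ) : ℝ)) :
    ∃ m : ℕ, Reach A2 m (p 0) (p n) ∧ (m : ℝ) ≤ 2 * I0 + 2 * Λ * n := by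
  have hI0 : (0 : ℝ) ≤ I0 := Nat.cast_nonneg _
  have hn0 : (0 : ℝ) ≤ n := Nat.cast_nonneg _
  have hroot : ∀ c j, j < n → Below c (v j) → Below root c := fun c j hj hb =>
    (hA _ (hc j (Nat.zero_le _) hj).1).of_le hb (Nat.zero_le _)
  have direct : 2 ^ D * dist (p 0) (p n) ≤ 4 →
      ∃ m : ℕ, Reach A2 m (p 0) (p n) ∧ (m : ℝ) ≤ 2 * I0 + 2 * Λ * n := fun h =>
    ⟨I0, hI _ h0 _ h1 h, by nlinarith [mul_nonneg hΛ hn0]⟩
  have pick : ∀ β ≤ n, 1 < 2 ^ D * dist (p β) (p 0) → 1 < 2 ^ D * dist (p β) (p n) →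
      ∃ a b l cm cp, a ≤ β ∧ β < b ∧ Valid v n D Λ X2 a b l cm cp ∧
        ∀ a' b' l' cm' cp', Valid v n D Λ X2 a' b' l' cm' cp' → a' ≤ β → b' ≤ b := by
    intro β hβ hx hy
    obtain ⟨a, b, l, cm, cp, w1, w2, w3, w4, w5⟩ := hval β hβ hx hy
    obtain ⟨t, t1, -, ⟨a', l', cm', cp', t3, t4⟩, t5⟩ := exists_last
      (P := fun b => ∃ a l cm cp, a ≤ β ∧ Valid v n D Λ X2 a b l cm cp) w4
      ⟨a, l, cm, cp, w2, w1, by omega, w4, w5⟩
    refine ⟨a', t, l', cm', cp', t3, by omega, t4, fun a2 b2 l2 cm2 cp2 hv ha => ?_⟩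
    by_contra hcon
    exact t5 b2 (by omega) hv.2.2.1 ⟨a2, l2, cm2, cp2, ha, hv⟩
  obtain ⟨t, -, t2, t3, t4⟩ := exists_last (P := fun j => 2 ^ D * dist (p j) (p 0) ≤ 1)
    (Nat.zero_le n) (by simp)
  rcases t2.eq_or_lt with rfl | t2
  · exact direct (by rw [dist_comm]; linarith)
  have main : ∀ k a b β l cm cp, n - b = k → a ≤ β → β < b → t < b →
      Valid v n D Λ X2 a b l cm cp →
      (∀ a' b' l' cm' cp', Valid v n D Λ X2 a' b' l' cm' cp' → a' ≤ β → b' ≤ b) →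
      (∀ y ∈ sq cp, ∃ m : ℕ, Reach A2 m (p 0) y ∧ (m : ℝ) ≤ I0 + Λ * (b + β)) →
      ∃ m : ℕ, Reach A2 m (p 0) (p n) ∧ (m : ℝ) ≤ 2 * I0 + 2 * Λ * n := by
    intro k
    induction k using Nat.strong_induction_on with
    | _ k ih =>
    intro a b β l cm cp hk hab hβ htb hv hmax hcost
    have hbn : b ≤ n := hv.2.2.1
    have hpb : p b ∈ sq cp := by
      have := (hc (b - 1) (Nat.zero_le _) (by omega)).2.2
      rw [show b - 1 + 1 = b by omega] at this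
      exact hv.2.2.2.2.2.2.1.sq_sub this
    by_cases hend : 2 ^ D * dist (p b) (p n) ≤ 1
    · obtain ⟨m, m1, m2⟩ := hcost _ hpb
      have hQ : p b ∈ Q := (hroot cp (b - 1) (by omega) hv.2.2.2.2.2.2.1).sq_sub hpb
      refine ⟨m + I0, m1.trans (hI _ hQ _ h1 (by linarith)), ?_⟩
      have e1 : (b : ℝ) ≤ n := by exact_mod_cast hbn
      have e2 : (β : ℝ) ≤ n := by exact_mod_cast (by omega : β ≤ n)
      push_cast
      nlinarith
    obtain ⟨a', b', l', cm', cp', u1, u2, hv', hmax'⟩ :=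
      pick b hbn (not_le.1 (t4 b htb hbn)) (not_le.1 hend)
    have hβa : β < a' := by
      by_contra hcon
      have := hmax _ _ _ _ _ hv' (by omega)
      omega
    have hb'n : b' ≤ n := hv'.2.2.1
    refine ih (n - b') (by omega) a' b' b l' cm' cp' rfl u1 u2 (by omega) hv' hmax' fun y hy => ?_
    obtain ⟨w, w1, w2⟩ := touch hc hv hv' (by omega) u1 u2
    obtain ⟨m, m1, m2⟩ := hcost w w1
    obtain ⟨-, -, -, x4, x5, x6, x7, -, x9⟩ := hv'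
    refine ⟨m + X2 cm' + X2 cp',
      (m1.trans (hX _ (hroot _ a' (by omega) x6) _ w2 _ (ctr_mem x4))).trans
        (hX _ (hroot _ (b' - 1) (by omega) x7) _ (ctr_mem x5) _ hy), ?_⟩
    have e1 : ((b' - a' : ℕ) : ℝ) + β ≤ b' := by exact_mod_cast (by omega : b' - a' + β ≤ b')
    push_cast
    nlinarith
  have hnear : 2 ^ D * dist (p 0) (p (t + 1)) ≤ 2 := by
    obtain ⟨-, s1, s2⟩ := hc t (Nat.zero_le _) t2
    have s3 := dist_le_of_mem_sq' (hd t t2) s1 s2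
    have s4 := tri D (p 0) (p t) (p (t + 1))
    rw [dist_comm (p 0) (p t)] at s4
    linarith
  by_cases hend : 2 ^ D * dist (p (t + 1)) (p n) ≤ 1
  · exact direct (by have := tri D (p 0) (p (t + 1)) (p n); linarith)
  obtain ⟨a, b, l, cm, cp, u1, u2, hv, hmax⟩ :=
    pick (t + 1) t2 (not_le.1 (t4 _ (by omega) t2)) (not_le.1 hend)
  refine main _ a b (t + 1) l cm cp rfl u1 u2 (by omega) hv hmax fun y hy => ?_
  obtain ⟨x1, x2, x3, -, x5, -, x7, x8, x9⟩ := hv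
  obtain ⟨c, c1, c2⟩ := x8 (t + 1) u1 u2
  have hr := hroot _ (b - 1) (by omega) x7
  have s1 : 2 ^ D * dist (p (t + 1)) (ctr l) ≤ 1 :=
    dist_le_of_mem_sq' (by rw [(mem_blk.1 c1).1]; exact x1)
      (c2.sq_sub (hc (t + 1) (Nat.zero_le _) (by omega)).2.1) (ctr_mem c1)
  refine ⟨I0 + X2 cp, (hI _ h0 _ (hr.sq_sub (ctr_mem x5))
    (by have := tri D (p 0) (p (t + 1)) (ctr l); linarith)).trans (hX _ hr _ (ctr_mem x5) _ hy), ?_⟩
  have e1 : ((b - a : ℕ) : ℝ) ≤ b + ((t + 1 : ℕ) : ℝ) := by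
    exact_mod_cast (by omega : b - a ≤ b + (t + 1))
  have e2 : (0 : ℝ) ≤ X2 cm := Nat.cast_nonneg _
  rw [Nat.cast_add I0]
  nlinarith

end Pool.Agent.P.MP_8c7dae_pr
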