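import Pool.Agent.P.MP_8c7dae_pr.DePoC

open MeasureTheory Set Filter

namespace Pool.Agent.P.MP_8c7dae_pr

open DePo

theorem measurable_Mc (n : ℕ) : Measurable (Mc n) := by
  have : Mc n = (fun a : (j : Fin n) → Fin (3 * j + 3 + 1) => Mc n (exI a)) ∘
      fun (ι : Iota) (j : Fin n) => ι j := funext fun ι => Mc_congr (exI_res ι) le_rfl
  rw [this]
  exact (measurable_of_countable _).comp (measurable_pi_lambda _ fun j => measurable_pi_apply _)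

theorem one_le_Mc (n : ℕ) (ι : Iota) : 1 ≤ Mc n ι := by
  obtain ⟨ω, h⟩ := exists_Ev ι (fun _ => 0) n
  rw [← h.dc_eq le_rfl]
  exact one_le_dc _

theorem depo_CC
    (hGEO : ∀ ε : ℝ, 0 < ε → ∃ l : ℕ, 1 ≤ l ∧ ∀ η : ℝ, 0 < η → ∃ t0 : ℕ, ∃ᶠ N in atTop,
      ∀ k k' : ℕ, t0 * N ≤ k → t0 * N ≤ k' → ∃ c : ℝ,
        Pr N (fun ω => ∃ j ∈ Finset.Icc k (k + N / l), ∃ j' ∈ Finset.Icc k' (k' + N / l),
          ε < |Real.log (dc ω j') - Real.log (dc ω j) - c|) ≤ η) :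
    ∀ ε : ℝ, 0 < ε → ∃ n0 : ℕ, ∀ n n' : ℕ, n0 ≤ n → n ≤ n' → ∃ c : ℝ,
      Pι.real {ι | ε < |Real.log (Mc n' ι) - Real.log (Mc n ι) - c|} ≤ ε := by
  intro ε hε
  obtain ⟨l, hl, H⟩ := hGEO ε hε
  obtain ⟨γ, hγ, hw⟩ := win hl
  obtain ⟨t0, H⟩ := H (ε * γ) (by positivity)
  obtain ⟨n0, hw⟩ := hw t0
  refine ⟨n0, fun n n' h1 h2 => ?_⟩
  obtain ⟨N, H, ⟨k, k', hk, hk', Γ, hΓ, hΓ'⟩, hN⟩ :=
    (H.and_eventually ((hw n n' h1 h2).and (eventually_ge_atTop 2))).exists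
  obtain ⟨c, hc⟩ := H k k' hk hk'
  refine ⟨c, le_of_mul_le_mul_right (le_trans ?_ hc) hγ⟩
  refine (mul_le_mul_of_nonneg_left hΓ measureReal_nonneg).trans (main_lb hN n' _
    (fun ι ι' h => by rw [Mc_congr h le_rfl, Mc_congr h h2]; exact id) Γ
    (Elem.ex _ fun j _ => Elem.ex _ fun j' _ => (elem_dc j').map₂ (elem_dc j)
      fun a b => ε < |Real.log a - Real.log b - c|) fun ι ω r hr hι he => ?_)
  refine ⟨_, (hΓ' r hr).1, _, (hΓ' r hr).2, ?_⟩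
  rwa [he.dc_eq le_rfl, he.dc_eq h2]

namespace DePo

/-- `n + 1` splits happen one at a time before time `K` -/
def Fast (n K : ℕ) (ω : Om) : Prop := ∃ ι r, Ev ι r n ω ∧ tm r (n + 1) ≤ K

lemma Fast.congr {n K : ℕ} {ω ω' : Om} (h : ∀ t ≤ K, TQ ω t = TQ ω' t) :
    Fast n K ω = Fast n K ω' := by
  refine propext ⟨?_, ?_⟩
  · rintro ⟨ι, r, h1, h2⟩
    exact ⟨ι, r, fun t ht => (h t (ht.trans h2)).symm.trans (h1 t ht), h2⟩
  · rintro ⟨ι, r, h1, h2⟩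
    exact ⟨ι, r, fun t ht => (h t (ht.trans h2)).trans (h1 t ht), h2⟩

lemma elem_Fast (n K : ℕ) : Elem (Fast n K) :=
  Elem.of_finset (Finset.range (K + 1)) (f := fun t ω => TQ ω t) (fun t _ => elem_TQ t)
    fun _ _ h => Fast.congr fun t ht => h t (by simpa [Nat.lt_succ_iff] using ht)

lemma dep_Fast (n K : ℕ) : DependsOn (Fast n K) (Sub1 root) :=
  fun _ _ h => Fast.congr fun t _ => dep_TQ t h

lemma sub1_compl {c c' : Cell} (h : c.1 = c'.1) (hne : c ≠ c') : Sub1 c ⊆ (Sub1 c')ᶜ :=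
  fun _ h1 h2 => hne (Below.unique h1 h2 h)

lemma root_compl {c : Cell} (h : c.1 = 1) : ({root} : Set Cell) ⊆ (Sub1 c)ᶜ := by
  rintro _ rfl h2
  have : c.1 ≤ 0 := h2.1
  omega

lemma dc_le_two (ω : Om) (K : ℕ) :
    dc ω K ≤ X (pull (emb (1, 0, 0)) ω) K + X (pull (emb (1, 1, 1)) ω) K := by
  have b0 : ((1, 0, 0) : Cell) ∈ desc 1 root := by decide
  have b1 : ((1, 1, 1) : Cell) ∈ desc 1 root := by decide
  have h0 := reach_Xh_Q (ω := ω) (k := K) (mem_desc.1 b0).2 (x := (0, 0)) (by simp [sq])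
    (centre_mem b0)
  have h1 := reach_Xh_Q (ω := ω) (k := K) (mem_desc.1 b1).2 (y := (1, 1)) (centre_mem b1)
    (by norm_num [sq])
  exact (d_le (h0.trans h1)).trans (add_le_add (X_mono (Nat.sub_le _ _)) (X_mono (Nat.sub_le _ _)))

lemma small {N n k : ℕ} (hN : 2 ≤ N) {γ g y : ℝ} (hγ : 0 ≤ γ) (hg : 0 ≤ g)
    (h1 : γ ≤ Pr N (Fast n (k + N))) (h2 : g ≤ Pr N fun ω => (X ω (k + 2 * N) : ℝ) ≤ y)
    {Γ : Finset (Fin (n + 1) → ℕ)} (h3 : 1 - γ * g ^ 2 / 4 ≤ ∑ r ∈ Γ, W N r) :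
    Pι.real {ι | 2 * y < Mc n ι} ≤ 1 - γ * g ^ 2 / 4 := by
  let A0 : Om → Prop := fun ω => ω root < N
  let A1 : Om → Prop := fun ω => Fast n (k + N) (pull (emb (1, 1, 0)) ω)
  let A2 : Cell → Om → Prop := fun c ω => (X (pull (emb c) ω) (k + 2 * N) : ℝ) ≤ y
  have eX : Elem fun ω => (X ω (k + 2 * N) : ℝ) ≤ y := (elem_X _).map fun a => (a : ℝ) ≤ y
  have e0 : Elem A0 := Elem.coord_lt _ _
  have e1 : Elem A1 := (elem_Fast _ _).pull _
  have e2 : ∀ c, Elem (A2 c) := fun c => eX.pull _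
  have d0 : DependsOn A0 {root} := (dep_coord root).qmap fun a => a < N
  have d1 : DependsOn A1 (Sub1 (1, 1, 0)) := by
    simpa using dep_pull_sub1 (dep_Fast n (k + N)) (emb (1, 1, 0))
  have d2 : ∀ c, DependsOn (A2 c) (Sub1 c) := fun c => by
    simpa using dep_pull_sub1 ((dep_X (k + 2 * N)).qmap fun a => (a : ℝ) ≤ y) (emb c)
  have p0 : 1 / 2 ≤ Pr N A0 := by
    have a1 := Pr_not (N := N) (Elem.coord_ge root N)
    have a2 := one_sub_q_pow_le hN 1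
    have a3 := Real.exp_neg_one_lt_d9
    rw [Pr_coord_ge hN] at a1
    simp only [not_le, one_mul, Nat.cast_one] at a1 a2
    rw [a1]
    linarith
  have p1 : γ ≤ Pr N A1 := by rw [Pr_pull (elem_Fast _ _)]; exact h1
  have p2 : ∀ c, g ≤ Pr N (A2 c) := fun c => by rw [Pr_pull eX]; exact h2
  have pF : γ * g ^ 2 / 2 ≤ Pr N fun ω => ((A0 ω ∧ A1 ω) ∧ A2 (1, 0, 0) ω) ∧ A2 (1, 1, 1) ω := by
    have f1 : Sub1 (1, 1, 0) ⊆ (Sub1 (1, 1, 1))ᶜ := sub1_compl rfl (by decide)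
    have f2 : Sub1 (1, 0, 0) ⊆ (Sub1 (1, 1, 1))ᶜ := sub1_compl rfl (by decide)
    have f3 : Sub1 (1, 1, 0) ⊆ (Sub1 (1, 0, 0))ᶜ := sub1_compl rfl (by decide)
    rw [Pr_and_indep ((e0.and e1).and (e2 (1, 0, 0))) (e2 (1, 1, 1))
        (((d0.mono (root_compl rfl)).qmap₂ (d1.mono f1) And).qmap₂ ((d2 _).mono f2) And) (d2 _),
      Pr_and_indep (e0.and e1) (e2 (1, 0, 0))
        ((d0.mono (root_compl rfl)).qmap₂ (d1.mono f3) And) (d2 _),
      Pr_and_indep e0 e1 (d0.mono (root_compl rfl)) d1]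
    calc _ = 1 / 2 * γ * g * g := by ring
      _ ≤ _ := by
        have := Pr_nonneg (N := N) A0
        have := Pr_nonneg (N := N) A1
        have := Pr_nonneg (N := N) (A2 (1, 0, 0))
        gcongr
        exacts [p2 _, p2 _]
  have eF := ((e0.and e1).and (e2 (1, 0, 0))).and (e2 (1, 1, 1))
  have key := main_lb hN n (fun ι => 2 * y < Mc n ι)
    (fun ι ι' h => by rw [Mc_congr h le_rfl]; exact id) Γ eF.not fun ι ω r _ hι he hF => by
      obtain ⟨⟨⟨a0, ι', r', a1, a2⟩, a3⟩, a4⟩ := hF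
      have b0 : ((1, 1, 0) : Cell) ∈ desc 1 root := by decide
      have b1 := S_child (ω := ω) b0
      rw [S_root] at b1
      have b2 : tm (exR r) (n + 1) ≤ k + 2 * N :=
        he.tm_le (mem_desc.1 b0).2 a1 (by simp only [A0] at a0; omega)
      have b3 : Mc n ι ≤ _ := (he.dc_eq le_rfl).ge.trans
        ((d_mono b2 c00 c11).trans (dc_le_two ω (k + 2 * N)))
      have b4 : (Mc n ι : ℝ) ≤ _ := Nat.cast_le.2 b3
      push_cast at b4
      simp only [A2] at a3 a4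
      linarith
  rw [Pr_not eF] at key
  have a1 : Pι.real {ι | 2 * y < Mc n ι} ≤ 1 := measureReal_le_one
  have a2 : 0 ≤ Pι.real {ι | 2 * y < Mc n ι} := measureReal_nonneg
  have a3 : 0 ≤ γ * g ^ 2 := by positivity
  nlinarith [mul_le_mul_of_nonneg_left h3 a2]

lemma one_le_add {A B : Set Iota} (h : ∀ ι, ι ∈ A ∨ ι ∈ B) : 1 ≤ Pι.real A + Pι.real B := by
  refine le_trans ?_ (measureReal_union_le A B)
  rw [show A ∪ B = univ from eq_univ_of_forall h]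
  simp

end DePo

theorem depo_ND (b : ℕ → ℕ → ℝ) (hb : ∀ N k, 0 < b N k)
    (hLow : ∀ η : ℝ, 0 < η → ∃ κ : ℝ, 0 < κ ∧ ∀ N, 2 ≤ N → ∀ k,
      Pr N (fun ω => (dc ω k : ℝ) < κ * b N k) ≤ η)
    (hSmall : ∀ ε : ℝ, 0 < ε → ∃ γ : ℝ, 0 < γ ∧ ∃ t0 : ℕ, ∀ N, 2 ≤ N → ∀ k, t0 * N ≤ k →
      γ ≤ Pr N (fun ω => (X ω (k + 2 * N) : ℝ) ≤ ε * b N k)) :
    ∃ ε : ℝ, 0 < ε ∧ ∃ n0 : ℕ, ∀ n : ℕ, n0 ≤ n → ∀ c : ℝ,
      ε ≤ Pι.real {ι | ε < |Real.log (Mc n ι) - c|} := by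
  obtain ⟨γ, hγ, hw⟩ := win (le_refl 1)
  obtain ⟨κ, hκ, hLow⟩ := hLow (1 / 8 * γ) (by positivity)
  obtain ⟨g, hg, t0, hSmall⟩ := hSmall (κ / 4) (by positivity)
  obtain ⟨n0, hw⟩ := hw t0
  have hl : 0 < Real.log 2 := Real.log_pos one_lt_two
  refine ⟨min (Real.log 2 / 3) (min (7 / 8) (γ * g ^ 2 / 4)), by positivity, n0,
    fun n hn c => ?_⟩
  obtain ⟨N, ⟨k, k', hk, -, Γ, hΓ, hΓ'⟩, ⟨R, hR⟩, hN⟩ := ((hw n n hn le_rfl).and
    ((mass (n + 1) (δ := γ * g ^ 2 / 4) (by positivity)).and (eventually_ge_atTop 2))).exists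
  simp only [Nat.div_one, Finset.mem_Icc] at hΓ'
  have hB := mul_pos hκ (hb N k)
  have h1 : Pι.real {ι | (Mc n ι : ℝ) < κ * b N k} ≤ 1 / 8 := by
    refine le_of_mul_le_mul_right (le_trans ?_ (hLow N hN k)) hγ
    refine (mul_le_mul_of_nonneg_left hΓ measureReal_nonneg).trans (main_lb hN n _
      (fun ι ι' h => by rw [Mc_congr h le_rfl]; exact id) Γ
      ((elem_dc k).map fun a => (a : ℝ) < κ * b N k) fun ι ω r hr hι he => ?_)
    refine lt_of_le_of_lt (Nat.cast_le.2 ?_) hι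
    exact (d_mono (hΓ' r hr).1.1 c00 c11).trans (he.dc_eq le_rfl).le
  have h2 : γ ≤ Pr N (Fast n (k + N)) := by
    have := main_lb hN n (fun _ => True) (fun _ _ _ => id) Γ (elem_Fast n (k + N))
      fun ι ω r hr _ he => ⟨ι, _, he, (hΓ' r hr).1.2⟩
    simp only [ofPred_true, probReal_univ, one_mul] at this
    exact hΓ.trans this
  have h3 := small hN hγ.le hg.le h2 (hSmall N hN k hk) hR
  set ε := min (Real.log 2 / 3) (min (7 / 8) (γ * g ^ 2 / 4))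
  have e1 : ε ≤ Real.log 2 / 3 := min_le_left _ _
  have e2 : ε ≤ 7 / 8 := (min_le_right _ _).trans (min_le_left _ _)
  have e3 : ε ≤ γ * g ^ 2 / 4 := (min_le_right _ _).trans (min_le_right _ _)
  rcases le_total c (Real.log (κ * b N k) - Real.log 2 / 2) with hc | hc
  · have := one_le_add (A := {ι | (Mc n ι : ℝ) < κ * b N k})
      (B := {ι | ε < |Real.log (Mc n ι) - c|}) fun ι => by
        refine (lt_or_ge (Mc n ι : ℝ) (κ * b N k)).imp id fun h => ?_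
        have := Real.log_le_log hB h
        change ε < |Real.log (Mc n ι) - c|
        exact lt_abs.2 (Or.inl (by linarith))
    linarith
  · have := one_le_add (A := {ι | 2 * (κ / 4 * b N k) < Mc n ι})
      (B := {ι | ε < |Real.log (Mc n ι) - c|}) fun ι => by
        refine (lt_or_ge (2 * (κ / 4 * b N k)) (Mc n ι : ℝ)).imp id fun h => ?_
        have a1 : (0 : ℝ) < Mc n ι := by exact_mod_cast one_le_Mc n ι
        have := Real.log_le_log a1 (show (Mc n ι : ℝ) ≤ κ * b N k / 2 by linarith)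
        rw [Real.log_div hB.ne' two_ne_zero] at this
        change ε < |Real.log (Mc n ι) - c|
        exact lt_abs.2 (Or.inr (by linarith))
    linarith

end Pool.Agent.P.MP_8c7dae_pr
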