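import Pool.Agent.P.MP_8c7dae_pr.Defs2

/-! De-Poissonisation, part A: probabilities of histories with one split at a time. -/

open MeasureTheory Set Filter

namespace Pool.Agent.P.MP_8c7dae_pr.DePo

variable {N : ℕ} {ω : Om}

lemma S_update {w v : Cell} (h : ¬ (Below w v ∧ w.1 < v.1)) (s : ℕ) :
    S (Function.update ω w s) v = S ω v :=
  dep_S v fun u hu => Function.update_of_ne (fun e : u = w => h (e ▸ hu)) _ _

lemma S_update_self (w : Cell) (s : ℕ) : S (Function.update ω w s) w = S ω w :=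
  S_update (fun h => lt_irrefl _ h.2) s

lemma T_update {w : Cell} {t s t' : ℕ} (hw : w ∈ T ω t) (hs : t ≤ S ω w + s) (ht : t' ≤ t) :
    T (Function.update ω w s) t' = T ω t' := by
  have h2 := hw.2
  ext v
  simp only [T, mem_ofPred_eq]
  by_cases h : Below w v ∧ w.1 < v.1
  · have a1 := S_ge (ω := ω) h.1 h.2
    have a2 := S_ge (ω := Function.update ω w s) h.1 h.2
    rw [S_update_self, Function.update_self] at a2
    omega
  · rw [S_update h]
    by_cases e : v = w
    · subst e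
      rw [Function.update_self]
      omega
    · rw [Function.update_of_ne e]

/-- the history up to time `t` is `f` -/
def Hist (f : ℕ → Finset Cell) (t : ℕ) (ω : Om) : Prop := ∀ t' ≤ t, TQ ω t' = f t'

lemma elem_Hist (f : ℕ → Finset Cell) (t : ℕ) : Elem (Hist f t) := by
  have := Elem.all (Finset.range (t + 1)) (f := fun t' ω => TQ ω t' = f t')
    fun t' _ => (elem_TQ t').map fun A => A = f t'
  convert this using 2
  simp [Hist]

lemma Hist.update {f : ℕ → Finset Cell} {t s : ℕ} {w : Cell} (h : Hist f t ω) (hw : w ∈ f t)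
    (hs : t ≤ S ω w + s) : Hist f t (Function.update ω w s) := by
  intro t' ht
  have hw' : w ∈ TQ ω t := by rw [h t le_rfl]; exact hw
  rw [← h t' ht]
  simp only [TQ, TR, T_update (mem_TQ.1 hw').1 hs ht]

lemma Hist.alive {f : ℕ → Finset Cell} {t : ℕ} {w : Cell} (h : Hist f t ω) (hw : w ∈ f t) :
    w ∈ T ω t := by
  have hw' : w ∈ TQ ω t := by rw [h t le_rfl]; exact hw
  exact (mem_TQ.1 hw').1

lemma elem_split (w : Cell) (t : ℕ) : Elem (fun ω : Om => S ω w + ω w = t) := by
  have := (elem_S_min w (t + 1)).map₂ (Elem.coord w (t + 1)) fun a b => a + b = t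
  convert this using 2
  omega

lemma elem_pat (L Sp : Finset Cell) (t : ℕ) :
    Elem (fun ω : Om => ∀ w ∈ L, (S ω w + ω w = t ↔ w ∈ Sp)) :=
  Elem.all L fun w _ => (elem_split w t).map fun A => A ↔ w ∈ Sp

lemma pr_pat (hN : 2 ≤ N) (f : ℕ → Finset Cell) (t : ℕ) (Sp L : Finset Cell) (hL : L ⊆ f t) :
    Pr N (fun ω => Hist f t ω ∧ ∀ w ∈ L, (S ω w + ω w = t ↔ w ∈ Sp)) =
      Pr N (Hist f t) * ∏ w ∈ L, if w ∈ Sp then q N else 1 - q N := by
  induction L using Finset.induction_on with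
  | empty => simp
  | insert w L hw ih =>
    have hwf : w ∈ f t := hL (Finset.mem_insert_self _ _)
    have hLf : L ⊆ f t := (Finset.subset_insert _ _).trans hL
    set A : Om → Prop := fun ω => Hist f t ω ∧ ∀ w ∈ L, (S ω w + ω w = t ↔ w ∈ Sp) with hA
    have eA : Elem A := (elem_Hist f t).and (elem_pat L Sp t)
    have up : ∀ ω s, A ω → t ≤ S ω w + s → A (Function.update ω w s) := by
      intro ω s h hs
      refine ⟨h.1.update hwf hs, fun v hv => ?_⟩
      have hne : v ≠ w := fun e => hw (e ▸ hv)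
      rw [Function.update_of_ne hne, S_update, h.2 v hv]
      exact fun hb => hne (alive_unique (h.1.alive hwf) (h.1.alive (hLf hv)) hb.1).symm
    have key := E_split hN eA.ind w (t := fun ω => t - S ω w)
      ((measurable_of_countable fun x => t - x).comp (measurable_S w))
      (fun ω s => by simp only [S_update_self])
      (fun ω h => ind_neg fun h' => by have := (h'.1.alive hwf).2; omega)
      (fun ω s hs => by
        have a : ∀ s1 s2, t - S ω w ≤ s2 → A (Function.update ω w s1) →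
            A (Function.update ω w s2) := fun s1 s2 h2 h => by
          have := up _ s2 h (by rw [S_update_self]; omega)
          rwa [Function.update_idem] at this
        rw [propext ⟨a s _ le_rfl, a _ s hs⟩])
    have k1 : Pr N (fun ω => A ω ∧ S ω w + ω w = t) = q N * Pr N A := by
      rw [Pr, Pr, ← key]
      refine E_congr fun ω => ?_
      rw [← ind_and]
      congr 1
      refine propext (and_congr_right fun h => ?_)
      have := (h.1.alive hwf).1
      omega
    have k2 : Pr N (fun ω => A ω ∧ ¬ S ω w + ω w = t) = (1 - q N) * Pr N A := by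
      have : Pr N (fun ω => A ω ∧ ¬ S ω w + ω w = t) =
          Pr N A - Pr N (fun ω => A ω ∧ S ω w + ω w = t) := by
        rw [Pr, Pr, Pr, ← E_sub eA.ind (eA.and (elem_split w t)).ind]
        refine E_congr fun ω => ?_
        rw [ind_and (A ω), ind_and (A ω), ind_not]
        ring
      rw [this, k1]
      ring
    rw [Finset.prod_insert hw, mul_left_comm, ← ih hLf]
    split_ifs with h
    · rw [← k1]
      exact Pr_congr fun ω => by simp only [hA, Finset.forall_mem_insert, h]; tauto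
    · rw [← k2]
      exact Pr_congr fun ω => by simp only [hA, Finset.forall_mem_insert, h]; tauto

lemma TQ_succ {t : ℕ} {v : Cell} : v ∈ TQ ω (t + 1) ↔
    (v ∈ TQ ω t ∧ S ω v + ω v ≠ t) ∨ ∃ w ∈ TQ ω t, S ω w + ω w = t ∧ v ∈ desc 1 w := by
  simp only [mem_TQ, T, mem_ofPred_eq]
  constructor
  · rintro ⟨⟨h1, h2⟩, h3⟩
    by_cases h : S ω v ≤ t
    · exact Or.inl ⟨⟨⟨h, by omega⟩, h3⟩, by omega⟩
    · have h0 : v.1 ≠ 0 := fun e => by rw [S_zero e] at h; omega
      obtain ⟨m, hm⟩ := Nat.exists_eq_succ_of_ne_zero h0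
      have hd := anc_succ_mem_desc (m := m) (v := v) (by omega)
      rw [show m + 1 = v.1 by omega, anc_self] at hd
      have := S_child (ω := ω) hd
      exact Or.inr ⟨anc m v, ⟨⟨by omega, by omega⟩,
        h3.anc_below (Nat.zero_le _) (by omega)⟩, by omega, hd⟩
  · rintro (⟨⟨⟨h1, h2⟩, h3⟩, h4⟩ | ⟨w, ⟨⟨h1, h2⟩, h3⟩, h4, h5⟩)
    · exact ⟨⟨by omega, by omega⟩, h3⟩
    · have := S_child (ω := ω) h5
      exact ⟨⟨by omega, by omega⟩, h3.trans (mem_desc.1 h5).2⟩

lemma pr_step (hN : 2 ≤ N) (f : ℕ → Finset Cell) (t : ℕ) (Sp : Finset Cell) (hSp : Sp ⊆ f t)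
    (hf : f (t + 1) = (f t \ Sp) ∪ Sp.biUnion (desc 1)) :
    Pr N (Hist f t) * ∏ w ∈ f t, (if w ∈ Sp then q N else 1 - q N) ≤ Pr N (Hist f (t + 1)) := by
  rw [← pr_pat hN f t Sp (f t) le_rfl]
  refine Pr_mono ((elem_Hist f t).and (elem_pat _ Sp t)) (elem_Hist f _) fun ω h t' ht => ?_
  rcases ht.eq_or_lt with rfl | ht
  · ext v
    rw [TQ_succ, h.1 t le_rfl, hf]
    simp only [Finset.mem_coe, Finset.mem_union, Finset.mem_sdiff, Finset.mem_biUnion]
    refine or_congr (and_congr_right fun hv => by rw [← h.2 v hv]) ⟨?_, ?_⟩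
    · rintro ⟨w, h1, h2, h3⟩
      exact ⟨w, (h.2 w h1).1 h2, h3⟩
    · rintro ⟨w, h1, h2⟩
      exact ⟨w, hSp h1, (h.2 w (hSp h1)).2 h1, h2⟩
  · exact h.1 t' (by omega)

lemma pr_stay (hN : 2 ≤ N) (f : ℕ → Finset Cell) (t : ℕ) (hf : f (t + 1) = f t) :
    Pr N (Hist f t) * (1 - q N) ^ (f t).card ≤ Pr N (Hist f (t + 1)) := by
  simpa using pr_step hN f t ∅ (by simp) (by simpa using hf)

lemma pr_jump (hN : 2 ≤ N) (f : ℕ → Finset Cell) (t : ℕ) {x : Cell} (hx : x ∈ f t)
    (hf : f (t + 1) = (f t).erase x ∪ desc 1 x) :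
    Pr N (Hist f t) * (q N * (1 - q N) ^ ((f t).card - 1)) ≤ Pr N (Hist f (t + 1)) := by
  have := pr_step hN f t {x} (by simpa using hx) (by
    rw [hf, Finset.singleton_biUnion, Finset.sdiff_singleton_eq_erase])
  rwa [← Finset.mul_prod_erase _ _ hx, if_pos (Finset.mem_singleton_self x),
    Finset.prod_congr rfl fun w hw =>
      if_neg (by simpa using (Finset.mem_erase.1 hw).1), Finset.prod_const,
    Finset.card_erase_of_mem hx] at this

/-! ### the discrete chain -/

/-- the cell split at step `j` -/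
def sp (ι : Iota) : ℕ → Cell
  | 0 => root
  | j + 1 => toCell ((cfg ι j).getD (ι j).val (0, 0, 0))

/-- the configuration after `j` splits -/
def conf (ι : Iota) : ℕ → Finset Cell
  | 0 => {root}
  | j + 1 => (conf ι j).erase (sp ι j) ∪ desc 1 (sp ι j)

lemma toCell_inj : Function.Injective toCell := by
  rintro ⟨a, b, c⟩ ⟨a', b', c'⟩ h
  simpa [toCell] using h

/-- the children in list form -/
def kids (x : ℕ × ℕ × ℕ) : List (ℕ × ℕ × ℕ) :=
  ([(0, 0), (1, 0), (0, 1), (1, 1)] : List (ℕ × ℕ)).map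
    (fun d => (x.1 + 1, 2 * x.2.1 + d.1, 2 * x.2.2 + d.2))

lemma cfg_succ (ι : Iota) (j : ℕ) : cfg ι (j + 1) =
    (cfg ι j).eraseIdx (ι j).val ++ kids ((cfg ι j).getD (ι j).val (0, 0, 0)) := rfl

lemma mem_kids (x : ℕ × ℕ × ℕ) (v : Cell) :
    (∃ s ∈ kids x, toCell s = v) ↔ v ∈ desc 1 (toCell x) := by
  obtain ⟨a, b, c⟩ := v
  rw [mem_desc, below_iff]
  simp only [kids, toCell, List.map_cons, List.map_nil, List.mem_cons, List.not_mem_nil, or_false,
    exists_eq_or_imp, exists_eq_left, Prod.mk.injEq]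
  constructor
  · rintro (⟨rfl, h1, h2⟩ | ⟨rfl, h1, h2⟩ | ⟨rfl, h1, h2⟩ | ⟨rfl, h1, h2⟩) <;>
      simp only [Nat.add_sub_cancel_left, pow_one, true_and] <;> omega
  · rintro ⟨rfl, h⟩
    simp only [Nat.add_sub_cancel_left, pow_one] at h
    omega

lemma nodup_kids (x : ℕ × ℕ × ℕ) : (kids x).Nodup := by simp [kids]

/-- antichains -/
def Anti (A : Finset Cell) : Prop := ∀ a ∈ A, ∀ b ∈ A, Below a b → a = b

lemma Anti.not_child {A : Finset Cell} (h : Anti A) {x v : Cell} (hx : x ∈ A) (hv : v ∈ A) :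
    v ∉ desc 1 x := fun hd => by
  obtain ⟨h1, h2⟩ := mem_desc.1 hd
  rw [h x hx v hv h2] at h1
  omega

lemma Anti.split {A : Finset Cell} (h : Anti A) {x : Cell} (hx : x ∈ A) :
    Anti (A.erase x ∪ desc 1 x) := by
  intro a ha b hb hab
  simp only [Finset.mem_union, Finset.mem_erase, mem_desc] at ha hb
  rcases ha with ha | ha <;> rcases hb with hb | hb
  · exact h a ha.2 b hb.2 hab
  · by_cases e : a.1 ≤ x.1
    · exact absurd (h a ha.2 x hx (hab.of_le hb.2 e)) ha.1
    · exact hab.eq_of_fst (by omega)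
  · exact absurd (h x hx b hb.2 (ha.2.trans hab)).symm hb.1
  · exact hab.eq_of_fst (by omega)

lemma cfg_inv (ι : Iota) (j : ℕ) : (cfg ι j).length = 3 * j + 4 ∧ (cfg ι j).Nodup ∧
    (∀ v, (∃ s ∈ cfg ι j, toCell s = v) ↔ v ∈ conf ι (j + 1)) ∧ Anti (conf ι (j + 1)) := by
  induction j with
  | zero =>
    have h : Anti {root} := by simp [Anti]
    refine ⟨rfl, nodup_kids (0, 0, 0), fun v => ?_, h.split (Finset.mem_singleton_self _)⟩
    refine (mem_kids (0, 0, 0) v).trans ?_
    simp [conf, sp, toCell, root]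
  | succ j ih =>
    obtain ⟨h1, h2, h3, h4⟩ := ih
    have hi : (ι j).val < (cfg ι j).length := by have := (ι j).2; omega
    have hx : (cfg ι j).getD (ι j).val (0, 0, 0) = (cfg ι j)[(ι j).val] := List.getD_eq_getElem _ _ hi
    have hm : sp ι (j + 1) ∈ conf ι (j + 1) := (h3 _).1 ⟨_, List.getElem_mem hi, by rw [sp, hx]⟩
    have he : ∀ s, s ∈ (cfg ι j).eraseIdx (ι j).val ↔ s ≠ (cfg ι j)[(ι j).val] ∧ s ∈ cfg ι j := by
      intro s
      rw [List.mem_eraseIdx_iff_getElem]
      constructor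
      · rintro ⟨i, hi', hne, rfl⟩
        exact ⟨fun e => hne ((List.Nodup.getElem_inj_iff h2).1 e), List.getElem_mem _⟩
      · rintro ⟨hne, hs⟩
        obtain ⟨i, hi', rfl⟩ := List.getElem_of_mem hs
        exact ⟨i, hi', fun e => hne (by simp [e]), rfl⟩
    refine ⟨?_, ?_, fun v => ?_, h4.split hm⟩
    · rw [cfg_succ, List.length_append, List.length_eraseIdx_of_lt hi, h1]
      simp [kids]
      omega
    · rw [cfg_succ, List.nodup_append]
      refine ⟨h2.sublist (List.eraseIdx_sublist _ _), nodup_kids _, fun a ha b hb e => ?_⟩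
      subst e
      exact h4.not_child hm ((h3 _).1 ⟨a, ((he a).1 ha).2, rfl⟩) ((mem_kids _ _).1 ⟨a, hb, rfl⟩)
    · rw [cfg_succ, conf, Finset.mem_union, Finset.mem_erase, sp, ← mem_kids, ← h3, hx]
      simp only [List.mem_append, or_and_right, exists_or, he]
      refine or_congr_left ⟨?_, ?_⟩
      · rintro ⟨s, ⟨a1, a2⟩, rfl⟩
        exact ⟨fun e => a1 (toCell_inj e), s, a2, rfl⟩
      · rintro ⟨a1, s, a2, rfl⟩
        exact ⟨s, ⟨fun e => a1 (congrArg _ e), a2⟩, rfl⟩

lemma cellSet_cfg (ι : Iota) (j : ℕ) : cellSet (cfg ι j) = conf ι (j + 1) :=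
  Set.ext (cfg_inv ι j).2.2.1

lemma getD_cfg (ι : Iota) (j : ℕ) : (cfg ι j).getD (ι j).val (0, 0, 0) =
    (cfg ι j)[(ι j).val]'(by rw [(cfg_inv ι j).1]; exact (ι j).2) := List.getD_eq_getElem _ _ _

lemma sp_mem (ι : Iota) (j : ℕ) : sp ι j ∈ conf ι j := by
  cases j with
  | zero => exact Finset.mem_singleton_self _
  | succ j => exact ((cfg_inv ι j).2.2.1 _).1 ⟨_, List.getElem_mem _, by rw [sp, getD_cfg]⟩

lemma card_conf (ι : Iota) (j : ℕ) : (conf ι j).card = 3 * j + 1 := by
  cases j with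
  | zero => rfl
  | succ j =>
    obtain ⟨h1, h2, h3, -⟩ := cfg_inv ι j
    have : conf ι (j + 1) = ((cfg ι j).map toCell).toFinset := by
      ext v; rw [← h3]; simp
    rw [this, List.toFinset_card_of_nodup (h2.map toCell_inj), List.length_map, h1]
    ring

lemma cfg_congr {ι ι' : Iota} {n : ℕ} (h : ∀ j < n, ι j = ι' j) : cfg ι n = cfg ι' n := by
  induction n with
  | zero => rfl
  | succ n ih => rw [cfg_succ, cfg_succ, ih fun j hj => h j (by omega), h n (by omega)]

lemma iota_eq {ι ι' : Iota} {n : ℕ} (h : ∀ j ≤ n + 1, conf ι j = conf ι' j) :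
    ∀ j < n, ι j = ι' j := by
  induction n with
  | zero => simp
  | succ n ih =>
    have h1 := ih fun j hj => h j (by omega)
    intro j hj
    rcases (Nat.lt_succ_iff.1 hj).eq_or_lt with rfl | hj
    swap
    · exact h1 j hj
    have e := cfg_congr h1
    have h2 : sp ι (j + 1) = sp ι' (j + 1) := by
      by_contra hne
      have : sp ι (j + 1) ∈ conf ι' (j + 2) := Finset.mem_union_left _
        (Finset.mem_erase.2 ⟨hne, h (j + 1) (by omega) ▸ sp_mem ι (j + 1)⟩)
      rw [← h (j + 2) le_rfl, conf, Finset.mem_union] at this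
      rcases this with h3 | h3
      · simp at h3
      · exact (cfg_inv ι j).2.2.2.not_child (sp_mem ι _) (sp_mem ι _) h3
    have h3 := toCell_inj h2
    rw [getD_cfg, getD_cfg] at h3
    simp only [← e] at h3
    exact Fin.ext ((List.Nodup.getElem_inj_iff (cfg_inv ι j).2.1).1 h3)

end Pool.Agent.P.MP_8c7dae_pr.DePo
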