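import Pool.Agent.P.MP_8c7dae_pr.DePoA

/-! De-Poissonisation, part B: the cylinder events and the basic lower bound. -/

open MeasureTheory Set Filter

namespace Pool.Agent.P.MP_8c7dae_pr.DePo

variable {N : ℕ} {ω : Om}

/-- the time of the `j`-th split -/
def tm (r : ℕ → ℕ) (j : ℕ) : ℕ := ∑ i ∈ Finset.range j, (r i + 1)

lemma tm_succ (r : ℕ → ℕ) (j : ℕ) : tm r (j + 1) = tm r j + r j + 1 := by
  rw [tm, Finset.sum_range_succ]; rfl

lemma tm_strictMono (r : ℕ → ℕ) : StrictMono (tm r) :=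
  strictMono_nat_of_lt_succ fun j => by rw [tm_succ]; omega

/-- the number of splits up to time `t` -/
def cnt (r : ℕ → ℕ) (t : ℕ) : ℕ := Nat.findGreatest (fun j => tm r j ≤ t) t

lemma cnt_eq {r : ℕ → ℕ} {j t : ℕ} (h1 : tm r j ≤ t) (h2 : t < tm r (j + 1)) : cnt r t = j := by
  rw [cnt, Nat.findGreatest_eq_iff]
  refine ⟨((tm_strictMono r).id_le j).trans h1, fun _ => h1, fun k hk _ h => ?_⟩
  have := (tm_strictMono r).monotone (show j + 1 ≤ k from hk)
  omega

lemma cnt_tm (r : ℕ → ℕ) (j : ℕ) : cnt r (tm r j) = j :=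
  cnt_eq le_rfl (tm_strictMono r (Nat.lt_succ_self j))

lemma cnt_lt {r : ℕ → ℕ} {j t : ℕ} (h : t < tm r j) : cnt r t < j := by
  by_contra hc
  have h0 : tm r (cnt r t) ≤ t :=
    Nat.findGreatest_spec (P := fun j => tm r j ≤ t) (m := 0) (Nat.zero_le _) (by simp [tm])
  have := (tm_strictMono r).monotone (not_lt.1 hc)
  omega

/-- the first `n + 1` splits happen one at a time, in the order `ι`, with gaps `r` -/
def Ev (ι : Iota) (r : ℕ → ℕ) (n : ℕ) : Om → Prop :=
  Hist (fun t => conf ι (cnt r t)) (tm r (n + 1))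

lemma elem_Ev (ι : Iota) (r : ℕ → ℕ) (n : ℕ) : Elem (Ev ι r n) := elem_Hist _ _

lemma Ev.at {ι : Iota} {r : ℕ → ℕ} {n j : ℕ} (h : Ev ι r n ω) (hj : j ≤ n + 1) :
    TQ ω (tm r j) = conf ι j := by
  have := h _ ((tm_strictMono r).monotone hj)
  simpa only [cnt_tm] using this

lemma Ev.dc_eq {ι : Iota} {r : ℕ → ℕ} {n j : ℕ} (h : Ev ι r n ω) (hj : j ≤ n) :
    dc ω (tm r (j + 1)) = Mc j ι := by
  rw [dc, d, h.at (by omega), Mc, cellSet_cfg]

/-- probability of a gap -/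
noncomputable def gp (N j s : ℕ) : ℝ := (1 - q N) ^ ((3 * j + 1) * s) * (q N * (1 - q N) ^ (3 * j))

lemma TQ_zero : TQ ω 0 = ({root} : Finset Cell) := by
  ext v
  simp only [Finset.coe_singleton, mem_singleton_iff]
  refine ⟨fun h => ?_, fun h => h ▸ root_mem_TQ_zero⟩
  obtain ⟨h1, h2⟩ := mem_TQ.1 h
  exact (h2.eq_of_fst ((fst_le_S (ω := ω) v).trans h1.1)).symm

lemma one_sub_q_nonneg (hN : 2 ≤ N) : 0 ≤ 1 - q N := by linarith [q_le hN]

lemma pr_Ev_aux (hN : 2 ≤ N) (ι : Iota) (r : ℕ → ℕ) (j : ℕ) :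
    ∏ i ∈ Finset.range j, gp N i (r i) ≤ Pr N (Hist (fun t => conf ι (cnt r t)) (tm r j)) := by
  have h0 := one_sub_q_nonneg hN
  have hq := (q_pos hN).le
  set F : ℕ → Finset Cell := fun t => conf ι (cnt r t) with hF
  induction j with
  | zero =>
    rw [Pr_true]
    · simp
    · intro ω t ht
      obtain rfl : t = 0 := by simpa [tm] using ht
      rw [TQ_zero]; rfl
  | succ j ih =>
    have e : ∀ s ≤ r j, F (tm r j + s) = conf ι j := fun s hs => by
      simp only [hF]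
      rw [cnt_eq (j := j) (by omega) (by rw [tm_succ]; omega)]
    have h1 : ∀ s ≤ r j, Pr N (Hist F (tm r j)) * (1 - q N) ^ ((3 * j + 1) * s) ≤
        Pr N (Hist F (tm r j + s)) := by
      intro s hs
      induction s with
      | zero => simp
      | succ s ihs =>
        have := pr_stay hN F (tm r j + s) (by rw [add_assoc, e _ hs, e _ (by omega)])
        rw [e _ (by omega), card_conf] at this
        refine le_trans ?_ this
        rw [mul_add, mul_one, pow_add, ← mul_assoc]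
        exact mul_le_mul_of_nonneg_right (ihs (by omega)) (by positivity)
    have h2 := pr_jump hN F (tm r j + r j) (x := sp ι j) (by rw [e _ le_rfl]; exact sp_mem ι j)
      (by rw [e _ le_rfl, ← tm_succ]; simp only [hF, cnt_tm]; rfl)
    rw [e _ le_rfl, card_conf, Nat.add_sub_cancel, ← tm_succ] at h2
    refine le_trans ?_ h2
    rw [Finset.prod_range_succ, gp, ← mul_assoc]
    refine mul_le_mul_of_nonneg_right (le_trans ?_ (h1 _ le_rfl)) (by positivity)
    exact mul_le_mul_of_nonneg_right ih (by positivity)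

lemma Ev.unique {ι ι' : Iota} {r r' : ℕ → ℕ} {n : ℕ} (h : Ev ι r n ω) (h' : Ev ι' r' n ω) :
    (∀ j < n, ι j = ι' j) ∧ ∀ j ≤ n, r j = r' j := by
  have key : ∀ {ι ι' : Iota} {r r' : ℕ → ℕ} {j : ℕ}, Ev ι r n ω → Ev ι' r' n ω → j ≤ n →
      ¬ tm r (j + 1) < tm r' (j + 1) := by
    intro ι ι' r r' j h h' hj hlt
    have a1 := h.at (j := j + 1) (by omega)
    have a2 := h' _ (hlt.le.trans ((tm_strictMono r').monotone (by omega : j + 1 ≤ n + 1)))
    have a3 := congrArg Finset.card (Finset.coe_injective (a1.symm.trans a2))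
    have := cnt_lt hlt
    simp only [card_conf] at a3
    omega
  have h1 : ∀ j ≤ n + 1, tm r j = tm r' j := by
    intro j hj
    cases j with
    | zero => rfl
    | succ j => exact le_antisymm (not_lt.1 (key h' h (by omega))) (not_lt.1 (key h h' (by omega)))
  refine ⟨iota_eq fun j hj => Finset.coe_injective ?_, fun j hj => ?_⟩
  · exact (h.at hj).symm.trans (h1 j hj ▸ h'.at hj)
  · have a1 := h1 j (by omega)
    have a2 := h1 (j + 1) (by omega)
    rw [tm_succ, tm_succ] at a2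
    omega

/-- extension by zero -/
def exR {m : ℕ} (r : Fin m → ℕ) : ℕ → ℕ := fun i => if h : i < m then r ⟨i, h⟩ else 0

/-- extension by zero -/
def exI {n : ℕ} (a : (j : Fin n) → Fin (3 * j + 3 + 1)) : Iota :=
  fun i => if h : i < n then a ⟨i, h⟩ else 0

lemma exR_val {m : ℕ} (r : Fin m → ℕ) (i : Fin m) : exR r i = r i := by simp [exR]

lemma exI_val {n : ℕ} (a : (j : Fin n) → Fin (3 * j + 3 + 1)) (i : Fin n) : exI a i = a i := by
  simp [exI]

lemma exI_res {n : ℕ} (ι : Iota) : ∀ j < n, ι j = exI (fun j : Fin n => ι j) j := by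
  intro j hj; simp [exI, hj]

/-- weight of a sequence of gaps -/
noncomputable def W (N : ℕ) {m : ℕ} (r : Fin m → ℕ) : ℝ := ∏ j : Fin m, (3 * j + 1) * gp N j (r j)

lemma gp_nonneg (hN : 2 ≤ N) (j s : ℕ) : 0 ≤ gp N j s := by
  have h0 := one_sub_q_nonneg hN
  have hq := (q_pos hN).le
  unfold gp; positivity

lemma W_nonneg (hN : 2 ≤ N) {m : ℕ} (r : Fin m → ℕ) : 0 ≤ W N r :=
  Finset.prod_nonneg fun j _ => mul_nonneg (by positivity) (gp_nonneg hN _ _)

open Classical in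
lemma P_le_card (n : ℕ) (Bd : Iota → Prop)
    (hBd : ∀ ι ι' : Iota, (∀ j < n, ι j = ι' j) → Bd ι → Bd ι') :
    Pι.real {ι | Bd ι} * ∏ j : Fin (n + 1), (3 * (j : ℝ) + 1) ≤
      (Finset.univ.filter fun a : (j : Fin n) → Fin (3 * j + 3 + 1) => Bd (exI a)).card := by
  set Ba := Finset.univ.filter fun a : (j : Fin n) → Fin (3 * j + 3 + 1) => Bd (exI a)
  have h1 : {ι | Bd ι} ⊆ ⋃ a ∈ Ba, Set.pi (Finset.range n) fun j => {exI a j} := by
    intro ι hι
    refine mem_biUnion (x := fun j : Fin n => ι j) ?_ fun j hj => exI_res ι j (by simpa using hj)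
    simpa [Ba] using hBd _ _ (exI_res ι) hι
  have h2 : ∀ a : (j : Fin n) → Fin (3 * j + 3 + 1),
      Pι.real (Set.pi (Finset.range n) fun j => {exI a j}) =
        ∏ j ∈ Finset.range n, (3 * (j : ℝ) + 4)⁻¹ := by
    intro a
    rw [Measure.real, Pι, Measure.infinitePi_pi _ fun _ _ => measurableSet_singleton _,
      ENNReal.toReal_prod]
    refine Finset.prod_congr rfl fun j _ => ?_
    rw [PMF.toMeasure_apply_singleton _ _ (measurableSet_singleton _), PMF.uniformOfFintype_apply,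
      Fintype.card_fin, ENNReal.toReal_inv, ENNReal.toReal_natCast]
    push_cast
    ring
  have h3 := (measureReal_mono h1 (measure_ne_top _ _)).trans (measureReal_biUnion_finset_le (μ := Pι) Ba _)
  simp only [h2, Finset.sum_const, nsmul_eq_mul] at h3
  have h4 : (∏ j ∈ Finset.range n, (3 * (j : ℝ) + 4)⁻¹) * ∏ j : Fin (n + 1), (3 * (j : ℝ) + 1) =
      1 := by
    rw [Fin.prod_univ_eq_prod_range (fun j => 3 * (j : ℝ) + 1), Finset.prod_range_succ',
      ← mul_assoc, ← Finset.prod_mul_distrib, Finset.prod_eq_one]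
    · simp
    · intro j _
      push_cast
      field_simp
      ring
  calc _ ≤ (Ba.card * ∏ j ∈ Finset.range n, (3 * (j : ℝ) + 4)⁻¹) *
        ∏ j : Fin (n + 1), (3 * (j : ℝ) + 1) :=
      mul_le_mul_of_nonneg_right h3 (Finset.prod_nonneg fun _ _ => by positivity)
    _ = _ := by rw [mul_assoc, h4, mul_one]

theorem main_lb (hN : 2 ≤ N) (n : ℕ) (Bd : Iota → Prop)
    (hBd : ∀ ι ι' : Iota, (∀ j < n, ι j = ι' j) → Bd ι → Bd ι') (Γ : Finset (Fin (n + 1) → ℕ))
    {A : Om → Prop} (hA : Elem A) (h : ∀ ι ω, ∀ r ∈ Γ, Bd ι → Ev ι (exR r) n ω → A ω) :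
    Pι.real {ι | Bd ι} * ∑ r ∈ Γ, W N r ≤ Pr N A := by
  classical
  have h1 := P_le_card n Bd hBd
  set Ba := Finset.univ.filter fun a : (j : Fin n) → Fin (3 * j + 3 + 1) => Bd (exI a)
  have h2 : ∀ ω, ∑ x ∈ Ba ×ˢ Γ, ind (Ev (exI x.1) (exR x.2) n ω) ≤ ind (A ω) := by
    intro ω
    by_cases hx : ∃ x ∈ Ba ×ˢ Γ, Ev (exI x.1) (exR x.2) n ω
    · obtain ⟨x, hx, he⟩ := hx
      rw [Finset.sum_eq_single_of_mem x hx, ind_pos he, ind_pos]
      · exact h _ ω _ (Finset.mem_product.1 hx).2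
          (Finset.mem_filter.1 (Finset.mem_product.1 hx).1).2 he
      · refine fun y _ hne => ind_neg fun he' => hne ?_
        obtain ⟨a1, a2⟩ := he'.unique he
        refine Prod.ext (funext fun j => ?_) (funext fun j => ?_)
        · simpa [exI_val] using a1 j j.2
        · simpa [exR_val] using a2 j (Nat.lt_succ_iff.1 j.2)
    · rw [Finset.sum_eq_zero fun x hx' => ind_neg fun he => hx ⟨x, hx', he⟩]
      exact ind_nonneg _
  have h3 := E_mono (N := N) (Nice.sum _ fun x _ => (elem_Ev _ _ _).ind) hA.ind h2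
  rw [E_sum _ fun x _ => (elem_Ev _ _ _).ind] at h3
  refine le_trans ?_ h3
  have h4 : ∀ x ∈ Ba ×ˢ Γ, ∏ j : Fin (n + 1), gp N j (x.2 j) ≤
      E N fun ω => ind (Ev (exI x.1) (exR x.2) n ω) := fun x _ => by
    have := pr_Ev_aux hN (exI x.1) (exR x.2) (n + 1)
    rw [← Fin.prod_univ_eq_prod_range fun i => gp N i (exR x.2 i)] at this
    simp only [exR_val] at this
    exact this
  refine le_trans ?_ (Finset.sum_le_sum h4)
  rw [Finset.sum_product]
  simp only [W, Finset.prod_mul_distrib, Finset.sum_const, nsmul_eq_mul]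
  rw [← Finset.mul_sum, ← mul_assoc]
  exact mul_le_mul_of_nonneg_right h1
    (Finset.sum_nonneg fun r _ => Finset.prod_nonneg fun j _ => gp_nonneg hN _ _)

lemma Mc_congr {ι ι' : Iota} {n j : ℕ} (h : ∀ i < n, ι i = ι' i) (hj : j ≤ n) :
    Mc j ι = Mc j ι' := by
  rw [Mc, Mc, cfg_congr fun i hi => h i (by omega)]

lemma exists_Ev (ι : Iota) (r : ℕ → ℕ) (n : ℕ) : ∃ ω, Ev ι r n ω := by
  by_contra hc
  push Not at hc
  have h1 := pr_Ev_aux (N := 2) le_rfl ι r (n + 1)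
  have h2 : Pr 2 (Ev ι r n) = 0 := Pr_false hc
  have h3 : 0 < ∏ i ∈ Finset.range (n + 1), gp 2 i (r i) := Finset.prod_pos fun i _ => by
    unfold gp q; positivity
  exact absurd (h1.trans h2.le) (not_le.2 h3)

lemma one_le_dc (k : ℕ) : 1 ≤ dc ω k := by
  by_contra h
  have h1 := d_spec (ω := ω) (k := k) c00 c11
  rw [show d ω k (0, 0) (1, 1) = 0 by unfold dc at h; omega] at h1
  simpa using h1.eq_of_zero

/-! ### counting tiles -/

lemma finite_TQ (k : ℕ) : (TQ ω k).Finite :=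
  (cells k {root}).finite_toSet.subset fun _ hv => mem_cells_of_TR hv

lemma ncard_sub {c : Cell} (hc : Below root c) {t k : ℕ} (h : S ω c + t ≤ k) :
    (TQ (pull (emb c) ω) t).ncard ≤ (TQ ω k).ncard := by
  have h1 : ∀ v ∈ TQ (pull (emb c) ω) t, (emb c).g v ∈ T ω (S ω c + t) ∧ Below root ((emb c).g v) := by
    intro v hv
    obtain ⟨⟨a1, a2⟩, a3⟩ := mem_TQ.1 hv
    have a4 := S_pull (ω := ω) (emb c) v
    rw [(below_root_iff v).1 a3, emb_root] at a4
    have a5 := ((emb c).below_iff _ _).2 a3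
    rw [emb_root] at a5
    refine ⟨⟨by omega, ?_⟩, hc.trans a5⟩
    change t ≤ _ + ω ((emb c).g v) at a2
    omega
  have h2 : ∀ v ∈ TQ (pull (emb c) ω) t, ∃ u ∈ TQ ω k, Below ((emb c).g v) u := by
    intro v hv
    obtain ⟨a1, a2⟩ := h1 v hv
    obtain ⟨p, hp⟩ : (sq ((emb c).g v)).Nonempty := by
      refine ⟨((((emb c).g v).2.1 : ℝ) / 2 ^ ((emb c).g v).1,
        (((emb c).g v).2.2 : ℝ) / 2 ^ ((emb c).g v).1), ?_⟩
      have := two_pow_pos' ((emb c).g v).1
      simp only [sq, mem_ofPred_eq, mul_div_cancel₀ _ this.ne']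
      exact ⟨le_rfl, by linarith, le_rfl, by linarith⟩
    obtain ⟨w, b1, b2, -⟩ := exists_tile (ω := ω) (k := k) hp (a1.1.trans h)
    exact ⟨w, mem_TQ.2 ⟨b2, a2.trans b1⟩, b1⟩
  choose! f hf1 hf2 using h2
  refine Set.ncard_le_ncard_of_injOn f hf1 (fun v hv w hw e => (emb c).inj ?_) (finite_TQ k)
  have b1 := hf2 v hv
  have b2 := hf2 w hw
  rw [← e] at b2
  rcases le_total ((emb c).g v).1 ((emb c).g w).1 with l | l
  · exact alive_unique (h1 v hv).1 (h1 w hw).1 (b1.of_le b2 l)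
  · exact (alive_unique (h1 w hw).1 (h1 v hv).1 (b2.of_le b1 l)).symm

lemma Ev.tm_le {ι ι' : Iota} {r r' : ℕ → ℕ} {n k : ℕ} {c : Cell} (hc : Below root c)
    (h : Ev ι r n ω) (h' : Ev ι' r' n (pull (emb c) ω)) (hk : S ω c + tm r' (n + 1) ≤ k) :
    tm r (n + 1) ≤ k := by
  by_contra hlt
  have h1 := ncard_sub hc hk
  have h2 := cnt_lt (not_le.1 hlt)
  rw [h'.at le_rfl, h k (not_le.1 hlt).le, Set.ncard_coe_finset, Set.ncard_coe_finset, card_conf,
    card_conf] at h1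
  omega

end Pool.Agent.P.MP_8c7dae_pr.DePo
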