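import Pool.Agent.P.MP_8c7dae_pr.DePoB

/-! De-Poissonisation, part C: the splitting times are tight at scale `N`. -/

open MeasureTheory Set Filter Topology

namespace Pool.Agent.P.MP_8c7dae_pr.DePo

variable {N : ℕ}

/-- probability of no split -/
noncomputable def pp (N j : ℕ) : ℝ := (1 - q N) ^ (3 * j + 1)

lemma pp_nonneg (hN : 2 ≤ N) (j : ℕ) : 0 ≤ pp N j := pow_nonneg (one_sub_q_nonneg hN) _

lemma pp_le (hN : 2 ≤ N) (j : ℕ) : pp N j ≤ 1 - q N := by
  have := q_pos hN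
  exact pow_le_of_le_one (one_sub_q_nonneg hN) (by linarith) (by omega)

lemma bern_up (hN : 2 ≤ N) (j : ℕ) : 1 - pp N j ≤ (3 * j + 1) * q N := by
  have := one_add_mul_le_pow (a := -q N) (by linarith [q_le hN]) (3 * j + 1)
  rw [← sub_eq_add_neg] at this
  unfold pp
  push_cast at this
  linarith

lemma bern_a {x : ℝ} (h0 : 0 ≤ x) (h1 : x ≤ 1) (m : ℕ) :
    (m + 1) * (x * (1 - x) ^ m) ≤ 1 - (1 - x) ^ (m + 1) := by
  induction m with
  | zero => simp
  | succ m ih =>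
    have a1 : 0 ≤ 1 - x := by linarith
    have a2 : (1 - x) ^ (m + 1) ≤ 1 := pow_le_one₀ a1 (by linarith)
    have a3 := mul_le_mul_of_nonneg_left ih a1
    push_cast
    rw [pow_succ (1 - x) (m + 1)]
    rw [pow_succ (1 - x) m] at *
    nlinarith

lemma bern_low {x : ℝ} (h0 : 0 ≤ x) (h1 : x ≤ 1) (m : ℕ) (hm : m * x ≤ 1) :
    m * x / 2 ≤ 1 - (1 - x) ^ m := by
  have a1 : 0 ≤ 1 - x := by linarith
  have a2 := one_add_mul_le_pow (a := x) (by linarith) m
  have a3 : (1 - x) ^ m * (1 + x) ^ m ≤ 1 := by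
    rw [← mul_pow]
    exact pow_le_one₀ (by positivity) (by nlinarith)
  have a4 : (1 - x) ^ m * (1 + m * x) ≤ 1 := le_trans (by gcongr) a3
  have a5 : 0 ≤ (m : ℝ) * x := by positivity
  by_contra h
  nlinarith

lemma gp_eq (N j s : ℕ) :
    (3 * (j : ℝ) + 1) * gp N j s = pp N j ^ s * ((3 * j + 1) * (q N * (1 - q N) ^ (3 * j))) := by
  rw [gp, pp, ← pow_mul]; ring

lemma a_le (hN : 2 ≤ N) (j : ℕ) :
    (3 * (j : ℝ) + 1) * (q N * (1 - q N) ^ (3 * j)) ≤ 1 - pp N j := by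
  have := bern_a (q_pos hN).le (by linarith [q_le hN]) (3 * j)
  push_cast at this
  exact this

/-- the generating function of a geometric gap -/
noncomputable def gf (N j : ℕ) (x : ℝ) : ℝ := (1 - pp N j) * x / (1 - pp N j * x)

lemma sum_gp_le (hN : 2 ≤ N) (j R : ℕ) {x : ℝ} (hx : 0 ≤ x) (hp : pp N j * x < 1) :
    ∑ s ∈ Finset.range R, (3 * (j : ℝ) + 1) * gp N j s * x ^ (s + 1) ≤ gf N j x := by
  have h0 := mul_nonneg (pp_nonneg hN j) hx
  have h1 : ∑ s ∈ Finset.range R, (pp N j * x) ^ s ≤ (1 - pp N j * x)⁻¹ :=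
    sum_le_hasSum _ (fun s _ => pow_nonneg h0 s) (hasSum_geometric_of_lt_one h0 hp)
  have h2 := a_le hN j
  have h3 : ∀ s, (3 * (j : ℝ) + 1) * gp N j s * x ^ (s + 1) =
      ((3 * j + 1) * (q N * (1 - q N) ^ (3 * j))) * x * (pp N j * x) ^ s := fun s => by
    rw [gp_eq, mul_pow]; ring
  simp only [h3]
  rw [← Finset.mul_sum, gf, div_eq_mul_inv]
  have h4 : 0 ≤ 1 - pp N j := by linarith [pp_le hN j, q_pos hN]
  exact mul_le_mul (mul_le_mul_of_nonneg_right h2 hx) h1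
    (Finset.sum_nonneg fun s _ => pow_nonneg h0 s) (mul_nonneg h4 hx)

/-- bounded gaps -/
def Bx (m R : ℕ) : Finset (Fin m → ℕ) := Fintype.piFinset fun _ => Finset.range R

lemma moment (hN : 2 ≤ N) {m k : ℕ} (hk : k ≤ m) (R : ℕ) {x : ℝ} (hx : 0 ≤ x)
    (hp : (1 - q N) * x < 1) :
    ∑ r ∈ Bx m R, W N r * x ^ tm (exR r) k ≤ ∏ j ∈ Finset.range k, gf N j x := by
  have hq := q_pos hN
  have e : ∀ g : ℕ → ℝ, ∏ j ∈ Finset.range k, g j = ∏ j : Fin m, if (j : ℕ) < k then g j else 1 := by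
    intro g
    rw [Fin.prod_univ_eq_prod_range fun j => if j < k then g j else 1, ← Finset.prod_filter]
    congr 1
    ext j
    simp only [Finset.mem_range, Finset.mem_filter]
    omega
  have h1 : ∀ r : Fin m → ℕ, W N r * x ^ tm (exR r) k = ∏ j : Fin m,
      (3 * (j : ℝ) + 1) * gp N j (r j) * (if (j : ℕ) < k then x else 1) ^ (r j + 1) := by
    intro r
    rw [Finset.prod_mul_distrib, tm, ← Finset.prod_pow_eq_pow_sum, e]
    congr 1
    refine Finset.prod_congr rfl fun j _ => ?_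
    split_ifs <;> simp [exR_val]
  simp only [h1]
  rw [Bx, ← Finset.prod_univ_sum (fun _ => Finset.range R) fun (j : Fin m) s =>
    (3 * (j : ℝ) + 1) * gp N j s * (if (j : ℕ) < k then x else 1) ^ (s + 1), e]
  refine Finset.prod_le_prod (fun j _ => Finset.sum_nonneg fun s _ => ?_) fun j _ => ?_
  · have := gp_nonneg hN j s
    split_ifs <;> positivity
  · have a1 := pp_le hN j
    split_ifs
    · exact sum_gp_le hN j R hx (lt_of_le_of_lt (by gcongr) hp)
    · refine (sum_gp_le hN j R zero_le_one (by linarith)).trans (le_of_eq ?_)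
      rw [gf, mul_one, mul_one, div_self (by linarith)]

lemma mass (m : ℕ) {δ : ℝ} (hδ : 0 < δ) :
    ∀ᶠ N in atTop, ∃ R, 1 - δ ≤ ∑ r ∈ Bx m R, W N r := by
  have h1 : Tendsto (fun N : ℕ => ∏ j : Fin m, (1 - q N) ^ (3 * (j : ℕ))) atTop (𝓝 1) := by
    have : Tendsto (fun N : ℕ => 1 - q N) atTop (𝓝 1) := by
      simpa [q] using (tendsto_inv_atTop_nhds_zero_nat (𝕜 := ℝ)).const_sub 1
    simpa using tendsto_finsetProd Finset.univ fun (j : Fin m) _ => this.pow (3 * (j : ℕ))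
  filter_upwards [h1.eventually (lt_mem_nhds (show 1 - δ < 1 by linarith)), eventually_ge_atTop 2]
    with N h2 hN
  have hq := q_pos hN
  have h0 := one_sub_q_nonneg hN
  have h3 : Tendsto (fun R => ∏ j : Fin m, ∑ s ∈ Finset.range R, (3 * (j : ℝ) + 1) * gp N j s)
      atTop (𝓝 (∏ j : Fin m, (1 - pp N j)⁻¹ *
        ((3 * (j : ℝ) + 1) * (q N * (1 - q N) ^ (3 * (j : ℕ)))))) := by
    refine tendsto_finsetProd _ fun j _ => ?_
    simp only [gp_eq]
    exact ((hasSum_geometric_of_lt_one (pp_nonneg hN j)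
      (by linarith [pp_le hN j])).mul_right _).tendsto_sum_nat
  have h4 : 1 - δ < ∏ j : Fin m, (1 - pp N j)⁻¹ *
      ((3 * (j : ℝ) + 1) * (q N * (1 - q N) ^ (3 * (j : ℕ)))) := by
    refine h2.trans_le (Finset.prod_le_prod (fun j _ => by positivity) fun j _ => ?_)
    have a1 : 0 < 1 - pp N j := by linarith [pp_le hN j]
    rw [le_inv_mul_iff₀ a1, ← mul_assoc]
    exact mul_le_mul_of_nonneg_right (bern_up hN j) (by positivity)
  obtain ⟨R, hR⟩ := (h3.eventually (lt_mem_nhds h4)).exists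
  refine ⟨R, hR.le.trans (le_of_eq ?_)⟩
  rw [Finset.prod_univ_sum]
  rfl

lemma markov {α : Type*} (s : Finset α) {w f : α → ℝ} (hw : ∀ a, 0 ≤ w a) (hf : ∀ a, 0 ≤ f a)
    {c : ℝ} (hc : 0 < c) (P : α → Prop) [DecidablePred P] (h : ∀ a, P a → c ≤ f a) :
    ∑ a ∈ s.filter P, w a ≤ (∑ a ∈ s, w a * f a) / c := by
  rw [le_div_iff₀ hc, Finset.sum_mul]
  refine le_trans (Finset.sum_le_sum fun a ha =>
    mul_le_mul_of_nonneg_left (h a (Finset.mem_filter.1 ha).2) (hw a)) ?_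
  exact Finset.sum_le_sum_of_subset_of_nonneg (Finset.filter_subset _ _)
    fun a _ _ => mul_nonneg (hw a) (hf a)

lemma sum_not_and {α : Type*} (s : Finset α) {w : α → ℝ} (hw : ∀ a, 0 ≤ w a)
    (P Q : α → Prop) [DecidablePred P] [DecidablePred Q] :
    ∑ a ∈ s.filter (fun a => ¬ (P a ∧ Q a)), w a ≤
      ∑ a ∈ s.filter (fun a => ¬ P a), w a + ∑ a ∈ s.filter (fun a => ¬ Q a), w a := by
  simp only [Finset.sum_filter, ← Finset.sum_add_distrib]
  refine Finset.sum_le_sum fun a _ => ?_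
  have := hw a
  by_cases h1 : P a <;> by_cases h2 : Q a <;> simp [h1, h2, this]

open Classical in
lemma conc {α : Type*} (s : Finset α) {w : α → ℝ} (hw : ∀ a, 0 ≤ w a) (τ : α → ℕ) {θ Mp Mm : ℝ}
    (hθ : 1 < θ) (hMp : 0 < Mp) (hp : ∑ a ∈ s, w a * θ ^ τ a ≤ Mp)
    (hm : ∑ a ∈ s, w a * θ⁻¹ ^ τ a ≤ Mm) (hM : Mp * Mm ≤ 2) {L : ℕ} (hL : 100 ≤ θ ^ L) :
    ∃ P : α → Prop, ∑ a ∈ s.filter (fun a => ¬ P a), w a ≤ 3 / 100 ∧
      ∀ a b, P a → P b → τ a < τ b + 2 * L := by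
  have h0 : 0 < θ := by linarith
  refine ⟨fun a => θ ^ τ a < Mp * θ ^ L ∧ θ⁻¹ ^ τ a < θ ^ L / Mp,
    ?_, fun a b ha hb => ?_⟩
  · have h := sum_not_and s hw (fun a => θ ^ τ a < Mp * θ ^ L) fun a => θ⁻¹ ^ τ a < θ ^ L / Mp
    refine le_trans (le_of_eq (by congr)) (h.trans ?_)
    have h1 := markov s hw (f := fun a => θ ^ τ a) (fun a => by positivity)
      (c := Mp * θ ^ L) (by positivity) (fun a => ¬ θ ^ τ a < Mp * θ ^ L) fun a h => not_lt.1 h
    have h2 := markov s hw (f := fun a => θ⁻¹ ^ τ a) (fun a => by positivity)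
      (c := θ ^ L / Mp) (by positivity) (fun a => ¬ θ⁻¹ ^ τ a < θ ^ L / Mp) fun a h => not_lt.1 h
    have h3 : (∑ a ∈ s, w a * θ ^ τ a) / (Mp * θ ^ L) ≤ 1 / 100 := by
      rw [div_le_iff₀ (by positivity)]; nlinarith
    have h4 : (∑ a ∈ s, w a * θ⁻¹ ^ τ a) / (θ ^ L / Mp) ≤ 2 / 100 := by
      rw [div_div_eq_mul_div, div_le_iff₀ (by positivity)]; nlinarith
    linarith
  · rw [← pow_lt_pow_iff_right₀ hθ, pow_add, two_mul, pow_add]
    have h1 := hb.2
    rw [inv_pow, inv_lt_iff_one_lt_mul₀ (by positivity), div_mul_eq_mul_div,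
      lt_div_iff₀ hMp] at h1
    have := mul_lt_mul_of_pos_right h1 (pow_pos h0 L)
    linarith [ha.1]

lemma prod_inv_le {x : ℕ → ℝ} (h0 : ∀ j, 0 ≤ x j) (k : ℕ) (h1 : ∀ j < k, x j ≤ 1) :
    1 - ∑ j ∈ Finset.range k, x j ≤ ∏ j ∈ Finset.range k, (1 - x j) := by
  induction k with
  | zero => simp
  | succ k ih =>
    rw [Finset.sum_range_succ, Finset.prod_range_succ]
    have a1 := ih fun j hj => h1 j (by omega)
    have a2 : 0 ≤ ∑ j ∈ Finset.range k, x j := Finset.sum_nonneg fun j _ => h0 j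
    have a3 := h1 k (by omega)
    have a4 := h0 k
    nlinarith

lemma sum_sq_le (k : ℕ) : ∑ j ∈ Finset.range k, 1 / (16 * (3 * ((j : ℕ) : ℝ) + 1) ^ 2) ≤
    1 / 8 - 1 / (8 * ((k : ℝ) + 1)) := by
  induction k with
  | zero => simp
  | succ k ih =>
    rw [Finset.sum_range_succ]
    push_cast
    have : 1 / (16 * (3 * (k : ℝ) + 1) ^ 2) ≤ 1 / (8 * (k + 1)) - 1 / (8 * (k + 1 + 1)) := by
      rw [div_sub_div _ _ (by positivity) (by positivity), div_le_div_iff₀ (by positivity)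
        (by positivity)]
      have : (0 : ℝ) ≤ k := by positivity
      nlinarith [mul_nonneg this this, mul_nonneg this (mul_nonneg this this)]
    linarith

lemma th_lt (hN : 2 ≤ N) : (1 - q N) * (1 + q N / 8) < 1 := by nlinarith [q_pos hN]

lemma th_inv_lt (hN : 2 ≤ N) : (1 - q N) * (1 + q N / 8)⁻¹ < 1 := by
  have := q_pos hN
  rw [mul_inv_lt_iff₀ (by linarith)]; linarith

lemma gf_pos (hN : 2 ≤ N) (j : ℕ) : 0 < gf N j (1 + q N / 8) := by
  have h1 := q_pos hN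
  have h2 := pp_le hN j
  have h3 := th_lt hN
  refine div_pos (mul_pos (by linarith) (by linarith)) ?_
  nlinarith

lemma gf_inv (hN : 2 ≤ N) (j : ℕ) :
    gf N j (1 + q N / 8)⁻¹ = (1 - pp N j) / (1 - pp N j + q N / 8) := by
  have h1 := q_pos hN
  have h2 := pp_le hN j
  have h3 : 1 - pp N j + q N / 8 ≠ 0 := by linarith
  have h4 : 1 - pp N j * (1 + q N / 8)⁻¹ = (1 - pp N j + q N / 8) * (1 + q N / 8)⁻¹ := by
    field_simp; ring
  rw [gf, h4, mul_div_mul_right _ _ (by positivity)]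

lemma gf_mul (hN : 2 ≤ N) (j : ℕ) (hj : 3 * j + 1 ≤ N) :
    gf N j (1 + q N / 8) * gf N j (1 + q N / 8)⁻¹ * (1 - 1 / (16 * (3 * (j : ℝ) + 1) ^ 2)) ≤ 1 := by
  have h1 := q_pos hN
  have h2 := pp_le hN j
  have h3 := th_lt hN
  have h4 := pp_nonneg hN j
  have h5 : (3 * (j : ℝ) + 1) * q N / 2 ≤ 1 - pp N j := by
    have := bern_low h1.le (by linarith [q_le hN]) (3 * j + 1) (by
      rw [← q_mul hN, mul_comm]; gcongr)
    push_cast at this
    exact this
  rw [gf_inv hN, gf]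
  set p := pp N j
  set s := q N / 8 with hs
  set m := 3 * (j : ℝ) + 1
  have hm : 0 < m := by positivity
  have a1 : 0 < 1 - p * (1 + s) := by nlinarith
  have a2 : 0 < 1 - p + s := by linarith
  have a3 : s ^ 2 ≤ (1 - p) ^ 2 * (1 / (16 * m ^ 2)) := by
    rw [mul_one_div, le_div_iff₀ (by positivity)]
    have : 4 * m * s ≤ 1 - p := by rw [hs]; linarith
    have := pow_le_pow_left₀ (by positivity) this 2
    nlinarith
  rw [div_mul_div_comm, div_mul_eq_mul_div, div_le_one (mul_pos a1 a2)]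
  have a4 : 0 ≤ (1 - p) ^ 2 * (1 / (16 * m ^ 2)) * s := by positivity
  have a5 : p * s ^ 2 ≤ s ^ 2 := mul_le_of_le_one_left (by positivity) (by linarith)
  nlinarith

lemma prod_gf_mul (hN : 2 ≤ N) {k : ℕ} (hk : 3 * k ≤ N) :
    (∏ j ∈ Finset.range k, gf N j (1 + q N / 8)) *
      ∏ j ∈ Finset.range k, gf N j (1 + q N / 8)⁻¹ ≤ 2 := by
  have h0 : ∀ j : ℕ, 1 / (16 * (3 * (j : ℝ) + 1) ^ 2) ≤ 1 := fun j => by
    have : (0 : ℝ) ≤ j := by positivity
    rw [div_le_one (by positivity)]; nlinarith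
  have h1 := prod_inv_le (x := fun j => 1 / (16 * (3 * (j : ℝ) + 1) ^ 2)) (fun j => by positivity)
    k fun j _ => h0 j
  have h2 := sum_sq_le k
  have h3 : (0 : ℝ) ≤ 1 / (8 * (k + 1)) := by positivity
  have h4 : ∀ j, 0 ≤ gf N j (1 + q N / 8) * gf N j (1 + q N / 8)⁻¹ := fun j => by
    refine mul_nonneg (gf_pos hN j).le ?_
    have := pp_le hN j
    have := q_pos hN
    rw [gf_inv hN]
    exact div_nonneg (by linarith) (by linarith)
  have h5 := Finset.prod_le_one (s := Finset.range k) (fun j _ => mul_nonneg (h4 j)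
    (sub_nonneg.2 (h0 j))) fun j hj => gf_mul hN j (by have := Finset.mem_range.1 hj; omega)
  rw [Finset.prod_mul_distrib] at h5
  rw [← Finset.prod_mul_distrib]
  have h6 := Finset.prod_nonneg (s := Finset.range k) fun j _ => h4 j
  nlinarith

lemma prod_gf_inv (hN : 2 ≤ N) (k : ℕ) : (∏ j ∈ Finset.range k, gf N j (1 + q N / 8)⁻¹) *
    (1 + (∑ j ∈ Finset.range k, 1 / ((j : ℝ) + 1)) / 24) ≤ 1 := by
  have h1 := q_pos hN
  have h4 : ∀ j, 0 ≤ gf N j (1 + q N / 8)⁻¹ := fun j => by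
    have := pp_le hN j
    rw [gf_inv hN]
    exact div_nonneg (by linarith) (by linarith)
  have h5 : ∀ j, gf N j (1 + q N / 8)⁻¹ * (1 + 1 / ((j : ℝ) + 1) / 24) ≤ 1 := fun j => by
    have a1 := pp_le hN j
    have a2 := bern_up hN j
    rw [gf_inv hN, div_mul_eq_mul_div, div_le_one (by linarith), mul_add, mul_one, add_le_add_iff_left,
      div_div, mul_one_div, div_le_iff₀ (by positivity)]
    nlinarith
  induction k with
  | zero => simp
  | succ k ih =>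
    rw [Finset.prod_range_succ, Finset.sum_range_succ]
    have a1 : 0 ≤ ∑ j ∈ Finset.range k, 1 / ((j : ℝ) + 1) := Finset.sum_nonneg fun _ _ => by positivity
    have a2 := Finset.prod_nonneg (s := Finset.range k) fun j _ => h4 j
    have a3 := mul_le_one₀ ih (mul_nonneg (h4 k) (by positivity)) (h5 k)
    have a4 : 0 ≤ (∏ j ∈ Finset.range k, gf N j (1 + q N / 8)⁻¹) * gf N k (1 + q N / 8)⁻¹ *
        ((∑ j ∈ Finset.range k, 1 / ((j : ℝ) + 1)) / 24 * (1 / ((k : ℝ) + 1) / 24)) :=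
      mul_nonneg (mul_nonneg a2 (h4 k)) (by positivity)
    nlinarith

lemma th_pow_ge (hN : 2 ≤ N) : 100 ≤ (1 + q N / 8) ^ (N * 40) := by
  have h1 := one_add_mul_le_pow (a := q N / 8) (by linarith [q_pos hN]) N
  rw [show (N : ℝ) * (q N / 8) = 1 / 8 by rw [← q_mul hN]; ring] at h1
  rw [pow_mul]
  exact le_trans (by norm_num) (pow_le_pow_left₀ (by norm_num) h1 40)

lemma th_pow_le (hN : 2 ≤ N) (t : ℕ) : (1 + q N / 8) ^ (t * N) ≤ Real.exp t := by
  have h1 := q_pos hN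
  have h2 : 1 + q N / 8 ≤ Real.exp (q N) := by linarith [Real.add_one_le_exp (q N)]
  refine (pow_le_pow_left₀ (by positivity) h2 _).trans (le_of_eq ?_)
  rw [← Real.exp_nat_mul]
  push_cast
  rw [mul_assoc, mul_comm (N : ℝ), q_mul hN, mul_one]

theorem win {l : ℕ} (hl : 1 ≤ l) : ∃ γ : ℝ, 0 < γ ∧ ∀ t0 : ℕ, ∃ n0 : ℕ, ∀ n n' : ℕ, n0 ≤ n →
    n ≤ n' → ∀ᶠ N in atTop, ∃ k k' : ℕ, t0 * N ≤ k ∧ t0 * N ≤ k' ∧
      ∃ Γ : Finset (Fin (n' + 1) → ℕ), γ ≤ ∑ r ∈ Γ, W N r ∧ ∀ r ∈ Γ,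
        tm (exR r) (n + 1) ∈ Finset.Icc k (k + N / l) ∧
        tm (exR r) (n' + 1) ∈ Finset.Icc k' (k' + N / l) := by
  classical
  refine ⟨1 / (2 * ((80 * l : ℕ) : ℝ) ^ 2), by positivity, fun t0 => ?_⟩
  obtain ⟨n0, hn0⟩ := eventually_atTop.1 (Real.tendsto_sum_range_one_div_nat_succ_atTop.eventually
    (eventually_ge_atTop (2400 * Real.exp t0)))
  refine ⟨n0, fun n n' h1 h2 => ?_⟩
  filter_upwards [mass (n' + 1) (δ := 1 / 100) (by norm_num), eventually_ge_atTop 2,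
    eventually_ge_atTop (3 * (n' + 1))] with N ⟨R, hR⟩ hN hN'
  have hq := q_pos hN
  have hθ : 1 < 1 + q N / 8 := by linarith
  have hW : ∀ r : Fin (n' + 1) → ℕ, 0 ≤ W N r := W_nonneg hN
  have c : ∀ k ≤ n' + 1, ∃ P : (Fin (n' + 1) → ℕ) → Prop,
      ∑ a ∈ (Bx (n' + 1) R).filter (fun a => ¬ P a), W N a ≤ 3 / 100 ∧
      ∀ a b, P a → P b → tm (exR a) k < tm (exR b) k + 2 * (N * 40) := fun k hk =>
    conc _ hW (fun r => tm (exR r) k) hθ (Finset.prod_pos fun j _ => gf_pos hN j)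
      (moment hN hk R (by positivity) (th_lt hN)) (moment hN hk R (by positivity) (th_inv_lt hN))
      (prod_gf_mul hN (by omega)) (th_pow_ge hN)
  obtain ⟨P1, a1, b1⟩ := c (n + 1) (by omega)
  obtain ⟨P2, a2, b2⟩ := c (n' + 1) le_rfl
  have a3 : ∑ a ∈ (Bx (n' + 1) R).filter (fun a => ¬ t0 * N ≤ tm (exR a) (n + 1)), W N a ≤
      1 / 100 := by
    refine (markov _ hW (f := fun a => (1 + q N / 8)⁻¹ ^ tm (exR a) (n + 1))
      (fun a => by positivity) (c := (1 + q N / 8)⁻¹ ^ (t0 * N)) (by positivity) _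
      fun a h => pow_le_pow_of_le_one (by positivity) (inv_le_one_of_one_le₀ hθ.le)
        (not_le.1 h).le).trans ?_
    have e1 := moment hN (show n + 1 ≤ n' + 1 by omega) R (by positivity) (th_inv_lt hN)
    have e2 := prod_gf_inv hN (n + 1)
    have e3 := hn0 (n + 1) (by omega)
    have e4 := th_pow_le hN t0
    have e5 : 0 ≤ ∑ r ∈ Bx (n' + 1) R, W N r * (1 + q N / 8)⁻¹ ^ tm (exR r) (n + 1) :=
      Finset.sum_nonneg fun r _ => mul_nonneg (hW r) (by positivity)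
    rw [inv_pow _ (t0 * N), div_inv_eq_mul]
    have e6 := mul_le_mul e1 e4 (by positivity) (e5.trans e1)
    nlinarith [e5.trans e1]
  set G := (Bx (n' + 1) R).filter fun a => P1 a ∧ P2 a ∧ t0 * N ≤ tm (exR a) (n + 1) with hG
  have hm : 1 / 2 ≤ ∑ a ∈ G, W N a := by
    have e1 := Finset.sum_filter_add_sum_filter_not (Bx (n' + 1) R)
      (fun a => P1 a ∧ P2 a ∧ t0 * N ≤ tm (exR a) (n + 1)) (W N)
    have e2 := sum_not_and (Bx (n' + 1) R) hW P1 fun a => P2 a ∧ t0 * N ≤ tm (exR a) (n + 1)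
    have e3 := sum_not_and (Bx (n' + 1) R) hW P2 fun a => t0 * N ≤ tm (exR a) (n + 1)
    linarith
  have hne : G.Nonempty := by
    rw [Finset.nonempty_iff_ne_empty]
    intro e
    rw [e, Finset.sum_empty] at hm
    norm_num at hm
  obtain ⟨r1, hr1, m1⟩ := G.exists_min_image (fun a => tm (exR a) (n + 1)) hne
  obtain ⟨r2, hr2, m2⟩ := G.exists_min_image (fun a => tm (exR a) (n' + 1)) hne
  have hd : ∀ x, x < 2 * (N * 40) → x / (N / l + 1) < 80 * l := fun x hx => by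
    rw [Nat.div_lt_iff_lt_mul (Nat.succ_pos _)]
    have := Nat.lt_mul_div_succ N (show 0 < l by omega)
    nlinarith
  obtain ⟨y, -, hy⟩ := Finset.exists_le_sum_fiber_of_maps_to_of_nsmul_le_sum (s := G)
    (t := Finset.range (80 * l) ×ˢ Finset.range (80 * l))
    (f := fun a => ((tm (exR a) (n + 1) - tm (exR r1) (n + 1)) / (N / l + 1),
      (tm (exR a) (n' + 1) - tm (exR r2) (n' + 1)) / (N / l + 1))) (w := W N)
    (b := 1 / (2 * ((80 * l : ℕ) : ℝ) ^ 2))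
    (fun a ha => by
      have e1 := b1 a r1 (Finset.mem_filter.1 ha).2.1 (Finset.mem_filter.1 hr1).2.1
      have e2 := b2 a r2 (Finset.mem_filter.1 ha).2.2.1 (Finset.mem_filter.1 hr2).2.2.1
      simp only [Finset.mem_product, Finset.mem_range]
      exact ⟨hd _ (by omega), hd _ (by omega)⟩)
    ⟨(0, 0), by simp; omega⟩ (by
      refine le_trans (le_of_eq ?_) hm
      have : ((80 * l : ℕ) : ℝ) ≠ 0 := by positivity
      rw [Finset.card_product, Finset.card_range, nsmul_eq_mul, Nat.cast_mul (80 * l)]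
      field_simp)
  have t1 := (Finset.mem_filter.1 hr1).2.2.2
  have t2 := (Finset.mem_filter.1 hr2).2.2.2.trans
    ((tm_strictMono (exR r2)).monotone (show n + 1 ≤ n' + 1 by omega))
  refine ⟨tm (exR r1) (n + 1) + y.1 * (N / l + 1), tm (exR r2) (n' + 1) + y.2 * (N / l + 1),
    by omega, by omega, _, hy, fun r hr => ?_⟩
  obtain ⟨e1, rfl⟩ := Finset.mem_filter.1 hr
  have key : ∀ a x M : ℕ, a ≤ x → x ∈ Finset.Icc (a + (x - a) / (M + 1) * (M + 1))
      (a + (x - a) / (M + 1) * (M + 1) + M) := fun a x M h => by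
    have f1 := Nat.div_add_mod' (x - a) (M + 1)
    have f2 : (x - a) % (M + 1) < M + 1 := Nat.mod_lt (x - a) (Nat.succ_pos M)
    rw [Finset.mem_Icc]
    omega
  exact ⟨key _ _ _ (m1 r e1), key _ _ _ (m2 r e1)⟩

end Pool.Agent.P.MP_8c7dae_pr.DePo
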