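import Mathlib

open MeasureTheory Set

namespace Pool.Agent.P.MP_8c7dae_pr

/-- dyadic cells of the plane: depth and two integer indices -/
abbrev Cell := ℕ × ℤ × ℤ
abbrev Pt := ℝ × ℝ
/-- clocks -/
abbrev Om := Cell → ℕ

/-- the closed square of a cell -/
def sq (v : Cell) : Set Pt :=
  {p | (v.2.1 : ℝ) ≤ 2 ^ v.1 * p.1 ∧ 2 ^ v.1 * p.1 ≤ v.2.1 + 1 ∧
    (v.2.2 : ℝ) ≤ 2 ^ v.1 * p.2 ∧ 2 ^ v.1 * p.2 ≤ v.2.2 + 1}

/-- the ancestor of depth `m` -/
def anc (m : ℕ) (v : Cell) : Cell := (m, v.2.1 / 2 ^ (v.1 - m), v.2.2 / 2 ^ (v.1 - m))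

/-- `v` is `c` or a descendant of `c` -/
def Below (c v : Cell) : Prop := c.1 ≤ v.1 ∧ anc c.1 v = c

/-- descendants at relative depth `h` -/
def desc (h : ℕ) (c : Cell) : Finset Cell :=
  ((Finset.range (2 ^ h)) ×ˢ (Finset.range (2 ^ h))).image
    (fun x : ℕ × ℕ => (c.1 + h, c.2.1 * 2 ^ h + x.1, c.2.2 * 2 ^ h + x.2))

def root : Cell := (0, 0, 0)
def Q : Set Pt := sq root

/-- birth time -/
def S (ω : Om) (v : Cell) : ℕ := ∑ m ∈ Finset.range v.1, (ω (anc m v) + 1)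

/-- tiles alive at time `k` -/
def T (ω : Om) (k : ℕ) : Set Cell := {v | S ω v ≤ k ∧ k ≤ S ω v + ω v}

/-- tiles alive at time `k` under a set of roots -/
def TR (ω : Om) (k : ℕ) (R : Finset Cell) : Set Cell := {v | v ∈ T ω k ∧ anc 0 v ∈ R}

def TQ (ω : Om) (k : ℕ) : Set Cell := TR ω k {root}

def IsCh (A : Set Cell) (p : ℕ → Pt) (v : ℕ → Cell) (a b : ℕ) : Prop :=
  ∀ j, a ≤ j → j < b → v j ∈ A ∧ p j ∈ sq (v j) ∧ p (j + 1) ∈ sq (v j)

/-- `x` and `y` are joined by a chain of at most `n` tiles of `A` -/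
inductive Reach (A : Set Cell) : ℕ → Pt → Pt → Prop
  | refl (n : ℕ) (x : Pt) : Reach A n x x
  | step {n : ℕ} {x y z : Pt} {v : Cell} :
      Reach A n x y → v ∈ A → y ∈ sq v → z ∈ sq v → Reach A (n + 1) x z

noncomputable def dS (A : Set Cell) (I J : Set Pt) : ℕ :=
  sInf {n | ∃ x ∈ I, ∃ y ∈ J, Reach A n x y}

def Conn (A : Set Cell) (I J : Set Pt) : Prop := ∃ n, ∃ x ∈ I, ∃ y ∈ J, Reach A n x y

noncomputable def d (ω : Om) (k : ℕ) (x y : Pt) : ℕ := dS (TQ ω k) {x} {y}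

/-- corner to corner distance -/
noncomputable def dc (ω : Om) (k : ℕ) : ℕ := d ω k (0, 0) (1, 1)

noncomputable def X (ω : Om) (k : ℕ) : ℕ := sInf {n | ∀ x ∈ Q, ∀ y ∈ Q, Reach (TQ ω k) n x y}

def L0 : Set Pt := {p | p.1 = 0}
def L1 : Set Pt := {p | p.1 = 1}

def col : Finset Cell := (Finset.range 5).image (fun b : ℕ => ((0, 0, (b : ℤ)) : Cell))

noncomputable def Z (ω : Om) (k : ℕ) : ℕ := dS (TR ω k col) L0 L1
noncomputable def Test (ω : Om) (k : ℕ) : ℕ := dS (TQ ω k) L0 L1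

/-- similarities of the dyadic forest -/
structure Sim where
  s : ℕ
  g : Cell → Cell
  ψ : Pt → Pt
  φ : Pt → Pt
  left_inv : ∀ p, φ (ψ p) = p
  right_inv : ∀ p, ψ (φ p) = p
  inj : Function.Injective g
  fst : ∀ v, (g v).1 = v.1 + s
  anc_g : ∀ v m, m ≤ v.1 → anc (m + s) (g v) = g (anc m v)
  surj : ∀ w : Cell, s ≤ w.1 → ∃ v, g v = w
  mem_sq : ∀ v p, ψ p ∈ sq (g v) ↔ p ∈ sq v
  dist_eq : ∀ p p', dist p p' = 2 ^ s * dist (ψ p) (ψ p')

def pull (σ : Sim) (ω : Om) : Om := fun v => ω (σ.g v)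

def Sub (R : Set Cell) : Set Cell := {v | ∃ c ∈ R, Below c v}
def Sub1 (c : Cell) : Set Cell := {v | Below c v}
def Deep (D : ℕ) : Set Cell := {v | D ≤ v.1}

noncomputable def q (N : ℕ) : ℝ := 1 / (N : ℝ)

noncomputable def qI (N : ℕ) : unitInterval :=
  ⟨q N, by unfold q; positivity, by
    unfold q
    rcases Nat.eq_zero_or_pos N with h | h
    · simp [h]
    · rw [div_le_one (by exact_mod_cast h)]; exact_mod_cast h⟩

noncomputable def ν (N : ℕ) : Measure ℕ := ProbabilityTheory.geometricMeasure (qI N)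

instance (N : ℕ) : IsProbabilityMeasure (ν N) := by unfold ν; infer_instance

noncomputable def μ (N : ℕ) : Measure Om := Measure.infinitePi (fun _ : Cell => ν N)

instance (N : ℕ) : IsProbabilityMeasure (μ N) := by unfold μ; infer_instance

noncomputable def E (N : ℕ) (f : Om → ℝ) : ℝ := ∫ ω, f ω ∂μ N

open Classical in
noncomputable def ind (A : Prop) : ℝ := if A then 1 else 0

noncomputable def Pr (N : ℕ) (A : Om → Prop) : ℝ := E N (fun ω => ind (A ω))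

open Classical in
/-- use `ω'` on `s` and `ω` off `s` -/
noncomputable def pw (s : Set Cell) (ω' ω : Om) : Om := fun v => if v ∈ s then ω' v else ω v

/-- resample the coordinates in `s` -/
noncomputable def Res (N : ℕ) (s : Set Cell) (f : Om → ℝ) (ω : Om) : ℝ :=
  E N (fun ω' => f (pw s ω' ω))

/-- depends on finitely many truncated coordinates -/
def Elem {β : Type*} (f : Om → β) : Prop :=
  ∃ (s : Finset Cell) (K : ℕ), ∀ ω ω' : Om, (∀ v ∈ s, min (ω v) K = min (ω' v) K) → f ω = f ω'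

structure Nice (f : Om → ℝ) : Prop where
  meas : Measurable f
  bdd : ∃ C, ∀ ω, |f ω| ≤ C

noncomputable def p0 : ℝ := 1 / (4 * 20000 ^ 2)

/-- the normalising sequence: a small quantile of the easy crossing -/
noncomputable def a (N k : ℕ) : ℕ := sInf {n : ℕ | p0 < Pr N (fun ω => Z ω k ≤ n)}

end Pool.Agent.P.MP_8c7dae_pr
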