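import Pool.Agent.P.MP_8c7dae_pr.Tree

open MeasureTheory Set

namespace Pool.Agent.P.MP_8c7dae_pr

/-! ### the discrete chain of the problem -/

abbrev Iota := (n : ℕ) → Fin (3 * n + 3 + 1)

def cfg (ι : Iota) (n : ℕ) : List (ℕ × ℕ × ℕ) :=
  Nat.rec (motive := fun _ => List (ℕ × ℕ × ℕ))
    [(1, 0, 0), (1, 1, 0), (1, 0, 1), (1, 1, 1)]
    (fun k L => L.eraseIdx (ι k).val ++
      ([(0, 0), (1, 0), (0, 1), (1, 1)] : List (ℕ × ℕ)).map
        (fun d => ((L.getD (ι k).val (0, 0, 0)).1 + 1,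
                   2 * (L.getD (ι k).val (0, 0, 0)).2.1 + d.1,
                   2 * (L.getD (ι k).val (0, 0, 0)).2.2 + d.2))) n

def toCell (s : ℕ × ℕ × ℕ) : Cell := (s.1, (s.2.1 : ℤ), (s.2.2 : ℤ))

def cellSet (L : List (ℕ × ℕ × ℕ)) : Set Cell := {v | ∃ s ∈ L, toCell s = v}

def sqN (s : ℕ × ℕ × ℕ) : Set (ℝ × ℝ) :=
  Set.Icc ((s.2.1 : ℝ) / 2 ^ s.1) (((s.2.1 : ℝ) + 1) / 2 ^ s.1) ×ˢ
    Set.Icc ((s.2.2 : ℝ) / 2 ^ s.1) (((s.2.2 : ℝ) + 1) / 2 ^ s.1)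

/-- corner to corner chain distance in the discrete chain -/
noncomputable def Mc (n : ℕ) (ι : Iota) : ℕ := dS (cellSet (cfg ι n)) {(0, 0)} {(1, 1)}

noncomputable def Pι : Measure Iota :=
  Measure.infinitePi (fun n : ℕ => (PMF.uniformOfFintype (Fin (3 * n + 3 + 1))).toMeasure)

instance : IsProbabilityMeasure Pι := by unfold Pι; infer_instance

/-! ### blocks -/

/-- the two by two block with lower left cell `c` -/
def blk (c : Cell) : Finset Cell :=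
  {c, (c.1, c.2.1 + 1, c.2.2), (c.1, c.2.1, c.2.2 + 1), (c.1, c.2.1 + 1, c.2.2 + 1)}

/-- lower left cell of the depth `i` block centred near `z` -/
noncomputable def ll (i : ℕ) (z : Pt) : Cell := (i, ⌊2 ^ i * z.1 - 1 / 2⌋, ⌊2 ^ i * z.2 - 1 / 2⌋)

open Classical in
/-- blocks at relative depth `h` under the block of `b` and disjoint from the block of `b'` -/
noncomputable def subs (h : ℕ) (b b' : Cell) : Finset Cell :=
  ((blk b).biUnion (desc h)).filter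
    (fun l => ∀ c ∈ blk l, (∃ c0 ∈ blk b, Below c0 c) ∧ c ∉ blk b')

/-- every chain of `A` that moves `ρ` has at least `x` tiles -/
def LBs (A : Set Cell) (ρ x : ℝ) : Prop :=
  ∀ (n : ℕ) (p p' : Pt), Reach A n p p' → ρ ≤ dist p p' → x ≤ n

/-! ### highways -/

def gc (x : ℤ × ℤ) : Cell := (0, x.1, x.2)

def InBox (n : ℕ) (x : ℤ × ℤ) : Prop := 0 ≤ x.1 ∧ x.1 < n ∧ 0 ≤ x.2 ∧ x.2 < n

def Box (n : ℕ) : Set Pt := {p | 0 ≤ p.1 ∧ p.1 ≤ n ∧ 0 ≤ p.2 ∧ p.2 ≤ n}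

/-- the four core grandchildren of the root -/
def core : Finset Cell := {(2, 0, 1), (2, 1, 1), (2, 2, 1), (2, 3, 1)}

/-- `v` is not under a core cell of the gadget `σ` -/
def NonCore (σ : Sim) (v : Cell) : Prop := ∀ c ∈ core, ¬ Below (σ.g c) v

end Pool.Agent.P.MP_8c7dae_pr
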