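import Pool.Agent.P.MP_8c7dae_pr.Var

open MeasureTheory Set Filter

namespace Pool.Agent.P.MP_8c7dae_pr

/-- normalised diameters of the four cells of a block -/
noncomputable def Yb (N : ℕ) (ω : Om) (k : ℕ) (b : Cell) : ℝ :=
  ∑ c ∈ blk b, (Xh ω k c : ℝ) / a N (k - S ω c)

noncomputable def grid (M : ℕ) : Finset Pt :=
  ((Finset.range (2 ^ M + 1)) ×ˢ (Finset.range (2 ^ M + 1))).image
    (fun x : ℕ × ℕ => (((x.1 : ℝ) / 2 ^ M, (x.2 : ℝ) / 2 ^ M) : Pt))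

/-- one side of a good interval: a cell `c` of depth `i` visited at steps `j1 ≤ j2` of `[lo, hi)` -/
def Side (N : ℕ) (ω : Om) (k : ℕ) (v : ℕ → Cell) (G : ℕ → Om → Prop) (κ K : ℝ) (i lo hi : ℕ)
    (e : Cell) : Prop :=
  ∃ (c : Cell) (j1 j2 : ℕ), lo ≤ j1 ∧ j1 ≤ j2 ∧ j2 < hi ∧ c.1 = i ∧
    G (k - S ω c) (pull (emb c) ω) ∧ Below c (v j1) ∧ Below c (v j2) ∧
    κ * a N (k - S ω c) ≤ ((j2 + 1 - j1 : ℕ) : ℝ) ∧ (a N (k - S ω e) : ℝ) ≤ K * a N (k - S ω c)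

/-- a good interval around step `τ` at depth `i` -/
def GoodInt (N : ℕ) (ω : Om) (k kY : ℕ) (v : ℕ → Cell) (n τ : ℕ) (G : ℕ → Om → Prop) (κ K : ℝ)
    (i h : ℕ) : Prop :=
  ∃ (lo hi : ℕ) (l cm cp : Cell), l.1 = i ∧ lo ≤ τ ∧ τ < hi ∧ hi ≤ n ∧ cm ∈ blk l ∧ cp ∈ blk l ∧
    Below cm (v lo) ∧ Below cp (v (hi - 1)) ∧
    (∀ j, lo ≤ j → j < hi → ∃ c ∈ blk l, Below c (v j)) ∧
    (Xh ω kY cm : ℝ) ≤ K * a N (kY - S ω cm) ∧ (Xh ω kY cp : ℝ) ≤ K * a N (kY - S ω cp) ∧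
    Side N ω k v G κ K (i + h) lo τ cm ∧ Side N ω k v G κ K (i + h) τ hi cp

/-- top part of the gadget event -/
def Gtop (N L0 L : ℕ) (ω : Om) : Prop :=
  (L0 * N ≤ ω root ∧ ω root < (L0 + L) * N) ∧ (∀ c ∈ desc 1 root, ω c < N) ∧
    ∀ c ∈ desc 2 root \ core, ω c < N

/-- core part of the gadget event -/
def Gcore (N L1 : ℕ) (ω : Om) : Prop := ∀ c ∈ core, L1 * N ≤ ω c ∧ ω c < (L1 + 1) * N

def Gad (N L0 L L1 : ℕ) (ω : Om) : Prop := Gtop N L0 L ω ∧ Gcore N L1 ω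

def BadEv (k1 k2 : ℕ) (A1 A2 C η : ℝ) (ω : Om) : Prop :=
  ∃ x ∈ Q, ∃ y ∈ Q, C * ((d ω k1 x y : ℝ) / A1) + η < (d ω k2 x y : ℝ) / A2

def Up {ι : Type} (F : Filter ι) (N k1 k2 : ι → ℕ) (A1 A2 : ι → ℝ) (C : ℝ) : Prop :=
  ∀ η : ℝ, 0 < η → ∀ᶠ i in F, Pr (N i) (BadEv (k1 i) (k2 i) (A1 i) (A2 i) C η) ≤ η

/-- a fixed ultrafilter finer than the filter at infinity -/
noncomputable def UF : Ultrafilter ℕ := Filter.hyperfilter ℕ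

lemma UF_le : (UF : Filter ℕ) ≤ atTop := by
  rw [← Nat.cofinite_eq_atTop]; exact Filter.hyperfilter_le_cofinite

lemma elem_Gtop (N L0 L : ℕ) : Elem (Gtop N L0 L) :=
  ((Elem.coord_ge _ _).and (Elem.coord_lt _ _)).and
    ((Elem.all _ fun c _ => Elem.coord_lt c N).and (Elem.all _ fun c _ => Elem.coord_lt c N))

lemma elem_Gcore (N L1 : ℕ) : Elem (Gcore N L1) :=
  Elem.all _ fun c _ => (Elem.coord_ge c _).and (Elem.coord_lt c _)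

lemma elem_Gad (N L0 L L1 : ℕ) : Elem (Gad N L0 L L1) := (elem_Gtop N L0 L).and (elem_Gcore N L1)

lemma elem_BadEv (k1 k2 : ℕ) (A1 A2 C η : ℝ) : Elem (BadEv k1 k2 A1 A2 C η) :=
  (elem_TQ k1).map₂ (elem_TQ k2) fun A B => ∃ x ∈ Q, ∃ y ∈ Q,
    C * ((dS A {x} {y} : ℝ) / A1) + η < (dS B {x} {y} : ℝ) / A2

lemma elem_LBs (j : ℕ) (R : Finset Cell) (ρ x : ℝ) : Elem (fun ω => LBs (TR ω j R) ρ x) :=
  (elem_TR j R).map fun A => LBs A ρ x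

end Pool.Agent.P.MP_8c7dae_pr
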