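import Pool.Agent.P.MP_8c7dae_pr.Mom
import Pool.Agent.P.MP_8c7dae_pr.Cover

open MeasureTheory Set Filter

namespace Pool.Agent.P.MP_8c7dae_pr

open CoverAux

namespace DensAux

lemma pot {l y y' α ρ : ℝ} (P : ℕ) (hl : 0 ≤ l) (hy : 0 ≤ y) (hy' : 0 ≤ y') (hα : 0 ≤ α)
    (hρ : 0 ≤ ρ) (h : y ≤ α + ρ * y') (Ev : Prop) :
    (1 + l * ind (2 < y ∨ Ev)) * (1 + y ^ P) ≤
      (1 + l * ind Ev + (1 + 2 * l) * (2 * α) ^ P + 2 * (1 + l) * (2 * ρ) ^ P) * (1 + y' ^ P) := by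
  have ha : 0 ≤ (2 * α) ^ P := by positivity
  have hr : 0 ≤ (2 * ρ) ^ P := by positivity
  have ht : 0 ≤ y' ^ P := by positivity
  have hb : y ≤ 2 * ρ * y' → y ^ P ≤ (2 * ρ) ^ P * y' ^ P := fun h' => by
    rw [← mul_pow]; exact pow_le_pow_left₀ hy h' P
  have h1 : y ^ P ≤ (2 * α) ^ P + (2 * ρ) ^ P * y' ^ P := by
    rcases le_total α (ρ * y') with h' | h'
    · linarith [hb (by linarith)]
    · linarith [pow_le_pow_left₀ hy (by linarith : y ≤ 2 * α) P, mul_nonneg hr ht]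
  have h2 : 1 < α → 1 ≤ (2 * α) ^ P := fun h' => one_le_pow₀ (by linarith)
  have h3 : 2 < y → 1 ≤ y ^ P := fun h' => one_le_pow₀ (by linarith)
  generalize (2 * α) ^ P = A at *
  generalize (2 * ρ) ^ P = r at *
  generalize y' ^ P = t at *
  generalize y ^ P = Y at *
  have m1 := mul_nonneg hl ha
  have m2 := mul_nonneg hl hr
  have m3 := mul_nonneg hl ht
  have m4 := mul_nonneg hr ht
  have m5 := mul_nonneg ha ht
  have m6 := mul_nonneg hl m4
  have m7 := mul_nonneg hl m5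
  have m8 := mul_le_mul_of_nonneg_left h1 hl
  by_cases hE : Ev
  · rw [ind_pos (Or.inr hE), ind_pos hE]
    nlinarith
  by_cases h2y : 2 < y
  · rw [ind_pos (Or.inl h2y), ind_neg hE]
    rcases lt_or_ge 1 α with h' | h'
    · have := mul_le_mul_of_nonneg_left (h2 h') hl
      nlinarith
    · have h4 := hb (by linarith)
      have h5 := mul_le_mul_of_nonneg_left h4 hl
      have h6 := mul_le_mul_of_nonneg_left (h3 h2y) hl
      have h7 := h3 h2y
      nlinarith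
  · rw [ind_neg (by tauto), ind_neg hE]
    nlinarith

/-- normalised diameter -/
noncomputable def yc (N k : ℕ) (u : Cell) (ω : Om) : ℝ := (Xh ω k u : ℝ) / a N (k - S ω u)

lemma a_pos (N j : ℕ) : (1 : ℝ) ≤ a N j := by exact_mod_cast one_le_a N j

lemma yc_nonneg (N k : ℕ) (u : Cell) (ω : Om) : 0 ≤ yc N k u ω := by unfold yc; positivity

lemma elem_yc (N k : ℕ) (u : Cell) : Elem (yc N k u) :=
  (elem_Xh k u).map₂ (elem_age u k) fun x j => (x : ℝ) / a N j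

lemma elem_Yb (N k : ℕ) (b : Cell) : Elem (fun ω => Yb N ω k b) :=
  Elem.sum _ fun u _ => elem_yc N k u

lemma dep_S_sub {u : Cell} {R : Set Cell} (h : ∀ c ∈ R, u.1 ≤ c.1) :
    DependsOn (fun ω => S ω u) (Sub R)ᶜ :=
  (dep_S u).mono fun _ hv ⟨c, hc, hb⟩ => by have := h c hc; have := hb.1; have := hv.2; omega

lemma dep_Srel_sub (i : ℕ) {u : Cell} {R : Set Cell} (h : ∀ c ∈ R, u.1 ≤ c.1) :
    DependsOn (fun ω => Srel ω i u) (Sub R)ᶜ :=
  (dep_Srel i u).mono fun _ hv ⟨c, hc, hb⟩ => by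
    have := h c hc; have := hb.1; have := hv.2.2; omega

lemma dep_aged {β : Type*} {F : ℕ → Om → β} {φ : Om → ℕ} {s : Set Cell}
    (hF : ∀ j, DependsOn (F j) s) (hφ : DependsOn φ s) : DependsOn (fun ω => F (φ ω) ω) s :=
  fun x y h => by simp only; rw [hφ h, hF _ h]

lemma dep_sum {ι : Type*} (t : Finset ι) {f : ι → Om → ℝ} {s : Set Cell}
    (h : ∀ i ∈ t, DependsOn (f i) s) : DependsOn (fun ω => ∑ i ∈ t, f i ω) s :=
  fun _ _ e => Finset.sum_congr rfl fun i hi => h i hi e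

lemma dep_prod {ι : Type*} (t : Finset ι) {f : ι → Om → ℝ} {s : Set Cell}
    (h : ∀ i ∈ t, DependsOn (f i) s) : DependsOn (fun ω => ∏ i ∈ t, f i ω) s :=
  fun _ _ e => Finset.prod_congr rfl fun i hi => h i hi e

lemma sub1_compl {u : Cell} {R : Set Cell} (h : ∀ c ∈ R, u.1 = c.1) (hu : u ∉ R) :
    Sub1 u ⊆ (Sub R)ᶜ :=
  fun _ hv ⟨c, hc, hb⟩ => hu (Below.unique hv hb (h c hc) ▸ hc)

lemma dep_X_emb (j : ℕ) (u : Cell) : DependsOn (fun ω => X (pull (emb u) ω) j) (Sub1 u) := by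
  simpa using dep_pull_sub1 (dep_X j) (emb u)

lemma dep_yc (N k : ℕ) {u : Cell} {R : Set Cell} (h : ∀ c ∈ R, u.1 = c.1) (hu : u ∉ R) :
    DependsOn (yc N k u) (Sub R)ᶜ :=
  dep_aged (F := fun j ω => (X (pull (emb u) ω) j : ℝ) / a N j)
    (fun j => ((dep_X_emb j u).mono (sub1_compl h hu)).qmap fun x => (x : ℝ) / a N j)
    ((dep_S_sub fun c hc => (h c hc).le).qmap fun s => k - s)

lemma Res_yc {P : ℕ} {C : ℝ} {N : ℕ}
    (hC : ∀ j, E N (fun ω => (X ω j : ℝ) ^ P) ≤ C * (a N j : ℝ) ^ P) (k : ℕ) {u : Cell}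
    {s : Set Cell} (hs : Sub1 u ⊆ s) (ω : Om) : Res N s (fun ω => yc N k u ω ^ P) ω ≤ C := by
  refine Res_le_of_subset ((elem_yc N k u).nice.pow P) hs (fun ω => ?_) ω
  have h1 := Res_aged (N := N) (F := fun j ω => ((X ω j : ℝ) / a N j) ^ P)
    (fun j => ((elem_X j).cast.div_const _).pow P) (emb u) (s := Sub1 u)
    (fun j => (dep_X_emb j u).qmap fun x => ((x : ℝ) / a N j) ^ P) (φ := fun ω => k - S ω u)
    (((dep_S u).mono fun v hv hb => by have := hv.2; have := hb.1; omega).qmap fun s => k - s) ω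
  refine h1.trans_le ?_
  simp only [div_pow]
  rw [E_divc, div_le_iff₀ (pow_pos (by linarith [a_pos N (k - S ω u)]) P)]
  exact hC _

/-- cells at relative depth `h` under the block of `b` outside the block of `b'` -/
noncomputable def rest (h : ℕ) (b b' : Cell) : Finset Cell :=
  (blk b).biUnion (desc h) \ blk b'

lemma card_bi (h : ℕ) (b : Cell) : ((blk b).biUnion (desc h)).card ≤ 4 * 4 ^ h :=
  (Finset.card_biUnion_le_card_mul _ _ _ fun c _ => card_desc h c).trans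
    (Nat.mul_le_mul_right _ (card_blk b))

lemma card_rest (h : ℕ) (b b' : Cell) : (rest h b b').card ≤ 4 * 4 ^ h :=
  (Finset.card_le_card Finset.sdiff_subset).trans (card_bi h b)

lemma recur {c : ℝ} {N : ℕ} (hc : ∀ k s : ℕ, s ≤ k →
      (a N (k - s) : ℝ) ≤ 2 * Real.exp (-(c * q N) * s) * a N k) (k h : ℕ) (b b' : Cell) (ω : Om) :
    Yb N ω k b ≤ (16 + 4 * ∑ u ∈ rest h b b', yc N k u ω) +
      (8 * ∑ u ∈ blk b', Real.exp (-(c * q N) * Srel ω b.1 u)) * Yb N ω k b' := by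
  set e : Cell → ℝ := fun u => Real.exp (-(c * q N) * Srel ω b.1 u) with he
  have hY : 0 ≤ Yb N ω k b' := Finset.sum_nonneg fun u _ => yc_nonneg N k u ω
  have key : ∀ c0 ∈ blk b, yc N k c0 ω ≤ (4 + ∑ u ∈ rest h b b', yc N k u ω) +
      (2 * ∑ u ∈ blk b', e u) * Yb N ω k b' := by
    intro c0 hc0
    have ha0 := a_pos N (k - S ω c0)
    have h1 : yc N k c0 ω ≤ ∑ u ∈ desc h c0, (Xh ω k u : ℝ) / a N (k - S ω c0) := by
      rw [← Finset.sum_div]
      refine div_le_div_of_nonneg_right ?_ (by linarith)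
      exact_mod_cast Xh_le_sum_desc h c0
    rw [← Finset.sum_sdiff (Finset.inter_subset_left (s₂ := blk b')),
      Finset.sdiff_inter_self_left] at h1
    have h2 : ∑ u ∈ desc h c0 \ blk b', (Xh ω k u : ℝ) / a N (k - S ω c0) ≤
        ∑ u ∈ rest h b b', yc N k u ω := by
      refine (Finset.sum_le_sum fun u hu => ?_).trans (Finset.sum_le_sum_of_subset_of_nonneg
        (Finset.sdiff_subset_sdiff (Finset.subset_biUnion_of_mem _ hc0) le_rfl)
        fun u _ _ => yc_nonneg N k u ω)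
      have hb := S_mono (ω := ω) (mem_desc.1 (Finset.mem_sdiff.1 hu).1).2
      refine div_le_div_of_nonneg_left (Nat.cast_nonneg _) (by linarith [a_pos N (k - S ω u)]) ?_
      exact_mod_cast a_mono N (by omega)
    have h3 : ∑ u ∈ desc h c0 ∩ blk b', (Xh ω k u : ℝ) / a N (k - S ω c0) ≤
        ∑ u ∈ blk b', (1 + 2 * e u * Yb N ω k b') := by
      refine (Finset.sum_le_sum fun u hu => ?_).trans (Finset.sum_le_sum_of_subset_of_nonneg
        Finset.inter_subset_right fun u _ _ => by positivity)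
      obtain ⟨hu1, hu2⟩ := Finset.mem_inter.1 hu
      have hb := S_below (ω := ω) (mem_desc.1 hu1).2
      rw [(mem_blk.1 hc0).1] at hb
      have he0 : 0 ≤ 2 * e u * Yb N ω k b' := by positivity
      by_cases hk : S ω u ≤ k
      · have h4 := hc (k - S ω c0) (Srel ω b.1 u) (by omega)
        rw [show k - S ω c0 - Srel ω b.1 u = k - S ω u by omega] at h4
        have h5 : yc N k u ω ≤ Yb N ω k b' :=
          Finset.single_le_sum (f := fun u => yc N k u ω) (fun u _ => yc_nonneg N k u ω) hu2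
        have hau := a_pos N (k - S ω u)
        have h6 : (Xh ω k u : ℝ) = yc N k u ω * a N (k - S ω u) := by
          unfold yc; field_simp
        rw [div_le_iff₀ (by linarith), h6]
        calc yc N k u ω * a N (k - S ω u)
            ≤ Yb N ω k b' * (2 * e u * a N (k - S ω c0)) :=
              mul_le_mul h5 h4 (by linarith) hY
          _ ≤ _ := by nlinarith
      · have h4 : (Xh ω k u : ℝ) ≤ 1 := by exact_mod_cast Xh_le_one (by omega)
        have : (Xh ω k u : ℝ) / a N (k - S ω c0) ≤ 1 := by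
          rw [div_le_one (by linarith)]; linarith
        linarith
    rw [Finset.sum_add_distrib, ← Finset.sum_mul, ← Finset.mul_sum, Finset.sum_const,
      nsmul_eq_mul, mul_one] at h3
    have h4 : ((blk b').card : ℝ) ≤ 4 := by exact_mod_cast card_blk b'
    linarith
  have h5 := Finset.sum_le_card_nsmul _ _ _ key
  have h6 : ((blk b).card : ℝ) ≤ 4 := by exact_mod_cast card_blk b
  have h7 : 0 ≤ ∑ u ∈ rest h b b', yc N k u ω := Finset.sum_nonneg fun u _ => yc_nonneg N k u ω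
  have h8 : 0 ≤ (∑ u ∈ blk b', e u) * Yb N ω k b' := by positivity
  rw [nsmul_eq_mul] at h5
  refine le_trans h5 ((mul_le_mul_of_nonneg_right h6 (by positivity)).trans_eq (by ring))

lemma pow_sum_le {ι : Type*} (s : Finset ι) {f : ι → ℝ} (hf : ∀ i, 0 ≤ f i) {m : ℕ}
    (hm : s.card ≤ m) (hm1 : 1 ≤ m) (p : ℕ) :
    (∑ i ∈ s, f i) ^ (p + 1) ≤ (m : ℝ) ^ (p + 1) * ∑ i ∈ s, f i ^ (p + 1) := by
  refine (pow_sum_le_card_mul_sum_pow (fun i _ => hf i) p).trans
    (mul_le_mul_of_nonneg_right ?_ (Finset.sum_nonneg fun i _ => pow_nonneg (hf i) _))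
  exact_mod_cast (Nat.pow_le_pow_left hm p).trans (Nat.pow_le_pow_right hm1 (Nat.le_succ p))

lemma E_chain {N : ℕ} {U : ℕ → Om → ℝ} {s : ℕ → Set Cell} {B : ℝ} (hB : 0 ≤ B)
    (hU : ∀ j, Nice (U j)) (h0 : ∀ j ω, 0 ≤ U j ω) (hs : ∀ j, s (j + 1) ⊆ s j)
    (hd : ∀ j, DependsOn (U j) (s (j + 1))ᶜ) (hR : ∀ j ω, Res N (s j) (U j) ω ≤ B) (n : ℕ) :
    ∀ {V : Om → ℝ} {c : ℝ}, Nice V → 0 ≤ c → (∀ ω, Res N (s n) V ω ≤ c) →
      E N (fun ω => (∏ j ∈ Finset.range n, U j ω) * V ω) ≤ c * B ^ n := by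
  have ha : Antitone s := antitone_nat_of_succ_le hs
  have step : ∀ n, ∀ {V : Om → ℝ} {c : ℝ}, Nice V → (∀ ω, Res N (s n) V ω ≤ c) →
      E N (fun ω => (∏ j ∈ Finset.range n, U j ω) * V ω) ≤
        c * E N (fun ω => ∏ j ∈ Finset.range n, U j ω) := by
    intro n V c hV hc
    have hP := Nice.prod (Finset.range n) fun j _ => hU j
    rw [E_mul_Res (s := s n) hP hV (dep_prod _ fun j hj => (hd j).mono
      (compl_subset_compl.2 (ha (Finset.mem_range.1 hj)))), ← E_cmul]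
    refine E_mono (hP.mul (hV.res N _)) (hP.cmul c) fun ω => ?_
    rw [mul_comm c]
    exact mul_le_mul_of_nonneg_left (hc ω) (Finset.prod_nonneg fun j _ => h0 j ω)
  have h1 : ∀ n, E N (fun ω => ∏ j ∈ Finset.range n, U j ω) ≤ B ^ n := by
    intro n
    induction n with
    | zero => simp
    | succ n ih =>
      simp only [Finset.prod_range_succ]
      refine (step n (hU n) (hR n)).trans ?_
      rw [pow_succ']
      exact mul_le_mul_of_nonneg_left ih hB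
  intro V c hV hc h
  exact (step n hV h).trans (mul_le_mul_of_nonneg_left (h1 n) hc)

lemma card_grid (M : ℕ) : (grid M).card ≤ 4 * 4 ^ M := by
  refine Finset.card_image_le.trans ?_
  rw [Finset.card_product, Finset.card_range, show (4 : ℕ) ^ M = 2 ^ M * 2 ^ M by
    rw [← mul_pow]; rfl]
  have : 1 ≤ 2 ^ M := Nat.one_le_two_pow
  nlinarith

/-- the one step factor -/
noncomputable def UU (N k h P : ℕ) (l β γ x : ℝ) (Ev : Om → Prop) (b b' : Cell) (ω : Om) : ℝ :=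
  1 + l * ind (Ev ω) + β * (1 + ∑ u ∈ rest h b b', yc N k u ω ^ P) +
    γ * ∑ u ∈ blk b', Real.exp (-(x * q N) * Srel ω b.1 u)

/-- the potential -/
noncomputable def VV (N k P : ℕ) (K : ℝ) (b : Cell) (ω : Om) : ℝ := 1 + (Yb N ω k b / K) ^ P

lemma Yb_nonneg (N k : ℕ) (b : Cell) (ω : Om) : 0 ≤ Yb N ω k b :=
  Finset.sum_nonneg fun u _ => yc_nonneg N k u ω

lemma nice_SA (N k P : ℕ) (F : Finset Cell) : Nice fun ω => ∑ u ∈ F, yc N k u ω ^ P :=
  Nice.sum F fun u _ => (elem_yc N k u).nice.pow P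

lemma SA_nonneg (N k P : ℕ) (F : Finset Cell) (ω : Om) : 0 ≤ ∑ u ∈ F, yc N k u ω ^ P :=
  Finset.sum_nonneg fun u _ => pow_nonneg (yc_nonneg N k u ω) _

section
variable {N k h P : ℕ} {l β γ x K C : ℝ} {Ev : Om → Prop} {b b' : Cell}

lemma nice_UU (hE : Elem Ev) (hx : 0 ≤ x * q N) : Nice (UU N k h P l β γ x Ev b b') :=
  (((Nice.const 1).add (hE.ind.cmul l)).add (((Nice.const 1).add (nice_SA N k P _)).cmul β)).add
    ((Nice.sum (blk b') fun u _ => nice_exp_Srel hx b.1 u).cmul γ)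

lemma UU_nonneg (hl : 0 ≤ l) (hβ : 0 ≤ β) (hγ : 0 ≤ γ) (ω : Om) :
    0 ≤ UU N k h P l β γ x Ev b b' ω := by
  have := ind_nonneg (Ev ω)
  have := SA_nonneg N k P (rest h b b') ω
  unfold UU
  positivity

lemma nice_VV : Nice (VV N k P K b) :=
  (Nice.const 1).add (((elem_Yb N k b).nice.div_const K).pow _)

lemma one_le_VV (hK : 0 ≤ K) (ω : Om) : 1 ≤ VV N k P K b ω := by
  have := Yb_nonneg N k b ω
  have : 0 ≤ (Yb N ω k b / K) ^ P := by positivity
  unfold VV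
  linarith

lemma pow_A {A SA m : ℝ} {P : ℕ} (hA : 0 ≤ A) (hm : 1 ≤ m) (h : A ^ P ≤ m ^ P * SA) :
    (16 + 4 * A) ^ P ≤ (32 * m) ^ P * (1 + SA) := by
  have h5 : (16 + 4 * A) ^ P ≤ (32 * m) ^ P + 32 ^ P * A ^ P := by
    rcases le_total A 1 with h' | h'
    · have : (16 + 4 * A) ^ P ≤ (32 * m) ^ P := pow_le_pow_left₀ (by positivity) (by linarith) _
      have : 0 ≤ 32 ^ P * A ^ P := by positivity
      linarith
    · have : (16 + 4 * A) ^ P ≤ (32 * A) ^ P := pow_le_pow_left₀ (by positivity) (by linarith) _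
      rw [mul_pow] at this
      have : 0 ≤ (32 * m) ^ P := by positivity
      linarith
  have h6 := mul_le_mul_of_nonneg_left h (by positivity : (0 : ℝ) ≤ 32 ^ P)
  rw [← mul_assoc, ← mul_pow 32 m] at h6
  linarith

lemma UU_step {c : ℝ} {p : ℕ} (hc : ∀ k s : ℕ, s ≤ k →
      (a N (k - s) : ℝ) ≤ 2 * Real.exp (-(c * q N) * s) * a N k) (hl : 0 ≤ l) (hK : 2 ≤ K)
    (hβ : (1 + 2 * l) * (2 / K * (32 * (4 * 4 ^ h : ℕ)) ^ (p + 1)) ≤ β) (ω : Om) :
    (1 + l * ind (2 * K < Yb N ω k b ∨ Ev ω)) * VV N k (p + 1) K b ω ≤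
      UU N k h (p + 1) l β (2 * (1 + l) * 64 ^ (p + 1)) ((p + 1 : ℕ) * c) Ev b b' ω *
        VV N k (p + 1) K b' ω := by
  have h1 := recur hc k h b b' ω
  have hm1 : 1 ≤ 4 * 4 ^ h := by have : 1 ≤ 4 ^ h := Nat.one_le_pow _ _ (by norm_num); omega
  have h3 := pow_sum_le (rest h b b') (fun u => yc_nonneg N k u ω) (card_rest h b b') hm1 p
  have h3' := pow_sum_le (blk b') (f := fun u => Real.exp (-(c * q N) * Srel ω b.1 u))
    (fun u => by positivity) (card_blk b') (by norm_num) p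
  have h4' : ∀ u, Real.exp (-(c * q N) * Srel ω b.1 u) ^ (p + 1) =
      Real.exp (-((p + 1 : ℕ) * c * q N) * Srel ω b.1 u) := fun u => by
    rw [← Real.exp_nat_mul]; congr 1; ring
  simp only [h4'] at h3'
  have hA0 : 0 ≤ ∑ u ∈ rest h b b', yc N k u ω := Finset.sum_nonneg fun u _ => yc_nonneg N k u ω
  have hR0 : 0 ≤ ∑ u ∈ blk b', Real.exp (-(c * q N) * Srel ω b.1 u) := by positivity
  have hs := SA_nonneg N k (p + 1) (rest h b b') ω
  have hV := one_le_VV (N := N) (k := k) (P := p + 1) (b := b') (by linarith : 0 ≤ K) ω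
  have hY := Yb_nonneg N k b ω
  have hY' := Yb_nonneg N k b' ω
  unfold UU VV at *
  generalize ∑ u ∈ rest h b b', yc N k u ω = A at *
  generalize ∑ u ∈ blk b', Real.exp (-(c * q N) * Srel ω b.1 u) = R at *
  generalize ∑ u ∈ rest h b b', yc N k u ω ^ (p + 1) = SA at *
  generalize ∑ u ∈ blk b', Real.exp (-((p + 1 : ℕ) * c * q N) * Srel ω b.1 u) = SR at *
  have h2 := pot (l := l) (y := Yb N ω k b / K) (y' := Yb N ω k b' / K)
    (α := (16 + 4 * A) / K) (ρ := 8 * R) (p + 1) hl (by positivity) (by positivity)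
    (by positivity) (by positivity)
    (by rw [← mul_div_assoc, ← add_div]; exact div_le_div_of_nonneg_right h1 (by linarith))
    (Ev ω)
  rw [lt_div_iff₀ (by linarith)] at h2
  refine h2.trans (mul_le_mul_of_nonneg_right (add_le_add (add_le_add le_rfl ?_) ?_)
    (by linarith))
  · have h4 := pow_A hA0 (by exact_mod_cast hm1) h3
    have h5 : (2 / K) ^ (p + 1) ≤ 2 / K :=
      pow_le_of_le_one (by positivity) (by rw [div_le_one (by linarith)]; exact hK) (by omega)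
    generalize ((32 : ℝ) * (4 * 4 ^ h : ℕ)) ^ (p + 1) = cA at *
    calc (1 + 2 * l) * (2 * ((16 + 4 * A) / K)) ^ (p + 1)
        = (1 + 2 * l) * ((2 / K) ^ (p + 1) * (16 + 4 * A) ^ (p + 1)) := by
          rw [← mul_pow]; congr 2; ring
      _ ≤ (1 + 2 * l) * (2 / K * (cA * (1 + SA))) :=
          mul_le_mul_of_nonneg_left (mul_le_mul h5 h4 (by positivity) (by positivity))
            (by positivity)
      _ = (1 + 2 * l) * (2 / K * cA) * (1 + SA) := by ring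
      _ ≤ _ := mul_le_mul_of_nonneg_right hβ (by positivity)
  · rw [mul_assoc (2 * (1 + l))]
    refine mul_le_mul_of_nonneg_left ?_ (by positivity)
    calc (2 * (8 * R)) ^ (p + 1) = 16 ^ (p + 1) * R ^ (p + 1) := by rw [← mul_pow]; congr 1; ring
      _ ≤ _ := mul_le_mul_of_nonneg_left h3' (by positivity)
      _ = _ := by rw [← mul_assoc, ← mul_pow]; norm_num

lemma dep_UU (e : b'.1 = b.1 + h) (hE : DependsOn Ev (Sub (blk b'))ᶜ) :
    DependsOn (UU N k h P l β γ x Ev b b') (Sub (blk b'))ᶜ := by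
  intro ω ω' hω
  have d2 := dep_sum (rest h b b') (s := (Sub (blk b'))ᶜ)
    (f := fun u ω => yc N k u ω ^ P) (fun u hu => by
      obtain ⟨h1, h2⟩ := Finset.mem_sdiff.1 hu
      obtain ⟨c0, hc0, h3⟩ := Finset.mem_biUnion.1 h1
      refine (dep_yc N k (fun c hc => ?_) h2).qmap fun y => y ^ P
      rw [(mem_desc.1 h3).1, (mem_blk.1 hc0).1, (mem_blk.1 hc).1, e]) hω
  have d3 := dep_sum (blk b') (s := (Sub (blk b'))ᶜ)
    (f := fun u ω => Real.exp (-(x * q N) * Srel ω b.1 u)) (fun u hu =>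
      (dep_Srel_sub b.1 fun c hc => by rw [(mem_blk.1 hu).1, (mem_blk.1 hc).1]).qmap
        fun s : ℕ => Real.exp (-(x * q N) * s)) hω
  simp only at d2 d3
  unfold UU
  rw [hE hω, d2, d3]

lemma Res_SA (hC : ∀ j, E N (fun ω => (X ω j : ℝ) ^ P) ≤ C * (a N j : ℝ) ^ P) (hC0 : 0 ≤ C)
    {F : Finset Cell} {m : ℕ} (hm : F.card ≤ m) {s : Set Cell} (hs : ∀ u ∈ F, Sub1 u ⊆ s)
    (ω : Om) : Res N s (fun ω => ∑ u ∈ F, yc N k u ω ^ P) ω ≤ m * C := by
  rw [Res_sum _ fun u _ => (elem_yc N k u).nice.pow P]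
  refine (Finset.sum_le_card_nsmul F _ C fun u hu => Res_yc hC k (hs u hu) ω).trans ?_
  rw [nsmul_eq_mul]
  exact mul_le_mul_of_nonneg_right (by exact_mod_cast hm) hC0

lemma Res_UU (hN : 2 ≤ N) (hC : ∀ j, E N (fun ω => (X ω j : ℝ) ^ P) ≤ C * (a N j : ℝ) ^ P)
    (hC0 : 0 ≤ C) (hl : 0 < l) (hβ0 : 0 ≤ β) (hγ0 : 0 ≤ γ) (hx : 31 ≤ x) (hE : Elem Ev)
    (hβ : β * (1 + (4 * 4 ^ h : ℕ) * C) ≤ 1) (hγ : γ * (4 * (1 / 32) ^ h) ≤ 1)
    (e : b'.1 = b.1 + h) (hn : ∀ u ∈ blk b', ∃ c0 ∈ blk b, Below c0 u) (ω : Om)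
    (hER : Res N (Sub (blk b)) (fun ω => ind (Ev ω)) ω ≤ 1 / l) :
    Res N (Sub (blk b)) (UU N k h P l β γ x Ev b b') ω ≤ 4 := by
  have hx0 : 0 ≤ x := by linarith
  have hxq : 0 ≤ x * q N := mul_nonneg hx0 (q_pos hN).le
  have n1 := (Nice.const 1).add (hE.ind.cmul l)
  have n2 := (Nice.const 1).add (nice_SA N k P (rest h b b'))
  have n3 := Nice.sum (blk b') fun u _ => nice_exp_Srel hxq b.1 u
  unfold UU
  rw [Res_add (n1.add (n2.cmul β)) (n3.cmul γ), Res_add n1 (n2.cmul β),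
    Res_add (Nice.const 1) (hE.ind.cmul l), Res_cmul, Res_cmul, Res_cmul,
    Res_add (Nice.const 1) (nice_SA N k P _), Res_const,
    Res_sum (blk b') fun u _ => nice_exp_Srel hxq b.1 u]
  have r1 := (mul_le_mul_of_nonneg_left hER hl.le).trans_eq (by field_simp : _ = (1 : ℝ))
  have r4 := Res_SA (k := k) hC hC0 (card_rest h b b') (s := Sub (blk b)) (fun u hu => by
    obtain ⟨c0, hc0, h3⟩ := Finset.mem_biUnion.1 (Finset.mem_sdiff.1 hu).1
    exact fun v hv => ⟨c0, hc0, (mem_desc.1 h3).2.trans hv⟩) ω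
  have r3 := Finset.sum_le_card_nsmul (blk b')
    (fun u => Res N (Sub (blk b)) (fun ω => Real.exp (-(x * q N) * Srel ω b.1 u)) ω)
    ((1 / 32) ^ h) fun u hu => by
      obtain ⟨c0, hc0, h3⟩ := hn u hu
      have h4 : DependsOn (fun ω => Srel ω b.1 u) (Sub (blk b)) :=
        (dep_Srel b.1 u).mono fun v hv =>
          ⟨c0, hc0, h3.of_le hv.1 ((mem_blk.1 hc0).1.trans_le hv.2.1)⟩
      rw [Res_of_dep (h4.qmap fun s : ℕ => Real.exp (-(x * q N) * s))]
      refine (E_exp_Srel hN hx0 b.1 u).trans ?_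
      rw [(mem_blk.1 hu).1, e, Nat.add_sub_cancel_left]
      exact pow_le_pow_left₀ (by positivity)
        (one_div_le_one_div_of_le (by norm_num) (by linarith)) h
  rw [nsmul_eq_mul] at r3
  have c3 : ((blk b').card : ℝ) ≤ 4 := by exact_mod_cast card_blk b'
  have r5 := r3.trans (mul_le_mul_of_nonneg_right c3 (by positivity))
  have r6 := (mul_le_mul_of_nonneg_left (add_le_add (le_refl (1 : ℝ)) r4) hβ0).trans hβ
  have r8 := (mul_le_mul_of_nonneg_left r5 hγ0).trans hγ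
  linarith

lemma Res_VV {p : ℕ}
    (hC : ∀ j, E N (fun ω => (X ω j : ℝ) ^ (p + 1)) ≤ C * (a N j : ℝ) ^ (p + 1))
    (hC0 : 0 ≤ C) (hK : 1 ≤ K) (ω : Om) :
    Res N (Sub (blk b)) (VV N k (p + 1) K b) ω ≤ 1 + 4 ^ (p + 1) * (4 * C) := by
  have n4 := nice_SA N k (p + 1) (blk b)
  refine (Res_mono nice_VV ((Nice.const 1).add (n4.cmul (4 ^ (p + 1)))) (fun ω => ?_) _ ω).trans ?_
  · have h3 := pow_sum_le (blk b) (fun u => yc_nonneg N k u ω) (card_blk b) (by norm_num) p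
    have hY := Yb_nonneg N k b ω
    refine add_le_add le_rfl (le_trans ?_ (by exact_mod_cast h3))
    exact pow_le_pow_left₀ (by positivity) (div_le_self hY hK) _
  · rw [Res_add (Nice.const 1) (n4.cmul _), Res_const, Res_cmul]
    have r := Res_SA (k := k) hC hC0 (card_blk b) (s := Sub (blk b))
      (fun u hu v hv => ⟨u, hu, hv⟩) ω
    exact add_le_add le_rfl (mul_le_mul_of_nonneg_left (by exact_mod_cast r) (by positivity))

end

lemma tele {B : ℕ → Prop} [DecidablePred B] {U V : ℕ → ℝ} {L : ℝ} (hL : 1 ≤ L)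
    (hU : ∀ j, 0 ≤ U j) (hV : 1 ≤ V 0)
    (h : ∀ j, (1 + (L ^ 2 - 1) * ind (B j)) * V j ≤ U j * V (j + 1)) {D : ℕ}
    (hD : D < 2 * ((Finset.range D).filter B).card) :
    L ^ D ≤ (∏ j ∈ Finset.range D, U j) * V D := by
  have hl : 0 ≤ L ^ 2 - 1 := by nlinarith
  have t1 : ∀ n, (∏ j ∈ Finset.range n, (1 + (L ^ 2 - 1) * ind (B j))) * V 0 ≤
      (∏ j ∈ Finset.range n, U j) * V n := by
    intro n
    induction n with
    | zero => simp
    | succ n ih =>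
      rw [Finset.prod_range_succ, Finset.prod_range_succ, mul_right_comm]
      refine (mul_le_mul_of_nonneg_right ih (by have := ind_nonneg (B n); positivity)).trans ?_
      rw [mul_assoc, mul_assoc, mul_comm (V n)]
      exact mul_le_mul_of_nonneg_left (h n) (Finset.prod_nonneg fun j _ => hU j)
  refine le_trans ?_ (t1 D)
  have t2 : ∏ j ∈ Finset.range D, (1 + (L ^ 2 - 1) * ind (B j)) =
      L ^ (2 * ((Finset.range D).filter B).card) := by
    rw [pow_mul, ← Finset.prod_const, Finset.prod_filter]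
    refine Finset.prod_congr rfl fun j _ => ?_
    split_ifs with h1
    · rw [ind_pos h1]; ring
    · rw [ind_neg h1]; ring
  rw [t2]
  exact (pow_le_pow_right₀ hL hD.le).trans (le_mul_of_one_le_right (by positivity) hV)

lemma num1 (p : ℕ) : 2 * (1 + ((32 * 4 ^ (13 + 6 * p)) ^ 2 - 1)) * 64 ^ p *
    (4 * (1 / 32 : ℝ) ^ (13 + 6 * p)) = 1 := by
  have e1 : (32 : ℝ) ^ (13 + 6 * p) = 4 ^ (13 + 6 * p) * 4 ^ (13 + 6 * p) * (8192 * 64 ^ p) := by
    rw [← mul_pow, show (32 : ℝ) = 4 * 4 * 2 by norm_num, mul_pow _ 2, pow_add 2, pow_mul]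
    norm_num
  rw [one_div, inv_pow, e1]
  generalize (4 : ℝ) ^ (13 + 6 * p) = t at *
  have ht : t ≠ 0 := by rintro rfl; simp at e1
  field_simp
  ring

lemma num2 (D h : ℕ) (ν : ℝ) : 4 * 4 ^ (D + D * h + 5) * (ν * 4 ^ D / (32 * 4 ^ h) ^ D) =
    4 ^ 6 * ν / 2 ^ D := by
  have e1 : ((32 : ℝ) * 4 ^ h) ^ D = 4 ^ D * 4 ^ D * 2 ^ D * 4 ^ (D * h) := by
    rw [mul_pow, ← pow_mul, mul_comm h D, ← mul_pow, ← mul_pow]; norm_num
  rw [e1, pow_add, pow_add]
  field_simp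

end DensAux

open DensAux

open Classical in
theorem density : ∃ h : ℕ, 6 ≤ h ∧ ∃ p1 K C : ℝ, 0 < p1 ∧ 0 < K ∧ ∀ N, 2 ≤ N → ∀ k D : ℕ,
    ∀ Ev : Cell → Cell → Om → Prop, (∀ b b', Elem (Ev b b')) →
      (∀ b b' : Cell, b'.1 = b.1 + h → DependsOn (Ev b b') (Sub (blk b'))ᶜ) →
      (∀ b b' : Cell, b'.1 = b.1 + h → ∀ ω,
        Res N (Sub (blk b)) (fun ω => ind (Ev b b' ω)) ω ≤ p1) →
      Pr N (fun ω => ∃ z ∈ grid (D + D * h + 5), D < 2 * ((Finset.range D).filter fun j =>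
        K < Yb N ω k (ll (D + j * h) z) ∨
          Ev (ll (D + j * h) z) (ll (D + j * h + h) z) ω).card) ≤ C / 2 ^ D := by
  obtain ⟨c, hc, -, hdec⟩ := a_decay
  obtain ⟨p, hp⟩ := exists_nat_ge (31 / c)
  rw [div_le_iff₀ hc] at hp
  obtain ⟨C, hC1, hC⟩ := X_mom (p + 1)
  have hγ1 := num1 (p + 1)
  have h6 : 6 ≤ 13 + 6 * (p + 1) := by omega
  generalize 13 + 6 * (p + 1) = h at hγ1 h6
  obtain ⟨L, hL⟩ : ∃ t : ℝ, t = 32 * 4 ^ h := ⟨_, rfl⟩
  rw [← hL] at hγ1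
  have h4h : (1 : ℝ) ≤ 4 ^ h := one_le_pow₀ (by norm_num)
  have hL1 : 1 ≤ L := by linarith
  have hl0 : 0 < L ^ 2 - 1 := by nlinarith
  obtain ⟨m, hm⟩ : ∃ t : ℝ, t = (4 * 4 ^ h : ℕ) := ⟨_, rfl⟩
  have hm1 : 1 ≤ m := by rw [hm]; push_cast; linarith
  obtain ⟨cA, hcA⟩ : ∃ t : ℝ, t = (32 * m) ^ (p + 1) := ⟨_, rfl⟩
  have hcA1 : 1 ≤ cA := hcA ▸ one_le_pow₀ (by linarith)
  obtain ⟨K, hK⟩ : ∃ t : ℝ, t = 2 * ((1 + 2 * (L ^ 2 - 1)) * cA * (1 + m * C)) := ⟨_, rfl⟩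
  have hmC : 1 ≤ 1 + m * C := by nlinarith
  have hK1 : 1 ≤ (1 + 2 * (L ^ 2 - 1)) * cA * (1 + m * C) :=
    one_le_mul_of_one_le_of_one_le (one_le_mul_of_one_le_of_one_le (by linarith) hcA1) hmC
  have hK2 : 2 ≤ K := by linarith
  have hβ0 : 0 ≤ 1 / (1 + m * C) := by positivity
  have hβ1 : (1 + 2 * (L ^ 2 - 1)) * (2 / K * cA) ≤ 1 / (1 + m * C) := by
    rw [hK]; apply le_of_eq; field_simp
  have hβ2 : 1 / (1 + m * C) * (1 + m * C) ≤ 1 := by apply le_of_eq; field_simp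
  have hγ0 : 0 ≤ 2 * (1 + (L ^ 2 - 1)) * 64 ^ (p + 1) := by positivity
  have hx : (31 : ℝ) ≤ (p + 1 : ℕ) * c := by push_cast; nlinarith
  refine ⟨h, h6, 1 / (L ^ 2 - 1), 2 * K, 4 ^ 6 * (1 + 4 ^ (p + 1) * (4 * C)), by positivity,
    by positivity, fun N hN k D Ev hE hEd hER => ?_⟩
  have hxq : 0 ≤ (p + 1 : ℕ) * c * q N := mul_nonneg (by linarith) (q_pos hN).le
  have hel : ∀ z : Pt, Elem fun ω => D < 2 * ((Finset.range D).filter fun j =>
      2 * K < Yb N ω k (ll (D + j * h) z) ∨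
        Ev (ll (D + j * h) z) (ll (D + j * h + h) z) ω).card := fun z =>
    Elem.of_finset (Finset.range D) (fun j _ => ((elem_Yb N k (ll (D + j * h) z)).map
      fun y => 2 * K < y).or (hE (ll (D + j * h) z) (ll (D + j * h + h) z))) fun ω ω' hω => by
        rw [Finset.filter_congr fun j hj => iff_of_eq (hω j hj)]
  refine (Pr_le_card (grid (D + D * h + 5)) (Elem.ex _ fun z _ => hel z) (fun z _ => hel z)
    (fun ω h => h) (ε := (1 + 4 ^ (p + 1) * (4 * C)) * 4 ^ D / L ^ D) fun z _ => ?_).trans ?_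
  · let b : ℕ → Cell := fun j => ll (D + j * h) z
    have hb : ∀ j, b (j + 1) = ll (D + j * h + h) z := fun j => by
      simp only [b, add_mul, one_mul, add_assoc]
    have hb1 : ∀ j, (b (j + 1)).1 = (b j).1 + h := fun j => by rw [hb]; rfl
    have hnest : ∀ j, ∀ u ∈ blk (b (j + 1)), ∃ c0 ∈ blk (b j), Below c0 u := fun j => by
      rw [hb]; exact ll_nested _ h (by omega) z
    let U : ℕ → Om → ℝ := fun j => UU N k h (p + 1) (L ^ 2 - 1) (1 / (1 + m * C))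
      (2 * (1 + (L ^ 2 - 1)) * 64 ^ (p + 1)) ((p + 1 : ℕ) * c) (Ev (b j) (b (j + 1))) (b j)
      (b (j + 1))
    have hUn : ∀ j, Nice (U j) := fun j => nice_UU (hE _ _) hxq
    have hU0 : ∀ j ω, 0 ≤ U j ω := fun j => UU_nonneg hl0.le hβ0 hγ0
    have hV1 := fun j ω => one_le_VV (N := N) (k := k) (P := p + 1) (b := b j)
      (by linarith : 0 ≤ K) ω
    refine (Pr_le_E_div (hel z) ((Nice.prod (Finset.range D) fun j _ => hUn j).mul
      (nice_VV (N := N) (k := k) (P := p + 1) (K := K) (b := b D))) (pow_pos (by linarith) D)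
      (fun ω => mul_nonneg (Finset.prod_nonneg fun j _ => hU0 j ω) (by linarith [hV1 D ω]))
      fun ω hω => ?_).trans (div_le_div_of_nonneg_right ?_ (by positivity))
    · refine tele (V := fun j => VV N k (p + 1) K (b j) ω) hL1 (fun j => hU0 j ω) (hV1 0 ω)
        (fun j => ?_) hω
      rw [← hb]
      exact UU_step (hdec N hN) hl0.le hK2 (by rw [← hm, ← hcA]; exact hβ1) ω
    · exact E_chain (s := fun j => Sub (blk (b j))) (by norm_num) hUn hU0
        (fun j v ⟨u, hu, hv⟩ => by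
          obtain ⟨c0, h1, h2⟩ := hnest j u hu
          exact ⟨c0, h1, h2.trans hv⟩) (fun j => dep_UU (hb1 j) (hEd _ _ (hb1 j)))
        (fun j ω => Res_UU hN (hC N hN) (by linarith) hl0 hβ0 hγ0 hx (hE _ _) (hm ▸ hβ2) hγ1.le
          (hb1 j) (hnest j) ω (hER _ _ (hb1 j) ω)) D nice_VV (by positivity)
        (Res_VV (hC N hN) (by linarith) (by linarith))
  · have c1 : ((grid (D + D * h + 5)).card : ℝ) ≤ 4 * 4 ^ (D + D * h + 5) := by
      exact_mod_cast card_grid _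
    refine (mul_le_mul_of_nonneg_right c1 (by positivity)).trans_eq ?_
    rw [hL, num2]

end Pool.Agent.P.MP_8c7dae_pr
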