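import Pool.Agent.P.MP_8c7dae_pr.Mom

open MeasureTheory Set Filter

namespace Pool.Agent.P.MP_8c7dae_pr

namespace Gadget

variable {N : ℕ}

/-! ### coordinates -/

lemma Pr_all_coord (F : Finset Cell) (P : Cell → ℕ → Prop)
    (hP : ∀ c, Elem (fun ω : Om => P c (ω c))) :
    Pr N (fun ω => ∀ c ∈ F, P c (ω c)) = ∏ c ∈ F, Pr N (fun ω => P c (ω c)) := by
  unfold Pr
  simp only [ind_all]
  exact E_prod_indep F (s := fun c => {c}) (f := fun c ω => ind (P c (ω c)))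
    (fun c _ => (hP c).ind) (fun c _ => (dep_coord c).qmap fun t => ind (P c t))
    (fun c _ c' _ h => Set.disjoint_singleton.2 h)

lemma Pr_int (hN : 2 ≤ N) (v : Cell) {r r' : ℕ} (h : r ≤ r') :
    Pr N (fun ω => r ≤ ω v ∧ ω v < r') = (1 - q N) ^ r - (1 - q N) ^ r' := by
  rw [← Pr_coord_ge hN v r, ← Pr_coord_ge hN v r']
  unfold Pr
  rw [← E_sub (Elem.coord_ge v r).ind (Elem.coord_ge v r').ind]
  refine E_congr fun ω => ?_
  by_cases h1 : r ≤ ω v
  · by_cases h2 : r' ≤ ω v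
    · rw [ind_neg (by omega), ind_pos h1, ind_pos h2]; ring
    · rw [ind_pos ⟨h1, by omega⟩, ind_pos h1, ind_neg h2]; ring
  · rw [ind_neg (by omega), ind_neg h1, ind_neg (by omega)]; ring

lemma one_sub_q_nonneg (hN : 2 ≤ N) : 0 ≤ 1 - q N := by linarith [q_le hN]

lemma one_sub_q_le_one (hN : 2 ≤ N) : 1 - q N ≤ 1 := by linarith [q_pos hN]

lemma pow_N_le (hN : 2 ≤ N) {L : ℕ} (hL : 1 ≤ L) : (1 - q N) ^ (L * N) ≤ 1 / 2 := by
  refine (one_sub_q_pow_le hN L).trans ?_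
  have h1 : (1 : ℝ) ≤ L := by exact_mod_cast hL
  have h2 := Real.add_one_le_exp (L : ℝ)
  rw [Real.exp_neg, inv_eq_one_div]
  exact one_div_le_one_div_of_le (by norm_num) (by linarith)

lemma Pr_int_ge (hN : 2 ≤ N) (v : Cell) (r : ℕ) {L : ℕ} (hL : 1 ≤ L) :
    (1 - q N) ^ r / 2 ≤ Pr N (fun ω => r ≤ ω v ∧ ω v < r + L * N) := by
  rw [Pr_int hN v (Nat.le_add_right _ _), pow_add]
  have h1 := pow_N_le hN hL
  have h2 : 0 ≤ (1 - q N) ^ r := pow_nonneg (one_sub_q_nonneg hN) _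
  nlinarith

lemma Pr_int_le (hN : 2 ≤ N) (v : Cell) {r r' : ℕ} (h : r ≤ r') :
    Pr N (fun ω => r ≤ ω v ∧ ω v < r') ≤ (1 - q N) ^ r := by
  rw [Pr_int hN v h]
  have h2 : 0 ≤ (1 - q N) ^ r' := pow_nonneg (one_sub_q_nonneg hN) _
  linarith

lemma Pr_int_ge' (hN : 2 ≤ N) (v : Cell) (L0 : ℕ) {L : ℕ} (hL : 1 ≤ L) :
    (1 / 4 : ℝ) ^ L0 / 2 ≤ Pr N (fun ω => L0 * N ≤ ω v ∧ ω v < (L0 + L) * N) := by
  have := Pr_int_ge hN v (L0 * N) hL
  rw [← add_mul] at this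
  have h2 := one_sub_q_pow_ge hN L0
  linarith

lemma Pr_lt_ge (hN : 2 ≤ N) (v : Cell) : 1 / 2 ≤ Pr N (fun ω => ω v < N) := by
  have := Pr_int_ge' hN v 0 (L := 1) le_rfl
  simpa using this

/-- the part of the top event below the root -/
def Grest (N : ℕ) (ω : Om) : Prop := ∀ c ∈ desc 1 root ∪ (desc 2 root \ core), ω c < N

lemma elem_Grest (N : ℕ) : Elem (Grest N) := Elem.all _ fun c _ => Elem.coord_lt c N

lemma Gtop_iff (N L0 L : ℕ) (ω : Om) :
    Gtop N L0 L ω ↔ Grest N ω ∧ (L0 * N ≤ ω root ∧ ω root < (L0 + L) * N) := by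
  simp only [Gtop, Grest, Finset.mem_union]
  constructor
  · rintro ⟨h1, h2, h3⟩
    exact ⟨fun c hc => hc.elim (h2 c) (h3 c), h1⟩
  · rintro ⟨h1, h2⟩
    exact ⟨h2, fun c hc => h1 c (Or.inl hc), fun c hc => h1 c (Or.inr hc)⟩

lemma core_fst {c : Cell} (h : c ∈ core) : c.1 = 2 := by
  simp only [core, Finset.mem_insert, Finset.mem_singleton] at h
  rcases h with rfl | rfl | rfl | rfl <;> rfl

lemma core_desc {c : Cell} (h : c ∈ core) : c ∈ desc 2 root := by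
  simp only [core, Finset.mem_insert, Finset.mem_singleton] at h
  rcases h with rfl | rfl | rfl | rfl <;> decide

lemma desc_root_fst {h : ℕ} {c : Cell} (hc : c ∈ desc h root) : c.1 = h := by
  have := (mem_desc.1 hc).1
  simpa [root] using this

lemma dep_all (F : Finset Cell) (P : Cell → ℕ → Prop) :
    DependsOn (fun ω : Om => ∀ c ∈ F, P c (ω c)) (F : Set Cell) := by
  intro ω ω' h
  exact propext (forall₂_congr fun c hc => by rw [h c hc])

lemma dep_Grest (N : ℕ) :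
    DependsOn (Grest N) ((desc 1 root ∪ (desc 2 root \ core) : Finset Cell) : Set Cell) :=
  dep_all _ fun _ t => t < N

lemma dep_Gcore (N L1 : ℕ) : DependsOn (Gcore N L1) (core : Set Cell) :=
  dep_all _ fun _ t => L1 * N ≤ t ∧ t < (L1 + 1) * N

lemma dep_Gtop (N L0 L : ℕ) : DependsOn (Gtop N L0 L)
    ({root} ∪ ((desc 1 root ∪ (desc 2 root \ core) : Finset Cell) : Set Cell)) := by
  have e : Gtop N L0 L = fun ω => Grest N ω ∧ (L0 * N ≤ ω root ∧ ω root < (L0 + L) * N) :=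
    funext fun ω => propext (Gtop_iff N L0 L ω)
  rw [e]
  exact ((dep_Grest N).mono subset_union_right).qmap₂
    (((dep_coord root).mono subset_union_left).qmap fun t => L0 * N ≤ t ∧ t < (L0 + L) * N) And

lemma Pr_Gtop (N L0 L : ℕ) : Pr N (Gtop N L0 L) =
    Pr N (Grest N) * Pr N (fun ω => L0 * N ≤ ω root ∧ ω root < (L0 + L) * N) := by
  rw [Pr_congr (Gtop_iff N L0 L)]
  refine Pr_and_indep (s := {root}) (elem_Grest N) ((Elem.coord_ge _ _).and (Elem.coord_lt _ _))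
    ((dep_Grest N).mono fun v hv => ?_)
    ((dep_coord root).qmap fun t => L0 * N ≤ t ∧ t < (L0 + L) * N)
  rintro rfl
  simp only [Finset.coe_union, mem_union, Finset.mem_coe, Finset.mem_sdiff] at hv
  rcases hv with hv | hv
  · have := desc_root_fst hv; simp [root] at this
  · have := desc_root_fst hv.1; simp [root] at this

lemma dep_Gad (N L0 L L1 : ℕ) : DependsOn (Gad N L0 L L1) (Deep 3)ᶜ := by
  refine ((dep_Gtop N L0 L).mono fun v hv => ?_).qmap₂ ((dep_Gcore N L1).mono fun v hv => ?_) And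
  · simp only [Finset.coe_union, mem_union, Finset.mem_coe, Finset.mem_sdiff,
      mem_singleton_iff] at hv
    simp only [Deep, mem_compl_iff, mem_ofPred_eq]
    rcases hv with rfl | hv | hv
    · simp [root]
    · have := desc_root_fst hv; omega
    · have := desc_root_fst hv.1; omega
  · have := core_fst hv
    simp only [Deep, mem_compl_iff, mem_ofPred_eq]; omega

/-! ### second moments given an event of the first three levels -/

lemma sum_sq_bound : ∃ C : ℝ, 1 ≤ C ∧ ∀ N, 2 ≤ N → ∀ (G : Om → Prop), Elem G →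
    DependsOn G (Deep 3)ᶜ → ∀ (F : Finset Cell), (∀ u ∈ F, u.1 = 3) → ∀ (j m : ℕ),
    (∀ ω, G ω → ∀ u ∈ F, m ≤ S ω u) → ∀ f : Om → ℕ, Elem f →
    (∀ ω, f ω ≤ ∑ u ∈ F, Xh ω j u) →
    E N (fun ω => ind (G ω) * (f ω : ℝ) ^ 2) ≤
      (F.card : ℝ) ^ 2 * C * Pr N G * (a N (j - m) : ℝ) ^ 2 := by
  obtain ⟨C, hC1, hC⟩ := X_mom 2
  refine ⟨C, hC1, fun N hN G hG hd F hF j m hm f hf hle => ?_⟩
  have nX : ∀ u, Nice (fun ω => (Xh ω j u : ℝ) ^ 2) := fun u => (elem_Xh j u).cast.pow 2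
  have n1 : Nice (fun ω => (F.card : ℝ) * ∑ u ∈ F, (Xh ω j u : ℝ) ^ 2) :=
    (Nice.sum F fun u _ => nX u).cmul _
  have h1 : E N (fun ω => ind (G ω) * (f ω : ℝ) ^ 2) ≤
      E N (fun ω => ind (G ω) * ((F.card : ℝ) * ∑ u ∈ F, (Xh ω j u : ℝ) ^ 2)) := by
    refine E_mono (hG.ind.mul (hf.cast.pow 2)) (hG.ind.mul n1) fun ω => ?_
    refine mul_le_mul_of_nonneg_left ?_ (ind_nonneg _)
    have h2 : (f ω : ℝ) ≤ ∑ u ∈ F, (Xh ω j u : ℝ) := by exact_mod_cast hle ω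
    exact (pow_le_pow_left₀ (by positivity) h2 2).trans sq_sum_le_card_mul_sum_sq
  refine h1.trans ((E_ind_mul_le (s := Deep 3) hG n1 hd
    (c := (F.card : ℝ) ^ 2 * C * (a N (j - m) : ℝ) ^ 2) fun ω hω => ?_).trans (le_of_eq (by ring)))
  rw [Res_cmul, Res_sum F fun u _ => nX u]
  have h3 : ∀ u ∈ F, Res N (Deep 3) (fun ω => (Xh ω j u : ℝ) ^ 2) ω ≤
      C * (a N (j - m) : ℝ) ^ 2 := fun u hu => by
    have e := Res_aged (N := N) (F := fun t ω => (X ω t : ℝ) ^ 2)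
      (fun t => (elem_X t).cast.pow 2) (emb u) (s := Deep 3)
      (fun t => dep_pull_deep (fun ω => (X ω t : ℝ) ^ 2) (emb u) (by simp [hF u hu]))
      (φ := fun ω => j - S ω u) ((dep_S_deep (hF u hu).le).qmap fun t => j - t) ω
    refine (le_of_eq e).trans ((hC N hN _).trans ?_)
    refine mul_le_mul_of_nonneg_left (pow_le_pow_left₀ (by positivity) ?_ 2) (by linarith)
    have := hm ω hω u hu
    exact_mod_cast a_mono N (by omega)
  have h4 := Finset.sum_le_card_nsmul F _ _ h3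
  rw [nsmul_eq_mul] at h4
  calc _ ≤ (F.card : ℝ) * (F.card * (C * (a N (j - m) : ℝ) ^ 2)) :=
        mul_le_mul_of_nonneg_left h4 (by positivity)
    _ = _ := by ring

lemma root_le_S {ω : Om} {u : Cell} (hu : Below root u) (h : 0 < u.1) : ω root + 1 ≤ S ω u := by
  have := S_ge (ω := ω) hu h
  simpa using this

lemma X2_bound : ∃ C : ℝ, 1 ≤ C ∧ ∀ N, 2 ≤ N → ∀ (G : Om → Prop), Elem G →
    DependsOn G (Deep 3)ᶜ → ∀ (j m : ℕ), (∀ ω, G ω → m ≤ ω root) →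
    E N (fun ω => ind (G ω) * (X ω j : ℝ) ^ 2) ≤ C * Pr N G * (a N (j - m) : ℝ) ^ 2 := by
  obtain ⟨C, hC1, hC⟩ := sum_sq_bound
  refine ⟨64 ^ 2 * C, by nlinarith, fun N hN G hG hd j m hm => ?_⟩
  refine (hC N hN G hG hd (desc 3 root) (fun u hu => desc_root_fst hu) j m (fun ω hω u hu => ?_)
    (fun ω => X ω j) (elem_X j) fun ω => X_le_sum_desc 3).trans ?_
  · have := root_le_S (ω := ω) (mem_desc.1 hu).2 (by rw [desc_root_fst hu]; omega)
    have := hm ω hω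
    omega
  · have h1 : ((desc 3 root).card : ℝ) ≤ 64 := by exact_mod_cast card_desc 3 root
    have := Pr_nonneg (N := N) G
    gcongr

/-- grandchildren of the core row -/
def core3 : Finset Cell := core.biUnion (desc 1)

lemma Test_le_core (ω : Om) (j : ℕ) : Test ω j ≤ ∑ u ∈ core3, Xh ω j u := by
  have hdisj : (core : Set Cell).PairwiseDisjoint (desc 1) := by
    intro c hc c' hc' hne
    rw [Function.onFun, Finset.disjoint_left]
    intro v h1 h2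
    exact hne ((mem_desc.1 h1).2.unique (mem_desc.1 h2).2 (by rw [core_fst hc, core_fst hc']))
  rw [core3, Finset.sum_biUnion hdisj]
  have key : ∀ i : ℤ, ((2, i, 1) : Cell) ∈ core → Reach (TQ ω j)
      (∑ u ∈ desc 1 (2, i, 1), Xh ω j u) ((i : ℝ) / 4, 1 / 4) (((i : ℝ) + 1) / 4, 1 / 4) := by
    intro i hi
    refine reach_sum_desc 1 ?_ ?_ ?_
    · rw [(below_root_iff _).1 (mem_desc.1 (core_desc hi)).2]; simp
    · simp only [sq, mem_ofPred_eq]; push_cast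
      refine ⟨?_, ?_, ?_, ?_⟩ <;> linarith
    · simp only [sq, mem_ofPred_eq]; push_cast
      refine ⟨?_, ?_, ?_, ?_⟩ <;> linarith
  have h0 := key 0 (by decide)
  have h1 := key 1 (by decide)
  have h2 := key 2 (by decide)
  have h3 := key 3 (by decide)
  norm_num at h0 h1 h2 h3
  have h := ((h0.trans h1).trans h2).trans h3
  refine (dS_le (I := L0) (J := L1) rfl rfl h).trans (le_of_eq ?_)
  rw [core, Finset.sum_insert (by decide), Finset.sum_insert (by decide),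
    Finset.sum_insert (by decide), Finset.sum_singleton]
  ring

lemma card_core3 : core3.card ≤ 16 := by decide

/-! ### completeness -/

lemma exists_desc (h : ℕ) (c : Cell) : ∃ u, u ∈ desc h c :=
  ⟨(c.1 + h, c.2.1 * 2 ^ h, c.2.2 * 2 ^ h), by
    simp only [desc, Finset.mem_image, Finset.mem_product, Finset.mem_range]
    exact ⟨(0, 0), ⟨by positivity, by positivity⟩, by simp⟩⟩

lemma S_le_of_comp {ω : Om} {D t : ℕ} (h : ∀ c ∈ desc D root, S ω c ≤ t) {c : Cell}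
    (hc : Below root c) (hD : c.1 ≤ D) : S ω c ≤ t := by
  obtain ⟨u, hu⟩ := exists_desc (D - c.1) c
  rw [mem_desc] at hu
  exact (S_mono hu.2).trans (h u (mem_desc.2 ⟨by simp only [root]; omega, hc.trans hu.2⟩))

lemma depth_of_comp {ω : Om} {D k : ℕ} (h : ∀ c ∈ desc D root, S ω c ≤ k) {w : Cell}
    (hw : w ∈ TQ ω k) : D ≤ w.1 := by
  by_contra hlt
  rw [mem_TQ] at hw
  obtain ⟨u, hu⟩ := exists_desc (D - w.1) w
  rw [mem_desc] at hu
  have h1 := h u (mem_desc.2 ⟨by simp only [root]; omega, hw.2.trans hu.2⟩)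
  have h2 := S_ge (ω := ω) hu.2 (by omega)
  have h3 := hw.1.2
  omega

lemma S_le_of_Gad {L0 L L1 : ℕ} {ω : Om} (h : Gad N L0 L L1 ω) :
    ∀ u ∈ desc 3 root, S ω u ≤ (L0 + L + L1 + 3) * N := by
  intro u hu
  have e := desc_root_fst hu
  have hb := (mem_desc.1 hu).2
  have a1 : anc 1 u ∈ desc 1 root := mem_desc.2 ⟨rfl, hb.anc_below (by simp [root]) (by omega)⟩
  have a2 : anc 2 u ∈ desc 2 root := mem_desc.2 ⟨rfl, hb.anc_below (by simp [root]) (by omega)⟩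
  have h0 := h.1.1.2
  have h1 := h.1.2.1 _ a1
  have h2 : ω (anc 2 u) < (L1 + 1) * N := by
    by_cases hc : anc 2 u ∈ core
    · exact (h.2 _ hc).2
    · have := h.1.2.2 _ (Finset.mem_sdiff.2 ⟨a2, hc⟩)
      nlinarith
  rw [S, e, Finset.sum_range_succ, Finset.sum_range_succ, Finset.sum_range_succ,
    Finset.sum_range_zero, (below_root_iff u).1 hb]
  nlinarith

/-- the roots of the depth three array that cover the unit square -/
def R3 : Finset Cell := (desc 3 root).image fun u => (0, u.2.1, u.2.2)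

end Gadget

open Gadget

theorem Gad_prob (N L0 L L1 : ℕ) :
    Pr N (Gad N L0 L L1) = Pr N (Gtop N L0 L) * Pr N (Gcore N L1) := by
  refine Pr_and_indep (s := (core : Set Cell)) (elem_Gtop N L0 L) (elem_Gcore N L1)
    ((dep_Gtop N L0 L).mono fun v hv hc => ?_) (dep_Gcore N L1)
  have := core_fst hc
  simp only [Finset.coe_union, mem_union, Finset.mem_coe, Finset.mem_sdiff,
    mem_singleton_iff] at hv
  rcases hv with rfl | hv | hv
  · simp [root] at this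
  · have := desc_root_fst hv; omega
  · exact hv.2 hc

theorem Gtop_lb (L0 L : ℕ) (hL : 1 ≤ L) : ∃ γ : ℝ, 0 < γ ∧ ∀ N, 2 ≤ N →
    γ ≤ Pr N (Gtop N L0 L) := by
  refine ⟨(1 / 2) ^ (desc 1 root ∪ (desc 2 root \ core)).card * ((1 / 4) ^ L0 / 2),
    by positivity, fun N hN => ?_⟩
  rw [Pr_Gtop]
  refine mul_le_mul ?_ (Pr_int_ge' hN root L0 hL) (by positivity) (Pr_nonneg _)
  have e := Pr_all_coord (N := N) (desc 1 root ∪ (desc 2 root \ core)) (fun _ t => t < N)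
    fun c => Elem.coord_lt c N
  refine le_trans ?_ (le_of_eq e.symm)
  rw [← Finset.prod_const]
  exact Finset.prod_le_prod (fun _ _ => by norm_num) fun c _ => Pr_lt_ge hN c

theorem Gcore_lb (L1 : ℕ) : ∃ γ : ℝ, 0 < γ ∧ ∀ N, 2 ≤ N → γ ≤ Pr N (Gcore N L1) := by
  refine ⟨((1 / 4) ^ L1 / 2) ^ core.card, by positivity, fun N hN => ?_⟩
  have e := Pr_all_coord (N := N) core (fun _ t => L1 * N ≤ t ∧ t < (L1 + 1) * N)
    fun c => (Elem.coord_ge c _).and (Elem.coord_lt c _)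
  refine le_trans ?_ (le_of_eq e.symm)
  rw [← Finset.prod_const]
  exact Finset.prod_le_prod (fun _ _ => by positivity) fun c _ => Pr_int_ge' hN c L1 le_rfl

theorem Gad_X2 : ∃ C : ℝ, 0 < C ∧ ∀ N, 2 ≤ N → ∀ L0 L L1 j : ℕ,
    E N (fun ω => ind (Gad N L0 L L1 ω) * (X ω j : ℝ) ^ 2) ≤
      C * Pr N (Gad N L0 L L1) * (a N (j - L0 * N) : ℝ) ^ 2 := by
  obtain ⟨C, hC1, hC⟩ := X2_bound
  exact ⟨C, by linarith, fun N hN L0 L L1 j =>
    hC N hN _ (elem_Gad N L0 L L1) (dep_Gad N L0 L L1) j _ fun ω hω => hω.1.1.1⟩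

theorem Gad_Test2 : ∃ C : ℝ, 0 < C ∧ ∀ N, 2 ≤ N → ∀ L0 L L1 j : ℕ,
    E N (fun ω => ind (Gad N L0 L L1 ω) * (Test ω j : ℝ) ^ 2) ≤
      C * Pr N (Gad N L0 L L1) * (a N (j - (L0 + L1) * N) : ℝ) ^ 2 := by
  obtain ⟨C, hC1, hC⟩ := sum_sq_bound
  refine ⟨16 ^ 2 * C, by linarith, fun N hN L0 L L1 j => ?_⟩
  refine (hC N hN _ (elem_Gad N L0 L L1) (dep_Gad N L0 L L1) core3 (fun u hu => ?_) j
    ((L0 + L1) * N) (fun ω hω u hu => ?_) (fun ω => Test ω j) (elem_Test j)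
    fun ω => Test_le_core ω j).trans ?_
  · obtain ⟨c, hc, hu⟩ := Finset.mem_biUnion.1 hu
    rw [(mem_desc.1 hu).1, core_fst hc]
  · obtain ⟨c, hc, hu⟩ := Finset.mem_biUnion.1 hu
    have h1 := root_le_S (ω := ω) (mem_desc.1 (core_desc hc)).2 (by rw [core_fst hc]; omega)
    have h2 := hω.1.1.1
    have h3 := (hω.2 c hc).1
    rw [S_child hu, add_mul]
    omega
  · have h1 : (core3.card : ℝ) ≤ 16 := by exact_mod_cast card_core3
    have := Pr_nonneg (N := N) (Gad N L0 L L1)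
    gcongr

theorem Gad_TestLo {ε : ℝ} (hε : 0 < ε) : ∃ κ : ℝ, 0 < κ ∧ ∀ N, 2 ≤ N → ∀ L0 L L1 j : ℕ,
    Pr N (fun ω => Gad N L0 L L1 ω ∧ (Test ω j : ℝ) < κ * a N (j - (L0 + L + L1 + 3) * N)) ≤
      ε * Pr N (Gad N L0 L L1) := by
  obtain ⟨κ, hκ, hκ1, hLB⟩ := LB_prob R3 (ρ := 8) (by norm_num) hε
  refine ⟨κ, hκ, fun N hN L0 L L1 j => ?_⟩
  set M := (L0 + L + L1 + 3) * N with hM
  by_cases hj : j ≤ M
  · rw [Pr_false]
    · exact mul_nonneg hε.le (Pr_nonneg _)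
    · rintro ω ⟨-, h⟩
      rw [Nat.sub_eq_zero_of_le hj, a_zero] at h
      have : (1 : ℝ) ≤ Test ω j := by exact_mod_cast one_le_Test
      push_cast at h
      linarith
  have hB := (elem_LBs (j - M) R3 8 (κ * a N (j - M))).not
  have h1 : Pr N (fun ω => Gad N L0 L L1 ω ∧ (Test ω j : ℝ) < κ * a N (j - M)) ≤
      Pr N (fun ω => Gad N L0 L L1 ω ∧
        ¬ LBs (TR (pull (emb (3, 0, 0)) ω) (j - M) R3) 8 (κ * a N (j - M))) := by
    refine Pr_mono ((elem_Gad N L0 L L1).and ((elem_Test j).map fun t => (t : ℝ) < κ * a N (j - M)))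
      ((elem_Gad N L0 L L1).and (hB.pull _)) fun ω hω => ⟨hω.1, fun hL => ?_⟩
    obtain ⟨x, hx, y, hy, hr⟩ := (conn_Test (ω := ω) (k := j)).spec
    have hS := S_le_of_Gad hω.1
    have hr' := hr.down (ω := ω) (k := j) (emb (3, 0, 0)) (R := R3) (j := j - M) fun w hw => by
      have hd : 3 ≤ w.1 := depth_of_comp (fun c hc => (hS c hc).trans (by omega)) hw
      rw [mem_TQ] at hw
      have a3 : anc 3 w ∈ desc 3 root :=
        mem_desc.2 ⟨rfl, hw.2.anc_below (by simp [root]) hd⟩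
      have e : (emb (3, 0, 0)).g (0, (anc 3 w).2.1, (anc 3 w).2.2) = anc 3 w := by
        simp [emb, anc]
      refine ⟨hw.1, (0, (anc 3 w).2.1, (anc 3 w).2.2), Finset.mem_image_of_mem _ a3, rfl, ?_, ?_⟩
      · rw [e]; exact below_anc hd
      · rw [e]; have := hS _ a3; omega
    have := hL _ _ _ hr' (by
      rw [Sim.dist_φ, emb_s]
      have h1 : x.1 = 0 := hx
      have h2 : y.1 = 1 := hy
      have h3 : dist x.1 y.1 ≤ dist x y := by rw [Prod.dist_eq]; exact le_max_left _ _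
      rw [h1, h2, Real.dist_eq] at h3
      norm_num at h3 ⊢
      linarith)
    exact absurd hω.2 (not_lt.2 this)
  refine h1.trans ?_
  rw [Pr_and_indep (s := Deep 3) (elem_Gad N L0 L L1) (hB.pull _) (dep_Gad N L0 L L1)
    (dep_pull_deep (fun ω => ¬ LBs (TR ω (j - M) R3) 8 (κ * a N (j - M))) _ (by simp)),
    Pr_pull hB, mul_comm]
  exact mul_le_mul_of_nonneg_right (hLB N hN _) (Pr_nonneg _)

theorem Gad_shift {N : ℕ} (hN : 2 ≤ N) (L0 L L1 : ℕ) (B : Set Cell → Set Cell → Prop)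
    (j j' r : ℕ) (hr : r ≤ L * N) :
    Pr N (fun ω => Gad N (L0 + L) 1 L1 ω ∧ B (TQ ω (j + r)) (TQ ω (j' + r))) ≤
      Pr N (fun ω => Gad N L0 (L + 1) L1 ω ∧ B (TQ ω j) (TQ ω j')) := by
  have hA : Elem (fun ω => Gad N L0 (L + 1) L1 ω ∧ B (TQ ω j) (TQ ω j')) :=
    (elem_Gad N L0 (L + 1) L1).and ((elem_TQ j).map₂ (elem_TQ j') B)
  have hA' : Elem (fun ω => Gad N (L0 + L) 1 L1 ω ∧ B (TQ ω (j + r)) (TQ ω (j' + r))) :=
    (elem_Gad N (L0 + L) 1 L1).and ((elem_TQ (j + r)).map₂ (elem_TQ (j' + r)) B)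
  have h1 := E_dec hN hA.ind root r
  have h2 : (1 - q N) ^ r ≤ 1 := pow_le_one₀ (one_sub_q_nonneg hN) (one_sub_q_le_one hN)
  have h3 := Pr_nonneg (N := N) (fun ω => Gad N L0 (L + 1) L1 ω ∧ B (TQ ω j) (TQ ω j'))
  refine le_trans ?_ ((le_of_eq h1).trans (mul_le_of_le_one_left h3 h2))
  refine E_mono hA'.ind ((Elem.coord_ge root r).ind.mul ((hA.dec root r).ind)) fun ω => ?_
  rw [← ind_and]
  refine ind_mono fun ⟨hG, hB⟩ => ?_
  have h4 := hG.1.1.1
  have h5 := hG.1.1.2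
  have h6 : r ≤ ω root := by nlinarith
  have ne : ∀ {h : ℕ} {c : Cell}, c ∈ desc h root → 0 < h → c ≠ root := by
    rintro h c hc hh rfl
    have := desc_root_fst hc
    simp only [root] at this
    omega
  refine ⟨h6, ⟨⟨?_, fun c hc => ?_, fun c hc => ?_⟩, fun c hc => ?_⟩, ?_⟩
  · rw [Function.update_self]
    rw [add_mul] at h4
    rw [← add_assoc]
    omega
  · rw [Function.update_of_ne (ne hc (by omega))]; exact hG.1.2.1 c hc
  · rw [Function.update_of_ne (ne (Finset.mem_sdiff.1 hc).1 (by omega))]; exact hG.1.2.2 c hc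
  · rw [Function.update_of_ne (ne (core_desc hc) (by omega))]; exact hG.2 c hc
  · rwa [TQ_dec h6, TQ_dec h6]

theorem Gad_last (L : ℕ) : ∃ C : ℝ, 0 < C ∧ ∀ N, 2 ≤ N → ∀ L0 L1 : ℕ,
    Pr N (Gad N L0 (L + 1) L1) ≤ C * Pr N (Gad N (L0 + L) 1 L1) := by
  refine ⟨2 * 4 ^ L, by positivity, fun N hN L0 L1 => ?_⟩
  rw [Gad_prob, Gad_prob, Pr_Gtop, Pr_Gtop]
  have h1 := Pr_int_le hN root (r := L0 * N) (r' := (L0 + (L + 1)) * N) (by nlinarith)
  have h2 := Pr_int_ge hN root ((L0 + L) * N) (L := 1) le_rfl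
  rw [← add_mul, add_mul L0 L, pow_add, ← add_mul] at h2
  have h3 := one_sub_q_pow_ge hN L
  have h4 : 0 ≤ (1 - q N) ^ (L0 * N) := pow_nonneg (one_sub_q_nonneg hN) _
  have h5 : (4 : ℝ) ^ L * (1 / 4) ^ L = 1 := by rw [← mul_pow]; norm_num
  have h6 : Pr N (fun ω => L0 * N ≤ ω root ∧ ω root < (L0 + (L + 1)) * N) ≤
      2 * 4 ^ L * Pr N (fun ω => (L0 + L) * N ≤ ω root ∧ ω root < (L0 + L + 1) * N) := by
    have h7 : (1 - q N) ^ (L0 * N) * (1 / 4) ^ L ≤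
        2 * Pr N (fun ω => (L0 + L) * N ≤ ω root ∧ ω root < (L0 + L + 1) * N) := by
      have := mul_le_mul_of_nonneg_left h3 h4
      linarith
    have h8 := mul_le_mul_of_nonneg_left h7 (show (0 : ℝ) ≤ 4 ^ L by positivity)
    calc _ ≤ (1 - q N) ^ (L0 * N) * (4 ^ L * (1 / 4) ^ L) := by rw [h5, mul_one]; exact h1
      _ = 4 ^ L * ((1 - q N) ^ (L0 * N) * (1 / 4) ^ L) := by ring
      _ ≤ _ := h8
      _ = _ := by ring
  have := mul_le_mul_of_nonneg_right (mul_le_mul_of_nonneg_left h6 (Pr_nonneg (N := N) (Grest N)))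
    (Pr_nonneg (N := N) (Gcore N L1))
  exact this.trans (le_of_eq (by ring))

theorem T_small : ∃ K : ℝ, 0 < K ∧ ∀ LT : ℕ, ∃ γ : ℝ, 0 < γ ∧ ∀ N, 2 ≤ N → ∀ j1 j2 : ℕ,
    γ ≤ Pr N (fun ω => (X ω j1 : ℝ) ≤ K * a N (j1 - LT * N) ∧
      (X ω j2 : ℝ) ≤ K * a N (j2 - LT * N)) := by
  obtain ⟨C, hC1, hC⟩ := X2_bound
  refine ⟨2 * C, by linarith, fun LT => ⟨(1 / 4) ^ LT / 2, by positivity, fun N hN j1 j2 => ?_⟩⟩
  have hG := Elem.coord_ge root (LT * N)
  have hd : DependsOn (fun ω : Om => LT * N ≤ ω root) (Deep 3)ᶜ :=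
    ((dep_coord root).mono fun v hv => by
      rw [mem_singleton_iff.1 hv]; simp [Deep, root]).qmap fun t => LT * N ≤ t
  have eX : ∀ j, Elem (fun ω => (X ω j : ℝ) ≤ 2 * C * a N (j - LT * N)) := fun j =>
    (elem_X j).map fun t => (t : ℝ) ≤ 2 * C * a N (j - LT * N)
  have hP := Pr_nonneg (N := N) (fun ω : Om => LT * N ≤ ω root)
  have key : ∀ j, Pr N (fun ω => LT * N ≤ ω root ∧ ¬ (X ω j : ℝ) ≤ 2 * C * a N (j - LT * N)) ≤
      Pr N (fun ω : Om => LT * N ≤ ω root) / 4 := fun j => by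
    have ha : (1 : ℝ) ≤ a N (j - LT * N) := by exact_mod_cast one_le_a N _
    have ht : 0 < (2 * C * a N (j - LT * N)) ^ 2 := by positivity
    refine (Pr_le_E_div (hG.and (eX j).not) (hG.ind.mul ((elem_X j).cast.pow 2)) ht
      (fun ω => mul_nonneg (ind_nonneg _) (by positivity)) fun ω hω => ?_).trans ?_
    · rw [ind_pos hω.1, one_mul]
      exact pow_le_pow_left₀ (by positivity) (not_le.1 hω.2).le 2
    · rw [div_le_iff₀ ht]
      refine (hC N hN _ hG hd j (LT * N) fun _ h => h).trans ?_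
      have h1 : 0 ≤ Pr N (fun ω : Om => LT * N ≤ ω root) * (a N (j - LT * N) : ℝ) ^ 2 * C := by
        positivity
      nlinarith
  have h1 := Pr_le_add (N := N) hG ((eX j1).and (eX j2))
    ((hG.and (eX j1).not).or (hG.and (eX j2).not)) (fun ω hω => by tauto)
  have h2 := Pr_le_add (N := N) ((hG.and (eX j1).not).or (hG.and (eX j2).not))
    (hG.and (eX j1).not) (hG.and (eX j2).not) fun ω hω => hω
  have h3 := key j1
  have h4 := key j2
  have h5 := one_sub_q_pow_ge hN LT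
  rw [← Pr_coord_ge hN root] at h5
  linarith

theorem dc_low (η : ℝ) (hη : 0 < η) : ∃ κ : ℝ, 0 < κ ∧ ∀ N, 2 ≤ N → ∀ k,
    Pr N (fun ω => (dc ω k : ℝ) < κ * a N k) ≤ η := by
  obtain ⟨κ, hκ, -, hLB⟩ := LB_prob {root} (ρ := 1) one_pos hη
  refine ⟨κ, hκ, fun N hN k => le_trans ?_ (hLB N hN k)⟩
  refine Pr_mono ((elem_dc k).map fun t => (t : ℝ) < κ * a N k) (elem_LBs k _ _ _).not
    fun ω hω hL => ?_
  have := hL _ _ _ (d_spec (ω := ω) (k := k) c00 c11) (by simp [Prod.dist_eq])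
  exact absurd hω (not_lt.2 this)

theorem X_small (ε : ℝ) (hε : 0 < ε) : ∃ γ : ℝ, 0 < γ ∧ ∃ t0 : ℕ, ∀ N, 2 ≤ N → ∀ k, t0 * N ≤ k →
    γ ≤ Pr N (fun ω => (X ω (k + 2 * N) : ℝ) ≤ ε * a N k) := by
  obtain ⟨K, hK, hT⟩ := T_small
  obtain ⟨c, hc, -, hdec⟩ := a_decay
  obtain ⟨s, hs⟩ := exists_nat_ge (2 * K / (ε * c))
  obtain ⟨γ, hγ, h⟩ := hT (s + 2)
  refine ⟨γ, hγ, s, fun N hN k hk => (h N hN (k + 2 * N) (k + 2 * N)).trans ?_⟩
  have eX : Elem (fun ω => (X ω (k + 2 * N) : ℝ) ≤ K * a N (k + 2 * N - (s + 2) * N)) :=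
    (elem_X _).map fun t => (t : ℝ) ≤ K * a N (k + 2 * N - (s + 2) * N)
  refine Pr_mono (eX.and eX) ((elem_X _).map fun t => (t : ℝ) ≤ ε * a N k)
    fun ω hω => hω.1.trans ?_
  rw [show k + 2 * N - (s + 2) * N = k - s * N by rw [add_mul]; omega]
  have h1 := hdec N hN k (s * N) hk
  have e : -(c * q N) * ((s * N : ℕ) : ℝ) = -(c * s) := by
    push_cast
    linear_combination (-(c * s)) * q_mul hN
  rw [e] at h1
  have h2 : 2 * K * Real.exp (-(c * s)) ≤ ε := by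
    have h3 := Real.add_one_le_exp (c * s)
    rw [div_le_iff₀ (by positivity)] at hs
    rw [Real.exp_neg, ← div_eq_mul_inv, div_le_iff₀ (Real.exp_pos _)]
    nlinarith
  have h4 : (0 : ℝ) ≤ a N k := by positivity
  calc K * (a N (k - s * N) : ℝ) ≤ K * (2 * Real.exp (-(c * s)) * a N k) :=
        mul_le_mul_of_nonneg_left h1 hK.le
    _ = (2 * K * Real.exp (-(c * s))) * a N k := by ring
    _ ≤ _ := mul_le_mul_of_nonneg_right h2 h4

end Pool.Agent.P.MP_8c7dae_pr
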