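import Pool.Agent.P.MP_8c7dae_pr.Defs

open Set

namespace Pool.Agent.P.MP_8c7dae_pr

/-! ### cells -/

@[simp] lemma anc_fst (m : ℕ) (v : Cell) : (anc m v).1 = m := rfl

@[simp] lemma anc_self (v : Cell) : anc v.1 v = v := by
  simp [anc]

lemma anc_anc {m l : ℕ} {v : Cell} (h1 : m ≤ l) (h2 : l ≤ v.1) : anc m (anc l v) = anc m v := by
  have e : v.1 - m = (v.1 - l) + (l - m) := by omega
  simp only [anc, e, pow_add]
  rw [Int.ediv_ediv_of_nonneg (by positivity), Int.ediv_ediv_of_nonneg (by positivity)]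

lemma two_pow_pos' (n : ℕ) : (0 : ℝ) < 2 ^ n := by positivity

lemma ediv_bounds (x : ℤ) (n : ℕ) :
    (x / 2 ^ n) * 2 ^ n ≤ x ∧ x + 1 ≤ (x / 2 ^ n + 1) * 2 ^ n := by
  have h : (0 : ℤ) < 2 ^ n := by positivity
  have h1 := Int.ediv_mul_le x (ne_of_gt h)
  have h2 := Int.lt_ediv_add_one_mul_self x h
  exact ⟨h1, h2⟩

lemma ediv_eq_iff' (x y : ℤ) (n : ℕ) :
    x / 2 ^ n = y ↔ y * 2 ^ n ≤ x ∧ x < (y + 1) * 2 ^ n := by
  have h : (0 : ℤ) < 2 ^ n := by positivity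
  constructor
  · rintro rfl
    have := ediv_bounds x n
    constructor <;> linarith
  · rintro ⟨h1, h2⟩
    have h3 : y ≤ x / 2 ^ n := (Int.le_ediv_iff_mul_le h).2 h1
    have h4 : x / 2 ^ n < y + 1 := (Int.ediv_lt_iff_lt_mul h).2 h2
    omega

lemma aux_sub (x : ℤ) (m n : ℕ) (t : ℝ) (h1 : (x : ℝ) ≤ 2 ^ (m + n) * t)
    (h2 : 2 ^ (m + n) * t ≤ x + 1) :
    ((x / 2 ^ n : ℤ) : ℝ) ≤ 2 ^ m * t ∧ 2 ^ m * t ≤ ((x / 2 ^ n : ℤ) : ℝ) + 1 := by
  obtain ⟨b1, b2⟩ := ediv_bounds x n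
  have b1' : ((x / 2 ^ n : ℤ) : ℝ) * 2 ^ n ≤ x := by exact_mod_cast b1
  have b2' : (x : ℝ) + 1 ≤ (((x / 2 ^ n : ℤ) : ℝ) + 1) * 2 ^ n := by exact_mod_cast b2
  have hp := two_pow_pos' n
  rw [pow_add] at h1 h2
  constructor
  · have : ((x / 2 ^ n : ℤ) : ℝ) * 2 ^ n ≤ (2 ^ m * t) * 2 ^ n := by nlinarith
    exact le_of_mul_le_mul_right this hp
  · have : (2 ^ m * t) * 2 ^ n ≤ (((x / 2 ^ n : ℤ) : ℝ) + 1) * 2 ^ n := by nlinarith
    exact le_of_mul_le_mul_right this hp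

lemma sq_sub_anc {m : ℕ} {v : Cell} (h : m ≤ v.1) : sq v ⊆ sq (anc m v) := by
  rintro p ⟨h1, h2, h3, h4⟩
  have e : v.1 = m + (v.1 - m) := by omega
  rw [e] at h1 h2 h3 h4
  obtain ⟨a1, a2⟩ := aux_sub _ _ _ _ h1 h2
  obtain ⟨a3, a4⟩ := aux_sub _ _ _ _ h3 h4
  exact ⟨a1, a2, a3, a4⟩

lemma Below.refl (v : Cell) : Below v v := ⟨le_rfl, anc_self v⟩

lemma below_anc {m : ℕ} {v : Cell} (h : m ≤ v.1) : Below (anc m v) v := ⟨h, rfl⟩

lemma Below.anc_eq {c v : Cell} (h : Below c v) {m : ℕ} (hm : m ≤ c.1) : anc m v = anc m c := by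
  rw [← h.2, anc_anc hm h.1]

lemma Below.trans {u v w : Cell} (h1 : Below u v) (h2 : Below v w) : Below u w :=
  ⟨h1.1.trans h2.1, by rw [h2.anc_eq h1.1, h1.2]⟩

lemma Below.sq_sub {c v : Cell} (h : Below c v) : sq v ⊆ sq c := by
  have := sq_sub_anc h.1
  rwa [h.2] at this

lemma Below.of_le {c c' v : Cell} (h : Below c v) (h' : Below c' v) (hl : c.1 ≤ c'.1) :
    Below c c' := ⟨hl, by rw [← h'.anc_eq hl, h.2]⟩

lemma Below.eq_of_fst {c v : Cell} (h : Below c v) (hl : v.1 ≤ c.1) : c = v := by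
  have e : c.1 = v.1 := le_antisymm h.1 hl
  have := h.2
  rw [e, anc_self] at this
  exact this.symm

lemma Below.unique {c c' v : Cell} (h : Below c v) (h' : Below c' v) (hl : c.1 = c'.1) : c = c' :=
  (h.of_le h' hl.le).eq_of_fst hl.ge

lemma Below.anc_below {c v : Cell} (h : Below c v) {m : ℕ} (h1 : c.1 ≤ m) (h2 : m ≤ v.1) :
    Below c (anc m v) := h.of_le (below_anc h2) h1

lemma below_root_iff (v : Cell) : Below root v ↔ anc 0 v = root := by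
  simp [Below, root]

lemma below_iff (c v : Cell) : Below c v ↔ c.1 ≤ v.1 ∧
    c.2.1 * 2 ^ (v.1 - c.1) ≤ v.2.1 ∧ v.2.1 < (c.2.1 + 1) * 2 ^ (v.1 - c.1) ∧
    c.2.2 * 2 ^ (v.1 - c.1) ≤ v.2.2 ∧ v.2.2 < (c.2.2 + 1) * 2 ^ (v.1 - c.1) := by
  unfold Below anc
  rw [Prod.ext_iff, Prod.ext_iff]
  simp only [ediv_eq_iff', true_and]
  tauto

lemma mem_desc {h : ℕ} {c v : Cell} : v ∈ desc h c ↔ v.1 = c.1 + h ∧ Below c v := by
  rw [below_iff]
  simp only [desc, Finset.mem_image, Finset.mem_product, Finset.mem_range]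
  constructor
  · rintro ⟨x, ⟨h1, h2⟩, rfl⟩
    have h1' : (x.1 : ℤ) < 2 ^ h := by exact_mod_cast h1
    have h2' : (x.2 : ℤ) < 2 ^ h := by exact_mod_cast h2
    have : (0 : ℤ) ≤ x.1 := by positivity
    have : (0 : ℤ) ≤ x.2 := by positivity
    simp only [Nat.add_sub_cancel_left]
    refine ⟨trivial, by omega, ?_, ?_, ?_, ?_⟩ <;> nlinarith
  · rintro ⟨e, -, h1, h2, h3, h4⟩
    rw [e, Nat.add_sub_cancel_left] at h1 h2 h3 h4
    refine ⟨((v.2.1 - c.2.1 * 2 ^ h).toNat, (v.2.2 - c.2.2 * 2 ^ h).toNat), ⟨?_, ?_⟩, ?_⟩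
    · have : ((v.2.1 - c.2.1 * 2 ^ h).toNat : ℤ) < 2 ^ h := by
        rw [Int.toNat_of_nonneg (by linarith)]; linarith
      exact_mod_cast this
    · have : ((v.2.2 - c.2.2 * 2 ^ h).toNat : ℤ) < 2 ^ h := by
        rw [Int.toNat_of_nonneg (by linarith)]; linarith
      exact_mod_cast this
    · ext
      · simp [e]
      · simp only; rw [Int.toNat_of_nonneg (by linarith)]; ring
      · simp only; rw [Int.toNat_of_nonneg (by linarith)]; ring

lemma card_desc (h : ℕ) (c : Cell) : (desc h c).card ≤ 4 ^ h := by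
  refine Finset.card_image_le.trans ?_
  simp only [Finset.card_product, Finset.card_range]
  rw [← mul_pow]; norm_num

lemma exists_int_near (a : ℤ) (n : ℕ) (hn : 1 ≤ n) (t : ℝ) (h1 : (a : ℝ) ≤ t) (h2 : t ≤ a + n) :
    ∃ b : ℤ, a ≤ b ∧ b < a + n ∧ (b : ℝ) ≤ t ∧ t ≤ b + 1 := by
  by_cases h : t = a + n
  · refine ⟨a + n - 1, by omega, by omega, ?_, ?_⟩ <;> push_cast <;> linarith
  · have hlt : t < a + n := lt_of_le_of_ne h2 h
    refine ⟨⌊t⌋, Int.le_floor.2 h1, ?_, Int.floor_le t, (Int.lt_floor_add_one t).le⟩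
    rw [Int.floor_lt]; push_cast; exact hlt

lemma exists_desc_mem (h : ℕ) {c : Cell} {p : Pt} (hp : p ∈ sq c) : ∃ v ∈ desc h c, p ∈ sq v := by
  obtain ⟨h1, h2, h3, h4⟩ := hp
  have hp := two_pow_pos' h
  obtain ⟨x, x1, x2, x3, x4⟩ := exists_int_near (c.2.1 * 2 ^ h) (2 ^ h) Nat.one_le_two_pow
    (2 ^ (c.1 + h) * p.1) (by push_cast; rw [pow_add]; nlinarith)
    (by push_cast; rw [pow_add]; nlinarith)
  obtain ⟨y, y1, y2, y3, y4⟩ := exists_int_near (c.2.2 * 2 ^ h) (2 ^ h) Nat.one_le_two_pow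
    (2 ^ (c.1 + h) * p.2) (by push_cast; rw [pow_add]; nlinarith)
    (by push_cast; rw [pow_add]; nlinarith)
  refine ⟨(c.1 + h, x, y), ?_, x3, x4, y3, y4⟩
  rw [mem_desc, below_iff]
  simp only [Nat.add_sub_cancel_left]
  push_cast at x2 y2
  refine ⟨trivial, by omega, x1, by linarith, y1, by linarith⟩

lemma dist_le_of_mem_sq {v : Cell} {p p' : Pt} (h : p ∈ sq v) (h' : p' ∈ sq v) :
    2 ^ v.1 * dist p p' ≤ 1 := by
  obtain ⟨h1, h2, h3, h4⟩ := h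
  obtain ⟨g1, g2, g3, g4⟩ := h'
  have hp := two_pow_pos' v.1
  rw [Prod.dist_eq, mul_max_of_nonneg _ _ hp.le, Real.dist_eq, Real.dist_eq,
    ← abs_of_pos hp, ← abs_mul, ← abs_mul]
  refine max_le (abs_le.2 ⟨?_, ?_⟩) (abs_le.2 ⟨?_, ?_⟩) <;> nlinarith

lemma dist_le_of_mem_sq' {v : Cell} {m : ℕ} (hm : m ≤ v.1) {p p' : Pt} (h : p ∈ sq v)
    (h' : p' ∈ sq v) : 2 ^ m * dist p p' ≤ 1 :=
  dist_le_of_mem_sq (v := anc m v) (sq_sub_anc hm h) (sq_sub_anc hm h')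

lemma mem_Q {p : Pt} : p ∈ Q ↔ 0 ≤ p.1 ∧ p.1 ≤ 1 ∧ 0 ≤ p.2 ∧ p.2 ≤ 1 := by
  simp [Q, sq, root]

lemma mem_sq_zero {a b : ℤ} {p : Pt} :
    p ∈ sq (0, a, b) ↔ (a : ℝ) ≤ p.1 ∧ p.1 ≤ a + 1 ∧ (b : ℝ) ≤ p.2 ∧ p.2 ≤ b + 1 := by
  simp [sq]

/-- the centre of a cell lies in all its children -/
lemma centre_mem {c v : Cell} (hv : v ∈ desc 1 c) :
    (((2 * c.2.1 + 1 : ℝ) / 2 ^ (c.1 + 1), (2 * c.2.2 + 1 : ℝ) / 2 ^ (c.1 + 1)) : Pt) ∈ sq v := by
  rw [mem_desc, below_iff] at hv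
  obtain ⟨e, -, h1, h2, h3, h4⟩ := hv
  rw [e, Nat.add_sub_cancel_left, pow_one] at h1 h2 h3 h4
  have hp := two_pow_pos' (c.1 + 1)
  have a1 : (v.2.1 : ℝ) ≤ 2 * c.2.1 + 1 := by exact_mod_cast (by omega : v.2.1 ≤ 2 * c.2.1 + 1)
  have a2 : (2 * c.2.1 : ℝ) ≤ v.2.1 := by exact_mod_cast (by omega : 2 * c.2.1 ≤ v.2.1)
  have a3 : (v.2.2 : ℝ) ≤ 2 * c.2.2 + 1 := by exact_mod_cast (by omega : v.2.2 ≤ 2 * c.2.2 + 1)
  have a4 : (2 * c.2.2 : ℝ) ≤ v.2.2 := by exact_mod_cast (by omega : 2 * c.2.2 ≤ v.2.2)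
  simp only [sq, mem_ofPred_eq, e]
  rw [mul_div_cancel₀ _ hp.ne', mul_div_cancel₀ _ hp.ne']
  refine ⟨a1, by linarith, a3, by linarith⟩

/-! ### similarities -/

noncomputable def emb (c : Cell) : Sim where
  s := c.1
  g v := (v.1 + c.1, c.2.1 * 2 ^ v.1 + v.2.1, c.2.2 * 2 ^ v.1 + v.2.2)
  ψ p := ((c.2.1 + p.1) / 2 ^ c.1, (c.2.2 + p.2) / 2 ^ c.1)
  φ p := (2 ^ c.1 * p.1 - c.2.1, 2 ^ c.1 * p.2 - c.2.2)
  left_inv p := by
    have hp := two_pow_pos' c.1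
    ext <;> simp only <;> field_simp <;> ring
  right_inv p := by
    have hp := two_pow_pos' c.1
    ext <;> simp only <;> field_simp <;> ring
  inj v w h := by
    simp only [Prod.ext_iff] at h
    obtain ⟨h1, h2, h3⟩ := h
    have e : v.1 = w.1 := by omega
    rw [e] at h2 h3
    ext
    · exact e
    · linarith
    · linarith
  fst v := rfl
  anc_g v m hm := by
    have e : v.1 + c.1 - (m + c.1) = v.1 - m := by omega
    have e2 : (2 : ℤ) ^ v.1 = 2 ^ m * 2 ^ (v.1 - m) := by rw [← pow_add]; congr 1; omega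
    have h : (2 : ℤ) ^ (v.1 - m) ≠ 0 := by positivity
    simp only [anc, e]
    rw [e2, ← mul_assoc, ← mul_assoc, add_comm (c.2.1 * _ * _), add_comm (c.2.2 * _ * _),
      Int.add_mul_ediv_right _ _ h, Int.add_mul_ediv_right _ _ h, add_comm (_ / _),
      add_comm (_ / _)]
  surj w hw := by
    refine ⟨(w.1 - c.1, w.2.1 - c.2.1 * 2 ^ (w.1 - c.1), w.2.2 - c.2.2 * 2 ^ (w.1 - c.1)), ?_⟩
    ext
    · simp only; omega
    · simp
    · simp
  mem_sq v p := by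
    have hp := two_pow_pos' c.1
    simp only [sq, mem_ofPred_eq, pow_add]
    rw [mul_assoc, mul_div_cancel₀ _ hp.ne', mul_assoc, mul_div_cancel₀ _ hp.ne']
    push_cast
    constructor <;> rintro ⟨h1, h2, h3, h4⟩ <;> refine ⟨?_, ?_, ?_, ?_⟩ <;> linarith
  dist_eq p p' := by
    have hp := two_pow_pos' c.1
    rw [Prod.dist_eq, Prod.dist_eq, mul_max_of_nonneg _ _ hp.le]
    simp only [Real.dist_eq]
    rw [← sub_div, ← sub_div, abs_div, abs_div, abs_of_pos hp, mul_div_cancel₀ _ hp.ne',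
      mul_div_cancel₀ _ hp.ne']
    congr 2 <;> ring

def trS : Sim where
  s := 0
  g v := (v.1, v.2.2, v.2.1)
  ψ p := (p.2, p.1)
  φ p := (p.2, p.1)
  left_inv _ := rfl
  right_inv _ := rfl
  inj v w h := by
    simp only [Prod.ext_iff] at h
    ext <;> tauto
  fst _ := rfl
  anc_g _ _ _ := rfl
  surj w _ := ⟨(w.1, w.2.2, w.2.1), rfl⟩
  mem_sq v p := by simp only [sq, mem_ofPred_eq]; tauto
  dist_eq p p' := by simp [Prod.dist_eq, max_comm]

def mirS : Sim where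
  s := 0
  g v := (v.1, 2 ^ v.1 - 1 - v.2.1, v.2.2)
  ψ p := (1 - p.1, p.2)
  φ p := (1 - p.1, p.2)
  left_inv p := by simp
  right_inv p := by simp
  inj v w h := by
    simp only [Prod.ext_iff] at h
    obtain ⟨h1, h2, h3⟩ := h
    rw [h1] at h2
    ext
    · exact h1
    · linarith
    · exact h3
  fst _ := rfl
  anc_g v m hm := by
    have e2 : (2 : ℤ) ^ v.1 = 2 ^ m * 2 ^ (v.1 - m) := by rw [← pow_add]; congr 1; omega
    simp only [anc, Nat.add_zero]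
    congr 2
    rw [ediv_eq_iff', e2]
    obtain ⟨b1, b2⟩ := ediv_bounds v.2.1 (v.1 - m)
    constructor <;> nlinarith
  surj w _ := ⟨(w.1, 2 ^ w.1 - 1 - w.2.1, w.2.2), by simp⟩
  mem_sq v p := by
    simp only [sq, mem_ofPred_eq]
    push_cast
    constructor <;> rintro ⟨h1, h2, h3, h4⟩ <;> refine ⟨?_, ?_, ?_, ?_⟩ <;> linarith
  dist_eq p p' := by
    simp only [Prod.dist_eq, Real.dist_eq, pow_zero, one_mul]
    congr 1
    rw [abs_sub_comm]; congr 1; ring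

def idS : Sim where
  s := 0
  g v := v
  ψ p := p
  φ p := p
  left_inv _ := rfl
  right_inv _ := rfl
  inj _ _ h := h
  fst _ := rfl
  anc_g _ _ _ := rfl
  surj w _ := ⟨w, rfl⟩
  mem_sq _ _ := Iff.rfl
  dist_eq p p' := by simp

def Sim.comp (σ τ : Sim) : Sim where
  s := τ.s + σ.s
  g v := σ.g (τ.g v)
  ψ p := σ.ψ (τ.ψ p)
  φ p := τ.φ (σ.φ p)
  left_inv p := by rw [σ.left_inv, τ.left_inv]
  right_inv p := by rw [τ.right_inv, σ.right_inv]
  inj := σ.inj.comp τ.inj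
  fst v := by rw [σ.fst, τ.fst, add_assoc]
  anc_g v m hm := by
    rw [← add_assoc, σ.anc_g _ _ (by rw [τ.fst]; omega), τ.anc_g _ _ hm]
  surj w hw := by
    obtain ⟨u, rfl⟩ := σ.surj w (by omega)
    rw [σ.fst] at hw
    obtain ⟨v, rfl⟩ := τ.surj u (by omega)
    exact ⟨v, rfl⟩
  mem_sq v p := by rw [σ.mem_sq, τ.mem_sq]
  dist_eq p p' := by rw [τ.dist_eq, σ.dist_eq, pow_add, mul_assoc]

lemma pull_comp (σ τ : Sim) (ω : Om) : pull (σ.comp τ) ω = pull τ (pull σ ω) := rfl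

/-- identity or transposition -/
def ori (o : Bool) : Sim := if o then trS else idS

/-- cell with orientation -/
noncomputable def embo (c : Cell) (o : Bool) : Sim := (emb c).comp (ori o)

@[simp] lemma ori_s (o : Bool) : (ori o).s = 0 := by cases o <;> rfl
@[simp] lemma emb_s (c : Cell) : (emb c).s = c.1 := rfl
@[simp] lemma embo_s (c : Cell) (o : Bool) : (embo c o).s = c.1 := by
  simp [embo, Sim.comp]
@[simp] lemma emb_root (c : Cell) : (emb c).g root = c := by simp [emb, root]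
@[simp] lemma ori_root (o : Bool) : (ori o).g root = root := by cases o <;> rfl
@[simp] lemma embo_root (c : Cell) (o : Bool) : (embo c o).g root = c := by
  simp [embo, Sim.comp]
@[simp] lemma mirS_root : mirS.g root = root := by simp [mirS, root]
@[simp] lemma trS_root : trS.g root = root := rfl

lemma Sim.mem_sq' (σ : Sim) (v : Cell) (p : Pt) : σ.φ p ∈ sq v ↔ p ∈ sq (σ.g v) := by
  rw [← σ.mem_sq, σ.right_inv]

lemma Sim.dist_φ (σ : Sim) (p p' : Pt) : dist (σ.φ p) (σ.φ p') = 2 ^ σ.s * dist p p' := by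
  rw [σ.dist_eq, σ.right_inv, σ.right_inv]

lemma Sim.below_iff (σ : Sim) (c v : Cell) : Below (σ.g c) (σ.g v) ↔ Below c v := by
  unfold Below
  rw [σ.fst, σ.fst]
  constructor
  · rintro ⟨h1, h2⟩
    have h : c.1 ≤ v.1 := by omega
    rw [σ.anc_g _ _ h] at h2
    exact ⟨h, σ.inj h2⟩
  · rintro ⟨h1, h2⟩
    exact ⟨by omega, by rw [σ.anc_g _ _ h1, h2]⟩

lemma Sim.anc_s (σ : Sim) (v : Cell) : anc σ.s (σ.g v) = σ.g (anc 0 v) := by
  have := σ.anc_g v 0 (Nat.zero_le _)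
  rwa [zero_add] at this

lemma Sim.exists_of_below (σ : Sim) {c w : Cell} (h : Below (σ.g c) w) :
    ∃ v, σ.g v = w ∧ Below c v := by
  have : σ.s ≤ w.1 := by have := h.1; rw [σ.fst] at this; omega
  obtain ⟨v, rfl⟩ := σ.surj w this
  exact ⟨v, rfl, (σ.below_iff _ _).1 h⟩

lemma Sim.mem_desc (σ : Sim) (h : ℕ) (c v : Cell) : σ.g v ∈ desc h (σ.g c) ↔ v ∈ desc h c := by
  rw [MP_8c7dae_pr.mem_desc, MP_8c7dae_pr.mem_desc, σ.below_iff, σ.fst, σ.fst]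
  constructor <;> rintro ⟨h1, h2⟩ <;> exact ⟨by omega, h2⟩

/-! ### chains -/

lemma Reach.mono_n {A : Set Cell} {n m : ℕ} {x y : Pt} (h : Reach A n x y) (hm : n ≤ m) :
    Reach A m x y := by
  induction h generalizing m with
  | refl n x => exact Reach.refl _ _
  | step h1 hv hy hz ih =>
    obtain ⟨m, rfl⟩ : ∃ m', m = m' + 1 := ⟨m - 1, by omega⟩
    exact Reach.step (ih (by omega)) hv hy hz

lemma Reach.sim {A B : Set Cell} (f : Pt → Pt)
    (hf : ∀ v ∈ A, ∃ w ∈ B, ∀ p ∈ sq v, f p ∈ sq w) {n : ℕ} {x y : Pt} (h : Reach A n x y) :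
    Reach B n (f x) (f y) := by
  induction h with
  | refl n x => exact Reach.refl _ _
  | step h1 hv hy hz ih =>
    obtain ⟨w, hw, hw'⟩ := hf _ hv
    exact Reach.step ih hw (hw' _ hy) (hw' _ hz)

lemma Reach.mono {A B : Set Cell} (hAB : A ⊆ B) {n : ℕ} {x y : Pt} (h : Reach A n x y) :
    Reach B n x y :=
  h.sim id (fun v hv => ⟨v, hAB hv, fun _ hp => hp⟩)

lemma Reach.one {A : Set Cell} {v : Cell} {x y : Pt} (hv : v ∈ A) (hx : x ∈ sq v)
    (hy : y ∈ sq v) : Reach A 1 x y := Reach.step (Reach.refl 0 x) hv hx hy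

lemma Reach.trans {A : Set Cell} {n m : ℕ} {x y z : Pt} (h1 : Reach A n x y)
    (h2 : Reach A m y z) : Reach A (n + m) x z := by
  induction h2 with
  | refl m y => exact h1.mono_n (by omega)
  | step _ hv hy hz ih => exact Reach.step (ih h1) hv hy hz

lemma Reach.symm {A : Set Cell} {n : ℕ} {x y : Pt} (h : Reach A n x y) : Reach A n y x := by
  induction h with
  | refl n x => exact Reach.refl _ _
  | step _ hv hy hz ih =>
    have := (Reach.one hv hz hy).trans ih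
    rwa [add_comm] at this

lemma Reach.eq_of_zero {A : Set Cell} {x y : Pt} (h : Reach A 0 x y) : x = y := by
  cases h; rfl

lemma IsCh.sub {A : Set Cell} {p : ℕ → Pt} {v : ℕ → Cell} {a b i j : ℕ} (h : IsCh A p v a b)
    (hi : a ≤ i) (hj : j ≤ b) : IsCh A p v i j :=
  fun t h1 h2 => h t (by omega) (by omega)

lemma IsCh.restrict {A B : Set Cell} {p : ℕ → Pt} {v : ℕ → Cell} {a b i j : ℕ}
    (h : IsCh A p v a b) (hi : a ≤ i) (hj : j ≤ b) (hB : ∀ t, i ≤ t → t < j → v t ∈ B) :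
    IsCh B p v i j :=
  fun t h1 h2 => ⟨hB t h1 h2, (h t (by omega) (by omega)).2⟩

lemma IsCh.reach {A : Set Cell} {p : ℕ → Pt} {v : ℕ → Cell} {a b : ℕ} (h : IsCh A p v a b)
    (hab : a ≤ b) : Reach A (b - a) (p a) (p b) := by
  induction b, hab using Nat.le_induction with
  | base => exact Reach.refl _ _
  | succ b hb ih =>
    have h1 := ih (h.sub le_rfl (by omega))
    obtain ⟨h2, h3, h4⟩ := h b hb (by omega)
    have := Reach.step h1 h2 h3 h4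
    exact this.mono_n (by omega)

lemma IsCh.reach' {A : Set Cell} {p : ℕ → Pt} {v : ℕ → Cell} {a b i j : ℕ} (h : IsCh A p v a b)
    (hi : a ≤ i) (hij : i ≤ j) (hj : j ≤ b) : Reach A (j - i) (p i) (p j) :=
  (h.sub hi hj).reach hij

lemma Reach.exists_ch {A : Set Cell} {n : ℕ} {x y : Pt} (h : Reach A n x y) :
    ∃ m ≤ n, ∃ p v, IsCh A p v 0 m ∧ p 0 = x ∧ p m = y := by
  induction h with
  | refl n x => exact ⟨0, Nat.zero_le _, fun _ => x, fun _ => root, fun j _ h => by omega, rfl, rfl⟩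
  | @step n x y z w _ hv hy hz ih =>
    obtain ⟨m, hm, p, v, hc, h0, h1⟩ := ih
    refine ⟨m + 1, by omega, fun j => if j ≤ m then p j else z, fun j => if j < m then v j else w,
      fun j _ hj => ?_, by simp [h0], by simp⟩
    by_cases hjm : j < m
    · have := hc j (Nat.zero_le _) hjm
      simp only [hjm, if_true, hjm.le, show j + 1 ≤ m from hjm]
      exact this
    · have e : j = m := by omega
      subst e
      simp [h1, hv, hy, hz]

lemma dS_le {A : Set Cell} {I J : Set Pt} {n : ℕ} {x y : Pt} (hx : x ∈ I) (hy : y ∈ J)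
    (h : Reach A n x y) : dS A I J ≤ n := Nat.sInf_le ⟨x, hx, y, hy, h⟩

lemma Conn.spec {A : Set Cell} {I J : Set Pt} (h : Conn A I J) :
    ∃ x ∈ I, ∃ y ∈ J, Reach A (dS A I J) x y := Nat.sInf_mem (s := {n | ∃ x ∈ I, ∃ y ∈ J, Reach A n x y}) h

/-- a geodesic chain from `I` to `J` -/
def Geod (A : Set Cell) (I J : Set Pt) (p : ℕ → Pt) (v : ℕ → Cell) : Prop :=
  IsCh A p v 0 (dS A I J) ∧ p 0 ∈ I ∧ p (dS A I J) ∈ J

lemma Conn.geod {A : Set Cell} {I J : Set Pt} (h : Conn A I J) : ∃ p v, Geod A I J p v := by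
  obtain ⟨x, hx, y, hy, hr⟩ := h.spec
  obtain ⟨m, hm, p, v, hc, h0, h1⟩ := hr.exists_ch
  have h2 : dS A I J ≤ m := by
    have := hc.reach (Nat.zero_le _)
    rw [h0, h1] at this
    exact dS_le hx hy this
  have e : m = dS A I J := le_antisymm hm h2
  subst h0 h1
  exact ⟨p, v, e ▸ hc, hx, e ▸ hy⟩

lemma Geod.le {A : Set Cell} {I J : Set Pt} {p : ℕ → Pt} {v : ℕ → Cell} (h : Geod A I J p v)
    {i j n : ℕ} (hij : i ≤ j) (hj : j ≤ dS A I J) (hr : Reach A n (p i) (p j)) : j ≤ i + n := by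
  have h1 := h.1.reach' le_rfl (Nat.zero_le i) (hij.trans hj)
  have h2 := h.1.reach' (Nat.zero_le _) hj le_rfl
  have := dS_le h.2.1 h.2.2 ((h1.trans hr).trans h2)
  omega

lemma dS_le_of_sim {A B : Set Cell} {I J I' J' : Set Pt} (f : Pt → Pt)
    (hf : ∀ v ∈ A, ∃ w ∈ B, ∀ p ∈ sq v, f p ∈ sq w) (hI : ∀ p ∈ I, f p ∈ I')
    (hJ : ∀ p ∈ J, f p ∈ J') (h : Conn A I J) : dS B I' J' ≤ dS A I J := by
  obtain ⟨x, hx, y, hy, hr⟩ := h.spec
  exact dS_le (hI _ hx) (hJ _ hy) (hr.sim f hf)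

/-- transfer of chains along a similarity -/
lemma Reach.push (σ : Sim) {A B : Set Cell} (h : ∀ v ∈ A, ∃ w ∈ B, Below w (σ.g v)) {n : ℕ}
    {x y : Pt} (hr : Reach A n x y) : Reach B n (σ.ψ x) (σ.ψ y) :=
  hr.sim σ.ψ (fun v hv => by
    obtain ⟨w, hw, hb⟩ := h v hv
    exact ⟨w, hw, fun p hp => hb.sq_sub ((σ.mem_sq v p).2 hp)⟩)

lemma Reach.pullback (σ : Sim) {A B : Set Cell}
    (h : ∀ w ∈ B, ∃ u, σ.g u = w ∧ ∃ v ∈ A, Below v u) {n : ℕ}
    {x y : Pt} (hr : Reach B n x y) : Reach A n (σ.φ x) (σ.φ y) :=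
  hr.sim σ.φ (fun w hw => by
    obtain ⟨u, rfl, v, hv, hb⟩ := h w hw
    exact ⟨v, hv, fun p hp => hb.sq_sub ((σ.mem_sq' u p).2 hp)⟩)

/-- first index with a property -/
lemma exists_first {P : ℕ → Prop} {a b : ℕ} (hab : a ≤ b) (hb : P b) :
    ∃ t, a ≤ t ∧ t ≤ b ∧ P t ∧ ∀ j, a ≤ j → j < t → ¬ P j := by
  classical
  have hex : ∃ t, a ≤ t ∧ P t := ⟨b, hab, hb⟩
  refine ⟨Nat.find hex, (Nat.find_spec hex).1, Nat.find_min' hex ⟨hab, hb⟩, (Nat.find_spec hex).2,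
    fun j h1 h2 h3 => Nat.find_min hex h2 ⟨h1, h3⟩⟩

/-- last index with a property -/
lemma exists_last {P : ℕ → Prop} {a b : ℕ} (hab : a ≤ b) (ha : P a) :
    ∃ t, a ≤ t ∧ t ≤ b ∧ P t ∧ ∀ j, t < j → j ≤ b → ¬ P j := by
  classical
  refine ⟨Nat.findGreatest P b, Nat.le_findGreatest hab ha, Nat.findGreatest_le b,
    Nat.findGreatest_spec hab ha, fun j h1 h2 => Nat.findGreatest_is_greatest h1 h2⟩

end Pool.Agent.P.MP_8c7dae_pr
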