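import Pool.Agent.P.MP_8c7dae_pr.HighwayA

open Set

namespace Pool.Agent.P.MP_8c7dae_pr

namespace Highway

/-- strictly between -/
def Sb (a x y : ℤ) : Prop := (x < a ∧ a < y) ∨ (y < a ∧ a < x)

/-- weakly between -/
def Wb (a x y : ℤ) : Prop := (x ≤ a ∧ a ≤ y) ∨ (y ≤ a ∧ a ≤ x)

/-- gadget cells -/
def IsW (A B : ℤ × ℤ) (w : (ℤ × ℤ) × Bool) : Prop :=
  (w.2 = false ∧ w.1.2 = A.2 ∧ Sb w.1.1 A.1 B.1 ∧ (w.1.1 - B.1) % 2 = 0) ∨
  (w.2 = true ∧ w.1.1 = B.1 ∧ Sb w.1.2 A.2 B.2 ∧ (w.1.2 - A.2) % 2 = 0)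

/-- the other cells of the two arms -/
def IsA (A B t : ℤ × ℤ) : Prop :=
  (t.2 = A.2 ∧ Wb t.1 A.1 B.1 ∧ ¬ (Sb t.1 A.1 B.1 ∧ (t.1 - B.1) % 2 = 0)) ∨
  (t.1 = B.1 ∧ Wb t.2 A.2 B.2 ∧ ¬ (Sb t.2 A.2 B.2 ∧ (t.2 - A.2) % 2 = 0))

def clamp (n : ℕ) (t : ℤ × ℤ) : ℤ × ℤ := (max 1 (min t.1 (n - 2)), max 1 (min t.2 (n - 2)))

/-- number of gadgets between `a` and the junction `y` -/
def fl (a y : ℤ) : ℤ := (((a - y).natAbs - 1) / 2 : ℕ)

def lab0 (A B t : ℤ × ℤ) : ℤ := fl t.2 A.2 - fl t.1 B.1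

def ht (A B t : ℤ × ℤ) : ℕ := (t.1 - B.1).natAbs + (t.2 - A.2).natAbs

variable {n : ℕ} {A B : ℤ × ℤ}

lemma intr_clamp (hn : 4 ≤ n) (t : ℤ × ℤ) : Intr n (clamp n t) := by
  unfold Intr clamp; dsimp only; omega

lemma clamp_eq {t : ℤ × ℤ} (h : Intr n t) : clamp n t = t := by
  unfold Intr at h; unfold clamp; ext <;> dsimp only <;> omega

lemma IsA.intr (hA : Intr n A) (hB : Intr n B) {t : ℤ × ℤ} (h : IsA A B t) : Intr n t := by
  unfold IsA Wb at h; unfold Intr at *; omega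

lemma IsW.intr (hA : Intr n A) (hB : Intr n B) {w : (ℤ × ℤ) × Bool} (h : IsW A B w) :
    Intr n w.1 := by
  unfold Intr at *
  rcases h with ⟨-, h⟩ | ⟨-, h⟩ <;> unfold Sb at h <;> omega

lemma isA_left : IsA A B A := by unfold IsA Wb Sb; omega
lemma isA_right : IsA A B B := by unfold IsA Wb Sb; omega

lemma IsW.not_isA {w : (ℤ × ℤ) × Bool} (h : IsW A B w) : ¬ IsA A B w.1 := by
  unfold IsA Wb
  rcases h with ⟨-, h⟩ | ⟨-, h⟩ <;> unfold Sb at * <;> omega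

lemma IsW.lo {w : (ℤ × ℤ) × Bool} (h : IsW A B w) : IsA A B (lo w) := by
  unfold IsA Wb Highway.lo
  rcases h with ⟨h0, h⟩ | ⟨h0, h⟩ <;> simp only [h0, if_true, Bool.false_eq_true, if_false] <;>
    unfold Sb at * <;> omega

lemma IsW.hi {w : (ℤ × ℤ) × Bool} (h : IsW A B w) : IsA A B (hi w) := by
  unfold IsA Wb Highway.hi
  rcases h with ⟨h0, h⟩ | ⟨h0, h⟩ <;> simp only [h0, if_true, Bool.false_eq_true, if_false] <;>
    unfold Sb at * <;> omega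

lemma IsW.gap {w w' : (ℤ × ℤ) × Bool} (h : IsW A B w) (h' : IsW A B w') :
    w = w' ∨ Gap w.1 w'.1 := by
  rw [Prod.ext_iff, Prod.ext_iff]
  unfold Gap
  rcases h with ⟨h0, h⟩ | ⟨h0, h⟩ <;> rcases h' with ⟨h0', h'⟩ | ⟨h0', h'⟩ <;>
    simp only [h0, h0', and_true, Bool.false_eq_true, Bool.true_eq_false, and_false, false_or] <;>
    unfold Sb at * <;> omega

lemma fl_spec (a y : ℤ) : (a = y ∧ fl a y = 0) ∨
    (y < a ∧ 2 * fl a y + 1 ≤ a - y ∧ a - y ≤ 2 * fl a y + 2) ∨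
    (a < y ∧ 2 * fl a y + 1 ≤ y - a ∧ y - a ≤ 2 * fl a y + 2) := by
  unfold fl; omega

lemma fl_self (y : ℤ) : fl y y = 0 := by simp [fl]

lemma fl_gap {a a' x y : ℤ} (h : Wb a x y) (g : ¬ (Sb a x y ∧ (a - y) % 2 = 0)) (h' : Wb a' x y)
    (g' : ¬ (Sb a' x y ∧ (a' - y) % 2 = 0)) (hl : fl a y ≠ fl a' y) : a + 2 ≤ a' ∨ a' + 2 ≤ a := by
  have key : ∀ {a a' : ℤ}, Wb a x y → ¬ (Sb a x y ∧ (a - y) % 2 = 0) → Wb a' x y →
      ¬ (Sb a' x y ∧ (a' - y) % 2 = 0) → a' = a + 1 → fl a y = fl a' y := by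
    intro a a' h g h' g' e
    have h1 := fl_spec a y
    have h2 := fl_spec a' y
    generalize fl a y = u at *
    generalize fl a' y = u' at *
    unfold Wb Sb at *
    rcases h1 with h1 | h1 | h1 <;> rcases h2 with h2 | h2 | h2 <;> omega
  by_contra hn
  obtain e | e | e : a' = a + 1 ∨ a = a' + 1 ∨ a = a' := by omega
  · exact hl (key h g h' g' e)
  · exact hl (key h' g' h g e).symm
  · exact hl (by rw [e])

lemma fl_close {a a' x y : ℤ} (h : Wb a x y) (h' : Wb a' x y) (hl : fl a y = fl a' y) :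
    a ≤ a' + 2 ∧ a' ≤ a + 2 := by
  have h1 := fl_spec a y
  have h2 := fl_spec a' y
  rw [hl] at h1
  generalize fl a' y = u' at *
  unfold Wb at *
  rcases h1 with h1 | h1 | h1 <;> rcases h2 with h2 | h2 | h2 <;> omega

lemma Wb.symm {a x y : ℤ} (h : Wb a x y) : Wb a y x := Or.symm h
lemma Sb.symm {a x y : ℤ} (h : Sb a x y) : Sb a y x := Or.symm h

lemma IsA.gap {t t' : ℤ × ℤ} (h : IsA A B t) (h' : IsA A B t') (hl : lab0 A B t ≠ lab0 A B t') :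
    Gap t t' := by
  unfold lab0 at hl; unfold Gap
  rcases h with ⟨e, h, g⟩ | ⟨e, h, g⟩ <;> rcases h' with ⟨e', h', g'⟩ | ⟨e', h', g'⟩ <;>
    rw [e, e'] at hl <;> simp only [fl_self] at hl
  · have := fl_gap h g h' g' (fun h => hl (by rw [h]))
    omega
  · have h1 := fl_spec t.1 B.1
    have h2 := fl_spec t'.2 A.2
    omega
  · have h1 := fl_spec t'.1 B.1
    have h2 := fl_spec t.2 A.2
    omega
  · have := fl_gap h.symm (fun k => g ⟨k.1.symm, k.2⟩) h'.symm (fun k => g' ⟨k.1.symm, k.2⟩)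
      (fun h => hl (by rw [h]))
    omega

lemma IsA.close {t t' : ℤ × ℤ} (h : IsA A B t) (h' : IsA A B t') (hl : lab0 A B t = lab0 A B t') :
    t.1 ≤ t'.1 + 4 ∧ t'.1 ≤ t.1 + 4 ∧ t.2 ≤ t'.2 + 4 ∧ t'.2 ≤ t.2 + 4 := by
  unfold lab0 at hl
  rcases h with ⟨e, h, -⟩ | ⟨e, h, -⟩ <;> rcases h' with ⟨e', h', -⟩ | ⟨e', h', -⟩ <;>
    rw [e, e'] at hl <;> simp only [fl_self] at hl
  · have := fl_close h h' (by omega)
    omega
  · have h1 := fl_spec t.1 B.1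
    have h2 := fl_spec t'.2 A.2
    clear h h'
    omega
  · have h1 := fl_spec t'.1 B.1
    have h2 := fl_spec t.2 A.2
    clear h h'
    omega
  · have := fl_close h.symm h'.symm (by omega)
    omega

lemma gap_of_clamp {t t' : ℤ × ℤ} (h : Gap (clamp n t) (clamp n t')) (hn : 4 ≤ n) : Gap t t' := by
  unfold Gap clamp at *; dsimp only at h; omega

lemma clamp_near {t : ℤ × ℤ} (h : InBox n t) (hn : 4 ≤ n) :
    t.1 ≤ (clamp n t).1 + 1 ∧ (clamp n t).1 ≤ t.1 + 1 ∧ t.2 ≤ (clamp n t).2 + 1 ∧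
      (clamp n t).2 ≤ t.2 + 1 := by
  unfold InBox at h; unfold clamp; dsimp only; omega

lemma IsA.ht_le (hA : Intr n A) (hB : Intr n B) {t : ℤ × ℤ} (h : IsA A B t) : ht A B t ≤ n := by
  unfold IsA Wb at h; unfold Intr ht at *; omega

/-- one step towards the junction -/
lemma IsA.descent {t : ℤ × ℤ} (h : IsA A B t) : t = (B.1, A.2) ∨
    (∃ t', IsA A B t' ∧ ht A B t' < ht A B t ∧ ¬ Gap t t') ∨
    ∃ w, IsW A B w ∧ ((Highway.lo w = t ∧ ht A B (Highway.hi w) < ht A B t) ∨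
      (Highway.hi w = t ∧ ht A B (Highway.lo w) < ht A B t)) := by
  obtain ⟨a, b⟩ := t
  have step : ∀ (t' : ℤ × ℤ) (o : Bool), (IsA A B t' ∨ IsW A B (t', o)) →
      ht A B t' < ht A B (a, b) → ¬ Gap (a, b) t' →
      ((Highway.lo (t', o) = (a, b) ∧ (IsW A B (t', o) →
          ht A B (Highway.hi (t', o)) < ht A B (a, b))) ∨
        (Highway.hi (t', o) = (a, b) ∧ (IsW A B (t', o) →
          ht A B (Highway.lo (t', o)) < ht A B (a, b)))) →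
      (∃ t', IsA A B t' ∧ ht A B t' < ht A B (a, b) ∧ ¬ Gap (a, b) t') ∨
      ∃ w, IsW A B w ∧ ((Highway.lo w = (a, b) ∧ ht A B (Highway.hi w) < ht A B (a, b)) ∨
        (Highway.hi w = (a, b) ∧ ht A B (Highway.lo w) < ht A B (a, b))) := by
    rintro t' o (h1 | h1) h2 h3 h4
    · exact Or.inl ⟨t', h1, h2, h3⟩
    · exact Or.inr ⟨_, h1, h4.imp (fun h => ⟨h.1, h.2 h1⟩) fun h => ⟨h.1, h.2 h1⟩⟩
  rcases lt_trichotomy a B.1 with h1 | h1 | h1
  · refine Or.inr (step (a + 1, b) false ?_ ?_ ?_ (Or.inl ⟨by simp [Highway.lo], ?_⟩)) <;>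
      simp only [IsA, IsW, Wb, Sb, ht, Gap, Highway.hi, true_and, Bool.false_eq_true, false_and,
        or_false, if_false] at h ⊢ <;> omega
  · rcases lt_trichotomy b A.2 with h2 | h2 | h2
    · refine Or.inr (step (a, b + 1) true ?_ ?_ ?_ (Or.inl ⟨by simp [Highway.lo], ?_⟩)) <;>
        simp only [IsA, IsW, Wb, Sb, ht, Gap, Highway.hi, true_and, Bool.true_eq_false, false_and,
          false_or, if_true] at h ⊢ <;> omega
    · exact Or.inl (by rw [h1, h2])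
    · refine Or.inr (step (a, b - 1) true ?_ ?_ ?_ (Or.inr ⟨by simp [Highway.hi], ?_⟩)) <;>
        simp only [IsA, IsW, Wb, Sb, ht, Gap, Highway.lo, true_and, Bool.true_eq_false, false_and,
          false_or, if_true] at h ⊢ <;> omega
  · refine Or.inr (step (a - 1, b) false ?_ ?_ ?_ (Or.inr ⟨by simp [Highway.hi], ?_⟩)) <;>
      simp only [IsA, IsW, Wb, Sb, ht, Gap, Highway.lo, true_and, Bool.false_eq_true, false_and,
        or_false, if_false] at h ⊢ <;> omega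

/-- the cost of the highway -/
lemma cost {A' : Set Cell} {xT xC : ℕ}
    (hT : ∀ t, IsA A B t → ∀ p ∈ sq (gc t), ∀ p' ∈ sq (gc t), Reach A' xT p p')
    (hC : ∀ w, IsW A B w → ∃ p ∈ sq (gc (lo w)), ∃ p' ∈ sq (gc (hi w)), Reach A' xC p p')
    {z : Pt} (hz : z ∈ sq (gc (B.1, A.2))) (k : ℕ) : ∀ t, IsA A B t → ht A B t ≤ k →
      ∀ p ∈ sq (gc t), Reach A' ((k + 1) * (xT + xC)) p z := by
  induction k with
  | zero =>
    intro t h hk p hp
    rcases h.descent with rfl | ⟨t', -, h2, -⟩ | ⟨w, -, ⟨-, h2⟩ | ⟨-, h2⟩⟩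
    · exact (hT _ h p hp z hz).mono_n (by omega)
    all_goals omega
  | succ k ih =>
    intro t h hk p hp
    have e : (k + 1 + 1) * (xT + xC) = xT + xC + (k + 1) * (xT + xC) := by ring
    rw [e]
    rcases h.descent with rfl | ⟨t', h1, h2, h3⟩ | ⟨w, h1, ⟨rfl, h2⟩ | ⟨rfl, h2⟩⟩
    · exact (hT _ h p hp z hz).mono_n (by omega)
    · obtain ⟨q, q1, q2⟩ := touch h3
      exact ((hT _ h p hp q q1).trans (ih t' h1 (by omega) q q2)).mono_n (by omega)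
    · obtain ⟨q, q1, q', q2, q3⟩ := hC w h1
      exact ((hT _ h p hp q q1).trans q3).trans (ih _ h1.hi (by omega) q' q2)
    · obtain ⟨q, q1, q', q2, q3⟩ := hC w h1
      exact ((hT _ h p hp q' q2).trans q3.symm).trans (ih _ h1.lo (by omega) q q1)

lemma finite_box (n : ℕ) : {t : ℤ × ℤ | InBox n t}.Finite :=
  ((finite_Ico (0 : ℤ) n).prod (finite_Ico (0 : ℤ) n)).subset
    fun _ h => ⟨⟨h.1, h.2.1⟩, h.2.2⟩

end Highway

open Highway in
theorem highway (n : ℕ) (hn : 4 ≤ n) (α β : ℤ × ℤ) (hα : InBox n α) (hβ : InBox n β) :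
    ∃ (Tc : Finset (ℤ × ℤ)) (Wc : Finset ((ℤ × ℤ) × Bool)),
      (∀ t ∈ Tc, InBox n t) ∧ (∀ w ∈ Wc, InBox n w.1) ∧ (∀ w ∈ Wc, w.1 ∉ Tc) ∧
      (∀ w ∈ Wc, ∀ w' ∈ Wc, w.1 = w'.1 → w = w') ∧
      (∀ w ∈ Wc, ∃ t0 ∈ Tc, ∃ t1 ∈ Tc, ∀ p ∈ sq (gc w.1),
        ((embo (gc w.1) w.2).φ p ∈ L0 → p ∈ sq (gc t0)) ∧
        ((embo (gc w.1) w.2).φ p ∈ L1 → p ∈ sq (gc t1))) ∧
      ∀ (A A' : Set Cell) (x y : Pt) (m e1 e2 xT xW xC : ℕ),
        (∀ v : Cell, (∀ t ∈ Tc, ¬ Below (gc t) v) → (∀ w ∈ Wc, ¬ Below (gc w.1) v) →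
          (v ∈ A ↔ v ∈ A')) →
        (∃ p0 v0, Geod A {x} {y} p0 v0 ∧ ∃ i0 j0, i0 ≤ j0 ∧ j0 < dS A {x} {y} ∧
          Below (gc α) (v0 i0) ∧ Below (gc β) (v0 j0) ∧ i0 + 4 * m ≤ j0 + 1) →
        (∀ p ∈ Box n, ∀ p' ∈ Box n, dist p p' ≤ 10 → Reach A m p p') →
        LBs {v | v ∈ A ∧ InBox n (anc 0 v).2} (1 / 8) (e2 + 1) →
        (∀ w ∈ Wc, LBs {v | InBox n (anc 0 v).2 ∧ ((v ∈ A ∧ ¬ Below (gc w.1) v) ∨
          (v ∈ A' ∧ Below (gc w.1) v ∧ NonCore (embo (gc w.1) w.2) v))} (1 / 8) (e1 + 1)) →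
        (∀ t ∈ Tc, ∀ p ∈ sq (gc t), ∀ p' ∈ sq (gc t), Reach A' xT p p') →
        (∀ w ∈ Wc, ∀ p ∈ sq (gc w.1), ∀ p' ∈ sq (gc w.1), Reach A' xW p p') →
        (∀ w ∈ Wc, ∃ p ∈ sq (gc w.1), ∃ p' ∈ sq (gc w.1),
          (embo (gc w.1) w.2).φ p ∈ L0 ∧ (embo (gc w.1) w.2).φ p' ∈ L1 ∧ Reach A' xC p p') →
        8 * n * (xT + xC) ≤ e1 → e1 + 2 * xW ≤ e2 → e2 ≤ m → 1 ≤ m →
        ∀ p v, Geod A' {x} {y} p v →
          ∃ w ∈ Wc, ∃ i j, i < j ∧ j ≤ dS A' {x} {y} ∧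
            (∀ t, i ≤ t → t < j → Below (gc w.1) (v t)) ∧
            (((embo (gc w.1) w.2).φ (p i) ∈ L0 ∧ (embo (gc w.1) w.2).φ (p j) ∈ L1) ∨
             ((embo (gc w.1) w.2).φ (p i) ∈ L1 ∧ (embo (gc w.1) w.2).φ (p j) ∈ L0)) := by
  set a := clamp n α with ha
  set b := clamp n β with hb
  have ia : Intr n a := intr_clamp hn α
  have ib : Intr n b := intr_clamp hn β
  have hbox : ∀ t, (IsA a b t ∨ t = α ∨ t = β) → InBox n t := by
    rintro t (h | rfl | rfl)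
    exacts [(h.intr ia ib).inBox, hα, hβ]
  have hcl : ∀ t, (IsA a b t ∨ t = α ∨ t = β) → IsA a b (clamp n t) := by
    rintro t (h | rfl | rfl)
    exacts [by rwa [clamp_eq (h.intr ia ib)], isA_left, isA_right]
  have fT : {t | IsA a b t ∨ t = α ∨ t = β}.Finite := (finite_box n).subset hbox
  have fW : {w | IsW a b w}.Finite :=
    ((finite_box n).prod (finite_univ (α := Bool))).subset
      fun w h => ⟨(IsW.intr ia ib h).inBox, mem_univ _⟩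
  have mT : ∀ t, t ∈ fT.toFinset ↔ IsA a b t ∨ t = α ∨ t = β := fun t => fT.mem_toFinset
  have mW : ∀ w, w ∈ fW.toFinset ↔ IsW a b w := fun w => fW.mem_toFinset
  have H : HW n α β fT.toFinset fW.toFinset (fun t => lab0 a b (clamp n t)) :=
    { boxT := fun t h => hbox t ((mT t).1 h)
      intW := fun w h => ((mW w).1 h).intr ia ib
      αT := (mT _).2 (Or.inr (Or.inl rfl))
      βT := (mT _).2 (Or.inr (Or.inr rfl))
      loT := fun w h => (mT _).2 (Or.inl ((mW w).1 h).lo)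
      hiT := fun w h => (mT _).2 (Or.inl ((mW w).1 h).hi)
      gapW := fun w h w' h' => (((mW w).1 h).gap ((mW w').1 h')).imp_left (congrArg Prod.fst)
      gapT := fun t h t' h' hl =>
        gap_of_clamp ((hcl t ((mT t).1 h)).gap (hcl t' ((mT t').1 h')) hl) hn
      close := fun t h t' h' hl => by
        have h1 := (hcl t ((mT t).1 h)).close (hcl t' ((mT t').1 h')) hl
        have h2 := clamp_near (hbox t ((mT t).1 h)) hn
        have h3 := clamp_near (hbox t' ((mT t').1 h')) hn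
        constructor <;> rw [abs_le] <;> omega
      intT := fun t h => ((mT t).1 h).imp_left fun h => h.intr ia ib }
  refine ⟨fT.toFinset, fW.toFinset, H.boxT, fun w h => (H.intW w h).inBox, fun w h h' => ?_,
    fun w h w' h' e => ?_, fun w h => ⟨lo w, H.loT w h, hi w, H.hiT w h, fun p hp => ends w hp⟩,
    ?_⟩
  · have := hcl _ ((mT _).1 h')
    rw [clamp_eq (H.intW w h)] at this
    exact ((mW w).1 h).not_isA this
  · refine (((mW w).1 h).gap ((mW w').1 h')).resolve_right fun hg => ?_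
    rw [e] at hg
    unfold Gap at hg
    omega
  rintro A A' x y m e1 e2 xT xW xC hA ⟨p0, v0, hG0, i0, j0, hij, hj0, h1, h2, hm⟩ hR hLB hLB' hT hW
    hC k1 k2 k3 k4 p v hG
  refine main H (fun v g1 g2 => hA v (fun t ht h => g1 (below_gc.1 h ▸ ht))
    fun w hw h => g2 w hw (below_gc.1 h)) hG0 hij hj0 (below_gc.1 h1) (below_gc.1 h2) hm hR hLB hLB'
    ?_ hW k2 k3 k4 hG
  obtain ⟨z, hz, -⟩ := touch (u := (b.1, a.2)) (c := (b.1, a.2)) (by unfold Gap; omega)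
  have key : ∀ t ∈ fT.toFinset, ∀ p ∈ sq (gc t), Reach A' (xT + (n + 1) * (xT + xC)) p z := by
    intro t ht p hp
    obtain ⟨q, q1, q2⟩ := touch (u := t) (c := clamp n t) (by
      have := clamp_near (H.boxT t ht) hn
      unfold Gap; omega)
    have h3 := hcl t ((mT t).1 ht)
    refine (hT t ht p hp q q1).trans (cost (fun t h => hT t ((mT t).2 (Or.inl h))) (fun w h => ?_)
      hz n _ h3 (h3.ht_le ia ib) q q2)
    obtain ⟨r, r1, r', r2, r3, r4, r5⟩ := hC w ((mW w).2 h)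
    exact ⟨r, (ends w r1).1 r3, r', (ends w r2).2 r4, r5⟩
  intro t ht t' ht' q hq q' hq'
  refine ((key t ht q hq).trans (key t' ht' q' hq').symm).mono_n (le_trans ?_ k1)
  nlinarith [Nat.zero_le xT, Nat.zero_le xC]

end Pool.Agent.P.MP_8c7dae_pr
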