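import Pool.Agent.P.MP_8c7dae_pr.Defs2

/-! Abstract highways: the deterministic crossing lemma. -/

open Set

namespace Pool.Agent.P.MP_8c7dae_pr.Highway

/-- a full cell separates the two cells -/
def Gap (u c : ℤ × ℤ) : Prop := u.1 + 2 ≤ c.1 ∨ c.1 + 2 ≤ u.1 ∨ u.2 + 2 ≤ c.2 ∨ c.2 + 2 ≤ u.2

def Intr (n : ℕ) (c : ℤ × ℤ) : Prop := 1 ≤ c.1 ∧ c.1 + 2 ≤ n ∧ 1 ≤ c.2 ∧ c.2 + 2 ≤ n

/-- the unit cell containing a tile -/
def cl (v : Cell) : ℤ × ℤ := (anc 0 v).2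

def lo (w : (ℤ × ℤ) × Bool) : ℤ × ℤ := if w.2 then (w.1.1, w.1.2 - 1) else (w.1.1 - 1, w.1.2)
def hi (w : (ℤ × ℤ) × Bool) : ℤ × ℤ := if w.2 then (w.1.1, w.1.2 + 1) else (w.1.1 + 1, w.1.2)

lemma below_gc {t : ℤ × ℤ} {v : Cell} : Below (gc t) v ↔ cl v = t := by
  unfold Below gc cl
  simp only [Nat.zero_le, true_and]
  constructor
  · intro h; rw [h]
  · intro h; rw [← h]; rfl

lemma anc_zero (v : Cell) : anc 0 v = gc (cl v) := rfl

lemma mem_cl {v : Cell} {p : Pt} (h : p ∈ sq v) : p ∈ sq (gc (cl v)) :=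
  sq_sub_anc (Nat.zero_le _) h

lemma mem_gc {t : ℤ × ℤ} {p : Pt} :
    p ∈ sq (gc t) ↔ (t.1 : ℝ) ≤ p.1 ∧ p.1 ≤ t.1 + 1 ∧ (t.2 : ℝ) ≤ p.2 ∧ p.2 ≤ t.2 + 1 :=
  mem_sq_zero

lemma dist_fst (p q : Pt) : |p.1 - q.1| ≤ dist p q := by
  rw [Prod.dist_eq, Real.dist_eq]; exact le_max_left _ _

lemma dist_snd (p q : Pt) : |p.2 - q.2| ≤ dist p q := by
  rw [Prod.dist_eq, Real.dist_eq, Real.dist_eq]; exact le_max_right _ _

lemma Gap.symm {u c : ℤ × ℤ} (h : Gap u c) : Gap c u := by unfold Gap at *; omega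

lemma Gap.dist {u c : ℤ × ℤ} (h : Gap u c) {p q : Pt} (hp : p ∈ sq (gc u)) (hq : q ∈ sq (gc c)) :
    1 ≤ dist p q := by
  rw [mem_gc] at hp hq
  have h1 := abs_le.1 (dist_fst p q)
  have h2 := abs_le.1 (dist_snd p q)
  rcases h with h | h | h | h <;> have h' := (Int.cast_le (R := ℝ)).2 h <;> push_cast at h' <;>
    linarith [hp.1, hp.2.1, hp.2.2.1, hp.2.2.2, hq.1, hq.2.1, hq.2.2.1, hq.2.2.2]

lemma touch {u c : ℤ × ℤ} (h : ¬ Gap u c) : ∃ p, p ∈ sq (gc u) ∧ p ∈ sq (gc c) := by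
  refine ⟨(((max u.1 c.1 : ℤ) : ℝ), ((max u.2 c.2 : ℤ) : ℝ)), ?_, ?_⟩ <;> rw [mem_gc] <;>
    unfold Gap at h <;> refine ⟨?_, ?_, ?_, ?_⟩ <;> dsimp only <;> norm_cast <;> omega

lemma inBox_of_not_gap {n : ℕ} {u c : ℤ × ℤ} (h : ¬ Gap u c) (hc : Intr n c) : InBox n u := by
  unfold Gap at h; unfold Intr at hc; unfold InBox; omega

lemma dist_le_seven {u c : ℤ × ℤ} (h1 : |u.1 - c.1| ≤ 6) (h2 : |u.2 - c.2| ≤ 6) {p q : Pt}
    (hp : p ∈ sq (gc u)) (hq : q ∈ sq (gc c)) : dist p q ≤ 7 := by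
  rw [mem_gc] at hp hq
  have h1' := abs_le.1 ((Int.cast_le (R := ℝ)).2 h1 |>.trans' (le_of_eq Int.cast_abs.symm))
  have h2' := abs_le.1 ((Int.cast_le (R := ℝ)).2 h2 |>.trans' (le_of_eq Int.cast_abs.symm))
  push_cast at h1' h2'
  rw [Prod.dist_eq, Real.dist_eq, Real.dist_eq]
  refine max_le (abs_le.2 ⟨?_, ?_⟩) (abs_le.2 ⟨?_, ?_⟩) <;>
    linarith [hp.1, hp.2.1, hp.2.2.1, hp.2.2.2, hq.1, hq.2.1, hq.2.2.1, hq.2.2.2]

lemma dist_le_one {u : ℤ × ℤ} {p q : Pt} (hp : p ∈ sq (gc u)) (hq : q ∈ sq (gc u)) :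
    dist p q ≤ 1 := by
  simpa [gc] using dist_le_of_mem_sq hp hq

lemma mem_Box {n : ℕ} {u : ℤ × ℤ} (h : InBox n u) {p : Pt} (hp : p ∈ sq (gc u)) : p ∈ Box n := by
  rw [mem_gc] at hp
  obtain ⟨h1, h2, h3, h4⟩ := h
  have h1' : (0 : ℝ) ≤ u.1 := by exact_mod_cast h1
  have h2' : (u.1 : ℝ) + 1 ≤ n := by exact_mod_cast h2
  have h3' : (0 : ℝ) ≤ u.2 := by exact_mod_cast h3
  have h4' : (u.2 : ℝ) + 1 ≤ n := by exact_mod_cast h4
  exact ⟨by linarith [hp.1], by linarith [hp.2.1], by linarith [hp.2.2.1], by linarith [hp.2.2.2]⟩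

lemma g_row (w : (ℤ × ℤ) × Bool) : (embo (gc w.1) w.2).g (0, -1, 0) = gc (lo w) ∧
    (embo (gc w.1) w.2).g (0, 0, 0) = gc w.1 ∧ (embo (gc w.1) w.2).g (0, 1, 0) = gc (hi w) := by
  obtain ⟨c, o⟩ := w
  cases o <;> simp [embo, Sim.comp, ori, idS, trS, emb, gc, lo, hi, sub_eq_add_neg]

lemma ends (w : (ℤ × ℤ) × Bool) {p : Pt} (hp : p ∈ sq (gc w.1)) :
    ((embo (gc w.1) w.2).φ p ∈ L0 → p ∈ sq (gc (lo w))) ∧
    ((embo (gc w.1) w.2).φ p ∈ L1 → p ∈ sq (gc (hi w))) := by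
  obtain ⟨h1, h2, h3⟩ := g_row w
  rw [← h2, ← Sim.mem_sq', mem_sq_zero] at hp
  rw [← h1, ← h3, ← Sim.mem_sq', ← Sim.mem_sq', mem_sq_zero, mem_sq_zero]
  constructor
  · intro h
    have h' : ((embo (gc w.1) w.2).φ p).1 = 0 := h
    refine ⟨?_, ?_, hp.2.2⟩ <;> rw [h'] <;> norm_num
  · intro h
    have h' : ((embo (gc w.1) w.2).φ p).1 = 1 := h
    refine ⟨?_, ?_, hp.2.2⟩ <;> rw [h'] <;> norm_num

lemma dist_embo (w : (ℤ × ℤ) × Bool) (p q : Pt) :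
    dist ((embo (gc w.1) w.2).φ p) ((embo (gc w.1) w.2).φ q) = dist p q := by
  rw [Sim.dist_φ, embo_s]; simp [gc]

/-- a cell containing a point close to the middle of the gadget -/
lemma row_cell (w : (ℤ × ℤ) × Bool) {u : ℤ × ℤ} {p : Pt} (hp : p ∈ sq (gc u))
    (h1 : -1 < ((embo (gc w.1) w.2).φ p).1) (h2 : ((embo (gc w.1) w.2).φ p).1 < 2)
    (h3 : 0 < ((embo (gc w.1) w.2).φ p).2) (h4 : ((embo (gc w.1) w.2).φ p).2 < 1) :
    u = lo w ∨ u = w.1 ∨ u = hi w := by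
  obtain ⟨⟨k, a, b⟩, hu⟩ := (embo (gc w.1) w.2).surj (gc u) (by simp [gc])
  have hk : k = 0 := by
    have := (embo (gc w.1) w.2).fst (k, a, b)
    rw [hu] at this
    simpa [gc] using this.symm
  subst hk
  rw [← hu, ← Sim.mem_sq', mem_sq_zero] at hp
  have b1 : (b : ℝ) < 1 := by linarith [hp.2.2.1]
  have b2 : (-1 : ℝ) < b := by linarith [hp.2.2.2]
  have a1 : (a : ℝ) < 2 := by linarith [hp.1]
  have a2 : (-2 : ℝ) < a := by linarith [hp.2.1]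
  have b1' : b < 1 := by exact_mod_cast b1
  have b2' : -1 < b := by exact_mod_cast b2
  have a1' : a < 2 := by exact_mod_cast a1
  have a2' : -2 < a := by exact_mod_cast a2
  obtain rfl : b = 0 := by omega
  obtain ⟨g1, g2, g3⟩ := g_row w
  have inj : ∀ s t : ℤ × ℤ, gc s = gc t → s = t := fun s t h => congrArg Prod.snd h
  obtain rfl | rfl | rfl : a = -1 ∨ a = 0 ∨ a = 1 := by omega
  · exact Or.inl (inj _ _ (hu.symm.trans g1))
  · exact Or.inr (Or.inl (inj _ _ (hu.symm.trans g2)))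
  · exact Or.inr (Or.inr (inj _ _ (hu.symm.trans g3)))

/-- the core row -/
def Row (σ : Sim) : Set Pt :=
  {p | 0 ≤ (σ.φ p).1 ∧ (σ.φ p).1 ≤ 1 ∧ 1 / 4 ≤ (σ.φ p).2 ∧ (σ.φ p).2 ≤ 1 / 2}

lemma sub_Row {σ : Sim} {v : Cell} (h : ¬ NonCore σ v) : sq v ⊆ Row σ := by
  unfold NonCore at h
  push Not at h
  obtain ⟨c, hc, hb⟩ := h
  intro p hp
  have h1 := (σ.mem_sq' c p).2 (hb.sq_sub hp)
  simp only [core, Finset.mem_insert, Finset.mem_singleton] at hc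
  rcases hc with rfl | rfl | rfl | rfl <;> obtain ⟨a1, a2, a3, a4⟩ := h1 <;>
    norm_num at a1 a2 a3 a4 <;> exact ⟨by linarith, by linarith, by linarith, by linarith⟩

/-- a short chain stays close to `K` -/
lemma near {A' Bd : Set Cell} {p : ℕ → Pt} {v : ℕ → Cell} {a b e : ℕ} (hc : IsCh A' p v a b)
    (hLB : LBs Bd (1 / 8) (e + 1)) (hab : b ≤ a + e) {K : Set Pt}
    (hK : ∀ t, a ≤ t → t < b → ∀ z ∈ K, ∀ q ∈ sq (v t), dist z q < 1 / 8 →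
      (p t ∈ K ∧ p (t + 1) ∈ K) ∨ v t ∈ Bd)
    {i0 : ℕ} (h1 : a ≤ i0) (h2 : i0 ≤ b) (h0 : p i0 ∈ K) {j : ℕ} (hj1 : a ≤ j) (hj2 : j ≤ b) :
    ∃ z ∈ K, dist z (p j) < 1 / 8 := by
  have lb : ∀ i j, a ≤ i → i ≤ j → j ≤ b → (∀ t, i ≤ t → t < j → v t ∈ Bd) →
      dist (p i) (p j) < 1 / 8 := by
    intro i j hi hij hj h
    by_contra hn
    have h3 := hLB _ _ _ ((hc.restrict hi hj h).reach hij) (not_lt.1 hn)
    have h4 : e + 1 ≤ j - i := by exact_mod_cast h3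
    omega
  rcases le_total i0 j with h | h
  · obtain ⟨i, i1, i2, i3, i4⟩ := exists_last (P := fun t => p t ∈ K) h h0
    refine ⟨p i, i3, ?_⟩
    have key : ∀ k, i ≤ k → k ≤ j → dist (p i) (p k) < 1 / 8 := by
      intro k
      induction k using Nat.strong_induction_on with
      | _ k ih =>
      intro hik hkj
      refine lb i k (by omega) hik (by omega) fun t t1 t2 => ?_
      refine (hK t (by omega) (by omega) _ i3 _ (hc t (by omega) (by omega)).2.1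
        (ih t t2 t1 (by omega))).resolve_left fun h5 => i4 (t + 1) (by omega) (by omega) h5.2
    exact key j i2 le_rfl
  · obtain ⟨i, i1, i2, i3, i4⟩ := exists_first (P := fun t => p t ∈ K) h h0
    refine ⟨p i, i3, ?_⟩
    have key : ∀ l k, i - k = l → k ≤ i → j ≤ k → dist (p k) (p i) < 1 / 8 := by
      intro l
      induction l using Nat.strong_induction_on with
      | _ l ih =>
      intro k hl hik hkj
      refine lb k i (by omega) hik (by omega) fun t t1 t2 => ?_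
      refine (hK t (by omega) (by omega) _ i3 _ (hc t (by omega) (by omega)).2.2
        ?_).resolve_left fun h5 => i4 t (by omega) t2 h5.1
      rw [dist_comm]
      exact ih _ (by omega) (t + 1) rfl t2 (by omega)
    rw [dist_comm]
    exact key _ j rfl i1 le_rfl

/-- combinatorial properties of a highway -/
structure HW (n : ℕ) (α β : ℤ × ℤ) (Tc : Finset (ℤ × ℤ)) (Wc : Finset ((ℤ × ℤ) × Bool))
    (lab : ℤ × ℤ → ℤ) : Prop where
  boxT : ∀ t ∈ Tc, InBox n t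
  intW : ∀ w ∈ Wc, Intr n w.1
  αT : α ∈ Tc
  βT : β ∈ Tc
  loT : ∀ w ∈ Wc, lo w ∈ Tc
  hiT : ∀ w ∈ Wc, hi w ∈ Tc
  gapW : ∀ w ∈ Wc, ∀ w' ∈ Wc, w.1 = w'.1 ∨ Gap w.1 w'.1
  gapT : ∀ t ∈ Tc, ∀ t' ∈ Tc, lab t ≠ lab t' → Gap t t'
  close : ∀ t ∈ Tc, ∀ t' ∈ Tc, lab t = lab t' → |t.1 - t'.1| ≤ 6 ∧ |t.2 - t'.2| ≤ 6
  intT : ∀ t ∈ Tc, Intr n t ∨ t = α ∨ t = β

lemma Intr.inBox {n : ℕ} {c : ℤ × ℤ} (h : Intr n c) : InBox n c := by
  unfold Intr at h; unfold InBox; omega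

section
variable {n : ℕ} {α β : ℤ × ℤ} {Tc : Finset (ℤ × ℤ)} {Wc : Finset ((ℤ × ℤ) × Bool)}
  {lab : ℤ × ℤ → ℤ} {A A' : Set Cell} {p : ℕ → Pt} {v : ℕ → Cell} {a b e1 e2 : ℕ}

/-- a short chain without `T` tiles stays close to an interior cell -/
lemma stay (hA : ∀ v : Cell, cl v ∉ Tc → (∀ w ∈ Wc, cl v ≠ w.1) → (v ∈ A ↔ v ∈ A'))
    (hLB : LBs {v | v ∈ A ∧ InBox n (anc 0 v).2} (1 / 8) (e2 + 1)) (hc : IsCh A' p v a b)
    (hab : b ≤ a + e2) (hT : ∀ t, a ≤ t → t < b → cl (v t) ∉ Tc) {c : ℤ × ℤ} (hi : Intr n c)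
    (hW : ∀ t, a ≤ t → t < b → ∀ w ∈ Wc, cl (v t) = w.1 → w.1 = c ∨ Gap w.1 c)
    {i0 : ℕ} (h1 : a ≤ i0) (h2 : i0 ≤ b) (h0 : p i0 ∈ sq (gc c)) {j : ℕ} (hj1 : a ≤ j)
    (hj2 : j ≤ b) : ∃ z ∈ sq (gc c), dist z (p j) < 1 / 8 := by
  refine near hc hLB hab (fun t t1 t2 z hz q hq hd => ?_) h1 h2 h0 hj1 hj2
  have hg : ¬ Gap (cl (v t)) c := fun hg => by
    have := hg.symm.dist hz (mem_cl hq)
    linarith
  obtain ⟨c1, c2, c3⟩ := hc t t1 t2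
  by_cases e : cl (v t) = c
  · exact Or.inl ⟨e ▸ mem_cl c2, e ▸ mem_cl c3⟩
  · refine Or.inr ⟨(hA _ (hT t t1 t2) fun w hw e' => ?_).2 c1, inBox_of_not_gap hg hi⟩
    rcases hW t t1 t2 w hw e' with h | h
    · exact e (e'.trans h)
    · exact hg (e' ▸ h)

/-- a short chain without `T` tiles that meets a gadget and moves crosses it -/
lemma cross (H : HW n α β Tc Wc lab)
    (hA : ∀ v : Cell, cl v ∉ Tc → (∀ w ∈ Wc, cl v ≠ w.1) → (v ∈ A ↔ v ∈ A'))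
    (hLB : LBs {v | v ∈ A ∧ InBox n (anc 0 v).2} (1 / 8) (e2 + 1)) {w : (ℤ × ℤ) × Bool}
    (hw : w ∈ Wc) (hLB' : LBs {v | InBox n (anc 0 v).2 ∧ ((v ∈ A ∧ ¬ Below (gc w.1) v) ∨
      (v ∈ A' ∧ Below (gc w.1) v ∧ NonCore (embo (gc w.1) w.2) v))} (1 / 8) (e1 + 1))
    (he : e1 ≤ e2) (hc : IsCh A' p v a b) (hab : b ≤ a + e1)
    (hT : ∀ t, a ≤ t → t < b → cl (v t) ∉ Tc) {k : ℕ} (k1 : a ≤ k) (k2 : k < b)
    (hk : cl (v k) = w.1) (hd : 1 ≤ dist (p a) (p b)) :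
    (∀ t, a ≤ t → t < b → Below (gc w.1) (v t)) ∧
      (((embo (gc w.1) w.2).φ (p a) ∈ L0 ∧ (embo (gc w.1) w.2).φ (p b) ∈ L1) ∨
       ((embo (gc w.1) w.2).φ (p a) ∈ L1 ∧ (embo (gc w.1) w.2).φ (p b) ∈ L0)) := by
  set σ := embo (gc w.1) w.2 with hσ
  have h1 : ∀ j, a ≤ j → j ≤ b → ∃ z ∈ sq (gc w.1), dist z (p j) < 1 / 8 := fun j j1 j2 =>
    stay hA hLB hc (by omega) hT (H.intW w hw) (fun t _ _ w' hw' _ => H.gapW w' hw' w hw)
      k1 k2.le (hk ▸ mem_cl (hc k k1 k2).2.1) j1 j2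
  have h2 : ∀ t, a ≤ t → t < b → (p t ∈ Row σ ∧ p (t + 1) ∈ Row σ) ∨
      v t ∈ {v | InBox n (anc 0 v).2 ∧ ((v ∈ A ∧ ¬ Below (gc w.1) v) ∨
        (v ∈ A' ∧ Below (gc w.1) v ∧ NonCore σ v))} := by
    intro t t1 t2
    obtain ⟨c1, c2, c3⟩ := hc t t1 t2
    obtain ⟨z, hz, hzd⟩ := h1 t t1 t2.le
    have hg : ¬ Gap (cl (v t)) w.1 := fun hg => by
      have := hg.symm.dist hz (mem_cl c2)
      linarith
    have hb := inBox_of_not_gap hg (H.intW w hw)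
    by_cases e : cl (v t) = w.1
    · by_cases hn : NonCore σ (v t)
      · exact Or.inr ⟨hb, Or.inr ⟨c1, below_gc.2 e, hn⟩⟩
      · exact Or.inl ⟨sub_Row hn c2, sub_Row hn c3⟩
    · refine Or.inr ⟨hb, Or.inl ⟨(hA _ (hT t t1 t2) fun w' hw' e' => ?_).2 c1,
        fun h => e (below_gc.1 h)⟩⟩
      rcases H.gapW w' hw' w hw with h | h
      · exact e (e'.trans h)
      · exact hg (e' ▸ h)
  have h3 : ∃ i, a ≤ i ∧ i ≤ b ∧ p i ∈ Row σ := by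
    by_contra hn
    push Not at hn
    have h4 := hLB' _ _ _ ((hc.restrict le_rfl le_rfl fun t t1 t2 =>
      (h2 t t1 t2).resolve_left fun h => hn t t1 t2.le h.1).reach (by omega)) (by linarith)
    have h5 : e1 + 1 ≤ b - a := by exact_mod_cast h4
    omega
  obtain ⟨i, i1, i2, i3⟩ := h3
  have h4 : ∀ j, a ≤ j → j ≤ b → -1 / 8 < (σ.φ (p j)).1 ∧ (σ.φ (p j)).1 < 9 / 8 ∧
      1 / 8 < (σ.φ (p j)).2 ∧ (σ.φ (p j)).2 < 5 / 8 := by
    intro j j1 j2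
    obtain ⟨z, ⟨z1, z2, z3, z4⟩, hzd⟩ :=
      near hc hLB' hab (fun t t1 t2 _ _ _ _ _ => h2 t t1 t2) i1 i2 i3 j1 j2
    rw [← dist_embo w] at hzd
    have d1 := abs_le.1 (dist_fst (σ.φ z) (σ.φ (p j)))
    have d2 := abs_le.1 (dist_snd (σ.φ z) (σ.φ (p j)))
    exact ⟨by linarith, by linarith, by linarith, by linarith⟩
  have h5 : ∀ t, a ≤ t → t < b → cl (v t) = w.1 := by
    intro t t1 t2
    obtain ⟨b1, b2, b3, b4⟩ := h4 t t1 t2.le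
    rcases row_cell w (mem_cl (hc t t1 t2).2.1) (by linarith) (by linarith) (by linarith)
      (by linarith) with h | h | h
    · exact absurd (h ▸ H.loT w hw) (hT t t1 t2)
    · exact h
    · exact absurd (h ▸ H.hiT w hw) (hT t t1 t2)
  refine ⟨fun t t1 t2 => below_gc.2 (h5 t t1 t2), ?_⟩
  have ha : p a ∈ sq (gc w.1) := h5 a le_rfl (by omega) ▸ mem_cl (hc a le_rfl (by omega)).2.1
  have hb : p b ∈ sq (gc w.1) := by
    have := mem_cl (hc (b - 1) (by omega) (by omega)).2.2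
    rwa [h5 (b - 1) (by omega) (by omega), Nat.sub_add_cancel (by omega)] at this
  rw [← (g_row w).2.1, ← Sim.mem_sq', mem_sq_zero] at ha hb
  rw [← dist_embo w, Prod.dist_eq, Real.dist_eq, Real.dist_eq, le_max_iff, le_abs, le_abs] at hd
  obtain ⟨-, -, a3, a4⟩ := h4 a le_rfl (by omega)
  obtain ⟨-, -, b3, b4⟩ := h4 b (by omega) le_rfl
  simp only [Int.cast_zero, zero_add] at ha hb
  rcases hd with (h | h) | h | h
  · exact Or.inr ⟨le_antisymm ha.2.1 (by linarith [hb.1]), le_antisymm (by linarith [ha.2.1]) hb.1⟩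
  · exact Or.inl ⟨le_antisymm (by linarith [hb.2.1]) ha.1, le_antisymm hb.2.1 (by linarith [ha.1])⟩
  · linarith
  · linarith

/-- the abstract crossing lemma -/
lemma main (H : HW n α β Tc Wc lab) {x y : Pt} {m xW : ℕ}
    (hA : ∀ v : Cell, cl v ∉ Tc → (∀ w ∈ Wc, cl v ≠ w.1) → (v ∈ A ↔ v ∈ A'))
    {p0 : ℕ → Pt} {v0 : ℕ → Cell} (hG0 : Geod A {x} {y} p0 v0) {i0 j0 : ℕ} (hij : i0 ≤ j0)
    (hj0 : j0 < dS A {x} {y}) (hα : cl (v0 i0) = α) (hβ : cl (v0 j0) = β)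
    (hm : i0 + 4 * m ≤ j0 + 1)
    (hR : ∀ p ∈ Box n, ∀ p' ∈ Box n, dist p p' ≤ 10 → Reach A m p p')
    (hLB : LBs {v | v ∈ A ∧ InBox n (anc 0 v).2} (1 / 8) (e2 + 1))
    (hLB' : ∀ w ∈ Wc, LBs {v | InBox n (anc 0 v).2 ∧ ((v ∈ A ∧ ¬ Below (gc w.1) v) ∨
      (v ∈ A' ∧ Below (gc w.1) v ∧ NonCore (embo (gc w.1) w.2) v))} (1 / 8) (e1 + 1))
    (hTT : ∀ t ∈ Tc, ∀ t' ∈ Tc, ∀ p ∈ sq (gc t), ∀ p' ∈ sq (gc t'), Reach A' e1 p p')
    (hWW : ∀ w ∈ Wc, ∀ p ∈ sq (gc w.1), ∀ p' ∈ sq (gc w.1), Reach A' xW p p')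
    (he1 : e1 + 2 * xW ≤ e2) (he2 : e2 ≤ m) (hm1 : 1 ≤ m) (hG : Geod A' {x} {y} p v) :
    ∃ w ∈ Wc, ∃ i j, i < j ∧ j ≤ dS A' {x} {y} ∧
      (∀ t, i ≤ t → t < j → Below (gc w.1) (v t)) ∧
      (((embo (gc w.1) w.2).φ (p i) ∈ L0 ∧ (embo (gc w.1) w.2).φ (p j) ∈ L1) ∨
       ((embo (gc w.1) w.2).φ (p i) ∈ L1 ∧ (embo (gc w.1) w.2).φ (p j) ∈ L0)) := by
  let Sg : ℤ × ℤ → Prop := fun u => u ∈ Tc ∨ ∃ w ∈ Wc, u = w.1
  have hS : ∀ v : Cell, ¬ Sg (cl v) → (v ∈ A ↔ v ∈ A') := fun v h =>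
    hA v (fun h' => h (Or.inl h')) fun w hw h' => h (Or.inr ⟨w, hw, h'⟩)
  have hbox : ∀ u, Sg u → InBox n u := by
    rintro u (h | ⟨w, hw, rfl⟩)
    exacts [H.boxT u h, (H.intW w hw).inBox]
  have toT : ∀ u, Sg u → ∀ q ∈ sq (gc u), ∃ t ∈ Tc, ∃ q' ∈ sq (gc t), Reach A' xW q q' := by
    rintro u (h | ⟨w, hw, rfl⟩) q hq
    · exact ⟨u, h, q, hq, Reach.refl _ _⟩
    · obtain ⟨q', h1, h2⟩ := touch (u := lo w) (c := w.1) (by
        unfold Gap lo; split_ifs <;> dsimp only <;> omega)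
      exact ⟨lo w, H.loT w hw, q', h1, hWW w hw q hq q' h2⟩
  have hSS : ∀ u, Sg u → ∀ u', Sg u' → ∀ q ∈ sq (gc u), ∀ q' ∈ sq (gc u'), Reach A' e2 q q' := by
    intro u hu u' hu' q hq q' hq'
    obtain ⟨t, ht, r, hr, h1⟩ := toT u hu q hq
    obtain ⟨t', ht', r', hr', h2⟩ := toT u' hu' q' hq'
    exact ((h1.trans (hTT t ht t' ht' r hr r' hr')).trans h2.symm).mono_n (by omega)
  set d := dS A {x} {y} with hd
  set d' := dS A' {x} {y} with hd'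
  have hx0 : p0 0 = x := hG0.2.1
  have hy0 : p0 d = y := hG0.2.2
  have hx : p 0 = x := hG.2.1
  have hy : p d' = y := hG.2.2
  -- the shortcut
  have short : d' + 4 * m ≤ d + e2 := by
    obtain ⟨s, -, s2, s3, s4⟩ := exists_first (P := fun t => Sg (cl (v0 t))) (Nat.zero_le i0)
      (Or.inl (hα ▸ H.αT))
    obtain ⟨e, e1', e2', e3, e4⟩ := exists_last (P := fun t => Sg (cl (v0 t)))
      (show j0 ≤ d - 1 by omega) (Or.inl (hβ ▸ H.βT))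
    have r1 := (hG0.1.restrict (B := A') le_rfl (show s ≤ d by omega) fun t t1 t2 =>
      (hS _ (s4 t t1 t2)).1 (hG0.1 t t1 (by omega)).1).reach (Nat.zero_le _)
    have r2 := hSS _ s3 _ e3 _ (mem_cl (hG0.1 s (Nat.zero_le _) (by omega)).2.1) _
      (mem_cl (hG0.1 e (Nat.zero_le _) (by omega)).2.2)
    have r3 := (hG0.1.restrict (B := A') (Nat.zero_le (e + 1)) le_rfl fun t t1 t2 =>
      (hS _ (e4 t t1 (by omega))).1 (hG0.1 t (Nat.zero_le _) t2).1).reach (by omega)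
    have := dS_le hG0.2.1 hG0.2.2 ((r1.trans r2).trans r3)
    omega
  -- the new geodesic meets the highway
  have hex : ∃ k, k < d' ∧ Sg (cl (v k)) := by
    by_contra hn
    push Not at hn
    have r := (hG.1.restrict (B := A) le_rfl le_rfl fun t t1 t2 =>
      (hS _ (hn t t2)).2 (hG.1 t t1 t2).1).reach (Nat.zero_le _)
    have := dS_le hG.2.1 hG.2.2 r
    omega
  obtain ⟨k, k1, k2⟩ := hex
  obtain ⟨s, -, s2, s3, s4⟩ := exists_first (P := fun t => Sg (cl (v t))) (Nat.zero_le k) k2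
  obtain ⟨e, e1', e2', e3, e4⟩ := exists_last (P := fun t => Sg (cl (v t)))
    (show k ≤ d' - 1 by omega) k2
  have hz := mem_cl (hG.1 s (Nat.zero_le _) (by omega)).2.1
  have hz' := mem_cl (hG.1 e (Nat.zero_le _) (by omega)).2.2
  have hse : e + 1 ≤ s + e2 := hG.le (by omega) (by omega) (hSS _ s3 _ e3 _ hz _ hz')
  have far : 10 < dist (p s) (p (e + 1)) := by
    by_contra hn
    have r2 := hR _ (mem_Box (hbox _ s3) hz) _ (mem_Box (hbox _ e3) hz') (not_lt.1 hn)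
    have r1 := (hG.1.restrict (B := A) le_rfl (show s ≤ d' by omega) fun t t1 t2 =>
      (hS _ (s4 t t1 t2)).2 (hG.1 t t1 (by omega)).1).reach (Nat.zero_le _)
    have r3 := (hG.1.restrict (B := A) (Nat.zero_le (e + 1)) le_rfl fun t t1 t2 =>
      (hS _ (e4 t t1 (by omega))).2 (hG.1 t (Nat.zero_le _) t2).1).reach (by omega)
    have := dS_le hG.2.1 hG.2.2 ((r1.trans r2).trans r3)
    omega
  -- moves without `T` tiles starting in a gadget are short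
  have mv : ∀ a b, s ≤ a → b ≤ e + 1 → (∀ t, a ≤ t → t < b → cl (v t) ∉ Tc) →
      ∀ w ∈ Wc, ∀ i, a ≤ i → i ≤ b → p i ∈ sq (gc w.1) → ∀ j, a ≤ j → j ≤ b →
      dist (p i) (p j) ≤ 9 / 8 := by
    intro a b ha hb hT w hw i i1 i2 i3 j j1 j2
    obtain ⟨z, z1, z2⟩ := stay hA hLB (hG.1.sub (Nat.zero_le a) (show b ≤ d' by omega))
      (by omega) hT (H.intW w hw) (fun t _ _ w' hw' _ => H.gapW w' hw' w hw) i1 i2 i3 j1 j2
    linarith [dist_triangle (p i) z (p j), dist_le_one i3 z1]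
  have hexT : ∃ k, s ≤ k ∧ k ≤ e ∧ cl (v k) ∈ Tc := by
    by_contra hn
    push Not at hn
    obtain ⟨w, hw, hw'⟩ := s3.resolve_left (hn s le_rfl (by omega))
    have := mv s (e + 1) le_rfl le_rfl (fun t t1 t2 => hn t t1 (by omega)) w hw s le_rfl
      (by omega) (hw' ▸ hz) (e + 1) (by omega) le_rfl
    linarith
  obtain ⟨l, l1, l2, l3⟩ := hexT
  obtain ⟨s', a1, a2, a3, a4⟩ := exists_first (P := fun t => cl (v t) ∈ Tc) l1 l3
  obtain ⟨e', b1, b2, b3, b4⟩ := exists_last (P := fun t => cl (v t) ∈ Tc) l2 l3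
  have d1 : dist (p s) (p s') ≤ 9 / 8 := by
    rcases a1.eq_or_lt with h | h
    · rw [h, dist_self]; norm_num
    · obtain ⟨w, hw, hw'⟩ := s3.resolve_left (a4 s le_rfl h)
      exact mv s s' le_rfl (by omega) a4 w hw s le_rfl a1 (hw' ▸ hz) s' a1 le_rfl
  have d2 : dist (p (e + 1)) (p (e' + 1)) ≤ 9 / 8 := by
    rcases b2.eq_or_lt with h | h
    · rw [h, dist_self]; norm_num
    · obtain ⟨w, hw, hw'⟩ := e3.resolve_left (b4 e h le_rfl)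
      exact mv (e' + 1) (e + 1) (by omega) le_rfl (fun t t1 t2 => b4 t t1 (by omega)) w hw
        (e + 1) (by omega) le_rfl (hw' ▸ hz') (e' + 1) le_rfl (by omega)
  have hlab : lab (cl (v e')) ≠ lab (cl (v s')) := by
    intro h
    obtain ⟨c1, c2⟩ := H.close _ b3 _ a3 h
    have := dist_le_seven c1 c2 (mem_cl (hG.1 e' (Nat.zero_le _) (by omega)).2.2)
      (mem_cl (hG.1 s' (Nat.zero_le _) (by omega)).2.1)
    have t1 := dist_triangle4 (p s) (p s') (p (e' + 1)) (p (e + 1))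
    rw [dist_comm (p s'), dist_comm (p (e' + 1)) (p (e + 1))] at t1
    linarith
  -- consecutive visits with different labels
  obtain ⟨j, j1, j2, ⟨j3, j4⟩, j5⟩ := exists_first
    (P := fun t => cl (v t) ∈ Tc ∧ lab (cl (v t)) ≠ lab (cl (v s'))) (a2.trans b1) ⟨b3, hlab⟩
  have hsj : s' < j := lt_of_le_of_ne j1 fun h => j4 (by rw [h])
  obtain ⟨i, i1, i2, i3, i4⟩ := exists_last (P := fun t => cl (v t) ∈ Tc)
    (show s' ≤ j - 1 by omega) a3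
  have hl : lab (cl (v i)) ≠ lab (cl (v j)) := by
    have : lab (cl (v i)) = lab (cl (v s')) := by
      by_contra h
      exact j5 i i1 (by omega) ⟨i3, h⟩
    rw [this]
    exact j4.symm
  have hpa := mem_cl (hG.1 i (Nat.zero_le _) (by omega)).2.2
  have hpb := mem_cl (hG.1 j (Nat.zero_le _) (by omega)).2.1
  have hgap := H.gapT _ i3 _ j3 hl
  have hdist := hgap.dist hpa hpb
  have hlen : j ≤ i + 1 + e1 := hG.le (by omega) (by omega) (hTT _ i3 _ j3 _ hpa _ hpb)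
  have hT : ∀ t, i + 1 ≤ t → t < j → cl (v t) ∉ Tc := fun t t1 t2 => i4 t t1 (by omega)
  have hch := hG.1.sub (Nat.zero_le (i + 1)) (show j ≤ d' by omega)
  by_cases hW : ∃ k, i + 1 ≤ k ∧ k < j ∧ ∃ w ∈ Wc, cl (v k) = w.1
  · obtain ⟨k, c1, c2, w, hw, c3⟩ := hW
    exact ⟨w, hw, i + 1, j, by omega, by omega,
      cross H hA hLB hw (hLB' w hw) (by omega) hch hlen hT c1 c2 c3 hdist⟩
  exfalso
  push Not at hW
  have n1 : ¬ Intr n (cl (v i)) := fun h => by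
    obtain ⟨z, z1, z2⟩ := stay hA hLB hch (by omega) hT h
      (fun t t1 t2 w hw h' => absurd h' (hW t t1 t2 w hw)) le_rfl (by omega) hpa
      (show i + 1 ≤ j by omega) le_rfl
    linarith [hgap.dist z1 hpb]
  have n2 : ¬ Intr n (cl (v j)) := fun h => by
    obtain ⟨z, z1, z2⟩ := stay hA hLB hch (by omega) hT h
      (fun t t1 t2 w hw h' => absurd h' (hW t t1 t2 w hw)) (show i + 1 ≤ j by omega) le_rfl hpb
      le_rfl (show i + 1 ≤ j by omega)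
    linarith [hgap.symm.dist z1 hpa]
  have r := (hch.restrict (B := A) le_rfl le_rfl fun t t1 t2 =>
    (hA _ (hT t t1 t2) (hW t t1 t2)).2 (hch t t1 t2).1).reach (show i + 1 ≤ j by omega)
  have hu : p0 i0 ∈ sq (gc α) := hα ▸ mem_cl (hG0.1 i0 (Nat.zero_le _) (by omega)).2.1
  have hu' : p0 (j0 + 1) ∈ sq (gc β) := hβ ▸ mem_cl (hG0.1 j0 (Nat.zero_le _) (by omega)).2.2
  have fin : ∀ q ∈ sq (gc α), ∀ q' ∈ sq (gc β), ¬ Reach A (j - (i + 1)) q q' := by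
    intro q hq q' hq' hr
    have bα := H.boxT _ H.αT
    have bβ := H.boxT _ H.βT
    have r1 := hR _ (mem_Box bα hu) _ (mem_Box bα hq) (by linarith [dist_le_one hu hq])
    have r2 := hR _ (mem_Box bβ hq') _ (mem_Box bβ hu') (by linarith [dist_le_one hq' hu'])
    have := hG0.le (by omega) (by omega) ((r1.trans hr).trans r2)
    omega
  rcases (H.intT _ i3).resolve_left n1 with h1 | h1 <;>
    rcases (H.intT _ j3).resolve_left n2 with h2 | h2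
  · exact hl (by rw [h1, h2])
  · exact fin _ (h1 ▸ hpa) _ (h2 ▸ hpb) r
  · exact fin _ (h2 ▸ hpb) _ (h1 ▸ hpa) r.symm
  · exact hl (by rw [h1, h2])

end

end Pool.Agent.P.MP_8c7dae_pr.Highway
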