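import Pool.Agent.P.MP_8c7dae_pr.ImpE

open MeasureTheory Set Filter

namespace Pool.Agent.P.MP_8c7dae_pr

lemma E_le_of_sq {N : ℕ} {f : Om → ℝ} (hf : Nice f) {b : ℝ} (hb : 0 ≤ b)
    (h : E N (fun ω => f ω ^ 2) ≤ b ^ 2) : E N f ≤ b :=
  (abs_le_of_sq_le_sq' ((E_sq_le hf).trans h) hb).2

lemma E_ind_le {N : ℕ} {A : Om → Prop} (hA : Elem A) {f : Om → ℝ} (hf : Nice f) {b θ C2 p : ℝ}
    (hb : 0 < b) (hθ : 0 < θ) (h : E N (fun ω => f ω ^ 2) ≤ C2 * b ^ 2) (hp : Pr N A ≤ p) :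
    E N (fun ω => ind (A ω) * f ω) ≤ (θ * C2 + p / θ) * b := by
  have h1 := E_mono (N := N) (hA.ind.mul hf) (((hf.pow 2).cmul (θ / b)).add (hA.ind.cmul (b / θ)))
    fun ω => by
      by_cases hω : A ω
      · rw [ind_pos hω]
        have h2 : 0 ≤ θ / b * (f ω - b / θ) ^ 2 + θ / b * f ω ^ 2 + b / θ := by positivity
        have h3 : θ / b * (f ω - b / θ) ^ 2 = θ / b * f ω ^ 2 - 2 * f ω + b / θ := by
          field_simp; ring
        linarith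
      · rw [ind_neg hω]
        have : 0 ≤ θ / b * f ω ^ 2 := by positivity
        linarith
  rw [E_add ((hf.pow 2).cmul _) (hA.ind.cmul _), E_cmul, E_cmul] at h1
  have h2 := mul_le_mul_of_nonneg_left h (by positivity : 0 ≤ θ / b)
  have h3 := mul_le_mul_of_nonneg_left hp (by positivity : 0 ≤ b / θ)
  have e : (θ * C2 + p / θ) * b = θ / b * (C2 * b ^ 2) + b / θ * p := by field_simp
  unfold Pr at h3
  linarith

lemma pair {N k1 k2 H w D h : ℕ} {x y : Pt} (hx : x ∈ Q) (hy : y ∈ Q)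
    {A1 A2 C κ1 κ5 γ K K0 κ ζ η e1 e2 e3 : ℝ} {G : ℕ → Om → Prop} {Bad : Om → Prop}
    (hD : 1 ≤ D) (hA1 : 0 < A1) (hA2 : 0 < A2) (hκ : 0 ≤ κ) (hκC : κ ≤ C) (hζ : 0 < ζ)
    (hη : 0 ≤ η) (hK : 0 ≤ K) (hK0 : 0 ≤ K0) (hκ5 : 0 ≤ κ5)
    (hκγ : κ * (2 * (4 * K ^ 2 + 2 * K0 + 1)) * ((2 ^ H) ^ 2) ^ 2 ≤ κ5 * γ)
    (hG : ∀ j, Elem (G j)) (hGX : ∀ j ω, G j ω → (X ω j : ℝ) ≤ K0 * a N j)
    (hcore : ∀ c, Below root c → ∀ α β : ℤ × ℤ, InBox (2 ^ H) α → InBox (2 ^ H) β →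
      ∃ Sg ⊆ Deep (c.1 + H), ∀ ω, Opp N k1 H w κ1 G x y c α β ω →
        γ ≤ Res N Sg (fun ω => ind (Sh N k1 k2 A1 A2 C κ5 x y c ω)) ω)
    (eBad : Elem Bad) (hw : w * N ≤ k1)
    (hBad : ∀ ω, ¬ Bad ω → (∀ c ∈ desc (D + D * h + H) root, S ω c ≤ w * N) ∧
      ∀ (p : ℕ → Pt) (v : ℕ → Cell) (n : ℕ), IsCh (TQ ω k1) p v 0 n → ∀ τ ≤ n,
        1 < 2 ^ D * dist (p τ) (p 0) → 1 < 2 ^ D * dist (p τ) (p n) →
        ∃ J ⊆ Finset.range D, D ≤ 2 * J.card ∧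
          ∀ j ∈ J, GoodInt N ω k1 k1 v n τ G κ1 K (D + j * h) h)
    (c1 : E N (fun ω => ((d ω k1 x y : ℝ) - Res N (Deep D) (fun ω => (d ω k1 x y : ℝ)) ω) ^ 2) ≤
      e1 * A1 ^ 2)
    (c2 : E N (fun ω => ((d ω k2 x y : ℝ) - Res N (Deep D) (fun ω => (d ω k2 x y : ℝ)) ω) ^ 2) ≤
      e1 * A2 ^ 2)
    (c3 : 4 * E N (fun ω => Mx ω k1 D) + 1 + E N (fun ω => ind (Bad ω) * X ω k1) ≤ e2 * A1)
    (c4 : E N (fun ω => ind (BadEv k1 k2 A1 A2 C η ω) * X ω k2) ≤ e3 * A2) :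
    Pr N (fun ω => (C - κ) * ((d ω k1 x y : ℝ) / A1) + ζ < (d ω k2 x y : ℝ) / A2) ≤
      (9 * e1 + 9 * C ^ 2 * e1 + 3 * ζ * (κ * e2 + (4 ^ (D + D * h) + 1) * (η + e3))) / ζ ^ 2 := by
  have hC : 0 ≤ C := hκ.trans hκC
  have n1 := (elem_d k1 x y).cast
  have n2 := (elem_d k2 x y).cast
  have nS := nice_ShS N k1 k2 D h A1 A2 C κ5 x y
  have nG := nice_Gam N k1 H w D h κ1 hG x y
  set M : ℝ := 4 ^ (D + D * h) + 1 with hM
  have hM0 : 0 ≤ M := by positivity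
  let f2 : Om → ℝ := fun ω => 4 * (Mx ω k1 D : ℝ) + 1 + ind (Bad ω) * X ω k1
  let f3 : Om → ℝ := fun ω => η + ind (BadEv k1 k2 A1 A2 C η ω) * X ω k2 / A2
  have nb := eBad.ind.mul (elem_X k1).cast
  have nb' := (elem_BadEv k1 k2 A1 A2 C η).ind.mul (elem_X k2).cast
  have nm := ((elem_Mx k1 D).cast.cmul 4).add (Nice.const 1)
  have m2 : Nice f2 := nm.add nb
  have m3 : Nice f3 := (Nice.const η).add (nb'.div_const A2)
  have z2 : ∀ ω, 0 ≤ f2 ω := fun ω => by have := ind_nonneg (Bad ω); positivity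
  have z3 : ∀ ω, 0 ≤ f3 ω := fun ω => by
    have := ind_nonneg (BadEv k1 k2 A1 A2 C η ω); positivity
  have p1 : ∀ ω, D / A2 * (d ω k2 x y : ℝ) + κ5 / A1 * ShS N k1 k2 D h A1 A2 C κ5 x y ω ≤
      D * C / A1 * (d ω k1 x y : ℝ) + D * M * f3 ω := fun ω => by
    have := save_avg (N := N) (D := D) (h := h) (κ := κ5) hx hy hA1 hA2 hC (z3 ω) fun u hu u' hu' => by
      by_cases hb : BadEv k1 k2 A1 A2 C η ω
      · have h1 : (d ω k2 u u' : ℝ) / A2 ≤ X ω k2 / A2 :=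
          div_le_div_of_nonneg_right (by exact_mod_cast d_le_X hu hu') hA2.le
        have h2 : 0 ≤ C * ((d ω k1 u u' : ℝ) / A1) := by positivity
        simp only [f3, ind_pos hb, one_mul]
        linarith
      · simp only [f3, ind_neg hb, zero_mul, zero_div, add_zero]
        exact not_lt.1 fun hlt => hb ⟨u, hu, u', hu', hlt⟩
    have e1 : D / A2 * (d ω k2 x y : ℝ) = D * (d ω k2 x y / A2) := by ring
    have e2 : D * C / A1 * (d ω k1 x y : ℝ) = D * (C * (d ω k1 x y / A1)) := by ring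
    linarith
  have p2 : ∀ ω, D * (d ω k1 x y : ℝ) ≤
      2 * (4 * K ^ 2 + 2 * K0 + 1) * Gam N k1 H w D h κ1 G x y ω + D * f2 ω := fun ω => by
    by_cases hb : Bad ω
    · have h1 : (d ω k1 x y : ℝ) ≤ f2 ω := by
        have : (d ω k1 x y : ℝ) ≤ X ω k1 := by exact_mod_cast d_le_X hx hy
        have : (0 : ℝ) ≤ Mx ω k1 D := by positivity
        simp only [f2, ind_pos hb]
        linarith
      have h2 := mul_le_mul_of_nonneg_left h1 (Nat.cast_nonneg (α := ℝ) D)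
      have h3 := Gam_nonneg N k1 H w D h κ1 G x y ω
      have : 0 ≤ 2 * (4 * K ^ 2 + 2 * K0 + 1) * Gam N k1 H w D h κ1 G x y ω := by positivity
      linarith
    · have := charge hx hy hK hK0 hGX (hBad ω hb).1 hw (hBad ω hb).2
      simp only [f2, ind_neg hb]
      linarith
  have key : ∀ ω, Res N (Deep D) (fun ω => (d ω k2 x y : ℝ)) ω / A2 ≤
      (C - κ) * (Res N (Deep D) (fun ω => (d ω k1 x y : ℝ)) ω / A1) +
        Res N (Deep D) (fun ω => κ / A1 * f2 ω + M * f3 ω) ω := fun ω => by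
    have q1 := Res_mono (N := N) ((n2.cmul _).add (nS.cmul _)) ((n1.cmul _).add (m3.cmul _)) p1
      (Deep D) ω
    have q2 := Res_mono (N := N) (n1.cmul _) ((nG.cmul _).add (m2.cmul _)) p2 (Deep D) ω
    have q3 := res_gam (D := D) (h := h) hG hcore ω
    have q4 := Res_nonneg (N := N) (Gam_nonneg N k1 H w D h κ1 G x y) (Deep D) ω
    rw [Res_add (n2.cmul _) (nS.cmul _), Res_add (n1.cmul _) (m3.cmul _), Res_cmul, Res_cmul,
      Res_cmul, Res_cmul] at q1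
    rw [Res_add (nG.cmul _) (m2.cmul _), Res_cmul, Res_cmul, Res_cmul] at q2
    rw [Res_add (m2.cmul _) (m3.cmul _), Res_cmul, Res_cmul]
    set R1 := Res N (Deep D) (fun ω => (d ω k1 x y : ℝ)) ω
    set R2 := Res N (Deep D) (fun ω => (d ω k2 x y : ℝ)) ω
    set RS := Res N (Deep D) (ShS N k1 k2 D h A1 A2 C κ5 x y) ω
    set RG := Res N (Deep D) (Gam N k1 H w D h κ1 G x y) ω
    set F2 := Res N (Deep D) f2 ω
    set F3 := Res N (Deep D) f3 ω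
    have hn : (0 : ℝ) < ((2 ^ H) ^ 2) ^ 2 := by positivity
    have r1 := mul_le_mul_of_nonneg_right hκγ q4
    have r2 := mul_le_mul_of_nonneg_left q3 hκ5
    have r3 : κ * (2 * (4 * K ^ 2 + 2 * K0 + 1)) * RG ≤ κ5 * RS :=
      le_of_mul_le_mul_left (a := ((2 ^ H) ^ 2) ^ 2) (by linarith) hn
    have r4 := mul_le_mul_of_nonneg_left q2 hκ
    have r5 : D * (κ * R1) / A1 ≤ (κ5 * RS + D * (κ * F2)) / A1 :=
      div_le_div_of_nonneg_right (by linarith) hA1.le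
    have hD' : (0 : ℝ) < D := by exact_mod_cast hD
    refine le_of_mul_le_mul_left ?_ hD'
    have t1 : D * (R2 / A2) = D / A2 * R2 := by ring
    have t2 : D * ((C - κ) * (R1 / A1) + (κ / A1 * F2 + M * F3)) =
      D * C / A1 * R1 - D * (κ * R1) / A1 + (κ5 * RS + D * (κ * F2)) / A1 - κ5 / A1 * RS +
        D * M * F3 := by ring
    linarith
  have m4 := (m2.cmul (κ / A1)).add (m3.cmul M)
  have u1 := (n1.sub (n1.res N (Deep D))).pow 2
  have u2 := (n2.sub (n2.res N (Deep D))).pow 2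
  have z4 : ∀ ω, 0 ≤ Res N (Deep D) (fun ω => κ / A1 * f2 ω + M * f3 ω) ω :=
    Res_nonneg (fun ω => by have := z2 ω; have := z3 ω; positivity) _
  refine (Pr_le_E_div ((elem_d k1 x y).map₂ (elem_d k2 x y) fun s t =>
    (C - κ) * ((s : ℝ) / A1) + ζ < (t : ℝ) / A2)
    (((u2.cmul (9 / A2 ^ 2)).add (u1.cmul (9 * C ^ 2 / A1 ^ 2))).add
      ((m4.res N (Deep D)).cmul (3 * ζ))) (t := ζ ^ 2) (by positivity)
    (fun ω => by have := z4 ω; positivity) fun ω hω => ?_).trans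
    (div_le_div_of_nonneg_right ?_ (by positivity))
  · have k1' := key ω
    have k2' := z4 ω
    set R1 := Res N (Deep D) (fun ω => (d ω k1 x y : ℝ)) ω
    set R2 := Res N (Deep D) (fun ω => (d ω k2 x y : ℝ)) ω
    set F := Res N (Deep D) (fun ω => κ / A1 * f2 ω + M * f3 ω) ω
    set u := ((d ω k2 x y : ℝ) - R2) / A2 with hu
    set v := (R1 - (d ω k1 x y : ℝ)) / A1 with hv
    have s1 : ζ < u + (C - κ) * v + F := by
      rw [hu, hv, sub_div, sub_div, mul_sub]; linarith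
    have s2 : 9 / A2 ^ 2 * ((d ω k2 x y : ℝ) - R2) ^ 2 = 9 * u ^ 2 := by rw [hu]; ring
    have s3 : 9 * C ^ 2 / A1 ^ 2 * ((d ω k1 x y : ℝ) - R1) ^ 2 = 9 * (C ^ 2 * v ^ 2) := by
      rw [hv]; ring
    have s4 : ((C - κ) * v) ^ 2 ≤ C ^ 2 * v ^ 2 := by
      rw [mul_pow]
      exact mul_le_mul_of_nonneg_right (pow_le_pow_left₀ (by linarith) (by linarith) 2)
        (sq_nonneg v)
    rw [s2, s3]
    nlinarith [sq_nonneg (3 * u - ζ), sq_nonneg (3 * ((C - κ) * v) - ζ), sq_nonneg u,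
      sq_nonneg ((C - κ) * v), mul_lt_mul_of_pos_left s1 hζ]
  · rw [E_add ((u2.cmul _).add (u1.cmul _)) ((m4.res N (Deep D)).cmul _),
      E_add (u2.cmul _) (u1.cmul _), E_cmul, E_cmul, E_cmul, E_Res m4,
      E_add (m2.cmul _) (m3.cmul _), E_cmul, E_cmul]
    have y2 : E N f2 ≤ e2 * A1 := by
      refine le_trans (le_of_eq ?_) c3
      simp only [f2]
      rw [E_add nm nb, E_add ((elem_Mx k1 D).cast.cmul 4) (Nice.const 1), E_cmul, E_const]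
    have y3 : E N f3 ≤ η + e3 := by
      simp only [f3]
      rw [E_add (Nice.const η) (nb'.div_const A2), E_divc, E_const]
      exact add_le_add le_rfl ((div_le_iff₀ hA2).2 c4)
    have y4 := mul_le_mul_of_nonneg_left c2 (by positivity : 0 ≤ 9 / A2 ^ 2)
    have y5 := mul_le_mul_of_nonneg_left c1 (by positivity : 0 ≤ 9 * C ^ 2 / A1 ^ 2)
    have y6 := mul_le_mul_of_nonneg_left y2 (by positivity : 0 ≤ κ / A1)
    have y7 := mul_le_mul_of_nonneg_left y3 hM0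
    rw [show 9 / A2 ^ 2 * (e1 * A2 ^ 2) = 9 * e1 by field_simp] at y4
    rw [show 9 * C ^ 2 / A1 ^ 2 * (e1 * A1 ^ 2) = 9 * C ^ 2 * e1 by field_simp] at y5
    rw [show κ / A1 * (e2 * A1) = κ * e2 by field_simp] at y6
    have y8 := mul_le_mul_of_nonneg_left (add_le_add y6 y7) (by positivity : 0 ≤ 3 * ζ)
    linarith

lemma net {N k1 k2 m : ℕ} {A1 A2 C η δ e : ℝ} (hA1 : 0 < A1) (hA2 : 0 < A2) (hC : 0 ≤ C)
    (hη : 0 < η) (hδ : 0 ≤ δ)
    (hp : ∀ x ∈ Q, ∀ y ∈ Q,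
      Pr N (fun ω => C * ((d ω k1 x y : ℝ) / A1) + η / 3 < (d ω k2 x y : ℝ) / A2) ≤ δ)
    (h1 : E N (fun ω => (Mx ω k1 m : ℝ) ^ 2) ≤ e * A1 ^ 2)
    (h2 : E N (fun ω => (Mx ω k2 m : ℝ) ^ 2) ≤ e * A2 ^ 2) :
    Pr N (BadEv k1 k2 A1 A2 C η) ≤
      ((2 ^ m + 1) ^ 2) ^ 2 * δ + (16 * e + 16 * C ^ 2 * e) / (η / 3) ^ 2 := by
  classical
  let g := (grid m).filter (· ∈ Q)
  have e1 := fun z : Pt × Pt => (elem_d k1 z.1 z.2).map₂ (elem_d k2 z.1 z.2) fun s t =>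
    C * ((s : ℝ) / A1) + η / 3 < (t : ℝ) / A2
  have e2 := Elem.ex (g ×ˢ g) fun z _ => e1 z
  have e3 := (elem_Mx k1 m).map₂ (elem_Mx k2 m) fun s t =>
    2 * (η / 3) ≤ 4 * ((t : ℝ) / A2) + 4 * (C * ((s : ℝ) / A1))
  have u1 := (elem_Mx k1 m).cast.pow 2
  have u2 := (elem_Mx k2 m).cast.pow 2
  refine (Pr_le_add (elem_BadEv k1 k2 A1 A2 C η) e2 e3 fun ω hω => ?_).trans (add_le_add ?_ ?_)
  · obtain ⟨x, hx, y, hy, hlt⟩ := hω
    obtain ⟨x', g1, g2, g3⟩ := exists_grid m hx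
    obtain ⟨y', g4, g5, g6⟩ := exists_grid m hy
    by_contra hc
    push Not at hc
    have a0 := hc.1 (x', y') (Finset.mem_product.2
      ⟨Finset.mem_filter.2 ⟨g1, g2⟩, Finset.mem_filter.2 ⟨g4, g5⟩⟩)
    have a1 : (d ω k2 x y : ℝ) ≤ d ω k2 x' y' + 4 * Mx ω k2 m := by
      have := d_le (((reach_near_one (ω := ω) (k := k2) hx g2 g3).trans (d_spec g2 g5)).trans
        (reach_near_one hy g5 g6).symm)
      exact_mod_cast (by omega : d ω k2 x y ≤ d ω k2 x' y' + 4 * Mx ω k2 m)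
    have a2 : (d ω k1 x' y' : ℝ) ≤ d ω k1 x y + 4 * Mx ω k1 m := by
      have := d_le (((reach_near_one (ω := ω) (k := k1) hx g2 g3).symm.trans (d_spec hx hy)).trans
        (reach_near_one hy g5 g6))
      exact_mod_cast (by omega : d ω k1 x' y' ≤ d ω k1 x y + 4 * Mx ω k1 m)
    have a3 := div_le_div_of_nonneg_right a1 hA2.le
    have a4 := mul_le_mul_of_nonneg_left (div_le_div_of_nonneg_right a2 hA1.le) hC
    rw [add_div, mul_div_assoc] at a3 a4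
    have := hc.2
    simp only at a0
    linarith
  · refine (Pr_le_card _ e2 (fun z _ => e1 z) (fun _ h => h) fun z hz => hp _
      (Finset.mem_filter.1 (Finset.mem_product.1 hz).1).2 _
      (Finset.mem_filter.1 (Finset.mem_product.1 hz).2).2).trans
      (mul_le_mul_of_nonneg_right ?_ hδ)
    have : g.card ≤ (2 ^ m + 1) ^ 2 := (Finset.card_filter_le _ _).trans (card_grid m)
    rw [Finset.card_product, ← pow_two]
    exact_mod_cast Nat.pow_le_pow_left this 2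
  · refine (Pr_le_E_div e3 ((u2.cmul (16 / A2 ^ 2)).add (u1.cmul (16 * C ^ 2 / A1 ^ 2)))
      (t := (η / 3) ^ 2) (by positivity) (fun ω => by positivity) fun ω hω => ?_).trans
      (div_le_div_of_nonneg_right ?_ (by positivity))
    · have s2 : 16 / A2 ^ 2 * (Mx ω k2 m : ℝ) ^ 2 = (4 * (Mx ω k2 m / A2)) ^ 2 := by ring
      have s3 : 16 * C ^ 2 / A1 ^ 2 * (Mx ω k1 m : ℝ) ^ 2 = (4 * (C * (Mx ω k1 m / A1))) ^ 2 := by
        ring
      rw [s2, s3]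
      have := pow_le_pow_left₀ (by positivity) hω 2
      nlinarith [sq_nonneg (4 * ((Mx ω k2 m : ℝ) / A2) - 4 * (C * (Mx ω k1 m / A1))), sq_nonneg η]
    · rw [E_add (u2.cmul _) (u1.cmul _), E_cmul, E_cmul]
      have y4 := mul_le_mul_of_nonneg_left h2 (by positivity : 0 ≤ 16 / A2 ^ 2)
      have y5 := mul_le_mul_of_nonneg_left h1 (by positivity : 0 ≤ 16 * C ^ 2 / A1 ^ 2)
      rw [show 16 / A2 ^ 2 * (e * A2 ^ 2) = 16 * e by field_simp] at y4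
      rw [show 16 * C ^ 2 / A1 ^ 2 * (e * A1 ^ 2) = 16 * C ^ 2 * e by field_simp] at y5
      linarith

end Pool.Agent.P.MP_8c7dae_pr
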