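import Pool.Agent.P.MP_8c7dae_pr.Struct
import Pool.Agent.P.MP_8c7dae_pr.ImpF

open MeasureTheory Set Filter

namespace Pool.Agent.P.MP_8c7dae_pr

lemma exists_small (B : ℝ) {δ : ℝ} (hδ : 0 < δ) : ∃ θ : ℝ, 0 < θ ∧ θ ≤ 1 ∧ θ * B ≤ δ := by
  have h : 0 < |B| + 1 := by positivity
  refine ⟨min 1 (δ / (|B| + 1)), lt_min one_pos (by positivity), min_le_left _ _, ?_⟩
  have h1 : min 1 (δ / (|B| + 1)) * (|B| + 1) ≤ δ := (le_div_iff₀ h).1 (min_le_right _ _)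
  have h2 : 0 ≤ min 1 (δ / (|B| + 1)) := (lt_min one_pos (by positivity)).le
  nlinarith [le_abs_self B]

lemma exists_two_pow (B : ℝ) {δ : ℝ} (hδ : 0 < δ) : ∃ D0 : ℕ, ∀ D, D0 ≤ D → B / 2 ^ D ≤ δ := by
  obtain ⟨D0, h⟩ := exists_nat_ge (B / δ)
  refine ⟨D0, fun D hD => ?_⟩
  rw [div_le_iff₀ hδ] at h
  rw [div_le_iff₀ (by positivity)]
  have h1 : (D0 : ℝ) ≤ 2 ^ D := by exact_mod_cast hD.trans Nat.lt_two_pow_self.le
  nlinarith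

lemma sq_scale {x b β A e : ℝ} (hb : 0 ≤ b) (he : 0 ≤ e) (h1 : x ≤ e * b ^ 2) (h2 : b ≤ β * A) :
    x ≤ e * β ^ 2 * A ^ 2 := by
  have := mul_le_mul_of_nonneg_left (pow_le_pow_left₀ hb h2 2) he
  rw [mul_pow, ← mul_assoc] at this
  linarith

theorem imp (ε g0 Cα : ℝ) (L : ℕ) (hε : 0 < ε) (hg : 0 < g0) (hC : 0 < Cα) (hL : 1 ≤ L) :
    ∃ (L0 L1 : ℕ) (κ : ℝ), 0 < κ ∧ ∀ (ι : Type) (F : Filter ι) (N k1 k2 : ι → ℕ)
      (A1 A2 : ι → ℝ) (Cβ c' C : ℝ),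
      (∀ t : ℕ, ∀ᶠ i in F, 2 ≤ N i ∧ t * N i ≤ k1 i ∧ t * N i ≤ k2 i) → 0 < Cβ →
      (∀ᶠ i in F, (a (N i) (k1 i) : ℝ) ≤ Cβ * A1 i ∧ (a (N i) (k2 i) : ℝ) ≤ Cβ * A2 i) →
      (∀ w : ℕ, ∀ᶠ i in F, ∀ s ≤ w * N i,
        (a (N i) (k2 i - s) : ℝ) / A2 i ≤ Cα * ((a (N i) (k1 i - s) : ℝ) / A1 i)) →
      (∀ w : ℕ, ∀ᶠ i in F, ∀ s ≤ w * N i, ε * Pr (N i) (Gad (N i) L0 L L1) ≤
        Pr (N i) (fun ω => Gad (N i) L0 L L1 ω ∧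
          (Test ω (k2 i - s) : ℝ) / A2 i ≤ c' * ((Test ω (k1 i - s) : ℝ) / A1 i))) →
      0 ≤ c' → c' + g0 ≤ C → Up F N k1 k2 A1 A2 C → Up F N k1 k2 A1 A2 (C - κ) := by
  obtain ⟨h, κ1, K, p2, Cs, hκ1, hK, hp2, hst⟩ := struct
  obtain ⟨H, L0, L1, t1, w1, K0, κ5, γ, G, hK0, hκ5, hγ, eG, dG, pG, xG, hco⟩ :=
    core_res ε g0 Cα κ1 p2 L hε hg hC hL hκ1 hp2
  replace hst := hst G t1 eG dG pG
  obtain ⟨κ, hκ, -, hκ'⟩ := exists_small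
    (2 * (4 * K ^ 2 + 2 * K0 + 1) * ((2 ^ H) ^ 2) ^ 2 / (κ5 * γ) + 1 / g0) one_pos
  have k1' : 0 ≤ κ * (2 * (4 * K ^ 2 + 2 * K0 + 1) * ((2 ^ H) ^ 2) ^ 2 / (κ5 * γ)) := by positivity
  have k2' : 0 ≤ κ * (1 / g0) := by positivity
  rw [mul_add] at hκ'
  have hκγ : κ * (2 * (4 * K ^ 2 + 2 * K0 + 1)) * ((2 ^ H) ^ 2) ^ 2 ≤ κ5 * γ := by
    have : κ * (2 * (4 * K ^ 2 + 2 * K0 + 1) * ((2 ^ H) ^ 2) ^ 2 / (κ5 * γ)) ≤ 1 := by linarith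
    rwa [← mul_div_assoc, div_le_one (by positivity), ← mul_assoc] at this
  have hκg : κ ≤ g0 := by
    have : κ * (1 / g0) ≤ 1 := by linarith
    rwa [mul_one_div, div_le_one hg] at this
  refine ⟨L0, L1, κ, hκ, fun ι F N k1 k2 A1 A2 β c' C ht hβ ha hα hlow hc' hCc hU η hη => ?_⟩
  obtain ⟨C2, hC2, hX⟩ := X_mom 2
  obtain ⟨em, hem, -, bm⟩ := exists_small
    ((16 * β ^ 2 + 16 * (C - κ) ^ 2 * β ^ 2) / (η / 3) ^ 2) (half_pos hη)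
  obtain ⟨m, hm⟩ := Mx_small hem
  obtain ⟨tm, hm⟩ := hm m le_rfl
  obtain ⟨δ, hδ, -, bδ⟩ := exists_small (((2 ^ m + 1) ^ 2) ^ 2) (half_pos hη)
  obtain ⟨θ, hθ, -, bθ⟩ := exists_small
    (9 * β ^ 2 + 9 * C ^ 2 * β ^ 2 + η * (κ * ((6 + C2) * β)))
    (δ := δ * (η / 3) ^ 2 / 2) (by positivity)
  obtain ⟨D1, hD1⟩ := conc hθ
  obtain ⟨D2, hD2⟩ := Mx_small (η := θ ^ 2) (by positivity)
  obtain ⟨D3, hD3⟩ := exists_two_pow Cs (δ := θ ^ 2 / 2) (by positivity)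
  set D := D1 + D2 + D3 + 1
  obtain ⟨tD, hD2⟩ := hD2 D (by omega)
  obtain ⟨w, hst⟩ := hst D H (θ ^ 2 / 2) (by positivity)
  obtain ⟨tb, hb⟩ := exists_big (1 / θ)
  obtain ⟨θ', hθ', hθ1, bθ'⟩ := exists_small (η * ((4 ^ (D + D * h) + 1) * (1 + (C2 + 1) * β)))
    (δ := δ * (η / 3) ^ 2 / 2) (by positivity)
  filter_upwards [ht (w + t1 + tm + tD + tb), ha, hα (w + w1), hlow w,
    hU (θ' ^ 2) (by positivity)] with i i1 i2 i3 i4 i5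
  obtain ⟨hN, j1, j2⟩ := i1
  have le1 : ∀ t, t ≤ w + t1 + tm + tD + tb → t * N i ≤ k1 i := fun t h =>
    (Nat.mul_le_mul_right _ h).trans j1
  have le2 : ∀ t, t ≤ w + t1 + tm + tD + tb → t * N i ≤ k2 i := fun t h =>
    (Nat.mul_le_mul_right _ h).trans j2
  have a1 := a_pos (N i) (k1 i)
  have a2 := a_pos (N i) (k2 i)
  have hA1 : 0 < A1 i := (pos_iff_pos_of_mul_pos (a1.trans_le i2.1)).1 hβ
  have hA2 : 0 < A2 i := (pos_iff_pos_of_mul_pos (a2.trans_le i2.2)).1 hβ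
  obtain ⟨Bad, eBad, pBad, hBad⟩ := hst (N i) hN (k1 i) (k1 i) (le1 _ (by omega))
  refine (net (m := m) (δ := δ) (e := em * β ^ 2) hA1 hA2 (by linarith) hη hδ.le
    (fun x hx y hy => ?_) (sq_scale a1.le hem.le (hm _ hN _ (le1 _ (by omega))) i2.1)
    (sq_scale a2.le hem.le (hm _ hN _ (le2 _ (by omega))) i2.2)).trans ?_
  · refine (pair (D := D) (η := θ' ^ 2) (e1 := θ * β ^ 2) (e2 := θ * ((6 + C2) * β))
      (e3 := θ' * ((C2 + 1) * β)) hx hy (by omega) hA1 hA2 hκ.le (by linarith) (by positivity)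
      (by positivity) hK.le hK0.le hκ5.le hκγ (eG _) (xG _)
      (hco _ hN w _ _ _ _ c' C (le1 _ (by omega)) (le2 _ (by omega)) hA1 hA2 i3 i4 hc' hCc x y)
      eBad (le1 _ (by omega)) hBad
      (sq_scale a1.le hθ.le (hD1 D (by omega) _ hN _ x hx y hy) i2.1)
      (sq_scale a2.le hθ.le (hD1 D (by omega) _ hN _ x hx y hy) i2.2) ?_ ?_).trans ?_
    · have b1 := E_le_of_sq (N := N i) (elem_Mx (k1 i) D).cast (b := θ * a (N i) (k1 i))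
        (by positivity) (by rw [mul_pow]; exact hD2 _ hN _ (le1 _ (by omega)))
      have b2 := hb _ hN _ (le1 tb (by omega))
      rw [div_le_iff₀ hθ] at b2
      have b3 := E_ind_le eBad (elem_X (k1 i)).cast a1 hθ (hX _ hN _) (p := θ ^ 2)
        (by linarith [hD3 D (by omega)])
      rw [show θ ^ 2 / θ = θ by field_simp] at b3
      have b4 := mul_le_mul_of_nonneg_left i2.1 (by positivity : 0 ≤ θ * (6 + C2))
      linarith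
    · have b3 := E_ind_le (elem_BadEv _ _ _ _ _ _) (elem_X (k2 i)).cast a2 hθ' (hX _ hN _) i5
      rw [show θ' ^ 2 / θ' = θ' by field_simp] at b3
      have b4 := mul_le_mul_of_nonneg_left i2.2 (by positivity : 0 ≤ θ' * (C2 + 1))
      linarith
    · rw [div_le_iff₀ (by positivity)]
      have b1 : θ' ^ 2 ≤ θ' := by nlinarith
      have b2 := mul_le_mul_of_nonneg_left b1
        (by positivity : (0 : ℝ) ≤ η * (4 ^ (D + D * h) + 1))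
      linarith
  · have e : (16 * (em * β ^ 2) + 16 * (C - κ) ^ 2 * (em * β ^ 2)) / (η / 3) ^ 2 =
        em * ((16 * β ^ 2 + 16 * (C - κ) ^ 2 * β ^ 2) / (η / 3) ^ 2) := by ring
    linarith

end Pool.Agent.P.MP_8c7dae_pr
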