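import Pool.Agent.P.MP_8c7dae_pr.Defs3
import Pool.Agent.P.MP_8c7dae_pr.Cover

open MeasureTheory Set Filter

namespace Pool.Agent.P.MP_8c7dae_pr

variable {ω : Om} {k : ℕ}

/-! ### pulling tile sets back along a similarity -/

lemma reach_pb (σ : Sim) {B : Set Cell} (hB : ∀ v ∈ B, σ.s ≤ v.1) {n : ℕ} {x y : Pt}
    (h : Reach B n x y) : Reach (σ.g ⁻¹' B) n (σ.φ x) (σ.φ y) :=
  h.pullback σ fun w hw => by
    obtain ⟨u, rfl⟩ := σ.surj w (hB w hw)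
    exact ⟨u, rfl, u, hw, Below.refl _⟩

lemma reach_pf (σ : Sim) {B : Set Cell} {n : ℕ} {x y : Pt}
    (h : Reach (σ.g ⁻¹' B) n x y) : Reach B n (σ.ψ x) (σ.ψ y) :=
  h.push σ fun v hv => ⟨σ.g v, hv, Below.refl _⟩

lemma dS_pb (σ : Sim) {B : Set Cell} (hB : ∀ v ∈ B, σ.s ≤ v.1) (x y : Pt) :
    dS (σ.g ⁻¹' B) {σ.φ x} {σ.φ y} = dS B {x} {y} := by
  unfold dS
  congr 1
  ext n
  simp only [mem_singleton_iff, exists_eq_left, mem_ofPred_eq]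
  exact ⟨fun h => by simpa [σ.right_inv] using reach_pf σ h, reach_pb σ hB⟩

lemma geod_pb (σ : Sim) {B : Set Cell} (hB : ∀ v ∈ B, σ.s ≤ v.1) {x y : Pt} {p : ℕ → Pt}
    {v : ℕ → Cell} (h : Geod B {x} {y} p v) : ∃ u : ℕ → Cell,
    Geod (σ.g ⁻¹' B) {σ.φ x} {σ.φ y} (fun j => σ.φ (p j)) u ∧
      ∀ j < dS B {x} {y}, σ.g (u j) = v j := by
  have key : ∀ j < dS B {x} {y}, σ.g (Function.invFun σ.g (v j)) = v j := fun j hj =>
    Function.invFun_eq (σ.surj _ (hB _ (h.1 j (Nat.zero_le _) hj).1))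
  refine ⟨fun j => Function.invFun σ.g (v j), ⟨?_, ?_, ?_⟩, key⟩
  · rw [dS_pb σ hB]
    intro j _ hj
    obtain ⟨h1, h2, h3⟩ := h.1 j (Nat.zero_le _) hj
    refine ⟨?_, ?_, ?_⟩
    · rw [mem_preimage, key j hj]; exact h1
    · rw [σ.mem_sq', key j hj]; exact h2
    · rw [σ.mem_sq', key j hj]; exact h3
  · simp only [mem_singleton_iff]; rw [mem_singleton_iff.1 h.2.1]
  · rw [dS_pb σ hB]; simp only [mem_singleton_iff]; rw [mem_singleton_iff.1 h.2.2]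

lemma mem_T_pull (σ : Sim) (hc : S ω (σ.g root) ≤ k) {u : Cell} (hu : Below root u) :
    u ∈ T (pull σ ω) (k - S ω (σ.g root)) ↔ σ.g u ∈ T ω k := by
  have h3 := S_pull (ω := ω) σ u
  rw [(below_root_iff u).1 hu] at h3
  simp only [T, mem_ofPred_eq, h3]
  change _ ∧ _ ≤ _ + ω (σ.g u) ↔ _
  omega

lemma tile_deep {g : ℕ} (h : ∀ c ∈ desc g root, S ω c ≤ k) {v : Cell} (hv : v ∈ TQ ω k) :
    g ≤ v.1 := by
  by_contra hlt
  rw [mem_TQ] at hv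
  have hm : ((v.2.1 / 2 ^ v.1, v.2.2 / 2 ^ v.1) : Pt) ∈ sq v := by
    have hp := two_pow_pos' v.1
    simp only [sq, mem_ofPred_eq]
    rw [mul_div_cancel₀ _ hp.ne', mul_div_cancel₀ _ hp.ne']
    exact ⟨le_rfl, by linarith, le_rfl, by linarith⟩
  obtain ⟨u, hu, -⟩ := exists_desc_mem (g - v.1) hm
  rw [mem_desc] at hu
  have h1 := h u (mem_desc.2 ⟨by simp only [root]; omega, hv.2.trans hu.2⟩)
  have h2 := S_ge (ω := ω) hu.2 (by omega)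
  have := hv.1.2
  omega

lemma comp_mono {g g' w : ℕ} (hg : g' ≤ g) (h : ∀ c ∈ desc g root, S ω c ≤ w) {c : Cell}
    (hc : c ∈ desc g' root) : S ω c ≤ w := by
  have hm : ((c.2.1 / 2 ^ c.1, c.2.2 / 2 ^ c.1) : Pt) ∈ sq c := by
    have hp := two_pow_pos' c.1
    simp only [sq, mem_ofPred_eq]
    rw [mul_div_cancel₀ _ hp.ne', mul_div_cancel₀ _ hp.ne']
    exact ⟨le_rfl, by linarith, le_rfl, by linarith⟩
  obtain ⟨u, hu, -⟩ := exists_desc_mem (g - g') hm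
  rw [mem_desc] at hu hc
  exact (S_mono hu.2).trans (h u (mem_desc.2 ⟨by omega, hc.2.trans hu.2⟩))

lemma IsCh.mem_Q {p : ℕ → Pt} {v : ℕ → Cell} {n : ℕ} (h : IsCh (TQ ω k) p v 0 n) (h0 : p 0 ∈ Q)
    {j : ℕ} (hj : j ≤ n) : p j ∈ Q := by
  rcases j with _ | j
  · exact h0
  · obtain ⟨h1, -, h3⟩ := h j (Nat.zero_le _) (by omega)
    exact (mem_TQ.1 h1).2.sq_sub h3

lemma Reach.mem_Q {n : ℕ} {x y : Pt} (h : Reach (TQ ω k) n x y) (hne : x ≠ y) : y ∈ Q := by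
  cases h with
  | refl => exact absurd rfl hne
  | step _ hv _ hz => exact (mem_TQ.1 hv).2.sq_sub hz

lemma Test_spec : ∃ x ∈ Q, ∃ y ∈ Q, x ∈ L0 ∧ y ∈ L1 ∧ Reach (TQ ω k) (Test ω k) x y := by
  obtain ⟨x, hx, y, hy, hr⟩ := (conn_Test (ω := ω) (k := k)).spec
  have hne : x ≠ y := by
    rintro rfl
    have h1 : x.1 = 0 := hx
    have h2 : x.1 = 1 := hy
    linarith
  exact ⟨x, hr.symm.mem_Q hne.symm, y, hr.mem_Q hne, hx, hy, hr⟩

lemma dep_T_set (k : ℕ) (P : Cell → Prop) {s : Set Cell}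
    (h : ∀ u, P u → ∀ v, Below v u → v ∈ s) :
    DependsOn (fun ω => {u | u ∈ T ω k ∧ P u}) s := by
  intro ω ω' hh
  have key : ∀ u, P u → (u ∈ T ω k ↔ u ∈ T ω' k) := fun u hu => by
    have e : S ω u = S ω' u := dep_S u fun v hv => hh v (h u hu v hv.1)
    simp only [T, mem_ofPred_eq, e, hh u (h u hu u (Below.refl _))]
  ext u
  exact ⟨fun hu => ⟨(key u hu.2).1 hu.1, hu.2⟩, fun hu => ⟨(key u hu.2).2 hu.1, hu.2⟩⟩

lemma mem_T_congr {ω ω' : Om} {u : Cell} (h : ∀ v, Below v u → ω v = ω' v) :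
    u ∈ T ω k ↔ u ∈ T ω' k := by
  have e : S ω u = S ω' u := dep_S u fun v hv => h v hv.1
  simp only [T, mem_ofPred_eq, e, h u (Below.refl _)]

/-! ### the grid of depth `H` -/

noncomputable def zm (H : ℕ) : Sim := emb (H, 0, 0)

@[simp] lemma zm_s (H : ℕ) : (zm H).s = H := rfl

lemma zm_gc (H : ℕ) (t : ℤ × ℤ) : (zm H).g (gc t) = (H, t.1, t.2) := by simp [zm, emb, gc]

lemma inBox_iff (H : ℕ) (t : ℤ × ℤ) : InBox (2 ^ H) t ↔ Below root ((zm H).g (gc t)) := by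
  rw [zm_gc, below_iff]
  simp [InBox, root]

lemma anc_zero_eq (v : Cell) : anc 0 v = gc (anc 0 v).2 := rfl

lemma inBox_iff' (H : ℕ) (v : Cell) : InBox (2 ^ H) (anc 0 v).2 ↔ Below root ((zm H).g v) := by
  rw [inBox_iff, ← anc_zero_eq]
  have h := ((zm H).below_iff _ _).2 (below_anc (Nat.zero_le v.1))
  exact ⟨fun h' => h'.trans h, fun h' => h'.of_le h (Nat.zero_le _)⟩

lemma box_iff (H : ℕ) (p : Pt) : p ∈ Box (2 ^ H) ↔ (zm H).ψ p ∈ Q := by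
  have hp := two_pow_pos' H
  simp [Box, mem_Q, zm, emb, div_le_one hp, div_nonneg_iff, hp.le, not_le.2 hp]

noncomputable def boxF (n : ℕ) : Finset (ℤ × ℤ) := Finset.Ico (0 : ℤ) n ×ˢ Finset.Ico (0 : ℤ) n

lemma mem_boxF {n : ℕ} {t : ℤ × ℤ} : t ∈ boxF n ↔ InBox n t := by
  simp [boxF, InBox, and_assoc]

lemma card_boxF (n : ℕ) : (boxF n).card = n ^ 2 := by simp [boxF, sq, pow_two]

/-! ### savings along disjoint segments -/

lemma savings {k1 k2 : ℕ} {x y : Pt} (hx : x ∈ Q) {p : ℕ → Pt} {v : ℕ → Cell}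
    (hg : Geod (TQ ω k1) {x} {y} p v) {A1 A2 C η : ℝ} (hA1 : 0 < A1) (hA2 : 0 < A2) (hC : 0 ≤ C)
    (hU : ∀ u ∈ Q, ∀ u' ∈ Q, (d ω k2 u u' : ℝ) / A2 ≤ C * (d ω k1 u u' / A1) + η)
    (g : Cell → ℝ) (i j : Cell → ℕ) (dep : ℕ) (F : Finset Cell) :
    (∀ c ∈ F, c.1 = dep ∧ i c < j c ∧ (∀ t, i c ≤ t → t < j c → Below c (v t)) ∧
      (d ω k2 (p (i c)) (p (j c)) : ℝ) / A2 ≤ C * (((j c - i c : ℕ) : ℝ) / A1) - g c) →
    ∀ t ≤ d ω k1 x y, (∀ c ∈ F, j c ≤ t) →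
      (d ω k2 x (p t) : ℝ) / A2 ≤ C * (t / A1) - ∑ c ∈ F, g c + (F.card + 1) * η := by
  classical
  have h0 : p 0 = x := hg.2.1
  have hQ : ∀ t ≤ d ω k1 x y, p t ∈ Q := fun t ht => hg.1.mem_Q (h0 ▸ hx) ht
  have seg : ∀ s t, s ≤ t → t ≤ d ω k1 x y →
      (d ω k2 (p s) (p t) : ℝ) / A2 ≤ C * (((t : ℝ) - s) / A1) + η := fun s t hst ht => by
    refine (hU _ (hQ s (hst.trans ht)) _ (hQ t ht)).trans (add_le_add ?_ le_rfl)
    refine mul_le_mul_of_nonneg_left (div_le_div_of_nonneg_right ?_ hA1.le) hC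
    rw [← Nat.cast_sub hst]
    exact_mod_cast d_le (hg.1.reach' (Nat.zero_le _) hst ht)
  induction F using Finset.induction_on_max_value i with
  | empty =>
    intro _ t ht _
    have := seg 0 t (Nat.zero_le _) ht
    rw [h0] at this
    simpa using this
  | insert c F hc hmax ih =>
    intro h t ht hj
    obtain ⟨c1, c2, c3, c4⟩ := h c (by simp)
    have hjt := hj c (by simp)
    have h1 := ih (fun c' hc' => h c' (by simp [hc'])) (i c) (by omega) fun c' hc' => by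
      by_contra hlt
      obtain ⟨e1, -, e3, -⟩ := h c' (by simp [hc'])
      have := (e3 (i c) (hmax c' hc') (by omega)).unique (c3 (i c) le_rfl c2) (by omega)
      exact hc (this ▸ hc')
    have h2 := seg (j c) t hjt ht
    have t1 := d_triangle (ω := ω) (k := k2) hx (hQ (i c) (by omega)) (hQ t ht)
    have t2 := d_triangle (ω := ω) (k := k2) (hQ (i c) (by omega)) (hQ (j c) (by omega)) (hQ t ht)
    have t3 : (d ω k2 x (p t) : ℝ) ≤ d ω k2 x (p (i c)) + d ω k2 (p (i c)) (p (j c)) +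
        d ω k2 (p (j c)) (p t) := by exact_mod_cast (by omega : d ω k2 x (p t) ≤ _)
    have t4 := div_le_div_of_nonneg_right t3 hA2.le
    rw [add_div, add_div] at t4
    rw [Finset.sum_insert hc, Finset.card_insert_of_notMem hc, Nat.cast_sub c2.le] at *
    push_cast
    have e : C * ((t : ℝ) / A1) = C * ((i c : ℝ) / A1) + C * (((j c : ℝ) - i c) / A1) +
      C * (((t : ℝ) - j c) / A1) := by ring
    linarith

/-! ### charging -/

lemma card_le_of_window {s : Finset ℕ} {f : ℕ} {x y : ℝ}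
    (h : ∀ τ ∈ s, (f : ℝ) - x ≤ τ ∧ (τ : ℝ) ≤ f + y) (hx : 0 ≤ x) (hy : 0 ≤ y) :
    (s.card : ℝ) ≤ x + y + 1 := by
  have hs : s ⊆ Finset.Icc (f - ⌊x⌋₊) (f + ⌊y⌋₊) := fun τ hτ => by
    obtain ⟨h1, h2⟩ := h τ hτ
    rw [Finset.mem_Icc]
    constructor
    · by_contra hc
      have h3 : τ + ⌊x⌋₊ + 1 ≤ f := by omega
      have h4 : (τ : ℝ) + ⌊x⌋₊ + 1 ≤ f := by exact_mod_cast h3
      linarith [Nat.lt_floor_add_one x]
    · by_contra hc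
      have h3 : f + ⌊y⌋₊ + 1 ≤ τ := by omega
      have h4 : (f : ℝ) + ⌊y⌋₊ + 1 ≤ τ := by exact_mod_cast h3
      linarith [Nat.lt_floor_add_one y]
  have h1 := Finset.card_le_card hs
  rw [Nat.card_Icc] at h1
  have h2 : s.card ≤ ⌊x⌋₊ + ⌊y⌋₊ + 1 := by omega
  have h3 : (s.card : ℝ) ≤ ⌊x⌋₊ + ⌊y⌋₊ + 1 := by exact_mod_cast h2
  linarith [Nat.floor_le hx, Nat.floor_le hy]

lemma exists_grid (m : ℕ) {x : Pt} (hx : x ∈ Q) : ∃ z ∈ grid m, z ∈ Q ∧ 2 ^ m * dist x z ≤ 1 := by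
  rw [mem_Q] at hx
  have hp := two_pow_pos' m
  have key : ∀ s : ℝ, 0 ≤ s → s ≤ 1 → ∃ a : ℕ, a < 2 ^ m + 1 ∧ (a : ℝ) / 2 ^ m ≤ 1 ∧
      2 ^ m * |s - a / 2 ^ m| ≤ 1 := fun s h0 h1 => by
    have h2 : 0 ≤ 2 ^ m * s := by positivity
    have h3 := Nat.floor_le h2
    have h4 := Nat.lt_floor_add_one (2 ^ m * s)
    have h5 : (⌊2 ^ m * s⌋₊ : ℝ) ≤ 2 ^ m := by nlinarith
    refine ⟨⌊2 ^ m * s⌋₊, ?_, by rw [div_le_one hp]; exact h5, ?_⟩
    · have : ⌊2 ^ m * s⌋₊ ≤ 2 ^ m := by exact_mod_cast h5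
      omega
    · rw [← abs_of_pos hp, ← abs_mul, abs_of_pos hp, mul_sub, mul_div_cancel₀ _ hp.ne', abs_le]
      constructor <;> linarith
  obtain ⟨a, a1, a2, a3⟩ := key _ hx.1 hx.2.1
  obtain ⟨b, b1, b2, b3⟩ := key _ hx.2.2.1 hx.2.2.2
  refine ⟨(a / 2 ^ m, b / 2 ^ m), Finset.mem_image.2 ⟨(a, b), by simp [a1, b1], rfl⟩,
    mem_Q.2 ⟨by positivity, a2, by positivity, b2⟩, ?_⟩
  rw [Prod.dist_eq, mul_max_of_nonneg _ _ hp.le, Real.dist_eq, Real.dist_eq]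
  exact max_le a3 b3

lemma card_grid (m : ℕ) : (grid m).card ≤ (2 ^ m + 1) ^ 2 := by
  refine Finset.card_image_le.trans ?_
  simp [pow_two]

end Pool.Agent.P.MP_8c7dae_pr
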