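import Pool.Agent.P.MP_8c7dae_pr.ImpA
import Pool.Agent.P.MP_8c7dae_pr.Highway

open MeasureTheory Set Filter

namespace Pool.Agent.P.MP_8c7dae_pr

/-- the depth `H` grid inside `c` -/
noncomputable def sg (c : Cell) (H : ℕ) : Sim := (emb c).comp (zm H)

/-- oriented grid cell seen from the root -/
noncomputable def gs (H : ℕ) (t : ℤ × ℤ) (o : Bool) : Sim := (zm H).comp (embo (gc t) o)

/-- oriented grid cell of `c` -/
noncomputable def gw (c : Cell) (H : ℕ) (t : ℤ × ℤ) (o : Bool) : Sim :=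
  (sg c H).comp (embo (gc t) o)

def Wall (H : ℕ) (t : ℤ × ℤ) (o : Bool) (j : ℕ) (x : ℝ) (ω : Om) : Prop :=
  LBs {u | u ∈ T ω j ∧ (Below root u ∧ NonCore (gs H t o) u)} (1 / (8 * 2 ^ H)) x

lemma gw_root (c : Cell) (H : ℕ) (t : ℤ × ℤ) (o : Bool) :
    (gw c H t o).g root = (sg c H).g (gc t) := by
  simp [gw, Sim.comp]

lemma sg_s (c : Cell) (H : ℕ) : (sg c H).s = c.1 + H := by simp [sg, Sim.comp, add_comm]

lemma sg_fst (c : Cell) (H : ℕ) (t : ℤ × ℤ) : ((sg c H).g (gc t)).1 = c.1 + H := by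
  rw [Sim.fst, sg_s]; simp [gc]

lemma sg_below {c : Cell} {H : ℕ} {v : Cell} :
    Below c ((sg c H).g v) ↔ InBox (2 ^ H) (anc 0 v).2 := by
  rw [inBox_iff', ← (emb c).below_iff root, emb_root]; rfl

lemma sg_below_gc {c : Cell} {H : ℕ} {t : ℤ × ℤ} (h : InBox (2 ^ H) t) :
    Below c ((sg c H).g (gc t)) := sg_below.2 (by simpa [anc, gc] using h)

lemma LBs.mono {A B : Set Cell} {ρ x y : ℝ} (h : LBs A ρ x) (hB : B ⊆ A) (hy : y ≤ x) :
    LBs B ρ y := fun n p p' hr hd => hy.trans (h n p p' (hr.mono hB) hd)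

lemma LBs.zoom {H : ℕ} {A B : Set Cell} {x : ℝ} (h : LBs A (1 / (8 * 2 ^ H)) x)
    (hB : ∀ v ∈ B, (zm H).g v ∈ A) : LBs B (1 / 8) x := fun n p p' hr hd => by
  refine h n _ _ (hr.push (zm H) fun v hv => ⟨_, hB v hv, Below.refl _⟩) ?_
  have := (zm H).dist_eq p p'
  have hp := two_pow_pos' H
  rw [zm_s] at this
  rw [div_le_iff₀ (by positivity)]
  linarith

def HW (n : ℕ) (α β : ℤ × ℤ) (Tc : Finset (ℤ × ℤ)) (Wc : Finset ((ℤ × ℤ) × Bool)) : Prop :=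
  (∀ t ∈ Tc, InBox n t) ∧ (∀ w ∈ Wc, InBox n w.1) ∧ (∀ w ∈ Wc, w.1 ∉ Tc) ∧
      (∀ w ∈ Wc, ∀ w' ∈ Wc, w.1 = w'.1 → w = w') ∧
      (∀ w ∈ Wc, ∃ t0 ∈ Tc, ∃ t1 ∈ Tc, ∀ p ∈ sq (gc w.1),
        ((embo (gc w.1) w.2).φ p ∈ L0 → p ∈ sq (gc t0)) ∧
        ((embo (gc w.1) w.2).φ p ∈ L1 → p ∈ sq (gc t1))) ∧
      ∀ (A A' : Set Cell) (x y : Pt) (m e1 e2 xT xW xC : ℕ),
        (∀ v : Cell, (∀ t ∈ Tc, ¬ Below (gc t) v) → (∀ w ∈ Wc, ¬ Below (gc w.1) v) →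
          (v ∈ A ↔ v ∈ A')) →
        (∃ p0 v0, Geod A {x} {y} p0 v0 ∧ ∃ i0 j0, i0 ≤ j0 ∧ j0 < dS A {x} {y} ∧
          Below (gc α) (v0 i0) ∧ Below (gc β) (v0 j0) ∧ i0 + 4 * m ≤ j0 + 1) →
        (∀ p ∈ Box n, ∀ p' ∈ Box n, dist p p' ≤ 10 → Reach A m p p') →
        LBs {v | v ∈ A ∧ InBox n (anc 0 v).2} (1 / 8) (e2 + 1) →
        (∀ w ∈ Wc, LBs {v | InBox n (anc 0 v).2 ∧ ((v ∈ A ∧ ¬ Below (gc w.1) v) ∨
          (v ∈ A' ∧ Below (gc w.1) v ∧ NonCore (embo (gc w.1) w.2) v))} (1 / 8) (e1 + 1)) →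
        (∀ t ∈ Tc, ∀ p ∈ sq (gc t), ∀ p' ∈ sq (gc t), Reach A' xT p p') →
        (∀ w ∈ Wc, ∀ p ∈ sq (gc w.1), ∀ p' ∈ sq (gc w.1), Reach A' xW p p') →
        (∀ w ∈ Wc, ∃ p ∈ sq (gc w.1), ∃ p' ∈ sq (gc w.1),
          (embo (gc w.1) w.2).φ p ∈ L0 ∧ (embo (gc w.1) w.2).φ p' ∈ L1 ∧ Reach A' xC p p') →
        8 * n * (xT + xC) ≤ e1 → e1 + 2 * xW ≤ e2 → e2 ≤ m → 1 ≤ m →
        ∀ p v, Geod A' {x} {y} p v →
          ∃ w ∈ Wc, ∃ i j, i < j ∧ j ≤ dS A' {x} {y} ∧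
            (∀ t, i ≤ t → t < j → Below (gc w.1) (v t)) ∧
            (((embo (gc w.1) w.2).φ (p i) ∈ L0 ∧ (embo (gc w.1) w.2).φ (p j) ∈ L1) ∨
             ((embo (gc w.1) w.2).φ (p i) ∈ L1 ∧ (embo (gc w.1) w.2).φ (p j) ∈ L0))

lemma exists_HW (n : ℕ) (hn : 4 ≤ n) {α β : ℤ × ℤ} (hα : InBox n α) (hβ : InBox n β) :
    ∃ Tc Wc, HW n α β Tc Wc := highway n hn α β hα hβ

lemma core_below : ∀ c ∈ core, Below root c := by
  intro c hc
  simp only [core, Finset.mem_insert, Finset.mem_singleton] at hc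
  rcases hc with rfl | rfl | rfl | rfl <;> exact ⟨by simp [root], by decide⟩

/-- chains inside a born cell of the unit square -/
lemma Reach.up_Q {ω : Om} {k : ℕ} (τ : Sim) (hb : Below root (τ.g root))
    (hc : S ω (τ.g root) ≤ k) {n : ℕ} {x y : Pt}
    (h : Reach (TQ (pull τ ω) (k - S ω (τ.g root))) n x y) :
    Reach (TQ ω k) n (τ.ψ x) (τ.ψ y) :=
  (h.up_below τ hc).mono fun _ hv => mem_TQ.2 ⟨hv.1, hb.trans hv.2⟩

lemma reach_cell {ω : Om} {k : ℕ} (τ : Sim) (hb : Below root (τ.g root))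
    (hc : S ω (τ.g root) ≤ k) {x y : Pt} (hx : x ∈ sq (τ.g root)) (hy : y ∈ sq (τ.g root)) :
    Reach (TQ ω k) (X (pull τ ω) (k - S ω (τ.g root))) x y := by
  have := Reach.up_Q τ hb hc (X_spec (τ.φ_mem_Q hx) (τ.φ_mem_Q hy))
  rwa [τ.right_inv, τ.right_inv] at this

lemma sh_det {ω ω' : Om} {k1 k2 H : ℕ} {c : Cell} (hc : Below root c) {α β : ℤ × ℤ}
    {Tc : Finset (ℤ × ℤ)} {Wc : Finset ((ℤ × ℤ) × Bool)} (hw : HW (2 ^ H) α β Tc Wc)
    (hagree : ∀ v, (∀ t ∈ Tc, ¬ Below ((sg c H).g (gc t)) v) →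
      (∀ w ∈ Wc, ¬ Below ((sg c H).g (gc w.1)) v) → ω' v = ω v)
    (hcomp : ∀ u ∈ desc (c.1 + H) root, S ω u ≤ k1 ∧ S ω u ≤ k2) {x y : Pt}
    {m e1 e2 xT xW xC xT2 : ℕ}
    (hopp : ∃ p v, Geod (TQ ω k1) {x} {y} p v ∧ ∃ i0 j0, i0 ≤ j0 ∧ j0 < d ω k1 x y ∧
      Below ((sg c H).g (gc α)) (v i0) ∧ Below ((sg c H).g (gc β)) (v j0) ∧ i0 + 4 * m ≤ j0 + 1)
    (hm : 20 * Mx (pull (emb c) ω) (k1 - S ω c) H ≤ m)
    (hold : LBs (TQ (pull (emb c) ω) (k1 - S ω c)) (1 / (8 * 2 ^ H)) (e2 + 1))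
    (hwall : ∀ w ∈ Wc, ∃ ωW : Om, (∀ v, Below ((sg c H).g (gc w.1)) v → ωW v = ω' v) ∧
      (∀ v, ¬ Below ((sg c H).g (gc w.1)) v → ωW v = ω v) ∧
      Wall H w.1 w.2 (k1 - S ω c) (e1 + 1) (pull (emb c) ωW))
    (hT : ∀ t ∈ Tc, X (pull (gw c H t false) ω') (k1 - S ω ((sg c H).g (gc t))) ≤ xT ∧
      X (pull (gw c H t false) ω') (k2 - S ω ((sg c H).g (gc t))) ≤ xT2)
    (hW : ∀ w ∈ Wc, X (pull (gw c H w.1 w.2) ω') (k1 - S ω ((sg c H).g (gc w.1))) ≤ xW ∧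
      Test (pull (gw c H w.1 w.2) ω') (k1 - S ω ((sg c H).g (gc w.1))) ≤ xC)
    (n1 : 8 * 2 ^ H * (xT + xC) ≤ e1) (n2 : e1 + 2 * xW ≤ e2) (n3 : e2 ≤ m) (n4 : 1 ≤ m)
    (p : ℕ → Pt) (v : ℕ → Cell) (hg : Geod (TQ ω' k1) {x} {y} p v) :
    ∃ w ∈ Wc, ∃ i j, i < j ∧ j ≤ d ω' k1 x y ∧ (∀ t, i ≤ t → t < j → Below c (v t)) ∧
      Test (pull (gw c H w.1 w.2) ω') (k1 - S ω ((sg c H).g (gc w.1))) ≤ j - i ∧
      d ω' k2 (p i) (p j) ≤
        Test (pull (gw c H w.1 w.2) ω') (k2 - S ω ((sg c H).g (gc w.1))) + 2 * xT2 := by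
  obtain ⟨w1, w2, -, -, w5, w6⟩ := hw
  set σ := sg c H with hσ
  have hs : σ.s = c.1 + H := sg_s c H
  have hS : ∀ u : Cell, u.1 ≤ c.1 + H → S ω' u = S ω u := fun u hu => dep_S u fun z hz =>
    hagree z (fun t _ hb => by have := hb.1; have := hz.2; rw [sg_fst] at *; omega)
      (fun t _ hb => by have := hb.1; have := hz.2; rw [sg_fst] at *; omega)
  have hdesc : ∀ t, InBox (2 ^ H) t → σ.g (gc t) ∈ desc (c.1 + H) root := fun t ht =>
    mem_desc.2 ⟨by rw [sg_fst]; simp [root], hc.trans (sg_below_gc ht)⟩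
  have hSc : S ω c ≤ k1 := by
    have h0 : InBox (2 ^ H) (0, 0) := by simp [InBox]
    exact (S_mono (sg_below_gc h0)).trans (hcomp _ (hdesc _ h0)).1
  have dp : ∀ u ∈ TQ ω k1, σ.s ≤ u.1 := fun u hu => hs ▸ tile_deep (fun z hz => (hcomp z hz).1) hu
  have dp' : ∀ u ∈ TQ ω' k1, σ.s ≤ u.1 := fun u hu => hs ▸ tile_deep (fun z hz => by
    rw [hS z (by rw [(mem_desc.1 hz).1]; simp [root])]; exact (hcomp z hz).1) hu
  have cellR : ∀ t o k, InBox (2 ^ H) t → S ω (σ.g (gc t)) ≤ k → ∀ z ∈ sq (σ.g (gc t)),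
      ∀ z' ∈ sq (σ.g (gc t)), Reach (TQ ω' k) (X (pull (gw c H t o) ω') (k - S ω (σ.g (gc t)))) z z' := by
    intro t o k ht hk z hz z' hz'
    have e := hS (σ.g (gc t)) (sg_fst c H t).le
    have := reach_cell (ω := ω') (k := k) (gw c H t o) (by rw [gw_root]; exact hc.trans (sg_below_gc ht))
      (by rw [gw_root, e]; exact hk) (x := z) (y := z') (by rwa [gw_root]) (by rwa [gw_root])
    rwa [gw_root, e] at this
  have testR : ∀ t o k, InBox (2 ^ H) t → S ω (σ.g (gc t)) ≤ k → ∃ z ∈ sq (gc t), ∃ z' ∈ sq (gc t),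
      (embo (gc t) o).φ z ∈ L0 ∧ (embo (gc t) o).φ z' ∈ L1 ∧
      Reach (TQ ω' k) (Test (pull (gw c H t o) ω') (k - S ω (σ.g (gc t)))) (σ.ψ z) (σ.ψ z') := by
    intro t o k ht hk
    have e := hS (σ.g (gc t)) (sg_fst c H t).le
    obtain ⟨z, hz, z', hz', l0, l1, hr⟩ := Test_spec (ω := pull (gw c H t o) ω')
      (k := k - S ω (σ.g (gc t)))
    refine ⟨(embo (gc t) o).ψ z, by simpa using (embo (gc t) o).ψ_mem hz, (embo (gc t) o).ψ z',
      by simpa using (embo (gc t) o).ψ_mem hz', by rwa [Sim.left_inv], by rwa [Sim.left_inv], ?_⟩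
    exact Reach.up_Q (ω := ω') (k := k) (gw c H t o) (by rw [gw_root]; exact hc.trans (sg_below_gc ht))
      (by rw [gw_root, e]; exact hk) (by rw [gw_root, e]; exact hr)
  obtain ⟨u, hu, hu'⟩ := geod_pb σ dp' hg
  obtain ⟨w, hwW, i, j, hij, hj, hb, hside⟩ := w6 (σ.g ⁻¹' TQ ω k1) (σ.g ⁻¹' TQ ω' k1) (σ.φ x) (σ.φ y)
    m e1 e2 xT xW xC
    (fun z h1 h2 => by
      simp only [mem_preimage, mem_TQ]
      refine and_congr_left fun _ => mem_T_congr fun z' hz' => (hagree z' ?_ ?_).symm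
      · exact fun t ht hb => h1 t ht ((σ.below_iff _ _).1 (hb.trans hz'))
      · exact fun t ht hb => h2 t ht ((σ.below_iff _ _).1 (hb.trans hz')))
    (by
      obtain ⟨p0, v0, g0, i0, j0, a1, a2, a3, a4, a5⟩ := hopp
      obtain ⟨u0, b1, b2⟩ := geod_pb σ dp g0
      refine ⟨_, u0, b1, i0, j0, a1, by rw [dS_pb σ dp]; exact a2, ?_, ?_, a5⟩
      · rw [← σ.below_iff, b2 i0 (lt_of_le_of_lt a1 a2)]; exact a3
      · rw [← σ.below_iff, b2 j0 a2]; exact a4)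
    (fun z hz z' hz' hd => by
      have h1 := reach_near (ω := pull (emb c) ω) (k := k1 - S ω c) (m := H) 10
        ((box_iff H z).1 hz) ((box_iff H z').1 hz') (by
          have := (zm H).dist_eq z z'
          rw [zm_s] at this
          push_cast; linarith)
      have h2 := Reach.up_Q (ω := ω) (k := k1) (emb c) (by simpa using hc) (by simpa using hSc)
        (by simpa using h1)
      have h3 := reach_pb σ dp h2
      have e : ∀ z, σ.φ ((emb c).ψ ((zm H).ψ z)) = z := fun z => σ.left_inv z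
      rw [e, e] at h3
      exact h3.mono_n (by omega))
    (hold.zoom fun z hz => by
      have hb := (inBox_iff' H z).1 hz.2
      refine mem_TQ.2 ⟨?_, hb⟩
      have := (mem_T_pull (ω := ω) (k := k1) (emb c) (by simpa using hSc) hb).2 (mem_TQ.1 hz.1).1
      simpa using this)
    (fun w hwW => by
      obtain ⟨ωW, a1, a2, a3⟩ := hwall w hwW
      refine LBs.zoom a3 fun z hz => ?_
      have hb := (inBox_iff' H z).1 hz.1
      have eS : S ωW c = S ω c := dep_S c fun z' hz' => a2 z' fun hb' => by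
        have := hb'.1; have := hz'.2; rw [sg_fst] at *; omega
      have key : σ.g z ∈ T ωW k1 → (zm H).g z ∈ T (pull (emb c) ωW) (k1 - S ω c) := fun h => by
        have := (mem_T_pull (ω := ωW) (k := k1) (emb c) (by simpa [eS] using hSc) hb).2 h
        simpa [eS] using this
      rcases hz.2 with ⟨h1, h2⟩ | ⟨h1, h2, h3⟩
      · refine ⟨key ((mem_T_congr fun z' hz' => a2 z' fun hb' => h2 ?_).2 (mem_TQ.1 h1).1), hb, ?_⟩
        · exact (σ.below_iff _ _).1 (hb'.trans hz')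
        · intro cc hcc hbb
          refine h2 ?_
          have h4 : Below ((embo (gc w.1) w.2).g cc) z := ((zm H).below_iff _ _).1 hbb
          have h5 := ((embo (gc w.1) w.2).below_iff _ _).2 (core_below cc hcc)
          rw [embo_root] at h5
          exact h5.trans h4
      · refine ⟨key ((mem_T_congr fun z' hz' => ?_).2 (mem_TQ.1 h1).1), hb, ?_⟩
        · by_cases hb' : Below (σ.g (gc w.1)) z'
          · exact a1 z' hb'
          · have hlt : z'.1 < c.1 + H := by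
              by_contra hge
              exact hb' (((σ.below_iff _ _).2 h2).of_le hz' (by rw [sg_fst]; omega))
            rw [a2 z' hb']
            exact (hagree z' (fun t _ hb => by have := hb.1; rw [sg_fst] at *; omega)
              (fun t _ hb => by have := hb.1; rw [sg_fst] at *; omega)).symm
        · exact fun cc hcc hbb => h3 cc hcc (((zm H).below_iff _ _).1 hbb))
    (fun t ht z hz z' hz' => by
      have := reach_pb σ dp' (cellR t false k1 (w1 t ht) (hcomp _ (hdesc t (w1 t ht))).1 _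
        ((σ.mem_sq _ _).2 hz) _ ((σ.mem_sq _ _).2 hz'))
      rw [σ.left_inv, σ.left_inv] at this
      exact this.mono_n (hT t ht).1)
    (fun w hw z hz z' hz' => by
      have := reach_pb σ dp' (cellR w.1 w.2 k1 (w2 w hw) (hcomp _ (hdesc _ (w2 w hw))).1 _
        ((σ.mem_sq _ _).2 hz) _ ((σ.mem_sq _ _).2 hz'))
      rw [σ.left_inv, σ.left_inv] at this
      exact this.mono_n (hW w hw).1)
    (fun w hw => by
      obtain ⟨z, hz, z', hz', l0, l1, hr⟩ := testR w.1 w.2 k1 (w2 w hw)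
        (hcomp _ (hdesc _ (w2 w hw))).1
      have := reach_pb σ dp' hr
      rw [σ.left_inv, σ.left_inv] at this
      exact ⟨z, hz, z', hz', l0, l1, this.mono_n (hW w hw).2⟩)
    n1 n2 n3 n4 _ u hu
  rw [dS_pb σ dp'] at hj
  have hbW : ∀ t, i ≤ t → t < j → Below (σ.g (gc w.1)) (v t) := fun t h1 h2 => by
    rw [← hu' t (by omega), σ.below_iff]; exact hb t h1 h2
  have hin := w2 w hwW
  have hk := hcomp _ (hdesc _ hin)
  have e := hS (σ.g (gc w.1)) (sg_fst c H w.1).le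
  refine ⟨w, hwW, i, j, hij, hj, fun t h1 h2 => (sg_below_gc hin).trans (hbW t h1 h2), ?_, ?_⟩
  · have h1 := (hg.1.restrict (B := {z | z ∈ TQ ω' k1 ∧ Below (σ.g (gc w.1)) z}) (Nat.zero_le i) hj
      fun t h1 h2 => ⟨(hg.1 t (Nat.zero_le _) (by omega)).1, hbW t h1 h2⟩).reach hij.le
    have h2 := h1.down (ω := ω') (k := k1) (gw c H w.1 w.2) (R := {root})
      (j := k1 - S ω (σ.g (gc w.1))) fun z hz => ⟨(mem_TQ.1 hz.1).1, root, by simp, rfl,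
        by rw [gw_root]; exact hz.2, by rw [gw_root, e]; omega⟩
    rcases hside with h | h
    · exact dS_le h.1 h.2 h2
    · exact dS_le h.2 h.1 h2.symm
  · obtain ⟨t0, ht0, t1, ht1, hsd⟩ := w5 w hwW
    obtain ⟨z, hz, z', hz', l0, l1, hr⟩ := testR w.1 w.2 k2 hin hk.2
    have pi : σ.φ (p i) ∈ sq (gc w.1) := (σ.mem_sq' _ _).2
      ((hbW i le_rfl hij).sq_sub (hg.1 i (Nat.zero_le _) (by omega)).2.1)
    have pj : σ.φ (p j) ∈ sq (gc w.1) := (σ.mem_sq' _ _).2 (by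
      have := (hbW (j - 1) (by omega) (by omega)).sq_sub
        (hg.1 (j - 1) (Nat.zero_le _) (by omega)).2.2
      rwa [show j - 1 + 1 = j by omega] at this)
    have r0 : ∀ z0, σ.φ z0 ∈ sq (gc w.1) → (embo (gc w.1) w.2).φ (σ.φ z0) ∈ L0 →
        Reach (TQ ω' k2) xT2 z0 (σ.ψ z) := fun z0 h1 h2 =>
      (cellR t0 false k2 (w1 _ ht0) (hcomp _ (hdesc _ (w1 _ ht0))).2 _
        ((σ.mem_sq' _ _).1 ((hsd _ h1).1 h2)) _ ((σ.mem_sq _ _).2 ((hsd _ hz).1 l0))).mono_n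
        (hT _ ht0).2
    have r1 : ∀ z0, σ.φ z0 ∈ sq (gc w.1) → (embo (gc w.1) w.2).φ (σ.φ z0) ∈ L1 →
        Reach (TQ ω' k2) xT2 (σ.ψ z') z0 := fun z0 h1 h2 =>
      (cellR t1 false k2 (w1 _ ht1) (hcomp _ (hdesc _ (w1 _ ht1))).2 _
        ((σ.mem_sq _ _).2 ((hsd _ hz').2 l1)) _ ((σ.mem_sq' _ _).1 ((hsd _ h1).2 h2))).mono_n
        (hT _ ht1).2
    rcases hside with h | h
    · exact (d_le (((r0 _ pi h.1).trans hr).trans (r1 _ pj h.2))).trans (by omega)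
    · exact (d_le (((r0 _ pj h.2).trans hr).trans (r1 _ pi h.1)).symm).trans (by omega)

end Pool.Agent.P.MP_8c7dae_pr
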