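import Pool.Agent.P.MP_8c7dae_pr.ImpB
import Pool.Agent.P.MP_8c7dae_pr.Gadget

open MeasureTheory Set Filter

namespace Pool.Agent.P.MP_8c7dae_pr

variable {N : ℕ}

lemma a_pos (N k : ℕ) : (0 : ℝ) < a N k := by exact_mod_cast one_le_a N k

lemma one_le_a' (N k : ℕ) : (1 : ℝ) ≤ a N k := by exact_mod_cast one_le_a N k

lemma a_mono' (N : ℕ) {k k' : ℕ} (h : k ≤ k') : (a N k : ℝ) ≤ a N k' := by
  exact_mod_cast a_mono N h

lemma exists_decay {δ : ℝ} (hδ : 0 < δ) : ∃ L0 : ℕ, ∀ L, L0 ≤ L → ∀ N, 2 ≤ N → ∀ j, L * N ≤ j →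
    (a N (j - L * N) : ℝ) ≤ δ * a N j := by
  obtain ⟨c, hc, -, h⟩ := a_decay
  obtain ⟨L0, hL0⟩ := exists_nat_ge (2 / (δ * c))
  refine ⟨L0, fun L hL N hN j hj => (h N hN j _ hj).trans ?_⟩
  refine mul_le_mul_of_nonneg_right ?_ (a_pos N j).le
  have e : -(c * q N) * ((L * N : ℕ) : ℝ) = -(c * L) := by
    push_cast; linear_combination (-(c * L)) * q_mul hN
  have h1 := Real.add_one_le_exp (c * L)
  have h2 : (L0 : ℝ) ≤ L := by exact_mod_cast hL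
  rw [div_le_iff₀ (by positivity)] at hL0
  rw [e, Real.exp_neg, ← div_eq_mul_inv, div_le_iff₀ (Real.exp_pos _)]
  nlinarith [mul_le_mul_of_nonneg_left h2 (mul_pos hδ hc).le]

lemma exists_big (M : ℝ) : ∃ t : ℕ, ∀ N, 2 ≤ N → ∀ j, t * N ≤ j → M ≤ a N j := by
  obtain ⟨L, h⟩ := exists_decay (δ := 1 / (|M| + 1)) (by positivity)
  refine ⟨L, fun N hN j hj => ?_⟩
  have h1 := (one_le_a' N _).trans (h L le_rfl N hN j hj)
  rw [one_div, inv_mul_eq_div, le_div_iff₀ (by positivity)] at h1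
  linarith [le_abs_self M]

lemma exists_grow (L : ℕ) : ∃ M : ℝ, 0 < M ∧ ∀ N, 2 ≤ N → ∀ j j', j ≤ j' + L * N →
    (a N j : ℝ) ≤ M * a N j' := by
  obtain ⟨U, -, h⟩ := a_grow
  refine ⟨Real.exp (U + L), Real.exp_pos _, fun N hN j j' hj => (a_mono' N hj).trans ?_⟩
  have := h N hN j' (L * N)
  rwa [show q N * ((L * N : ℕ) : ℝ) = L by push_cast; linear_combination (L : ℝ) * q_mul hN] at this

lemma Pr_all_ge {ι : Type*} (s : Finset ι) (cell : ι → Cell) {B : ι → Om → Prop}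
    (hB : ∀ i ∈ s, Elem (B i)) (hd : ∀ i ∈ s, DependsOn (B i) (Sub1 (cell i))) {g : ℕ}
    (hg : ∀ i ∈ s, (cell i).1 = g) (hne : ∀ i ∈ s, ∀ j ∈ s, cell i = cell j → i = j) {γ : ℝ}
    (h0 : 0 ≤ γ) (hγ : ∀ i ∈ s, γ ≤ Pr N (B i)) :
    γ ^ s.card ≤ Pr N (fun ω => ∀ i ∈ s, B i ω) := by
  unfold Pr
  simp only [ind_all]
  rw [E_prod_indep s (f := fun i ω => ind (B i ω)) (s := fun i => Sub1 (cell i))
    (fun i hi => (hB i hi).ind) (fun i hi => dep_ind (hd i hi)), ← Finset.prod_const]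
  · exact Finset.prod_le_prod (fun _ _ => h0) hγ
  · intro i hi j hj hij
    rw [Set.disjoint_left]
    exact fun v h1 h2 => hij (hne i hi j hj (Below.unique h1 h2 (by rw [hg i hi, hg j hj])))

lemma Pr_gad_big {G : Om → Prop} (hG : Elem G) {f : Om → ℕ} (hf : Elem f) {C K ε x : ℝ}
    (hK : 0 < K) (hx : 0 < x) (hC : C ≤ ε * K ^ 2)
    (h : E N (fun ω => ind (G ω) * (f ω : ℝ) ^ 2) ≤ C * Pr N G * x ^ 2) :
    Pr N (fun ω => G ω ∧ ¬ (f ω : ℝ) ≤ K * x) ≤ ε * Pr N G := by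
  have h1 := Pr_le_E_div (N := N) (hG.and (hf.map fun n => ¬ (n : ℝ) ≤ K * x))
    (hG.ind.mul (hf.cast.pow 2)) (t := (K * x) ^ 2) (by positivity)
    (fun ω => mul_nonneg (ind_nonneg _) (sq_nonneg _)) fun ω hω => by
      rw [ind_pos hω.1, one_mul]
      exact pow_le_pow_left₀ (by positivity) (not_le.1 hω.2).le 2
  refine h1.trans ?_
  rw [div_le_iff₀ (by positivity)]
  refine h.trans ?_
  have := mul_le_mul_of_nonneg_right hC (mul_nonneg (Pr_nonneg (N := N) G) (sq_nonneg x))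
  nlinarith

lemma dep_Gcore (N L1 : ℕ) : DependsOn (Gcore N L1) (core : Set Cell) := fun _ _ h =>
  propext (forall₂_congr fun c hc => by rw [h c hc])

lemma dep_Gad (N L0 L L1 : ℕ) : DependsOn (Gad N L0 L L1) (Sub1 root) := by
  intro ω ω' h
  have h0 := h root (Below.refl _)
  have h1 : ∀ c ∈ desc 1 root, ω c = ω' c := fun c hc => h c (mem_desc.1 hc).2
  have h2 : ∀ c ∈ desc 2 root \ core, ω c = ω' c := fun c hc =>
    h c (mem_desc.1 (Finset.mem_sdiff.1 hc).1).2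
  have h3 := dep_Gcore N L1 (x := ω) (y := ω') fun c hc => h c (core_below c hc)
  unfold Gad Gtop
  rw [h0, h3]
  congr 3
  · exact propext (forall₂_congr fun c hc => by rw [h1 c hc])
  · exact propext (forall₂_congr fun c hc => by rw [h2 c hc])

/-- the event asked of a gadget cell -/
def WEv (N L0 L L1 j1 j2 : ℕ) (A1 A2 c' KW KC κT : ℝ) (ω : Om) : Prop :=
  Gad N L0 L L1 ω ∧ (Test ω j2 : ℝ) / A2 ≤ c' * ((Test ω j1 : ℝ) / A1) ∧
    (X ω j1 : ℝ) ≤ KW * a N (j1 - L0 * N) ∧ (Test ω j1 : ℝ) ≤ KC * a N (j1 - (L0 + L1) * N) ∧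
    κT * a N (j1 - (L0 + L + L1 + 3) * N) ≤ Test ω j1

lemma elem_WEv (N L0 L L1 j1 j2 : ℕ) (A1 A2 c' KW KC κT : ℝ) :
    Elem (WEv N L0 L L1 j1 j2 A1 A2 c' KW KC κT) :=
  (elem_Gad N L0 L L1).and (Elem.map₃ (elem_Test j1) (elem_Test j2) (elem_X j1) fun t1 t2 x =>
    (t2 : ℝ) / A2 ≤ c' * ((t1 : ℝ) / A1) ∧ (x : ℝ) ≤ KW * a N (j1 - L0 * N) ∧
      (t1 : ℝ) ≤ KC * a N (j1 - (L0 + L1) * N) ∧ κT * a N (j1 - (L0 + L + L1 + 3) * N) ≤ t1)

lemma dep_WEv (N L0 L L1 j1 j2 : ℕ) (A1 A2 c' KW KC κT : ℝ) :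
    DependsOn (WEv N L0 L L1 j1 j2 A1 A2 c' KW KC κT) (Sub1 root) := by
  intro ω ω' h
  have h1 := dep_Gad N L0 L L1 h
  have h2 : Test ω j1 = Test ω' j1 := dep_Test j1 h
  have h3 : Test ω j2 = Test ω' j2 := dep_Test j2 h
  have h4 : X ω j1 = X ω' j1 := dep_X j1 h
  simp only [WEv, h1, h2, h3, h4]

lemma W_prob {ε : ℝ} (hε : 0 < ε) : ∃ KW KC κT : ℝ, 0 < KW ∧ 0 < KC ∧ 0 < κT ∧
    ∀ N, 2 ≤ N → ∀ (L0 L L1 j1 j2 : ℕ) (A1 A2 c' θ : ℝ) (τ : Sim) (wall : Om → Prop), Elem wall →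
      DependsOn wall (τ.g '' core)ᶜ → Pr N (fun ω => ¬ wall ω) ≤ θ →
      θ ≤ ε / 8 * Pr N (Gtop N L0 L) →
      ε * Pr N (Gad N L0 L L1) ≤ Pr N (fun ω => Gad N L0 L L1 ω ∧
        (Test ω j2 : ℝ) / A2 ≤ c' * ((Test ω j1 : ℝ) / A1)) →
      ε / 2 * Pr N (Gad N L0 L L1) ≤
        Pr N (fun ω => WEv N L0 L L1 j1 j2 A1 A2 c' KW KC κT (pull τ ω) ∧ wall ω) := by
  obtain ⟨CX, hCX, h1⟩ := Gad_X2
  obtain ⟨CT, hCT, h2⟩ := Gad_Test2
  obtain ⟨κT, hκT, h3⟩ := Gad_TestLo (ε := ε / 8) (by positivity)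
  have big : ∀ C : ℝ, 0 < C → C ≤ ε / 8 * (8 * C / ε + 1) ^ 2 := fun C hC => by
    have h : 0 < 8 * C / ε := by positivity
    have e : ε / 8 * (8 * C / ε) = C := by field_simp
    nlinarith
  refine ⟨8 * CX / ε + 1, 8 * CT / ε + 1, κT, by positivity, by positivity, hκT,
    fun N hN L0 L L1 j1 j2 A1 A2 c' θ τ wall hw hd hθ hθ' hlow => ?_⟩
  set KW := 8 * CX / ε + 1
  set KC := 8 * CT / ε + 1
  have eG := elem_Gad N L0 L L1
  have b1 := Pr_gad_big eG (elem_X j1) (K := KW) (by positivity) (a_pos N _) (big CX hCX)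
    (h1 N hN L0 L L1 j1)
  have b2 := Pr_gad_big eG (elem_Test j1) (K := KC) (by positivity) (a_pos N _) (big CT hCT)
    (h2 N hN L0 L L1 j1)
  have b3 := h3 N hN L0 L L1 j1
  have e1 := eG.and ((elem_X j1).map fun n => ¬ (n : ℝ) ≤ KW * a N (j1 - L0 * N))
  have e2 := eG.and ((elem_Test j1).map fun n => ¬ (n : ℝ) ≤ KC * a N (j1 - (L0 + L1) * N))
  have e3 := eG.and ((elem_Test j1).map fun n => (n : ℝ) < κT * a N (j1 - (L0 + L + L1 + 3) * N))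
  have e0 := eG.and ((elem_Test j1).map₂ (elem_Test j2) fun t1 t2 =>
    (t2 : ℝ) / A2 ≤ c' * ((t1 : ℝ) / A1))
  have eW := elem_WEv N L0 L L1 j1 j2 A1 A2 c' KW KC κT
  have e4 := hw.not.and ((elem_Gcore N L1).pull τ)
  have b4 : Pr N (fun ω => ¬ wall ω ∧ Gcore N L1 (pull τ ω)) ≤ ε / 8 * Pr N (Gad N L0 L L1) := by
    rw [Pr_and_indep hw.not ((elem_Gcore N L1).pull τ) (hd.qmap Not)
      (dep_pull (dep_Gcore N L1) τ fun v hv => mem_image_of_mem _ hv),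
      Pr_pull (elem_Gcore N L1), Gad_prob, ← mul_assoc]
    exact mul_le_mul_of_nonneg_right (hθ.trans hθ') (Pr_nonneg _)
  have s1 := Pr_le_add (N := N) e0 eW (e1.or (e2.or e3)) fun ω h => by
    by_cases a1 : (X ω j1 : ℝ) ≤ KW * a N (j1 - L0 * N)
    · by_cases a2 : (Test ω j1 : ℝ) ≤ KC * a N (j1 - (L0 + L1) * N)
      · by_cases a3 : κT * a N (j1 - (L0 + L + L1 + 3) * N) ≤ Test ω j1
        · exact Or.inl ⟨h.1, h.2, a1, a2, a3⟩
        · exact Or.inr (Or.inr (Or.inr ⟨h.1, not_le.1 a3⟩))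
      · exact Or.inr (Or.inr (Or.inl ⟨h.1, a2⟩))
    · exact Or.inr (Or.inl ⟨h.1, a1⟩)
  have s2 := Pr_le_add (N := N) (e1.or (e2.or e3)) e1 (e2.or e3) fun _ h => h
  have s3 := Pr_le_add (N := N) (e2.or e3) e2 e3 fun _ h => h
  have s4 := Pr_le_add (N := N) (eW.pull τ) ((eW.pull τ).and hw) e4 fun ω h => by
    by_cases a1 : wall ω
    · exact Or.inl ⟨h, a1⟩
    · exact Or.inr ⟨a1, h.1.2⟩
  rw [Pr_pull eW] at s4
  linarith

lemma elem_Wall (H : ℕ) (t : ℤ × ℤ) (o : Bool) (j : ℕ) (x : ℝ) : Elem (Wall H t o j x) := by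
  have := (elem_TQ j).map fun A =>
    LBs {u | u ∈ A ∧ NonCore (gs H t o) u} (1 / (8 * 2 ^ H)) x
  have e : Wall H t o j x = fun ω =>
      LBs {u | u ∈ TQ ω j ∧ NonCore (gs H t o) u} (1 / (8 * 2 ^ H)) x := by
    funext ω
    unfold Wall
    congr 1
    ext u
    simp only [mem_ofPred_eq, mem_TQ, and_assoc]
  rw [e]
  exact this

lemma dep_Wall (H : ℕ) (t : ℤ × ℤ) (o : Bool) (j : ℕ) (x : ℝ) :
    DependsOn (Wall H t o j x) {v | Below root v ∧ v ∉ (gs H t o).g '' core} :=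
  (dep_T_set j (fun u => Below root u ∧ NonCore (gs H t o) u)
    (s := {v | Below root v ∧ v ∉ (gs H t o).g '' core}) fun u hu v hv =>
    ⟨hu.1.of_le hv (Nat.zero_le _), by rintro ⟨c, hc, rfl⟩; exact hu.2 c hc hv⟩).qmap
    fun A => LBs A (1 / (8 * 2 ^ H)) x

/-- good cell -/
def Gd (N H C1 : ℕ) (K0 κ1 κ2 κ3 θ : ℝ) (j : ℕ) (ω : Om) : Prop :=
  (X ω j : ℝ) ≤ K0 * a N j ∧ (∀ t ∈ boxF (2 ^ H), S ω ((zm H).g (gc t)) ≤ C1 * N) ∧
    80 * (Mx ω j H : ℝ) ≤ κ1 * a N j ∧ LBs (TQ ω j) (1 / (8 * 2 ^ H)) (κ2 * a N j) ∧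
    ∀ t ∈ boxF (2 ^ H) ×ˢ (Finset.univ : Finset Bool), Res N (Sub1 ((zm H).g (gc t.1)))
      (fun ω => ind (¬ Wall H t.1 t.2 j (κ3 * a N j) ω)) ω ≤ θ

lemma elem_Gd (N H C1 : ℕ) (K0 κ1 κ2 κ3 θ : ℝ) (j : ℕ) : Elem (Gd N H C1 K0 κ1 κ2 κ3 θ j) :=
  ((elem_X j).map fun n => (n : ℝ) ≤ K0 * a N j).and ((Elem.all _ fun _ _ => elem_S_le _ _).and
    (((elem_Mx j H).map fun n => 80 * (n : ℝ) ≤ κ1 * a N j).and ((elem_LBs j _ _ _).and
      (Elem.all _ fun t _ => (((elem_Wall H t.1 t.2 j _).not.map ind).res N _).map (· ≤ θ)))))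

lemma dep_Xh (k : ℕ) {c : Cell} (hc : Below root c) :
    DependsOn (fun ω => Xh ω k c) (Sub1 root) := by
  intro ω ω' h
  have h1 : S ω c = S ω' c := dep_S c fun v hv => h v (hc.of_le hv.1 (Nat.zero_le _))
  have h2 : X (pull (emb c) ω) (k - S ω' c) = X (pull (emb c) ω') (k - S ω' c) :=
    dep_pull_sub1 (dep_X _) (emb c) fun v hv => h v (hc.trans (by simpa [Sub1] using hv))
  simp only [Xh, h1, h2]

lemma dep_Gd (N H C1 : ℕ) (K0 κ1 κ2 κ3 θ : ℝ) (j : ℕ) :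
    DependsOn (Gd N H C1 K0 κ1 κ2 κ3 θ j) (Sub1 root) := by
  intro ω ω' h
  have h1 : X ω j = X ω' j := dep_X j h
  have h2 : TQ ω j = TQ ω' j := dep_TQ j h
  have h3 : Mx ω j H = Mx ω' j H :=
    Finset.sup_congr rfl fun c hc => dep_Xh j (mem_desc.1 hc).2 h
  unfold Gd
  rw [h1, h2, h3]
  congr 2
  · refine propext (forall₂_congr fun t ht => ?_)
    have : S ω ((zm H).g (gc t)) = S ω' ((zm H).g (gc t)) := dep_S _ fun v hv =>
      h v (((inBox_iff H t).1 (mem_boxF.1 ht)).of_le hv.1 (Nat.zero_le _))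
    rw [this]
  · congr 2
    refine propext (forall₂_congr fun t _ => ?_)
    rw [Res_dep' (dep_ind (((dep_Wall H t.1 t.2 j _).mono fun v hv => hv.1).qmap Not)) _ h]

lemma Gd_prob {κ1 p2 : ℝ} (hκ : 0 < κ1) (hp : 0 < p2) : ∃ (H C1 t : ℕ) (K0 κ2 : ℝ), 2 ≤ H ∧
    0 < K0 ∧ 0 < κ2 ∧ ∀ θ : ℝ, 0 < θ → ∃ κ3 : ℝ, 0 < κ3 ∧ ∀ N, 2 ≤ N → ∀ j, t * N ≤ j →
      Pr N (fun ω => ¬ Gd N H C1 K0 κ1 κ2 κ3 θ j ω) ≤ p2 := by
  obtain ⟨C2, hC2, h1⟩ := X_mom 2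
  obtain ⟨m0, h2⟩ := Mx_small (η := p2 / 5 * (κ1 / 80) ^ 2) (by positivity)
  obtain ⟨t, h2⟩ := h2 (max m0 2) (le_max_left _ _)
  set H := max m0 2
  obtain ⟨C1, h3⟩ := exists_comp H (ε := p2 / 5) (by positivity)
  obtain ⟨κ2, hκ2, -, h4⟩ := LB_prob {root} (ρ := 1 / (8 * 2 ^ H)) (ε := p2 / 5) (by positivity)
    (by positivity)
  refine ⟨H, C1, t, 5 * C2 / p2 + 1, κ2, le_max_right _ _, by positivity, hκ2, fun θ hθ => ?_⟩
  obtain ⟨κ3, hκ3, -, h5⟩ := LB_prob {root} (ρ := 1 / (8 * 2 ^ H))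
    (ε := θ * (p2 / 5 / (2 * (2 ^ H) ^ 2))) (by positivity) (by positivity)
  refine ⟨κ3, hκ3, fun N hN j hj => ?_⟩
  set K0 := 5 * C2 / p2 + 1
  have ha := a_pos N j
  have e1 := ((elem_X j).map fun n => (n : ℝ) ≤ K0 * a N j).not
  have e2 := (Elem.all (boxF (2 ^ H)) fun t _ => elem_S_le ((zm H).g (gc t)) (C1 * N)).not
  have e3 := ((elem_Mx j H).map fun n => 80 * (n : ℝ) ≤ κ1 * a N j).not
  have e4 := (elem_LBs j {root} (1 / (8 * 2 ^ H)) (κ2 * a N j)).not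
  have e5' := fun t : (ℤ × ℤ) × Bool => (((elem_Wall H t.1 t.2 j (κ3 * a N j)).not.map ind).res N
    (Sub1 ((zm H).g (gc t.1))))
  have e5 := (Elem.all (boxF (2 ^ H) ×ˢ (Finset.univ : Finset Bool)) fun t _ =>
    (e5' t).map (· ≤ θ)).not
  have b1 : Pr N (fun ω => ¬ (X ω j : ℝ) ≤ K0 * a N j) ≤ p2 / 5 := by
    have := Pr_gad_big (N := N) (Elem.const True) (elem_X j) (K := K0) (C := C2) (ε := p2 / 5)
      (by positivity) ha (by
        have h : 0 < 5 * C2 / p2 := by positivity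
        have e : p2 / 5 * (5 * C2 / p2) = C2 := by field_simp
        simp only [K0]; nlinarith)
      (by simpa [ind_pos trivial, Pr_true fun _ => trivial] using h1 N hN j)
    simpa [Pr_true fun _ => trivial] using this
  have b2 : Pr N (fun ω => ¬ ∀ t ∈ boxF (2 ^ H), S ω ((zm H).g (gc t)) ≤ C1 * N) ≤ p2 / 5 :=
    (Pr_mono e2 (Elem.all _ fun u _ => elem_Srel_le _ _ _).not fun ω hω hh => hω fun t ht => by
      rw [S_eq_Srel]
      exact hh _ (mem_desc.2 ⟨by simp [zm_gc, root], (inBox_iff H t).1 (mem_boxF.1 ht)⟩)).trans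
      (h3 N hN root)
  have b3 : Pr N (fun ω => ¬ 80 * (Mx ω j H : ℝ) ≤ κ1 * a N j) ≤ p2 / 5 := by
    have := Pr_gad_big (N := N) (Elem.const True) (elem_Mx j H) (K := κ1 / 80)
      (C := p2 / 5 * (κ1 / 80) ^ 2) (ε := p2 / 5) (by positivity) ha le_rfl
      (by simpa [ind_pos trivial, Pr_true fun _ => trivial] using h2 N hN j hj)
    rw [Pr_true fun _ => trivial, mul_one] at this
    refine le_trans (le_of_eq (Pr_congr fun ω => ?_)) this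
    simp only [true_and, not_le]
    constructor <;> intro h <;> linarith
  have b4 := h4 N hN j
  have b5 : Pr N (fun ω => ¬ ∀ t ∈ boxF (2 ^ H) ×ˢ (Finset.univ : Finset Bool),
      Res N (Sub1 ((zm H).g (gc t.1)))
        (fun ω => ind (¬ Wall H t.1 t.2 j (κ3 * a N j) ω)) ω ≤ θ) ≤ p2 / 5 := by
    refine (Pr_le_card _ e5 (fun t _ => ((e5' t).map (· ≤ θ)).not)
      (fun ω hω => by push Not at hω ⊢; exact hω) (ε := p2 / 5 / (2 * (2 ^ H) ^ 2))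
      fun t _ => ?_).trans (le_of_eq ?_)
    · refine (Pr_le_E_div ((e5' t).map (· ≤ θ)).not (e5' t).nice hθ
        (fun ω => Res_nonneg (fun _ => ind_nonneg _) _ _) fun ω hω => (not_le.1 hω).le).trans ?_
      rw [E_Res (elem_Wall H t.1 t.2 j _).not.ind, div_le_iff₀ hθ]
      refine le_trans (Pr_mono (elem_Wall H t.1 t.2 j _).not (elem_LBs j _ _ _).not
        fun ω hω hh => hω ?_) ((h5 N hN j).trans (le_of_eq (mul_comm _ _)))
      exact hh.mono (fun u hu => mem_TQ.2 ⟨hu.1, hu.2.1⟩) le_rfl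
    · rw [Finset.card_product, card_boxF]
      simp only [Finset.card_univ, Fintype.card_bool]
      push_cast
      field_simp
  have s1 := Pr_le_add (N := N) (elem_Gd N H C1 K0 κ1 κ2 κ3 θ j).not e1 (e2.or (e3.or (e4.or e5)))
    fun ω h => by
      unfold Gd at h
      simp only [not_and_or] at h
      exact h
  have s2 := Pr_le_add (N := N) (e2.or (e3.or (e4.or e5))) e2 (e3.or (e4.or e5)) fun _ h => h
  have s3 := Pr_le_add (N := N) (e3.or (e4.or e5)) e3 (e4.or e5) fun _ h => h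
  have s4 := Pr_le_add (N := N) (e4.or e5) e4 e5 fun _ h => h
  linarith

end Pool.Agent.P.MP_8c7dae_pr
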