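import Pool.Agent.P.MP_8c7dae_pr.ImpC

open MeasureTheory Set Filter

namespace Pool.Agent.P.MP_8c7dae_pr

/-- an opportunity to improve the geodesic inside `c` -/
def Opp (N k H w : ℕ) (κ : ℝ) (G : ℕ → Om → Prop) (x y : Pt) (c : Cell) (α β : ℤ × ℤ)
    (ω : Om) : Prop :=
  (∀ u ∈ desc (c.1 + H) root, S ω u ≤ w * N) ∧ G (k - S ω c) (pull (emb c) ω) ∧
    ∃ p v, Geod (TQ ω k) {x} {y} p v ∧ ∃ i0 j0, i0 ≤ j0 ∧ j0 < d ω k x y ∧
      Below ((sg c H).g (gc α)) (v i0) ∧ Below ((sg c H).g (gc β)) (v j0) ∧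
      κ * a N (k - S ω c) ≤ ((j0 + 1 - i0 : ℕ) : ℝ)

/-- every geodesic has a cheap segment inside `c` -/
def Sh (N k1 k2 : ℕ) (A1 A2 C κ : ℝ) (x y : Pt) (c : Cell) (ω : Om) : Prop :=
  ∀ p v, Geod (TQ ω k1) {x} {y} p v → ∃ i j, i < j ∧ j ≤ d ω k1 x y ∧
    (∀ t, i ≤ t → t < j → Below c (v t)) ∧
    (d ω k2 (p i) (p j) : ℝ) / A2 ≤ C * (((j - i : ℕ) : ℝ) / A1) - κ * a N (k1 - S ω c) / A1

lemma elem_Opp (N k H w : ℕ) (κ : ℝ) {G : ℕ → Om → Prop} (hG : ∀ j, Elem (G j)) (x y : Pt)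
    (c : Cell) (α β : ℤ × ℤ) : Elem (Opp N k H w κ G x y c α β) :=
  (Elem.all _ fun _ _ => elem_S_le _ _).and ((Elem.aged hG (emb c) c k).and
    ((elem_TQ k).map₂ (elem_age c k) fun A j => ∃ p v, Geod A {x} {y} p v ∧ ∃ i0 j0, i0 ≤ j0 ∧
      j0 < dS A {x} {y} ∧ Below ((sg c H).g (gc α)) (v i0) ∧ Below ((sg c H).g (gc β)) (v j0) ∧
      κ * a N j ≤ ((j0 + 1 - i0 : ℕ) : ℝ)))

lemma elem_Sh (N k1 k2 : ℕ) (A1 A2 C κ : ℝ) (x y : Pt) (c : Cell) :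
    Elem (Sh N k1 k2 A1 A2 C κ x y c) :=
  Elem.map₃ (elem_TQ k1) (elem_TQ k2) (elem_age c k1) fun A B s =>
    ∀ p v, Geod A {x} {y} p v → ∃ i j, i < j ∧ j ≤ dS A {x} {y} ∧
      (∀ t, i ≤ t → t < j → Below c (v t)) ∧
      (dS B {p i} {p j} : ℝ) / A2 ≤ C * (((j - i : ℕ) : ℝ) / A1) - κ * a N s / A1

lemma pull_pw (σ : Sim) (u : Cell) (ω' ω : Om) :
    pull σ (pw (Sub1 (σ.g u)) ω' ω) = pw (Sub1 u) (pull σ ω') (pull σ ω) := by
  funext v
  by_cases h : Below u v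
  · rw [pw_mem (s := Sub1 u) h]
    exact pw_mem (s := Sub1 (σ.g u)) ((σ.below_iff u v).2 h) ω' ω
  · rw [pw_not (s := Sub1 u) h]
    exact pw_not (s := Sub1 (σ.g u)) (fun h' => h ((σ.below_iff u v).1 h')) ω' ω

lemma S_sg {ω : Om} (c : Cell) {H : ℕ} {t : ℤ × ℤ} (ht : InBox (2 ^ H) t) :
    S ω ((sg c H).g (gc t)) = S ω c + S (pull (emb c) ω) ((zm H).g (gc t)) := by
  have := S_pull (ω := ω) (emb c) ((zm H).g (gc t))
  rw [(below_root_iff _).1 ((inBox_iff H t).1 ht), emb_root] at this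
  exact this

lemma decay_mul {K δ : ℝ} (hK : 0 < K) (hδ : 0 < δ) : ∃ L0 : ℕ, ∀ L, L0 ≤ L → ∀ N, 2 ≤ N → ∀ j,
    L * N ≤ j → K * (a N (j - L * N) : ℝ) ≤ δ * a N j := by
  obtain ⟨L0, h⟩ := exists_decay (δ := δ / K) (by positivity)
  refine ⟨L0, fun L hL N hN j hj => ?_⟩
  have := mul_le_mul_of_nonneg_left (h L hL N hN j hj) hK.le
  rwa [← mul_assoc, mul_div_cancel₀ _ hK.ne'] at this

theorem core_res (ε g0 Cα κ1 p2 : ℝ) (L : ℕ) (hε : 0 < ε) (hg0 : 0 < g0) (hC : 0 < Cα) (hL : 1 ≤ L)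
    (hκ1 : 0 < κ1) (hp2 : 0 < p2) :
    ∃ (H L0 L1 t1 w1 : ℕ) (K0 κ5 γ : ℝ) (G : ℕ → ℕ → Om → Prop), 0 < K0 ∧ 0 < κ5 ∧ 0 < γ ∧
      (∀ N j, Elem (G N j)) ∧ (∀ N j, DependsOn (G N j) (Sub1 root)) ∧
      (∀ N, 2 ≤ N → ∀ j, t1 * N ≤ j → Pr N (fun ω => ¬ G N j ω) ≤ p2) ∧
      (∀ N j ω, G N j ω → (X ω j : ℝ) ≤ K0 * a N j) ∧
      ∀ N, 2 ≤ N → ∀ (w k1 k2 : ℕ) (A1 A2 c' C : ℝ), (w + t1) * N ≤ k1 → w * N ≤ k2 →
        0 < A1 → 0 < A2 →
        (∀ s ≤ (w + w1) * N, (a N (k2 - s) : ℝ) / A2 ≤ Cα * ((a N (k1 - s) : ℝ) / A1)) →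
        (∀ s ≤ w * N, ε * Pr N (Gad N L0 L L1) ≤ Pr N (fun ω => Gad N L0 L L1 ω ∧
          (Test ω (k2 - s) : ℝ) / A2 ≤ c' * ((Test ω (k1 - s) : ℝ) / A1))) →
        0 ≤ c' → c' + g0 ≤ C → ∀ (x y : Pt) (c : Cell), Below root c → ∀ α β : ℤ × ℤ,
          InBox (2 ^ H) α → InBox (2 ^ H) β → ∃ Sg ⊆ Deep (c.1 + H), ∀ ω,
            Opp N k1 H w κ1 (G N) x y c α β ω →
              γ ≤ Res N Sg (fun ω => ind (Sh N k1 k2 A1 A2 C κ5 x y c ω)) ω := by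
  obtain ⟨H, C1, t, K0, κ2, hH, hK0, hκ2, hGd⟩ := Gd_prob hκ1 hp2
  obtain ⟨KW, KC, κT, hKW, hKC, hκT, hW⟩ := W_prob hε
  obtain ⟨KT, hKT, hT⟩ := T_small
  obtain ⟨κ2', hκ2', b1, b2⟩ : ∃ κ : ℝ, 0 < κ ∧ κ ≤ κ2 ∧ κ ≤ κ1 / 4 :=
    ⟨min κ2 (κ1 / 4), lt_min hκ2 (by positivity), min_le_left _ _, min_le_right _ _⟩
  obtain ⟨L0, d0⟩ := decay_mul (K := KW) (δ := κ2' / 4) hKW (by positivity)
  replace d0 := d0 L0 le_rfl
  obtain ⟨γt, hγt, hGt⟩ := Gtop_lb L0 L hL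
  obtain ⟨κ3, hκ3, hGd⟩ := hGd (ε / 8 * γt) (by positivity)
  obtain ⟨κ3', hκ3', b3, b4⟩ : ∃ κ : ℝ, 0 < κ ∧ κ ≤ κ3 ∧ κ ≤ κ2' / 2 :=
    ⟨min κ3 (κ2' / 2), lt_min hκ3 (by positivity), min_le_left _ _, min_le_right _ _⟩
  obtain ⟨L1, d1⟩ := decay_mul (K := 8 * 2 ^ H * KC) (δ := κ3' / 3) (by positivity) (by positivity)
  replace d1 := d1 (L0 + L1) (by omega)
  obtain ⟨γc, hγc, hGc⟩ := Gcore_lb L1
  obtain ⟨M, hM, gM⟩ := exists_grow (C1 + (L0 + L + L1 + 3))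
  obtain ⟨LA, dA⟩ := decay_mul (K := 8 * 2 ^ H * KT) (δ := κ3' / 3) (by positivity) (by positivity)
  obtain ⟨LB, dB⟩ := decay_mul (K := 2 * KT * Cα) (δ := g0 * (κT / M) / 2) (by positivity)
    (by positivity)
  replace dA := dA (LA + LB) (by omega)
  replace dB := dB (LA + LB) (by omega)
  obtain ⟨γT, hγT, hT⟩ := hT (LA + LB)
  obtain ⟨tb, hb⟩ := exists_big (3 / κ3')
  obtain ⟨γ0, hγ0, g1, g2, g3⟩ : ∃ γ : ℝ, 0 < γ ∧ γ ≤ 1 ∧ γ ≤ γT ∧ γ ≤ ε / 2 * (γt * γc) :=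
    ⟨min 1 (min γT (ε / 2 * (γt * γc))), lt_min one_pos (lt_min hγT (by positivity)),
      min_le_left _ _, (min_le_right _ _).trans (min_le_left _ _),
      (min_le_right _ _).trans (min_le_right _ _)⟩
  refine ⟨H, L0, L1, t + (L0 + L1) + (LA + LB) + tb, LA + LB, K0, g0 * (κT / M) / 2,
    γ0 ^ (3 * (2 ^ H) ^ 2), fun N => Gd N H C1 K0 κ1 κ2 κ3 (ε / 8 * γt), hK0, by positivity,
    by positivity, fun N j => elem_Gd _ _ _ _ _ _ _ _ _, fun N j => dep_Gd _ _ _ _ _ _ _ _ _,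
    fun N hN j hj => hGd N hN j (le_trans (Nat.mul_le_mul_right _ (by omega)) hj),
    fun N j ω h => h.1,
    fun N hN w k1 k2 A1 A2 c' C hk1 hk2 hA1 hA2 hα hlow hc' hCc x y c hc α β hα' hβ' => ?_⟩
  obtain ⟨Tc, Wc, hw⟩ := exists_HW (2 ^ H)
    (le_trans (by norm_num) (Nat.pow_le_pow_right (by norm_num : 0 < 2) hH)) hα' hβ'
  set cell : ℤ × ℤ → Cell := fun t => (sg c H).g (gc t) with hcell
  refine ⟨{v | (∃ t ∈ Tc, Below (cell t) v) ∨ ∃ w ∈ Wc, Below (cell w.1) v}, ?_, fun ω ho => ?_⟩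
  · rintro v (⟨t, -, h⟩ | ⟨t, -, h⟩)
    · have := h.1; rwa [sg_fst] at this
    · have := h.1; rwa [sg_fst] at this
  set Sg : Set Cell := {v | (∃ t ∈ Tc, Below (cell t) v) ∨ ∃ w ∈ Wc, Below (cell w.1) v} with hSg
  obtain ⟨o1, ⟨o2, o3, o4, o5, o6⟩, p0, v0, o7, i0, j0, o8, o9, o10, o11, o12⟩ := ho
  set j := k1 - S ω c with hj
  have hdesc : ∀ t, InBox (2 ^ H) t → cell t ∈ desc (c.1 + H) root := fun t ht =>
    mem_desc.2 ⟨by rw [sg_fst]; simp [root], hc.trans (sg_below_gc ht)⟩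
  have hSc : S ω c ≤ w * N := (S_mono (sg_below_gc hα')).trans (o1 _ (hdesc _ hα'))
  have hS : ∀ t, InBox (2 ^ H) t → S ω c ≤ S ω (cell t) ∧ S ω (cell t) ≤ S ω c + C1 * N :=
    fun t ht => by
      have := o3 t (mem_boxF.2 ht)
      rw [hcell]
      simp only [S_sg c ht]
      omega
  have hjN : (t + (L0 + L1) + (LA + LB) + tb) * N ≤ j := by
    rw [Nat.add_mul w] at hk1; omega
  have ha := a_pos N j
  let TEv : ℕ → ℕ → Om → Prop := fun j1 j2 ω => (X ω j1 : ℝ) ≤ KT * a N (j1 - (LA + LB) * N) ∧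
    (X ω j2 : ℝ) ≤ KT * a N (j2 - (LA + LB) * N)
  have eT : ∀ j1 j2, Elem (TEv j1 j2) := fun j1 j2 => (elem_X j1).map₂ (elem_X j2) fun x1 x2 =>
    (x1 : ℝ) ≤ KT * a N (j1 - (LA + LB) * N) ∧ (x2 : ℝ) ≤ KT * a N (j2 - (LA + LB) * N)
  have dT : ∀ j1 j2, DependsOn (TEv j1 j2) (Sub1 root) := fun j1 j2 =>
    (dep_X j1).qmap₂ (dep_X j2) fun x1 x2 =>
      (x1 : ℝ) ≤ KT * a N (j1 - (LA + LB) * N) ∧ (x2 : ℝ) ≤ KT * a N (j2 - (LA + LB) * N)
  let wall : (ℤ × ℤ) × Bool → Om → Prop := fun u ω' =>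
    Wall H u.1 u.2 j (κ3 * a N j) (pull (emb c) (pw (Sub1 (cell u.1)) ω' ω))
  have ewall : ∀ u, Elem (wall u) := fun u =>
    ((elem_Wall H u.1 u.2 j (κ3 * a N j)).pull (emb c)).pw _ ω
  let B : (ℤ × ℤ) ⊕ ((ℤ × ℤ) × Bool) → Om → Prop := Sum.elim
    (fun t ω' => TEv (k1 - S ω (cell t)) (k2 - S ω (cell t)) (pull (gw c H t false) ω'))
    (fun u ω' => WEv N L0 L L1 (k1 - S ω (cell u.1)) (k2 - S ω (cell u.1)) A1 A2 c' KW KC κT
      (pull (gw c H u.1 u.2) ω') ∧ wall u ω')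
  let cl : (ℤ × ℤ) ⊕ ((ℤ × ℤ) × Bool) → Cell := Sum.elim cell fun u => cell u.1
  have eB : ∀ i, Elem (B i) := by
    rintro (t | u)
    · exact (eT _ _).pull _
    · exact ((elem_WEv _ _ _ _ _ _ _ _ _ _ _ _).pull _).and (ewall u)
  have dB' : ∀ i, DependsOn (B i) (Sub1 (cl i)) := by
    rintro (t | u)
    · have := dep_pull_sub1 (dT (k1 - S ω (cell t)) (k2 - S ω (cell t))) (gw c H t false)
      rwa [gw_root] at this
    · have h1 := dep_pull_sub1 (dep_WEv N L0 L L1 (k1 - S ω (cell u.1)) (k2 - S ω (cell u.1))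
        A1 A2 c' KW KC κT) (gw c H u.1 u.2)
      rw [gw_root] at h1
      have h2 : DependsOn (wall u) (Sub1 (cell u.1)) := fun x y h => by
        have : pw (Sub1 (cell u.1)) x ω = pw (Sub1 (cell u.1)) y ω := funext fun v => by
          by_cases hv : v ∈ Sub1 (cell u.1)
          · rw [pw_mem hv, pw_mem hv, h v hv]
          · rw [pw_not hv, pw_not hv]
        simp only [wall, this]
      exact h1.qmap₂ h2 And
  have cinj : ∀ t t', cell t = cell t' → t = t' := fun t t' h => by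
    have := (sg c H).inj h
    simp only [gc, Prod.mk.injEq, true_and] at this
    exact Prod.ext this.1 this.2
  have pB : γ0 ^ (Tc.disjSum Wc).card ≤ Pr N (fun ω' => ∀ i ∈ Tc.disjSum Wc, B i ω') := by
    refine Pr_all_ge _ cl (fun i _ => eB i) (fun i _ => dB' i) (g := c.1 + H) ?_ ?_ hγ0.le ?_
    · rintro (t | u) - <;> exact sg_fst _ _ _
    · rintro (t | u) h (t' | u') h' e
      · rw [cinj _ _ e]
      · exact absurd (cinj _ _ e ▸ Finset.inl_mem_disjSum.1 h)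
          (hw.2.2.1 u' (Finset.inr_mem_disjSum.1 h'))
      · exact absurd (cinj _ _ e ▸ Finset.inl_mem_disjSum.1 h')
          (hw.2.2.1 u (Finset.inr_mem_disjSum.1 h))
      · rw [hw.2.2.2.1 u (Finset.inr_mem_disjSum.1 h) u' (Finset.inr_mem_disjSum.1 h')
          (cinj _ _ e)]
    · rintro (t | u) h
      · exact (g2.trans (hT N hN _ _)).trans (Pr_pull (eT _ _) _).ge
      · have hin := hw.2.1 u (Finset.inr_mem_disjSum.1 h)
        refine le_trans ?_ (hW N hN L0 L L1 _ _ A1 A2 c' (ε / 8 * γt) (gw c H u.1 u.2) (wall u)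
          (ewall u) ?_ ?_ (mul_le_mul_of_nonneg_left (hGt N hN) (by positivity))
          (hlow _ (o1 _ (hdesc _ hin))))
        · refine g3.trans (mul_le_mul_of_nonneg_left ?_ (by positivity))
          rw [Gad_prob]
          exact mul_le_mul (hGt N hN) (hGc N hN) hγc.le (Pr_nonneg _)
        · intro x y h
          refine dep_Wall H u.1 u.2 j _ fun v hv => ?_
          have hn : (emb c).g v ∈ ((gw c H u.1 u.2).g '' core)ᶜ := by
            rintro ⟨z, hz, e⟩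
            exact hv.2 ⟨z, hz, (emb c).inj e⟩
          by_cases hs : (emb c).g v ∈ Sub1 (cell u.1)
          · exact (pw_mem hs x ω).trans ((h _ hn).trans (pw_mem hs y ω).symm)
          · exact (pw_not hs x ω).trans (pw_not hs y ω).symm
        · refine le_trans (le_of_eq ?_) (o6 u (Finset.mem_product.2
            ⟨mem_boxF.2 hin, Finset.mem_univ _⟩))
          have e := fun ω' => pull_pw (emb c) ((zm H).g (gc u.1)) ω' ω
          refine Eq.trans ?_ (E_pull ((elem_Wall H u.1 u.2 j (κ3 * a N j)).not.ind.pw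
            (Sub1 ((zm H).g (gc u.1))) (pull (emb c) ω)) (emb c))
          exact E_congr fun ω' => by rw [← e]; rfl
  have det : ∀ ω' : Om, (∀ v, v ∉ Sg → ω' v = ω v) → (∀ i ∈ Tc.disjSum Wc, B i ω') →
      Sh N k1 k2 A1 A2 C (g0 * (κT / M) / 2) x y c ω' := by
    intro ω' hag hB p v hg
    have hBT := fun t ht => hB (Sum.inl t) (Finset.inl_mem_disjSum.2 ht)
    have hBW := fun u hu => hB (Sum.inr u) (Finset.inr_mem_disjSum.2 hu)
    have e0 := d0 N hN j (le_trans (Nat.mul_le_mul_right _ (by omega)) hjN)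
    have e1 := d1 N hN j (le_trans (Nat.mul_le_mul_right _ (by omega)) hjN)
    have eA := dA N hN j (le_trans (Nat.mul_le_mul_right _ (by omega)) hjN)
    have eB := dB N hN j (le_trans (Nat.mul_le_mul_right _ (by omega)) hjN)
    have eb := hb N hN j (le_trans (Nat.mul_le_mul_right _ (by omega)) hjN)
    rw [div_le_iff₀ hκ3'] at eb
    set xT := ⌊KT * a N (j - (LA + LB) * N)⌋₊
    set xT2 := ⌊KT * a N (k2 - (S ω c + (LA + LB) * N))⌋₊
    set xW := ⌊KW * a N (j - L0 * N)⌋₊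
    set xC := ⌊KC * a N (j - (L0 + L1) * N)⌋₊
    have fT : (xT : ℝ) ≤ KT * a N (j - (LA + LB) * N) := Nat.floor_le (by positivity)
    have fT2 : (xT2 : ℝ) ≤ KT * a N (k2 - (S ω c + (LA + LB) * N)) := Nat.floor_le (by positivity)
    have fW : (xW : ℝ) ≤ KW * a N (j - L0 * N) := Nat.floor_le (by positivity)
    have fC : (xC : ℝ) ≤ KC * a N (j - (L0 + L1) * N) := Nat.floor_le (by positivity)
    have n1 : ((8 * 2 ^ H * (xT + xC) : ℕ) : ℝ) + 1 ≤ κ3' * a N j := by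
      have h1 := mul_le_mul_of_nonneg_left fT (by positivity : (0 : ℝ) ≤ 8 * 2 ^ H)
      have h2 := mul_le_mul_of_nonneg_left fC (by positivity : (0 : ℝ) ≤ 8 * 2 ^ H)
      push_cast
      nlinarith
    have m2 := mul_le_mul_of_nonneg_right b4 ha.le
    have m3 := mul_le_mul_of_nonneg_right b2 ha.le
    have n2 : ((8 * 2 ^ H * (xT + xC) + 2 * xW : ℕ) : ℝ) + 1 ≤ κ2' * a N j := by
      rw [Nat.cast_add]
      push_cast at n1 ⊢
      linarith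
    have n3 : 8 * 2 ^ H * (xT + xC) + 2 * xW + 1 ≤ ⌊κ1 / 4 * a N j⌋₊ :=
      Nat.le_floor (by push_cast at n2 ⊢; linarith)
    have fm : ((⌊κ1 / 4 * a N j⌋₊ : ℕ) : ℝ) ≤ κ1 / 4 * a N j := Nat.floor_le (by positivity)
    obtain ⟨u, hu, i, i', h1, h2, h3, h4, h5⟩ := sh_det (ω := ω) (ω' := ω') (k1 := k1) (k2 := k2) hc hw
      (fun v h1 h2 => hag v (by rintro (⟨t, ht, h⟩ | ⟨t, ht, h⟩); exacts [h1 t ht h, h2 t ht h]))
      (fun u hu => ⟨(o1 u hu).trans (le_trans (Nat.mul_le_mul_right _ (by omega)) hk1),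
        (o1 u hu).trans hk2⟩) (x := x) (y := y) (m := ⌊κ1 / 4 * a N j⌋₊)
      (e1 := 8 * 2 ^ H * (xT + xC)) (e2 := 8 * 2 ^ H * (xT + xC) + 2 * xW) (xT := xT) (xW := xW)
      (xC := xC) (xT2 := xT2)
      ⟨p0, v0, o7, i0, j0, o8, o9, o10, o11, by
        have : ((4 * ⌊κ1 / 4 * a N j⌋₊ : ℕ) : ℝ) ≤ ((j0 + 1 - i0 : ℕ) : ℝ) := by
          push_cast at o12 ⊢; linarith
        have := Nat.cast_le.1 this
        omega⟩
      (Nat.le_floor (by push_cast; linarith))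
      (o5.mono subset_rfl (n2.trans (mul_le_mul_of_nonneg_right b1 ha.le)))
      (fun u hu => ⟨pw (Sub1 (cell u.1)) ω' ω, fun v hv => pw_mem hv _ _, fun v hv => pw_not hv _ _,
        LBs.mono (hBW u hu).2 subset_rfl (n1.trans (mul_le_mul_of_nonneg_right b3 ha.le))⟩)
      (fun t ht => by
        have := hS t (hw.1 t ht)
        exact ⟨Nat.le_floor ((hBT t ht).1.trans
          (mul_le_mul_of_nonneg_left (a_mono' N (by omega)) hKT.le)),
          Nat.le_floor ((hBT t ht).2.trans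
          (mul_le_mul_of_nonneg_left (a_mono' N (by omega)) hKT.le))⟩)
      (fun u hu => by
        have := hS u.1 (hw.2.1 u hu)
        exact ⟨Nat.le_floor ((hBW u hu).1.2.2.1.trans
          (mul_le_mul_of_nonneg_left (a_mono' N (by omega)) hKW.le)),
          Nat.le_floor ((hBW u hu).1.2.2.2.1.trans
          (mul_le_mul_of_nonneg_left (a_mono' N (by omega)) hKC.le))⟩)
      le_rfl le_rfl (by omega) (by omega) p v hg
    refine ⟨i, i', h1, h2, h3, ?_⟩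
    have eS : S ω' c = S ω c := dep_S c fun z hz => hag z (by
      rintro (⟨t, -, h⟩ | ⟨t, -, h⟩) <;>
      · have := h.1; have := hz.2; rw [sg_fst] at *; omega)
    obtain ⟨⟨-, w1, -, -, w2⟩, -⟩ := hBW u hu
    have hs := hS u.1 (hw.2.1 u hu)
    have w3 := gM N hN j (k1 - S ω (cell u.1) - (L0 + L + L1 + 3) * N) (by
      rw [Nat.add_mul C1]; omega)
    have w4 := hα (S ω c + (LA + LB) * N) (by rw [Nat.add_mul w]; omega)
    rw [show k1 - (S ω c + (LA + LB) * N) = j - (LA + LB) * N by omega] at w4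
    rw [eS, ← hj]
    set T1 := Test (pull (gw c H u.1 u.2) ω') (k1 - S ω (cell u.1))
    set T2 := Test (pull (gw c H u.1 u.2) ω') (k2 - S ω (cell u.1))
    have w5 : κT / M * a N j ≤ T1 := by
      refine le_trans ?_ w2
      rw [div_mul_eq_mul_div, div_le_iff₀ hM]
      nlinarith
    have w6 : (d ω' k2 (p i) (p i') : ℝ) / A2 ≤ T2 / A2 + 2 * xT2 / A2 := by
      rw [← add_div]
      exact div_le_div_of_nonneg_right (by exact_mod_cast h5) hA2.le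
    have w7 : 2 * (xT2 : ℝ) / A2 ≤ g0 * (κT / M) / 2 * a N j / A1 :=
      calc 2 * (xT2 : ℝ) / A2 ≤ 2 * (KT * a N (k2 - (S ω c + (LA + LB) * N))) / A2 := by gcongr
        _ = 2 * KT * (a N (k2 - (S ω c + (LA + LB) * N)) / A2) := by ring
        _ ≤ 2 * KT * (Cα * (a N (j - (LA + LB) * N) / A1)) := by gcongr
        _ = 2 * KT * Cα * a N (j - (LA + LB) * N) / A1 := by ring
        _ ≤ _ := by gcongr
    have w8 : (T1 : ℝ) / A1 ≤ ((i' - i : ℕ) : ℝ) / A1 :=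
      div_le_div_of_nonneg_right (by exact_mod_cast h4) hA1.le
    have w9 : κT / M * a N j / A1 ≤ T1 / A1 := div_le_div_of_nonneg_right w5 hA1.le
    have w10 : (0 : ℝ) ≤ T1 / A1 := by positivity
    have w11 := mul_le_mul_of_nonneg_left w8 (by linarith : 0 ≤ C)
    have w12 := mul_le_mul_of_nonneg_left w9 hg0.le
    have w13 := mul_le_mul_of_nonneg_right hCc w10
    have w14 : g0 * (κT / M * a N j / A1) = 2 * (g0 * (κT / M) / 2 * a N j / A1) := by ring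
    linarith
  have hcard : (Tc.disjSum Wc).card ≤ 3 * (2 ^ H) ^ 2 := by
    have h1 : Tc.card ≤ (boxF (2 ^ H)).card :=
      Finset.card_le_card fun t ht => mem_boxF.2 (hw.1 t ht)
    have h2 : Wc.card ≤ (boxF (2 ^ H) ×ˢ (Finset.univ : Finset Bool)).card :=
      Finset.card_le_card fun t ht => Finset.mem_product.2
        ⟨mem_boxF.2 (hw.2.1 t ht), Finset.mem_univ _⟩
    rw [Finset.card_product, Finset.card_univ, Fintype.card_bool, card_boxF] at *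
    rw [Finset.card_disjSum]
    omega
  refine ((pow_le_pow_of_le_one hγ0.le g1 hcard).trans pB).trans
    (Pr_mono (Elem.all _ fun i _ => eB i) ((elem_Sh _ _ _ _ _ _ _ _ _ _).pw Sg ω) fun ω' h => ?_)
  refine det _ (fun v hv => pw_not hv _ _) fun i hi => ?_
  rw [dB' i (y := ω') fun v hv => pw_mem ?_ _ _]
  · exact h i hi
  · rcases i with t | u
    · exact Or.inl ⟨t, Finset.inl_mem_disjSum.1 hi, hv⟩
    · exact Or.inr ⟨u, Finset.inr_mem_disjSum.1 hi, hv⟩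

end Pool.Agent.P.MP_8c7dae_pr
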