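import Pool.Agent.P.MP_8c7dae_pr.ImpD

open MeasureTheory Set Filter

namespace Pool.Agent.P.MP_8c7dae_pr

lemma exists_box {c v : Cell} {H : ℕ} (hb : Below c v) (hd : c.1 + H ≤ v.1) :
    ∃ α ∈ boxF (2 ^ H), Below ((sg c H).g (gc α)) v := by
  obtain ⟨u, hu⟩ := (sg c H).surj (anc (c.1 + H) v) (by rw [sg_s]; exact le_rfl)
  have h0 : u.1 = 0 := by
    have := (sg c H).fst u
    rw [hu, sg_s] at this
    simp only [anc] at this
    omega
  have e : gc u.2 = u := Prod.ext h0.symm rfl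
  refine ⟨u.2, mem_boxF.2 ?_, by rw [e, hu]; exact below_anc hd⟩
  have := (sg_below (c := c) (H := H) (v := u)).1 (hu ▸ hb.anc_below (by omega) hd)
  simpa [anc, h0] using this

/-- total weight of the opportunities -/
noncomputable def Gam (N k H w D h : ℕ) (κ : ℝ) (G : ℕ → Om → Prop) (x y : Pt) (ω : Om) : ℝ :=
  ∑ j ∈ Finset.range D, ∑ c ∈ desc (D + j * h + h) root,
    ∑ t ∈ boxF (2 ^ H) ×ˢ boxF (2 ^ H),
      a N (k - S ω c) * ind (Opp N k H w κ G x y c t.1 t.2 ω)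

lemma Gam_nonneg (N k H w D h : ℕ) (κ : ℝ) (G : ℕ → Om → Prop) (x y : Pt) (ω : Om) :
    0 ≤ Gam N k H w D h κ G x y ω :=
  Finset.sum_nonneg fun _ _ => Finset.sum_nonneg fun _ _ => Finset.sum_nonneg fun _ _ =>
    mul_nonneg (a_pos _ _).le (ind_nonneg _)

lemma charge {N k H w D h : ℕ} {ω : Om} {x y : Pt} (hx : x ∈ Q) (hy : y ∈ Q)
    {G : ℕ → Om → Prop} {κ K K0 : ℝ} (hK : 0 ≤ K) (hK0 : 0 ≤ K0)
    (hGX : ∀ j ω, G j ω → (X ω j : ℝ) ≤ K0 * a N j)
    (hcomp : ∀ c ∈ desc (D + D * h + H) root, S ω c ≤ w * N) (hw : w * N ≤ k)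
    (hst : ∀ (p : ℕ → Pt) (v : ℕ → Cell) (n : ℕ), IsCh (TQ ω k) p v 0 n → ∀ τ ≤ n,
      1 < 2 ^ D * dist (p τ) (p 0) → 1 < 2 ^ D * dist (p τ) (p n) →
      ∃ J ⊆ Finset.range D, D ≤ 2 * J.card ∧
        ∀ j ∈ J, GoodInt N ω k k v n τ G κ K (D + j * h) h) :
    (D : ℝ) * (d ω k x y - 4 * Mx ω k D - 1) ≤
      2 * (4 * K ^ 2 + 2 * K0 + 1) * Gam N k H w D h κ G x y ω := by
  classical
  obtain ⟨p, v, hg⟩ := (conn_TQ (ω := ω) (k := k) (I := {x}) (J := {y}) hx hy rfl rfl).geod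
  have hc : IsCh (TQ ω k) p v 0 (d ω k x y) := hg.1
  set n := d ω k x y with hn
  have h0 : p 0 = x := hg.2.1
  have h1 : p n = y := hg.2.2
  have hQ : ∀ t ≤ n, p t ∈ Q := fun t ht => hc.mem_Q (h0 ▸ hx) ht
  have hv : ∀ t < n, Below root (v t) := fun t ht => (mem_TQ.1 (hc t (Nat.zero_le _) ht).1).2
  have hdeep : ∀ t < n, D + D * h + H ≤ (v t).1 := fun t ht =>
    tile_deep (fun c hc => (hcomp c hc).trans hw) (hc t (Nat.zero_le _) ht).1
  set Far := Finset.Ioo (2 * Mx ω k D) (n - 2 * Mx ω k D) with hFar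
  have far : ∀ τ ∈ Far, ∃ J ⊆ Finset.range D, D ≤ 2 * J.card ∧
      ∀ j ∈ J, GoodInt N ω k k v n τ G κ K (D + j * h) h := fun τ hτ => by
    rw [Finset.mem_Ioo] at hτ
    have hτn : τ ≤ n := by omega
    refine hst p v n hc τ hτn ?_ ?_
    · by_contra hle
      have := hg.le (Nat.zero_le τ) hτn (reach_near_one (hQ 0 (Nat.zero_le _)) (hQ τ hτn)
        (by rw [dist_comm]; exact not_lt.1 hle))
      omega
    · by_contra hle
      have := hg.le hτn le_rfl (reach_near_one (hQ τ hτn) (hQ n le_rfl) (not_lt.1 hle))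
      omega
  -- charging one scale
  have one : ∀ j < D, ((Far.filter fun τ => GoodInt N ω k k v n τ G κ K (D + j * h) h).card : ℝ) ≤
      (4 * K ^ 2 + 2 * K0 + 1) * ∑ c ∈ desc (D + j * h + h) root,
        ∑ t ∈ boxF (2 ^ H) ×ˢ boxF (2 ^ H),
          a N (k - S ω c) * ind (Opp N k H w κ G x y c t.1 t.2 ω) := by
    intro j hj
    have hjh : D + j * h + h ≤ D + D * h := by
      have := Nat.mul_le_mul_right h (Nat.succ_le_of_lt hj)
      rw [Nat.succ_mul] at this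
      omega
    let P : Cell → ℕ → Prop := fun c τ =>
      (∃ t ∈ boxF (2 ^ H) ×ˢ boxF (2 ^ H), Opp N k H w κ G x y c t.1 t.2 ω) ∧
        ∃ s < n, Below c (v s) ∧ (s : ℝ) - 2 * K ^ 2 * a N (k - S ω c) ≤ τ ∧
          (τ : ℝ) ≤ s + 2 * K ^ 2 * a N (k - S ω c)
    have cover : (Far.filter fun τ => GoodInt N ω k k v n τ G κ K (D + j * h) h) ⊆
        (desc (D + j * h + h) root).biUnion fun c => Far.filter (P c) := by
      intro τ hτ
      obtain ⟨hτ, lo, hi, l, cm, cp, -, a2, a3, a4, a5, a6, a7, a8, -, a10, a11, s1, s2⟩ :=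
        Finset.mem_filter.1 hτ
      have rm : Below root cm := (hv lo (by omega)).of_le a7 (Nat.zero_le _)
      have rp : Below root cp := (hv (hi - 1) (by omega)).of_le a8 (Nat.zero_le _)
      have pl : p lo ∈ sq cm := a7.sq_sub (hc lo (Nat.zero_le _) (by omega)).2.1
      have ph : p hi ∈ sq cp := by
        have := a8.sq_sub (hc (hi - 1) (Nat.zero_le _) (by omega)).2.2
        rwa [show hi - 1 + 1 = hi by omega] at this
      have hlen := hg.le (by omega : lo ≤ hi) a4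
        ((reach_Xh_Q rm pl (CoverAux.ctr_mem a5)).trans (reach_Xh_Q rp (CoverAux.ctr_mem a6) ph))
      have hlen' : (hi : ℝ) ≤ lo + (Xh ω k cm + Xh ω k cp) := by exact_mod_cast hlen
      have key : ∀ (c : Cell) (j1 j2 : ℕ), lo ≤ j1 → j1 ≤ j2 → j2 < hi → c.1 = D + j * h + h →
          G (k - S ω c) (pull (emb c) ω) → Below c (v j1) → Below c (v j2) →
          κ * a N (k - S ω c) ≤ ((j2 + 1 - j1 : ℕ) : ℝ) →
          (hi : ℝ) ≤ lo + 2 * K ^ 2 * a N (k - S ω c) →
          τ ∈ (desc (D + j * h + h) root).biUnion fun c => Far.filter (P c) := by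
        intro c j1 j2 b1 b2 b3 b4 b5 b6 b7 b8 b9
        obtain ⟨α, hα, hα'⟩ := exists_box (H := H) b6 (by have := hdeep j1 (by omega); omega)
        obtain ⟨β, hβ, hβ'⟩ := exists_box (H := H) b7 (by have := hdeep j2 (by omega); omega)
        refine Finset.mem_biUnion.2 ⟨c, mem_desc.2 ⟨by simp [b4, root],
          (hv j1 (by omega)).of_le b6 (Nat.zero_le _)⟩, Finset.mem_filter.2 ⟨hτ,
          ⟨(α, β), Finset.mem_product.2 ⟨hα, hβ⟩, fun u hu => comp_mono (by omega) hcomp hu, b5,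
            p, v, hg, j1, j2, b2, by omega, hα', hβ', b8⟩, j1, by omega, b6, ?_, ?_⟩⟩
        · have : (j1 : ℝ) ≤ hi := by exact_mod_cast (by omega : j1 ≤ hi)
          have : (lo : ℝ) ≤ τ := by exact_mod_cast a2
          linarith
        · have : (τ : ℝ) ≤ hi := by exact_mod_cast a3.le
          have : (lo : ℝ) ≤ j1 := by exact_mod_cast b1
          linarith
      obtain ⟨c, j1, j2, b1, b2, b3, b4, b5, b6, b7, b8, b9⟩ := s1
      obtain ⟨c', j1', j2', b1', b2', b3', b4', b5', b6', b7', b8', b9'⟩ := s2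
      have m1 := mul_le_mul_of_nonneg_left b9 hK
      have m2 := mul_le_mul_of_nonneg_left b9' hK
      rcases le_total (a N (k - S ω c) : ℝ) (a N (k - S ω c')) with hle | hle
      · have := mul_le_mul_of_nonneg_left hle (sq_nonneg K)
        exact key c' j1' j2' (by omega) b2' b3' b4' b5' b6' b7' b8' (by nlinarith)
      · have := mul_le_mul_of_nonneg_left hle (sq_nonneg K)
        exact key c j1 j2 b1 b2 (by omega) b4 b5 b6 b7 b8 (by nlinarith)
    have hcard := (Finset.card_le_card cover).trans Finset.card_biUnion_le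
    refine (Nat.cast_le.2 hcard).trans ?_
    rw [Finset.mul_sum]
    push_cast
    refine Finset.sum_le_sum fun c hcd => ?_
    have hs0 : 0 ≤ ∑ t ∈ boxF (2 ^ H) ×ˢ boxF (2 ^ H),
        a N (k - S ω c) * ind (Opp N k H w κ G x y c t.1 t.2 ω) :=
      Finset.sum_nonneg fun _ _ => mul_nonneg (a_pos _ _).le (ind_nonneg _)
    rcases (Far.filter (P c)).eq_empty_or_nonempty with he | ⟨τ0, hτ0⟩
    · rw [he, Finset.card_empty, Nat.cast_zero]; positivity
    obtain ⟨⟨t, ht, ho⟩, f, hf, hf', -⟩ := (Finset.mem_filter.1 hτ0).2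
    have ha := one_le_a' N (k - S ω c)
    have hX : (Xh ω k c : ℝ) ≤ K0 * a N (k - S ω c) := hGX _ _ ho.2.1
    have span : ∀ s s', s ≤ s' → s' < n → Below c (v s) → Below c (v s') →
        (s' : ℝ) ≤ s + K0 * a N (k - S ω c) := fun s s' e1 e2 e3 e4 => by
      have := hg.le e1 e2.le (reach_Xh_Q (mem_desc.1 hcd).2
        (e3.sq_sub (hc s (Nat.zero_le _) (by omega)).2.1)
        (e4.sq_sub (hc s' (Nat.zero_le _) e2).2.1))
      have : (s' : ℝ) ≤ s + Xh ω k c := by exact_mod_cast this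
      linarith
    have hK2 : 0 ≤ K0 * a N (k - S ω c) := by positivity
    have hwin := card_le_of_window (s := Far.filter (P c)) (f := f)
      (x := (2 * K ^ 2 + K0) * a N (k - S ω c)) (y := (2 * K ^ 2 + K0) * a N (k - S ω c))
      (fun τ hτ => by
        obtain ⟨-, s, e1, e2, e3, e4⟩ := (Finset.mem_filter.1 hτ).2
        rcases le_total s f with hle | hle
        · have := span s f hle hf e2 hf'
          have : (s : ℝ) ≤ f := by exact_mod_cast hle
          constructor <;> linarith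
        · have := span f s hle e1 hf' e2
          have : (f : ℝ) ≤ s := by exact_mod_cast hle
          constructor <;> linarith) (by positivity) (by positivity)
    have hone := Finset.single_le_sum (f := fun t : (ℤ × ℤ) × ℤ × ℤ =>
      a N (k - S ω c) * ind (Opp N k H w κ G x y c t.1 t.2 ω))
      (fun _ _ => mul_nonneg (a_pos _ _).le (ind_nonneg _)) ht
    simp only [ind_pos ho, mul_one] at hone
    have := mul_le_mul_of_nonneg_left hone (by positivity : 0 ≤ 4 * K ^ 2 + 2 * K0 + 1)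
    nlinarith
  have count : D * Far.card ≤ 2 * ∑ j ∈ Finset.range D,
      (Far.filter fun τ => GoodInt N ω k k v n τ G κ K (D + j * h) h).card := by
    simp only [Finset.card_filter]
    rw [Finset.sum_comm, Finset.mul_sum, mul_comm, ← smul_eq_mul, ← Finset.sum_const]
    refine Finset.sum_le_sum fun τ hτ => ?_
    obtain ⟨J, j1, j2, j3⟩ := far τ hτ
    rw [← Finset.card_filter]
    exact j2.trans (Nat.mul_le_mul_left _ (Finset.card_le_card fun j hj =>
      Finset.mem_filter.2 ⟨j1 hj, j3 j hj⟩))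
  have c1 : (n : ℝ) - 4 * Mx ω k D - 1 ≤ Far.card := by
    have : n ≤ Far.card + 4 * Mx ω k D + 1 := by rw [hFar, Nat.card_Ioo]; omega
    have : (n : ℝ) ≤ Far.card + 4 * Mx ω k D + 1 := by exact_mod_cast this
    linarith
  have c2 : (D : ℝ) * Far.card ≤ 2 * ∑ j ∈ Finset.range D,
      ((Far.filter fun τ => GoodInt N ω k k v n τ G κ K (D + j * h) h).card : ℝ) := by
    exact_mod_cast count
  have c3 := Finset.sum_le_sum fun j (hj : j ∈ Finset.range D) => one j (Finset.mem_range.1 hj)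
  rw [← Finset.mul_sum] at c3
  have c4 := mul_le_mul_of_nonneg_left c1 (Nat.cast_nonneg (α := ℝ) D)
  unfold Gam
  linarith

/-- total weight of the cells with a cheap segment -/
noncomputable def ShS (N k1 k2 D h : ℕ) (A1 A2 C κ : ℝ) (x y : Pt) (ω : Om) : ℝ :=
  ∑ j ∈ Finset.range D, ∑ c ∈ desc (D + j * h + h) root,
    a N (k1 - S ω c) * ind (Sh N k1 k2 A1 A2 C κ x y c ω)

lemma nice_age (N k : ℕ) (c : Cell) : Nice (fun ω => (a N (k - S ω c) : ℝ)) :=
  ((elem_age c k).map (a N)).cast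

lemma nice_ShS (N k1 k2 D h : ℕ) (A1 A2 C κ : ℝ) (x y : Pt) :
    Nice (ShS N k1 k2 D h A1 A2 C κ x y) :=
  Nice.sum _ fun _ _ => Nice.sum _ fun c _ =>
    (nice_age N k1 c).mul (elem_Sh N k1 k2 A1 A2 C κ x y c).ind

lemma nice_Gam (N k H w D h : ℕ) (κ : ℝ) {G : ℕ → Om → Prop} (hG : ∀ j, Elem (G j)) (x y : Pt) :
    Nice (Gam N k H w D h κ G x y) :=
  Nice.sum _ fun _ _ => Nice.sum _ fun c _ => Nice.sum _ fun t _ =>
    (nice_age N k c).mul (elem_Opp N k H w κ hG x y c t.1 t.2).ind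

lemma save_avg {N k1 k2 D h : ℕ} {ω : Om} {x y : Pt} (hx : x ∈ Q) (hy : y ∈ Q)
    {A1 A2 C κ η : ℝ} (hA1 : 0 < A1) (hA2 : 0 < A2) (hC : 0 ≤ C) (hη : 0 ≤ η)
    (hU : ∀ u ∈ Q, ∀ u' ∈ Q, (d ω k2 u u' : ℝ) / A2 ≤ C * (d ω k1 u u' / A1) + η) :
    D * ((d ω k2 x y : ℝ) / A2) ≤ D * (C * (d ω k1 x y / A1)) -
      κ / A1 * ShS N k1 k2 D h A1 A2 C κ x y ω + D * ((4 ^ (D + D * h) + 1) * η) := by
  classical
  obtain ⟨p, v, hg⟩ := (conn_TQ (ω := ω) (k := k1) (I := {x}) (J := {y}) hx hy rfl rfl).geod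
  have one : ∀ j ∈ Finset.range D, (d ω k2 x y : ℝ) / A2 ≤ C * (d ω k1 x y / A1) -
      κ / A1 * ∑ c ∈ desc (D + j * h + h) root,
        a N (k1 - S ω c) * ind (Sh N k1 k2 A1 A2 C κ x y c ω) + (4 ^ (D + D * h) + 1) * η := by
    intro j hj
    have hjh : D + j * h + h ≤ D + D * h := by
      have := Nat.mul_le_mul_right h (Nat.succ_le_of_lt (Finset.mem_range.1 hj))
      rw [Nat.succ_mul] at this
      omega
    choose! i i' hi using fun (c : Cell) (hc : Sh N k1 k2 A1 A2 C κ x y c ω) => hc p v hg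
    have := savings hx hg hA1 hA2 hC hU (fun c => κ * a N (k1 - S ω c) / A1) i i' (D + j * h + h)
      ((desc (D + j * h + h) root).filter fun c => Sh N k1 k2 A1 A2 C κ x y c ω)
      (fun c hc => by
        obtain ⟨h1, h2⟩ := Finset.mem_filter.1 hc
        obtain ⟨a1, -, a3, a4⟩ := hi c h2
        exact ⟨by simp [(mem_desc.1 h1).1, root], a1, a3, a4⟩) _ le_rfl
      (fun c hc => (hi c (Finset.mem_filter.1 hc).2).2.1)
    rw [show p (d ω k1 x y) = y from hg.2.2, Finset.sum_filter] at this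
    have e : ∑ c ∈ desc (D + j * h + h) root,
        (if Sh N k1 k2 A1 A2 C κ x y c ω then κ * a N (k1 - S ω c) / A1 else 0) =
        κ / A1 * ∑ c ∈ desc (D + j * h + h) root,
          a N (k1 - S ω c) * ind (Sh N k1 k2 A1 A2 C κ x y c ω) := by
      rw [Finset.mul_sum]
      refine Finset.sum_congr rfl fun c _ => ?_
      split_ifs with hc
      · rw [ind_pos hc]; ring
      · rw [ind_neg hc]; ring
    have hcard : (((desc (D + j * h + h) root).filter
        fun c => Sh N k1 k2 A1 A2 C κ x y c ω).card : ℝ) ≤ 4 ^ (D + D * h) := by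
      exact_mod_cast (Finset.card_filter_le _ _).trans ((card_desc _ _).trans
        (Nat.pow_le_pow_right (by norm_num) hjh))
    rw [e] at this
    nlinarith
  have := Finset.sum_le_sum one
  simp only [Finset.sum_add_distrib, Finset.sum_sub_distrib, Finset.sum_const, Finset.card_range,
    nsmul_eq_mul, ← Finset.mul_sum] at this
  exact this

lemma res_gam {N k1 k2 H w D h : ℕ} {x y : Pt} {A1 A2 C κ1 κ γ : ℝ} {G : ℕ → Om → Prop}
    (hG : ∀ j, Elem (G j))
    (hcore : ∀ c, Below root c → ∀ α β : ℤ × ℤ, InBox (2 ^ H) α → InBox (2 ^ H) β →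
      ∃ Sg ⊆ Deep (c.1 + H), ∀ ω, Opp N k1 H w κ1 G x y c α β ω →
        γ ≤ Res N Sg (fun ω => ind (Sh N k1 k2 A1 A2 C κ x y c ω)) ω) (ω : Om) :
    γ * Res N (Deep D) (Gam N k1 H w D h κ1 G x y) ω ≤
      ((2 ^ H) ^ 2) ^ 2 * Res N (Deep D) (ShS N k1 k2 D h A1 A2 C κ x y) ω := by
  have nO := fun c (t : (ℤ × ℤ) × ℤ × ℤ) =>
    (nice_age N k1 c).mul (elem_Opp N k1 H w κ1 hG x y c t.1 t.2).ind
  have nS := fun c => (nice_age N k1 c).mul (elem_Sh N k1 k2 A1 A2 C κ x y c).ind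
  unfold Gam ShS
  rw [Res_sum _ fun _ _ => Nice.sum _ fun c _ => Nice.sum _ fun t _ => nO c t,
    Res_sum _ fun _ _ => Nice.sum _ fun c _ => nS c, Finset.mul_sum, Finset.mul_sum]
  refine Finset.sum_le_sum fun j _ => ?_
  rw [Res_sum _ fun c _ => Nice.sum _ fun t _ => nO c t, Res_sum _ fun c _ => nS c,
    Finset.mul_sum, Finset.mul_sum]
  refine Finset.sum_le_sum fun c hc => ?_
  rw [Res_sum _ fun t _ => nO c t, Finset.mul_sum]
  refine (Finset.sum_le_card_nsmul _ _ (Res N (Deep D)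
    (fun ω => a N (k1 - S ω c) * ind (Sh N k1 k2 A1 A2 C κ x y c ω)) ω) fun t ht => ?_).trans
    (le_of_eq ?_)
  · obtain ⟨h1, h2⟩ := Finset.mem_product.1 ht
    obtain ⟨Sg, s1, s2⟩ := hcore c (mem_desc.1 hc).2 t.1 t.2 (mem_boxF.1 h1) (mem_boxF.1 h2)
    have hcD : D ≤ c.1 := by rw [(mem_desc.1 hc).1]; omega
    have s3 : Sg ⊆ Deep D := fun v hv => le_trans (hcD.trans (Nat.le_add_right _ H)) (s1 hv)
    rw [← Res_cmul, ← Res_Res_of_subset (nS c) s3]
    refine Res_mono ((nO c t).cmul γ) ((nS c).res N Sg) (fun ω => ?_) _ _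
    rw [Res_mul_left (G := fun ω => (a N (k1 - S ω c) : ℝ))
      (((dep_S_deep (Nat.le_add_right c.1 H)).mono (compl_subset_compl.2 s1)).qmap
        fun s => (a N (k1 - s) : ℝ))]
    by_cases ho : Opp N k1 H w κ1 G x y c t.1 t.2 ω
    · rw [ind_pos ho, mul_one, mul_comm]
      exact mul_le_mul_of_nonneg_left (s2 ω ho) (a_pos _ _).le
    · rw [ind_neg ho, mul_zero, mul_zero]
      exact mul_nonneg (a_pos _ _).le (Res_nonneg (fun _ => ind_nonneg _) _ _)
  · rw [Finset.card_product, card_boxF, nsmul_eq_mul]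
    push_cast
    ring

end Pool.Agent.P.MP_8c7dae_pr
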