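import Mathlib

open MeasureTheory Filter Topology
open scoped BoundedContinuousFunction

namespace Pool.Agent.P.MP_8c7dae_pr

namespace Lim

theorem diag (p : ℝ → ℕ → ℝ → Prop) (hmono : ∀ ε ε' m c, 0 < ε → ε ≤ ε' → p ε m c → p ε' m c)
    (h : ∀ ε, 0 < ε → ∀ᶠ m in atTop, ∃ c, p ε m c) :
    ∃ α : ℕ → ℝ, ∀ ε, 0 < ε → ∀ᶠ m in atTop, p ε m (α m) := by
  classical
  let K : ℕ → ℕ := fun m => Nat.findGreatest (fun k => ∃ c, p (1 / ((k : ℝ) + 1)) m c) m
  refine ⟨fun m => Classical.epsilon fun c => p (1 / ((K m : ℝ) + 1)) m c, fun ε hε => ?_⟩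
  obtain ⟨k, hk⟩ := exists_nat_one_div_lt hε
  filter_upwards [h (1 / ((k : ℝ) + 1)) (by positivity), eventually_ge_atTop k] with m h1 h2
  have h3 : k ≤ K m := Nat.le_findGreatest h2 h1
  have h4 : ∃ c, p (1 / ((K m : ℝ) + 1)) m c :=
    Nat.findGreatest_spec (P := fun k => ∃ c, p (1 / ((k : ℝ) + 1)) m c) h2 h1
  refine hmono _ _ _ _ (by positivity) ?_ (Classical.epsilon_spec h4)
  refine le_trans ?_ hk.le
  have : (k : ℝ) ≤ K m := by exact_mod_cast h3
  gcongr

variable {Ω : Type} [MeasurableSpace Ω] (P : Measure Ω) [IsProbabilityMeasure P]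

theorem exists_lim (ξ : ℕ → Ω → ℝ) (hm : ∀ n, Measurable (ξ n))
    (hCC : ∀ ε : ℝ, 0 < ε → ∃ n0 : ℕ, ∀ n n' : ℕ, n0 ≤ n → n ≤ n' → ∃ c : ℝ,
      P.real {ω | ε < |ξ n' ω - ξ n ω - c|} ≤ ε) :
    ∃ η : Ω → ℝ, Measurable η ∧ ∀ ε, 0 < ε → ∀ᶠ m in atTop, ∃ c,
      P.real {ω | ε < |ξ m ω - c - η ω|} ≤ ε := by
  choose N hN using fun j : ℕ => hCC ((1 / 2) ^ j) (by positivity)
  let n : ℕ → ℕ := fun j => ∑ i ∈ Finset.range (j + 1), N i
  have hn : ∀ j, N j ≤ n j := fun j =>
    Finset.single_le_sum (f := N) (fun _ _ => Nat.zero_le _) (Finset.self_mem_range_succ j)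
  have hn' : ∀ j, n j ≤ n (j + 1) := fun j => by
    simp only [n]; rw [Finset.sum_range_succ _ (j + 1)]; omega
  choose C hC using fun j => hN j (n j) (n (j + 1)) (hn j) (hn' j)
  let η : ℕ → Ω → ℝ := fun j ω => ξ (n j) ω - ∑ i ∈ Finset.range j, C i
  have hη : ∀ j, Measurable (η j) := fun j => (hm _).sub measurable_const
  have hBC : ∀ᵐ ω ∂P, ∀ᶠ j in atTop,
      ω ∉ {ω | ((1 : ℝ) / 2) ^ j < |ξ (n (j + 1)) ω - ξ (n j) ω - C j|} := by
    refine ae_eventually_notMem (ne_top_of_le_ne_top ?_ (ENNReal.tsum_le_tsum (g := fun j =>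
      ENNReal.ofReal ((1 / 2) ^ j)) fun j => ?_))
    · rw [← ENNReal.ofReal_tsum_of_nonneg (fun _ => by positivity) summable_geometric_two]
      exact ENNReal.ofReal_ne_top
    · rw [← ofReal_measureReal]
      exact ENNReal.ofReal_le_ofReal (hC j)
  obtain ⟨L, hL, hlim⟩ := measurable_limit_of_tendsto_metrizable_ae (μ := P) (L := atTop)
    (fun j => (hη j).aemeasurable) (by
      filter_upwards [hBC] with ω hω
      obtain ⟨k, hk⟩ := eventually_atTop.1 hω
      refine cauchySeq_tendsto_of_complete ((cauchySeq_shift k).1 ?_)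
      refine cauchySeq_of_dist_le_of_summable (fun j => ((1 : ℝ) / 2) ^ (j + k)) (fun j => ?_)
        ((summable_nat_add_iff k).2 summable_geometric_two)
      have := not_lt.1 (hk (j + k) (by omega))
      rw [dist_comm, Real.dist_eq, show j.succ + k = j + k + 1 by omega]
      simp only [η, Finset.sum_range_succ]
      refine le_trans (le_of_eq ?_) this
      congr 1
      ring)
  have hP := tendstoInMeasure_iff_measureReal_dist.1
    (tendstoInMeasure_of_tendsto_ae (fun j => (hη j).aestronglyMeasurable) hlim)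
  refine ⟨L, hL, fun ε hε => ?_⟩
  have h1 := (hP (ε / 2) (by positivity)).eventually (gt_mem_nhds (show (0 : ℝ) < ε / 2 by positivity))
  have h2 := (tendsto_pow_atTop_nhds_zero_of_lt_one (r := (1 : ℝ) / 2) (by norm_num)
    (by norm_num)).eventually (gt_mem_nhds (show (0 : ℝ) < ε / 2 by positivity))
  obtain ⟨j, h3, h4⟩ := (h1.and h2).exists
  filter_upwards [eventually_ge_atTop (n j)] with m hm'
  obtain ⟨c, hc⟩ := hN j (n j) m (hn j) hm'
  refine ⟨c + ∑ i ∈ Finset.range j, C i, ?_⟩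
  have hs : {ω | ε < |ξ m ω - (c + ∑ i ∈ Finset.range j, C i) - L ω|} ⊆
      {ω | ((1 : ℝ) / 2) ^ j < |ξ m ω - ξ (n j) ω - c|} ∪ {ω | ε / 2 ≤ dist (η j ω) (L ω)} := by
    intro ω hω
    by_contra hc'
    simp only [Set.mem_union, Set.mem_ofPred_eq, not_or, not_lt, not_le, Real.dist_eq, η] at hc' hω
    have := abs_add_le (ξ m ω - ξ (n j) ω - c) (ξ (n j) ω - ∑ i ∈ Finset.range j, C i - L ω)
    rw [show ξ m ω - ξ (n j) ω - c + (ξ (n j) ω - ∑ i ∈ Finset.range j, C i - L ω) =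
      ξ m ω - (c + ∑ i ∈ Finset.range j, C i) - L ω by ring] at this
    linarith [hc'.1, hc'.2]
  have := (measureReal_mono hs).trans (measureReal_union_le (μ := P) _ _)
  linarith

end Lim

theorem limit_law {Ω : Type} [MeasurableSpace Ω] (P : Measure Ω) [IsProbabilityMeasure P]
    (M : ℕ → Ω → ℕ) (hm : ∀ n, Measurable (M n)) (hpos : ∀ n ω, 1 ≤ M n ω)
    (hCC : ∀ ε : ℝ, 0 < ε → ∃ n0 : ℕ, ∀ n n' : ℕ, n0 ≤ n → n ≤ n' → ∃ c : ℝ,
      P.real {ω | ε < |Real.log (M n' ω) - Real.log (M n ω) - c|} ≤ ε)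
    (hND : ∃ ε : ℝ, 0 < ε ∧ ∃ n0 : ℕ, ∀ n : ℕ, n0 ≤ n → ∀ c : ℝ,
      ε ≤ P.real {ω | ε < |Real.log (M n ω) - c|}) :
    ∃ a : ℕ → ℝ, (∀ n, 0 < a n) ∧
      ∃ ν : Measure ℝ, IsProbabilityMeasure ν ∧ (∀ c : ℝ, ν ≠ Measure.dirac c) ∧
        ∀ f : ℝ →ᵇ ℝ,
          Tendsto (fun n => ∫ ω, f ((M n ω : ℝ) / a n) ∂P) atTop (𝓝 (∫ x, f x ∂ν)) := by
  have hξ : ∀ n, Measurable fun ω => Real.log (M n ω) := fun n =>
    Real.measurable_log.comp (measurable_from_top.comp (hm n))
  obtain ⟨η, hη, h1⟩ := Lim.exists_lim P (fun n ω => Real.log (M n ω)) hξ hCC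
  obtain ⟨α, hα⟩ := Lim.diag (fun ε m c => P.real {ω | ε < |Real.log (M m ω) - c - η ω|} ≤ ε)
    (fun ε ε' m c _ h2 h3 => (measureReal_mono (fun ω hω => lt_of_le_of_lt h2 hω)).trans
      (h3.trans h2)) h1
  have hexp : Measurable fun ω => Real.exp (η ω) := Real.measurable_exp.comp hη
  refine ⟨fun n => Real.exp (α n), fun n => Real.exp_pos _, P.map fun ω => Real.exp (η ω),
    Measure.isProbabilityMeasure_map hexp.aemeasurable, fun c hc => ?_, fun f => ?_⟩
  · have h2 : ∀ᵐ x ∂(P.map fun ω => Real.exp (η ω)), x = c := by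
      rw [hc]; exact ae_eq_dirac id
    have h3 : ∀ᵐ ω ∂P, η ω = Real.log c := by
      filter_upwards [ae_of_ae_map hexp.aemeasurable h2] with ω hω
      rw [← hω, Real.log_exp]
    obtain ⟨ε, hε, n0, h4⟩ := hND
    obtain ⟨m, h5, h6⟩ := ((hα (ε / 2) (by positivity)).and (eventually_ge_atTop n0)).exists
    have h7 : P.real {ω | ε < |Real.log (M m ω) - (α m + Real.log c)|} ≤
        P.real {ω | ε / 2 < |Real.log (M m ω) - α m - η ω|} := by
      refine ENNReal.toReal_mono (measure_ne_top _ _) (measure_mono_ae ?_)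
      filter_upwards [h3] with ω hω h
      change ε / 2 < _
      have h' : ε < |Real.log (M m ω) - (α m + Real.log c)| := h
      rw [hω, sub_sub]; linarith
    linarith [h4 m h6 (α m + Real.log c)]
  · have h2 : TendstoInMeasure P (fun m ω => Real.log (M m ω) - α m) atTop η := by
      refine tendstoInMeasure_iff_measureReal_dist.2 fun ε hε => ?_
      refine tendsto_order.2 ⟨fun a ha => Eventually.of_forall fun _ =>
        ha.trans_le measureReal_nonneg, fun a ha => ?_⟩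
      filter_upwards [hα (min ε a / 2) (by positivity)] with m h
      have h3 := min_le_left ε a
      have h4 := min_le_right ε a
      refine lt_of_le_of_lt ((measureReal_mono fun ω hω => ?_).trans h) (by linarith)
      have hω' : ε ≤ dist (Real.log (M m ω) - α m) (η ω) := hω
      rw [Real.dist_eq] at hω'
      change min ε a / 2 < _
      linarith
    have hY : ∀ m, Measurable fun ω => Real.log (M m ω) - α m := fun m =>
      (hξ m).sub measurable_const
    have h3 := ProbabilityMeasure.tendsto_iff_forall_integral_tendsto.1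
      (h2.tendstoInDistribution_of_aemeasurable (fun m => (hY m).aemeasurable)
        hη.aemeasurable).tendsto (f.compContinuous ⟨Real.exp, Real.continuous_exp⟩)
    simp only [ProbabilityMeasure.coe_mk] at h3
    rw [integral_map hη.aemeasurable (by fun_prop)] at h3
    rw [integral_map hexp.aemeasurable (by fun_prop)]
    refine h3.congr fun m => ?_
    rw [integral_map (hY m).aemeasurable (by fun_prop)]
    refine integral_congr_ae (Eventually.of_forall fun ω => ?_)
    have : (0 : ℝ) < M m ω := by exact_mod_cast hpos m ω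
    simp [Real.exp_sub, Real.exp_log this]

end Pool.Agent.P.MP_8c7dae_pr
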