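import Pool.Agent.P.MP_8c7dae_pr.LowerA

open MeasureTheory Set Filter

namespace Pool.Agent.P.MP_8c7dae_pr

open Lower

lemma Lower.p0_pos : 0 < p0 := by unfold p0; norm_num

lemma Lower.p0_lt : p0 < 1 := by unfold p0; norm_num

lemma Lower.elem_Zle (j n : ℕ) : Elem (fun ω => Z ω j ≤ n) := (elem_Z j).map (· ≤ n)

theorem a_spec (N k : ℕ) : p0 < Pr N (fun ω => Z ω k ≤ a N k) := by
  refine Nat.sInf_mem (s := {n : ℕ | p0 < Pr N (fun ω => Z ω k ≤ n)}) ⟨2 ^ k, ?_⟩
  rw [mem_ofPred_eq, Pr_true fun ω => Z_le_X.trans (X_le (reach_two_pow k))]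
  exact p0_lt

lemma Lower.a_le {N k n : ℕ} (h : p0 < Pr N (fun ω => Z ω k ≤ n)) : a N k ≤ n := Nat.sInf_le h

theorem one_le_a (N k : ℕ) : 1 ≤ a N k := by
  by_contra h
  have h1 := a_spec N k
  rw [Pr_false fun ω hω => h (one_le_Z.trans hω)] at h1
  exact absurd p0_pos (not_lt.2 h1.le)

theorem a_zero (N : ℕ) : a N 0 = 1 := by
  refine le_antisymm (a_le ?_) (one_le_a N 0)
  rw [Pr_true fun ω => Z_le_X.trans X_zero_le]
  exact p0_lt

theorem a_mono (N : ℕ) {k k' : ℕ} (h : k ≤ k') : a N k ≤ a N k' :=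
  a_le ((a_spec N k').trans_le
    (Pr_mono (elem_Zle _ _) (elem_Zle _ _) fun _ hω => (Z_mono h).trans hω))

lemma Lower.Pr_lt_a (N k : ℕ) : Pr N (fun ω => Z ω k < a N k) ≤ p0 := by
  by_contra h
  have h1 := one_le_a N k
  have h2 : a N k ≤ a N k - 1 := a_le ((not_le.1 h).trans_le
    (Pr_mono (elem_Zlt _ _) (elem_Zle _ _) fun _ hω => by omega))
  omega

lemma Lower.sq_le {x : ℝ} (h0 : 0 ≤ x) (h : x ≤ p0) : 20000 ^ 2 * x ^ 2 ≤ x / 4 := by
  unfold p0 at h
  nlinarith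

lemma Lower.exists_U : ∃ U : ℕ, 1 ≤ U ∧ ∀ N, 2 ≤ N → ∀ k,
    Pr N (fun ω => Z ω (k + U * N) < 2 * a N k) ≤ p0 / 2 := by
  obtain ⟨w, hw⟩ := T1 (ε := p0 / 4) (by linarith [p0_pos])
  refine ⟨w + 1, by omega, fun N hN k => ?_⟩
  refine (Pr_mono (elem_Zlt _ _) (elem_Zlt (k + w * N) (2 * a N k)) fun ω hω =>
    (Z_mono (by nlinarith)).trans_lt hω).trans ((hw N hN k (a N k)).trans ?_)
  have h1 := sq_le (Pr_nonneg _) (Pr_lt_a N k)
  linarith [Pr_lt_a N k]

theorem a_decay : ∃ c : ℝ, 0 < c ∧ c ≤ 1 ∧ ∀ N, 2 ≤ N → ∀ k s : ℕ, s ≤ k →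
    (a N (k - s) : ℝ) ≤ 2 * Real.exp (-(c * q N) * s) * a N k := by
  obtain ⟨U, hU, h⟩ := exists_U
  have hU' : (1 : ℝ) ≤ U := by exact_mod_cast hU
  refine ⟨1 / (2 * U), by positivity, by rw [div_le_one (by positivity)]; linarith,
    fun N hN k s hs => ?_⟩
  have dbl : ∀ k, 2 * a N k ≤ a N (k + U * N) := by
    intro k
    by_contra hc
    have := (a_spec N (k + U * N)).trans_le ((Pr_mono (elem_Zle _ _) (elem_Zlt _ _)
      fun ω hω => hω.trans_lt (not_le.1 hc)).trans (h N hN k))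
    linarith [p0_pos]
  have it : ∀ r k, 2 ^ r * a N k ≤ a N (k + r * (U * N)) := by
    intro r k
    induction r with
    | zero => simp
    | succ r ih =>
      have := dbl (k + r * (U * N))
      rw [pow_succ, add_mul, one_mul, ← add_assoc]
      linarith
  have hUN : 0 < U * N := Nat.mul_pos hU (by omega)
  set r := s / (U * N) with hr
  have h1 : 2 ^ r * a N (k - s) ≤ a N k :=
    (it r _).trans (a_mono N (by have := Nat.div_mul_le_self s (U * N); rw [← hr] at this; omega))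
  have h1' : (2 : ℝ) ^ r * a N (k - s) ≤ a N k := by exact_mod_cast h1
  have h2 : (s : ℝ) ≤ (r + 1) * (U * N) := by
    have := Nat.lt_div_mul_add (a := s) hUN
    rw [← hr] at this
    have h3 : s ≤ (r + 1) * (U * N) := by rw [add_mul, one_mul]; omega
    exact_mod_cast h3
  have h3 : 1 / (2 * U) * q N * s ≤ ((r + 1 : ℕ) : ℝ) * (1 / 2) := by
    have hq := q_pos hN
    calc 1 / (2 * U) * q N * s ≤ 1 / (2 * U) * q N * ((r + 1) * (U * N)) := by gcongr
      _ = (r + 1) * (1 / 2) * (q N * N) := by field_simp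
      _ = _ := by rw [q_mul hN]; push_cast; ring
  have h4 : Real.exp (1 / 2) ≤ 2 := by
    have a1 := Real.add_one_le_exp (-(1 / 2) : ℝ)
    have a2 : Real.exp (1 / 2) * Real.exp (-(1 / 2)) = 1 := by rw [← Real.exp_add]; simp
    nlinarith [Real.exp_pos (1 / 2 : ℝ)]
  have h5 : Real.exp (1 / (2 * U) * q N * s) ≤ 2 ^ (r + 1) := by
    refine (Real.exp_le_exp.2 h3).trans ?_
    rw [Real.exp_nat_mul]
    exact pow_le_pow_left₀ (Real.exp_pos _).le h4 _
  rw [neg_mul, Real.exp_neg, mul_right_comm, ← div_eq_mul_inv, le_div_iff₀ (Real.exp_pos _)]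
  calc _ ≤ (a N (k - s) : ℝ) * 2 ^ (r + 1) := by gcongr
    _ = 2 * (2 ^ r * a N (k - s)) := by ring
    _ ≤ _ := by gcongr

theorem a_grow : ∃ U : ℝ, 0 ≤ U ∧ ∀ N, 2 ≤ N → ∀ k w : ℕ,
    (a N (k + w) : ℝ) ≤ Real.exp (U + q N * w) * a N k := by
  obtain ⟨U, -, h⟩ := exists_U
  refine ⟨U, by positivity, fun N hN k w => ?_⟩
  have hq := q_pos hN
  have ha : (1 : ℝ) ≤ a N k := by exact_mod_cast one_le_a N k
  set M := (1 + q N) ^ (w + U * N) with hM
  have hM0 : 0 < M := by positivity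
  have hM1 : M ≤ Real.exp (U + q N * w) := by
    refine (one_add_q_pow_le hN _).trans (le_of_eq ?_)
    congr 1
    push_cast
    linear_combination (U : ℝ) * q_mul hN
  refine le_trans ?_ (mul_le_mul_of_nonneg_right hM1 (by positivity))
  by_contra hc
  push Not at hc
  have eH := elem_Zle k (a N k)
  have h1 := E_step (k := k) hN (R := col) (I := L0) (J := L1) (fun ω k => conn_Z) eH.ind
    (fun ω => ind_nonneg _) ((adapted_TR k col).map fun A => ind (dS A L0 L1 ≤ a N k)) (w + U * N)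
  have h2 : E N (fun ω => ind (Z ω k ≤ a N k) * dS (TR ω k col) L0 L1) ≤
      a N k * Pr N (fun ω => Z ω k ≤ a N k) := by
    rw [Pr, ← E_cmul]
    refine E_mono (eH.ind.mul (elem_Z k).cast) (eH.ind.cmul _) fun ω => ?_
    by_cases hω : Z ω k ≤ a N k
    · rw [ind_pos hω, one_mul, mul_one]
      exact_mod_cast hω
    · rw [ind_neg hω]; simp
  have eB := (elem_Zlt (k + w + U * N) (2 * a N (k + w))).not
  have h3 := Pr_le_E_div (N := N) (eH.and eB) (eH.ind.mul (elem_Z (k + (w + U * N))).cast)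
    (t := 2 * (M * a N k)) (by positivity) (fun ω => mul_nonneg (ind_nonneg _) (by positivity))
    fun ω hω => by
      rw [ind_pos hω.1, one_mul, ← add_assoc]
      have : ((2 * a N (k + w) : ℕ) : ℝ) ≤ Z ω (k + w + U * N) := by exact_mod_cast not_lt.1 hω.2
      push_cast at this
      linarith
  have h4 := Pr_le_add (N := N) eH (elem_Zlt (k + w + U * N) (2 * a N (k + w))) (eH.and eB)
    fun ω hω => or_iff_not_imp_left.2 fun h => ⟨hω, h⟩
  have h5 := h N hN (k + w)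
  have h6 := a_spec N k
  have h7 := h3.trans (div_le_div_of_nonneg_right
    (h1.trans (mul_le_mul_of_nonneg_left h2 hM0.le)) (by positivity))
  have h8 : M * (a N k * Pr N (fun ω => Z ω k ≤ a N k)) / (2 * (M * a N k)) =
      Pr N (fun ω => Z ω k ≤ a N k) / 2 := by field_simp
  rw [h8] at h7
  linarith

/-- growth over a macroscopic time -/
lemma Lower.grow' : ∃ U : ℝ, 0 ≤ U ∧ ∀ N, 2 ≤ N → ∀ k w j : ℕ, j ≤ k + w * N →
    Real.exp (-(U + w)) * a N j ≤ a N k := by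
  obtain ⟨U, hU, h⟩ := a_grow
  refine ⟨U, hU, fun N hN k w j hj => ?_⟩
  have h1 := h N hN k (w * N)
  have e : q N * ((w * N : ℕ) : ℝ) = w := by
    push_cast
    linear_combination (w : ℝ) * q_mul hN
  rw [e] at h1
  have h2 : (a N j : ℝ) ≤ a N (k + w * N) := by exact_mod_cast a_mono N hj
  rw [Real.exp_neg, inv_mul_le_iff₀ (Real.exp_pos _)]
  exact h2.trans h1

lemma Lower.small {ε : ℝ} (hε : 0 < ε) : ∃ W : ℕ, ∀ N, 2 ≤ N → ∀ k,
    Pr N (fun ω => Z ω (k + W * N) < a N k) ≤ ε := by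
  have hp := p0_pos
  obtain ⟨w, hw⟩ := T1 (ε := min (p0 / 2) (ε / 4)) (by positivity)
  obtain ⟨r, hr⟩ := exists_pow_lt_of_lt_one (show 0 < ε / 2 by positivity)
    (show (1 / 4 : ℝ) < 1 by norm_num)
  refine ⟨r * w, fun N hN k => ?_⟩
  have key : ∀ r : ℕ, Pr N (fun ω => Z ω (k + r * w * N) < a N k) ≤ p0 ∧
      Pr N (fun ω => Z ω (k + r * w * N) < a N k) ≤ ε / 2 + (1 / 4) ^ r := by
    intro r
    induction r with
    | zero =>
      have := Pr_lt_a N k
      simp only [zero_mul, add_zero, pow_zero]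
      exact ⟨this, by linarith [p0_lt]⟩
    | succ r ih =>
      have h1 := hw N hN (k + r * w * N) (a N k)
      have h2 := sq_le (Pr_nonneg _) ih.1
      have h3 := Pr_mono (N := N) (elem_Zlt (k + (r + 1) * w * N) (a N k))
        (elem_Zlt (k + r * w * N + w * N) (2 * a N k)) fun ω hω => by
          rw [show k + r * w * N + w * N = k + (r + 1) * w * N by ring]
          omega
      have h4 := min_le_left (p0 / 2) (ε / 4)
      have h5 := min_le_right (p0 / 2) (ε / 4)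
      rw [pow_succ]
      exact ⟨by linarith [ih.1], by linarith [ih.2]⟩
  linarith [(key r).2]

theorem LB_prob (R : Finset Cell) {ρ ε : ℝ} (hρ : 0 < ρ) (hε : 0 < ε) :
    ∃ κ : ℝ, 0 < κ ∧ κ ≤ 1 ∧ ∀ N, 2 ≤ N → ∀ j,
      Pr N (fun ω => ¬ LBs (TR ω j R) ρ (κ * a N j)) ≤ ε := by
  obtain ⟨U, hU, hg⟩ := grow'
  obtain ⟨u, hu⟩ := pow_unbounded_of_one_lt (2 / ρ) (show (1 : ℝ) < 2 by norm_num)
  obtain ⟨w, hw⟩ := exists_Comp u R (half_pos hε)
  obtain ⟨W, hW⟩ := small (ε := ε / 2 / (4 * ((arr u R).card + 1))) (by positivity)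
  refine ⟨Real.exp (-(U + (W + w : ℕ))), Real.exp_pos _, Real.exp_le_one_iff.2 (by
    have : (0 : ℝ) ≤ (W + w : ℕ) := by positivity
    linarith), fun N hN j => ?_⟩
  by_cases hj : j ≤ 0 + (W + w) * N
  · rw [Pr_false]
    · exact hε.le
    refine fun ω h => h fun n p p' hr hd => (hg N hN 0 _ j hj).trans ?_
    rw [a_zero]
    refine Nat.cast_le.2 (Nat.pos_of_ne_zero ?_)
    rintro rfl
    rw [hr.eq_of_zero, dist_self] at hd
    linarith
  obtain ⟨k, rfl⟩ : ∃ k, j = k + W * N + w * N := ⟨j - (W + w) * N, by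
    rw [add_assoc, ← add_mul]; omega⟩
  have hE : Elem (fun ω => ∃ r ∈ arr u R, Ev r.2 (k + W * N) (a N k) ω) :=
    Elem.ex _ fun r _ => elem_Ev _ _ _
  refine (Pr_le_add (elem_LBs _ _ _ _).not (elem_Comp u R (w * N)).not (hE.pull (emb (u, 0, 0)))
    fun ω hω => ?_).trans ((add_le_add (hw N hN) ?_).trans (add_halves ε).le)
  · refine or_iff_not_imp_left.2 fun hc => ?_
    unfold LBs at hω
    push Not at hω
    obtain ⟨n, p, p', hr, hd, hn⟩ := hω
    have h1 := down (not_not.1 hc) hr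
    have h2 : 2 ≤ dist ((emb (u, 0, 0)).φ p) ((emb (u, 0, 0)).φ p') := by
      rw [Sim.dist_φ, emb_s]
      rw [div_lt_iff₀ hρ] at hu
      have := mul_le_mul_of_nonneg_left hd (two_pow_pos' u).le
      linarith
    obtain ⟨v, hv, hx⟩ := first_tile h1 (by
      intro e
      rw [e, dist_self] at h2
      linarith)
    have h3 := hn.trans_le (hg N hN k (W + w) _ (le_of_eq (by ring)))
    exact ⟨anc 0 v, hv.2, ev_of_reach (fun w hw => hw.1) h1 h2 (sq_sub_anc (Nat.zero_le _) hx)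
      (by exact_mod_cast h3)⟩
  · rw [Pr_pull hE]
    refine (Pr_le_card (arr u R) hE (B := fun r => Ev r.2 (k + W * N) (a N k))
      (fun r _ => elem_Ev _ _ _) (fun ω h => h) fun r _ =>
        (Pr_Ev r.2).trans (mul_le_mul_of_nonneg_left (hW N hN k) (by norm_num))).trans ?_
    rw [← mul_assoc, mul_div_assoc', div_le_iff₀ (by positivity)]
    nlinarith

end Pool.Agent.P.MP_8c7dae_pr
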