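import Pool.Agent.P.MP_8c7dae_pr.Defs3

/-! Column lemma and the doubling inequality. -/

open MeasureTheory Set Filter

namespace Pool.Agent.P.MP_8c7dae_pr.Lower

lemma mem0 {v : Cell} {p : Pt} (h : p ∈ sq v) :
    ((anc 0 v).2.1 : ℝ) ≤ p.1 ∧ p.1 ≤ (anc 0 v).2.1 + 1 ∧
      ((anc 0 v).2.2 : ℝ) ≤ p.2 ∧ p.2 ≤ (anc 0 v).2.2 + 1 :=
  mem_sq_zero.1 (sq_sub_anc (Nat.zero_le _) h)

lemma dist_fst (p q : Pt) : |p.1 - q.1| ≤ dist p q := by
  rw [Prod.dist_eq, Real.dist_eq]; exact le_max_left _ _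

lemma dist_snd (p q : Pt) : |p.2 - q.2| ≤ dist p q := by
  rw [Prod.dist_eq, Real.dist_eq, Real.dist_eq]; exact le_max_right _ _

lemma cross1 {B : Set Cell} {n : ℕ} {x y : Pt} (h : Reach B n x y) {a : ℤ} (hx : x.1 ≤ a)
    (hy : (a : ℝ) + 1 ≤ y.1) : ∃ p p' : Pt, p.1 = a ∧ p'.1 = a + 1 ∧
      Reach {v | v ∈ B ∧ (anc 0 v).2.1 = a} n p p' := by
  obtain ⟨m, hm, p, v, hc, rfl, rfl⟩ := h.exists_ch
  obtain ⟨j, -, j2, j3, j4⟩ := exists_first (P := fun t => (a : ℝ) + 1 ≤ (p t).1)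
    (Nat.zero_le m) hy
  obtain ⟨i, -, i2, i3, i4⟩ := exists_last (P := fun t => (p t).1 ≤ a) (Nat.zero_le j) hx
  have hij : i < j := lt_of_le_of_ne i2 (by rintro rfl; linarith)
  have key : ∀ t, i ≤ t → t < j → (anc 0 (v t)).2.1 = a := by
    intro t t1 t2
    obtain ⟨-, c2, c3⟩ := hc t (Nat.zero_le _) (by omega)
    have h1 : ((anc 0 (v t)).2.1 : ℝ) < a + 1 :=
      (mem0 c2).1.trans_lt (not_le.1 (j4 t (Nat.zero_le _) t2))
    have h2 : (a : ℝ) < (anc 0 (v t)).2.1 + 1 :=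
      (not_le.1 (i4 (t + 1) (by omega) t2)).trans_le (mem0 c3).2.1
    have h1' : (anc 0 (v t)).2.1 < a + 1 := by exact_mod_cast h1
    have h2' : a < (anc 0 (v t)).2.1 + 1 := by exact_mod_cast h2
    omega
  refine ⟨p i, p j, le_antisymm i3 ?_, le_antisymm ?_ j3, ?_⟩
  · rw [← key i le_rfl hij]
    exact (mem0 (hc i (Nat.zero_le _) (by omega)).2.1).1
  · have := (mem0 (hc (j - 1) (Nat.zero_le _) (by omega)).2.2).2.1
    rwa [key (j - 1) (by omega) (by omega), Nat.sub_add_cancel (by omega)] at this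
  · exact ((hc.restrict (B := {v | v ∈ B ∧ (anc 0 v).2.1 = a}) (Nat.zero_le i) j2 fun t t1 t2 =>
      ⟨(hc t (Nat.zero_le _) (by omega)).1, key t t1 t2⟩).reach i2).mono_n (by omega)

lemma stop {A : Set Cell} {n : ℕ} {x y : Pt} (h : Reach A n x y) (hd : 2 ≤ dist x y) {c : ℤ × ℤ}
    (hx : x ∈ sq (0, c.1, c.2)) : ∃ y', 2 ≤ dist x y' ∧
      Reach {v | v ∈ A ∧ (c.1 - 2 ≤ (anc 0 v).2.1 ∧ (anc 0 v).2.1 ≤ c.1 + 2) ∧
        c.2 - 2 ≤ (anc 0 v).2.2 ∧ (anc 0 v).2.2 ≤ c.2 + 2} n x y' := by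
  obtain ⟨m, hm, p, v, hc, rfl, rfl⟩ := h.exists_ch
  obtain ⟨e, -, e2, e3, e4⟩ := exists_first (P := fun t => 2 ≤ dist (p 0) (p t))
    (Nat.zero_le m) hd
  refine ⟨p e, e3, ((hc.restrict le_rfl e2 fun t t1 t2 => ?_).reach (Nat.zero_le e)).mono_n
    (by omega)⟩
  obtain ⟨c1, c2, -⟩ := hc t t1 (by omega)
  have h1 := not_le.1 (e4 t t1 t2)
  have h2 := abs_le.1 (dist_fst (p 0) (p t))
  have h3 := abs_le.1 (dist_snd (p 0) (p t))
  obtain ⟨a1, a2, a3, a4⟩ := mem0 c2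
  obtain ⟨b1, b2, b3, b4⟩ := mem_sq_zero.1 hx
  have g1 : (c.1 : ℝ) - 3 < (anc 0 (v t)).2.1 := by linarith
  have g2 : ((anc 0 (v t)).2.1 : ℝ) < c.1 + 3 := by linarith
  have g3 : (c.2 : ℝ) - 3 < (anc 0 (v t)).2.2 := by linarith
  have g4 : ((anc 0 (v t)).2.2 : ℝ) < c.2 + 3 := by linarith
  have g1' : c.1 - 3 < (anc 0 (v t)).2.1 := by exact_mod_cast g1
  have g2' : (anc 0 (v t)).2.1 < c.1 + 3 := by exact_mod_cast g2
  have g3' : c.2 - 3 < (anc 0 (v t)).2.2 := by exact_mod_cast g3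
  have g4' : (anc 0 (v t)).2.2 < c.2 + 3 := by exact_mod_cast g4
  exact ⟨c1, ⟨by omega, by omega⟩, by omega, by omega⟩

lemma mem_col {r : Cell} : r ∈ col ↔ r.1 = 0 ∧ r.2.1 = 0 ∧ 0 ≤ r.2.2 ∧ r.2.2 ≤ 4 := by
  simp only [col, Finset.mem_image, Finset.mem_range]
  constructor
  · rintro ⟨b, hb, rfl⟩
    exact ⟨rfl, rfl, by simp, by simp only; omega⟩
  · rintro ⟨h1, h2, h3, h4⟩
    refine ⟨r.2.2.toNat, by omega, ?_⟩
    ext
    · exact h1.symm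
    · exact h2.symm
    · simp only; omega

variable {ω : Om} {j k n N : ℕ}

lemma colZ {A : Set Cell} (hA : A ⊆ T ω j) {a b : ℤ}
    (hb : ∀ v ∈ A, b ≤ (anc 0 v).2.2 ∧ (anc 0 v).2.2 ≤ b + 4) {x y : Pt} (h : Reach A n x y)
    (hx : x.1 ≤ a) (hy : (a : ℝ) + 1 ≤ y.1) : Z (pull (emb (0, a, b)) ω) j ≤ n := by
  obtain ⟨p, p', h1, h2, h3⟩ := cross1 h hx hy
  refine dS_le ?_ ?_ (h3.down (ω := ω) (k := j) (emb (0, a, b)) (R := col) (j := j) ?_)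
  · simp [L0, emb, h1]
  · simp [L1, emb, h2]
  · rintro w ⟨hw, hw'⟩
    have e : (emb (0, a, b)).g (0, 0, (anc 0 w).2.2 - b) = anc 0 w := by
      ext
      · rfl
      · simp [emb, hw']
      · simp [emb]
    have := hb w hw
    refine ⟨hA hw, (0, 0, (anc 0 w).2.2 - b), mem_col.2 ⟨rfl, rfl, by simp only; omega,
      by simp only; omega⟩, rfl, ?_, ?_⟩ <;> rw [e]
    · exact below_anc (Nat.zero_le _)
    · rw [S_zero rfl, zero_add]

def sg (s : Bool) : ℤ := if s then 1 else -1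

/-- the four column blocks around a unit cell -/
noncomputable def bS (x : Bool × Bool) (c : ℤ × ℤ) : Sim :=
  if x.1 then trS.comp (emb (0, c.2 + sg x.2, c.1 - 2)) else emb (0, c.1 + sg x.2, c.2 - 2)

/-- a cheap crossing of a column block around `c` -/
def Ev (c : ℤ × ℤ) (j n : ℕ) (ω : Om) : Prop :=
  ∃ x ∈ (Finset.univ : Finset (Bool × Bool)), Z (pull (bS x c) ω) j < n

lemma colZ' {A : Set Cell} (hA : A ⊆ T ω j) {c : ℤ × ℤ}
    (hb : ∀ v ∈ A, c.2 - 2 ≤ (anc 0 v).2.2 ∧ (anc 0 v).2.2 ≤ c.2 + 2) {x y : Pt}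
    (h : Reach A n x y) (h1 : (c.1 : ℝ) ≤ x.1) (h2 : x.1 ≤ c.1 + 1) (hd : 2 ≤ |x.1 - y.1|) :
    ∃ s, Z (pull (emb (0, c.1 + sg s, c.2 - 2)) ω) j ≤ n := by
  have hb' : ∀ v ∈ A, c.2 - 2 ≤ (anc 0 v).2.2 ∧ (anc 0 v).2.2 ≤ c.2 - 2 + 4 := fun v hv => by
    have := hb v hv; omega
  rcases le_abs.1 hd with hd | hd
  · exact ⟨false, colZ hA hb' h.symm (by simp [sg]; linarith) (by simp [sg]; linarith)⟩
  · exact ⟨true, colZ hA hb' h (by simp [sg]; linarith) (by simp [sg]; linarith)⟩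

/-- column lemma -/
lemma ev_of_reach {A : Set Cell} (hA : A ⊆ T ω j) {m : ℕ} {x y : Pt} (h : Reach A m x y)
    (hd : 2 ≤ dist x y) {c : ℤ × ℤ} (hx : x ∈ sq (0, c.1, c.2)) (hm : m < n) : Ev c j n ω := by
  obtain ⟨y', h1, h2⟩ := stop h hd hx
  obtain ⟨b1, b2, b3, b4⟩ := mem_sq_zero.1 hx
  rw [Prod.dist_eq, le_max_iff, Real.dist_eq, Real.dist_eq] at h1
  rcases h1 with h1 | h1
  · obtain ⟨s, hs⟩ := colZ' (fun v hv => hA hv.1) (fun v hv => hv.2.2) h2 b1 b2 h1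
    exact ⟨(false, s), Finset.mem_univ _, hs.trans_lt hm⟩
  · have h3 := h2.pullback trS (A := {v | trS.g v ∈ A ∧
      c.1 - 2 ≤ (anc 0 v).2.2 ∧ (anc 0 v).2.2 ≤ c.1 + 2})
      fun w hw => ⟨trS.g w, rfl, trS.g w, ⟨hw.1, hw.2.1⟩, Below.refl _⟩
    obtain ⟨s, hs⟩ := colZ' (ω := pull trS ω) (j := j) (c := (c.2, c.1)) (fun v hv => by
      have := hA hv.1
      simp only [T, mem_ofPred_eq, S_pull_zero trS rfl] at this ⊢
      exact this) (fun v hv => hv.2) h3 b3 b4 h1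
    exact ⟨(true, s), Finset.mem_univ _, hs.trans_lt hm⟩

lemma elem_Zlt (j n : ℕ) : Elem (fun ω => Z ω j < n) := (elem_Z j).map (· < n)

lemma elem_Ev (c : ℤ × ℤ) (j n : ℕ) : Elem (Ev c j n) :=
  Elem.ex _ fun x _ => (elem_Zlt j n).pull (bS x c)

lemma Pr_Ev (c : ℤ × ℤ) : Pr N (Ev c j n) ≤ 4 * Pr N (fun ω => Z ω j < n) := by
  have := Pr_le_card (N := N) Finset.univ (elem_Ev c j n)
    (B := fun x ω => Z (pull (bS x c) ω) j < n) (fun x _ => (elem_Zlt j n).pull (bS x c))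
    (fun ω h => h) (ε := Pr N (fun ω => Z ω j < n)) fun x _ => (Pr_pull (elem_Zlt j n) _).le
  simpa using this

lemma dep_Ev (c : ℤ × ℤ) (j n : ℕ) :
    DependsOn (Ev c j n) {v | c.1 - 2 ≤ (anc 0 v).2.1 ∧ (anc 0 v).2.1 ≤ c.1 + 2} := by
  have h : ∀ x, DependsOn (fun ω => Z (pull (bS x c) ω) j)
      {v | c.1 - 2 ≤ (anc 0 v).2.1 ∧ (anc 0 v).2.1 ≤ c.1 + 2} := by
    rintro ⟨o, s⟩
    refine dep_pull (f := fun ω => Z ω j) ((dep_TR j col).qmap fun A => dS A L0 L1) _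
      fun v hv => ?_
    obtain ⟨-, h2, h3, h4⟩ := mem_col.1 hv
    have hs : (bS (o, s) c).s = 0 := by cases o <;> rfl
    have e := (bS (o, s) c).anc_s v
    rw [hs] at e
    simp only [mem_ofPred_eq, e]
    cases o <;> cases s <;> simp [bS, Sim.comp, trS, emb, sg, h2] <;> omega
  intro ω ω' hh
  simp only [Ev, fun x => h x hh]

lemma split {B : Set Cell} {x y : Pt} (h : Reach B n x y) {a : ℤ} (hx : x.1 ≤ a)
    (hy : (a : ℝ) ≤ y.1) :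
    ∃ (z : Pt) (m1 m2 : ℕ), z.1 = a ∧ m1 + m2 ≤ n ∧ Reach B m1 x z ∧ Reach B m2 z y := by
  induction h with
  | refl n x => exact ⟨x, 0, 0, le_antisymm hx hy, Nat.zero_le _, Reach.refl _ _, Reach.refl _ _⟩
  | @step n x y z v h1 hv h2 h3 ih =>
    by_cases hc : (a : ℝ) ≤ y.1
    · obtain ⟨u, m1, m2, e, hm, r1, r2⟩ := ih hx hc
      exact ⟨u, m1, m2 + 1, e, by omega, r1, r2.step hv h2 h3⟩
    · have g1 : ((anc 0 v).2.1 : ℝ) < a := (mem0 h2).1.trans_lt (not_le.1 hc)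
      have g2 : (anc 0 v).2.1 + 1 ≤ a := by exact_mod_cast g1
      have g3 : ((anc 0 v).2.1 : ℝ) + 1 ≤ a := by exact_mod_cast g2
      exact ⟨z, n + 1, 0, le_antisymm ((mem0 h3).2.1.trans g3) hy, le_rfl, h1.step hv h2 h3,
        Reach.refl _ _⟩

lemma first_tile {B : Set Cell} {x y : Pt} (h : Reach B n x y) (hne : x ≠ y) :
    ∃ v ∈ B, x ∈ sq v := by
  cases h.symm with
  | refl => exact absurd rfl hne
  | step _ hv _ hz => exact ⟨_, hv, hz⟩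

/-- roots of the array of depth `u` -/
noncomputable def arr (u : ℕ) (R : Finset Cell) : Finset Cell :=
  (R.biUnion (desc u)).image fun c => (0, c.2)

def Comp (u : ℕ) (R : Finset Cell) (W : ℕ) (ω : Om) : Prop :=
  ∀ r ∈ R, ∀ c ∈ desc u r, Srel ω r.1 c ≤ W

lemma elem_Comp (u : ℕ) (R : Finset Cell) (W : ℕ) : Elem (Comp u R W) :=
  Elem.all _ fun _ _ => Elem.all _ fun _ _ => elem_Srel_le _ _ _

lemma exists_Comp (u : ℕ) (R : Finset Cell) {ε : ℝ} (hε : 0 < ε) :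
    ∃ w : ℕ, ∀ N, 2 ≤ N → Pr N (fun ω => ¬ Comp u R (w * N) ω) ≤ ε := by
  obtain ⟨w, hw⟩ := exists_comp u (show 0 < ε / (R.card + 1) by positivity)
  refine ⟨w, fun N hN => (Pr_le_card R (elem_Comp u R _).not
    (B := fun r ω => ¬ ∀ c ∈ desc u r, Srel ω r.1 c ≤ w * N)
    (fun r _ => (Elem.all _ fun _ _ => elem_Srel_le _ _ _).not)
    (fun ω h => by simpa only [Comp, not_forall, exists_prop] using h)
    fun r _ => hw N hN r).trans ?_⟩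
  rw [mul_div_assoc', div_le_iff₀ (by positivity)]
  nlinarith

lemma down {u W : ℕ} {R : Finset Cell} (hc : Comp u R W ω) {x y : Pt}
    (h : Reach (TR ω (k + W) R) n x y) :
    Reach (TR (pull (emb (u, 0, 0)) ω) k (arr u R)) n ((emb (u, 0, 0)).φ x)
      ((emb (u, 0, 0)).φ y) := by
  refine h.down (ω := ω) (k := k + W) _ fun w hw => ⟨hw.1, ?_⟩
  have hS : ∀ c ∈ desc u (anc 0 w), S ω c ≤ W := fun c h => by
    rw [S_eq_Srel]; exact hc _ hw.2 c h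
  have hu : u ≤ w.1 := by
    by_contra hlt
    push Not at hlt
    obtain ⟨c, h1⟩ : ∃ c, c ∈ desc (u - w.1) w :=
      ⟨_, Finset.mem_image_of_mem _ (show ((0, 0) : ℕ × ℕ) ∈ _ by simp)⟩
    rw [mem_desc] at h1
    have h2 := S_ge (ω := ω) h1.2 (by omega)
    have h3 := hS c (mem_desc.2 ⟨by simp; omega, (below_anc (Nat.zero_le _)).trans h1.2⟩)
    have h4 := hw.1.2
    omega
  have hm : anc u w ∈ desc u (anc 0 w) :=
    mem_desc.2 ⟨by simp, (below_anc (Nat.zero_le _)).anc_below (by simp) hu⟩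
  have e : (emb (u, 0, 0)).g (0, (anc u w).2) = anc u w := by
    ext <;> simp [emb]
  refine ⟨(0, (anc u w).2), Finset.mem_image_of_mem _ (Finset.mem_biUnion.2 ⟨_, hw.2, hm⟩), rfl,
    ?_, ?_⟩ <;> rw [e]
  · exact below_anc hu
  · have := hS _ hm; omega

/-- cheap crossings started on a vertical line -/
def EvL (a : ℤ) (j n : ℕ) (ω : Om) : Prop := ∃ b ∈ Finset.Ico (0 : ℤ) 160, Ev (a, b) j n ω

lemma elem_EvL (a : ℤ) (j n : ℕ) : Elem (EvL a j n) := Elem.ex _ fun _ _ => elem_Ev _ j n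

lemma Pr_EvL (a : ℤ) : Pr N (EvL a j n) ≤ 640 * Pr N (fun ω => Z ω j < n) := by
  have := Pr_le_card (N := N) (Finset.Ico (0 : ℤ) 160) (elem_EvL a j n)
    (B := fun b => Ev (a, b) j n) (fun _ _ => elem_Ev _ j n) (fun ω h => h) fun b _ => Pr_Ev (a, b)
  refine this.trans (le_of_eq ?_)
  rw [Int.card_Ico, show (160 - 0 : ℤ).toNat = 160 from rfl]
  push_cast
  ring

lemma dep_EvL (a : ℤ) (j n : ℕ) :
    DependsOn (EvL a j n) {v | a - 2 ≤ (anc 0 v).2.1 ∧ (anc 0 v).2.1 ≤ a + 2} := by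
  intro ω ω' hh
  simp only [EvL, fun b => dep_Ev (a, b) j n hh]

lemma Pr_EvL_and {a a' : ℤ} (h : a + 5 ≤ a') :
    Pr N (fun ω => EvL a j n ω ∧ EvL a' j n ω) ≤ (640 * Pr N (fun ω => Z ω j < n)) ^ 2 := by
  rw [Pr_and_indep (elem_EvL a j n) (elem_EvL a' j n) ((dep_EvL a j n).mono fun v hv hv' => by
    have h1 := hv.2; have h2 := hv'.1; omega) (dep_EvL a' j n), _root_.sq]
  exact mul_le_mul (Pr_EvL a) (Pr_EvL a') (Pr_nonneg _)
    (mul_nonneg (by norm_num) (Pr_nonneg _))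

lemma evL_of_reach {m : ℕ} {x y : Pt} (h : Reach (TR ω j (arr 5 col)) m x y) {a : ℤ}
    (hx : x.1 = a) (hy : (a : ℝ) + 2 ≤ y.1) (hm : m < n) : EvL a j n ω := by
  obtain ⟨v, hv, hxv⟩ := first_tile h (by rintro rfl; linarith)
  obtain ⟨c, hc, e⟩ := Finset.mem_image.1 hv.2
  obtain ⟨r, hr, hc⟩ := Finset.mem_biUnion.1 hc
  obtain ⟨r1, -, r3, r4⟩ := mem_col.1 hr
  rw [mem_desc, below_iff] at hc
  obtain ⟨c1, -, -, -, c2, c3⟩ := hc
  rw [c1, Nat.add_sub_cancel_left] at c2 c3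
  have e' : (anc 0 v).2.2 = c.2.2 := by rw [← e]
  refine ⟨(anc 0 v).2.2, Finset.mem_Ico.2 ⟨by omega, by omega⟩,
    ev_of_reach (fun w hw => hw.1) h ?_ (mem_sq_zero.2 ⟨hx.ge, by simp [hx], (mem0 hxv).2.2⟩) hm⟩
  have := abs_le.1 (dist_fst x y)
  linarith

/-- doubling inequality -/
lemma T1 {ε : ℝ} (hε : 0 < ε) : ∃ w : ℕ, ∀ N, 2 ≤ N → ∀ k n : ℕ,
    Pr N (fun ω => Z ω (k + w * N) < 2 * n) ≤ ε + 20000 ^ 2 * Pr N (fun ω => Z ω k < n) ^ 2 := by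
  obtain ⟨w, hw⟩ := exists_Comp 5 col hε
  refine ⟨w, fun N hN k n => ?_⟩
  let P : Finset (ℤ × ℤ) := {(0, 8), (0, 16), (8, 16)}
  have hE : Elem (fun ω => ∃ x ∈ P, EvL x.1 k n ω ∧ EvL x.2 k n ω) :=
    Elem.ex _ fun x _ => (elem_EvL _ k n).and (elem_EvL _ k n)
  refine (Pr_le_add (elem_Zlt _ _) (elem_Comp 5 col (w * N)).not (hE.pull (emb (5, 0, 0)))
    fun ω hω => ?_).trans (add_le_add (hw N hN) ?_)
  · refine or_iff_not_imp_left.2 fun hc => ?_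
    obtain ⟨x, hx, y, hy, h⟩ := (conn_Z (ω := ω) (k := k + w * N)).spec
    have h1 := down (not_not.1 hc) h
    have x1 : ((emb (5, 0, 0)).φ x).1 = (0 : ℤ) := by simp [emb, show x.1 = 0 from hx]
    have y1 : ((emb (5, 0, 0)).φ y).1 = 32 := by simp [emb, show y.1 = 1 from hy]; norm_num
    obtain ⟨z, m1, m', z1, hm, r1, r'⟩ := split h1 (a := 8) (by rw [x1]; norm_num)
      (by rw [y1]; norm_num)
    obtain ⟨z', m2, m3, z1', hm', r2, r3⟩ := split r' (a := 16) (by rw [z1]; norm_num)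
      (by rw [y1]; norm_num)
    have e1 : m1 < n → _ := evL_of_reach r1 x1 (by rw [z1]; norm_num)
    have e2 : m2 < n → _ := evL_of_reach r2 z1 (by rw [z1']; norm_num)
    have e3 : m3 < n → _ := evL_of_reach r3 z1' (by rw [y1]; norm_num)
    have hZ : Z ω (k + w * N) < 2 * n := hω
    unfold Z at hZ
    obtain ⟨g, g'⟩ | ⟨g, g'⟩ | ⟨g, g'⟩ :
      (m1 < n ∧ m2 < n) ∨ (m1 < n ∧ m3 < n) ∨ (m2 < n ∧ m3 < n) := by omega
    · exact ⟨(0, 8), by simp [P], e1 g, e2 g'⟩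
    · exact ⟨(0, 16), by simp [P], e1 g, e3 g'⟩
    · exact ⟨(8, 16), by simp [P], e2 g, e3 g'⟩
  · rw [Pr_pull hE]
    refine (Pr_le_card P hE (B := fun x ω => EvL x.1 k n ω ∧ EvL x.2 k n ω)
      (fun x _ => (elem_EvL _ k n).and (elem_EvL _ k n)) (fun ω h => h)
      (ε := (640 * Pr N (fun ω => Z ω k < n)) ^ 2) fun x hx => Pr_EvL_and ?_).trans ?_
    · simp only [P, Finset.mem_insert, Finset.mem_singleton] at hx
      rcases hx with rfl | rfl | rfl <;> norm_num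
    · have : (P.card : ℝ) ≤ 3 := by exact_mod_cast Finset.card_le_three
      nlinarith [sq_nonneg (Pr N (fun ω => Z ω k < n))]

end Pool.Agent.P.MP_8c7dae_pr.Lower
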