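import Pool.Agent.P.MP_8c7dae_pr.MomC

open MeasureTheory Set Filter

namespace Pool.Agent.P.MP_8c7dae_pr.MomA

variable {N p K k : ℕ} {B c : ℝ} {g α β i : ℕ}

lemma add3_pow {x y z : ℝ} (hx : 0 ≤ x) (hy : 0 ≤ y) (hz : 0 ≤ z) (p : ℕ) :
    (x + y + z) ^ p ≤ 3 ^ p * (x ^ p + y ^ p + z ^ p) := by
  have h1 : x + y + z ≤ 3 * max x (max y z) := by
    linarith [le_max_left x (max y z), (le_max_left y z).trans (le_max_right x (max y z)),
      (le_max_right y z).trans (le_max_right x (max y z))]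
  refine (pow_le_pow_left₀ (by positivity) h1 p).trans ?_
  rw [mul_pow]
  refine mul_le_mul_of_nonneg_left ?_ (by positivity)
  have := pow_nonneg hx p
  have := pow_nonneg hy p
  have := pow_nonneg hz p
  rcases max_choice x (max y z) with h | h
  · rw [h]; linarith
  · rw [h]
    rcases max_choice y z with h | h <;> rw [h] <;> linarith

lemma exists_half {C ε : ℝ} (hC : 0 ≤ C) (hε : 0 < ε) :
    ∃ n : ℕ, ∀ m, n ≤ m → C * (1 / 2) ^ m ≤ ε := by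
  obtain ⟨n, hn⟩ := exists_pow_lt_of_lt_one (x := ε / (C + 1)) (y := (1 / 2 : ℝ)) (by positivity)
    (by norm_num)
  refine ⟨n, fun m hm => ?_⟩
  have h1 : (1 / 2 : ℝ) ^ m ≤ (1 / 2) ^ n := pow_le_pow_of_le_one (by norm_num) (by norm_num) hm
  rw [lt_div_iff₀ (by positivity)] at hn
  have h2 : (0 : ℝ) ≤ (1 / 2) ^ m := by positivity
  nlinarith

lemma elem_Y5 (k : ℕ) : Elem (fun ω => Y5 ω k) := Elem.sum _ fun _ _ => elem_Xh k _

lemma dS_mom (hp : p ≠ 0) (hB : HB N p K B) (hk : k ≤ K) (hα : α < 5 * 2 ^ g)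
    (hβ : β < 5 * 2 ^ g) :
    E N (fun ω => (dS (TR ω k col) (seg 0 g α) (seg 1 g β) : ℝ) ^ p) ≤
      5 * 10 ^ p * B * (a N k : ℝ) ^ p := by
  have h1 : E N (fun ω => (dS (TR ω k col) (seg 0 g α) (seg 1 g β) : ℝ) ^ p) ≤
      E N (fun ω => 10 ^ p * ∑ b ∈ Finset.range 5, (Xh ω k (0, 0, ((b : ℕ) : ℤ)) : ℝ) ^ p) := by
    refine E_mono ((elem_dS k col _ _).cast.pow p)
      ((Nice.sum _ fun b _ => nice_Xh_pow k _ p).cmul _) fun ω => ?_
    have h2 : (dS (TR ω k col) (seg 0 g α) (seg 1 g β) : ℝ) ≤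
        2 * ∑ b ∈ Finset.range 5, (Xh ω k (0, 0, ((b : ℕ) : ℤ)) : ℝ) := by
      have := dS_seg_le hα hβ ω k
      unfold Y5 at this
      exact_mod_cast this
    refine (pow_le_pow_left₀ (by positivity) h2 p).trans ?_
    rw [mul_pow, show (10 : ℝ) = 2 * 5 by norm_num, mul_pow, mul_assoc]
    exact mul_le_mul_of_nonneg_left (sum_pow_le _ (fun _ _ => by positivity) hp (n := 5)
      (by simp) (by norm_num)) (by positivity)
  rw [E_cmul, E_sum _ fun b _ => nice_Xh_pow k _ p] at h1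
  have h3 := Finset.sum_le_card_nsmul (Finset.range 5)
    (fun b => E N (fun ω => (Xh ω k (0, 0, ((b : ℕ) : ℤ)) : ℝ) ^ p)) (B * (a N k : ℝ) ^ p)
    fun b _ => by
      have e : ∀ ω, Xh ω k (0, 0, ((b : ℕ) : ℤ)) = X (pull (emb (0, 0, ((b : ℕ) : ℤ))) ω) k :=
        fun ω => by rw [Xh, S_zero rfl, Nat.sub_zero]
      simp only [e]
      rw [E_pull (nice_X_pow k p)]
      exact hB k hk
  rw [Finset.card_range, nsmul_eq_mul] at h3
  have h4 := mul_le_mul_of_nonneg_left h3 (show (0 : ℝ) ≤ 10 ^ p by positivity)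
  push_cast at h4
  linarith

lemma Rs_mom (hp : p ≠ 0) (hB : HB N p K B) (hk : k ≤ K) (hα : α < 5 * 2 ^ g)
    (hβ : β < 5 * 2 ^ g) (ρ : ℕ) :
    E N (fun ω => (Rs g α β i ρ ω k : ℝ) ^ p) ≤
      (2 ^ i) ^ p * (2 ^ i * (5 * 10 ^ p * B * (a N k : ℝ) ^ p)) := by
  have h1 : E N (fun ω => (Rs g α β i ρ ω k : ℝ) ^ p) ≤
      E N (fun ω => (2 ^ i) ^ p * ∑ t ∈ Finset.range (2 ^ i), (Dp g α β i t ρ ω k : ℝ) ^ p) := by
    refine E_mono ((elem_Rs g α β i ρ k).cast.pow p)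
      ((Nice.sum _ fun t _ => (elem_Dp g α β i t ρ k).cast.pow p).cmul _) fun ω => ?_
    rw [Rs, Nat.cast_sum]
    exact sum_pow_le _ (fun _ _ => by positivity) hp (by simp) (one_le_pow₀ (by norm_num))
  rw [E_cmul, E_sum _ fun t _ => (elem_Dp g α β i t ρ k).cast.pow p] at h1
  refine h1.trans (mul_le_mul_of_nonneg_left ?_ (by positivity))
  refine (Finset.sum_le_card_nsmul _ _ (5 * 10 ^ p * B * (a N k : ℝ) ^ p) fun t _ => ?_).trans ?_
  · have := E_pull (N := N) ((elem_dS k col (seg 0 g α) (seg 1 g β)).cast.pow p) (σs i t ρ)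
    exact this.le.trans (dS_mom hp hB hk hα hβ)
  · simp

lemma Rs_tail {r δ : ℝ} (h : Pr N (fun ω => r < dS (TR ω k col) (seg 0 g α) (seg 1 g β)) ≤ δ)
    (ρ : ℕ) : Pr N (fun ω => 2 ^ i * r < Rs g α β i ρ ω k) ≤ 2 ^ i * δ := by
  have := Pr_le_card (N := N) (Finset.range (2 ^ i))
    (A := fun ω => 2 ^ i * r < Rs g α β i ρ ω k) (B := fun t ω => r < Dp g α β i t ρ ω k)
    ((elem_Rs g α β i ρ k).map fun n : ℕ => 2 ^ i * r < n)
    (fun t _ => (elem_Dp g α β i t ρ k).map fun n : ℕ => r < n)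
    (fun ω hω => by
      by_contra hcon
      push Not at hcon
      have := Finset.sum_le_card_nsmul _ _ _ hcon
      rw [Rs, Nat.cast_sum] at hω
      simp only [Finset.card_range, nsmul_eq_mul, Nat.cast_pow, Nat.cast_ofNat] at this
      linarith) (ε := δ)
    (fun t _ => by
      have := Pr_pull (N := N) ((elem_dS k col (seg 0 g α) (seg 1 g β)).map fun n : ℕ => r < n)
        (σs i t ρ)
      exact this.le.trans h)
  simpa using this

lemma min_mom (hp : p ≠ 0) (hB : HB N p K B) (hk : k ≤ K) (hα : α < 5 * 2 ^ g)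
    (hβ : β < 5 * 2 ^ g) {r δ : ℝ} (hr : 0 ≤ r)
    (h : Pr N (fun ω => r < dS (TR ω k col) (seg 0 g α) (seg 1 g β)) ≤ δ) (ρ : ℕ) :
    E N (fun ω => ((min (Rs g α β i ρ ω k) (Rs g α β i (ρ + 5) ω k) : ℕ) : ℝ) ^ p) ≤
      (2 ^ i * r) ^ p +
        2 ^ i * δ * ((2 ^ i) ^ p * (2 ^ i * (5 * 10 ^ p * B * (a N k : ℝ) ^ p))) := by
  have eA : Elem (fun ω => 2 ^ i * r < Rs g α β i (ρ + 5) ω k) :=
    (elem_Rs g α β i (ρ + 5) k).map fun n : ℕ => 2 ^ i * r < n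
  have nR := (elem_Rs g α β i ρ k).cast.pow p
  have h1 : E N (fun ω => ((min (Rs g α β i ρ ω k) (Rs g α β i (ρ + 5) ω k) : ℕ) : ℝ) ^ p) ≤
      E N (fun ω => (2 ^ i * r) ^ p +
        ind (2 ^ i * r < Rs g α β i (ρ + 5) ω k) * (Rs g α β i ρ ω k : ℝ) ^ p) := by
    refine E_mono ((elem_min g α β i ρ k).cast.pow p) ((Nice.const _).add (eA.ind.mul nR))
      fun ω => ?_
    by_cases hω : 2 ^ i * r < Rs g α β i (ρ + 5) ω k
    · rw [ind_pos hω, one_mul]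
      have h2 : ((min (Rs g α β i ρ ω k) (Rs g α β i (ρ + 5) ω k) : ℕ) : ℝ) ≤ Rs g α β i ρ ω k := by
        exact_mod_cast min_le_left _ _
      have h3 := pow_le_pow_left₀ (by positivity) h2 p
      have h4 : 0 ≤ (2 ^ i * r) ^ p := by positivity
      linarith
    · rw [ind_neg hω, zero_mul, add_zero]
      have h2 : ((min (Rs g α β i ρ ω k) (Rs g α β i (ρ + 5) ω k) : ℕ) : ℝ) ≤
          Rs g α β i (ρ + 5) ω k := by exact_mod_cast min_le_right _ _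
      exact pow_le_pow_left₀ (by positivity) (h2.trans (not_lt.1 hω)) p
  rw [E_add (Nice.const _) (eA.ind.mul nR), E_const, E_mul_indep eA.ind nR
    (dep_ind ((dep_Rs' g α β i ρ k).qmap fun n : ℕ => 2 ^ i * r < n))
    ((dep_Rs g α β i ρ k).qmap fun n : ℕ => (n : ℝ) ^ p)] at h1
  refine h1.trans (add_le_add le_rfl ?_)
  have h5 := Rs_tail (i := i) h (ρ + 5)
  exact mul_le_mul h5 (Rs_mom hp hB hk hα hβ ρ) (E_nonneg fun _ => by positivity)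
    ((Pr_nonneg _).trans h5)

lemma X_mom_step (hp : p ≠ 0) (hα : α < 5 * 2 ^ g) (hβ : β < 5 * 2 ^ g) (hi : 10 ≤ 2 ^ i)
    {m1 m2 m3 : ℝ} (h1 : E N (fun ω => (Mx ω k i : ℝ) ^ p) ≤ m1)
    (h2 : E N (fun ω => (Mx ω k (i + g) : ℝ) ^ p) ≤ m2)
    (h3 : ∀ ρ, E N (fun ω => ((min (Rs g α β i ρ ω k) (Rs g α β i (ρ + 5) ω k) : ℕ) : ℝ) ^ p) ≤ m3) :
    E N (fun ω => (X ω k : ℝ) ^ p) ≤
      2 * 9 ^ p * (40 ^ p * m1 + (4 * 2 ^ i) ^ p * m2 + 2 ^ p * ((2 ^ i) ^ p * (2 ^ i * m3))) := by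
  have nH := (elem_Hb g α β i k).cast.pow p
  have s1 : E N (fun ω => (X ω k : ℝ) ^ p) ≤ E N (fun ω => 3 ^ p *
      ((Hb g α β i ω k : ℝ) ^ p + (Hb g α β i (pull trS ω) k : ℝ) ^ p)) := by
    refine E_mono (nice_X_pow k p) ((nH.add (nH.pull trS)).cmul _) fun ω => ?_
    have h4 : (X ω k : ℝ) ≤ Hb g α β i ω k + Hb g α β i (pull trS ω) k + 0 := by
      rw [add_zero]; exact_mod_cast X_le_Hb hα hβ hi
    refine (pow_le_pow_left₀ (by positivity) h4 p).trans ?_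
    refine (add3_pow (by positivity) (by positivity) le_rfl p).trans (le_of_eq ?_)
    rw [zero_pow hp, add_zero]
  rw [E_cmul, E_add nH (nH.pull trS), E_pull nH] at s1
  have n1 := ((elem_Mx k i).cast.pow p).cmul (40 ^ p)
  have n2 := ((elem_Mx k (i + g)).cast.pow p).cmul ((4 * 2 ^ i) ^ p)
  have n3 := ((Nice.sum (Finset.range (2 ^ i - 9)) fun ρ _ =>
    (elem_min g α β i ρ k).cast.pow p).cmul ((2 ^ i) ^ p)).cmul (2 ^ p)
  have hcard : ((Finset.range (2 ^ i - 9)).card : ℝ) ≤ 2 ^ i := by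
    rw [Finset.card_range]; exact_mod_cast Nat.sub_le _ _
  have s2 : E N (fun ω => (Hb g α β i ω k : ℝ) ^ p) ≤ E N (fun ω => 3 ^ p *
      (40 ^ p * (Mx ω k i : ℝ) ^ p + (4 * 2 ^ i) ^ p * (Mx ω k (i + g) : ℝ) ^ p +
        2 ^ p * ((2 ^ i) ^ p * ∑ ρ ∈ Finset.range (2 ^ i - 9),
          ((min (Rs g α β i ρ ω k) (Rs g α β i (ρ + 5) ω k) : ℕ) : ℝ) ^ p))) := by
    refine E_mono nH (((n1.add n2).add n3).cmul _) fun ω => ?_
    rw [Hb, Nat.cast_add, Nat.cast_add]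
    refine (add3_pow (by positivity) (by positivity) (by positivity) p).trans ?_
    refine mul_le_mul_of_nonneg_left (add_le_add (le_of_eq ?_) ?_) (by positivity)
    · push_cast
      rw [mul_pow, mul_pow _ (Mx ω k (i + g) : ℝ)]
    · rw [Nat.cast_mul, mul_pow, Nat.cast_sum, Nat.cast_ofNat]
      exact mul_le_mul_of_nonneg_left (sum_pow_le _ (fun _ _ => by positivity) hp hcard
        (one_le_pow₀ (by norm_num))) (by positivity)
  rw [E_cmul, E_add (n1.add n2) n3, E_add n1 n2, E_cmul, E_cmul, E_cmul, E_cmul,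
    E_sum _ fun ρ _ => (elem_min g α β i ρ k).cast.pow p] at s2
  have s3 := Finset.sum_le_card_nsmul (Finset.range (2 ^ i - 9)) _ _ fun ρ _ => h3 ρ
  rw [nsmul_eq_mul] at s3
  have hm3 : 0 ≤ m3 := (E_nonneg fun _ => by positivity).trans (h3 0)
  have s4 := s3.trans (mul_le_mul_of_nonneg_right hcard hm3)
  have s5 : E N (fun ω => (Hb g α β i ω k : ℝ) ^ p) ≤
      3 ^ p * (40 ^ p * m1 + (4 * 2 ^ i) ^ p * m2 + 2 ^ p * ((2 ^ i) ^ p * (2 ^ i * m3))) := by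
    refine s2.trans ?_
    gcongr
  have e : (9 : ℝ) ^ p = 3 ^ p * 3 ^ p := by rw [← mul_pow]; norm_num
  have s6 := mul_le_mul_of_nonneg_left s5 (show (0 : ℝ) ≤ 3 ^ p by positivity)
  rw [e]
  linarith

/-- the bootstrap step -/
lemma improve (hc0 : 0 < c) (hc1 : c ≤ 1) {p2 : ℕ} (hpc : 16 ≤ ((p2 + 2 : ℕ) : ℝ) * c) :
    ∃ C : ℝ, 1 ≤ C ∧ ∀ (N K : ℕ) (B : ℝ), 2 ≤ N → Dec N c →
      (∀ k, p0 < Pr N (fun ω => Z ω k ≤ a N k)) → HB N (p2 + 2) K B → 1 ≤ B →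
      HB N (p2 + 2) K (B / 2 + C) := by
  set p := p2 + 2 with hp
  have hp0 : p ≠ 0 := by omega
  obtain ⟨i0, hi0⟩ := exists_half (C := 2 * 9 ^ p * 40 ^ p * 2 ^ p) (ε := 1 / 8) (by positivity)
    (by norm_num)
  set i := max i0 4 with hi
  have hi1 := hi0 i (le_max_left _ _)
  have hi2 : 10 ≤ 2 ^ i := le_trans (by norm_num) (Nat.pow_le_pow_right two_pos (le_max_right i0 4))
  obtain ⟨g, hg0⟩ := exists_half (C := 2 * 9 ^ p * (4 * 2 ^ i) ^ p * 2 ^ p) (ε := 1 / 8)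
    (by positivity) (by norm_num)
  have hg1 := hg0 (i + g) (by omega)
  set K3 : ℝ := 2 * 9 ^ p * 2 ^ p * (2 ^ i) ^ p * 2 ^ i * (2 ^ i) ^ p with hK3
  set K4 : ℝ := 2 * 9 ^ p * 2 ^ p * (2 ^ i) ^ p * 2 ^ i * 2 ^ i * (2 ^ i) ^ p * 2 ^ i * 5 * 10 ^ p
    with hK4
  have hK30 : 0 < K3 := by positivity
  have hK40 : 0 < K4 := by positivity
  have hp00 : 0 < p0 := by unfold p0; positivity
  set δ := min (p0 / (25 * 4 ^ g)) (1 / (8 * K4)) with hδ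
  have hδ0 : 0 < δ := lt_min (by positivity) (by positivity)
  have hδ1 : 25 * 4 ^ g * δ ≤ p0 := by
    rw [← le_div_iff₀' (by positivity)]; exact min_le_left _ _
  have hδ2 : K4 * δ ≤ 1 / 8 := by
    have : δ ≤ 1 / (8 * K4) := min_le_right _ _
    rw [le_div_iff₀ (by positivity)] at this
    linarith
  obtain ⟨C, hC0, hC⟩ := tail hc0 hc1 hpc hδ0 (θ := 1 / (8 * K3)) (by positivity)
  set C1 : ℝ := 2 * 9 ^ p * (40 ^ p * 4 ^ i + (4 * 2 ^ i) ^ p * 4 ^ (i + g)) with hC1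
  have hC10 : 0 ≤ C1 := by positivity
  refine ⟨1 + C1 + K3 * C, by nlinarith [mul_nonneg hK30.le hC0], ?_⟩
  intro N K B hN hD ha hB h1 k hk
  have h0 : 0 ≤ B := by linarith
  obtain ⟨α, hα, β, hβ, hP⟩ := exists_pair (N := N) (k := k) g (a N k) (hδ1.trans_lt (ha k))
  obtain ⟨r, hr0, hr1, hr2⟩ := hC N K k B _ _ hN hD hB h1 hk (conn_seg hα hβ) hP
  refine (X_mom_step hp0 hα hβ hi2 (Mx_mom hc0.le hpc hN hD hB h0 hk i)
    (Mx_mom hc0.le hpc hN hD hB h0 hk (i + g)) (min_mom hp0 hB hk hα hβ hr0 hr2)).trans ?_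
  set A : ℝ := (a N k : ℝ) ^ p with hA
  have hA1 : 1 ≤ A := one_le_pow₀ (hD.one_le k)
  have hBA : 0 ≤ B * A := by positivity
  have t1 := mul_le_mul_of_nonneg_right hi1 hBA
  have t2 := mul_le_mul_of_nonneg_right hg1 hBA
  have t3 := mul_le_mul_of_nonneg_right hδ2 hBA
  have t4 := mul_le_mul_of_nonneg_left hr1 hK30.le
  have t5 : K3 * ((1 / (8 * K3) * B + C) * A) = 1 / 8 * (B * A) + K3 * C * A := by
    field_simp
  have t6 : C1 ≤ C1 * A := le_mul_of_one_le_right hC10 hA1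
  have e : 2 * 9 ^ p * (40 ^ p * (4 ^ i + B * 2 ^ p * (1 / 2) ^ i * A) +
      (4 * 2 ^ i) ^ p * (4 ^ (i + g) + B * 2 ^ p * (1 / 2) ^ (i + g) * A) +
      2 ^ p * ((2 ^ i) ^ p * (2 ^ i * ((2 ^ i * r) ^ p +
        2 ^ i * δ * ((2 ^ i) ^ p * (2 ^ i * (5 * 10 ^ p * B * A))))))) =
      C1 + 2 * 9 ^ p * 40 ^ p * 2 ^ p * (1 / 2) ^ i * (B * A) +
        2 * 9 ^ p * (4 * 2 ^ i) ^ p * 2 ^ p * (1 / 2) ^ (i + g) * (B * A) + K3 * r ^ p +
        K4 * δ * (B * A) := by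
    rw [hC1, hK3, hK4, mul_pow (2 ^ i) r]; ring
  rw [e]
  nlinarith

lemma HB_bound (hc0 : 0 < c) (hc1 : c ≤ 1) {p2 : ℕ} (hpc : 16 ≤ ((p2 + 2 : ℕ) : ℝ) * c) :
    ∃ B : ℝ, 1 ≤ B ∧ ∀ (N K : ℕ), 2 ≤ N → Dec N c →
      (∀ k, p0 < Pr N (fun ω => Z ω k ≤ a N k)) → HB N (p2 + 2) K B := by
  obtain ⟨C, hC1, hC⟩ := improve hc0 hc1 hpc
  refine ⟨1 + 2 * C, by linarith, fun N K hN hD ha => ?_⟩
  set B0 : ℝ := (2 ^ K) ^ (p2 + 2) with hB0
  have hB00 : 0 ≤ B0 := by positivity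
  have key : ∀ n : ℕ, HB N (p2 + 2) K (B0 * (1 / 2) ^ n + 2 * C) := by
    intro n
    induction n with
    | zero =>
      intro k hk
      refine E_le_const (nice_X_pow k _) fun ω => ?_
      have h1 : (X ω k : ℝ) ≤ 2 ^ K := by
        exact_mod_cast (X_le (reach_two_pow k)).trans (Nat.pow_le_pow_right two_pos hk)
      have h2 := pow_le_pow_left₀ (by positivity) h1 (p2 + 2)
      have h3 : (1 : ℝ) ≤ (a N k : ℝ) ^ (p2 + 2) := one_le_pow₀ (hD.one_le k)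
      rw [pow_zero, mul_one]
      nlinarith
    | succ n ih =>
      have h1 : 0 ≤ B0 * (1 / 2) ^ n := by positivity
      refine (hC N K _ hN hD ha ih (by linarith)).mono (le_of_eq ?_)
      ring
  obtain ⟨n, hn⟩ := exists_half hB00 one_pos
  exact (key n).mono (by linarith [hn n le_rfl])

end Pool.Agent.P.MP_8c7dae_pr.MomA
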