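import Pool.Agent.P.MP_8c7dae_pr.Lower
import Pool.Agent.P.MP_8c7dae_pr.MomD

open MeasureTheory Set Filter

namespace Pool.Agent.P.MP_8c7dae_pr

namespace MomA

lemma exists_all (p' : ℕ) : ∃ (c : ℝ) (p2 : ℕ) (B : ℝ), 0 < c ∧ c ≤ 1 ∧ p' ≤ p2 + 2 ∧
    16 ≤ ((p2 + 2 : ℕ) : ℝ) * c ∧ 1 ≤ B ∧ ∀ N, 2 ≤ N → Dec N c ∧ ∀ K, HB N (p2 + 2) K B := by
  obtain ⟨c, hc0, hc1, hc⟩ := a_decay
  have hpc : 16 ≤ ((p' + ⌈16 / c⌉₊ + 2 : ℕ) : ℝ) * c := by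
    have h1 := Nat.le_ceil (16 / c)
    rw [div_le_iff₀ hc0] at h1
    have h2 : (0 : ℝ) ≤ p' := by positivity
    push_cast
    nlinarith
  obtain ⟨B, hB1, hB⟩ := HB_bound hc0 hc1 hpc
  refine ⟨c, p' + ⌈16 / c⌉₊, B, hc0, hc1, by omega, hpc, hB1, fun N hN => ?_⟩
  have hD : Dec N c := ⟨one_le_a N, hc N hN⟩
  exact ⟨hD, fun K => hB N K hN hD (a_spec N)⟩

end MomA

open MomA

theorem X_mom (p : ℕ) : ∃ C : ℝ, 1 ≤ C ∧ ∀ N, 2 ≤ N → ∀ k,
    E N (fun ω => (X ω k : ℝ) ^ p) ≤ C * (a N k : ℝ) ^ p := by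
  obtain ⟨c, p2, B, -, -, hp, -, hB1, h⟩ := exists_all p
  refine ⟨1 + B, by linarith, fun N hN k => ?_⟩
  obtain ⟨hD, hB⟩ := h N hN
  have h1 := hB k k le_rfl
  obtain ⟨s, hs⟩ := Nat.exists_eq_add_of_le hp
  rw [hs] at h1
  have hA := hD.pos k
  refine (E_mono (nice_X_pow k p) ((Nice.const _).add ((nice_X_pow k (p + s)).div_const _))
    fun ω => pow_le_aux (by positivity) hA p s).trans ?_
  rw [E_add (Nice.const _) ((nice_X_pow k (p + s)).div_const _), E_const, E_divc, add_mul, one_mul]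
  refine add_le_add le_rfl ?_
  rw [div_le_iff₀ (by positivity), mul_assoc, ← pow_add]
  exact h1

theorem Mx_small {η : ℝ} (hη : 0 < η) : ∃ m0 : ℕ, ∀ m, m0 ≤ m → ∃ t0 : ℕ, ∀ N, 2 ≤ N → ∀ k,
    t0 * N ≤ k → E N (fun ω => (Mx ω k m : ℝ) ^ 2) ≤ η * (a N k : ℝ) ^ 2 := by
  obtain ⟨c, p2, B, hc0, -, -, hpc, hB1, h⟩ := exists_all 0
  set θ := Real.sqrt (η / 3) with hθ
  have hθ0 : 0 < θ := Real.sqrt_pos.2 (by positivity)
  have hθ2 : θ ^ 2 = η / 3 := Real.sq_sqrt (by positivity)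
  have hε : 0 < η / 3 * θ ^ p2 := by positivity
  obtain ⟨m0, hm0⟩ := exists_half (C := B * 2 ^ (p2 + 2)) (by positivity) hε
  refine ⟨m0, fun m hm => ⟨⌈2 * 4 ^ m / (η / 3 * θ ^ p2) / c⌉₊, fun N hN k hk => ?_⟩⟩
  obtain ⟨hD, hB⟩ := h N hN
  have hA := hD.pos k
  have hA1 := hD.one_le k
  have hq := q_pos hN
  have h1 := Mx_mom hc0.le hpc hN hD (hB k) (by linarith) le_rfl m
  have h2 : 4 ^ m ≤ η / 3 * θ ^ p2 * (a N k : ℝ) ^ (p2 + 2) := by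
    have g1 := (hD.one_le (k - k)).trans (hD.2 k k le_rfl)
    have g2 : (⌈2 * 4 ^ m / (η / 3 * θ ^ p2) / c⌉₊ : ℝ) * N ≤ k := by exact_mod_cast hk
    have g3 := Nat.le_ceil (2 * 4 ^ m / (η / 3 * θ ^ p2) / c)
    set t : ℝ := (⌈2 * 4 ^ m / (η / 3 * θ ^ p2) / c⌉₊ : ℝ)
    rw [div_le_iff₀ hc0, div_le_iff₀ hε] at g3
    have g4 : t ≤ q N * k := by
      have := mul_le_mul_of_nonneg_left g2 hq.le
      rwa [mul_left_comm, q_mul hN, mul_one] at this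
    have g5 : t * c ≤ Real.exp (c * q N * k) := by
      have := Real.add_one_le_exp (c * q N * k)
      nlinarith
    have g6 : Real.exp (c * q N * k) ≤ 2 * a N k := by
      have := mul_le_mul_of_nonneg_left g1 (Real.exp_pos (c * q N * k)).le
      rwa [mul_one, show Real.exp (c * q N * k) * (2 * Real.exp (-(c * q N) * k) * a N k) =
        (Real.exp (c * q N * k) * Real.exp (-(c * q N) * k)) * (2 * a N k) by ring,
        ← Real.exp_add, show c * q N * k + -(c * q N) * k = 0 by ring, Real.exp_zero,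
        one_mul] at this
    have g7 : (a N k : ℝ) ≤ (a N k : ℝ) ^ (p2 + 2) := le_self_pow₀ hA1 (by omega)
    have g8 := mul_le_mul_of_nonneg_left ((g5.trans g6).trans
      (mul_le_mul_of_nonneg_left g7 zero_le_two)) hε.le
    linarith
  have nM := (elem_Mx k m).cast
  refine (E_mono (nM.pow 2) ((Nice.const _).add ((nM.pow (p2 + 2)).div_const _))
    fun ω => sq_le_aux (t := θ * a N k) (by positivity) (by positivity) p2).trans ?_
  rw [E_add (Nice.const _) ((nM.pow (p2 + 2)).div_const _), E_const, E_divc]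
  have h3 : E N (fun ω => (Mx ω k m : ℝ) ^ (p2 + 2)) / (θ * a N k) ^ p2 ≤
      2 * (η / 3) * (a N k : ℝ) ^ 2 := by
    rw [div_le_iff₀ (by positivity)]
    have h4 := mul_le_mul_of_nonneg_right (hm0 m hm)
      (show 0 ≤ (a N k : ℝ) ^ (p2 + 2) by positivity)
    have e : 2 * (η / 3) * (a N k : ℝ) ^ 2 * (θ * a N k) ^ p2 =
        2 * (η / 3 * θ ^ p2 * (a N k : ℝ) ^ (p2 + 2)) := by rw [mul_pow]; ring
    rw [e]
    linarith
  rw [mul_pow, hθ2]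
  linarith

theorem conc {η : ℝ} (hη : 0 < η) : ∃ D0 : ℕ, ∀ D, D0 ≤ D → ∀ N, 2 ≤ N → ∀ k, ∀ x ∈ Q, ∀ y ∈ Q,
    E N (fun ω => ((d ω k x y : ℝ) - Res N (Deep D) (fun ω => (d ω k x y : ℝ)) ω) ^ 2) ≤
      η * (a N k : ℝ) ^ 2 := by
  obtain ⟨c, p2, B, hc0, hc1, -, hpc, hB1, h⟩ := exists_all 0
  obtain ⟨C1, hC1, hX⟩ := X_mom 1
  have hC0 : 0 < C1 := by linarith
  set τ0 := η * c / (8 * C1) with hτ
  have hτ0 : 0 < τ0 := by positivity
  obtain ⟨D0, hD0⟩ := exists_half (C := 32 * 8 ^ (p2 + 2) * B) (ε := η / 2 * τ0 ^ p2)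
    (by positivity) (by positivity)
  refine ⟨D0, fun D hD N hN k x hx y hy => ?_⟩
  obtain ⟨hDec, hB⟩ := h N hN
  refine (conc_aux hc0 hc1 hpc hN hDec (hB k) hB1 hC0.le (by simpa using hX N hN k) hτ0 D
    hx hy).trans (mul_le_mul_of_nonneg_right ?_ (by positivity))
  have h1 : 4 * C1 * τ0 / c = η / 2 := by rw [hτ]; field_simp; norm_num
  have h2 : 32 * 8 ^ (p2 + 2) * B * (1 / 2) ^ D / τ0 ^ p2 ≤ η / 2 := by
    rw [div_le_iff₀ (by positivity)]; exact hD0 D hD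
  linarith

end Pool.Agent.P.MP_8c7dae_pr
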