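import Pool.Agent.P.MP_8c7dae_pr.Defs3

open MeasureTheory Set Filter

namespace Pool.Agent.P.MP_8c7dae_pr.MomA

/-- moment bound up to time `K` -/
def HB (N p K : ℕ) (B : ℝ) : Prop :=
  ∀ k ≤ K, E N (fun ω => (X ω k : ℝ) ^ p) ≤ B * (a N k : ℝ) ^ p

/-- decay of the normalising sequence backwards in time -/
def Dec (N : ℕ) (c : ℝ) : Prop :=
  (∀ k, 1 ≤ a N k) ∧
    ∀ k s : ℕ, s ≤ k → (a N (k - s) : ℝ) ≤ 2 * Real.exp (-(c * q N) * s) * a N k

variable {N p K : ℕ} {B c : ℝ}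

lemma HB.mono (h : HB N p K B) {B' : ℝ} (hB : B ≤ B') : HB N p K B' := fun k hk =>
  (h k hk).trans (mul_le_mul_of_nonneg_right hB (by positivity))

lemma Dec.one_le (h : Dec N c) (k : ℕ) : (1 : ℝ) ≤ a N k := by exact_mod_cast h.1 k

lemma Dec.pos (h : Dec N c) (k : ℕ) : (0 : ℝ) < a N k := lt_of_lt_of_le one_pos (h.one_le k)

lemma Dec.pow (h : Dec N c) (p : ℕ) {k s : ℕ} (hs : s ≤ k) :
    (a N (k - s) : ℝ) ^ p ≤ 2 ^ p * Real.exp (-(p * c * q N) * s) * (a N k : ℝ) ^ p := by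
  refine (pow_le_pow_left₀ (by positivity) (h.2 k s hs) p).trans (le_of_eq ?_)
  rw [mul_pow, mul_pow, ← Real.exp_nat_mul]
  congr 3; ring

lemma sum_pow_le {ι : Type*} (s : Finset ι) {f : ι → ℝ} (hf : ∀ i ∈ s, 0 ≤ f i) {p : ℕ}
    (hp : p ≠ 0) {n : ℝ} (hn : (s.card : ℝ) ≤ n) (h1 : 1 ≤ n) :
    (∑ i ∈ s, f i) ^ p ≤ n ^ p * ∑ i ∈ s, f i ^ p := by
  obtain ⟨m, rfl⟩ := Nat.exists_eq_succ_of_ne_zero hp
  refine (pow_sum_le_card_mul_sum_pow hf m).trans ?_
  refine mul_le_mul_of_nonneg_right ?_ (Finset.sum_nonneg fun i hi => pow_nonneg (hf i hi) _)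
  exact (pow_le_pow_left₀ (by positivity) hn m).trans (pow_le_pow_right₀ h1 (Nat.le_succ m))

lemma nice_Xh_pow (k : ℕ) (u : Cell) (p : ℕ) : Nice (fun ω => (Xh ω k u : ℝ) ^ p) :=
  (elem_Xh k u).cast.pow p

lemma nice_X_pow (k : ℕ) (p : ℕ) : Nice (fun ω => (X ω k : ℝ) ^ p) := (elem_X k).cast.pow p

lemma dep_S_sub1 (u : Cell) : DependsOn (fun ω => S ω u) (Sub1 u)ᶜ :=
  (dep_S u).mono fun v hv hb => by
    have h1 := hv.2
    have h2 : u.1 ≤ v.1 := (show Below u v from hb).1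
    omega

lemma Res_Xh (k : ℕ) (u : Cell) (p : ℕ) (ω : Om) :
    Res N (Sub1 u) (fun ω => (Xh ω k u : ℝ) ^ p) ω =
      E N (fun ω' => (X ω' (k - S ω u) : ℝ) ^ p) := by
  have := Res_aged (N := N) (F := fun j ω => (X ω j : ℝ) ^ p) (fun j => nice_X_pow j p) (emb u)
    (s := Sub1 u) (fun j => by
      have := dep_pull_sub1 ((dep_X j).qmap fun n : ℕ => (n : ℝ) ^ p) (emb u)
      rwa [emb_root] at this)
    (φ := fun ω => k - S ω u) ((dep_S_sub1 u).qmap fun n => k - n) ω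
  exact this

/-- moments of the diameter of a born cell -/
lemma Xh_mom (hc : 0 ≤ c) (hN : 2 ≤ N) (hD : Dec N c) (hB : HB N p K B) (h0 : 0 ≤ B) {k : ℕ}
    (hk : k ≤ K) (u : Cell) {G : Om → Prop} (hG : Elem G) (hd : DependsOn G (Sub1 u)ᶜ)
    (hS : ∀ ω, G ω → S ω u ≤ k) :
    E N (fun ω => ind (G ω) * (Xh ω k u : ℝ) ^ p) ≤
      B * 2 ^ p * (a N k : ℝ) ^ p *
        E N (fun ω => ind (G ω) * Real.exp (-(p * c * q N) * (S ω u : ℝ))) := by
  have hq := (q_pos hN).le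
  rw [E_mul_Res hG.ind (nice_Xh_pow k u p) (dep_ind hd), ← E_cmul]
  refine E_mono (hG.ind.mul ((nice_Xh_pow k u p).res N _))
    ((hG.ind.mul (nice_exp_S (by positivity) u)).cmul _) fun ω => ?_
  by_cases h : G ω
  · rw [ind_pos h, one_mul, one_mul, Res_Xh]
    refine (hB _ (by omega)).trans ?_
    have := mul_le_mul_of_nonneg_left (hD.pow p (hS ω h)) h0
    linarith
  · rw [ind_neg h]; simp

lemma Xh_pow_le (ω : Om) (k : ℕ) (u : Cell) (p : ℕ) :
    (Xh ω k u : ℝ) ^ p ≤ 1 + ind (S ω u ≤ k) * (Xh ω k u : ℝ) ^ p := by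
  by_cases h : S ω u ≤ k
  · rw [ind_pos h]; linarith
  · rw [ind_neg h, zero_mul, add_zero]
    have : (Xh ω k u : ℝ) ≤ 1 := by exact_mod_cast Xh_le_one (by omega)
    exact pow_le_one₀ (by positivity) this

lemma Xh_mom' (hc : 0 ≤ c) (hpc : 16 ≤ p * c) (hN : 2 ≤ N) (hD : Dec N c) (hB : HB N p K B)
    (h0 : 0 ≤ B) {k : ℕ} (hk : k ≤ K) (u : Cell) :
    E N (fun ω => (Xh ω k u : ℝ) ^ p) ≤ 1 + B * 2 ^ p * (a N k : ℝ) ^ p * (1 / 8) ^ u.1 := by
  have hq := (q_pos hN).le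
  have h1 := Xh_mom hc hN hD hB h0 hk u (elem_S_le u k) ((dep_S_sub1 u).qmap fun n => n ≤ k)
    fun _ h => h
  have h2 : E N (fun ω => ind (S ω u ≤ k) * Real.exp (-(p * c * q N) * (S ω u : ℝ))) ≤
      (1 / 8) ^ u.1 := by
    refine le_trans (E_mono ((elem_S_le u k).ind.mul (nice_exp_S (by positivity) u))
      (nice_exp_S (x := p * c * q N) (by positivity) u) fun ω => ?_)
      ((E_exp_S hN (x := p * c) (by linarith) u).trans ?_)
    · exact mul_le_of_le_one_left (Real.exp_pos _).le (ind_le_one _)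
    · refine pow_le_pow_left₀ (by positivity) ?_ _
      exact one_div_le_one_div_of_le (by norm_num) (by linarith)
  have h3 : E N (fun ω => (Xh ω k u : ℝ) ^ p) ≤
      E N (fun ω => 1 + ind (S ω u ≤ k) * (Xh ω k u : ℝ) ^ p) :=
    E_mono (nice_Xh_pow k u p) ((Nice.const 1).add ((elem_S_le u k).ind.mul (nice_Xh_pow k u p)))
      fun ω => Xh_pow_le ω k u p
  rw [E_add (Nice.const 1) ((elem_S_le u k).ind.mul (nice_Xh_pow k u p)), E_const] at h3
  have h4 := mul_le_mul_of_nonneg_left h2 (show 0 ≤ B * 2 ^ p * (a N k : ℝ) ^ p by positivity)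
  linarith

lemma Mx_pow_le (ω : Om) (k m p : ℕ) (hp : p ≠ 0) :
    (Mx ω k m : ℝ) ^ p ≤ ∑ u ∈ desc m root, (Xh ω k u : ℝ) ^ p := by
  rcases (desc m root).eq_empty_or_nonempty with h | h
  · simp [Mx, h, hp]
  · obtain ⟨u, hu, e⟩ := Finset.exists_mem_eq_sup _ h (Xh ω k)
    rw [Mx, e]
    exact Finset.single_le_sum (f := fun u => (Xh ω k u : ℝ) ^ p) (fun _ _ => by positivity) hu

lemma p_ne_zero (hpc : 16 ≤ p * c) : p ≠ 0 := by
  rintro rfl
  norm_num at hpc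

lemma Mx_mom (hc : 0 ≤ c) (hpc : 16 ≤ p * c) (hN : 2 ≤ N) (hD : Dec N c) (hB : HB N p K B)
    (h0 : 0 ≤ B) {k : ℕ} (hk : k ≤ K) (m : ℕ) :
    E N (fun ω => (Mx ω k m : ℝ) ^ p) ≤ 4 ^ m + B * 2 ^ p * (1 / 2) ^ m * (a N k : ℝ) ^ p := by
  refine (E_mono ((elem_Mx k m).cast.pow p) (Nice.sum _ fun u _ => nice_Xh_pow k u p)
    fun ω => Mx_pow_le ω k m p (p_ne_zero hpc)).trans ?_
  rw [E_sum _ fun u _ => nice_Xh_pow k u p]
  refine (Finset.sum_le_card_nsmul _ _ (1 + B * 2 ^ p * (a N k : ℝ) ^ p * (1 / 8) ^ m)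
    fun u hu => ?_).trans ?_
  · have e : u.1 = m := by simpa [root] using (mem_desc.1 hu).1
    rw [← e]
    exact Xh_mom' hc hpc hN hD hB h0 hk u
  · rw [nsmul_eq_mul]
    have h1 : ((desc m root).card : ℝ) ≤ 4 ^ m := by exact_mod_cast card_desc m root
    refine (mul_le_mul_of_nonneg_right h1 (by positivity)).trans (le_of_eq ?_)
    have : (4 : ℝ) ^ m * (1 / 8) ^ m = (1 / 2) ^ m := by rw [← mul_pow]; norm_num
    rw [← this]; ring

/-- one alive cell -/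
lemma alive_mom (hc : 0 ≤ c) (hpc : 16 ≤ p * c) (hN : 2 ≤ N) (hD : Dec N c) (hB : HB N p K B)
    (h1 : 1 ≤ B) {k j : ℕ} (hk : k ≤ K) (hj : j < k) (v : Cell) :
    E N (fun ω => ind (v ∈ T ω j) * (Xh ω k v : ℝ) ^ p) ≤
      8 * 8 ^ p * B * Real.exp (-((p * c - 7) * q N) * j) * (a N k : ℝ) ^ p * (1 / 8) ^ v.1 := by
  have hq := (q_pos hN).le
  have h0 : 0 ≤ B := by linarith
  have eG : ∀ u, Elem (fun ω => S ω v ≤ j ∧ ¬ S ω u ≤ j ∧ S ω u ≤ k) := fun u =>
    (elem_S_le v j).and ((elem_S_le u j).not.and (elem_S_le u k))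
  have nG : ∀ u, Nice (fun ω => ind (S ω v ≤ j) +
      ind (S ω v ≤ j ∧ ¬ S ω u ≤ j ∧ S ω u ≤ k) * (Xh ω k u : ℝ) ^ p) := fun u =>
    (elem_S_le v j).ind.add ((eG u).ind.mul (nice_Xh_pow k u p))
  have step1 : E N (fun ω => ind (v ∈ T ω j) * (Xh ω k v : ℝ) ^ p) ≤
      E N (fun ω => 4 ^ p * ∑ u ∈ desc 1 v, (ind (S ω v ≤ j) +
        ind (S ω v ≤ j ∧ ¬ S ω u ≤ j ∧ S ω u ≤ k) * (Xh ω k u : ℝ) ^ p)) := by
    refine E_mono ((elem_alive v j).ind.mul (nice_Xh_pow k v p))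
      ((Nice.sum _ fun u _ => nG u).cmul _) fun ω => ?_
    by_cases h : v ∈ T ω j
    swap
    · rw [ind_neg h, zero_mul]
      exact mul_nonneg (by positivity) (Finset.sum_nonneg fun u _ =>
        add_nonneg (ind_nonneg _) (mul_nonneg (ind_nonneg _) (by positivity)))
    rw [ind_pos h, one_mul]
    have h2 : (Xh ω k v : ℝ) ≤ ∑ u ∈ desc 1 v, (Xh ω k u : ℝ) := by
      exact_mod_cast Xh_le_sum_desc 1 v
    refine (pow_le_pow_left₀ (by positivity) h2 p).trans ?_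
    refine (sum_pow_le _ (fun _ _ => by positivity) (p_ne_zero hpc) (n := 4)
      (by exact_mod_cast card_desc 1 v) (by norm_num)).trans ?_
    refine mul_le_mul_of_nonneg_left (Finset.sum_le_sum fun u hu => ?_) (by positivity)
    refine (Xh_pow_le ω k u p).trans ?_
    have h3 := S_child (ω := ω) hu
    have h4 := h.1
    have h5 := h.2
    rw [ind_pos h4]
    refine add_le_add le_rfl (mul_le_mul_of_nonneg_right (ind_mono fun hh => ?_) (by positivity))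
    exact ⟨h4, by omega, hh⟩
  set P := Pr N (fun ω => S ω v ≤ j) with hP
  have hP0 : 0 ≤ P := Pr_nonneg _
  set W := 2 ^ p * Real.exp (-(p * c * q N) * j) * (a N k : ℝ) ^ p with hW
  have hW1 : 1 ≤ W := le_trans (one_le_pow₀ (hD.one_le _)) (hD.pow p hj.le)
  have step2 : ∀ u ∈ desc 1 v, E N (fun ω => ind (S ω v ≤ j) +
      ind (S ω v ≤ j ∧ ¬ S ω u ≤ j ∧ S ω u ≤ k) * (Xh ω k u : ℝ) ^ p) ≤ 2 * B * W * P := by
    intro u hu
    obtain ⟨e, hb⟩ := mem_desc.1 hu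
    rw [E_add (elem_S_le v j).ind ((eG u).ind.mul (nice_Xh_pow k u p))]
    have dv : DependsOn (fun ω => S ω v) (Sub1 u)ᶜ := (dep_S v).mono fun w hw hb' => by
      have h1 := hw.2
      have h2 : u.1 ≤ w.1 := (show Below u w from hb').1
      omega
    have h2 := Xh_mom hc hN hD hB h0 hk u (eG u)
      (dv.qmap₂ (dep_S_sub1 u) fun x y => x ≤ j ∧ ¬ y ≤ j ∧ y ≤ k) fun _ h => h.2.2
    have h3 : E N (fun ω => ind (S ω v ≤ j ∧ ¬ S ω u ≤ j ∧ S ω u ≤ k) *
        Real.exp (-(p * c * q N) * (S ω u : ℝ))) ≤ Real.exp (-(p * c * q N) * j) * P := by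
      rw [hP, Pr, ← E_cmul]
      refine E_mono ((eG u).ind.mul (nice_exp_S (by positivity) u))
        ((elem_S_le v j).ind.cmul _) fun ω => ?_
      by_cases h : S ω v ≤ j ∧ ¬ S ω u ≤ j ∧ S ω u ≤ k
      · rw [ind_pos h, ind_pos h.1, one_mul, mul_one]
        refine Real.exp_le_exp.2 ?_
        have : (j : ℝ) ≤ S ω u := by exact_mod_cast (by omega : j ≤ S ω u)
        have h5 : 0 ≤ p * c * q N := by positivity
        nlinarith
      · rw [ind_neg h, zero_mul]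
        exact mul_nonneg (Real.exp_pos _).le (ind_nonneg _)
    have h4 := mul_le_mul_of_nonneg_left h3 (show 0 ≤ B * 2 ^ p * (a N k : ℝ) ^ p by positivity)
    have h5 : P ≤ B * W * P := le_mul_of_one_le_left hP0 (one_le_mul_of_one_le_of_one_le h1 hW1)
    have h6 : B * 2 ^ p * (a N k : ℝ) ^ p * (Real.exp (-(p * c * q N) * j) * P) = B * W * P := by
      rw [hW]; ring
    change P + _ ≤ _
    linarith
  refine step1.trans ?_
  rw [E_cmul, E_sum _ fun u _ => nG u]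
  have step3 := Finset.sum_le_card_nsmul _ _ _ step2
  rw [nsmul_eq_mul] at step3
  have h7 : ((desc 1 v).card : ℝ) ≤ 4 := by exact_mod_cast card_desc 1 v
  have h8 : P ≤ Real.exp (7 * q N * j) * (1 / 8) ^ v.1 := by
    have := Pr_S_le hN (x := 7) (by norm_num) v j
    norm_num at this ⊢
    exact this
  have hW0 : 0 ≤ W := by linarith
  calc (4 : ℝ) ^ p * _ ≤ 4 ^ p * (4 * (2 * B * W * (Real.exp (7 * q N * j) * (1 / 8) ^ v.1))) := by
        refine mul_le_mul_of_nonneg_left (step3.trans ?_) (by positivity)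
        refine mul_le_mul h7 (mul_le_mul_of_nonneg_left h8 (by positivity)) (by positivity)
          (by norm_num)
    _ = _ := by
        have e1 : (8 : ℝ) ^ p = 4 ^ p * 2 ^ p := by rw [← mul_pow]; norm_num
        have e2 : Real.exp (-((p * c - 7) * q N) * j) =
            Real.exp (-(p * c * q N) * j) * Real.exp (7 * q N * j) := by
          rw [← Real.exp_add]; congr 1; ring
        rw [hW, e1, e2]; ring

lemma sum_cells_le (k D : ℕ) {R : Finset Cell} (hR : ∀ r ∈ R, r.1 = 0) :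
    ∑ v ∈ (cells k R).filter (fun v => D ≤ v.1), (1 / 8 : ℝ) ^ v.1 ≤ 2 * R.card * (1 / 2) ^ D := by
  classical
  have hm : ∀ v ∈ (cells k R).filter (fun v => D ≤ v.1), v.1 ∈ Finset.Ico D (D + k + 1) := by
    intro v hv
    simp only [Finset.mem_filter, cells, Finset.mem_biUnion, Finset.mem_range, mem_desc] at hv
    obtain ⟨⟨m, hm, r, hr, e, -⟩, h⟩ := hv
    have := hR r hr
    rw [Finset.mem_Ico]; omega
  rw [← Finset.sum_fiberwise_of_maps_to hm]
  have h1 : ∀ m ∈ Finset.Ico D (D + k + 1),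
      ∑ v ∈ ((cells k R).filter (fun v => D ≤ v.1)).filter (fun v => v.1 = m), (1 / 8 : ℝ) ^ v.1 ≤
        R.card * (1 / 2) ^ m := by
    intro m _
    rw [Finset.sum_congr rfl (g := fun _ => (1 / 8 : ℝ) ^ m) fun v hv => by
      rw [(Finset.mem_filter.1 hv).2], Finset.sum_const, nsmul_eq_mul]
    have hs : ((cells k R).filter (fun v => D ≤ v.1)).filter (fun v => v.1 = m) ⊆
        R.biUnion (desc m) := by
      intro v hv
      simp only [Finset.mem_filter, cells, Finset.mem_biUnion, Finset.mem_range, mem_desc] at hv ⊢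
      obtain ⟨⟨⟨m', hm, r, hr, e, hb⟩, h⟩, e'⟩ := hv
      have := hR r hr
      exact ⟨r, hr, by omega, hb⟩
    have hc : (((cells k R).filter (fun v => D ≤ v.1)).filter (fun v => v.1 = m)).card ≤
        R.card * 4 ^ m := (Finset.card_le_card hs).trans
      (Finset.card_biUnion_le_card_mul _ _ _ fun r _ => card_desc m r)
    have hc' : ((((cells k R).filter (fun v => D ≤ v.1)).filter (fun v => v.1 = m)).card : ℝ) ≤
        R.card * 4 ^ m := by exact_mod_cast hc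
    refine (mul_le_mul_of_nonneg_right hc' (by positivity)).trans (le_of_eq ?_)
    rw [mul_assoc, ← mul_pow]; norm_num
  refine (Finset.sum_le_sum h1).trans ?_
  rw [← Finset.mul_sum]
  have h2 := geom_sum_Ico_le_of_lt_one (x := (1 / 2 : ℝ)) (m := D) (n := D + k + 1)
    (by norm_num) (by norm_num)
  have h3 : (1 / 2 : ℝ) ^ D / (1 - 1 / 2) = 2 * (1 / 2) ^ D := by ring
  rw [h3] at h2
  have := mul_le_mul_of_nonneg_left h2 (show (0 : ℝ) ≤ R.card by positivity)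
  linarith

lemma nice_G (k j p : ℕ) (F : Finset Cell) :
    Nice (fun ω => ∑ v ∈ F, ind (v ∈ T ω j) * (Xh ω k v : ℝ) ^ p) :=
  Nice.sum _ fun v _ => (elem_alive v j).ind.mul (nice_Xh_pow k v p)

/-- all cells alive at time `j` -/
lemma G_mom (hc : 0 ≤ c) (hpc : 16 ≤ p * c) (hN : 2 ≤ N) (hD : Dec N c) (hB : HB N p K B)
    (h1 : 1 ≤ B) {k j : ℕ} (hk : k ≤ K) (hj : j < k) (D : ℕ) {R : Finset Cell}
    (hR : ∀ r ∈ R, r.1 = 0) :
    E N (fun ω => ∑ v ∈ (cells k R).filter (fun v => D ≤ v.1),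
      ind (v ∈ T ω j) * (Xh ω k v : ℝ) ^ p) ≤
      16 * R.card * 8 ^ p * B * (1 / 2) ^ D * Real.exp (-((p * c - 7) * q N) * j) *
        (a N k : ℝ) ^ p := by
  rw [E_sum _ fun v _ => (elem_alive v j).ind.mul (nice_Xh_pow k v p)]
  refine (Finset.sum_le_sum fun v _ => alive_mom hc hpc hN hD hB h1 hk hj v).trans ?_
  rw [← Finset.mul_sum]
  have h0 : 0 ≤ B := by linarith
  refine (mul_le_mul_of_nonneg_left (sum_cells_le k D hR) (by positivity)).trans (le_of_eq ?_)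
  ring

lemma geo_sum (hN : 2 ≤ N) {σ : ℝ} (h0 : 0 < σ) (h1 : σ ≤ 1) (k : ℕ) :
    q N * ∑ j ∈ Finset.range k, Real.exp (-(σ * q N) * j) ≤ 2 / σ := by
  have hq := q_pos hN
  have hq' := q_le hN
  set x := σ * q N with hx
  have hx0 : 0 < x := by positivity
  have hx1 : x ≤ 1 := by nlinarith
  have he : Real.exp (-x) ≤ 1 / (1 + x) := by
    rw [Real.exp_neg, one_div]
    exact inv_anti₀ (by linarith) (by linarith [Real.add_one_le_exp x])
  have hlt : 1 / (1 + x) < 1 := by rw [div_lt_one (by linarith)]; linarith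
  have h2 := geom_sum_Ico_le_of_lt_one (x := 1 / (1 + x)) (m := 0) (n := k) (by positivity) hlt
  have h3 : ∑ j ∈ Finset.range k, Real.exp (-x * j) ≤ (1 + x) / x := by
    refine le_trans (Finset.sum_le_sum (g := fun j => (1 / (1 + x)) ^ j) fun j _ => ?_) ?_
    · rw [mul_comm, Real.exp_nat_mul]
      exact pow_le_pow_left₀ (Real.exp_pos _).le he j
    · rw [Finset.range_eq_Ico]
      refine h2.trans (le_of_eq ?_)
      have e : 1 - 1 / (1 + x) = x / (1 + x) := by field_simp; ring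
      rw [e, pow_zero, one_div_div]
  refine (mul_le_mul_of_nonneg_left h3 hq.le).trans ?_
  rw [hx, le_div_iff₀ h0]
  have : q N * ((1 + σ * q N) / (σ * q N)) * σ = 1 + σ * q N := by field_simp
  rw [this]; linarith

/-- the exponential bookkeeping of the variance bounds -/
lemma exp_arith (hN : 2 ≤ N) (hc : 0 ≤ c) {p2 : ℕ} (hpc : 16 ≤ ((p2 + 2 : ℕ) : ℝ) * c) (j : ℕ) :
    Real.exp (-((((p2 + 2 : ℕ) : ℝ) * c - 7) * q N) * j) ≤
      Real.exp (-(1 * q N) * j) * Real.exp (-(c / 2 * q N) * j) ^ p2 := by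
  rw [← Real.exp_nat_mul, ← Real.exp_add]
  refine Real.exp_le_exp.2 ?_
  have hq := (q_pos hN).le
  have h1 : 0 ≤ q N * j := by positivity
  push_cast at hpc ⊢
  have h2 : 0 ≤ ((p2 + 2) * c - 7) - (1 + p2 * (c / 2)) := by nlinarith
  nlinarith [mul_nonneg h1 h2]

end Pool.Agent.P.MP_8c7dae_pr.MomA
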