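import Pool.Agent.P.MP_8c7dae_pr.MomA

open MeasureTheory Set Filter

namespace Pool.Agent.P.MP_8c7dae_pr.MomA

variable {N K : ℕ} {B c : ℝ}

lemma cnt_le_dS (A : Set Cell) (I J : Set Pt) (P : Cell → Prop) : cnt A I J P ≤ dS A I J := by
  rw [← cnt_true]
  exact Finset.sum_le_sum fun _ _ => ind_mono fun _ => trivial

lemma min_one_exp {s z : ℝ} (h0 : 0 ≤ s) (h1 : s ≤ 1) : min 1 (Real.exp z) ≤ Real.exp (s * z) := by
  rcases le_total 0 z with h | h
  · exact (min_le_left _ _).trans (Real.one_le_exp (by positivity))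
  · exact (min_le_right _ _).trans (Real.exp_le_exp.2 (by nlinarith))

lemma log_max_lip {A : ℝ} (hA : 0 < A) (n n' : ℕ) (h : n ≤ n') :
    0 ≤ Real.log (max (n' : ℝ) A) - Real.log (max (n : ℝ) A) ∧
      Real.log (max (n' : ℝ) A) - Real.log (max (n : ℝ) A) ≤
        ((n' : ℝ) - n) * (1 / max (n : ℝ) A) := by
  have h' : (n : ℝ) ≤ n' := by exact_mod_cast h
  have p1 : 0 < max (n : ℝ) A := lt_max_of_lt_right hA
  have p2 : 0 < max (n' : ℝ) A := lt_max_of_lt_right hA
  refine ⟨sub_nonneg.2 (Real.log_le_log p1 (max_le_max h' le_rfl)), ?_⟩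
  rw [← Real.log_div p2.ne' p1.ne']
  refine (Real.log_le_sub_one_of_pos (div_pos p2 p1)).trans ?_
  rw [div_sub_one p1.ne', mul_one_div]
  refine div_le_div_of_nonneg_right ?_ p1.le
  rw [sub_le_iff_le_add, max_le_iff]
  constructor
  · linarith [le_max_left (n : ℝ) A]
  · linarith [le_max_right (n : ℝ) A]

lemma dep_deep_zero {β : Type*} (f : Om → β) : DependsOn f (Deep 0) := fun ω ω' h => by
  have : ω = ω' := funext fun v => h v (Nat.zero_le _)
  rw [this]

lemma card_col : (col.card : ℝ) ≤ 5 := by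
  have : col.card ≤ 5 := Finset.card_image_le.trans (by simp)
  exact_mod_cast this

lemma col_fst : ∀ r ∈ col, r.1 = 0 := by
  intro r hr
  obtain ⟨b, -, rfl⟩ := Finset.mem_image.1 hr
  rfl

lemma var_log (hc0 : 0 < c) (hc1 : c ≤ 1) {p2 : ℕ} (hpc : 16 ≤ ((p2 + 2 : ℕ) : ℝ) * c)
    (hN : 2 ≤ N) (hD : Dec N c) (hB : HB N (p2 + 2) K B) (h1 : 1 ≤ B) {k : ℕ} (hk : k ≤ K)
    {I J : Set Pt} (hC : ∀ ω k, Conn (TR ω k col) I J) :
    E N (fun ω => (Real.log (max (dS (TR ω k col) I J : ℝ) (a N k)) -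
      E N (fun ω => Real.log (max (dS (TR ω k col) I J : ℝ) (a N k)))) ^ 2) ≤
      4 / c + 6 * (1 + Real.log (80 * 8 ^ (p2 + 2) * B)) := by
  have hq := q_pos hN
  set A : ℝ := (a N k : ℝ) with hA
  have hA1 : 1 ≤ A := hD.one_le k
  have hA0 : 0 < A := by linarith
  have hv := variance (N := N) (k := k) (R := col) (I := I) (J := J)
    (g := fun n => Real.log (max (n : ℝ) A)) (w := fun n => 1 / max (n : ℝ) A) hN 0 hC
    (log_max_lip hA0) (fun n => (one_div_pos.2 (lt_max_of_lt_right hA0)).le)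
  simp only [Res_of_dep (dep_deep_zero _)] at hv
  refine hv.trans ?_
  set A0 : ℝ := 80 * 8 ^ (p2 + 2) * B with hA0d
  have hA01 : 1 ≤ A0 := by
    have : (1 : ℝ) ≤ 8 ^ (p2 + 2) := one_le_pow₀ (by norm_num)
    rw [hA0d]; nlinarith
  set L := Real.log A0 with hL
  have hL0 : 0 ≤ L := Real.log_nonneg hA01
  set s : ℝ := 1 / (1 + L) with hs
  have hs0 : 0 < s := by positivity
  have hs1 : s ≤ 1 := by rw [hs, div_le_one (by linarith)]; linarith
  have hsL : s * L ≤ 1 := by
    rw [hs, one_div, inv_mul_le_iff₀ (by linarith)]; linarith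
  set F := (cells k col).filter (fun v => 0 ≤ v.1) with hF
  have nP : ∀ j, Nice (fun ω => ∑ v ∈ F, ind (v ∈ T ω j) *
      (1 / max (dS (TR ω k col) I J : ℝ) A * cnt (TR ω k col) I J (Below v)) ^ 2) := fun j =>
    Nice.sum _ fun v _ => (elem_alive v j).ind.mul
      ((((elem_dS k col I J).map fun n : ℕ => 1 / max (n : ℝ) A).nice.mul
        (elem_cnt k col I J _).nice).pow 2)
  have key : ∀ j ∈ Finset.range k, E N (fun ω => ∑ v ∈ F, ind (v ∈ T ω j) *
      (1 / max (dS (TR ω k col) I J : ℝ) A * cnt (TR ω k col) I J (Below v)) ^ 2) ≤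
      Real.exp (-(c / 2 * q N) * j) + 3 * Real.exp (-(s * q N) * j) := by
    intro j hj
    rw [Finset.mem_range] at hj
    set τ := Real.exp (-(c / 2 * q N) * j) with hτ
    have hτ0 : 0 < τ := Real.exp_pos _
    have fac : ∀ ω, ∑ v ∈ F, ind (v ∈ T ω j) *
        (1 / max (dS (TR ω k col) I J : ℝ) A * cnt (TR ω k col) I J (Below v)) ^ 2 =
        (1 / max (dS (TR ω k col) I J : ℝ) A) ^ 2 *
          ∑ v ∈ F, ind (v ∈ T ω j) * cnt (TR ω k col) I J (Below v) ^ 2 := fun ω => by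
      rw [Finset.mul_sum]
      exact Finset.sum_congr rfl fun v _ => by ring
    have b1 : E N (fun ω => ∑ v ∈ F, ind (v ∈ T ω j) *
        (1 / max (dS (TR ω k col) I J : ℝ) A * cnt (TR ω k col) I J (Below v)) ^ 2) ≤ 1 := by
      refine E_le_const (nP j) fun ω => ?_
      rw [fac]
      set n : ℝ := (dS (TR ω k col) I J : ℝ) with hn
      have hn0 : 0 ≤ n := by positivity
      have hM : 0 < max n A := lt_max_of_lt_right hA0
      have h2 : ∑ v ∈ F, ind (v ∈ T ω j) * cnt (TR ω k col) I J (Below v) ^ 2 ≤ n * n := by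
        refine le_trans ?_ (mul_le_mul_of_nonneg_right (sum_cnt_le (ω := ω) F j _) hn0)
        rw [Finset.sum_mul]
        refine Finset.sum_le_sum fun v _ => ?_
        rw [mul_assoc, pow_two]
        exact mul_le_mul_of_nonneg_left (mul_le_mul_of_nonneg_left (cnt_le_dS _ _ _ _)
          (cnt_nonneg _ _ _ _)) (ind_nonneg _)
      refine (mul_le_mul_of_nonneg_left h2 (by positivity)).trans ?_
      have h3 : n ≤ max n A := le_max_left _ _
      rw [div_pow, one_pow, one_div, inv_mul_le_iff₀ (by positivity)]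
      nlinarith
    have b2 : E N (fun ω => ∑ v ∈ F, ind (v ∈ T ω j) *
        (1 / max (dS (TR ω k col) I J : ℝ) A * cnt (TR ω k col) I J (Below v)) ^ 2) ≤
        τ + Real.exp (L - q N * j) := by
      have h2 : E N (fun ω => ∑ v ∈ F, ind (v ∈ T ω j) *
          (1 / max (dS (TR ω k col) I J : ℝ) A * cnt (TR ω k col) I J (Below v)) ^ 2) ≤
          E N (fun ω => τ + (∑ v ∈ F, ind (v ∈ T ω j) * (Xh ω k v : ℝ) ^ (p2 + 2)) /
            (A ^ (p2 + 2) * τ ^ p2)) := by
        refine E_mono (nP j) ((Nice.const _).add ((nice_G k j _ F).div_const _)) fun ω => ?_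
        rw [fac]
        have h3 := sum_cnt_sq_le (k := k) (R := col) (I := I) (J := J) (ω := ω) F j
          (t := τ * A) (by positivity) p2
        set n : ℝ := (dS (TR ω k col) I J : ℝ) with hn
        have hn0 : 0 ≤ n := by positivity
        have hM : 0 < max n A := lt_max_of_lt_right hA0
        set G := ∑ v ∈ F, ind (v ∈ T ω j) * (Xh ω k v : ℝ) ^ (p2 + 2) with hG
        have hG0 : 0 ≤ G := Finset.sum_nonneg fun v _ => mul_nonneg (ind_nonneg _) (by positivity)
        refine (mul_le_mul_of_nonneg_left h3 (by positivity)).trans ?_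
        rw [mul_add]
        have h4 : n ≤ max n A := le_max_left _ _
        have h5 : A ≤ max n A := le_max_right _ _
        refine add_le_add ?_ ?_
        · rw [div_pow, one_pow, one_div, inv_mul_le_iff₀ (by positivity)]
          have : n * A ≤ max n A ^ 2 := by nlinarith
          nlinarith
        · have h6 : (1 / max n A) ^ 2 ≤ (1 / A) ^ 2 :=
            pow_le_pow_left₀ (by positivity) (one_div_le_one_div_of_le hA0 h5) 2
          refine (mul_le_mul_of_nonneg_right h6 (by positivity)).trans (le_of_eq ?_)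
          rw [mul_pow]
          field_simp
          ring
      rw [E_add (Nice.const _) ((nice_G k j _ F).div_const _), E_const, E_divc] at h2
      refine h2.trans (add_le_add le_rfl ?_)
      have h3 := G_mom hc0.le hpc hN hD hB h1 hk hj 0 col_fst
      rw [div_le_iff₀ (by positivity)]
      refine h3.trans ?_
      have h4 := exp_arith hN hc0.le hpc j
      rw [← hτ] at h4
      have h5 : Real.exp (L - q N * j) = A0 * Real.exp (-(1 * q N) * j) := by
        rw [sub_eq_add_neg, Real.exp_add, hL, Real.exp_log (by linarith)]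
        congr 2; ring
      rw [h5, pow_zero, mul_one, ← hA]
      have h6 : 16 * (col.card : ℝ) * 8 ^ (p2 + 2) * B ≤ A0 := by
        rw [hA0d]
        have := card_col
        have h7 : 0 ≤ 8 ^ (p2 + 2) * B := by positivity
        nlinarith
      calc _ ≤ A0 * (Real.exp (-(1 * q N) * j) * τ ^ p2) * A ^ (p2 + 2) := by
            refine mul_le_mul_of_nonneg_right ?_ (by positivity)
            exact mul_le_mul h6 h4 (Real.exp_pos _).le (by linarith)
        _ = _ := by ring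
    have b3 := min_one_exp (z := L - q N * j) hs0.le hs1
    have b4 : Real.exp (s * (L - q N * j)) ≤ 3 * Real.exp (-(s * q N) * j) := by
      have : s * (L - q N * j) = s * L + -(s * q N) * j := by ring
      rw [this, Real.exp_add]
      refine mul_le_mul_of_nonneg_right ?_ (Real.exp_pos _).le
      exact (Real.exp_le_exp.2 hsL).trans (Real.exp_one_lt_d9.le.trans (by norm_num))
    rcases le_total 1 (Real.exp (L - q N * j)) with h | h
    · rw [min_eq_left h] at b3; linarith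
    · rw [min_eq_right h] at b3; linarith
  refine (mul_le_mul_of_nonneg_left (Finset.sum_le_sum key) hq.le).trans ?_
  rw [Finset.sum_add_distrib, ← Finset.mul_sum, mul_add]
  have g1 := geo_sum hN (σ := c / 2) (by positivity) (by linarith) k
  have g2 := geo_sum hN hs0 hs1 k
  have e1 : 2 / (c / 2) = 4 / c := by field_simp; norm_num
  have e2 : 2 / s = 2 * (1 + L) := by rw [hs]; field_simp
  rw [e1] at g1
  rw [e2] at g2
  linarith

lemma cheb {Y : Om → ℕ} (hY : Elem Y) {A V x δ : ℝ} (hA : 0 < A) (hx : 0 < x)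
    (hV : E N (fun ω => (Real.log (max (Y ω : ℝ) A) -
      E N (fun ω => Real.log (max (Y ω : ℝ) A))) ^ 2) ≤ V) (hδ : V ≤ δ * x ^ 2)
    (hP : δ < Pr N (fun ω => (Y ω : ℝ) ≤ A)) :
    Pr N (fun ω => A * Real.exp (2 * x) < Y ω) ≤ δ := by
  set m := E N (fun ω => Real.log (max (Y ω : ℝ) A)) with hm
  have nf : Nice (fun ω => (Real.log (max (Y ω : ℝ) A) - m) ^ 2) :=
    (hY.map fun n : ℕ => (Real.log (max (n : ℝ) A) - m) ^ 2).nice
  have hdiv : E N (fun ω => (Real.log (max (Y ω : ℝ) A) - m) ^ 2) / x ^ 2 ≤ δ := by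
    rw [div_le_iff₀ (by positivity)]; linarith
  have h1 : m ≤ Real.log A + x := by
    by_contra h
    push Not at h
    have := Pr_le_E_div (N := N) (hY.map fun n : ℕ => (n : ℝ) ≤ A) nf (t := x ^ 2) (by positivity)
      (fun _ => sq_nonneg _) fun ω hω => by
        rw [max_eq_right hω]
        nlinarith
    linarith
  refine (Pr_le_E_div (N := N) (hY.map fun n : ℕ => A * Real.exp (2 * x) < n) nf (t := x ^ 2)
    (by positivity) (fun _ => sq_nonneg _) fun ω hω => ?_).trans hdiv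
  have h2 : Real.log A + 2 * x ≤ Real.log (max (Y ω : ℝ) A) := by
    have := Real.log_le_log (by positivity) (hω.le.trans (le_max_left _ A))
    rwa [Real.log_mul hA.ne' (Real.exp_pos _).ne', Real.log_exp] at this
  nlinarith

lemma tail (hc0 : 0 < c) (hc1 : c ≤ 1) {p2 : ℕ} (hpc : 16 ≤ ((p2 + 2 : ℕ) : ℝ) * c) {δ θ : ℝ}
    (hδ : 0 < δ) (hθ : 0 < θ) : ∃ C : ℝ, 0 ≤ C ∧ ∀ (N K k : ℕ) (B : ℝ) (I J : Set Pt), 2 ≤ N →
      Dec N c → HB N (p2 + 2) K B → 1 ≤ B → k ≤ K → (∀ ω k, Conn (TR ω k col) I J) →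
      δ < Pr N (fun ω => dS (TR ω k col) I J ≤ a N k) → ∃ r : ℝ, 0 ≤ r ∧
        r ^ (p2 + 2) ≤ (θ * B + C) * (a N k : ℝ) ^ (p2 + 2) ∧
        Pr N (fun ω => r < dS (TR ω k col) I J) ≤ δ := by
  set p := p2 + 2 with hp
  set L0 : ℝ := Real.log (80 * 8 ^ p) with hL0
  have hL00 : 0 ≤ L0 := Real.log_nonneg (by
    have : (1 : ℝ) ≤ 8 ^ p := one_le_pow₀ (by norm_num)
    linarith)
  set C0 : ℝ := Real.exp ((4 / c + 6 * (1 + L0)) / 12 + 12 * p ^ 2 / δ) with hC0
  refine ⟨C0 ^ 2 / (4 * θ), by positivity, ?_⟩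
  intro N K k B I J hN hD hB h1 hk hC hP
  have hv := var_log hc0 hc1 hpc hN hD hB h1 hk hC
  have hB0 : 0 < B := by linarith
  have hLB : 0 ≤ Real.log B := Real.log_nonneg h1
  rw [Real.log_mul (by positivity) hB0.ne', ← hL0] at hv
  set V := 4 / c + 6 * (1 + (L0 + Real.log B)) with hV
  have hV0 : 0 < V := by positivity
  set x := Real.sqrt (V / δ) with hx
  have hx0 : 0 < x := Real.sqrt_pos.2 (by positivity)
  have hx2 : δ * x ^ 2 = V := by rw [hx, Real.sq_sqrt (by positivity)]; field_simp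
  refine ⟨a N k * Real.exp (2 * x), by positivity, ?_, cheb (elem_dS k col I J) (hD.pos k) hx0 hv
    hx2.ge (by simpa only [Nat.cast_le] using hP)⟩
  rw [mul_pow, mul_comm]
  refine mul_le_mul_of_nonneg_right ?_ (by positivity)
  rw [← Real.exp_nat_mul]
  have h2 : (p : ℝ) * (2 * x) ≤ V / 12 + 12 * p ^ 2 / δ := by
    rw [← hx2]
    have e : δ * x ^ 2 / 12 + 12 * p ^ 2 / δ - p * (2 * x) = (δ * x - 12 * p) ^ 2 / (12 * δ) := by
      field_simp; ring
    have : 0 ≤ (δ * x - 12 * p) ^ 2 / (12 * δ) := by positivity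
    linarith
  set y := Real.exp (Real.log B / 2) with hy
  have hy2 : y ^ 2 = B := by
    rw [hy, ← Real.exp_nat_mul]
    have : ((2 : ℕ) : ℝ) * (Real.log B / 2) = Real.log B := by push_cast; ring
    rw [this, Real.exp_log hB0]
  have h3 : Real.exp (p * (2 * x)) ≤ C0 * y := by
    rw [hC0, hy, ← Real.exp_add]
    refine Real.exp_le_exp.2 (h2.trans (le_of_eq ?_))
    rw [hV]; ring
  refine h3.trans ?_
  rw [← hy2]
  have e : θ * y ^ 2 + C0 ^ 2 / (4 * θ) - C0 * y = (2 * θ * y - C0) ^ 2 / (4 * θ) := by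
    field_simp; ring
  have : 0 ≤ (2 * θ * y - C0) ^ 2 / (4 * θ) := by positivity
  linarith

lemma conc_aux (hc0 : 0 < c) (hc1 : c ≤ 1) {p2 : ℕ} (hpc : 16 ≤ ((p2 + 2 : ℕ) : ℝ) * c)
    (hN : 2 ≤ N) (hD : Dec N c) {k : ℕ} (hB : HB N (p2 + 2) k B) (h1 : 1 ≤ B) {C1 τ0 : ℝ}
    (hC1 : 0 ≤ C1) (hX : E N (fun ω => (X ω k : ℝ)) ≤ C1 * a N k) (hτ0 : 0 < τ0) (D : ℕ)
    {x y : Pt} (hx : x ∈ Q) (hy : y ∈ Q) :
    E N (fun ω => ((d ω k x y : ℝ) - Res N (Deep D) (fun ω => (d ω k x y : ℝ)) ω) ^ 2) ≤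
      (4 * C1 * τ0 / c + 32 * 8 ^ (p2 + 2) * B * (1 / 2) ^ D / τ0 ^ p2) * (a N k : ℝ) ^ 2 := by
  have hq := q_pos hN
  set A : ℝ := (a N k : ℝ) with hA
  have hA0 : 0 < A := hD.pos k
  have hB0 : 0 < B := by linarith
  have hv := variance (N := N) (k := k) (R := {root}) (I := {x}) (J := {y})
    (g := fun n => (n : ℝ)) (w := fun _ => 1) hN D (fun ω k => conn_TQ hx hy rfl rfl)
    (fun n n' h => ⟨sub_nonneg.2 (by exact_mod_cast h), by simp⟩) (fun _ => zero_le_one)
  refine le_trans hv ?_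
  simp only [one_mul]
  set F := (cells k {root}).filter (fun v => D ≤ v.1) with hF
  have key : ∀ j ∈ Finset.range k, E N (fun ω => ∑ v ∈ F, ind (v ∈ T ω j) *
      cnt (TR ω k {root}) {x} {y} (Below v) ^ 2) ≤
      C1 * τ0 * A ^ 2 * Real.exp (-(c / 2 * q N) * j) +
        16 * 8 ^ (p2 + 2) * B * (1 / 2) ^ D / τ0 ^ p2 * A ^ 2 * Real.exp (-(1 * q N) * j) := by
    intro j hj
    rw [Finset.mem_range] at hj
    set τ := Real.exp (-(c / 2 * q N) * j) with hτ
    have hτ0' : 0 < τ := Real.exp_pos _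
    have h2 : E N (fun ω => ∑ v ∈ F, ind (v ∈ T ω j) *
        cnt (TR ω k {root}) {x} {y} (Below v) ^ 2) ≤ E N (fun ω => (X ω k : ℝ) * (τ0 * τ * A) +
          (∑ v ∈ F, ind (v ∈ T ω j) * (Xh ω k v : ℝ) ^ (p2 + 2)) / (τ0 * τ * A) ^ p2) := by
      refine E_mono (Nice.sum _ fun v _ => (elem_alive v j).ind.mul
        ((elem_cnt k _ _ _ _).nice.pow 2)) (((elem_X k).cast.mul (Nice.const _)).add
          ((nice_G k j _ F).div_const _)) fun ω => ?_
      refine (sum_cnt_sq_le (k := k) (R := {root}) (I := {x}) (J := {y}) (ω := ω) F j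
          (t := τ0 * τ * A) (by positivity) p2).trans (add_le_add ?_ le_rfl)
      refine mul_le_mul_of_nonneg_right ?_ (by positivity)
      exact_mod_cast d_le_X (ω := ω) (k := k) hx hy
    rw [E_add ((elem_X k).cast.mul (Nice.const _)) ((nice_G k j _ F).div_const _), E_mulc,
      E_divc] at h2
    refine h2.trans (add_le_add ?_ ?_)
    · refine (mul_le_mul_of_nonneg_right hX (by positivity)).trans (le_of_eq ?_)
      ring
    · have h3 := G_mom hc0.le hpc hN hD hB h1 le_rfl hj D (R := {root}) (by simp [root])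
      rw [div_le_iff₀ (by positivity)]
      refine h3.trans ?_
      have h4 := exp_arith hN hc0.le hpc j
      rw [← hτ] at h4
      rw [Finset.card_singleton, Nat.cast_one, mul_one, ← hA]
      calc _ ≤ 16 * 8 ^ (p2 + 2) * B * (1 / 2) ^ D * (Real.exp (-(1 * q N) * j) * τ ^ p2) *
            A ^ (p2 + 2) := by
            refine mul_le_mul_of_nonneg_right ?_ (by positivity)
            exact mul_le_mul_of_nonneg_left h4 (by positivity)
        _ = _ := by
            rw [mul_pow, mul_pow]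
            field_simp
            ring
  refine (mul_le_mul_of_nonneg_left (Finset.sum_le_sum key) hq.le).trans ?_
  rw [Finset.sum_add_distrib, ← Finset.mul_sum, ← Finset.mul_sum, mul_add]
  have g1 := geo_sum hN (σ := c / 2) (by positivity) (by linarith) k
  have g2 := geo_sum hN (σ := 1) one_pos le_rfl k
  have e1 : 2 / (c / 2) = 4 / c := by field_simp; norm_num
  rw [e1] at g1
  have g3 := mul_le_mul_of_nonneg_left g1 (show 0 ≤ C1 * τ0 * A ^ 2 by positivity)
  have g4 := mul_le_mul_of_nonneg_left g2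
    (show 0 ≤ 16 * 8 ^ (p2 + 2) * B * (1 / 2) ^ D / τ0 ^ p2 * A ^ 2 by positivity)
  calc _ = C1 * τ0 * A ^ 2 * (q N * ∑ j ∈ Finset.range k, Real.exp (-(c / 2 * q N) * j)) +
        16 * 8 ^ (p2 + 2) * B * (1 / 2) ^ D / τ0 ^ p2 * A ^ 2 *
          (q N * ∑ j ∈ Finset.range k, Real.exp (-(1 * q N) * j)) := by ring
    _ ≤ _ := add_le_add g3 g4
    _ = _ := by ring

lemma sq_le_aux {x t : ℝ} (hx : 0 ≤ x) (ht : 0 < t) (p : ℕ) :
    x ^ 2 ≤ t ^ 2 + x ^ (p + 2) / t ^ p := by
  by_cases h : x ≤ t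
  · have : 0 ≤ x ^ (p + 2) / t ^ p := by positivity
    nlinarith
  · push Not at h
    have h2 : x ^ 2 ≤ x ^ (p + 2) / t ^ p := by
      rw [le_div_iff₀ (pow_pos ht p), pow_add, mul_comm]
      exact mul_le_mul_of_nonneg_right (pow_le_pow_left₀ ht.le h.le p) (sq_nonneg _)
    nlinarith

lemma pow_le_aux {x t : ℝ} (hx : 0 ≤ x) (ht : 0 < t) (r s : ℕ) :
    x ^ r ≤ t ^ r + x ^ (r + s) / t ^ s := by
  by_cases h : x ≤ t
  · have : 0 ≤ x ^ (r + s) / t ^ s := by positivity
    have := pow_le_pow_left₀ hx h r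
    linarith
  · push Not at h
    have h2 : x ^ r ≤ x ^ (r + s) / t ^ s := by
      rw [le_div_iff₀ (pow_pos ht s), pow_add]
      exact mul_le_mul_of_nonneg_left (pow_le_pow_left₀ ht.le h.le s) (by positivity)
    have := pow_pos ht r
    linarith

end Pool.Agent.P.MP_8c7dae_pr.MomA
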