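import Pool.Agent.P.MP_8c7dae_pr.MomB

open MeasureTheory Set Filter

namespace Pool.Agent.P.MP_8c7dae_pr.MomA

variable {ω : Om} {k : ℕ}

/-- the column of five unit squares -/
def Col : Set Pt := {p | 0 ≤ p.1 ∧ p.1 ≤ 1 ∧ 0 ≤ p.2 ∧ p.2 ≤ 5}

/-- a short vertical segment -/
def seg (e : ℝ) (g α : ℕ) : Set Pt := {p | p.1 = e ∧ (α : ℝ) ≤ 2 ^ g * p.2 ∧ 2 ^ g * p.2 ≤ α + 1}

noncomputable def Y5 (ω : Om) (k : ℕ) : ℕ := ∑ b ∈ Finset.range 5, Xh ω k (0, 0, (b : ℤ))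

lemma mem_col {b : ℕ} (hb : b < 5) : ((0, 0, (b : ℤ)) : Cell) ∈ col :=
  Finset.mem_image.2 ⟨b, Finset.mem_range.2 hb, rfl⟩

lemma anc_zero (x y : ℤ) : anc 0 ((0, x, y) : Cell) = (0, x, y) := by simp [anc]

lemma col_reach0 (n : ℕ) : n < 5 → ∀ x ∈ sq ((0, 0, (n : ℤ)) : Cell),
    Reach (TR ω k col) (∑ b ∈ Finset.range (n + 1), Xh ω k (0, 0, (b : ℤ))) (0, 0) x := by
  induction n with
  | zero =>
    intro _ x hx
    rw [Finset.sum_range_one]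
    exact reach_Xh (by rw [anc_zero]; exact mem_col (by norm_num)) (by simp [mem_sq_zero]) hx
  | succ n ih =>
    intro hn x hx
    rw [Finset.sum_range_succ]
    refine (ih (by omega) (0, (n : ℝ) + 1) (by simp [mem_sq_zero])).trans ?_
    exact reach_Xh (by rw [anc_zero]; exact mem_col hn) (by simp [mem_sq_zero]) hx

lemma col_reach1 {x : Pt} (hx : x ∈ Col) : Reach (TR ω k col) (Y5 ω k) (0, 0) x := by
  obtain ⟨h1, h2, h3, h4⟩ := hx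
  obtain ⟨b, b1, b2, b3, b4⟩ := exists_int_near 0 5 (by norm_num) x.2 (by simpa using h3)
    (by simpa using h4)
  obtain ⟨n, rfl⟩ := Int.eq_ofNat_of_zero_le b1
  have hn : n < 5 := by omega
  refine (col_reach0 n hn x (mem_sq_zero.2 ⟨by simpa using h1, by simpa using h2, b3, b4⟩)).mono_n ?_
  exact Finset.sum_le_sum_of_subset (Finset.range_subset_range.2 hn)

lemma col_reach {x y : Pt} (hx : x ∈ Col) (hy : y ∈ Col) :
    Reach (TR ω k col) (2 * Y5 ω k) x y := by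
  rw [two_mul]
  exact (col_reach1 hx).symm.trans (col_reach1 hy)

lemma seg_bounds {e : ℝ} {g α : ℕ} (hα : α < 5 * 2 ^ g) {p : Pt} (hp : p ∈ seg e g α) :
    0 ≤ p.2 ∧ p.2 ≤ 5 := by
  obtain ⟨-, h1, h2⟩ := hp
  have hg := two_pow_pos' g
  have h3 : (α : ℝ) + 1 ≤ 5 * 2 ^ g := by exact_mod_cast hα
  have h4 : (0 : ℝ) ≤ α := by positivity
  constructor <;> nlinarith

lemma seg_pt (e : ℝ) (g α : ℕ) : ((e, (α : ℝ) / 2 ^ g) : Pt) ∈ seg e g α := by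
  have hg := two_pow_pos' g
  refine ⟨rfl, ?_, ?_⟩ <;> simp only [mul_div_cancel₀ _ hg.ne'] <;> linarith

lemma reach_seg {g α β : ℕ} (hα : α < 5 * 2 ^ g) (hβ : β < 5 * 2 ^ g) (ω : Om) (k : ℕ) :
    Reach (TR ω k col) (2 * Y5 ω k) (0, (α : ℝ) / 2 ^ g) (1, (β : ℝ) / 2 ^ g) := by
  have h1 := seg_bounds hα (seg_pt 0 g α)
  have h2 := seg_bounds hβ (seg_pt 1 g β)
  exact col_reach ⟨le_rfl, zero_le_one, h1.1, h1.2⟩ ⟨zero_le_one, le_rfl, h2.1, h2.2⟩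

lemma conn_seg {g α β : ℕ} (hα : α < 5 * 2 ^ g) (hβ : β < 5 * 2 ^ g) (ω : Om) (k : ℕ) :
    Conn (TR ω k col) (seg 0 g α) (seg 1 g β) :=
  ⟨_, _, seg_pt 0 g α, _, seg_pt 1 g β, reach_seg hα hβ ω k⟩

lemma dS_seg_le {g α β : ℕ} (hα : α < 5 * 2 ^ g) (hβ : β < 5 * 2 ^ g) (ω : Om) (k : ℕ) :
    dS (TR ω k col) (seg 0 g α) (seg 1 g β) ≤ 2 * Y5 ω k :=
  dS_le (seg_pt 0 g α) (seg_pt 1 g β) (reach_seg hα hβ ω k)

lemma reach_end {A : Set Cell} {n : ℕ} {x y : Pt} (h : Reach A n x y) (hne : x ≠ y) :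
    ∃ v ∈ A, y ∈ sq v := by
  cases h with
  | refl => exact absurd rfl hne
  | step _ hv _ hz => exact ⟨_, hv, hz⟩

lemma exists_seg (g : ℕ) {v : Cell} (hv : v ∈ TR ω k col) {x : Pt} (hx : x ∈ sq v) :
    ∃ α < 5 * 2 ^ g, x ∈ seg x.1 g α := by
  have h1 := sq_sub_anc (Nat.zero_le v.1) hx
  obtain ⟨b, hb, e⟩ := Finset.mem_image.1 hv.2
  rw [← e, mem_sq_zero] at h1
  have hb' : (b : ℝ) + 1 ≤ 5 := by exact_mod_cast Finset.mem_range.1 hb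
  have hb0 : (0 : ℝ) ≤ b := by positivity
  have hg := two_pow_pos' g
  obtain ⟨-, -, h2, h3⟩ := h1
  push_cast at h2 h3
  obtain ⟨c, c1, c2, c3, c4⟩ := exists_int_near 0 (5 * 2 ^ g)
    (by have := Nat.one_le_two_pow (n := g); omega) (2 ^ g * x.2)
    (by push_cast; nlinarith) (by push_cast; nlinarith)
  obtain ⟨n, rfl⟩ := Int.eq_ofNat_of_zero_le c1
  refine ⟨n, by rw [zero_add] at c2; exact_mod_cast c2, rfl, ?_, ?_⟩
  · exact_mod_cast c3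
  · exact_mod_cast c4

lemma exists_pair {N : ℕ} (g n : ℕ) {δ : ℝ} (h : 25 * 4 ^ g * δ < Pr N (fun ω => Z ω k ≤ n)) :
    ∃ α < 5 * 2 ^ g, ∃ β < 5 * 2 ^ g,
      δ < Pr N (fun ω => dS (TR ω k col) (seg 0 g α) (seg 1 g β) ≤ n) := by
  by_contra hcon
  push Not at hcon
  have := Pr_le_card (N := N) (Finset.range (5 * 2 ^ g) ×ˢ Finset.range (5 * 2 ^ g))
    (A := fun ω => Z ω k ≤ n)
    (B := fun i ω => dS (TR ω k col) (seg 0 g i.1) (seg 1 g i.2) ≤ n)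
    ((elem_Z k).map fun m => m ≤ n) (fun i _ => (elem_dS k col _ _).map fun m => m ≤ n)
    (fun ω hω => by
      obtain ⟨x, hx, y, hy, hr⟩ := (conn_Z (ω := ω) (k := k)).spec
      have hx' : x.1 = 0 := hx
      have hy' : y.1 = 1 := hy
      have hne : x ≠ y := fun e => by rw [e, hy'] at hx'; exact one_ne_zero hx'
      obtain ⟨v, hv, hyv⟩ := reach_end hr hne
      obtain ⟨u, hu, hxu⟩ := reach_end hr.symm hne.symm
      obtain ⟨α, hα, h1⟩ := exists_seg g hu hxu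
      obtain ⟨β, hβ, h2⟩ := exists_seg g hv hyv
      rw [hx'] at h1
      rw [hy'] at h2
      exact ⟨(α, β), by simp [hα, hβ], (dS_le h1 h2 hr).trans hω⟩) (ε := δ)
    (fun i hi => by
      rw [Finset.mem_product, Finset.mem_range, Finset.mem_range] at hi
      exact hcon _ hi.1 _ hi.2)
  rw [Finset.card_product, Finset.card_range] at this
  have e : ((5 * 2 ^ g * (5 * 2 ^ g) : ℕ) : ℝ) = 25 * 4 ^ g := by
    push_cast
    rw [show (4 : ℝ) = 2 * 2 by norm_num, mul_pow]; ring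
  rw [e] at this
  linarith

/-- the similarity that places the column at position `t` of the strip `ρ` -/
noncomputable def σs (i t ρ : ℕ) : Sim :=
  if Even t then emb (i, t, ρ) else (emb (i, t, ρ)).comp mirS

lemma σs_s (i t ρ : ℕ) : (σs i t ρ).s = i := by
  unfold σs; split_ifs <;> simp [Sim.comp, mirS]

lemma σs_g (i t ρ : ℕ) (b : ℤ) : (σs i t ρ).g (0, 0, b) = (i, (t : ℤ), ρ + b) := by
  unfold σs; split_ifs <;> simp [Sim.comp, mirS, emb]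

lemma σs_even {i t ρ : ℕ} (h : Even t) (p : Pt) :
    (σs i t ρ).ψ p = (((t : ℝ) + p.1) / 2 ^ i, ((ρ : ℝ) + p.2) / 2 ^ i) := by
  simp [σs, h, emb]

lemma σs_odd {i t ρ : ℕ} (h : ¬ Even t) (p : Pt) :
    (σs i t ρ).ψ p = (((t : ℝ) + (1 - p.1)) / 2 ^ i, ((ρ : ℝ) + p.2) / 2 ^ i) := by
  simp [σs, h, emb, Sim.comp, mirS]

/-- cost of one piece -/
noncomputable def Dp (g α β i t ρ : ℕ) (ω : Om) (k : ℕ) : ℕ :=
  dS (TR (pull (σs i t ρ) ω) k col) (seg 0 g α) (seg 1 g β)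

/-- cost of one strip -/
noncomputable def Rs (g α β i ρ : ℕ) (ω : Om) (k : ℕ) : ℕ :=
  ∑ t ∈ Finset.range (2 ^ i), Dp g α β i t ρ ω k

/-- the junction segments of a strip -/
def Sg (g α β i ρ t : ℕ) (z : Pt) : Prop :=
  2 ^ i * z.1 = t ∧ (((if Even t then α else β : ℕ) : ℝ) ≤ 2 ^ g * (2 ^ i * z.2 - ρ) ∧
    2 ^ g * (2 ^ i * z.2 - ρ) ≤ ((if Even t then α else β : ℕ) : ℝ) + 1)

variable {g α β i ρ : ℕ}

lemma Sg.bounds (hα : α < 5 * 2 ^ g) (hβ : β < 5 * 2 ^ g) {t : ℕ} {z : Pt}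
    (h : Sg g α β i ρ t z) : (ρ : ℝ) ≤ 2 ^ i * z.2 ∧ 2 ^ i * z.2 ≤ ρ + 5 := by
  have := seg_bounds (e := 0) (g := g) (α := if Even t then α else β)
    (by split_ifs <;> assumption) (p := (0, 2 ^ i * z.2 - ρ)) ⟨rfl, h.2.1, h.2.2⟩
  simp only at this
  constructor <;> linarith [this.1, this.2]

lemma Sg.mem_Q (hα : α < 5 * 2 ^ g) (hβ : β < 5 * 2 ^ g) (hρ : ρ + 5 ≤ 2 ^ i) {t : ℕ}
    (ht : t ≤ 2 ^ i) {z : Pt} (h : Sg g α β i ρ t z) : z ∈ Q := by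
  obtain ⟨h1, h2⟩ := h.bounds hα hβ
  have h3 := h.1
  have hp := two_pow_pos' i
  have hρ' : (ρ : ℝ) + 5 ≤ 2 ^ i := by exact_mod_cast hρ
  have ht' : (t : ℝ) ≤ 2 ^ i := by exact_mod_cast ht
  have h4 : (0 : ℝ) ≤ t := by positivity
  have h5 : (0 : ℝ) ≤ ρ := by positivity
  rw [MP_8c7dae_pr.mem_Q]
  refine ⟨?_, ?_, ?_, ?_⟩ <;> nlinarith

lemma Sg.dist_le {t : ℕ} {z u : Pt} (h : Sg g α β i ρ t z) (h' : Sg g α β i ρ t u) :
    2 ^ (i + g) * dist z u ≤ 1 := by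
  have hp := two_pow_pos' i
  have hg := two_pow_pos' g
  have hpg := two_pow_pos' (i + g)
  have e : z.1 = u.1 := mul_left_cancel₀ hp.ne' (h.1.trans h'.1.symm)
  rw [Prod.dist_eq, e, dist_self, max_eq_right dist_nonneg, Real.dist_eq, ← abs_of_pos hpg,
    ← abs_mul, abs_le, pow_add]
  obtain ⟨-, h1, h2⟩ := h
  obtain ⟨-, h3, h4⟩ := h'
  constructor <;> nlinarith

lemma piece (hα : α < 5 * 2 ^ g) (hβ : β < 5 * 2 ^ g) (hρ : ρ + 5 ≤ 2 ^ i) {t : ℕ}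
    (ht : t < 2 ^ i) : ∃ u u', Sg g α β i ρ t u ∧ Sg g α β i ρ (t + 1) u' ∧
      Reach (TQ ω k) (Dp g α β i t ρ ω k) u u' := by
  obtain ⟨x, hx, y, hy, hr⟩ := (conn_seg hα hβ (pull (σs i t ρ) ω) k).spec
  have hp := two_pow_pos' i
  have h := hr.up (ω := ω) (k := k) (σs i t ρ) (R' := {root}) (fun r hr' => by
    obtain ⟨b, hb, rfl⟩ := Finset.mem_image.1 hr'
    refine ⟨?_, by omega⟩
    rw [σs_g, Finset.mem_singleton, ← below_root_iff, below_iff]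
    have hb' := Finset.mem_range.1 hb
    have h1 : (t : ℤ) < 2 ^ i := by exact_mod_cast ht
    have h2 : (ρ : ℤ) + 5 ≤ 2 ^ i := by exact_mod_cast hρ
    simp only [root, Nat.zero_le, zero_mul, tsub_zero, zero_add, one_mul, true_and]
    omega)
  obtain ⟨x1, x2, x3⟩ := hx
  obtain ⟨y1, y2, y3⟩ := hy
  by_cases he : Even t
  · have he' : ¬ Even (t + 1) := by rw [Nat.even_add_one]; exact not_not.2 he
    refine ⟨_, _, ?_, ?_, h⟩
    · rw [σs_even he]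
      simp only [Sg, mul_div_cancel₀ _ hp.ne', if_pos he, x1, add_zero, add_sub_cancel_left]
      exact ⟨trivial, x2, x3⟩
    · rw [σs_even he]
      simp only [Sg, mul_div_cancel₀ _ hp.ne', if_neg he', y1, add_sub_cancel_left]
      exact ⟨by push_cast; rfl, y2, y3⟩
  · have he' : Even (t + 1) := by rw [Nat.even_add_one]; exact he
    refine ⟨_, _, ?_, ?_, h.symm⟩
    · rw [σs_odd he]
      simp only [Sg, mul_div_cancel₀ _ hp.ne', if_neg he, y1, sub_self, add_zero,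
        add_sub_cancel_left]
      exact ⟨trivial, y2, y3⟩
    · rw [σs_odd he]
      simp only [Sg, mul_div_cancel₀ _ hp.ne', if_pos he', x1, sub_zero, add_sub_cancel_left]
      exact ⟨by push_cast; rfl, x2, x3⟩

lemma strip (hα : α < 5 * 2 ^ g) (hβ : β < 5 * 2 ^ g) (hρ : ρ + 5 ≤ 2 ^ i) :
    ∃ z0 : Pt, ∀ t ≤ 2 ^ i, ∃ z, Sg g α β i ρ t z ∧
      Reach (TQ ω k) (Rs g α β i ρ ω k + 2 ^ i * (2 * Mx ω k (i + g))) z0 z := by
  have hp := two_pow_pos' i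
  have hg := two_pow_pos' g
  refine ⟨(0, ((ρ : ℝ) + α / 2 ^ g) / 2 ^ i), fun t ht => ?_⟩
  have key : ∀ t ≤ 2 ^ i, ∃ z, Sg g α β i ρ t z ∧
      Reach (TQ ω k) (∑ s ∈ Finset.range t, (Dp g α β i s ρ ω k + 2 * Mx ω k (i + g)))
        (0, ((ρ : ℝ) + α / 2 ^ g) / 2 ^ i) z := by
    intro t
    induction t with
    | zero =>
      intro _
      refine ⟨_, ?_, Reach.refl _ _⟩
      simp [Sg, mul_div_cancel₀ _ hp.ne', mul_div_cancel₀ _ hg.ne']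
    | succ t ih =>
      intro ht
      obtain ⟨z, hz, hr⟩ := ih (by omega)
      obtain ⟨u, u', hu, hu', hr'⟩ := piece (ω := ω) (k := k) hα hβ hρ (show t < 2 ^ i by omega)
      refine ⟨u', hu', ?_⟩
      have h1 := reach_near_one (ω := ω) (k := k) (hz.mem_Q hα hβ hρ (by omega))
        (hu.mem_Q hα hβ hρ (by omega)) (hz.dist_le hu)
      refine ((hr.trans h1).trans hr').mono_n ?_
      rw [Finset.sum_range_succ]; omega
  obtain ⟨z, hz, hr⟩ := key t ht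
  refine ⟨z, hz, hr.mono_n ?_⟩
  refine (Finset.sum_le_sum_of_subset (Finset.range_subset_range.2 ht)).trans ?_
  rw [Finset.sum_add_distrib, Finset.sum_const, Finset.card_range, smul_eq_mul]
  exact le_rfl

lemma to_strip (hα : α < 5 * 2 ^ g) (hβ : β < 5 * 2 ^ g) (hρ : ρ + 5 ≤ 2 ^ i) {z0 : Pt} {n : ℕ}
    (h : ∀ t ≤ 2 ^ i, ∃ z, Sg g α β i ρ t z ∧ Reach (TQ ω k) n z0 z) {x : Pt} (hx : x ∈ Q)
    (h1 : (ρ : ℝ) - 5 ≤ 2 ^ i * x.2) (h2 : 2 ^ i * x.2 ≤ ρ + 10) :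
    Reach (TQ ω k) (n + 20 * Mx ω k i) z0 x := by
  have hp := two_pow_pos' i
  have hx' := MP_8c7dae_pr.mem_Q.1 hx
  have h0 : 0 ≤ 2 ^ i * x.1 := mul_nonneg hp.le hx'.1
  have ht : ⌊2 ^ i * x.1⌋₊ ≤ 2 ^ i := by
    refine Nat.floor_le_of_le ?_
    push_cast; nlinarith [hx'.2.1]
  obtain ⟨z, hz, hr⟩ := h _ ht
  refine hr.trans (reach_near 10 (hz.mem_Q hα hβ hρ ht) hx ?_)
  obtain ⟨b1, b2⟩ := hz.bounds hα hβ
  have b3 := hz.1
  have f1 := Nat.floor_le h0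
  have f2 := Nat.lt_floor_add_one (2 ^ i * x.1)
  rw [Prod.dist_eq, mul_max_of_nonneg _ _ hp.le, Real.dist_eq, Real.dist_eq, ← abs_of_pos hp,
    ← abs_mul, ← abs_mul, max_le_iff, abs_le, abs_le, mul_sub, mul_sub]
  push_cast
  refine ⟨⟨?_, ?_⟩, ?_, ?_⟩ <;> linarith

/-- bound for two points on a horizontal line -/
noncomputable def Hb (g α β i : ℕ) (ω : Om) (k : ℕ) : ℕ :=
  40 * Mx ω k i + 4 * 2 ^ i * Mx ω k (i + g) +
    2 * ∑ ρ ∈ Finset.range (2 ^ i - 9), min (Rs g α β i ρ ω k) (Rs g α β i (ρ + 5) ω k)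

lemma horiz (hα : α < 5 * 2 ^ g) (hβ : β < 5 * 2 ^ g) (hi : 10 ≤ 2 ^ i) {x y : Pt} (hx : x ∈ Q)
    (hy : y ∈ Q) (e : x.2 = y.2) : Reach (TQ ω k) (Hb g α β i ω k) x y := by
  have hp := two_pow_pos' i
  have hx' := MP_8c7dae_pr.mem_Q.1 hx
  have h0 : 0 ≤ 2 ^ i * x.2 := mul_nonneg hp.le hx'.2.2.1
  obtain ⟨ρ, r1, r2, r3⟩ : ∃ ρ : ℕ, ρ + 10 ≤ 2 ^ i ∧ (ρ : ℝ) ≤ 2 ^ i * x.2 ∧
      2 ^ i * x.2 ≤ ρ + 10 := by
    have f1 := Nat.floor_le h0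
    have f2 := Nat.lt_floor_add_one (2 ^ i * x.2)
    by_cases h : ⌊2 ^ i * x.2⌋₊ + 10 ≤ 2 ^ i
    · exact ⟨_, h, f1, by linarith⟩
    · have h1 : 2 ^ i - 10 ≤ ⌊2 ^ i * x.2⌋₊ := by omega
      have h2 : ((2 ^ i - 10 : ℕ) : ℝ) ≤ ⌊2 ^ i * x.2⌋₊ := by exact_mod_cast h1
      refine ⟨2 ^ i - 10, by omega, by linarith, ?_⟩
      rw [Nat.cast_sub hi]
      push_cast
      nlinarith [hx'.2.2.2]
  have key : ∀ ρ' : ℕ, ρ' + 5 ≤ 2 ^ i → (ρ' : ℝ) - 5 ≤ 2 ^ i * x.2 → 2 ^ i * x.2 ≤ ρ' + 10 →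
      Reach (TQ ω k) (40 * Mx ω k i + 4 * 2 ^ i * Mx ω k (i + g) + 2 * Rs g α β i ρ' ω k) x y := by
    intro ρ' s1 s2 s3
    obtain ⟨z0, hz⟩ := strip (ω := ω) (k := k) hα hβ s1
    have a1 := to_strip hα hβ s1 hz hx s2 s3
    have a2 := to_strip hα hβ s1 hz hy (e ▸ s2) (e ▸ s3)
    exact (a1.symm.trans a2).mono_n (le_of_eq (by ring))
  have hle : min (Rs g α β i ρ ω k) (Rs g α β i (ρ + 5) ω k) ≤
      ∑ ρ ∈ Finset.range (2 ^ i - 9), min (Rs g α β i ρ ω k) (Rs g α β i (ρ + 5) ω k) :=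
    Finset.single_le_sum (f := fun ρ => min (Rs g α β i ρ ω k) (Rs g α β i (ρ + 5) ω k))
      (fun _ _ => Nat.zero_le _) (Finset.mem_range.2 (by omega))
  unfold Hb
  rcases le_total (Rs g α β i ρ ω k) (Rs g α β i (ρ + 5) ω k) with h | h
  · rw [min_eq_left h] at hle
    exact (key ρ (by omega) (by linarith) r3).mono_n (by omega)
  · rw [min_eq_right h] at hle
    exact (key (ρ + 5) (by omega) (by push_cast; linarith) (by push_cast; linarith)).mono_n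
      (by omega)

lemma X_le_Hb (hα : α < 5 * 2 ^ g) (hβ : β < 5 * 2 ^ g) (hi : 10 ≤ 2 ^ i) :
    X ω k ≤ Hb g α β i ω k + Hb g α β i (pull trS ω) k := by
  refine X_le fun x hx y hy => ?_
  have hx' := MP_8c7dae_pr.mem_Q.1 hx
  have hy' := MP_8c7dae_pr.mem_Q.1 hy
  have h1 := horiz (ω := ω) (k := k) hα hβ hi hx (y := (y.1, x.2))
    (MP_8c7dae_pr.mem_Q.2 ⟨hy'.1, hy'.2.1, hx'.2.2.1, hx'.2.2.2⟩) rfl
  have h2 := horiz (ω := pull trS ω) (k := k) hα hβ hi (x := (x.2, y.1)) (y := (y.2, y.1))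
    (MP_8c7dae_pr.mem_Q.2 ⟨hx'.2.2.1, hx'.2.2.2, hy'.1, hy'.2.1⟩)
    (MP_8c7dae_pr.mem_Q.2 ⟨hy'.2.2.1, hy'.2.2.2, hy'.1, hy'.2.1⟩) rfl
  have h3 := h2.up (ω := ω) (k := k) trS (R' := {root}) (fun r hr' => by
    rw [Finset.mem_singleton.1 hr', trS_root]; exact ⟨by simp [root, anc], by omega⟩)
  exact h1.trans h3

lemma elem_Dp (g α β i t ρ k : ℕ) : Elem (fun ω => Dp g α β i t ρ ω k) :=
  (elem_dS k col _ _).pull _

lemma elem_Rs (g α β i ρ k : ℕ) : Elem (fun ω => Rs g α β i ρ ω k) :=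
  Elem.sum _ fun t _ => elem_Dp g α β i t ρ k

lemma elem_min (g α β i ρ k : ℕ) :
    Elem (fun ω => min (Rs g α β i ρ ω k) (Rs g α β i (ρ + 5) ω k)) :=
  (elem_Rs g α β i ρ k).map₂ (elem_Rs g α β i (ρ + 5) k) min

lemma elem_Hb (g α β i k : ℕ) : Elem (fun ω => Hb g α β i ω k) :=
  (elem_Mx k i).map₃ (elem_Mx k (i + g)) (Elem.sum _ fun ρ _ => elem_min g α β i ρ k)
    fun x y z => 40 * x + 4 * 2 ^ i * y + 2 * z

/-- cells of the strip `ρ` -/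
def rows (i ρ : ℕ) : Set Cell := {w | (ρ : ℤ) ≤ (anc i w).2.2 ∧ (anc i w).2.2 < ρ + 5}

lemma dep_Rs (g α β i ρ k : ℕ) : DependsOn (fun ω => Rs g α β i ρ ω k) (rows i ρ) := by
  intro ω ω' h
  refine Finset.sum_congr rfl fun t _ => ?_
  refine dep_pull ((dep_TR k col).qmap fun A => dS A (seg 0 g α) (seg 1 g β)) (σs i t ρ)
    (fun v hv => ?_) h
  obtain ⟨b, hb, e⟩ := Finset.mem_image.1 (show anc 0 v ∈ col from hv)
  have h1 := (σs i t ρ).anc_s v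
  rw [σs_s, ← e, σs_g] at h1
  have hb' := Finset.mem_range.1 hb
  simp only [rows, mem_ofPred_eq, h1]
  omega

lemma dep_Rs' (g α β i ρ k : ℕ) : DependsOn (fun ω => Rs g α β i (ρ + 5) ω k) (rows i ρ)ᶜ :=
  (dep_Rs g α β i (ρ + 5) k).mono fun w hw hw' => by
    have h1 := hw.1
    have h2 := hw'.2
    push_cast at h1
    omega

end Pool.Agent.P.MP_8c7dae_pr.MomA
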