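import Pool.Agent.P.MP_8c7dae_pr.Phase1A

open MeasureTheory Set Filter

namespace Pool.Agent.P.MP_8c7dae_pr

namespace Ph1

/-- the filter of pairs of a scale and a time -/
noncomputable def FF : Filter (ℕ × ℕ) where
  sets := {s | ∃ t : ℕ, ∀ᶠ N in (UF : Filter ℕ), ∀ k, t * N ≤ k → (N, k) ∈ s}
  univ_sets := ⟨0, Eventually.of_forall fun _ _ _ => trivial⟩
  sets_of_superset := fun ⟨t, h⟩ hs => ⟨t, h.mono fun _ hN k hk => hs (hN k hk)⟩
  inter_sets := fun ⟨t, h⟩ ⟨t', h'⟩ => ⟨max t t', (h.and h').mono fun _ hN k hk =>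
    ⟨hN.1 k (le_trans (Nat.mul_le_mul_right _ (le_max_left _ _)) hk),
      hN.2 k (le_trans (Nat.mul_le_mul_right _ (le_max_right _ _)) hk)⟩⟩

lemma ev_FF {P : ℕ × ℕ → Prop} :
    (∀ᶠ i in FF, P i) ↔ ∃ t : ℕ, ∀ᶠ N in (UF : Filter ℕ), ∀ k, t * N ≤ k → P (N, k) := Iff.rfl

lemma UF_ge (n : ℕ) : ∀ᶠ N in (UF : Filter ℕ), n ≤ N := UF_le (eventually_ge_atTop n)

lemma FF_basic (t : ℕ) : ∀ᶠ i in FF, 2 ≤ i.1 ∧ t * i.1 ≤ i.2 :=
  ev_FF.mpr ⟨t, (UF_ge 2).mono fun _ hN _ hk => ⟨hN, hk⟩⟩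

lemma FF_exists {P : ℕ × ℕ → Prop} (h : ∀ᶠ i in FF, P i) : ∃ i, P i := by
  obtain ⟨t, h⟩ := ev_FF.mp h
  obtain ⟨N, hN⟩ := h.exists
  exact ⟨_, hN _ le_rfl⟩

lemma not_ev_FF {P : ℕ × ℕ → Prop} (h : ¬ ∀ᶠ i in FF, P i) (t : ℕ) :
    ∀ᶠ N in (UF : Filter ℕ), ∃ k, t * N ≤ k ∧ ¬ P (N, k) := by
  have h1 : ¬ ∀ᶠ N in (UF : Filter ℕ), ∀ k, t * N ≤ k → P (N, k) := fun h' => h (ev_FF.mpr ⟨t, h'⟩)
  refine (Ultrafilter.eventually_not.mpr h1).mono fun N hN => ?_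
  push Not at hN
  exact hN

section general

variable {ι : Type} {F : Filter ι} {N k1 k2 : ι → ℕ} {A1 A2 : ι → ℝ}

lemma Up_mono (hA : ∀ i, 0 < A1 i) {C C' : ℝ} (hC : C ≤ C') (h : Up F N k1 k2 A1 A2 C) :
    Up F N k1 k2 A1 A2 C' := fun η hη => (h η hη).mono fun i hi =>
  le_trans (Pr_mono (elem_BadEv _ _ _ _ _ _) (elem_BadEv _ _ _ _ _ _) fun ω ⟨x, hx, y, hy, hb⟩ =>
    ⟨x, hx, y, hy, lt_of_le_of_lt (by
      have := hA i
      gcongr) hb⟩) hi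

lemma Up_closed (hA : ∀ i, 0 < A1 i) {V C : ℝ} (hV : 0 < V)
    (hN : ∀ᶠ i in F, 2 ≤ N i ∧ (a (N i) (k1 i) : ℝ) ≤ V * A1 i)
    (h : ∀ δ : ℝ, 0 < δ → Up F N k1 k2 A1 A2 (C + δ)) : Up F N k1 k2 A1 A2 C := by
  intro η hη
  obtain ⟨K, hK, hX⟩ := X_tail (η := η / 2) (by positivity)
  filter_upwards [h (η / (2 * K * V)) (by positivity) (η / 2) (by positivity), hN] with i h1 h2
  have h3 := hX (N i) h2.1 (k1 i)
  have h4 := Pr_le_add (N := N i) (elem_BadEv (k1 i) (k2 i) (A1 i) (A2 i) C η)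
    (elem_BadEv (k1 i) (k2 i) (A1 i) (A2 i) (C + η / (2 * K * V)) (η / 2))
    ((elem_X (k1 i)).map fun x : ℕ => K * a (N i) (k1 i) < (x : ℝ)) (by
      rintro ω ⟨x, hx, y, hy, hb⟩
      by_cases hc : K * a (N i) (k1 i) < (X ω (k1 i) : ℝ)
      · exact Or.inr hc
      refine Or.inl ⟨x, hx, y, hy, lt_of_le_of_lt ?_ hb⟩
      have hA' := hA i
      have e1 : (d ω (k1 i) x y : ℝ) ≤ K * (V * A1 i) :=
        calc (d ω (k1 i) x y : ℝ) ≤ X ω (k1 i) := by exact_mod_cast d_le_X hx hy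
          _ ≤ K * a (N i) (k1 i) := not_lt.mp hc
          _ ≤ _ := by gcongr; exact h2.2
      have e2 : (d ω (k1 i) x y : ℝ) / A1 i ≤ K * V := by
        rw [div_le_iff₀ hA']; linarith
      have e3 : η / (2 * K * V) * ((d ω (k1 i) x y : ℝ) / A1 i) ≤ η / (2 * K * V) * (K * V) := by
        gcongr
      have e4 : η / (2 * K * V) * (K * V) = η / 2 := by field_simp
      linarith)
  linarith

lemma Up_inf (hA : ∀ i, 0 < A1 i) {V b : ℝ} (hV : 0 < V)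
    (hN : ∀ᶠ i in F, 2 ≤ N i ∧ (a (N i) (k1 i) : ℝ) ≤ V * A1 i)
    (hex : ∃ C, Up F N k1 k2 A1 A2 C) (hb : ∀ C, Up F N k1 k2 A1 A2 C → b ≤ C) :
    ∃ C, b ≤ C ∧ Up F N k1 k2 A1 A2 C ∧ ∀ κ : ℝ, 0 < κ → ¬ Up F N k1 k2 A1 A2 (C - κ) := by
  have hne : {C | Up F N k1 k2 A1 A2 C}.Nonempty := hex
  have hbd : BddBelow {C | Up F N k1 k2 A1 A2 C} := ⟨b, hb⟩
  refine ⟨sInf {C | Up F N k1 k2 A1 A2 C}, le_csInf hne hb, Up_closed hA hV hN fun δ hδ => ?_,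
    fun κ hκ hc => ?_⟩
  · obtain ⟨C, hC, hlt⟩ := exists_lt_of_csInf_lt hne (lt_add_of_pos_right _ hδ)
    exact Up_mono hA hlt.le hC
  · have := csInf_le hbd hc
    linarith

end general

/-- the later time is at most `C` times the earlier -/
abbrev UpP (l : ℕ) (C : ℝ) : Prop :=
  Up FF Prod.fst Prod.snd (fun i => i.2 + i.1 / l) (fun i => a i.1 i.2) (fun i => a i.1 i.2) C

/-- the earlier time is at most `C` times the later -/
abbrev UpM (l : ℕ) (C : ℝ) : Prop :=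
  Up FF Prod.fst (fun i => i.2 + i.1 / l) Prod.snd (fun i => a i.1 i.2) (fun i => a i.1 i.2) C

lemma no_small {δ : ℝ} (hδ : 0 < δ) (h : ∀ η : ℝ, 0 < η → ∀ᶠ i in FF,
    Pr i.1 (fun ω => η * a i.1 i.2 < δ * dc ω i.2) ≤ η) : False := by
  obtain ⟨κ, hκ, hdc⟩ := dc_low (1 / 4) (by norm_num)
  obtain ⟨i, h1, h2⟩ := FF_exists ((h (min (δ * κ / 2) (1 / 4)) (by positivity)).and (FF_basic 0))
  have h3 := hdc i.1 h2.1 i.2
  have ha := a_pos i.1 i.2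
  have h4 := Pr_le_add (N := i.1) (A := fun _ => True) (Elem.const _)
    ((elem_dc i.2).map fun x : ℕ => min (δ * κ / 2) (1 / 4) * a i.1 i.2 < δ * x)
    ((elem_dc i.2).map fun x : ℕ => (x : ℝ) < κ * a i.1 i.2) fun ω _ => by
      by_cases hc : (dc ω i.2 : ℝ) < κ * a i.1 i.2
      · exact Or.inr hc
      refine Or.inl ?_
      have e1 : min (δ * κ / 2) (1 / 4) * (a i.1 i.2 : ℝ) ≤ δ * κ / 2 * a i.1 i.2 := by
        gcongr; exact min_le_left _ _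
      have e2 : δ * (κ * a i.1 i.2) ≤ δ * dc ω i.2 := by gcongr; exact not_lt.mp hc
      nlinarith [mul_pos (mul_pos hδ hκ) ha]
  rw [Pr_true fun _ => trivial] at h4
  have := min_le_right (δ * κ / 2) (1 / 4 : ℝ)
  linarith

lemma UpP_ge {l : ℕ} {C : ℝ} (h : UpP l C) : 1 ≤ C := by
  by_contra hc
  refine no_small (δ := 1 - C) (by linarith) fun η hη => (h η hη).mono fun i hi => ?_
  refine le_trans (Pr_mono ((elem_dc i.2).map fun x : ℕ => η * a i.1 i.2 < (1 - C) * x)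
    (elem_BadEv _ _ _ _ _ _) fun ω hω => ⟨_, c00, _, c11, ?_⟩) hi
  have ha := a_pos i.1 i.2
  have e1 : (dc ω i.2 : ℝ) ≤ d ω (i.2 + i.1 / l) (0, 0) (1, 1) := by
    exact_mod_cast d_mono (Nat.le_add_right _ _) c00 c11
  change C * ((dc ω i.2 : ℝ) / _) + η < _
  rw [← mul_div_assoc, div_add' _ _ _ ha.ne', div_lt_div_iff_of_pos_right ha]
  linarith

lemma UpM_ge {l : ℕ} {C : ℝ} (h : UpM l C) : 0 ≤ C := by
  by_contra hc
  refine no_small (δ := 1) one_pos fun η hη => (h η hη).mono fun i hi => ?_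
  refine le_trans (Pr_mono ((elem_dc i.2).map fun x : ℕ => η * a i.1 i.2 < 1 * (x : ℝ))
    (elem_BadEv _ _ _ _ _ _) fun ω hω => ⟨_, c00, _, c11, ?_⟩) hi
  have ha := a_pos i.1 i.2
  have e1 : C * (d ω (i.2 + i.1 / l) (0, 0) (1, 1) : ℝ) ≤ 0 :=
    mul_nonpos_of_nonpos_of_nonneg (not_le.mp hc).le (by positivity)
  change _ < (dc ω i.2 : ℝ) / _
  rw [← mul_div_assoc, div_add' _ _ _ ha.ne', div_lt_div_iff_of_pos_right ha]
  linarith

lemma UpM_one (l : ℕ) : UpM l 1 := fun η hη => Eventually.of_forall fun i => by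
  rw [Pr_false]
  · exact hη.le
  rintro ω ⟨x, hx, y, hy, hb⟩
  have ha := a_pos i.1 i.2
  have e1 : (d ω i.2 x y : ℝ) ≤ d ω (i.2 + i.1 / l) x y := by
    exact_mod_cast d_mono (Nat.le_add_right _ _) hx hy
  have e2 : (d ω i.2 x y : ℝ) / a i.1 i.2 ≤ d ω (i.2 + i.1 / l) x y / a i.1 i.2 := by gcongr
  dsimp only at hb
  linarith

lemma UpP_ex (l : ℕ) : ∃ C, UpP l C := by
  obtain ⟨K, hK, hcov⟩ := cov
  obtain ⟨V, hV, hgr⟩ := a_grow4
  refine ⟨K * V, fun η hη => ?_⟩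
  obtain ⟨w, t0, hcov⟩ := hcov 0 (η / V) (by positivity)
  filter_upwards [FF_basic t0] with i hi
  have hb : i.1 / l ≤ i.1 := Nat.div_le_self _ _
  have h1 := hcov i.1 hi.1 i.2 (i.2 + i.1 / l) hi.2 (hi.2.trans (Nat.le_add_right _ _)) V (by positivity)
    (fun s _ _ => hgr i.1 hi.1 _ _ (by omega))
  have eA : Elem (fun ω => ∃ x ∈ Q, ∃ y ∈ Q, K * V * d ω i.2 x y +
      η / V * a i.1 (i.2 + i.1 / l) < d ω (i.2 + i.1 / l) x y) :=
    (elem_TQ i.2).map₂ (elem_TQ (i.2 + i.1 / l)) fun A B => ∃ x ∈ Q, ∃ y ∈ Q,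
      K * V * (dS A {x} {y} : ℝ) + η / V * a i.1 (i.2 + i.1 / l) < (dS B {x} {y} : ℝ)
  refine le_trans (Pr_mono (elem_BadEv _ _ _ _ _ _) eA ?_) (h1.trans (div_le_self hη.le hV))
  rintro ω ⟨x, hx, y, hy, hb'⟩
  refine ⟨x, hx, y, hy, ?_⟩
  have ha := a_pos i.1 i.2
  rw [← mul_div_assoc, div_add' _ _ _ ha.ne', div_lt_div_iff_of_pos_right ha] at hb'
  have e1 : η / V * (a i.1 (i.2 + i.1 / l) : ℝ) ≤ η / V * (V * a i.1 i.2) := by
    gcongr; exact hgr i.1 hi.1 _ _ (by omega)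
  have e2 : η / V * (V * (a i.1 i.2 : ℝ)) = η * a i.1 i.2 := by field_simp
  linarith

lemma div_le_iff_cancel {x y c A : ℝ} (hA : 0 < A) : x / A ≤ c * (y / A) ↔ x ≤ c * y := by
  rw [← mul_div_assoc, div_le_div_iff_of_pos_right hA]

lemma prod_le {l : ℕ} (hl : 1 ≤ l) {C C' : ℝ} (h1 : 1 ≤ C) (hP : UpP l C)
    (hP' : ∀ κ : ℝ, 0 < κ → ¬ UpP l (C - κ)) (hM : UpM l C')
    (hM' : ∀ κ : ℝ, 0 < κ → ¬ UpM l (C' - κ)) : C * C' ≤ 1 := by
  by_contra hcon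
  have hlt : 1 < C * C' := not_le.mp hcon
  have hC' : 0 < C' := by
    by_contra h
    nlinarith
  obtain ⟨r, r0, r1, r2⟩ : ∃ r : ℝ, 0 < r ∧ r < 1 ∧ 1 < (r * C) * (r * C') := by
    have hc : ContinuousAt (fun r : ℝ => (r * C) * (r * C')) 1 := by fun_prop
    have h2 : ∀ᶠ r in nhds (1 : ℝ), 1 < (r * C) * (r * C') :=
      hc.eventually (lt_mem_nhds (by simpa using hlt))
    have h3 : ∀ᶠ r in nhds (1 : ℝ), 0 < r := lt_mem_nhds one_pos
    obtain ⟨r, hr, hr'⟩ := (((h2.and h3).filter_mono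
      (nhdsWithin_le_nhds (s := Iio 1))).and self_mem_nhdsWithin).exists
    exact ⟨r, hr.2, hr', hr.1⟩
  obtain ⟨κ, hκ, hwin⟩ := windows
  obtain ⟨V, hV, hgr⟩ := a_grow4
  obtain ⟨n, t, hno⟩ := hi_lo hκ (c := r * C) (c' := r * C') (by positivity) (by positivity) r2 l hl
  obtain ⟨ε, hε, hwin⟩ := hwin n n
  have hb : ∀ N : ℕ, N / l ≤ N := fun N => Nat.div_le_self _ _
  have basic : ∀ t : ℕ, ∀ᶠ i in FF, 2 ≤ i.1 ∧ t * i.1 ≤ i.2 ∧ t * i.1 ≤ i.2 + i.1 / l :=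
    fun t => (FF_basic t).mono fun i hi => ⟨hi.1, hi.2, hi.2.trans (Nat.le_add_right _ _)⟩
  have hHi : ∀ᶠ N in (UF : Filter ℕ), ∃ τ, t * N ≤ τ ∧ Hi N τ (N / l) n (r * C) κ := by
    obtain ⟨l0, l1, κ', hκ', himp⟩ := imp ε (C - r * C) V (n + 1) hε (by nlinarith)
      (by linarith) (by omega)
    have h2 : ¬ ∀ w : ℕ, ∀ᶠ i in FF, ∀ s ≤ w * i.1, ε * Pr i.1 (Gad i.1 l0 (n + 1) l1) ≤
        Pr i.1 (fun ω => Gad i.1 l0 (n + 1) l1 ω ∧
          (Test ω (i.2 + i.1 / l - s) : ℝ) / a i.1 i.2 ≤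
            r * C * ((Test ω (i.2 - s) : ℝ) / a i.1 i.2)) := fun h4 =>
      hP' κ' hκ' (himp (ℕ × ℕ) FF Prod.fst Prod.snd (fun i => i.2 + i.1 / l)
        (fun i => a i.1 i.2) (fun i => a i.1 i.2) V (r * C) C basic (by linarith)
        ((FF_basic 0).mono fun i hi => ⟨hgr _ hi.1 _ _ (by omega), hgr _ hi.1 _ _ (by
          have := hb i.1; omega)⟩)
        (fun w => (FF_basic 0).mono fun i hi s _ => (div_le_iff_cancel (a_pos _ _)).mpr
          (hgr _ hi.1 _ _ (by have := hb i.1; omega)))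
        h4 (by positivity) (by linarith) hP)
    obtain ⟨w, hw⟩ := not_forall.mp h2
    filter_upwards [not_ev_FF hw (w + t + (l0 + n + 1 + l1 + 3)), UF_ge 2] with N hN hN2
    obtain ⟨k, hk, hN⟩ := hN
    push Not at hN
    obtain ⟨s, hs, hN⟩ := hN
    rw [add_mul, add_mul] at hk
    refine ⟨k - s - (l0 + n + 1 + l1 + 3) * N, by omega, (hwin N hN2 l0 l1 _ (N / l) (k - s) (r * C)
      (by positivity) (Nat.mul_le_mul_left _ (hb N)) (by omega)).1 ?_⟩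
    simp only [div_le_iff_cancel (a_pos N k)] at hN
    rwa [Nat.sub_add_comm (by omega)] at hN
  have hLo : ∀ᶠ N in (UF : Filter ℕ), ∃ τ, t * N ≤ τ ∧ Lo N τ (N / l) n (r * C') κ := by
    obtain ⟨l0, l1, κ', hκ', himp⟩ := imp ε (C' - r * C') V (n + 1) hε (by nlinarith)
      (by linarith) (by omega)
    have h2 : ¬ ∀ w : ℕ, ∀ᶠ i in FF, ∀ s ≤ w * i.1, ε * Pr i.1 (Gad i.1 l0 (n + 1) l1) ≤
        Pr i.1 (fun ω => Gad i.1 l0 (n + 1) l1 ω ∧
          (Test ω (i.2 - s) : ℝ) / a i.1 i.2 ≤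
            r * C' * ((Test ω (i.2 + i.1 / l - s) : ℝ) / a i.1 i.2)) := fun h4 =>
      hM' κ' hκ' (himp (ℕ × ℕ) FF Prod.fst (fun i => i.2 + i.1 / l) Prod.snd
        (fun i => a i.1 i.2) (fun i => a i.1 i.2) V (r * C') C'
        (fun t => (basic t).mono fun i hi => ⟨hi.1, hi.2.2, hi.2.1⟩) (by linarith)
        ((FF_basic 0).mono fun i hi => ⟨hgr _ hi.1 _ _ (by
          have := hb i.1; omega), hgr _ hi.1 _ _ (by omega)⟩)
        (fun w => (FF_basic 0).mono fun i hi s _ => (div_le_iff_cancel (a_pos _ _)).mpr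
          (hgr _ hi.1 _ _ (by generalize i.1 / l = b; omega)))
        h4 (by positivity) (by linarith) hM)
    obtain ⟨w, hw⟩ := not_forall.mp h2
    filter_upwards [not_ev_FF hw (w + t + (l0 + n + 1 + l1 + 3)), UF_ge 2] with N hN hN2
    obtain ⟨k, hk, hN⟩ := hN
    push Not at hN
    obtain ⟨s, hs, hN⟩ := hN
    rw [add_mul, add_mul] at hk
    refine ⟨k - s - (l0 + n + 1 + l1 + 3) * N, by omega, (hwin N hN2 l0 l1 _ (N / l) (k - s)
      (r * C') (by positivity) (Nat.mul_le_mul_left _ (hb N)) (by omega)).2 ?_⟩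
    simp only [div_le_iff_cancel (a_pos N k)] at hN
    rwa [Nat.sub_add_comm (by omega)] at hN
  obtain ⟨N, ⟨τ, hτ, hH⟩, ⟨τ', hτ', hL⟩, h2, h3⟩ :=
    (hHi.and (hLo.and ((UF_ge 2).and (UF_ge l)))).exists
  exact hno N h2 h3 τ τ' hτ hτ' hH hL

lemma E_dc_step {N : ℕ} (hN : 2 ≤ N) (l k : ℕ) :
    E N (fun ω => (dc ω (k + N / l) : ℝ)) ≤ Real.exp (1 / l) * E N (fun ω => (dc ω k : ℝ)) := by
  have h1 := E_step (k := k) hN (R := {root}) (I := {(0, 0)}) (J := {(1, 1)})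
    (fun ω k => conn_TQ c00 c11 rfl rfl) (H := fun _ => 1) (Nice.const 1) (fun _ => zero_le_one)
    ((adapted_TR k {root}).map fun _ => (1 : ℝ)) (N / l)
  simp only [one_mul] at h1
  refine h1.trans (mul_le_mul_of_nonneg_right ((one_add_q_pow_le hN _).trans ?_)
    (E_nonneg fun _ => by positivity))
  refine Real.exp_le_exp.mpr ?_
  have h2 : ((N / l : ℕ) : ℝ) ≤ N / l := Nat.cast_div_le
  have h3 := q_pos hN
  calc q N * ((N / l : ℕ) : ℝ) ≤ q N * (N / l) := by gcongr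
    _ = 1 / l := by rw [← mul_div_assoc, q_mul hN]

lemma m_le {l : ℕ} {m : ℝ} (hm : 0 < m)
    (h : ∀ η : ℝ, 0 < η → ∀ᶠ i in FF, Pr i.1 (fun ω =>
      (dc ω (i.2 + i.1 / l) : ℝ) + η * a i.1 i.2 < m * dc ω i.2) ≤ η) : m ≤ Real.exp (1 / l) := by
  by_contra hcon
  have hδ : 0 < m - Real.exp (1 / l) := by linarith
  set δ := m - Real.exp (1 / l) with hδ'
  obtain ⟨κ, hκ, hdc⟩ := dc_low (1 / 2) (by norm_num)
  obtain ⟨C, hC, hX⟩ := X_mom 2
  set θ : ℝ := δ * κ / (8 * m * C) with hθ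
  have θ0 : 0 < θ := by positivity
  set η : ℝ := δ * κ / (8 * (1 + m / θ)) with hη
  have η0 : 0 < η := by positivity
  obtain ⟨i, h1, h2⟩ := FF_exists ((h η η0).and (FF_basic 0))
  obtain ⟨N, k⟩ := i
  dsimp only at h1 h2
  have hN := h2.1
  have ha := a_pos N k
  have eB : Elem (fun ω => (dc ω (k + N / l) : ℝ) + η * a N k < m * dc ω k) :=
    (elem_dc _).map₂ (elem_dc k) fun x y : ℕ => (x : ℝ) + η * a N k < m * y
  have eL : Elem (fun ω => (dc ω k : ℝ) < κ * a N k) :=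
    (elem_dc k).map fun x : ℕ => (x : ℝ) < κ * a N k
  -- lower bound of the mean
  have g1 : κ * a N k / 2 ≤ E N (fun ω => (dc ω k : ℝ)) := by
    have e1 := E_mono (N := N) (f := fun ω => κ * a N k - κ * a N k * ind ((dc ω k : ℝ) < κ * a N k))
      ((Nice.const _).sub (eL.ind.cmul _)) (elem_dc k).cast fun ω => by
        by_cases hc : (dc ω k : ℝ) < κ * a N k
        · rw [ind_pos hc]; simp
        · rw [ind_neg hc]; simpa using hc
    rw [E_sub (Nice.const _) (eL.ind.cmul _), E_const, E_cmul] at e1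
    have e2 : κ * a N k * Pr N (fun ω => (dc ω k : ℝ) < κ * a N k) ≤ κ * a N k * (1 / 2) := by
      gcongr; exact hdc N hN k
    unfold Pr at e2
    linarith
  have g2 : m * E N (fun ω => (dc ω k : ℝ)) ≤ E N (fun ω => (dc ω (k + N / l) : ℝ)) + η * a N k +
      (m * θ / a N k * E N (fun ω => (X ω k : ℝ) ^ 2) + m * a N k / θ *
        Pr N (fun ω => (dc ω (k + N / l) : ℝ) + η * a N k < m * dc ω k)) := by
    have n1 := ((elem_dc (k + N / l)).cast.add (Nice.const (η * a N k)))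
    have n2 := ((elem_X k).cast.pow 2).cmul (m * θ / a N k)
    have n3 := eB.ind.cmul (m * a N k / θ)
    have e1 := E_mono (N := N) ((elem_dc k).cast.cmul m) (n1.add (n2.add n3)) fun ω => by
      have p1 : (0 : ℝ) ≤ dc ω (k + N / l) := by positivity
      have p2 : 0 ≤ m * θ / a N k * (X ω k : ℝ) ^ 2 := by positivity
      by_cases hc : (dc ω (k + N / l) : ℝ) + η * a N k < m * dc ω k
      · rw [ind_pos hc, mul_one]
        have p3 : (dc ω k : ℝ) ≤ X ω k := by exact_mod_cast d_le_X c00 c11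
        have p4 : m * (X ω k : ℝ) ≤ m * θ / a N k * (X ω k : ℝ) ^ 2 + m * a N k / θ := by
          have e : m * θ / a N k * (X ω k : ℝ) ^ 2 + m * a N k / θ - 2 * (m * X ω k) =
              m / (θ * a N k) * (θ * X ω k - a N k) ^ 2 := by field_simp; ring
          have : 0 ≤ m / (θ * a N k) * (θ * X ω k - a N k) ^ 2 := by positivity
          have : 0 ≤ m * (X ω k : ℝ) := by positivity
          linarith
        have p5 : m * (dc ω k : ℝ) ≤ m * X ω k := by gcongr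
        have p6 : 0 ≤ η * (a N k : ℝ) := by positivity
        linarith
      · rw [ind_neg hc, mul_zero]
        have := not_lt.mp hc
        linarith
    rw [E_add n1 (n2.add n3), E_add n2 n3, E_add (elem_dc _).cast (Nice.const _), E_const, E_cmul,
      E_cmul, E_cmul] at e1
    exact e1
  have g3 := E_dc_step hN l k
  have g4 : m * θ / a N k * E N (fun ω => (X ω k : ℝ) ^ 2) ≤ δ * κ / 8 * a N k := by
    calc m * θ / a N k * E N (fun ω => (X ω k : ℝ) ^ 2)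
        ≤ m * θ / a N k * (C * (a N k : ℝ) ^ 2) := by gcongr; exact hX N hN k
      _ = _ := by rw [hθ]; field_simp
  have g5 : m * a N k / θ * Pr N (fun ω => (dc ω (k + N / l) : ℝ) + η * a N k < m * dc ω k) ≤
      m * a N k / θ * η := by gcongr
  have g6 : η * a N k + m * a N k / θ * η = δ * κ / 8 * a N k := by
    rw [hη]; field_simp
  have g7 : δ * (κ * a N k / 2) ≤ δ * E N (fun ω => (dc ω k : ℝ)) := by gcongr
  have g8 : 0 < δ * κ * a N k := by positivity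
  rw [hδ'] at g7
  nlinarith

end Ph1

open Ph1 in
theorem phase1 (l : ℕ) (hl : 1 ≤ l) : ∃ m : ℝ, 1 ≤ m ∧ m ≤ Real.exp (1 / l) ∧
    ∀ η : ℝ, 0 < η → ∃ t : ℕ, ∀ᶠ N in (UF : Filter ℕ), ∀ k, t * N ≤ k →
      Pr N (fun ω => ∃ x ∈ Q, ∃ y ∈ Q,
        η * a N k < |(d ω (k + N / l) x y : ℝ) - m * d ω k x y|) ≤ η := by
  obtain ⟨V, hV, hgr⟩ := a_grow4
  obtain ⟨C, h1, hP, hP'⟩ := Up_inf (F := FF) (N := Prod.fst) (k1 := Prod.snd)
    (k2 := fun i => i.2 + i.1 / l) (A1 := fun i => a i.1 i.2) (A2 := fun i => a i.1 i.2)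
    (fun i => a_pos _ _) (V := V) (b := 1) (by linarith)
    ((FF_basic 0).mono fun i hi => ⟨hi.1, hgr _ hi.1 _ _ (by omega)⟩) (UpP_ex l)
    fun C hC => UpP_ge hC
  obtain ⟨C', h0, hM, hM'⟩ := Up_inf (F := FF) (N := Prod.fst) (k1 := fun i => i.2 + i.1 / l)
    (k2 := Prod.snd) (A1 := fun i => a i.1 i.2) (A2 := fun i => a i.1 i.2)
    (fun i => a_pos _ _) (V := V) (b := 0) (by linarith)
    ((FF_basic 0).mono fun i hi => ⟨hi.1, hgr _ hi.1 _ _ (by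
      have := Nat.div_le_self i.1 l; omega)⟩) ⟨1, UpM_one l⟩ fun C hC => UpM_ge hC
  have hCC := prod_le hl h1 hP hP' hM hM'
  have eA : ∀ (N k : ℕ) (η : ℝ), Elem (fun ω => ∃ x ∈ Q, ∃ y ∈ Q,
      η * a N k < |(d ω (k + N / l) x y : ℝ) - C * d ω k x y|) := fun N k η =>
    (elem_TQ k).map₂ (elem_TQ (k + N / l)) fun A B => ∃ x ∈ Q, ∃ y ∈ Q,
      η * a N k < |(dS B {x} {y} : ℝ) - C * (dS A {x} {y} : ℝ)|
  have main : ∀ η : ℝ, 0 < η → ∀ᶠ i in FF, Pr i.1 (fun ω => ∃ x ∈ Q, ∃ y ∈ Q,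
      η * a i.1 i.2 < |(d ω (i.2 + i.1 / l) x y : ℝ) - C * d ω i.2 x y|) ≤ η := by
    intro η hη
    filter_upwards [hP (η / 2) (by positivity), hM (η / (2 * C)) (by positivity)] with i g1 g2
    have ha := a_pos i.1 i.2
    have g3 := Pr_le_add (N := i.1) (eA i.1 i.2 η)
      (elem_BadEv i.2 (i.2 + i.1 / l) (a i.1 i.2) (a i.1 i.2) C (η / 2))
      (elem_BadEv (i.2 + i.1 / l) i.2 (a i.1 i.2) (a i.1 i.2) C' (η / (2 * C))) (by
        rintro ω ⟨x, hx, y, hy, hb⟩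
        have p0 : 0 < η * (a i.1 i.2 : ℝ) := by positivity
        rcases lt_abs.mp hb with hb | hb
        · refine Or.inl ⟨x, hx, y, hy, ?_⟩
          rw [← mul_div_assoc, div_add' _ _ _ ha.ne', div_lt_div_iff_of_pos_right ha]
          linarith
        · refine Or.inr ⟨x, hx, y, hy, ?_⟩
          rw [← mul_div_assoc, div_add' _ _ _ ha.ne', div_lt_div_iff_of_pos_right ha]
          refine lt_of_mul_lt_mul_left (a := C) ?_ (by linarith)
          have p1 : C * C' * (d ω (i.2 + i.1 / l) x y : ℝ) ≤ 1 * d ω (i.2 + i.1 / l) x y := by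
            gcongr
          have p2 : C * (η / (2 * C) * (a i.1 i.2 : ℝ)) = η * a i.1 i.2 / 2 := by field_simp
          linarith)
    have g4 : η / (2 * C) ≤ η / 2 := by gcongr; linarith
    linarith
  refine ⟨C, h1, m_le (by linarith) fun η hη => (main η hη).mono fun i hi => ?_,
    fun η hη => ev_FF.mp (main η hη)⟩
  refine le_trans (Pr_mono ((elem_dc _).map₂ (elem_dc i.2)
    fun x y : ℕ => (x : ℝ) + η * a i.1 i.2 < C * y) (eA i.1 i.2 η) fun ω hω =>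
      ⟨_, c00, _, c11, lt_abs.mpr (Or.inr ?_)⟩) hi
  change _ < -((dc ω (i.2 + i.1 / l) : ℝ) - C * dc ω i.2)
  linarith

end Pool.Agent.P.MP_8c7dae_pr
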