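import Pool.Agent.P.MP_8c7dae_pr.Imp
import Pool.Agent.P.MP_8c7dae_pr.Cov

open MeasureTheory Set Filter

namespace Pool.Agent.P.MP_8c7dae_pr

namespace Ph1

lemma a_pos (N k : ℕ) : (0 : ℝ) < a N k := by
  have := one_le_a N k
  exact_mod_cast (by omega : 0 < a N k)

lemma a_mono' (N : ℕ) {k k' : ℕ} (h : k ≤ k') : (a N k : ℝ) ≤ a N k' := by
  exact_mod_cast a_mono N h

lemma a_grow4 : ∃ V : ℝ, 1 ≤ V ∧ ∀ N, 2 ≤ N → ∀ k k' : ℕ, k' ≤ k + 4 * N →
    (a N k' : ℝ) ≤ V * a N k := by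
  obtain ⟨U, hU, h⟩ := a_grow
  refine ⟨Real.exp (U + 4), Real.one_le_exp (by linarith), fun N hN k k' hk => ?_⟩
  have h1 := h N hN k (4 * N)
  have h2 : q N * ((4 * N : ℕ) : ℝ) = 4 := by
    have := q_mul hN
    push_cast
    linarith
  rw [h2] at h1
  exact (a_mono' N hk).trans h1

lemma X_tail {η : ℝ} (hη : 0 < η) : ∃ K : ℝ, 0 < K ∧ ∀ N, 2 ≤ N → ∀ k,
    Pr N (fun ω => K * a N k < (X ω k : ℝ)) ≤ η := by
  obtain ⟨C, hC, h⟩ := X_mom 1
  refine ⟨C / η, by positivity, fun N hN k => ?_⟩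
  have ha := a_pos N k
  have h1 := Pr_le_E_div (N := N) (A := fun ω => C / η * a N k < (X ω k : ℝ))
    ((elem_X k).map fun n : ℕ => C / η * a N k < (n : ℝ)) (elem_X k).cast
    (t := C / η * a N k) (by positivity) (fun ω => by positivity) (fun ω hω => hω.le)
  refine h1.trans ?_
  have h2 := h N hN k
  simp only [pow_one] at h2
  rw [div_le_iff₀ (by positivity)]
  refine h2.trans (le_of_eq ?_)
  field_simp

lemma Pr_le_add3 {N : ℕ} {A B C D : Om → Prop} (hA : Elem A) (hB : Elem B) (hC : Elem C)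
    (hD : Elem D) (h : ∀ ω, A ω → B ω ∨ C ω ∨ D ω) : Pr N A ≤ Pr N B + Pr N C + Pr N D := by
  have h1 := Pr_le_add (N := N) hA hB (hC.or hD) h
  have h2 := Pr_le_add (N := N) (hC.or hD) hC hD fun _ h => h
  linarith

lemma exists_not3 {N : ℕ} {B C D : Om → Prop} (hB : Elem B) (hC : Elem C) (hD : Elem D)
    (h : Pr N B + Pr N C + Pr N D < 1) : ∃ ω, ¬ B ω ∧ ¬ C ω ∧ ¬ D ω := by
  by_contra hc
  push Not at hc
  have h1 := Pr_le_add3 (N := N) (A := fun _ => True) (Elem.const _) hB hC hD fun ω _ => by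
    by_cases hb : B ω
    · exact Or.inl hb
    by_cases hcc : C ω
    · exact Or.inr (Or.inl hcc)
    exact Or.inr (Or.inr (hc ω hb hcc))
  rw [Pr_true fun _ => trivial] at h1
  linarith

/-! ### windows -/

lemma win_core : ∃ κ K : ℝ, 0 < κ ∧ 0 < K ∧ ∀ L n : ℕ, ∃ ε : ℝ, 0 < ε ∧ ∀ N, 2 ≤ N →
    ∀ (l0 l1 τ β j : ℕ) (B : ℕ → ℕ → Prop), n * β ≤ L * N → j = τ + (l0 + L + 1 + l1 + 3) * N →
      Pr N (fun ω => Gad N l0 (L + 1) l1 ω ∧ B (Test ω j) (Test ω (j + β))) <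
        ε * Pr N (Gad N l0 (L + 1) l1) →
      ∀ m1 m2 : ℕ, ∃ ω, (∀ m < n, ¬ B (Test ω (j + m * β)) (Test ω (j + (m + 1) * β))) ∧
        κ * a N (τ + m1 * β) ≤ (Test ω (j + m1 * β) : ℝ) ∧
        (Test ω (j + m2 * β) : ℝ) ≤ K * a N (τ + m2 * β) := by
  obtain ⟨C2, hC2, hT2⟩ := Gad_Test2
  obtain ⟨κ, hκ, hLo⟩ := Gad_TestLo (ε := 1 / 8) (by norm_num)
  obtain ⟨V, hV, hgr⟩ := a_grow4
  refine ⟨κ, (8 * C2 + 1) * V, hκ, by positivity, fun L n => ?_⟩
  obtain ⟨CL, hCL, hlast⟩ := Gad_last L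
  refine ⟨1 / (8 * (n + 1) * CL), by positivity, ?_⟩
  intro N hN l0 l1 τ β j B hn hj hlt m1 m2
  set G := Gad N (l0 + L) 1 l1 with hG
  have eG : Elem G := elem_Gad _ _ _ _
  have hP : 0 < Pr N G := by
    have h1 := Pr_nonneg (N := N)
      (fun ω => Gad N l0 (L + 1) l1 ω ∧ B (Test ω j) (Test ω (j + β)))
    have h2 : 0 < Pr N (Gad N l0 (L + 1) l1) := by
      by_contra hc
      have : 1 / (8 * (n + 1) * CL) * Pr N (Gad N l0 (L + 1) l1) ≤ 0 :=
        mul_nonpos_of_nonneg_of_nonpos (by positivity) (not_lt.mp hc)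
      linarith
    have h3 := hlast N hN l0 l1
    by_contra hc
    have : CL * Pr N G ≤ 0 := mul_nonpos_of_nonneg_of_nonpos hCL.le (not_lt.mp hc)
    linarith
  -- the three bad events
  have eB : ∀ m, Elem (fun ω => G ω ∧ B (Test ω (j + m * β)) (Test ω (j + (m + 1) * β))) :=
    fun m => eG.and ((elem_Test _).map₂ (elem_Test _) B)
  have b1 : Pr N (fun ω => ∃ m ∈ Finset.range n,
      G ω ∧ B (Test ω (j + m * β)) (Test ω (j + (m + 1) * β))) ≤ 1 / 8 * Pr N G := by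
    have h1 := Pr_le_card (N := N) (Finset.range n) (Elem.ex _ fun m _ => eB m)
      (fun m _ => eB m) (fun _ h => h) (ε := 1 / (8 * (n + 1)) * Pr N G) (fun m hm => by
        have hm' : m * β ≤ L * N :=
          (Nat.mul_le_mul_right _ (Finset.mem_range.mp hm).le).trans hn
        have h2 := Gad_shift hN l0 L l1 (fun A A' => B (dS A L0 L1) (dS A' L0 L1)) j (j + β)
          (m * β) hm'
        have e : j + β + m * β = j + (m + 1) * β := by ring
        rw [e] at h2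
        refine h2.trans (hlt.le.trans ?_)
        have h3 := hlast N hN l0 l1
        calc 1 / (8 * (n + 1) * CL) * Pr N (Gad N l0 (L + 1) l1)
            ≤ 1 / (8 * (n + 1) * CL) * (CL * Pr N G) := by gcongr
          _ = 1 / (8 * (n + 1)) * Pr N G := by field_simp)
    refine h1.trans ?_
    rw [Finset.card_range, ← mul_assoc]
    refine mul_le_mul_of_nonneg_right ?_ hP.le
    rw [mul_one_div, div_le_div_iff₀ (by positivity) (by norm_num)]
    have : (0 : ℝ) ≤ n := by positivity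
    nlinarith
  have b2 : Pr N (fun ω => G ω ∧ (Test ω (j + m1 * β) : ℝ) < κ * a N (τ + m1 * β)) ≤
      1 / 8 * Pr N G := by
    have h1 := hLo N hN (l0 + L) 1 l1 (j + m1 * β)
    have e : j + m1 * β - (l0 + L + 1 + l1 + 3) * N = τ + m1 * β := by omega
    rw [e] at h1
    exact h1
  have b3 : Pr N (fun ω => G ω ∧ (8 * C2 + 1) * V * a N (τ + m2 * β) <
      (Test ω (j + m2 * β) : ℝ)) ≤ 1 / 8 * Pr N G := by
    have h1 := hT2 N hN (l0 + L) 1 l1 (j + m2 * β)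
    have e : j + m2 * β - (l0 + L + l1) * N = τ + m2 * β + 4 * N := by
      have : (l0 + L + 1 + l1 + 3) * N = (l0 + L + l1) * N + 4 * N := by ring
      omega
    rw [e] at h1
    have h2 := hgr N hN (τ + m2 * β) (τ + m2 * β + 4 * N) le_rfl
    have ha := a_pos N (τ + m2 * β + 4 * N)
    have h3 := Pr_le_E_div (N := N) (A := fun ω => G ω ∧ (8 * C2 + 1) * V * a N (τ + m2 * β) <
      (Test ω (j + m2 * β) : ℝ)) (eG.and ((elem_Test _).map fun x : ℕ =>
        (8 * C2 + 1) * V * a N (τ + m2 * β) < (x : ℝ)))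
      (f := fun ω => ind (G ω) * (Test ω (j + m2 * β) : ℝ) ^ 2)
      (eG.ind.mul ((elem_Test _).cast.pow 2))
      (t := ((8 * C2 + 1) * a N (τ + m2 * β + 4 * N)) ^ 2) (by positivity)
      (fun ω => mul_nonneg (ind_nonneg _) (sq_nonneg _)) (fun ω hω => by
        rw [ind_pos hω.1, one_mul]
        refine pow_le_pow_left₀ (by positivity) (le_trans ?_ hω.2.le) 2
        rw [mul_assoc]
        gcongr)
    refine h3.trans ?_
    rw [div_le_iff₀ (by positivity)]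
    refine h1.trans ?_
    have h4 : C2 ≤ 1 / 8 * (8 * C2 + 1) ^ 2 := by nlinarith
    calc C2 * Pr N G * (a N (τ + m2 * β + 4 * N) : ℝ) ^ 2
        ≤ (1 / 8 * (8 * C2 + 1) ^ 2) * Pr N G * (a N (τ + m2 * β + 4 * N) : ℝ) ^ 2 := by gcongr
      _ = _ := by ring
  by_contra hc
  have h5 := Pr_le_add3 (N := N) eG (Elem.ex (Finset.range n) fun m _ => eB m)
    (eG.and ((elem_Test (j + m1 * β)).map fun x : ℕ => (x : ℝ) < κ * a N (τ + m1 * β)))
    (eG.and ((elem_Test (j + m2 * β)).map fun x : ℕ =>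
        (8 * C2 + 1) * V * a N (τ + m2 * β) < (x : ℝ))) (fun ω hω => by
      by_contra h6
      push Not at h6
      exact hc ⟨ω, fun m hm => h6.1 m (Finset.mem_range.mpr hm) hω, h6.2.1 hω, h6.2.2 hω⟩)
  linarith

/-- a window in which `a` grows at least like `c ^ i` -/
def Hi (N τ β n : ℕ) (c κ : ℝ) : Prop :=
  ∀ m i, m + i ≤ n → κ * c ^ i * a N (τ + m * β) ≤ a N (τ + (m + i) * β)

/-- a window in which `a` grows at most like `c ^ (-i)` -/
def Lo (N τ β n : ℕ) (c κ : ℝ) : Prop :=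
  ∀ m i, m + i ≤ n → κ * c ^ i * a N (τ + (m + i) * β) ≤ a N (τ + m * β)

lemma windows : ∃ κ : ℝ, 0 < κ ∧ ∀ L n : ℕ, ∃ ε : ℝ, 0 < ε ∧ ∀ N, 2 ≤ N →
    ∀ (l0 l1 τ β j : ℕ) (c : ℝ), 0 ≤ c → n * β ≤ L * N → j = τ + (l0 + L + 1 + l1 + 3) * N →
      (Pr N (fun ω => Gad N l0 (L + 1) l1 ω ∧ (Test ω (j + β) : ℝ) ≤ c * Test ω j) <
        ε * Pr N (Gad N l0 (L + 1) l1) → Hi N τ β n c κ) ∧
      (Pr N (fun ω => Gad N l0 (L + 1) l1 ω ∧ (Test ω j : ℝ) ≤ c * Test ω (j + β)) <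
        ε * Pr N (Gad N l0 (L + 1) l1) → Lo N τ β n c κ) := by
  obtain ⟨κ, K, hκ, hK, h⟩ := win_core
  refine ⟨κ / K, by positivity, fun L n => ?_⟩
  obtain ⟨ε, hε, h⟩ := h L n
  refine ⟨ε, hε, fun N hN l0 l1 τ β j c hc hn hj => ⟨fun hlt m i hmi => ?_, fun hlt m i hmi => ?_⟩⟩
  · obtain ⟨ω, h1, h2, h3⟩ := h N hN l0 l1 τ β j (fun x y => (y : ℝ) ≤ c * x) hn hj hlt m (m + i)
    have key : ∀ i, m + i ≤ n → c ^ i * (Test ω (j + m * β) : ℝ) ≤ Test ω (j + (m + i) * β) := by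
      intro i
      induction i with
      | zero => intro _; simp
      | succ i ih =>
        intro hi
        have h4 := ih (by omega)
        have h5 := not_le.mp (h1 (m + i) (by omega))
        calc c ^ (i + 1) * (Test ω (j + m * β) : ℝ)
            = c * (c ^ i * Test ω (j + m * β)) := by ring
          _ ≤ c * Test ω (j + (m + i) * β) := by gcongr
          _ ≤ _ := h5.le
    have h4 := key i hmi
    have h5 : c ^ i * (κ * a N (τ + m * β)) ≤ c ^ i * (Test ω (j + m * β) : ℝ) := by gcongr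
    rw [div_mul_eq_mul_div, div_mul_eq_mul_div, div_le_iff₀ hK]
    nlinarith
  · obtain ⟨ω, h1, h2, h3⟩ := h N hN l0 l1 τ β j (fun x y => (x : ℝ) ≤ c * y) hn hj hlt (m + i) m
    have key : ∀ i, m + i ≤ n → c ^ i * (Test ω (j + (m + i) * β) : ℝ) ≤ Test ω (j + m * β) := by
      intro i
      induction i with
      | zero => intro _; simp
      | succ i ih =>
        intro hi
        have h4 := ih (by omega)
        have h5 := not_le.mp (h1 (m + i) (by omega))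
        calc c ^ (i + 1) * (Test ω (j + (m + (i + 1)) * β) : ℝ)
            = c ^ i * (c * Test ω (j + (m + i + 1) * β)) := by rw [← add_assoc]; ring
          _ ≤ c ^ i * Test ω (j + (m + i) * β) := by gcongr
          _ ≤ _ := h4
    have h4 := key i hmi
    have h5 : c ^ i * (κ * a N (τ + (m + i) * β)) ≤
        c ^ i * (Test ω (j + (m + i) * β) : ℝ) := by gcongr
    rw [div_mul_eq_mul_div, div_mul_eq_mul_div, div_le_iff₀ hK]
    nlinarith

/-- a hi window and a lo window are incompatible -/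
lemma hi_lo {κ c c' : ℝ} (hκ : 0 < κ) (hc : 0 < c) (hc' : 0 < c') (hcc : 1 < c * c')
    (l : ℕ) (hl : 1 ≤ l) : ∃ n t : ℕ, ∀ N, 2 ≤ N → l ≤ N → ∀ τ τ', t * N ≤ τ → t * N ≤ τ' →
      Hi N τ (N / l) n c κ → Lo N τ' (N / l) n c' κ → False := by
  obtain ⟨K, hK, hcov⟩ := cov
  obtain ⟨κ0, hκ0, hdc⟩ := dc_low (1 / 4) (by norm_num)
  obtain ⟨K0, hK0, hX⟩ := X_tail (η := 1 / 4) (by norm_num)
  obtain ⟨s0, hs0⟩ := pow_unbounded_of_one_lt (4 * K * K0 / (κ ^ 2 * c' * κ0)) hcc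
  obtain ⟨w, t0, hcov⟩ := hcov s0 (min (κ0 / 2) (1 / 4)) (by positivity)
  refine ⟨2 * l * w + 1, t0, fun N hN hlN τ τ' hτ hτ' hH hL => ?_⟩
  set β := N / l with hβ
  set n := 2 * l * w + 1 with hn
  have hβ1 : 1 ≤ β := (Nat.one_le_div_iff (by omega)).mpr hlN
  have hβN : β ≤ N := Nat.div_le_self _ _
  have hNβ : N ≤ 2 * l * β := by
    have h1 := Nat.lt_div_mul_add (a := N) (b := l) (by omega)
    rw [← hβ] at h1
    nlinarith
  have a1 := a_pos N (τ' + n * β)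
  have a2 := a_pos N (τ + n * β)
  set R : ℝ := (a N (τ + n * β) : ℝ) / (κ ^ 2 * c' * (c * c') ^ s0 * a N (τ' + n * β)) with hR
  have h1 := hcov N hN (τ' + n * β) (τ + n * β) (by omega) (by omega) R (by positivity) (by
    intro s hs1 hs2
    set i := s / β with hi
    have i1 : i * β ≤ s := Nat.div_mul_le_self _ _
    have i2 : s < i * β + β := Nat.lt_div_mul_add (by omega)
    have i3 : s0 ≤ i := by
      rw [hi, Nat.le_div_iff_mul_le (by omega)]
      exact (Nat.mul_le_mul_left _ hβN).trans hs1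
    have i4 : i ≤ 2 * l * w := by
      rw [hi]
      refine Nat.div_le_of_le_mul (hs2.trans ?_)
      calc w * N ≤ w * (2 * l * β) := Nat.mul_le_mul_left _ hNβ
        _ = β * (2 * l * w) := by ring
    obtain ⟨m, hm⟩ : ∃ m, n = m + (i + 1) := ⟨n - (i + 1), by omega⟩
    have e1 := hH (m + 1) i (by omega)
    have e2 := hL m (i + 1) (by omega)
    rw [show m + 1 + i = n by omega] at e1
    rw [← hm] at e2
    have hnβ : n * β = m * β + i * β + β := by rw [hm]; ring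
    have e3 : (a N (τ + n * β - s) : ℝ) ≤ a N (τ + (m + 1) * β) :=
      a_mono' N (by rw [add_mul m 1 β, one_mul]; omega)
    have e4 : (a N (τ' + m * β) : ℝ) ≤ a N (τ' + n * β - s) := a_mono' N (by omega)
    have e5 : (c * c') ^ s0 ≤ (c * c') ^ i := pow_le_pow_right₀ hcc.le i3
    rw [hR, div_mul_eq_mul_div, le_div_iff₀ (by positivity)]
    have a3 := a_pos N (τ + n * β - s)
    calc (a N (τ + n * β - s) : ℝ) * (κ ^ 2 * c' * (c * c') ^ s0 * a N (τ' + n * β))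
        ≤ a N (τ + (m + 1) * β) * (κ ^ 2 * c' * (c * c') ^ i * a N (τ' + n * β)) := by gcongr
      _ = (κ * c ^ i * a N (τ + (m + 1) * β)) * (κ * c' ^ (i + 1) * a N (τ' + n * β)) := by
          rw [mul_pow]; ring
      _ ≤ a N (τ + n * β) * a N (τ' + n * β - s) := by
          refine mul_le_mul e1 (e2.trans e4) (by positivity) (by positivity))
  have h2 := hdc N hN (τ + n * β)
  have h3 := hX N hN (τ' + n * β)
  have eA : Elem (fun ω => ∃ x ∈ Q, ∃ y ∈ Q, K * R * d ω (τ' + n * β) x y +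
      min (κ0 / 2) (1 / 4) * a N (τ + n * β) < d ω (τ + n * β) x y) :=
    (elem_TQ (τ' + n * β)).map₂ (elem_TQ (τ + n * β)) fun A B => ∃ x ∈ Q, ∃ y ∈ Q,
      K * R * (dS A {x} {y} : ℝ) + min (κ0 / 2) (1 / 4) * a N (τ + n * β) < (dS B {x} {y} : ℝ)
  obtain ⟨ω, g1, g2, g3⟩ := exists_not3 (N := N) eA
    ((elem_dc (τ + n * β)).map fun x : ℕ => (x : ℝ) < κ0 * a N (τ + n * β))
    ((elem_X (τ' + n * β)).map fun x : ℕ => K0 * a N (τ' + n * β) < (x : ℝ)) (by
      have := min_le_right (κ0 / 2) (1 / 4 : ℝ)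
      linarith)
  push Not at g1 g2 g3
  have g4 := g1 _ c00 _ c11
  have g5 : (d ω (τ' + n * β) (0, 0) (1, 1) : ℝ) ≤ K0 * a N (τ' + n * β) :=
    le_trans (by exact_mod_cast d_le_X c00 c11) g3
  have g6 : K * R * (K0 * a N (τ' + n * β)) ≤ κ0 / 4 * a N (τ + n * β) := by
    have e : K * R * (K0 * a N (τ' + n * β)) =
        K * K0 / (κ ^ 2 * c' * (c * c') ^ s0) * a N (τ + n * β) := by
      rw [hR]; field_simp
    rw [e]
    refine mul_le_mul_of_nonneg_right ?_ a2.le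
    rw [div_lt_iff₀ (by positivity)] at hs0
    rw [div_le_iff₀ (by positivity)]
    nlinarith
  have g7 : K * R * (d ω (τ' + n * β) (0, 0) (1, 1) : ℝ) ≤ K * R * (K0 * a N (τ' + n * β)) := by
    gcongr
  have g8 : min (κ0 / 2) (1 / 4) * (a N (τ + n * β) : ℝ) ≤ κ0 / 2 * a N (τ + n * β) := by
    gcongr; exact min_le_left _ _
  have g9 : κ0 * a N (τ + n * β) ≤ (d ω (τ + n * β) (0, 0) (1, 1) : ℝ) := g2
  nlinarith [mul_pos hκ0 a2]

end Ph1

end Pool.Agent.P.MP_8c7dae_pr
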