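import Pool.Agent.P.MP_8c7dae_pr.Phase2A

open MeasureTheory Set Filter

namespace Pool.Agent.P.MP_8c7dae_pr

namespace Ph2

/-- for some `t`, for most `N`, for all pairs of times beyond `t N` -/
def FF : Filter (ℕ × ℕ × ℕ) where
  sets := {s | ∃ t : ℕ, ∀ᶠ N in (UF : Filter ℕ), ∀ k k', t * N ≤ k → t * N ≤ k' → (N, k, k') ∈ s}
  univ_sets := ⟨0, Eventually.of_forall fun _ _ _ _ _ => mem_univ _⟩
  sets_of_superset := by
    rintro s s' ⟨t, h⟩ hs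
    exact ⟨t, h.mono fun N hN k k' h1 h2 => hs (hN k k' h1 h2)⟩
  inter_sets := by
    rintro s s' ⟨t, h⟩ ⟨t', h'⟩
    refine ⟨t + t', ?_⟩
    filter_upwards [h, h'] with N a b k k' h1 h2
    rw [add_mul] at h1 h2
    exact ⟨a k k' (by omega) (by omega), b k k' (by omega) (by omega)⟩

lemma ev_FF {p : ℕ × ℕ × ℕ → Prop} : (∀ᶠ i in FF, p i) ↔
    ∃ t : ℕ, ∀ᶠ N in (UF : Filter ℕ), ∀ k k', t * N ≤ k → t * N ≤ k' → p (N, k, k') := Iff.rfl

lemma Up_mono {ι : Type} {F : Filter ι} {N k1 k2 : ι → ℕ} {A1 A2 : ι → ℝ} {C C' : ℝ}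
    (hA : ∀ᶠ i in F, 0 ≤ A1 i) (hC : C ≤ C') (h : Up F N k1 k2 A1 A2 C) :
    Up F N k1 k2 A1 A2 C' := fun η hη => by
  filter_upwards [hA, h η hη] with i a b
  refine le_trans (Pr_mono (elem_BadEv _ _ _ _ _ _) (elem_BadEv _ _ _ _ _ _) ?_) b
  rintro ω ⟨x, hx, y, hy, hb⟩
  refine ⟨x, hx, y, hy, lt_of_le_of_lt ?_ hb⟩
  have : 0 ≤ (d ω (k1 i) x y : ℝ) / A1 i := by positivity
  nlinarith

lemma descend {U : ℝ → Prop} {c C0 κ : ℝ} (hκ : 0 < κ) (mono : ∀ C C', C ≤ C' → U C → U C')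
    (step : ∀ C, c ≤ C → U C → U (C - κ)) (h0 : U C0) : U c := by
  have key : ∀ n : ℕ, U (C0 - n * κ) ∨ U c := fun n => by
    induction n with
    | zero => left; simpa using h0
    | succ n ih =>
      rcases ih with h | h
      · by_cases hc : c ≤ C0 - n * κ
        · left
          have := step _ hc h
          push_cast
          rwa [show C0 - (n + 1) * κ = C0 - n * κ - κ by ring]
        · exact Or.inr (mono _ _ (not_le.1 hc).le h)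
      · exact Or.inr h
  obtain ⟨n, hn⟩ := exists_nat_ge ((C0 - c) / κ)
  rcases key n with h | h
  · rw [div_le_iff₀ hκ] at hn
    exact mono _ _ (by linarith) h
  · exact h

lemma exists_l {g : ℝ} (hg : 0 < g) : ∃ l : ℕ, 1 ≤ l ∧
    Real.exp (3 / l) * (1 + g / 4) ≤ 1 + g / 2 := by
  have hr : 1 < (1 + g / 2) / (1 + g / 4) := by
    rw [lt_div_iff₀ (by positivity)]
    linarith
  have hlog := Real.log_pos hr
  obtain ⟨n, hn⟩ := exists_nat_ge (3 / Real.log ((1 + g / 2) / (1 + g / 4)))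
  refine ⟨n + 1, by omega, ?_⟩
  rw [← le_div_iff₀ (by positivity), ← Real.le_log_iff_exp_le (by positivity),
    div_le_iff₀ (by positivity)]
  rw [div_le_iff₀ hlog] at hn
  push_cast
  nlinarith

lemma alpha : ∃ Cα : ℝ, 0 < Cα ∧ ∀ L0 L1 w : ℕ, ∀ᶠ i in FF, ∀ s ≤ w * i.1,
    (a i.1 (i.2.2 - s) : ℝ) / AA i.1 L0 L1 i.2.2 ≤
      Cα * ((a i.1 (i.2.1 - s) : ℝ) / AA i.1 L0 L1 i.2.1) := by
  obtain ⟨κ, K, CY, hκ, hK, -, H⟩ := AA_bounds
  refine ⟨Real.exp (3 / (1 : ℕ)) * K / κ, by positivity, fun L0 L1 w => ?_⟩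
  obtain ⟨t, Ht⟩ := ratio 1 le_rfl L0 L1 (w + (L0 + L1))
  refine ev_FF.2 ⟨t + w, ?_⟩
  filter_upwards [Ht, ev_ge 2] with N h hN k k' h1 h2 s hs
  rw [add_mul] at h1 h2
  have r := h (k - s) (k' - s) ((L0 + L1) * N) s (by omega) (by omega)
    (by rw [add_mul w]; omega) (by rw [add_mul w]; omega)
  rw [show k - s + s = k by omega, show k' - s + s = k' by omega] at r
  have b1 := (H N hN L0 L1 (k' - s + (L0 + L1) * N)).1
  have b2 := (H N hN L0 L1 (k - s + (L0 + L1) * N)).2.1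
  rw [Nat.add_sub_cancel] at b1 b2
  have p1 := AA_pos hN L0 L1 k
  have p2 := AA_pos hN L0 L1 k'
  have he := Real.exp_pos (3 / (1 : ℕ))
  rw [← mul_div_assoc, div_le_div_iff₀ p2 p1]
  refine le_of_mul_le_mul_left ?_ hκ
  calc κ * ((a N (k' - s) : ℝ) * AA N L0 L1 k) = κ * (a N (k' - s) : ℝ) * AA N L0 L1 k := by ring
    _ ≤ AA N L0 L1 (k' - s + (L0 + L1) * N) * AA N L0 L1 k :=
        mul_le_mul_of_nonneg_right b1 p1.le
    _ ≤ _ := r
    _ ≤ Real.exp (3 / (1 : ℕ)) * ((K * a N (k - s)) * AA N L0 L1 k') := by gcongr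
    _ = _ := by field_simp

lemma test_hyp {g : ℝ} (hg : 0 < g) : ∃ ε : ℝ, 0 < ε ∧ ∀ L0 L1 w : ℕ, ∀ᶠ i in FF,
    ∀ s ≤ w * i.1, ε * Pr i.1 (Gad i.1 L0 1 L1) ≤ Pr i.1 (fun ω => Gad i.1 L0 1 L1 ω ∧
      (Test ω (i.2.2 - s) : ℝ) / AA i.1 L0 L1 i.2.2 ≤
        (1 + g / 2) * ((Test ω (i.2.1 - s) : ℝ) / AA i.1 L0 L1 i.2.1)) := by
  obtain ⟨ε, hε, Hε⟩ := eps_lemma (δ := g / 4) (by positivity)
  obtain ⟨l, hl, hlg⟩ := exists_l hg
  refine ⟨ε, hε, fun L0 L1 w => ?_⟩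
  obtain ⟨t, Ht⟩ := ratio l hl L0 L1 w
  refine ev_FF.2 ⟨t + w, ?_⟩
  filter_upwards [Ht, ev_ge 2] with N h hN k k' h1 h2 s hs
  rw [add_mul] at h1 h2
  have r := h (k - s) (k' - s) 0 s (by omega) (by omega) (Nat.zero_le _) hs
  rw [show k - s + s = k by omega, show k' - s + s = k' by omega, add_zero, add_zero] at r
  refine (Hε N hN L0 L1 (k - s) (k' - s)).trans (Pr_mono ((elem_Gad N L0 1 L1).and ?_)
    ((elem_Gad N L0 1 L1).and ?_) ?_)
  · exact (elem_Test _).map₂ (elem_Test _) fun n m : ℕ =>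
      (n : ℝ) / AA N L0 L1 (k' - s) ≤ (1 + g / 4) * ((m : ℝ) / AA N L0 L1 (k - s))
  · exact (elem_Test _).map₂ (elem_Test _) fun n m : ℕ =>
      (n : ℝ) / AA N L0 L1 k' ≤ (1 + g / 2) * ((m : ℝ) / AA N L0 L1 k)
  rintro ω ⟨hG, hb⟩
  refine ⟨hG, ?_⟩
  have p1 := AA_pos hN L0 L1 k
  have p2 := AA_pos hN L0 L1 k'
  have p3 := AA_pos hN L0 L1 (k - s)
  have p4 := AA_pos hN L0 L1 (k' - s)
  have r' : AA N L0 L1 (k' - s) / AA N L0 L1 k' ≤
      Real.exp (3 / l) * (AA N L0 L1 (k - s) / AA N L0 L1 k) := by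
    rw [← mul_div_assoc, div_le_div_iff₀ p2 p1]
    linarith
  calc (Test ω (k' - s) : ℝ) / AA N L0 L1 k' =
        (Test ω (k' - s) : ℝ) / AA N L0 L1 (k' - s) * (AA N L0 L1 (k' - s) / AA N L0 L1 k') := by
        field_simp
    _ ≤ ((1 + g / 4) * ((Test ω (k - s) : ℝ) / AA N L0 L1 (k - s))) *
          (Real.exp (3 / l) * (AA N L0 L1 (k - s) / AA N L0 L1 k)) :=
        mul_le_mul hb r' (by positivity) (by positivity)
    _ = (Real.exp (3 / l) * (1 + g / 4)) * ((Test ω (k - s) : ℝ) / AA N L0 L1 k) := by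
        field_simp
    _ ≤ _ := mul_le_mul_of_nonneg_right hlg (by positivity)

lemma up_start (L0 L1 : ℕ) : ∃ C : ℝ, Up FF (fun i => i.1) (fun i => i.2.1) (fun i => i.2.2)
    (fun i => AA i.1 L0 L1 i.2.1) (fun i => AA i.1 L0 L1 i.2.2) C := by
  obtain ⟨K, hK, HK⟩ := cov
  obtain ⟨Cα, hCα, Hα⟩ := alpha
  obtain ⟨Cβ, hCβ, Hβ⟩ := a_le_AA L0 L1
  refine ⟨K * Cα, fun η hη => ?_⟩
  set η' : ℝ := min η (η / Cβ) with hη'
  have hηp : 0 < η' := lt_min hη (by positivity)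
  obtain ⟨w, t0, H⟩ := HK 0 η' hηp
  obtain ⟨t, Ht⟩ := ev_FF.1 (Hα L0 L1 w)
  refine ev_FF.2 ⟨t + t0, ?_⟩
  filter_upwards [Ht, ev_ge 2] with N h hN k k' h1 h2
  rw [add_mul] at h1 h2
  have h' := h k k' (by omega) (by omega)
  have p1 := AA_pos hN L0 L1 k
  have p2 := AA_pos hN L0 L1 k'
  have b := H N hN k k' (by omega) (by omega) (Cα * AA N L0 L1 k' / AA N L0 L1 k) (by positivity)
    (fun s _ hs => by
      have := h' s hs
      rw [div_le_iff₀ p2] at this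
      refine this.trans (le_of_eq ?_)
      field_simp)
  refine le_trans (Pr_mono (elem_BadEv _ _ _ _ _ _) ?_ ?_) (b.trans (min_le_left _ _))
  · exact (elem_TQ k).map₂ (elem_TQ k') fun A B => ∃ x ∈ Q, ∃ y ∈ Q,
      K * (Cα * AA N L0 L1 k' / AA N L0 L1 k) * (dS A {x} {y} : ℝ) + η' * a N k' <
        (dS B {x} {y} : ℝ)
  rintro ω ⟨x, hx, y, hy, hb⟩
  refine ⟨x, hx, y, hy, ?_⟩
  rw [lt_div_iff₀ p2] at hb
  refine lt_of_le_of_lt ?_ hb
  have e1 : η' * a N k' ≤ η * AA N L0 L1 k' := by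
    calc η' * a N k' ≤ η / Cβ * (Cβ * AA N L0 L1 k') :=
          mul_le_mul (min_le_right _ _) (Hβ N hN k') (by positivity) (by positivity)
      _ = _ := by field_simp
  have e2 : K * (Cα * AA N L0 L1 k' / AA N L0 L1 k) * (d ω k x y : ℝ) =
      K * Cα * ((d ω k x y : ℝ) / AA N L0 L1 k) * AA N L0 L1 k' := by field_simp
  rw [e2]
  linarith

end Ph2

open Ph2 in
theorem phase2 (g : ℝ) (hg : 0 < g) : ∃ (A : ℕ → ℕ → ℝ) (Cβ : ℝ), 0 < Cβ ∧
    (∀ N, 2 ≤ N → ∀ k, 0 < A N k ∧ A N k ≤ Cβ * a N k) ∧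
    ∀ η : ℝ, 0 < η → ∃ t : ℕ, ∀ᶠ N in (UF : Filter ℕ), ∀ k k', t * N ≤ k → t * N ≤ k' →
      Pr N (BadEv k k' (A N k) (A N k') (1 + g) η) ≤ η := by
  obtain ⟨ε, hε, Hε⟩ := test_hyp hg
  obtain ⟨Cα, hCα, Hα⟩ := alpha
  obtain ⟨L0, L1, κ, hκ, H⟩ := imp ε (g / 2) Cα 1 hε (by positivity) hCα le_rfl
  obtain ⟨K, hK, HK⟩ := AA_le_a
  obtain ⟨Cβ, hCβ, Hβ⟩ := a_le_AA L0 L1
  obtain ⟨C0, h0⟩ := up_start L0 L1
  refine ⟨fun N k => AA N L0 L1 k, K, hK, fun N hN k => ⟨AA_pos hN _ _ _, HK N hN _ _ _⟩, ?_⟩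
  have hN2 : ∀ t : ℕ, ∀ᶠ i in FF, 2 ≤ i.1 ∧ t * i.1 ≤ i.2.1 ∧ t * i.1 ≤ i.2.2 := fun t =>
    ev_FF.2 ⟨t, (ev_ge 2).mono fun N hN k k' h1 h2 => ⟨hN, h1, h2⟩⟩
  have key : Up FF (fun i => i.1) (fun i => i.2.1) (fun i => i.2.2)
      (fun i => AA i.1 L0 L1 i.2.1) (fun i => AA i.1 L0 L1 i.2.2) (1 + g) := by
    refine descend (U := Up FF (fun i => i.1) (fun i => i.2.1) (fun i => i.2.2)
      (fun i => AA i.1 L0 L1 i.2.1) (fun i => AA i.1 L0 L1 i.2.2)) hκ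
      (fun C C' hC h => Up_mono ((hN2 0).mono fun i hi => (AA_pos hi.1 _ _ _).le) hC h)
      (fun C hC h => ?_) h0
    exact H _ FF _ _ _ _ _ Cβ (1 + g / 2) C hN2 hCβ
      ((hN2 0).mono fun i hi => ⟨Hβ _ hi.1 _, Hβ _ hi.1 _⟩) (Hα L0 L1) (Hε L0 L1)
      (by positivity) (by linarith) h
  exact fun η hη => ev_FF.1 (key η hη)

namespace Ph2

lemma one_dir {ω : Om} {k k' β j j' : ℕ} {A A' a1 a2 g κ Cβ η1 η2 m b : ℝ} (hA : 0 < A)
    (hA' : 0 < A') (hg : 0 < g) (hκ : 0 < κ) (hCβ : 0 < Cβ) (ha2 : 0 < a2) (h1 : A ≤ Cβ * a1)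
    (hη1 : η1 ≤ g * κ / Cβ) (hη2 : η2 ≤ g * κ) (hm : m ≤ Real.exp b) (hb : 0 ≤ b)
    (l1 : ¬ (dc ω k : ℝ) < κ * a1) (l2 : ¬ (dc ω k' : ℝ) < κ * a2)
    (g1 : ¬ BadEv k k' A A' (1 + g) η1 ω)
    (g2 : ¬ ∃ x ∈ Q, ∃ y ∈ Q, η2 * a2 < |(d ω (k' + β) x y : ℝ) - m * d ω k' x y|)
    (hj : k ≤ j) (hj' : j' ≤ k' + β) :
    (dc ω j' : ℝ) * A ≤ Real.exp (3 * g + b) * (dc ω j * A') := by
  unfold BadEv at g1
  push Not at l1 l2 g1 g2
  have s1 : (dc ω k' : ℝ) / A' ≤ (1 + g) * ((dc ω k : ℝ) / A) + η1 := g1 _ c00 _ c11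
  have s2 : (dc ω (k' + β) : ℝ) - m * dc ω k' ≤ η2 * a2 := (abs_le.1 (g2 _ c00 _ c11)).2
  have s3 : (dc ω k : ℝ) ≤ dc ω j := by exact_mod_cast d_mono hj c00 c11
  have s4 : (dc ω j' : ℝ) ≤ dc ω (k' + β) := by exact_mod_cast d_mono hj' c00 c11
  have t1 : η1 ≤ g * ((dc ω k : ℝ) / A) := by
    refine hη1.trans ?_
    rw [mul_div_assoc]
    refine mul_le_mul_of_nonneg_left ?_ hg.le
    rw [div_le_div_iff₀ hCβ hA]
    have := mul_le_mul_of_nonneg_left h1 hκ.le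
    have := mul_le_mul_of_nonneg_left l1 hCβ.le
    linarith
  have t2 : η2 * a2 ≤ g * dc ω k' := by
    have := mul_le_mul_of_nonneg_right hη2 ha2.le
    have := mul_le_mul_of_nonneg_left l2 hg.le
    linarith
  have e1 : 1 + 2 * g ≤ Real.exp (2 * g) := by linarith [Real.add_one_le_exp (2 * g)]
  have e2 : m + g ≤ Real.exp (g + b) := by
    rw [Real.exp_add]
    have := Real.add_one_le_exp g
    have := Real.one_le_exp hb
    nlinarith
  have u1 : (dc ω k' : ℝ) / A' ≤ Real.exp (2 * g) * ((dc ω j : ℝ) / A) := by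
    calc (dc ω k' : ℝ) / A' ≤ (1 + 2 * g) * ((dc ω k : ℝ) / A) := by linarith
      _ ≤ _ := by gcongr
  have u2 : (dc ω j' : ℝ) ≤ Real.exp (g + b) * dc ω k' := by
    calc (dc ω j' : ℝ) ≤ (m + g) * dc ω k' := by linarith
      _ ≤ _ := by gcongr
  rw [← mul_div_assoc, div_le_div_iff₀ hA' hA] at u1
  calc (dc ω j' : ℝ) * A ≤ Real.exp (g + b) * dc ω k' * A := by gcongr
    _ = Real.exp (g + b) * (dc ω k' * A) := by ring
    _ ≤ Real.exp (g + b) * (Real.exp (2 * g) * dc ω j * A') := by gcongr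
    _ = Real.exp (g + b) * Real.exp (2 * g) * (dc ω j * A') := by ring
    _ = _ := by rw [← Real.exp_add]; congr 2; ring

lemma log_le_of {x y A A' e : ℝ} (hx : 0 < x) (hy : 0 < y) (hA : 0 < A) (hA' : 0 < A')
    (h : x * A ≤ Real.exp e * (y * A')) :
    Real.log x - Real.log y - (Real.log A' - Real.log A) ≤ e := by
  have := Real.log_le_log (by positivity) h
  rw [Real.log_mul hx.ne' hA.ne', Real.log_mul (Real.exp_pos _).ne' (by positivity),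
    Real.log_mul hy.ne' hA'.ne', Real.log_exp] at this
  linarith

end Ph2

open Ph2 in
theorem geo_main : ∀ ε : ℝ, 0 < ε → ∃ l : ℕ, 1 ≤ l ∧ ∀ η : ℝ, 0 < η → ∃ t0 : ℕ, ∃ᶠ N in atTop,
    ∀ k k' : ℕ, t0 * N ≤ k → t0 * N ≤ k' → ∃ c : ℝ,
      Pr N (fun ω => ∃ j ∈ Finset.Icc k (k + N / l), ∃ j' ∈ Finset.Icc k' (k' + N / l),
        ε < |Real.log (dc ω j') - Real.log (dc ω j) - c|) ≤ η := by
  intro ε hε
  obtain ⟨n, hn⟩ := exists_nat_ge (4 / ε)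
  have hl : (1 : ℝ) / (n + 1 : ℕ) ≤ ε / 4 := by
    rw [div_le_iff₀ hε] at hn
    rw [div_le_div_iff₀ (by positivity) (by norm_num)]
    push_cast
    nlinarith
  refine ⟨n + 1, by omega, fun η hη => ?_⟩
  set l := n + 1
  have hg : 0 < ε / 4 := by positivity
  set g := ε / 4 with hgd
  obtain ⟨A, Cβ, hCβ, HA, H2⟩ := phase2 g hg
  obtain ⟨m, -, hm, H1⟩ := phase1 l (by omega)
  obtain ⟨κ, hκ, Hκ⟩ := dc_low (η / 6) (by positivity)
  set η1 : ℝ := min (η / 6) (g * κ / Cβ)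
  set η2 : ℝ := min (η / 6) (g * κ)
  obtain ⟨t1, Ht1⟩ := H2 η1 (lt_min (by positivity) (by positivity))
  obtain ⟨t2, Ht2⟩ := H1 η2 (lt_min (by positivity) (by positivity))
  refine ⟨t1 + t2, Frequently.filter_mono (Eventually.frequently (f := (UF : Filter ℕ)) ?_) UF_le⟩
  filter_upwards [Ht1, Ht2, ev_ge 2] with N h1 h2 hN k k' hk hk'
  rw [add_mul] at hk hk'
  refine ⟨Real.log (A N k') - Real.log (A N k), ?_⟩
  have eL : ∀ j, Elem (fun ω => (dc ω j : ℝ) < κ * a N j) := fun j =>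
    (elem_dc j).map fun n : ℕ => (n : ℝ) < κ * a N j
  have eC := fun j => elem_close j (j + N / l) m (η2 * a N j)
  have eB := fun j j' => elem_BadEv j j' (A N j) (A N j') (1 + g) η1
  have eM : Elem (fun ω => ∃ j ∈ Finset.Icc k (k + N / l), ∃ j' ∈ Finset.Icc k' (k' + N / l),
      ε < |Real.log (dc ω j') - Real.log (dc ω j) - (Real.log (A N k') - Real.log (A N k))|) :=
    Elem.ex _ fun j _ => Elem.ex _ fun j' _ => (elem_dc j').map₂ (elem_dc j) fun x y : ℕ =>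
      ε < |Real.log x - Real.log y - (Real.log (A N k') - Real.log (A N k))|
  have b1 := Hκ N hN k
  have b2 := Hκ N hN k'
  have b3 := (h1 k k' (by omega) (by omega)).trans (min_le_left _ _)
  have b4 := (h1 k' k (by omega) (by omega)).trans (min_le_left _ _)
  have b5 := (h2 k (by omega)).trans (min_le_left _ _)
  have b6 := (h2 k' (by omega)).trans (min_le_left _ _)
  have c1 := Pr_le_add (N := N) ((eL k).or (eL k')) (eL k) (eL k') fun _ h => h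
  have c2 := Pr_le_add (N := N) ((eB k k').or (eB k' k)) (eB k k') (eB k' k) fun _ h => h
  have c3 := Pr_le_add (N := N) ((eC k).or (eC k')) (eC k) (eC k') fun _ h => h
  have c4 := Pr_le_add (N := N) (((eB k k').or (eB k' k)).or ((eC k).or (eC k')))
    ((eB k k').or (eB k' k)) ((eC k).or (eC k')) fun _ h => h
  have c5 := Pr_le_add (N := N) eM ((eL k).or (eL k'))
    (((eB k k').or (eB k' k)).or ((eC k).or (eC k'))) (by
      rintro ω ⟨j, hj, j', hj', hb⟩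
      by_contra hcon
      simp only [not_or] at hcon
      obtain ⟨⟨l1, l2⟩, ⟨g1, g2⟩, g3, g4⟩ := hcon
      rw [Finset.mem_Icc] at hj hj'
      have pA := (HA N hN k).1
      have pA' := (HA N hN k').1
      have d1 := one_dir pA pA' hg hκ hCβ (a_pos N k') (HA N hN k).2 (min_le_right _ _)
        (min_le_right _ _) hm (by positivity) l1 l2 g1 g4 hj.1 hj'.2
      have d2 := one_dir pA' pA hg hκ hCβ (a_pos N k) (HA N hN k').2 (min_le_right _ _)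
        (min_le_right _ _) hm (by positivity) l2 l1 g2 g3 hj'.1 hj.2
      have q1 : (0 : ℝ) < dc ω j := by
        have : (dc ω k : ℝ) ≤ dc ω j := by exact_mod_cast d_mono hj.1 c00 c11
        have := mul_pos hκ (a_pos N k)
        linarith [not_lt.1 l1]
      have q2 : (0 : ℝ) < dc ω j' := by
        have : (dc ω k' : ℝ) ≤ dc ω j' := by exact_mod_cast d_mono hj'.1 c00 c11
        have := mul_pos hκ (a_pos N k')
        linarith [not_lt.1 l2]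
      have f1 := log_le_of q2 q1 pA pA' d1
      have f2 := log_le_of q1 q2 pA' pA d2
      refine absurd hb (not_lt.2 (abs_le.2 ⟨?_, ?_⟩)) <;> linarith)
  linarith

end Pool.Agent.P.MP_8c7dae_pr
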