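import Pool.Agent.P.MP_8c7dae_pr.Phase1

open MeasureTheory Set Filter

namespace Pool.Agent.P.MP_8c7dae_pr

namespace Ph2

lemma reach_Q {ω : Om} {k n : ℕ} {x y : Pt} (h : Reach (TQ ω k) n x y) :
    x = y ∨ (x ∈ Q ∧ y ∈ Q) := by
  induction h with
  | refl n x => exact Or.inl rfl
  | step _ hv hy hz ih =>
    have hs := (mem_TQ.1 hv).2.sq_sub
    rcases ih with h | h
    · exact Or.inr ⟨h ▸ hs hy, hs hz⟩
    · exact Or.inr ⟨h.1, hs hz⟩

lemma Test_geod (ω : Om) (k : ℕ) :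
    ∃ x ∈ Q, ∃ y ∈ Q, x ∈ L0 ∧ y ∈ L1 ∧ d ω k x y ≤ Test ω k := by
  obtain ⟨x, hx, y, hy, h⟩ := (conn_Test (ω := ω) (k := k)).spec
  rcases reach_Q h with e | e
  · exfalso
    have h1 : x.1 = 0 := hx
    have h2 : y.1 = 1 := hy
    rw [e, h2] at h1
    exact one_ne_zero h1
  · exact ⟨x, e.1, y, e.2, hx, hy, d_le h⟩

lemma Test_le_d {ω : Om} {k : ℕ} {x y : Pt} (hx : x ∈ Q) (hy : y ∈ Q) (h0 : x ∈ L0)
    (h1 : y ∈ L1) : Test ω k ≤ d ω k x y := dS_le h0 h1 (d_spec hx hy)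

lemma Test_close {ω : Om} {k k' : ℕ} {m e : ℝ} (hm : 0 ≤ m)
    (h : ¬ ∃ x ∈ Q, ∃ y ∈ Q, e < |(d ω k' x y : ℝ) - m * d ω k x y|) :
    (Test ω k' : ℝ) ≤ m * Test ω k + e ∧ m * Test ω k ≤ Test ω k' + e := by
  push Not at h
  constructor
  · obtain ⟨x, hx, y, hy, h0, h1, hd⟩ := Test_geod ω k
    have a1 : (Test ω k' : ℝ) ≤ d ω k' x y := by exact_mod_cast Test_le_d hx hy h0 h1
    have a2 : (d ω k x y : ℝ) ≤ Test ω k := by exact_mod_cast hd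
    have a3 := (abs_le.1 (h x hx y hy)).2
    have a4 := mul_le_mul_of_nonneg_left a2 hm
    linarith
  · obtain ⟨x, hx, y, hy, h0, h1, hd⟩ := Test_geod ω k'
    have a1 : (Test ω k : ℝ) ≤ d ω k x y := by exact_mod_cast Test_le_d hx hy h0 h1
    have a2 : (d ω k' x y : ℝ) ≤ Test ω k' := by exact_mod_cast hd
    have a3 := (abs_le.1 (h x hx y hy)).1
    have a4 := mul_le_mul_of_nonneg_left a1 hm
    linarith

lemma elem_close (k k' : ℕ) (m e : ℝ) :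
    Elem (fun ω => ∃ x ∈ Q, ∃ y ∈ Q, e < |(d ω k' x y : ℝ) - m * d ω k x y|) :=
  (elem_TQ k).map₂ (elem_TQ k') fun A B => ∃ x ∈ Q, ∃ y ∈ Q,
    e < |(dS B {x} {y} : ℝ) - m * dS A {x} {y}|

/-- the conditional mean of the crossing given the gadget event -/
noncomputable def AA (N L0 L1 k : ℕ) : ℝ :=
  E N (fun ω => ind (Gad N L0 1 L1 ω) * (Test ω k : ℝ)) / Pr N (Gad N L0 1 L1)

lemma G_pos (L0 L1 : ℕ) : ∃ γ : ℝ, 0 < γ ∧ ∀ N, 2 ≤ N → γ ≤ Pr N (Gad N L0 1 L1) := by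
  obtain ⟨γ1, h1, H1⟩ := Gtop_lb L0 1 le_rfl
  obtain ⟨γ2, h2, H2⟩ := Gcore_lb L1
  refine ⟨γ1 * γ2, mul_pos h1 h2, fun N hN => ?_⟩
  rw [Gad_prob]
  exact mul_le_mul (H1 N hN) (H2 N hN) h2.le (Pr_nonneg _)

lemma PG_pos {N : ℕ} (hN : 2 ≤ N) (L0 L1 : ℕ) : 0 < Pr N (Gad N L0 1 L1) := by
  obtain ⟨γ, h, H⟩ := G_pos L0 L1
  exact h.trans_le (H N hN)

lemma nice_GT (N L0 L1 k : ℕ) : Nice (fun ω => ind (Gad N L0 1 L1 ω) * (Test ω k : ℝ)) :=
  (elem_Gad N L0 1 L1).ind.mul (elem_Test k).cast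

lemma nice_GT2 (N L0 L1 k : ℕ) : Nice (fun ω => ind (Gad N L0 1 L1 ω) * (Test ω k : ℝ) ^ 2) :=
  (elem_Gad N L0 1 L1).ind.mul ((elem_Test k).cast.pow 2)

lemma E_eq {N : ℕ} (hN : 2 ≤ N) (L0 L1 k : ℕ) :
    E N (fun ω => ind (Gad N L0 1 L1 ω) * (Test ω k : ℝ)) =
      AA N L0 L1 k * Pr N (Gad N L0 1 L1) := by
  unfold AA
  rw [div_mul_cancel₀ _ (PG_pos hN L0 L1).ne']

lemma AA_mono {N : ℕ} (L0 L1 : ℕ) {k k' : ℕ} (h : k ≤ k') : AA N L0 L1 k ≤ AA N L0 L1 k' := by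
  unfold AA
  refine div_le_div_of_nonneg_right ?_ (Pr_nonneg _)
  refine E_mono (nice_GT _ _ _ _) (nice_GT _ _ _ _) fun ω => ?_
  exact mul_le_mul_of_nonneg_left (by exact_mod_cast Test_mono h) (ind_nonneg _)

lemma a_pos (N k : ℕ) : (0 : ℝ) < a N k := by exact_mod_cast one_le_a N k

lemma a_shift : ∃ U : ℝ, 0 ≤ U ∧ ∀ N, 2 ≤ N → ∀ k k' w : ℕ, k' ≤ k + w * N →
    (a N k' : ℝ) ≤ Real.exp (U + w) * a N k := by
  obtain ⟨U, hU, H⟩ := a_grow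
  refine ⟨U, hU, fun N hN k k' w h => ?_⟩
  have h1 : (a N k' : ℝ) ≤ a N (k + w * N) := by exact_mod_cast a_mono N h
  have h2 := H N hN k (w * N)
  have e : q N * ((w * N : ℕ) : ℝ) = w := by
    push_cast
    rw [mul_comm (w : ℝ), ← mul_assoc, q_mul hN, one_mul]
  rw [e] at h2
  exact h1.trans h2

lemma le_sq_add {y θ b : ℝ} (hθ : 0 < θ) (hb : 0 < b) : y ≤ θ / b * y ^ 2 + b / θ := by
  have h : 0 < θ / b := div_pos hθ hb
  have e : b / θ = 1 / (θ / b) := by field_simp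
  rw [e]
  generalize θ / b = c at h
  have h2 : c * y ^ 2 + 1 / c - y = ((c * y - 1 / 2) ^ 2 + 3 / 4) / c := by
    field_simp
    ring
  have h3 : 0 ≤ ((c * y - 1 / 2) ^ 2 + 3 / 4) / c := by positivity
  linarith

lemma AA_bounds : ∃ κ K CY : ℝ, 0 < κ ∧ 0 < K ∧ 0 < CY ∧ ∀ N, 2 ≤ N → ∀ L0 L1 k : ℕ,
    κ * a N (k - (L0 + L1) * N) ≤ AA N L0 L1 k ∧ AA N L0 L1 k ≤ K * a N (k - (L0 + L1) * N) ∧
      E N (fun ω => ind (Gad N L0 1 L1 ω) * (Test ω k : ℝ) ^ 2) ≤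
        CY * Pr N (Gad N L0 1 L1) * AA N L0 L1 k ^ 2 := by
  obtain ⟨C2, hC2, H2⟩ := Gad_Test2
  obtain ⟨κ, hκ, Hκ⟩ := Gad_TestLo (ε := 1 / 2) (by norm_num)
  obtain ⟨U, hU, HU⟩ := a_shift
  set κ' : ℝ := κ / (2 * Real.exp (U + (4 : ℕ))) with hκ'
  have hκp : 0 < κ' := by positivity
  refine ⟨κ', C2 + 1, C2 / κ' ^ 2, hκp, by positivity, by positivity, fun N hN L0 L1 k => ?_⟩
  have hP := PG_pos hN L0 L1
  have hb := a_pos N (k - (L0 + L1) * N)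
  have hG := elem_Gad N L0 1 L1
  have lo : κ' * a N (k - (L0 + L1) * N) ≤ AA N L0 L1 k := by
    set a' : ℝ := (a N (k - (L0 + 1 + L1 + 3) * N) : ℝ) with ha'
    have hlow : Elem (fun ω => Gad N L0 1 L1 ω ∧ (Test ω k : ℝ) < κ * a') :=
      hG.and ((elem_Test k).map fun n : ℕ => (n : ℝ) < κ * a')
    have ha'p : 0 < a' := a_pos _ _
    have h1 : E N (fun ω => κ * a' * (ind (Gad N L0 1 L1 ω) -
        ind (Gad N L0 1 L1 ω ∧ (Test ω k : ℝ) < κ * a'))) ≤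
        E N (fun ω => ind (Gad N L0 1 L1 ω) * (Test ω k : ℝ)) := by
      refine E_mono ((hG.ind.sub hlow.ind).cmul _) (nice_GT _ _ _ _) fun ω => ?_
      by_cases g : Gad N L0 1 L1 ω
      · by_cases l : (Test ω k : ℝ) < κ * a'
        · rw [ind_pos g, ind_pos ⟨g, l⟩]
          simp
        · rw [ind_pos g, ind_neg (fun h => l h.2)]
          push Not at l
          linarith
      · rw [ind_neg g, ind_neg (fun h => g h.1)]
        simp
    rw [E_cmul, E_sub hG.ind hlow.ind, E_eq hN] at h1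
    have h2 := Hκ N hN L0 1 L1 k
    have h3 : κ * a' * (Pr N (Gad N L0 1 L1) / 2) ≤ AA N L0 L1 k * Pr N (Gad N L0 1 L1) := by
      refine le_trans (mul_le_mul_of_nonneg_left ?_ (by positivity)) h1
      unfold Pr at h2 ⊢
      linarith
    have h4 : κ * a' / 2 ≤ AA N L0 L1 k := by
      refine le_of_mul_le_mul_right ?_ hP
      linarith
    have h5 := HU N hN (k - (L0 + 1 + L1 + 3) * N) (k - (L0 + L1) * N) 4 (by
      have : (L0 + 1 + L1 + 3) * N = (L0 + L1) * N + 4 * N := by ring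
      omega)
    refine le_trans ?_ h4
    have he := Real.exp_pos (U + (4 : ℕ))
    calc κ' * a N (k - (L0 + L1) * N) ≤ κ' * (Real.exp (U + (4 : ℕ)) * a') :=
          mul_le_mul_of_nonneg_left h5 hκp.le
      _ = κ * a' / 2 := by rw [hκ']; field_simp
  have h2 := H2 N hN L0 1 L1 k
  refine ⟨lo, ?_, ?_⟩
  · set b : ℝ := (a N (k - (L0 + L1) * N) : ℝ)
    have h1 : E N (fun ω => ind (Gad N L0 1 L1 ω) * (Test ω k : ℝ)) ≤
        E N (fun ω => 1 / b * (ind (Gad N L0 1 L1 ω) * (Test ω k : ℝ) ^ 2) +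
          b * ind (Gad N L0 1 L1 ω)) := by
      refine E_mono (nice_GT _ _ _ _) (((nice_GT2 _ _ _ _).cmul _).add (hG.ind.cmul _)) fun ω => ?_
      have := mul_le_mul_of_nonneg_left (le_sq_add (y := (Test ω k : ℝ)) one_pos hb)
        (ind_nonneg (Gad N L0 1 L1 ω))
      linarith
    rw [E_add ((nice_GT2 _ _ _ _).cmul _) (hG.ind.cmul _), E_cmul, E_cmul, E_eq hN] at h1
    have h3 : 1 / b * E N (fun ω => ind (Gad N L0 1 L1 ω) * (Test ω k : ℝ) ^ 2) ≤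
        C2 * b * Pr N (Gad N L0 1 L1) := by
      calc _ ≤ 1 / b * (C2 * Pr N (Gad N L0 1 L1) * b ^ 2) :=
            mul_le_mul_of_nonneg_left h2 (by positivity)
        _ = _ := by field_simp
    refine le_of_mul_le_mul_right ?_ hP
    unfold Pr at h1 h3 ⊢
    linarith
  · refine h2.trans ?_
    have h3 : (κ' * a N (k - (L0 + L1) * N)) ^ 2 ≤ AA N L0 L1 k ^ 2 :=
      pow_le_pow_left₀ (by positivity) lo 2
    calc C2 * Pr N (Gad N L0 1 L1) * (a N (k - (L0 + L1) * N) : ℝ) ^ 2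
        = C2 / κ' ^ 2 * Pr N (Gad N L0 1 L1) * (κ' * a N (k - (L0 + L1) * N)) ^ 2 := by
          field_simp
      _ ≤ _ := mul_le_mul_of_nonneg_left h3 (by positivity)

lemma AA_pos {N : ℕ} (hN : 2 ≤ N) (L0 L1 k : ℕ) : 0 < AA N L0 L1 k := by
  obtain ⟨κ, K, CY, h1, -, -, H⟩ := AA_bounds
  exact lt_of_lt_of_le (mul_pos h1 (a_pos _ _)) (H N hN L0 L1 k).1

lemma trunc : ∃ CY : ℝ, 0 < CY ∧ ∀ N, 2 ≤ N → ∀ (L0 L1 k : ℕ) (B : Om → Prop), Elem B →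
    ∀ θ : ℝ, 0 < θ → E N (fun ω => ind (Gad N L0 1 L1 ω ∧ B ω) * (Test ω k : ℝ)) ≤
      (θ * CY * Pr N (Gad N L0 1 L1) + Pr N (fun ω => Gad N L0 1 L1 ω ∧ B ω) / θ) *
        AA N L0 L1 k := by
  obtain ⟨κ, K, CY, -, -, hCY, H⟩ := AA_bounds
  refine ⟨CY, hCY, fun N hN L0 L1 k B hB θ hθ => ?_⟩
  have hA := AA_pos hN L0 L1 k
  have hGB := (elem_Gad N L0 1 L1).and hB
  have h2 := (H N hN L0 L1 k).2.2
  set A := AA N L0 L1 k
  have h1 : E N (fun ω => ind (Gad N L0 1 L1 ω ∧ B ω) * (Test ω k : ℝ)) ≤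
      E N (fun ω => θ / A * (ind (Gad N L0 1 L1 ω) * (Test ω k : ℝ) ^ 2) +
        A / θ * ind (Gad N L0 1 L1 ω ∧ B ω)) := by
    refine E_mono (hGB.ind.mul (elem_Test k).cast)
      (((nice_GT2 _ _ _ _).cmul _).add (hGB.ind.cmul _)) fun ω => ?_
    by_cases g : Gad N L0 1 L1 ω ∧ B ω
    · rw [ind_pos g, ind_pos g.1]
      have := le_sq_add (y := (Test ω k : ℝ)) hθ hA
      linarith
    · rw [ind_neg g]
      have := ind_nonneg (Gad N L0 1 L1 ω)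
      have : 0 ≤ θ / A * (ind (Gad N L0 1 L1 ω) * (Test ω k : ℝ) ^ 2) := by positivity
      linarith
  rw [E_add ((nice_GT2 _ _ _ _).cmul _) (hGB.ind.cmul _), E_cmul, E_cmul] at h1
  have h3 : θ / A * E N (fun ω => ind (Gad N L0 1 L1 ω) * (Test ω k : ℝ) ^ 2) ≤
      θ * CY * Pr N (Gad N L0 1 L1) * A := by
    calc _ ≤ θ / A * (CY * Pr N (Gad N L0 1 L1) * A ^ 2) :=
          mul_le_mul_of_nonneg_left h2 (by positivity)
      _ = _ := by field_simp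
  have e : A / θ * Pr N (fun ω => Gad N L0 1 L1 ω ∧ B ω) =
      Pr N (fun ω => Gad N L0 1 L1 ω ∧ B ω) / θ * A := by ring
  unfold Pr at h3 e ⊢
  linarith

lemma eps_lemma {δ : ℝ} (hδ : 0 < δ) : ∃ ε : ℝ, 0 < ε ∧ ∀ N, 2 ≤ N → ∀ L0 L1 j1 j2 : ℕ,
    ε * Pr N (Gad N L0 1 L1) ≤ Pr N (fun ω => Gad N L0 1 L1 ω ∧
      (Test ω j2 : ℝ) / AA N L0 L1 j2 ≤ (1 + δ) * ((Test ω j1 : ℝ) / AA N L0 L1 j1)) := by
  obtain ⟨CY, hCY, H⟩ := trunc
  set θ : ℝ := δ / (2 * (1 + δ) * CY) with hθ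
  have hθp : 0 < θ := by positivity
  refine ⟨δ * θ / (2 * (1 + δ)), by positivity, fun N hN L0 L1 j1 j2 => ?_⟩
  have hA1 := AA_pos hN L0 L1 j1
  have hA2 := AA_pos hN L0 L1 j2
  have hG := elem_Gad N L0 1 L1
  set A1 := AA N L0 L1 j1 with hA1d
  set A2 := AA N L0 L1 j2 with hA2d
  have hB : Elem (fun ω => (Test ω j2 : ℝ) / A2 ≤ (1 + δ) * ((Test ω j1 : ℝ) / A1)) :=
    (elem_Test j2).map₂ (elem_Test j1) fun n m : ℕ => (n : ℝ) / A2 ≤ (1 + δ) * ((m : ℝ) / A1)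
  have hGB := hG.and hB
  have h1 := H N hN L0 L1 j1 _ hB θ hθp
  have h2 : E N (fun ω => (1 + δ) / A1 * (ind (Gad N L0 1 L1 ω) * (Test ω j1 : ℝ))) ≤
      E N (fun ω => 1 / A2 * (ind (Gad N L0 1 L1 ω) * (Test ω j2 : ℝ)) +
        (1 + δ) / A1 * (ind (Gad N L0 1 L1 ω ∧
          (Test ω j2 : ℝ) / A2 ≤ (1 + δ) * ((Test ω j1 : ℝ) / A1)) * (Test ω j1 : ℝ))) := by
    refine E_mono ((nice_GT _ _ _ _).cmul _) (((nice_GT _ _ _ _).cmul _).add
      ((hGB.ind.mul (elem_Test j1).cast).cmul _)) fun ω => ?_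
    by_cases g : Gad N L0 1 L1 ω
    · by_cases b : (Test ω j2 : ℝ) / A2 ≤ (1 + δ) * ((Test ω j1 : ℝ) / A1)
      · rw [ind_pos g, ind_pos ⟨g, b⟩]
        have : 0 ≤ 1 / A2 * (1 * (Test ω j2 : ℝ)) := by positivity
        linarith
      · rw [ind_pos g, ind_neg (fun h => b h.2)]
        push Not at b
        have e1 : (1 + δ) / A1 * (1 * (Test ω j1 : ℝ)) = (1 + δ) * ((Test ω j1 : ℝ) / A1) := by
          ring
        have e2 : 1 / A2 * (1 * (Test ω j2 : ℝ)) = (Test ω j2 : ℝ) / A2 := by ring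
        rw [e1, e2]
        linarith
    · rw [ind_neg g, ind_neg (fun h => g h.1)]
      simp
  rw [E_add ((nice_GT _ _ _ _).cmul _) ((hGB.ind.mul (elem_Test j1).cast).cmul _), E_cmul, E_cmul,
    E_cmul, E_eq hN, E_eq hN, ← hA1d, ← hA2d] at h2
  set P := Pr N (Gad N L0 1 L1)
  set P' := Pr N (fun ω => Gad N L0 1 L1 ω ∧
      (Test ω j2 : ℝ) / A2 ≤ (1 + δ) * ((Test ω j1 : ℝ) / A1))
  have h3 := mul_le_mul_of_nonneg_left h1 (by positivity : 0 ≤ (1 + δ) / A1)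
  have e1 : (1 + δ) / A1 * (A1 * P) = (1 + δ) * P := by field_simp
  have e2 : 1 / A2 * (A2 * P) = P := by field_simp
  have e3 : (1 + δ) / A1 * ((θ * CY * P + P' / θ) * A1) = δ / 2 * P + (1 + δ) / θ * P' := by
    rw [hθ]; field_simp
  rw [e1, e2] at h2
  rw [e3] at h3
  have h4 : δ / 2 * P ≤ (1 + δ) / θ * P' := by linarith
  calc δ * θ / (2 * (1 + δ)) * P = θ / (1 + δ) * (δ / 2 * P) := by field_simp
    _ ≤ θ / (1 + δ) * ((1 + δ) / θ * P') := mul_le_mul_of_nonneg_left h4 (by positivity)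
    _ = P' := by field_simp

lemma a_le_AA (L0 L1 : ℕ) : ∃ Cβ : ℝ, 0 < Cβ ∧ ∀ N, 2 ≤ N → ∀ k,
    (a N k : ℝ) ≤ Cβ * AA N L0 L1 k := by
  obtain ⟨κ, K, CY, hκ, -, -, H⟩ := AA_bounds
  obtain ⟨U, hU, HU⟩ := a_shift
  refine ⟨Real.exp (U + (L0 + L1 : ℕ)) / κ, by positivity, fun N hN k => ?_⟩
  have h1 := HU N hN (k - (L0 + L1) * N) k (L0 + L1) (by omega)
  have h2 := (H N hN L0 L1 k).1
  calc (a N k : ℝ) ≤ Real.exp (U + (L0 + L1 : ℕ)) / κ * (κ * a N (k - (L0 + L1) * N)) := by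
        refine h1.trans (le_of_eq ?_)
        field_simp
    _ ≤ _ := mul_le_mul_of_nonneg_left h2 (by positivity)

lemma AA_le_a : ∃ K : ℝ, 0 < K ∧ ∀ N, 2 ≤ N → ∀ L0 L1 k, AA N L0 L1 k ≤ K * a N k := by
  obtain ⟨κ, K, CY, -, hK, -, H⟩ := AA_bounds
  refine ⟨K, hK, fun N hN L0 L1 k => (H N hN L0 L1 k).2.1.trans ?_⟩
  exact mul_le_mul_of_nonneg_left (by exact_mod_cast a_mono N (Nat.sub_le _ _)) hK.le

lemma one_side {N : ℕ} (hN : 2 ≤ N) (L0 L1 k k' : ℕ) {B : Om → Prop} (hB : Elem B) {u v e : ℝ}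
    (hv : 0 ≤ v) (he : 0 ≤ e)
    (h : ∀ ω, ¬ B ω → u * (Test ω k : ℝ) ≤ v * Test ω k' + e) :
    u * AA N L0 L1 k * Pr N (Gad N L0 1 L1) ≤ (v * AA N L0 L1 k' + e) * Pr N (Gad N L0 1 L1) +
      u * E N (fun ω => ind (Gad N L0 1 L1 ω ∧ B ω) * (Test ω k : ℝ)) := by
  have hG := elem_Gad N L0 1 L1
  have hGB := hG.and hB
  have h1 : E N (fun ω => u * (ind (Gad N L0 1 L1 ω) * (Test ω k : ℝ))) ≤
      E N (fun ω => (v * (ind (Gad N L0 1 L1 ω) * (Test ω k' : ℝ)) + e * ind (Gad N L0 1 L1 ω)) +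
        u * (ind (Gad N L0 1 L1 ω ∧ B ω) * (Test ω k : ℝ))) := by
    refine E_mono ((nice_GT _ _ _ _).cmul _) ((((nice_GT _ _ _ _).cmul _).add (hG.ind.cmul _)).add
      ((hGB.ind.mul (elem_Test k).cast).cmul _)) fun ω => ?_
    by_cases g : Gad N L0 1 L1 ω
    · by_cases b : B ω
      · rw [ind_pos g, ind_pos ⟨g, b⟩]
        have : 0 ≤ v * (1 * (Test ω k' : ℝ)) := by positivity
        linarith
      · rw [ind_pos g, ind_neg (fun h => b h.2)]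
        have := h ω b
        linarith
    · rw [ind_neg g, ind_neg (fun h => g h.1)]
      simp
  rw [E_add (((nice_GT _ _ _ _).cmul _).add (hG.ind.cmul _))
    ((hGB.ind.mul (elem_Test k).cast).cmul _), E_add ((nice_GT _ _ _ _).cmul _) (hG.ind.cmul _),
    E_cmul, E_cmul, E_cmul, E_cmul, E_eq hN, E_eq hN] at h1
  unfold Pr at h1 ⊢
  linarith

lemma ev_ge (n : ℕ) : ∀ᶠ N in (UF : Filter ℕ), n ≤ N := UF_le (eventually_ge_atTop n)

/-- the statement of phase one -/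
def P1 (l : ℕ) (m : ℝ) : Prop :=
  ∀ η : ℝ, 0 < η → ∃ t : ℕ, ∀ᶠ N in (UF : Filter ℕ), ∀ k, t * N ≤ k →
    Pr N (fun ω => ∃ x ∈ Q, ∃ y ∈ Q,
      η * a N k < |(d ω (k + N / l) x y : ℝ) - m * d ω k x y|) ≤ η

lemma A_step {l : ℕ} {m : ℝ} (hm : 1 ≤ m) (H : P1 l m) (L0 L1 : ℕ) {δ : ℝ} (hδ : 0 < δ) :
    ∃ t : ℕ, ∀ᶠ N in (UF : Filter ℕ), ∀ k, t * N ≤ k →
      AA N L0 L1 (k + N / l) ≤ (1 + δ) * (m * AA N L0 L1 k) ∧
        m * AA N L0 L1 k ≤ (1 + δ) * AA N L0 L1 (k + N / l) := by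
  obtain ⟨CY, hCY, HT⟩ := trunc
  obtain ⟨γ, hγ, Hγ⟩ := G_pos L0 L1
  obtain ⟨Cβ, hCβ, Hβ⟩ := a_le_AA L0 L1
  set ρ : ℝ := δ / (2 * (1 + δ)) with hρ
  have hρp : 0 < ρ := by positivity
  set θ : ℝ := ρ / (2 * CY) with hθ
  have hθp : 0 < θ := by positivity
  set η : ℝ := min (ρ * θ * γ / 2) (ρ / Cβ) with hη
  have hηp : 0 < η := lt_min (by positivity) (by positivity)
  obtain ⟨t, Ht⟩ := H η hηp
  refine ⟨t, ?_⟩
  filter_upwards [Ht, ev_ge 2] with N h hN k hk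
  have hB := elem_close k (k + N / l) m (η * a N k)
  have hb := h k hk
  set B := fun ω => ∃ x ∈ Q, ∃ y ∈ Q,
      η * a N k < |(d ω (k + N / l) x y : ℝ) - m * d ω k x y| with hBd
  have hP := PG_pos hN L0 L1
  have hγP := Hγ N hN
  have hGB : Pr N (fun ω => Gad N L0 1 L1 ω ∧ B ω) ≤ η :=
    (Pr_mono ((elem_Gad N L0 1 L1).and hB) hB fun ω h => h.2).trans hb
  have key : θ * CY * Pr N (Gad N L0 1 L1) + Pr N (fun ω => Gad N L0 1 L1 ω ∧ B ω) / θ ≤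
      ρ * Pr N (Gad N L0 1 L1) := by
    have e1 : θ * CY = ρ / 2 := by rw [hθ]; field_simp
    have e2 : Pr N (fun ω => Gad N L0 1 L1 ω ∧ B ω) / θ ≤ ρ / 2 * Pr N (Gad N L0 1 L1) := by
      rw [div_le_iff₀ hθp]
      have : η ≤ ρ * θ * γ / 2 := min_le_left _ _
      have := mul_le_mul_of_nonneg_left hγP (by positivity : 0 ≤ ρ * θ / 2)
      linarith
    rw [e1]
    linarith
  have hA := AA_pos hN L0 L1 k
  have hA' := AA_pos hN L0 L1 (k + N / l)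
  have he : 0 ≤ η * a N k := by positivity
  have hea : η * a N k ≤ ρ * (m * AA N L0 L1 k) := by
    have h1 : η ≤ ρ / Cβ := min_le_right _ _
    calc η * a N k ≤ ρ / Cβ * (Cβ * AA N L0 L1 k) :=
          mul_le_mul h1 (Hβ N hN k) (by positivity) (by positivity)
      _ = ρ * (1 * AA N L0 L1 k) := by field_simp
      _ ≤ _ := by gcongr
  have t1 := (HT N hN L0 L1 k B hB θ hθp).trans (mul_le_mul_of_nonneg_right key hA.le)
  have t2 := (HT N hN L0 L1 (k + N / l) B hB θ hθp).trans (mul_le_mul_of_nonneg_right key hA'.le)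
  have s1 := one_side hN L0 L1 (k + N / l) k hB (u := 1) (v := m) (by linarith) he
    (fun ω hω => by simpa using (Test_close (by linarith) hω).1)
  have s2 := one_side hN L0 L1 k (k + N / l) hB (u := m) (v := 1) zero_le_one he
    (fun ω hω => by simpa using (Test_close (by linarith) hω).2)
  set A := AA N L0 L1 k
  set A' := AA N L0 L1 (k + N / l)
  set P := Pr N (Gad N L0 1 L1)
  have u1 : A' ≤ m * A + η * a N k + ρ * A' := by
    refine le_of_mul_le_mul_right ?_ hP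
    linarith
  have u2 : m * A ≤ A' + η * a N k + ρ * (m * A) := by
    refine le_of_mul_le_mul_right ?_ hP
    have := mul_le_mul_of_nonneg_left t1 (by linarith : 0 ≤ m)
    linarith
  have hmA : 0 < m * A := by positivity
  have r1 : (1 + δ) * (1 - 2 * ρ) = 1 := by rw [hρ]; field_simp; ring
  have r2 : ρ ≤ 1 / 2 := by
    rw [hρ, div_le_div_iff₀ (by positivity) (by norm_num)]
    linarith
  constructor
  · have v1 : (1 - ρ) * A' ≤ (1 + ρ) * (m * A) := by linarith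
    have v2 : 1 + ρ ≤ (1 + δ) * (1 - ρ) := by nlinarith
    have v3 : (1 - ρ) * A' ≤ (1 - ρ) * ((1 + δ) * (m * A)) := by
      have := mul_le_mul_of_nonneg_right v2 hmA.le
      linarith
    exact le_of_mul_le_mul_left v3 (by linarith)
  · have v1 : (1 - 2 * ρ) * (m * A) ≤ A' := by linarith
    have := mul_le_mul_of_nonneg_left v1 (by positivity : 0 ≤ 1 + δ)
    rw [← mul_assoc, r1, one_mul] at this
    exact this

lemma iter {f : ℕ → ℝ} {T β : ℕ} {m c : ℝ} (hm : 0 ≤ m) (hc : 0 ≤ c)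
    (h : ∀ k, T ≤ k → f (k + β) ≤ c * (m * f k) ∧ m * f k ≤ c * f (k + β)) (n : ℕ) {k : ℕ}
    (hk : T ≤ k) : f (k + n * β) ≤ c ^ n * (m ^ n * f k) ∧ m ^ n * f k ≤ c ^ n * f (k + n * β) := by
  induction n with
  | zero => simp
  | succ n ih =>
    obtain ⟨h1, h2⟩ := h (k + n * β) (by omega)
    have e : k + (n + 1) * β = k + n * β + β := by ring
    rw [e]
    constructor
    · calc f (k + n * β + β) ≤ c * (m * f (k + n * β)) := h1
        _ ≤ c * (m * (c ^ n * (m ^ n * f k))) := by gcongr; exact ih.1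
        _ = _ := by ring
    · calc m ^ (n + 1) * f k = m * (m ^ n * f k) := by ring
        _ ≤ m * (c ^ n * f (k + n * β)) := mul_le_mul_of_nonneg_left ih.2 hm
        _ = c ^ n * (m * f (k + n * β)) := by ring
        _ ≤ c ^ n * (c * f (k + n * β + β)) := by gcongr
        _ = _ := by ring

lemma div_bound {N l w u : ℕ} (hl : 1 ≤ l) (hN : l ≤ N) (hu : u ≤ w * N) :
    1 ≤ N / l ∧ u / (N / l) ≤ 2 * l * w := by
  have h1 : 1 ≤ N / l := (Nat.le_div_iff_mul_le hl).2 (by omega)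
  refine ⟨h1, Nat.div_le_of_le_mul ?_⟩
  have h2 : N < l * (N / l + 1) := Nat.lt_mul_div_succ N hl
  have h3 : N ≤ l * (2 * (N / l)) := h2.le.trans (Nat.mul_le_mul_left _ (by omega))
  calc u ≤ w * N := hu
    _ ≤ w * (l * (2 * (N / l))) := Nat.mul_le_mul_left _ h3
    _ = _ := by ring

lemma ratio (l : ℕ) (hl : 1 ≤ l) (L0 L1 w : ℕ) : ∃ t : ℕ, ∀ᶠ N in (UF : Filter ℕ),
    ∀ j1 j2 u u', t * N ≤ j1 → t * N ≤ j2 → u ≤ w * N → u' ≤ w * N →
      AA N L0 L1 (j2 + u) * AA N L0 L1 (j1 + u') ≤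
        Real.exp (3 / l) * (AA N L0 L1 (j1 + u) * AA N L0 L1 (j2 + u')) := by
  obtain ⟨m, hm1, hm2, H⟩ := phase1 l hl
  have hlp : (0 : ℝ) < l := by exact_mod_cast hl
  set n0 : ℕ := 2 * l * w + 1 with hn0
  have hn0p : (0 : ℝ) < n0 := by exact_mod_cast Nat.succ_pos _
  set δ : ℝ := 1 / (4 * l * n0) with hδ
  have hδp : 0 < δ := by positivity
  obtain ⟨t, Ht⟩ := A_step hm1 H L0 L1 hδp
  refine ⟨t, ?_⟩
  filter_upwards [Ht, ev_ge 2, ev_ge l] with N h hN hlN j1 j2 u u' h1 h2 hu hu'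
  set e : ℝ := Real.exp (1 / (4 * l)) with he
  have hep : 0 < e := Real.exp_pos _
  have hpow : ∀ n, n ≤ n0 → (1 + δ) ^ n ≤ e := fun n hn => by
    calc (1 + δ) ^ n ≤ (1 + δ) ^ n0 := pow_le_pow_right₀ (by linarith) hn
      _ ≤ Real.exp δ ^ n0 := pow_le_pow_left₀ (by positivity)
          (by linarith [Real.add_one_le_exp δ]) _
      _ = e := by
          rw [← Real.exp_nat_mul, he, hδ]
          congr 1
          field_simp
  have win : ∀ j v, t * N ≤ j → v ≤ w * N →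
      AA N L0 L1 (j + v) ≤ e * (m * m ^ (v / (N / l)) * AA N L0 L1 j) ∧
        m ^ (v / (N / l)) * AA N L0 L1 j ≤ e * AA N L0 L1 (j + v) := fun j v hj hv => by
    obtain ⟨b1, b2⟩ := div_bound hl hlN hv
    have hA := AA_pos hN L0 L1 j
    constructor
    · have i1 := (iter (f := AA N L0 L1) (by linarith) (by positivity) h (v / (N / l) + 1) hj).1
      have i2 : v < (v / (N / l) + 1) * (N / l) := by
        rw [mul_comm]; exact Nat.lt_mul_div_succ v b1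
      calc AA N L0 L1 (j + v) ≤ AA N L0 L1 (j + (v / (N / l) + 1) * (N / l)) :=
            AA_mono L0 L1 (by omega)
        _ ≤ _ := i1
        _ ≤ e * (m ^ (v / (N / l) + 1) * AA N L0 L1 j) :=
            mul_le_mul_of_nonneg_right (hpow _ (by omega)) (by positivity)
        _ = _ := by ring
    · have i1 := (iter (f := AA N L0 L1) (by linarith) (by positivity) h (v / (N / l)) hj).2
      have i2 : v / (N / l) * (N / l) ≤ v := Nat.div_mul_le_self _ _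
      refine i1.trans (mul_le_mul (hpow _ (by omega)) (AA_mono L0 L1 (by omega))
        (AA_pos hN _ _ _).le hep.le)
  obtain ⟨a1, -⟩ := win j2 u h2 hu
  obtain ⟨a2, -⟩ := win j1 u' h1 hu'
  obtain ⟨-, a3⟩ := win j1 u h1 hu
  obtain ⟨-, a4⟩ := win j2 u' h2 hu'
  have p1 := AA_pos hN L0 L1 j1
  have p2 := AA_pos hN L0 L1 j2
  have p3 := AA_pos hN L0 L1 (j1 + u)
  have p4 := AA_pos hN L0 L1 (j2 + u')
  have p5 := AA_pos hN L0 L1 (j1 + u')
  have hm0 : 0 < m := by linarith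
  have ee : e ^ 4 * Real.exp (1 / l) ^ 2 = Real.exp (3 / l) := by
    rw [he, ← Real.exp_nat_mul, ← Real.exp_nat_mul, ← Real.exp_add]
    congr 1
    push_cast
    field_simp
    ring
  calc AA N L0 L1 (j2 + u) * AA N L0 L1 (j1 + u')
      ≤ (e * (m * m ^ (u / (N / l)) * AA N L0 L1 j2)) *
          (e * (m * m ^ (u' / (N / l)) * AA N L0 L1 j1)) :=
        mul_le_mul a1 a2 p5.le (by positivity)
    _ = e ^ 2 * m ^ 2 * ((m ^ (u / (N / l)) * AA N L0 L1 j1) *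
          (m ^ (u' / (N / l)) * AA N L0 L1 j2)) := by ring
    _ ≤ e ^ 2 * Real.exp (1 / l) ^ 2 * ((e * AA N L0 L1 (j1 + u)) * (e * AA N L0 L1 (j2 + u'))) := by
        gcongr
    _ = e ^ 4 * Real.exp (1 / l) ^ 2 * (AA N L0 L1 (j1 + u) * AA N L0 L1 (j2 + u')) := by ring
    _ = _ := by rw [ee]

end Ph2

end Pool.Agent.P.MP_8c7dae_pr
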