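import Pool.Agent.P.MP_8c7dae_pr.Geo

open MeasureTheory Set

namespace Pool.Agent.P.MP_8c7dae_pr

/-! ### measure preserving maps -/

lemma pw_mem {s : Set Cell} {v : Cell} (h : v ∈ s) (ω' ω : Om) : pw s ω' ω v = ω' v := by
  simp [pw, h]

lemma pw_not {s : Set Cell} {v : Cell} (h : v ∉ s) (ω' ω : Om) : pw s ω' ω v = ω v := by
  simp [pw, h]

@[simp] lemma pw_self (s : Set Cell) (ω : Om) : pw s ω ω = ω := by
  funext v; simp [pw]

@[simp] lemma pw_univ (ω' ω : Om) : pw univ ω' ω = ω' := by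
  funext v; simp [pw]

lemma measurable_pw (s : Set Cell) : Measurable (fun x : Om × Om => pw s x.1 x.2) := by
  refine measurable_pi_lambda _ (fun v => ?_)
  by_cases h : v ∈ s
  · simp only [pw_mem h]; fun_prop
  · simp only [pw_not h]; fun_prop

lemma pw_mp (N : ℕ) (s : Set Cell) :
    MeasurePreserving (fun x : Om × Om => pw s x.1 x.2) ((μ N).prod (μ N)) (μ N) := by
  classical
  refine ⟨measurable_pw s, ?_⟩
  unfold μ
  refine Measure.eq_infinitePi _ (fun F t ht => ?_)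
  rw [Measure.map_apply (measurable_pw s) (.pi F.countable_toSet fun _ _ => ht _)]
  have : (fun x : Om × Om => pw s x.1 x.2) ⁻¹' (Set.pi (F : Set Cell) t) =
      (Set.pi ((F.filter (· ∈ s) : Finset Cell) : Set Cell) t) ×ˢ
        (Set.pi ((F.filter (fun v => ¬ v ∈ s) : Finset Cell) : Set Cell) t) := by
    ext x
    simp only [mem_preimage, mem_pi, Finset.mem_coe, mem_prod, Finset.mem_filter]
    constructor
    · intro h
      exact ⟨fun v hv => by have := h v hv.1; rwa [pw_mem hv.2] at this,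
        fun v hv => by have := h v hv.1; rwa [pw_not hv.2] at this⟩
    · rintro ⟨h1, h2⟩ v hv
      by_cases h : v ∈ s
      · rw [pw_mem h]; exact h1 v ⟨hv, h⟩
      · rw [pw_not h]; exact h2 v ⟨hv, h⟩
  rw [this, Measure.prod_prod, Measure.infinitePi_pi _ (fun i _ => ht i),
    Measure.infinitePi_pi _ (fun i _ => ht i), Finset.prod_filter_mul_prod_filter_not]

lemma comp_mp (N : ℕ) {g : Cell → Cell} (hg : Function.Injective g) :
    MeasurePreserving (fun (ω : Om) (v : Cell) => ω (g v)) (μ N) (μ N) := by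
  classical
  have hm : Measurable (fun (ω : Om) (v : Cell) => ω (g v)) := by fun_prop
  refine ⟨hm, ?_⟩
  unfold μ
  refine Measure.eq_infinitePi _ (fun F t ht => ?_)
  rw [Measure.map_apply hm (.pi F.countable_toSet fun _ _ => ht _)]
  have : (fun (ω : Om) (v : Cell) => ω (g v)) ⁻¹' (Set.pi (F : Set Cell) t) =
      Set.pi ((F.image g : Finset Cell) : Set Cell) (fun w => t (Function.invFun g w)) := by
    ext x
    simp only [mem_preimage, mem_pi, Finset.mem_coe, Finset.mem_image]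
    constructor
    · rintro h w ⟨v, hv, rfl⟩
      rw [Function.leftInverse_invFun hg v]; exact h v hv
    · intro h v hv
      have := h (g v) ⟨v, hv, rfl⟩
      rwa [Function.leftInverse_invFun hg v] at this
  rw [this, Measure.infinitePi_pi _ (fun i _ => ht _), Finset.prod_image (fun x _ y _ h => hg h)]
  refine Finset.prod_congr rfl (fun v _ => ?_)
  rw [Function.leftInverse_invFun hg v]

lemma pull_mp (N : ℕ) (σ : Sim) : MeasurePreserving (pull σ) (μ N) (μ N) := comp_mp N σ.inj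

/-! ### nice functions -/

lemma Nice.int {f : Om → ℝ} (h : Nice f) (N : ℕ) : Integrable f (μ N) := by
  obtain ⟨C, hC⟩ := h.bdd
  exact Integrable.of_bound h.meas.aestronglyMeasurable C (Filter.Eventually.of_forall hC)

lemma Nice.const (c : ℝ) : Nice (fun _ => c) := ⟨measurable_const, |c|, fun _ => le_rfl⟩

lemma Nice.add {f g : Om → ℝ} (hf : Nice f) (hg : Nice g) : Nice (fun ω => f ω + g ω) := by
  obtain ⟨C, hC⟩ := hf.bdd
  obtain ⟨D, hD⟩ := hg.bdd
  exact ⟨hf.meas.add hg.meas, C + D, fun ω => (abs_add_le _ _).trans (add_le_add (hC ω) (hD ω))⟩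

lemma Nice.mul {f g : Om → ℝ} (hf : Nice f) (hg : Nice g) : Nice (fun ω => f ω * g ω) := by
  obtain ⟨C, hC⟩ := hf.bdd
  obtain ⟨D, hD⟩ := hg.bdd
  refine ⟨hf.meas.mul hg.meas, C * D, fun ω => ?_⟩
  rw [abs_mul]
  exact mul_le_mul (hC ω) (hD ω) (abs_nonneg _) ((abs_nonneg _).trans (hC ω))

lemma Nice.cmul {f : Om → ℝ} (c : ℝ) (hf : Nice f) : Nice (fun ω => c * f ω) :=
  (Nice.const c).mul hf

lemma Nice.neg {f : Om → ℝ} (hf : Nice f) : Nice (fun ω => - f ω) := by
  simpa using hf.cmul (-1)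

lemma Nice.sub {f g : Om → ℝ} (hf : Nice f) (hg : Nice g) : Nice (fun ω => f ω - g ω) := by
  simpa [sub_eq_add_neg] using hf.add hg.neg

lemma Nice.div_const {f : Om → ℝ} (hf : Nice f) (c : ℝ) : Nice (fun ω => f ω / c) := by
  simpa [div_eq_mul_inv] using hf.mul (Nice.const c⁻¹)

lemma Nice.pow {f : Om → ℝ} (hf : Nice f) (n : ℕ) : Nice (fun ω => f ω ^ n) := by
  induction n with
  | zero => simpa using Nice.const 1
  | succ n ih => simpa [pow_succ] using ih.mul hf

lemma Nice.sum {ι : Type*} (s : Finset ι) {f : ι → Om → ℝ} (h : ∀ i ∈ s, Nice (f i)) :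
    Nice (fun ω => ∑ i ∈ s, f i ω) := by
  classical
  induction s using Finset.induction_on with
  | empty => simpa using Nice.const 0
  | insert i s hi ih =>
    simp only [Finset.sum_insert hi]
    exact (h i (by simp)).add (ih fun j hj => h j (by simp [hj]))

lemma Nice.prod {ι : Type*} (s : Finset ι) {f : ι → Om → ℝ} (h : ∀ i ∈ s, Nice (f i)) :
    Nice (fun ω => ∏ i ∈ s, f i ω) := by
  classical
  induction s using Finset.induction_on with
  | empty => simpa using Nice.const 1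
  | insert i s hi ih =>
    simp only [Finset.prod_insert hi]
    exact (h i (by simp)).mul (ih fun j hj => h j (by simp [hj]))

lemma Nice.comp {f : Om → ℝ} (hf : Nice f) {g : Om → Om} (hg : Measurable g) :
    Nice (fun ω => f (g ω)) := by
  obtain ⟨C, hC⟩ := hf.bdd
  exact ⟨hf.meas.comp hg, C, fun ω => hC _⟩

lemma Nice.pull {f : Om → ℝ} (hf : Nice f) (σ : Sim) : Nice (fun ω => f (pull σ ω)) :=
  hf.comp (pull_mp 2 σ).measurable

lemma measurable_pw_left (s : Set Cell) (ω : Om) : Measurable (fun ω' => pw s ω' ω) :=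
  (measurable_pw s).comp (measurable_id.prodMk measurable_const)

lemma measurable_pw_right (s : Set Cell) (ω' : Om) : Measurable (fun ω => pw s ω' ω) :=
  (measurable_pw s).comp (measurable_const.prodMk measurable_id)

lemma Nice.pw {f : Om → ℝ} (hf : Nice f) (s : Set Cell) (ω : Om) :
    Nice (fun ω' => f (pw s ω' ω)) := hf.comp (measurable_pw_left s ω)

lemma Nice.update {f : Om → ℝ} (hf : Nice f) (v : Cell) (t : ℕ) :
    Nice (fun ω => f (Function.update ω v t)) := hf.comp (by fun_prop)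

/-- a bounded function of one coordinate or of a measurable integer -/
lemma Nice.of_nat {f : Om → ℕ} (hf : Measurable f) {g : ℕ → ℝ} {C : ℝ} (hC : ∀ t, |g t| ≤ C) :
    Nice (fun ω => g (f ω)) :=
  ⟨(measurable_from_top (f := g)).comp hf, C, fun _ => hC _⟩

/-! ### elementary functions -/

lemma Elem.const {β : Type*} (b : β) : Elem (fun _ : Om => b) := ⟨∅, 0, fun _ _ _ => rfl⟩

lemma Elem.map {β γ : Type*} {f : Om → β} (h : Elem f) (g : β → γ) : Elem (fun ω => g (f ω)) := by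
  obtain ⟨s, K, h⟩ := h
  exact ⟨s, K, fun ω ω' hh => by simp only [h ω ω' hh]⟩

lemma min_mono {x y K K' : ℕ} (hK : K ≤ K') (h : min x K' = min y K') : min x K = min y K := by
  omega

lemma Elem.pair {β γ : Type*} {f : Om → β} {g : Om → γ} (hf : Elem f) (hg : Elem g) :
    Elem (fun ω => (f ω, g ω)) := by
  classical
  obtain ⟨s, K, h⟩ := hf
  obtain ⟨s', K', h'⟩ := hg
  refine ⟨s ∪ s', max K K', fun ω ω' hh => ?_⟩
  simp only
  rw [h ω ω' (fun v hv => min_mono (le_max_left _ _) (hh v (by simp [hv]))),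
    h' ω ω' (fun v hv => min_mono (le_max_right _ _) (hh v (by simp [hv])))]

lemma Elem.map₂ {β γ δ : Type*} {f : Om → β} {g : Om → γ} (hf : Elem f) (hg : Elem g)
    (F : β → γ → δ) : Elem (fun ω => F (f ω) (g ω)) := (hf.pair hg).map (fun x => F x.1 x.2)

lemma Elem.map₃ {β γ δ ε : Type*} {f : Om → β} {g : Om → γ} {h : Om → δ} (hf : Elem f)
    (hg : Elem g) (hh : Elem h) (F : β → γ → δ → ε) : Elem (fun ω => F (f ω) (g ω) (h ω)) :=
  ((hf.pair hg).pair hh).map (fun x => F x.1.1 x.1.2 x.2)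

lemma Elem.unif {ι : Type*} {β : ι → Type*} (s : Finset ι) {f : (i : ι) → Om → β i}
    (h : ∀ i ∈ s, Elem (f i)) : ∃ (t : Finset Cell) (K : ℕ), ∀ ω ω' : Om,
      (∀ v ∈ t, min (ω v) K = min (ω' v) K) → ∀ i ∈ s, f i ω = f i ω' := by
  classical
  induction s using Finset.induction_on with
  | empty => exact ⟨∅, 0, fun _ _ _ i hi => by simp at hi⟩
  | insert i s hi ih =>
    obtain ⟨t, K, h1⟩ := ih (fun j hj => h j (by simp [hj]))
    obtain ⟨t', K', h2⟩ := h i (by simp)
    refine ⟨t ∪ t', max K K', fun ω ω' hh j hj => ?_⟩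
    rcases Finset.mem_insert.1 hj with rfl | hj
    · exact h2 ω ω' (fun v hv => min_mono (le_max_right _ _) (hh v (by simp [hv])))
    · exact h1 ω ω' (fun v hv => min_mono (le_max_left _ _) (hh v (by simp [hv]))) j hj

/-- a function determined by finitely many elementary functions is elementary -/
lemma Elem.of_finset {ι γ : Type*} {β : ι → Type*} (s : Finset ι) {f : (i : ι) → Om → β i}
    (h : ∀ i ∈ s, Elem (f i)) {F : Om → γ}
    (hF : ∀ ω ω', (∀ i ∈ s, f i ω = f i ω') → F ω = F ω') : Elem F := by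
  obtain ⟨t, K, h⟩ := Elem.unif s h
  exact ⟨t, K, fun ω ω' hh => hF ω ω' (h ω ω' hh)⟩

lemma Elem.sum {ι β : Type*} [AddCommMonoid β] (s : Finset ι) {f : ι → Om → β}
    (h : ∀ i ∈ s, Elem (f i)) : Elem (fun ω => ∑ i ∈ s, f i ω) :=
  Elem.of_finset s h (fun _ _ hh => Finset.sum_congr rfl hh)

lemma Elem.sup {ι : Type*} (s : Finset ι) {f : ι → Om → ℕ}
    (h : ∀ i ∈ s, Elem (f i)) : Elem (fun ω => s.sup (fun i => f i ω)) :=
  Elem.of_finset s h (fun _ _ hh => Finset.sup_congr rfl hh)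

lemma Elem.all {ι : Type*} (s : Finset ι) {f : ι → Om → Prop}
    (h : ∀ i ∈ s, Elem (f i)) : Elem (fun ω => ∀ i ∈ s, f i ω) :=
  Elem.of_finset s h (fun _ _ hh => propext (forall₂_congr fun i hi => by rw [hh i hi]))

lemma Elem.ex {ι : Type*} (s : Finset ι) {f : ι → Om → Prop}
    (h : ∀ i ∈ s, Elem (f i)) : Elem (fun ω => ∃ i ∈ s, f i ω) :=
  Elem.of_finset s h (fun _ _ hh => propext (exists_congr fun i => and_congr_right fun hi => by
    rw [hh i hi]))

lemma Elem.and {A B : Om → Prop} (hA : Elem A) (hB : Elem B) : Elem (fun ω => A ω ∧ B ω) :=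
  hA.map₂ hB And

lemma Elem.or {A B : Om → Prop} (hA : Elem A) (hB : Elem B) : Elem (fun ω => A ω ∨ B ω) :=
  hA.map₂ hB Or

lemma Elem.not {A : Om → Prop} (hA : Elem A) : Elem (fun ω => ¬ A ω) := hA.map Not

lemma Elem.finite_range {β : Type*} {f : Om → β} (h : Elem f) : (range f).Finite := by
  classical
  obtain ⟨s, K, h⟩ := h
  let lift : (s → Fin (K + 1)) → Om := fun y v => if hv : v ∈ s then (y ⟨v, hv⟩ : ℕ) else 0
  refine (Set.finite_range (fun y => f (lift y))).subset ?_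
  rintro _ ⟨ω, rfl⟩
  refine ⟨fun v => ⟨min (ω v) K, by omega⟩, h _ _ (fun v hv => ?_)⟩
  simp [lift, hv]

lemma Elem.measurable {β : Type*} [MeasurableSpace β] {f : Om → β} (h : Elem f) :
    Measurable f := by
  classical
  obtain ⟨s, K, h⟩ := h
  let lift : (s → ℕ) → Om := fun y v => if hv : v ∈ s then y ⟨v, hv⟩ else 0
  have e : f = (fun y => f (lift y)) ∘ (fun (ω : Om) (v : s) => ω v) := by
    funext ω
    exact h _ _ (fun v hv => by simp [lift, hv])
  rw [e]
  exact (measurable_of_countable _).comp (by fun_prop)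

lemma Elem.nice {f : Om → ℝ} (h : Elem f) : Nice f := by
  refine ⟨h.measurable, ?_⟩
  obtain ⟨C, hC⟩ := (h.finite_range.image (fun x => |x|)).bddAbove
  exact ⟨C, fun ω => hC ⟨f ω, ⟨ω, rfl⟩, rfl⟩⟩

lemma Elem.ind {A : Om → Prop} (h : Elem A) : Nice (fun ω => ind (A ω)) := (h.map _).nice

lemma Elem.cast {f : Om → ℕ} (h : Elem f) : Nice (fun ω => (f ω : ℝ)) := (h.map _).nice

lemma Elem.dep {α β : Type*} {φ : Om → α} (hφ : Elem φ) {F : α → Om → β}
    (hF : ∀ a, Elem (F a)) : Elem (fun ω => F (φ ω) ω) := by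
  classical
  obtain ⟨t, K, h⟩ := Elem.unif hφ.finite_range.toFinset (f := F) (fun a _ => hF a)
  obtain ⟨s, K', h'⟩ := hφ
  refine ⟨t ∪ s, max K K', fun ω ω' hh => ?_⟩
  simp only
  rw [← h' ω ω' (fun v hv => min_mono (le_max_right _ _) (hh v (by simp [hv])))]
  exact h ω ω' (fun v hv => min_mono (le_max_left _ _) (hh v (by simp [hv]))) _ (by simp)

lemma Elem.pull {β : Type*} {f : Om → β} (h : Elem f) (σ : Sim) :
    Elem (fun ω => f (pull σ ω)) := by
  classical
  obtain ⟨s, K, h⟩ := h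
  exact ⟨s.image σ.g, K, fun ω ω' hh => h _ _ (fun v hv => hh _ (Finset.mem_image_of_mem _ hv))⟩

lemma Elem.pw {β : Type*} {f : Om → β} (h : Elem f) (s : Set Cell) (ω₀ : Om) :
    Elem (fun ω => f (pw s ω ω₀)) := by
  obtain ⟨t, K, h⟩ := h
  refine ⟨t, K, fun ω ω' hh => h _ _ (fun v hv => ?_)⟩
  by_cases hs : v ∈ s
  · rw [pw_mem hs, pw_mem hs]; exact hh v hv
  · rw [pw_not hs, pw_not hs]

lemma Elem.update {β : Type*} {f : Om → β} (h : Elem f) (v : Cell) (t : ℕ) :
    Elem (fun ω => f (Function.update ω v t)) := by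
  obtain ⟨s, K, h⟩ := h
  refine ⟨s, K, fun ω ω' hh => h _ _ (fun w hw => ?_)⟩
  by_cases e : w = v
  · subst e; simp
  · simp only [Function.update_of_ne e]; exact hh w hw

lemma Elem.dec {β : Type*} {f : Om → β} (h : Elem f) (v : Cell) (r : ℕ) :
    Elem (fun ω => f (Function.update ω v (ω v - r))) := by
  obtain ⟨s, K, h⟩ := h
  refine ⟨s, K + r, fun ω ω' hh => h _ _ (fun w hw => ?_)⟩
  have := hh w hw
  by_cases e : w = v
  · subst e; simp only [Function.update_self]; omega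
  · simp only [Function.update_of_ne e]; omega

lemma Elem.coord (v : Cell) (K : ℕ) : Elem (fun ω : Om => min (ω v) K) :=
  ⟨{v}, K, fun _ _ h => h v (by simp)⟩

lemma Elem.coord_lt (v : Cell) (K : ℕ) : Elem (fun ω : Om => ω v < K) := by
  refine ⟨{v}, K, fun ω ω' h => ?_⟩
  have := h v (by simp)
  exact propext (by omega)

lemma Elem.coord_ge (v : Cell) (K : ℕ) : Elem (fun ω : Om => K ≤ ω v) := by
  refine ⟨{v}, K, fun ω ω' h => ?_⟩
  have := h v (by simp)
  exact propext (by omega)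

lemma Elem.coord_eq (v : Cell) (K : ℕ) : Elem (fun ω : Om => ω v = K) := by
  refine ⟨{v}, K + 1, fun ω ω' h => ?_⟩
  have := h v (by simp)
  exact propext (by omega)

lemma Elem.res {f : Om → ℝ} (h : Elem f) (N : ℕ) (s : Set Cell) : Elem (Res N s f) := by
  obtain ⟨t, K, h⟩ := h
  refine ⟨t, K, fun ω ω' hh => ?_⟩
  unfold Res
  congr 1
  funext ω''
  refine h _ _ (fun v hv => ?_)
  by_cases hs : v ∈ s
  · rw [pw_mem hs, pw_mem hs]
  · rw [pw_not hs, pw_not hs]; exact hh v hv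

/-! ### expectation -/

variable {N : ℕ}

@[simp] lemma E_const (c : ℝ) : E N (fun _ => c) = c := by simp [E]

lemma E_congr {f g : Om → ℝ} (h : ∀ ω, f ω = g ω) : E N f = E N g := by
  rw [show f = g from funext h]

lemma E_mono {f g : Om → ℝ} (hf : Nice f) (hg : Nice g) (h : ∀ ω, f ω ≤ g ω) : E N f ≤ E N g :=
  integral_mono (hf.int N) (hg.int N) h

lemma E_nonneg {f : Om → ℝ} (h : ∀ ω, 0 ≤ f ω) : 0 ≤ E N f := integral_nonneg h

lemma E_le_const {f : Om → ℝ} (hf : Nice f) {c : ℝ} (h : ∀ ω, f ω ≤ c) : E N f ≤ c := by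
  simpa using E_mono (N := N) hf (Nice.const c) h

lemma E_ge_const {f : Om → ℝ} (hf : Nice f) {c : ℝ} (h : ∀ ω, c ≤ f ω) : c ≤ E N f := by
  simpa using E_mono (N := N) (Nice.const c) hf h

lemma E_add {f g : Om → ℝ} (hf : Nice f) (hg : Nice g) :
    E N (fun ω => f ω + g ω) = E N f + E N g := integral_add (hf.int N) (hg.int N)

lemma E_sub {f g : Om → ℝ} (hf : Nice f) (hg : Nice g) :
    E N (fun ω => f ω - g ω) = E N f - E N g := integral_sub (hf.int N) (hg.int N)

lemma E_cmul (c : ℝ) (f : Om → ℝ) : E N (fun ω => c * f ω) = c * E N f := integral_const_mul _ _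

lemma E_mulc (c : ℝ) (f : Om → ℝ) : E N (fun ω => f ω * c) = E N f * c := integral_mul_const _ _

lemma E_divc (c : ℝ) (f : Om → ℝ) : E N (fun ω => f ω / c) = E N f / c := integral_div _ _

lemma E_sum {ι : Type*} (s : Finset ι) {f : ι → Om → ℝ} (h : ∀ i ∈ s, Nice (f i)) :
    E N (fun ω => ∑ i ∈ s, f i ω) = ∑ i ∈ s, E N (f i) :=
  integral_finsetSum s (fun i hi => (h i hi).int N)

lemma E_pull {f : Om → ℝ} (hf : Nice f) (σ : Sim) : E N (fun ω => f (pull σ ω)) = E N f := by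
  have h := pull_mp N σ
  unfold E
  conv_rhs => rw [← h.map_eq]
  rw [integral_map h.measurable.aemeasurable hf.meas.aestronglyMeasurable]

lemma E_sq_le {f : Om → ℝ} (hf : Nice f) : (E N f) ^ 2 ≤ E N (fun ω => f ω ^ 2) := by
  have h : 0 ≤ E N (fun ω => (f ω - E N f) ^ 2) := E_nonneg fun _ => sq_nonneg _
  have e : E N (fun ω => (f ω - E N f) ^ 2) =
      E N (fun ω => (f ω ^ 2 - (2 * E N f) * f ω) + (E N f) ^ 2) := E_congr fun ω => by ring
  rw [e, E_add ((hf.pow 2).sub (hf.cmul _)) (Nice.const _), E_sub (hf.pow 2) (hf.cmul _), E_cmul,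
    E_const] at h
  nlinarith

lemma ind_pos {A : Prop} (h : A) : ind A = 1 := by simp [ind, h]
lemma ind_neg {A : Prop} (h : ¬ A) : ind A = 0 := by simp [ind, h]
lemma ind_nonneg (A : Prop) : 0 ≤ ind A := by unfold ind; split_ifs <;> norm_num
lemma ind_le_one (A : Prop) : ind A ≤ 1 := by unfold ind; split_ifs <;> norm_num
lemma ind_and (A B : Prop) : ind (A ∧ B) = ind A * ind B := by
  by_cases hA : A <;> by_cases hB : B <;> simp [ind, hA, hB]
lemma ind_not (A : Prop) : ind (¬ A) = 1 - ind A := by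
  by_cases hA : A <;> simp [ind, hA]
lemma ind_mono {A B : Prop} (h : A → B) : ind A ≤ ind B := by
  by_cases hA : A
  · rw [ind_pos hA, ind_pos (h hA)]
  · rw [ind_neg hA]; exact ind_nonneg _
lemma ind_or_le (A B : Prop) : ind (A ∨ B) ≤ ind A + ind B := by
  by_cases hA : A <;> by_cases hB : B <;> simp [ind, hA, hB]
lemma ind_ex_le {ι : Type*} (s : Finset ι) (A : ι → Prop) :
    ind (∃ i ∈ s, A i) ≤ ∑ i ∈ s, ind (A i) := by
  by_cases h : ∃ i ∈ s, A i
  · rw [ind_pos h]
    obtain ⟨i, hi, hA⟩ := h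
    rw [← ind_pos hA]
    exact Finset.single_le_sum (f := fun i => ind (A i)) (fun j _ => ind_nonneg _) hi
  · rw [ind_neg h]; exact Finset.sum_nonneg fun _ _ => ind_nonneg _
lemma ind_all {ι : Type*} (s : Finset ι) (A : ι → Prop) :
    ind (∀ i ∈ s, A i) = ∏ i ∈ s, ind (A i) := by
  classical
  induction s using Finset.induction_on with
  | empty => simp [ind]
  | insert i s hi ih => rw [Finset.prod_insert hi, ← ih, ← ind_and]; simp

lemma Pr_eq_real {A : Om → Prop} (hA : Elem A) : Pr N A = (μ N).real {ω | A ω} := by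
  have hm : MeasurableSet {ω | A ω} := hA.measurable.setOf
  rw [← integral_indicator_one hm]
  unfold Pr E
  congr 1

lemma Pr_nonneg (A : Om → Prop) : 0 ≤ Pr N A := E_nonneg fun _ => ind_nonneg _

lemma Pr_le_one {A : Om → Prop} (hA : Elem A) : Pr N A ≤ 1 :=
  E_le_const hA.ind fun _ => ind_le_one _

lemma Pr_mono {A B : Om → Prop} (hA : Elem A) (hB : Elem B) (h : ∀ ω, A ω → B ω) :
    Pr N A ≤ Pr N B := E_mono hA.ind hB.ind fun ω => ind_mono (h ω)

lemma Pr_congr {A B : Om → Prop} (h : ∀ ω, A ω ↔ B ω) : Pr N A = Pr N B := by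
  rw [show A = B from funext fun ω => propext (h ω)]

lemma Pr_false {A : Om → Prop} (h : ∀ ω, ¬ A ω) : Pr N A = 0 := by
  unfold Pr
  simp only [fun ω => ind_neg (h ω), E_const]

lemma Pr_true {A : Om → Prop} (h : ∀ ω, A ω) : Pr N A = 1 := by
  unfold Pr
  simp only [fun ω => ind_pos (h ω), E_const]

lemma Pr_not {A : Om → Prop} (hA : Elem A) : Pr N (fun ω => ¬ A ω) = 1 - Pr N A := by
  unfold Pr
  simp only [ind_not]
  rw [E_sub (Nice.const _) hA.ind, E_const]

lemma Pr_le_add {A B C : Om → Prop} (hA : Elem A) (hB : Elem B) (hC : Elem C)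
    (h : ∀ ω, A ω → B ω ∨ C ω) : Pr N A ≤ Pr N B + Pr N C := by
  unfold Pr
  rw [← E_add hB.ind hC.ind]
  exact E_mono hA.ind (hB.ind.add hC.ind) fun ω => (ind_mono (h ω)).trans (ind_or_le _ _)

lemma Pr_le_sum {ι : Type*} (s : Finset ι) {A : Om → Prop} {B : ι → Om → Prop} (hA : Elem A)
    (hB : ∀ i ∈ s, Elem (B i)) (h : ∀ ω, A ω → ∃ i ∈ s, B i ω) :
    Pr N A ≤ ∑ i ∈ s, Pr N (B i) := by
  unfold Pr
  rw [← E_sum s (fun i hi => (hB i hi).ind)]
  exact E_mono hA.ind (Nice.sum s fun i hi => (hB i hi).ind)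
    fun ω => (ind_mono (h ω)).trans (ind_ex_le s (fun i => B i ω))

lemma Pr_le_card {ι : Type*} (s : Finset ι) {A : Om → Prop} {B : ι → Om → Prop} (hA : Elem A)
    (hB : ∀ i ∈ s, Elem (B i)) (h : ∀ ω, A ω → ∃ i ∈ s, B i ω) {ε : ℝ}
    (hε : ∀ i ∈ s, Pr N (B i) ≤ ε) : Pr N A ≤ s.card * ε := by
  refine (Pr_le_sum s hA hB h).trans ?_
  simpa using Finset.sum_le_card_nsmul s _ ε hε

/-- Markov -/
lemma Pr_le_E_div {A : Om → Prop} (hA : Elem A) {f : Om → ℝ} (hf : Nice f) {t : ℝ} (ht : 0 < t)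
    (h0 : ∀ ω, 0 ≤ f ω) (h : ∀ ω, A ω → t ≤ f ω) : Pr N A ≤ E N f / t := by
  rw [← E_divc]
  refine E_mono hA.ind (hf.div_const t) fun ω => ?_
  by_cases hω : A ω
  · rw [ind_pos hω, le_div_iff₀ ht, one_mul]; exact h ω hω
  · rw [ind_neg hω]; exact div_nonneg (h0 ω) ht.le

lemma Pr_pull {A : Om → Prop} (hA : Elem A) (σ : Sim) :
    Pr N (fun ω => A (pull σ ω)) = Pr N A := E_pull hA.ind σ

/-! ### resampling -/

lemma Nice.res {f : Om → ℝ} (hf : Nice f) (N : ℕ) (s : Set Cell) : Nice (Res N s f) := by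
  obtain ⟨C, hC⟩ := hf.bdd
  refine ⟨?_, C, fun ω => ?_⟩
  · have : StronglyMeasurable (fun x : Om × Om => f (MP_8c7dae_pr.pw s x.1 x.2)) :=
      (hf.meas.comp (measurable_pw s)).stronglyMeasurable
    exact (this.integral_prod_left' (μ := μ N)).measurable
  · rw [abs_le]
    exact ⟨E_ge_const (hf.pw s ω) fun ω' => (abs_le.1 (hC _)).1,
      E_le_const (hf.pw s ω) fun ω' => (abs_le.1 (hC _)).2⟩

lemma E_Res {f : Om → ℝ} (hf : Nice f) (s : Set Cell) : E N (Res N s f) = E N f := by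
  have h := pw_mp N s
  obtain ⟨C, hC⟩ := hf.bdd
  have hi : Integrable (fun x : Om × Om => f (pw s x.1 x.2)) ((μ N).prod (μ N)) :=
    Integrable.of_bound (hf.meas.comp (measurable_pw s)).aestronglyMeasurable C
      (Filter.Eventually.of_forall fun x => hC _)
  unfold Res E
  conv_rhs => rw [← h.map_eq]
  rw [integral_map h.measurable.aemeasurable hf.meas.aestronglyMeasurable, integral_prod_symm _ hi]

lemma Res_mono {f g : Om → ℝ} (hf : Nice f) (hg : Nice g) (h : ∀ ω, f ω ≤ g ω) (s : Set Cell)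
    (ω : Om) : Res N s f ω ≤ Res N s g ω := E_mono (hf.pw s ω) (hg.pw s ω) fun _ => h _

lemma Res_nonneg {f : Om → ℝ} (h : ∀ ω, 0 ≤ f ω) (s : Set Cell) (ω : Om) : 0 ≤ Res N s f ω :=
  E_nonneg fun _ => h _

lemma Res_add {f g : Om → ℝ} (hf : Nice f) (hg : Nice g) (s : Set Cell) (ω : Om) :
    Res N s (fun ω => f ω + g ω) ω = Res N s f ω + Res N s g ω := E_add (hf.pw s ω) (hg.pw s ω)

lemma Res_sub {f g : Om → ℝ} (hf : Nice f) (hg : Nice g) (s : Set Cell) (ω : Om) :
    Res N s (fun ω => f ω - g ω) ω = Res N s f ω - Res N s g ω := E_sub (hf.pw s ω) (hg.pw s ω)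

lemma Res_cmul (c : ℝ) (f : Om → ℝ) (s : Set Cell) (ω : Om) :
    Res N s (fun ω => c * f ω) ω = c * Res N s f ω := E_cmul c _

@[simp] lemma Res_const (c : ℝ) (s : Set Cell) (ω : Om) : Res N s (fun _ => c) ω = c := E_const c

lemma Res_sum {ι : Type*} (t : Finset ι) {f : ι → Om → ℝ} (h : ∀ i ∈ t, Nice (f i))
    (s : Set Cell) (ω : Om) :
    Res N s (fun ω => ∑ i ∈ t, f i ω) ω = ∑ i ∈ t, Res N s (f i) ω :=
  E_sum t (f := fun i ω' => f i (pw s ω' ω)) fun i hi => (h i hi).pw s ω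

lemma dep_pw_compl {β : Type*} {G : Om → β} {s : Set Cell} (hG : DependsOn G sᶜ) (ω' ω : Om) :
    G (pw s ω' ω) = G ω := hG fun _ hv => pw_not hv _ _

lemma dep_pw {β : Type*} {G : Om → β} {s : Set Cell} (hG : DependsOn G s) (ω' ω : Om) :
    G (pw s ω' ω) = G ω' := hG fun _ hv => pw_mem hv _ _

lemma Res_mul_left {G : Om → ℝ} {s : Set Cell} (hG : DependsOn G sᶜ) (f : Om → ℝ) (ω : Om) :
    Res N s (fun ω => G ω * f ω) ω = G ω * Res N s f ω := by
  unfold Res
  simp only [dep_pw_compl hG, E_cmul]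

lemma Res_of_compl {G : Om → ℝ} {s : Set Cell} (hG : DependsOn G sᶜ) (ω : Om) :
    Res N s G ω = G ω := by
  unfold Res
  simp only [dep_pw_compl hG, E_const]

lemma Res_of_dep {G : Om → ℝ} {s : Set Cell} (hG : DependsOn G s) (ω : Om) :
    Res N s G ω = E N G := by
  unfold Res
  simp only [dep_pw hG]

lemma Res_dep (f : Om → ℝ) (s : Set Cell) : DependsOn (Res N s f) sᶜ := by
  intro ω₁ ω₂ h
  unfold Res
  congr 1
  funext ω'
  congr 1
  funext v
  by_cases hv : v ∈ s
  · rw [pw_mem hv, pw_mem hv]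
  · rw [pw_not hv, pw_not hv]; exact h v hv

lemma Res_dep' {f : Om → ℝ} {t : Set Cell} (hf : DependsOn f t) (s : Set Cell) :
    DependsOn (Res N s f) t := by
  intro ω₁ ω₂ h
  unfold Res
  congr 1
  funext ω'
  refine hf fun v hvt => ?_
  by_cases hv : v ∈ s
  · rw [pw_mem hv, pw_mem hv]
  · rw [pw_not hv, pw_not hv]; exact h v hvt

/-- freezing -/
lemma Res_freeze {α : Type*} {φ : Om → α} {s : Set Cell} (hφ : DependsOn φ sᶜ)
    {F : α → Om → ℝ} (hF : ∀ x, DependsOn (F x) s) (ω : Om) :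
    Res N s (fun ω => F (φ ω) ω) ω = E N (F (φ ω)) := by
  unfold Res
  simp only [dep_pw_compl hφ, fun x => dep_pw (hF x)]

lemma Res_Res {f : Om → ℝ} (hf : Nice f) (s t : Set Cell) (ω : Om) :
    Res N s (Res N t f) ω = Res N (s ∪ t) f ω := by
  have h := E_Res (N := N) (hf.pw (s ∪ t) ω) t
  unfold Res at h ⊢
  rw [← h]
  congr 1
  funext ω'
  congr 1
  funext ω''
  congr 1
  funext v
  by_cases h1 : v ∈ t
  · rw [pw_mem h1, pw_mem (Or.inr h1), pw_mem h1]
  · by_cases h2 : v ∈ s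
    · rw [pw_not h1, pw_mem h2, pw_mem (Or.inl h2), pw_not h1]
    · rw [pw_not h1, pw_not h2, pw_not (by rintro (h | h) <;> contradiction)]

lemma Res_Res_of_subset {f : Om → ℝ} (hf : Nice f) {s t : Set Cell} (h : t ⊆ s) (ω : Om) :
    Res N s (Res N t f) ω = Res N s f ω := by
  rw [Res_Res hf, union_eq_self_of_subset_right h]

lemma Res_congr_set {f : Om → ℝ} {u s t : Set Cell} (hf : DependsOn f u)
    (h : ∀ v ∈ u, v ∈ s ↔ v ∈ t) (ω : Om) : Res N s f ω = Res N t f ω := by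
  unfold Res
  congr 1
  funext ω'
  refine hf fun v hv => ?_
  by_cases h1 : v ∈ s
  · rw [pw_mem h1, pw_mem ((h v hv).1 h1)]
  · rw [pw_not h1, pw_not (fun h2 => h1 ((h v hv).2 h2))]

lemma Res_le_of_subset {f : Om → ℝ} (hf : Nice f) {s t : Set Cell} (h : t ⊆ s) {c : ℝ}
    (hc : ∀ ω, Res N t f ω ≤ c) (ω : Om) : Res N s f ω ≤ c := by
  rw [← Res_Res_of_subset hf h]
  exact E_le_const ((hf.res N t).pw s ω) fun _ => hc _

lemma E_le_of_Res {f : Om → ℝ} (hf : Nice f) (s : Set Cell) {c : ℝ}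
    (hc : ∀ ω, Res N s f ω ≤ c) : E N f ≤ c := by
  rw [← E_Res hf s]
  exact E_le_const (hf.res N s) hc

lemma E_mul_Res {G f : Om → ℝ} {s : Set Cell} (hG : Nice G) (hf : Nice f) (hd : DependsOn G sᶜ) :
    E N (fun ω => G ω * f ω) = E N (fun ω => G ω * Res N s f ω) := by
  rw [← E_Res (hG.mul hf) s]
  exact E_congr fun ω => Res_mul_left hd f ω

lemma E_mul_indep {G f : Om → ℝ} {s : Set Cell} (hG : Nice G) (hf : Nice f)
    (hd : DependsOn G sᶜ) (hd' : DependsOn f s) :
    E N (fun ω => G ω * f ω) = E N G * E N f := by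
  rw [E_mul_Res hG hf hd, ← E_mulc]
  exact E_congr fun ω => by rw [Res_of_dep hd']

lemma dep_ind {A : Om → Prop} {s : Set Cell} (h : DependsOn A s) :
    DependsOn (fun ω => ind (A ω)) s := fun _ _ hh => by simp only [h hh]

lemma Pr_and_indep {A B : Om → Prop} {s : Set Cell} (hA : Elem A) (hB : Elem B)
    (hd : DependsOn A sᶜ) (hd' : DependsOn B s) :
    Pr N (fun ω => A ω ∧ B ω) = Pr N A * Pr N B := by
  unfold Pr
  simp only [ind_and]
  exact E_mul_indep hA.ind hB.ind (dep_ind hd) (dep_ind hd')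

lemma E_prod_indep {ι : Type*} (t : Finset ι) {f : ι → Om → ℝ} {s : ι → Set Cell}
    (hf : ∀ i ∈ t, Nice (f i)) (hd : ∀ i ∈ t, DependsOn (f i) (s i))
    (hs : ∀ i ∈ t, ∀ j ∈ t, i ≠ j → Disjoint (s i) (s j)) :
    E N (fun ω => ∏ i ∈ t, f i ω) = ∏ i ∈ t, E N (f i) := by
  classical
  induction t using Finset.induction_on with
  | empty => simp
  | insert i t hi ih =>
    simp only [Finset.prod_insert hi]
    rw [← ih (fun j hj => hf j (by simp [hj])) (fun j hj => hd j (by simp [hj]))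
      (fun j hj l hl => hs j (by simp [hj]) l (by simp [hl])), mul_comm]
    simp only [mul_comm (f i _)]
    refine E_mul_indep (s := s i) (Nice.prod t fun j hj => hf j (by simp [hj])) (hf i (by simp))
      ?_ (hd i (by simp))
    intro ω ω' h
    refine Finset.prod_congr rfl fun j hj => hd j (by simp [hj]) fun v hv => h v ?_
    have := hs i (by simp) j (by simp [hj]) (by rintro rfl; exact hi hj)
    exact fun hvi => (Set.disjoint_left.1 this) hvi hv

lemma Res_sq_le {f : Om → ℝ} (hf : Nice f) (s : Set Cell) (ω : Om) :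
    (Res N s f ω) ^ 2 ≤ Res N s (fun ω => f ω ^ 2) ω := E_sq_le (hf.pw s ω)

/-- a bound that holds given the complement of `s` passes to any event of the complement -/
lemma E_ind_mul_le {G : Om → Prop} {f : Om → ℝ} {s : Set Cell} (hG : Elem G) (hf : Nice f)
    (hd : DependsOn G sᶜ) {c : ℝ} (h : ∀ ω, G ω → Res N s f ω ≤ c) :
    E N (fun ω => ind (G ω) * f ω) ≤ c * Pr N G := by
  rw [E_mul_Res hG.ind hf (dep_ind hd), Pr, ← E_cmul]
  refine E_mono (hG.ind.mul (hf.res N s)) (hG.ind.cmul c) fun ω => ?_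
  by_cases hω : G ω
  · rw [ind_pos hω, one_mul, mul_one]; exact h ω hω
  · rw [ind_neg hω]; simp

/-! ### one coordinate -/

lemma q_pos (hN : 2 ≤ N) : 0 < q N := by
  unfold q
  have : (0 : ℝ) < N := by exact_mod_cast (by omega : 0 < N)
  positivity

lemma q_le (hN : 2 ≤ N) : q N ≤ 1 / 2 := by
  unfold q
  have : (2 : ℝ) ≤ N := by exact_mod_cast hN
  exact one_div_le_one_div_of_le (by norm_num) this

lemma q_mul (hN : 2 ≤ N) : q N * N = 1 := by
  unfold q
  have : (0 : ℝ) < N := by exact_mod_cast (by omega : 0 < N)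
  field_simp

noncomputable def Eν (N : ℕ) (φ : ℕ → ℝ) : ℝ := ∫ t, φ t ∂ν N

def Bd (φ : ℕ → ℝ) : Prop := ∃ C, ∀ t, |φ t| ≤ C

lemma Bd.int {φ : ℕ → ℝ} (h : Bd φ) (N : ℕ) : Integrable φ (ν N) := by
  obtain ⟨C, hC⟩ := h
  exact Integrable.of_bound (measurable_from_top (f := φ)).aestronglyMeasurable C
    (Filter.Eventually.of_forall hC)

lemma Bd.shift {φ : ℕ → ℝ} (h : Bd φ) (g : ℕ → ℕ) : Bd (fun t => φ (g t)) := by
  obtain ⟨C, hC⟩ := h
  exact ⟨C, fun t => hC _⟩

lemma Eν_succ (hN : 2 ≤ N) {φ : ℕ → ℝ} (h : Bd φ) :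
    Eν N φ = q N * φ 0 + (1 - q N) * Eν N (fun t => φ (t + 1)) := by
  have hq : qI N ≠ 0 := fun h => (q_pos hN).ne' (congrArg Subtype.val h)
  have h1 := ProbabilityTheory.hasSum_integral_geometricMeasure hq (h.int N)
  have h2 := ProbabilityTheory.hasSum_integral_geometricMeasure hq
    ((h.shift (· + 1)).int N)
  have h3 := (hasSum_nat_add_iff' 1).2 h1
  have h4 := h2.mul_left (1 - q N)
  have e : (fun n => (1 - q N) * (((1 - (qI N : ℝ)) ^ n * (qI N : ℝ)) • φ (n + 1))) =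
      fun n => ((1 - (qI N : ℝ)) ^ (n + 1) * (qI N : ℝ)) • φ (n + 1) := by
    funext n
    simp only [smul_eq_mul, show (qI N : ℝ) = q N from rfl]; ring
  rw [e] at h4
  have := h3.unique h4
  simp only [Finset.range_one, Finset.sum_singleton, pow_zero, one_mul, smul_eq_mul,
    show (qI N : ℝ) = q N from rfl] at this
  unfold Eν ν
  linarith

lemma Eν_shift (hN : 2 ≤ N) (r : ℕ) {φ : ℕ → ℝ} (h : Bd φ) (h0 : ∀ t < r, φ t = 0) :
    Eν N φ = (1 - q N) ^ r * Eν N (fun t => φ (t + r)) := by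
  induction r generalizing φ with
  | zero => simp
  | succ r ih =>
    rw [Eν_succ hN h, h0 0 (by omega), ih (h.shift _) (fun t ht => h0 _ (by omega))]
    simp only [add_assoc, pow_succ]; ring

@[simp] lemma Eν_const (c : ℝ) : Eν N (fun _ => c) = c := by simp [Eν]

lemma E_coord {φ : ℕ → ℝ} (v : Cell) : E N (fun ω => φ (ω v)) = Eν N φ := by
  have h := measurePreserving_eval_infinitePi (fun _ : Cell => ν N) v
  unfold E Eν μ
  conv_rhs => rw [← h.map_eq]
  rw [integral_map h.measurable.aemeasurable (measurable_from_top (f := φ)).aestronglyMeasurable]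

lemma Res_single (f : Om → ℝ) (v : Cell) (ω : Om) :
    Res N {v} f ω = Eν N (fun t => f (Function.update ω v t)) := by
  rw [← E_coord v]
  unfold Res
  congr 1
  funext ω'
  congr 1
  funext w
  by_cases h : w = v
  · subst h; rw [pw_mem (by simp)]; simp
  · rw [pw_not (by simpa using h), Function.update_of_ne h]

lemma Nice.bd_update {f : Om → ℝ} (hf : Nice f) (v : Cell) (ω : Om) :
    Bd (fun t => f (Function.update ω v t)) := by
  obtain ⟨C, hC⟩ := hf.bdd
  exact ⟨C, fun t => hC _⟩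

lemma Pr_coord_ge (hN : 2 ≤ N) (v : Cell) (r : ℕ) :
    Pr N (fun ω => r ≤ ω v) = (1 - q N) ^ r := by
  unfold Pr
  rw [E_coord (φ := fun t => ind (r ≤ t)), Eν_shift hN r ⟨1, fun t => by
    rw [abs_of_nonneg (ind_nonneg _)]; exact ind_le_one _⟩ (fun t ht => ind_neg (by omega))]
  simp only [fun t => ind_pos (show r ≤ t + r by omega), Eν_const, mul_one]

/-- memoryless property, shift form -/
lemma E_dec (hN : 2 ≤ N) {f : Om → ℝ} (hf : Nice f) (v : Cell) (r : ℕ) :
    E N (fun ω => ind (r ≤ ω v) * f (Function.update ω v (ω v - r))) = (1 - q N) ^ r * E N f := by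
  have hm : Measurable (fun ω : Om => Function.update ω v (ω v - r)) := by
    refine measurable_pi_lambda _ fun w => ?_
    by_cases h : w = v
    · subst h; simp only [Function.update_self]; fun_prop
    · simp only [Function.update_of_ne h]; fun_prop
  have hn := (Elem.coord_ge v r).ind.mul (hf.comp hm)
  rw [← E_Res hn {v}, ← E_Res hf {v}, ← E_cmul]
  refine E_congr fun ω => ?_
  rw [Res_single, Res_single, Eν_shift hN r (hn.bd_update v ω)
    (fun t ht => by simp only [Function.update_self]; rw [ind_neg (by omega), zero_mul])]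
  simp only [Function.update_self, Function.update_idem, Nat.add_sub_cancel,
    fun t => ind_pos (show r ≤ t + r by omega), one_mul]

/-- memoryless property, splitting form -/
lemma E_split (hN : 2 ≤ N) {G : Om → ℝ} (hG : Nice G) (w : Cell) {t : Om → ℕ}
    (htm : Measurable t) (ht : ∀ ω s, t (Function.update ω w s) = t ω)
    (h0 : ∀ ω, ω w < t ω → G ω = 0)
    (h1 : ∀ ω s, t ω ≤ s → G (Function.update ω w s) = G (Function.update ω w (t ω))) :
    E N (fun ω => G ω * ind (ω w = t ω)) = q N * E N G := by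
  have hi : Nice (fun ω : Om => ind (ω w = t ω)) := by
    refine ⟨?_, 1, fun ω => by rw [abs_of_nonneg (ind_nonneg _)]; exact ind_le_one _⟩
    have : Measurable (fun ω : Om => (ω w, t ω)) := by fun_prop
    exact (measurable_of_countable (fun x : ℕ × ℕ => ind (x.1 = x.2))).comp this
  rw [← E_Res (hG.mul hi) {w}, ← E_Res hG {w}, ← E_cmul]
  refine E_congr fun ω => ?_
  have z : ∀ s < t ω, G (Function.update ω w s) = 0 := fun s hs =>
    h0 _ (by rw [ht]; simpa using hs)
  rw [Res_single, Res_single, Eν_shift hN (t ω) ((hG.mul hi).bd_update w ω)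
    (fun s hs => by rw [z s hs, zero_mul]), Eν_shift hN (t ω) (hG.bd_update w ω) z,
    Eν_succ hN (((hG.mul hi).bd_update w ω).shift (· + t ω))]
  simp only [Function.update_self, ht, fun s => h1 ω (s + t ω) (by omega), Eν_const, zero_add,
    fun s => ind_neg (show ¬ s + 1 + t ω = t ω by omega), ind_pos trivial, mul_zero]
  ring

end Pool.Agent.P.MP_8c7dae_pr
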