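import Pool.Agent.P.MP_8c7dae_pr.DePo
import Pool.Agent.P.MP_8c7dae_pr.Phase2
import Pool.Agent.P.MP_8c7dae_pr.Lim
import Pool.Agent.P.MP_8c7dae_pr.Bridge

open MeasureTheory Set Filter Topology

/-! Law of large numbers for the splitting times. -/


namespace Pool.Agent.P.MP_8c7dae_pr.Reg

open DePo

variable {N : ℕ}

/-- time between the splits number `a` and `b` -/
def gap (r : ℕ → ℕ) (a b : ℕ) : ℕ := ∑ i ∈ Finset.Ico a b, (r i + 1)

lemma tm_gap (r : ℕ → ℕ) {a b : ℕ} (h : a ≤ b) : tm r b = tm r a + gap r a b := by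
  rw [tm, tm, gap, Finset.sum_range_add_sum_Ico _ h]

lemma moment2 (hN : 2 ≤ N) {m a : ℕ} (R : ℕ) {x : ℝ} (hx : 0 ≤ x)
    (hp : ∀ j ∈ Finset.Ico a m, pp N j * x < 1) :
    ∑ r ∈ Bx m R, W N r * x ^ gap (exR r) a m ≤ ∏ j ∈ Finset.Ico a m, gf N j x := by
  have hq := q_pos hN
  have e : ∀ g : ℕ → ℝ, ∏ j ∈ Finset.Ico a m, g j = ∏ j : Fin m, if a ≤ (j : ℕ) then g j else 1 := by
    intro g
    rw [Fin.prod_univ_eq_prod_range fun j => if a ≤ j then g j else 1, ← Finset.prod_filter]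
    congr 1
    ext j
    simp only [Finset.mem_range, Finset.mem_filter, Finset.mem_Ico]
    omega
  have h1 : ∀ r : Fin m → ℕ, W N r * x ^ gap (exR r) a m = ∏ j : Fin m,
      (3 * (j : ℝ) + 1) * gp N j (r j) * (if a ≤ (j : ℕ) then x else 1) ^ (r j + 1) := by
    intro r
    rw [Finset.prod_mul_distrib, gap, ← Finset.prod_pow_eq_pow_sum, e]
    congr 1
    refine Finset.prod_congr rfl fun j _ => ?_
    split_ifs <;> simp [exR_val]
  simp only [h1]
  rw [Bx, ← Finset.prod_univ_sum (fun _ => Finset.range R) fun (j : Fin m) s =>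
    (3 * (j : ℝ) + 1) * gp N j s * (if a ≤ (j : ℕ) then x else 1) ^ (s + 1), e]
  refine Finset.prod_le_prod (fun j _ => Finset.sum_nonneg fun s _ => ?_) fun j _ => ?_
  · have := gp_nonneg hN j s
    split_ifs <;> positivity
  · have a1 := pp_le hN j
    split_ifs with h
    · exact sum_gp_le hN j R hx (hp j (Finset.mem_Ico.2 ⟨h, j.2⟩))
    · refine (sum_gp_le hN j R zero_le_one (by linarith)).trans (le_of_eq ?_)
      rw [gf, mul_one, mul_one, div_self (by linarith)]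

lemma q_tendsto : Tendsto q atTop (𝓝[≠] 0) := by
  refine tendsto_nhdsWithin_iff.2 ⟨?_, ?_⟩
  · have := tendsto_inv_atTop_nhds_zero_nat (𝕜 := ℝ)
    refine this.congr fun N => ?_
    simp [q]
  · filter_upwards [eventually_ge_atTop 2] with N hN
    exact (q_pos hN).ne'

lemma slope_t (m : ℕ) (s : ℝ) :
    Tendsto (fun N => (q N)⁻¹ * (1 - (1 - q N) ^ (m + 1) * Real.exp (s * q N))) atTop
      (𝓝 ((m + 1 : ℝ) - s)) := by
  have h1 : HasDerivAt (fun h : ℝ => (1 - h) ^ (m + 1)) (-(m + 1 : ℝ)) 0 := by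
    have := ((hasDerivAt_id' (0 : ℝ)).const_sub 1).fun_pow (m + 1)
    simpa using this
  have h2 : HasDerivAt (fun h : ℝ => Real.exp (s * h)) s 0 := by
    have := ((hasDerivAt_id' (0 : ℝ)).const_mul s).exp
    simpa using this
  have h3 := ((h1.mul h2).const_sub 1).tendsto_slope_zero
  have h4 := h3.comp q_tendsto
  convert h4 using 2
  · simp
  · simp; ring

lemma gf_t (j : ℕ) {s : ℝ} (hs : s < 3 * j + 1) :
    Tendsto (fun N => gf N j (Real.exp (s * q N))) atTop (𝓝 ((3 * j + 1) / (3 * j + 1 - s))) ∧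
      ∀ᶠ N in atTop, pp N j * Real.exp (s * q N) < 1 := by
  have h1 := slope_t (3 * j) s
  have h2 := slope_t (3 * j) 0
  push_cast at h1 h2
  simp only [zero_mul, Real.exp_zero, mul_one, sub_zero] at h2
  have h0 : (0 : ℝ) < 3 * j + 1 - s := by linarith
  have h3 : Tendsto (fun N => Real.exp (s * q N)) atTop (𝓝 1) := by
    have := (Real.continuous_exp.tendsto _).comp
      ((q_tendsto.mono_right nhdsWithin_le_nhds).const_mul s)
    simpa [Function.comp_def] using this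
  refine ⟨?_, ?_⟩
  · have := (h2.mul h3).div h1 h0.ne'
    rw [mul_one] at this
    refine this.congr' ?_
    filter_upwards [eventually_ge_atTop 2] with N hN
    have := (q_pos hN).ne'
    simp only [gf, pp, Pi.div_apply]
    rw [mul_assoc, mul_div_mul_left _ _ (inv_ne_zero this)]
  · filter_upwards [h1.eventually (lt_mem_nhds h0), eventually_ge_atTop 2] with N h hN
    have := (mul_pos_iff_of_pos_left (inv_pos.2 (q_pos hN))).1 h
    unfold pp
    linarith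

lemma frac_le {L s : ℝ} (hL : 0 < L) (hs : 2 * |s| ≤ L) :
    L / (L - s) ≤ Real.exp (s * (1 / L) + 2 * s ^ 2 * (1 / L ^ 2)) := by
  have h1 := le_abs_self s
  have h0 := abs_nonneg s
  have h2 : 0 < L - s := by linarith
  refine le_trans ?_ (Real.add_one_le_exp _)
  rw [div_le_iff₀ h2]
  have e : (s * (1 / L) + 2 * s ^ 2 * (1 / L ^ 2) + 1) * (L - s) =
      L + s ^ 2 * (L - 2 * s) / L ^ 2 := by field_simp; ring
  rw [e]
  have : 0 ≤ s ^ 2 * (L - 2 * s) / L ^ 2 := div_nonneg (mul_nonneg (sq_nonneg s) (by linarith)) (sq_nonneg L)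
  linarith

/-- mean waiting time -/
noncomputable def mu (n n' : ℕ) : ℝ := ∑ j ∈ Finset.Ico (n + 1) (n' + 1), 1 / (3 * (j : ℝ) + 1)

lemma mu_bounds {n n' : ℕ} (hn : 1 ≤ n) (h : n ≤ n') :
    3 * mu n n' ≤ Real.log n' - Real.log n ∧
      Real.log (n' + 2) - Real.log (n + 2) ≤ 3 * mu n n' ∧
      ∑ j ∈ Finset.Ico (n + 1) (n' + 1), 1 / (3 * ((j : ℕ) : ℝ) + 1) ^ 2 ≤ 1 / (n : ℝ) - 1 / n' := by
  induction n', h using Nat.le_induction with
  | base => simp [mu]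
  | succ k hk ih =>
    obtain ⟨a1, a2, a3⟩ := ih
    have hk1 : (1 : ℝ) ≤ k := by exact_mod_cast hn.trans hk
    unfold mu at *
    simp only [Finset.sum_Ico_succ_top (show n + 1 ≤ k + 1 by omega)]
    push_cast
    have b1 := Real.log_le_sub_one_of_pos (show (0 : ℝ) < k / (k + 1) by positivity)
    have b2 := Real.log_le_sub_one_of_pos (show (0 : ℝ) < (k + 1 + 2) / (k + 2) by positivity)
    rw [Real.log_div (by positivity) (by positivity)] at b1 b2
    have c1 : 3 * (1 / (3 * ((k : ℝ) + 1) + 1)) ≤ 1 - k / (k + 1) := by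
      rw [one_sub_div (by positivity), mul_one_div, div_le_div_iff₀ (by positivity) (by positivity)]
      nlinarith
    have c2 : ((k : ℝ) + 1 + 2) / (k + 2) - 1 ≤ 3 * (1 / (3 * ((k : ℝ) + 1) + 1)) := by
      rw [div_sub_one (by positivity), mul_one_div, div_le_div_iff₀ (by positivity) (by positivity)]
      nlinarith
    have c3 : 1 / (3 * ((k : ℝ) + 1) + 1) ^ 2 ≤ 1 / k - 1 / (k + 1) := by
      rw [div_sub_div _ _ (by positivity) (by positivity),
        div_le_div_iff₀ (by positivity) (by positivity)]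
      nlinarith
    refine ⟨by linarith, by linarith, by linarith⟩

lemma mu_close {n n' : ℕ} (hn : 1 ≤ n) (h : n ≤ n') :
    |mu n n' - (Real.log n' - Real.log n) / 3| ≤ 1 / n := by
  obtain ⟨a1, a2, -⟩ := mu_bounds hn h
  have hn1 : (1 : ℝ) ≤ n := by exact_mod_cast hn
  have hn2 : (n : ℝ) ≤ n' := by exact_mod_cast h
  have b1 := Real.log_le_log (show (0 : ℝ) < n' by linarith) (show (n' : ℝ) ≤ n' + 2 by linarith)
  have b2 := Real.log_le_sub_one_of_pos (show (0 : ℝ) < (n + 2) / n by positivity)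
  rw [Real.log_div (by positivity) (by positivity), div_sub_one (by positivity)] at b2
  have e : ((n : ℝ) + 2 - n) / n = 2 * (1 / n) := by ring
  have : (0 : ℝ) ≤ 1 / n := by positivity
  rw [abs_le]
  constructor <;> linarith

lemma expo {n n' : ℕ} (hn : 1 ≤ n) (h : n ≤ n') {s : ℝ} (h1 : 2 * |s| ≤ n) (h2 : 4 * s ^ 2 ≤ n) :
    ∀ᶠ N in atTop, ∀ R, ∑ r ∈ Bx (n' + 1) R, W N r *
      Real.exp (s * q N) ^ gap (exR r) (n + 1) (n' + 1) ≤ Real.exp (s * mu n n' + 1) := by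
  have hn1 : (1 : ℝ) ≤ n := by exact_mod_cast hn
  have hj : ∀ j ∈ Finset.Ico (n + 1) (n' + 1), 2 * |s| ≤ 3 * (j : ℝ) + 1 := fun j hj => by
    have : (n : ℝ) ≤ j := by exact_mod_cast (by have := (Finset.mem_Ico.1 hj).1; omega)
    linarith
  have hj' : ∀ j ∈ Finset.Ico (n + 1) (n' + 1), s < 3 * (j : ℝ) + 1 := fun j h => by
    have := hj j h
    have := le_abs_self s
    have : (0 : ℝ) ≤ j := by positivity
    have := abs_nonneg s
    linarith
  have t1 := tendsto_finsetProd (Finset.Ico (n + 1) (n' + 1)) fun j h => (gf_t j (hj' j h)).1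
  have t2 := (eventually_all_finset (Finset.Ico (n + 1) (n' + 1))).2 fun j h => (gf_t j (hj' j h)).2
  have t3 : ∏ j ∈ Finset.Ico (n + 1) (n' + 1), (3 * (j : ℝ) + 1) / (3 * j + 1 - s) <
      Real.exp (s * mu n n' + 1) := by
    refine lt_of_le_of_lt (Finset.prod_le_prod (fun j h => div_nonneg (by positivity)
      (by linarith [hj' j h])) fun j h => frac_le (by positivity) (hj j h)) ?_
    rw [← Real.exp_sum, Real.exp_lt_exp, Finset.sum_add_distrib, ← Finset.mul_sum, ← Finset.mul_sum]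
    have a3 := (mu_bounds hn h).2.2
    have a4 : (0 : ℝ) ≤ 1 / n' := by positivity
    have a5 : 2 * s ^ 2 * (1 / (n : ℝ)) ≤ 1 / 2 := by
      rw [mul_one_div, div_le_iff₀ (by positivity)]; linarith
    have a6 := mul_le_mul_of_nonneg_left (a3.trans (sub_le_self _ a4)) (show 0 ≤ 2 * s ^ 2 by positivity)
    unfold mu
    linarith
  filter_upwards [t1.eventually (gt_mem_nhds t3), t2, eventually_ge_atTop 2] with N a b hN R
  exact (moment2 hN R (Real.exp_pos _).le b).trans a.le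

lemma sub_Bx {m : ℕ} (Γ : Finset (Fin m → ℕ)) : ∃ R, Γ ⊆ Bx m R := by
  refine ⟨Γ.sup (fun r => Finset.univ.sup r) + 1, fun r hr => ?_⟩
  rw [Bx, Fintype.mem_piFinset]
  intro j
  rw [Finset.mem_range, Nat.lt_succ_iff]
  exact (Finset.le_sup (f := r) (Finset.mem_univ j)).trans
    (Finset.le_sup (f := fun r => Finset.univ.sup r) hr)

theorem win2 {l : ℕ} (hl : 1 ≤ l) {ε : ℝ} (hε : 0 < ε) : ∃ γ : ℝ, 0 < γ ∧ ∀ t0 : ℕ, ∃ n0 : ℕ,
    ∀ n n' : ℕ, n0 ≤ n → n ≤ n' → ∀ᶠ N in atTop, ∃ k : ℕ, t0 * N ≤ k ∧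
      ∃ Γ : Finset (Fin (n' + 1) → ℕ), γ ≤ ∑ r ∈ Γ, W N r ∧ ∀ r ∈ Γ,
        tm (exR r) (n + 1) ∈ Finset.Icc k (k + N / l) ∧
        |(gap (exR r) (n + 1) (n' + 1) : ℝ) * q N - (Real.log n' - Real.log n) / 3| ≤ ε := by
  classical
  obtain ⟨γ, hγ, hw⟩ := win hl
  refine ⟨γ / 2, by positivity, fun t0 => ?_⟩
  obtain ⟨n0, hw⟩ := hw t0
  obtain ⟨s, hs0, hs⟩ : ∃ s : ℝ, 0 < s ∧ Real.exp (1 - s * (ε / 2)) ≤ γ / 4 := by
    refine ⟨(|1 - Real.log (γ / 4)| + 1) / (ε / 2), by positivity, ?_⟩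
    rw [div_mul_cancel₀ _ (by positivity), ← Real.le_log_iff_exp_le (by positivity)]
    linarith [le_abs_self (1 - Real.log (γ / 4))]
  obtain ⟨n1, hn1⟩ := exists_nat_ge (2 * s + 4 * s ^ 2 + 2 / ε)
  refine ⟨n0 + n1 + 1, fun n n' h1 h2 => ?_⟩
  have hn : (n1 : ℝ) ≤ n := by exact_mod_cast (by omega)
  have hn' : (0 : ℝ) < n := by exact_mod_cast (by omega)
  have p1 : 0 < 2 / ε := by positivity
  have p2 := sq_nonneg s
  have hc : 1 / (n : ℝ) ≤ ε / 2 := by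
    have : 2 / ε ≤ n := by linarith
    rw [div_le_iff₀ hε] at this
    rw [div_le_iff₀ hn']; linarith
  have hm := (mu_close (show 1 ≤ n by omega) h2).trans hc
  filter_upwards [hw n n' (by omega) h2,
    expo (s := s) (show 1 ≤ n by omega) h2 (by rw [abs_of_pos hs0]; linarith) (by linarith),
    expo (s := -s) (show 1 ≤ n by omega) h2 (by rw [abs_neg, abs_of_pos hs0]; linarith)
      (by rw [neg_sq]; linarith), eventually_ge_atTop 2] with N ⟨k, _, hk, _, Γ, hΓ, hΓ'⟩ e1 e2 hN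
  obtain ⟨R, hR⟩ := sub_Bx Γ
  have hW : ∀ r : Fin (n' + 1) → ℕ, 0 ≤ W N r := W_nonneg hN
  set g : (Fin (n' + 1) → ℕ) → ℝ := fun r => (gap (exR r) (n + 1) (n' + 1) : ℝ) * q N with hg
  have ee : ∀ (t : ℝ) r, Real.exp (t * q N) ^ gap (exR r) (n + 1) (n' + 1) = Real.exp (t * g r) :=
    fun t r => by rw [← Real.exp_nat_mul, hg]; congr 1; ring
  simp only [ee] at e1 e2
  have key : ∀ t : ℝ, (∑ r ∈ Bx (n' + 1) R, W N r * Real.exp (t * g r) ≤ Real.exp (t * mu n n' + 1)) →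
      ∑ r ∈ Γ.filter (fun r => ¬ t * g r ≤ t * mu n n' + s * (ε / 2)), W N r ≤ γ / 4 := by
    intro t ht
    refine (Finset.sum_le_sum_of_subset_of_nonneg (Finset.filter_subset_filter _ hR)
      fun r _ _ => hW r).trans ((markov _ hW (f := fun r => Real.exp (t * g r))
        (fun r => (Real.exp_pos _).le) (c := Real.exp (t * mu n n' + s * (ε / 2))) (Real.exp_pos _) _
        fun r h => Real.exp_le_exp.2 (not_le.1 h).le).trans ?_)
    refine (div_le_div_of_nonneg_right ht (Real.exp_pos _).le).trans ?_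
    rw [← Real.exp_sub]
    refine le_trans (le_of_eq ?_) hs
    congr 1; ring
  have k1 := key s (e1 R)
  have k2 := key (-s) (e2 R)
  have k3 := sum_not_and Γ hW (fun r => s * g r ≤ s * mu n n' + s * (ε / 2))
    fun r => -s * g r ≤ -s * mu n n' + s * (ε / 2)
  have k4 := Finset.sum_filter_add_sum_filter_not Γ (fun r => s * g r ≤ s * mu n n' + s * (ε / 2) ∧
    -s * g r ≤ -s * mu n n' + s * (ε / 2)) (W N)
  refine ⟨k, hk, Γ.filter fun r => s * g r ≤ s * mu n n' + s * (ε / 2) ∧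
    -s * g r ≤ -s * mu n n' + s * (ε / 2), by linarith, fun r hr => ?_⟩
  obtain ⟨a1, a2, a3⟩ := Finset.mem_filter.1 hr
  refine ⟨(hΓ' r a1).1, ?_⟩
  have b1 : g r ≤ mu n n' + ε / 2 := le_of_mul_le_mul_left (by linarith) hs0
  have b2 : mu n n' - ε / 2 ≤ g r := le_of_mul_le_mul_left (by linarith) hs0
  rw [abs_le] at hm ⊢
  change _ ≤ g r - _ ∧ g r - _ ≤ _
  constructor <;> linarith [hm.1, hm.2]

end Pool.Agent.P.MP_8c7dae_pr.Reg

/-! Exponential growth rate of the corner to corner distance in continuous time. -/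


namespace Pool.Agent.P.MP_8c7dae_pr.Reg

open DePo

lemma log_step {x y m g : ℝ} (hy : 0 < y) (hm : 1 ≤ m) (hg : 0 ≤ g) (hg' : g ≤ 1 / 2)
    (h : |x - m * y| ≤ g * y) : |Real.log x - Real.log y - Real.log m| ≤ 2 * g := by
  have h1 : y ≤ m * y := le_mul_of_one_le_left hy.le hm
  have h2 : g * y ≤ g * (m * y) := mul_le_mul_of_nonneg_left h1 hg
  have h3 : g * (m * y) ≤ 1 / 2 * (m * y) := mul_le_mul_of_nonneg_right hg' (by linarith)
  obtain ⟨a1, a2⟩ := abs_le.1 h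
  have hx : 0 < x := by linarith
  have hz : 0 < m * y := by linarith
  have b1 := Real.log_le_sub_one_of_pos (div_pos hx hz)
  have b2 := Real.log_le_sub_one_of_pos (div_pos hz hx)
  rw [Real.log_div hx.ne' hz.ne', Real.log_mul (by linarith) hy.ne'] at b1
  rw [Real.log_div hz.ne' hx.ne', Real.log_mul (by linarith) hy.ne'] at b2
  have c1 : x / (m * y) ≤ 1 + g := by rw [div_le_iff₀ hz]; linarith
  have c2 : m * y / x ≤ 1 + 2 * g := by
    rw [div_le_iff₀ hx]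
    have : g * (m * y) ≤ g * (2 * x) := mul_le_mul_of_nonneg_left (by linarith) hg
    linarith
  rw [abs_le]
  constructor <;> linarith

/-- deviation from exponential growth along a grid of times -/
def Dev (k D J : ℕ) (b δ : ℝ) (ω : Om) : Prop :=
  ∃ i ∈ Finset.range (J + 1), δ < |Real.log (dc ω (k + i * D)) - Real.log (dc ω k) - i * b|

lemma elem_Dev (k D J : ℕ) (b δ : ℝ) : Elem (Dev k D J b δ) :=
  Elem.ex _ fun i _ => (elem_dc (k + i * D)).map₂ (elem_dc k) fun x y : ℕ =>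
    δ < |Real.log x - Real.log y - i * b|

lemma dev_small (l : ℕ) (hl : 1 ≤ l) : ∃ b : ℝ, b ≤ 1 / l ∧ ∀ (J : ℕ) (δ η : ℝ), 0 < δ → 0 < η →
    ∃ t0 : ℕ, ∀ᶠ N in (UF : Filter ℕ), ∀ k, t0 * N ≤ k → Pr N (Dev k (N / l) J b δ) ≤ η := by
  obtain ⟨m, hm1, hm, H1⟩ := phase1 l hl
  refine ⟨Real.log m, (Real.log_le_iff_le_exp (by linarith)).2 hm, fun J δ η hδ hη => ?_⟩
  set η' : ℝ := η / (2 * (J + 1)) with hη'
  have hp : 0 < η' := by positivity
  obtain ⟨κ, hκ, Hκ⟩ := dc_low η' hp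
  set g : ℝ := min (1 / 2) (δ / (2 * (J + 1))) with hg
  have hg0 : 0 < g := lt_min (by norm_num) (by positivity)
  set η2 : ℝ := min η' (g * κ)
  obtain ⟨t, Ht⟩ := H1 η2 (lt_min hp (by positivity))
  refine ⟨t, ?_⟩
  filter_upwards [Ht, Ph2.ev_ge 2] with N h hN k hk
  have eL : ∀ j, Elem (fun ω => (dc ω j : ℝ) < κ * a N j) := fun j =>
    (elem_dc j).map fun n : ℕ => (n : ℝ) < κ * a N j
  have eC := fun j => Ph2.elem_close j (j + N / l) m (η2 * a N j)
  have c := Pr_le_card (N := N) (Finset.range J) (elem_Dev k (N / l) J (Real.log m) δ)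
    (fun i _ => (eL (k + i * (N / l))).or (eC (k + i * (N / l)))) (ε := η' + η') (by
      rintro ω ⟨i, hi, hb⟩
      by_contra hcon
      simp only [not_exists, not_and, not_or] at hcon
      have key : ∀ i ≤ J, |Real.log (dc ω (k + i * (N / l))) - Real.log (dc ω k) -
          i * Real.log m| ≤ i * (2 * g) := by
        intro i hi
        induction i with
        | zero => simp
        | succ i ih =>
          have a1 := ih (by omega)
          obtain ⟨a2, a3⟩ := hcon i (Finset.mem_range.2 (by omega))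
          have a4 := not_lt.1 (a3 _ c00 _ c11)
          have a5 := not_lt.1 a2
          have a6 := Ph1.a_pos N (k + i * (N / l))
          have a7 := log_step (x := dc ω (k + i * (N / l) + N / l)) (y := dc ω (k + i * (N / l)))
            (by have := mul_pos hκ a6; linarith) hm1 hg0.le (min_le_left _ _) (a4.trans (by
              calc _ ≤ g * κ * a N (k + i * (N / l)) :=
                    mul_le_mul_of_nonneg_right (min_le_right _ _) a6.le
                _ = g * (κ * a N (k + i * (N / l))) := by ring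
                _ ≤ _ := mul_le_mul_of_nonneg_left a5 hg0.le))
          rw [show k + (i + 1) * (N / l) = k + i * (N / l) + N / l by ring]
          push_cast
          rw [abs_le] at a1 a7 ⊢
          constructor <;> linarith [a1.1, a1.2, a7.1, a7.2]
      have hi' : i ≤ J := by have := Finset.mem_range.1 hi; omega
      have a1 := key i hi'
      have a2 : (i : ℝ) ≤ J := by exact_mod_cast hi'
      have a3 : g * (2 * (J + 1)) ≤ δ := by
        rw [← le_div_iff₀ (by positivity)]; exact min_le_right _ _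
      nlinarith)
    fun i _ => (Pr_le_add ((eL _).or (eC _)) (eL _) (eC _) fun _ h => h).trans
      (add_le_add (Hκ N hN _) ((h _ (by omega)).trans (min_le_left _ _)))
  refine c.trans ?_
  rw [Finset.card_range]
  have : η' * (2 * (J + 1)) = η := by rw [hη']; field_simp
  nlinarith

lemma q_div {N l : ℕ} (hN : 2 ≤ N) (hl : 1 ≤ l) :
    ((N / l : ℕ) : ℝ) * q N ≤ 1 / l ∧ 1 / l - q N ≤ ((N / l : ℕ) : ℝ) * q N ∧
      (l ≤ N → 1 / l ≤ 2 * (((N / l : ℕ) : ℝ) * q N)) := by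
  have hq := q_pos hN
  have hl' : (0 : ℝ) < l := by exact_mod_cast hl
  have e := q_mul hN
  have h1 : ((N / l : ℕ) : ℝ) * l ≤ N := by exact_mod_cast Nat.div_mul_le_self N l
  have h2 : (N : ℝ) ≤ l * ((N / l : ℕ) + 1) := by
    exact_mod_cast (Nat.lt_mul_div_succ N (show 0 < l by omega)).le
  have h3 : 1 / (l : ℝ) ≤ ((N / l : ℕ) + 1) * q N := by
    rw [div_le_iff₀ hl']; nlinarith
  refine ⟨?_, by linarith, fun h => ?_⟩
  · rw [le_div_iff₀ hl']; nlinarith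
  · have : (1 : ℝ) ≤ (N / l : ℕ) := by exact_mod_cast (Nat.le_div_iff_mul_le (by omega)).2 (by omega)
    nlinarith

end Pool.Agent.P.MP_8c7dae_pr.Reg

/-! The growth rate is smaller than that of the diagonal. -/

namespace Pool.Agent.P.MP_8c7dae_pr.Reg

open DePo

/-- corner to corner distance inside the cell `c` -/
noncomputable def Dc (ω : Om) (k : ℕ) (c : Cell) : ℕ := dc (pull (emb c) ω) (k - S ω c)

lemma elem_Dc (k : ℕ) (c : Cell) : Elem (fun ω => Dc ω k c) :=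
  Elem.aged (F := fun j ω => dc ω j) elem_dc (emb c) c k

lemma reach_Dc {ω : Om} {k : ℕ} {c : Cell} (hc : Below root c) :
    Reach (TQ ω k) (Dc ω k c) ((emb c).ψ (0, 0)) ((emb c).ψ (1, 1)) :=
  Reach.up (ω := ω) (k := k) (emb c) (R := {root}) (R' := {root}) (j := k - S ω c)
    (fun r hr => by
      rw [Finset.mem_singleton.1 hr, emb_root, (below_root_iff c).1 hc]
      exact ⟨by simp, by omega⟩) (d_spec c00 c11)

lemma bel {c : Cell} (h : c ∈ desc 2 root) : Below root c := (mem_desc.1 h).2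

lemma route_a (ω : Om) (k : ℕ) :
    dc ω k ≤ Dc ω k (2, 0, 0) + Dc ω k (2, 1, 1) + Dc ω k (2, 2, 2) + Dc ω k (2, 3, 3) := by
  have h0 := reach_Dc (ω := ω) (k := k) (bel (c := (2, 0, 0)) (by decide))
  have h1 := reach_Dc (ω := ω) (k := k) (bel (c := (2, 1, 1)) (by decide))
  have h2 := reach_Dc (ω := ω) (k := k) (bel (c := (2, 2, 2)) (by decide))
  have h3 := reach_Dc (ω := ω) (k := k) (bel (c := (2, 3, 3)) (by decide))
  norm_num [emb] at h0 h1 h2 h3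
  exact d_le (((h0.trans h1).trans h2).trans h3)

lemma route_b (ω : Om) (k : ℕ) :
    dc ω k ≤ Dc ω k (2, 0, 0) + X (pull (emb (2, 1, 0)) ω) k + X (pull (emb (2, 2, 1)) ω) k +
      X (pull (emb (2, 3, 2)) ω) k + Dc ω k (2, 3, 3) := by
  have h0 := reach_Dc (ω := ω) (k := k) (bel (c := (2, 0, 0)) (by decide))
  have h3 := reach_Dc (ω := ω) (k := k) (bel (c := (2, 3, 3)) (by decide))
  have a1 := reach_Xh_Q (ω := ω) (k := k) (bel (c := (2, 1, 0)) (by decide))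
    (x := (1 / 4, 1 / 4)) (y := (1 / 2, 1 / 4)) (by norm_num [sq]) (by norm_num [sq])
  have a2 := reach_Xh_Q (ω := ω) (k := k) (bel (c := (2, 2, 1)) (by decide))
    (x := (1 / 2, 1 / 4)) (y := (3 / 4, 1 / 2)) (by norm_num [sq]) (by norm_num [sq])
  have a3 := reach_Xh_Q (ω := ω) (k := k) (bel (c := (2, 3, 2)) (by decide))
    (x := (3 / 4, 1 / 2)) (y := (3 / 4, 3 / 4)) (by norm_num [sq]) (by norm_num [sq])
  norm_num [emb] at h0 h3 a1 a2 a3
  refine (d_le ((((h0.trans a1).trans a2).trans a3).trans h3)).trans ?_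
  have m : ∀ c, Xh ω k c ≤ X (pull (emb c) ω) k := fun c => X_mono (Nat.sub_le _ _)
  have := m (2, 1, 0)
  have := m (2, 2, 1)
  have := m (2, 3, 2)
  omega

/-- mean corner to corner distance -/
noncomputable def fm (N k : ℕ) : ℝ := E N fun ω => (dc ω k : ℝ)

lemma fm_le (N k : ℕ) : fm N k ≤ 2 ^ k :=
  E_le_const (elem_dc k).cast fun ω => by exact_mod_cast d_le (reach_two_pow k _ c00 _ c11)

lemma term_le {N k : ℕ} (hN : 2 ≤ N) {θ C : ℝ} (hθ : 0 ≤ θ) (hC : 0 ≤ C) (hk : 0 < k)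
    (ih : ∀ j < k, fm N j ≤ C * Real.exp (θ * q N * j)) {c : Cell} (hc : c.1 = 2) {H : Om → Prop}
    (hH : Elem H) (d1 : DependsOn H (Sub1 c)ᶜ) (d2 : DependsOn H (Deep 2)) :
    E N (fun ω => ind (H ω) * Dc ω k c) ≤
      Pr N H * (C * Real.exp (θ * q N * k) * (1 / (1 + θ)) ^ 2) + 1 := by
  have hq := q_pos hN
  have n1 := nice_exp_S (x := θ * q N) (by positivity) c
  have r : ∀ ω, Res N (Sub1 c) (fun ω => (Dc ω k c : ℝ)) ω = fm N (k - S ω c) := fun ω =>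
    Res_aged (N := N) (F := fun j ω => (dc ω j : ℝ)) (fun j => (elem_dc j).cast) (emb c)
      (s := Sub1 c) (fun j => by
        have := dep_pull_sub1 ((dep_TQ j).qmap fun A => (dS A {(0, 0)} {(1, 1)} : ℝ)) (emb c)
        rwa [emb_root] at this)
      (φ := fun ω => k - S ω c) ((MomA.dep_S_sub1 c).qmap fun n => k - n) ω
  rw [E_mul_Res hH.ind (elem_Dc k c).cast (dep_ind d1)]
  have h1 : E N (fun ω => ind (H ω) * Res N (Sub1 c) (fun ω => (Dc ω k c : ℝ)) ω) ≤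
      E N (fun ω => C * Real.exp (θ * q N * k) *
        (Real.exp (-(θ * q N) * (S ω c : ℝ)) * ind (H ω)) + 1) := by
    refine E_mono (hH.ind.mul ((elem_Dc k c).cast.res N _))
      (((n1.mul hH.ind).cmul _).add (Nice.const 1)) fun ω => ?_
    by_cases h : H ω
    · rw [ind_pos h, one_mul, mul_one, r]
      rcases le_total k (S ω c) with h1 | h1
      · rw [Nat.sub_eq_zero_of_le h1]
        have := fm_le N 0
        have : 0 ≤ C * Real.exp (θ * q N * k) * Real.exp (-(θ * q N) * (S ω c : ℝ)) := by positivity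
        linarith
      · have := fst_le_S (ω := ω) c
        refine (ih _ (by omega)).trans ?_
        rw [mul_assoc C, ← Real.exp_add, Nat.cast_sub h1]
        exact le_add_of_le_of_nonneg (le_of_eq (by congr 2; ring)) zero_le_one
    · rw [ind_neg h]; simp
  rw [E_add ((n1.mul hH.ind).cmul _) (Nice.const 1), E_const, E_cmul,
    E_mul_indep n1 hH.ind ((dep_S_deep hc.le).qmap fun n : ℕ => Real.exp (-(θ * q N) * (n : ℝ)))
      (dep_ind d2)] at h1
  have h2 := E_exp_S hN hθ c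
  rw [hc] at h2
  have h3 := mul_le_mul_of_nonneg_right h2 (Pr_nonneg (N := N) H)
  have h4 := mul_le_mul_of_nonneg_left h3 (show 0 ≤ C * Real.exp (θ * q N * k) by positivity)
  unfold Pr at *
  linarith

lemma a_le_fm : ∃ κ : ℝ, 0 < κ ∧ ∀ N, 2 ≤ N → ∀ k, κ * a N k ≤ 2 * fm N k := by
  obtain ⟨κ, hκ, H⟩ := dc_low (1 / 2) (by norm_num)
  refine ⟨κ, hκ, fun N hN k => ?_⟩
  have e : Elem (fun ω => (dc ω k : ℝ) < κ * a N k) :=
    (elem_dc k).map fun n : ℕ => (n : ℝ) < κ * a N k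
  have hp := mul_pos hκ (Ph1.a_pos N k)
  have h1 := Pr_le_E_div (N := N) e.not (elem_dc k).cast hp (fun ω => by positivity)
    fun ω h => not_lt.1 h
  rw [Pr_not e, le_div_iff₀ hp] at h1
  have := H N hN k
  unfold fm
  nlinarith

theorem a_up : ∃ θ : ℝ, 0 ≤ θ ∧ θ < 1 ∧ ∀ N, 2 ≤ N → ∃ C : ℝ, 0 < C ∧ ∀ k,
    (a N k : ℝ) ≤ C * Real.exp (θ * q N * k) := by
  obtain ⟨κ, hκ, Hκ⟩ := a_le_fm
  obtain ⟨γ, hγ, t0, HX⟩ := X_small (κ / 24) (by positivity)
  have hγ1 : γ ≤ 1 := (HX 2 le_rfl _ le_rfl).trans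
    (Pr_le_one ((elem_X _).map fun n : ℕ => (n : ℝ) ≤ κ / 24 * a 2 (t0 * 2)))
  set δ := γ ^ 3 / 8 with hδ
  have hδ0 : 0 < δ := by positivity
  have hδ1 : δ ≤ 1 / 8 := by have := pow_le_one₀ hγ.le hγ1 (n := 3); linarith
  set θ := 1 - δ / 4 with hθ
  have hθ0 : 0 ≤ θ := by linarith
  have hΦ : (1 / (1 + θ)) ^ 2 ≤ (1 + δ) / 4 := by
    rw [div_pow, div_le_div_iff₀ (by positivity) (by norm_num), hθ]
    nlinarith [mul_nonneg hδ0.le (sq_nonneg δ)]
  refine ⟨θ, hθ0, by linarith, fun N hN => ?_⟩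
  have hq := q_pos hN
  set C : ℝ := 2 ^ (t0 * N + 2 * N) + 4 / δ with hC
  have hC0 : 0 < C := by positivity
  have key : ∀ k, fm N k ≤ C * Real.exp (θ * q N * k) := by
    intro k
    induction k using Nat.strong_induction_on with
    | _ k ih =>
      have hB : C ≤ C * Real.exp (θ * q N * k) :=
        le_mul_of_one_le_right hC0.le (Real.one_le_exp (by positivity))
      set B := C * Real.exp (θ * q N * k) with hBd
      rcases le_or_gt k (t0 * N + 2 * N) with hk | hk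
      · have h1 : (2 : ℝ) ^ k ≤ 2 ^ (t0 * N + 2 * N) := pow_le_pow_right₀ one_le_two hk
        have : 0 < 4 / δ := by positivity
        linarith [fm_le N k]
      set y : ℝ := κ / 24 * a N (k - 2 * N) with hy
      have hy1 : 3 * y ≤ B / 4 := by
        have a1 := Hκ N hN (k - 2 * N)
        have a2 := ih (k - 2 * N) (by omega)
        have a3 : C * Real.exp (θ * q N * (k - 2 * N : ℕ)) ≤ B := by
          have : ((k - 2 * N : ℕ) : ℝ) ≤ k := by exact_mod_cast Nat.sub_le _ _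
          rw [hBd]; gcongr
        linarith
      have eX : Elem fun ω => (X ω k : ℝ) ≤ y := (elem_X _).map fun n : ℕ => (n : ℝ) ≤ y
      let A : Cell → Om → Prop := fun c ω => (X (pull (emb c) ω) k : ℝ) ≤ y
      have eA : ∀ c, Elem (A c) := fun c => eX.pull _
      have dA : ∀ c, DependsOn (A c) (Sub1 c) := fun c => by
        simpa using dep_pull_sub1 ((dep_X k).qmap fun n : ℕ => (n : ℝ) ≤ y) (emb c)
      have dD : ∀ c : Cell, c.1 = 2 → DependsOn (A c) (Deep 2) := fun c hc =>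
        dep_pull_deep (fun ω => (X ω k : ℝ) ≤ y) (emb c) hc.ge
      have pA : ∀ c, γ ≤ Pr N (A c) := fun c => by
        have := HX N hN (k - 2 * N) (by omega)
        rw [show k - 2 * N + 2 * N = k by omega] at this
        rwa [Pr_pull eX]
      let G : Om → Prop := fun ω => (A (2, 1, 0) ω ∧ A (2, 2, 1) ω) ∧ A (2, 3, 2) ω
      have eG : Elem G := ((eA _).and (eA _)).and (eA _)
      have dG : ∀ c : Cell, c.1 = 2 → (2, 1, 0) ≠ c → (2, 2, 1) ≠ c → (2, 3, 2) ≠ c →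
          DependsOn (fun ω => ¬ G ω) (Sub1 c)ᶜ := fun c h0 h1 h2 h3 =>
        ((((dA _).mono (sub1_compl h0.symm h1)).qmap₂ ((dA _).mono (sub1_compl h0.symm h2))
          And).qmap₂ ((dA _).mono (sub1_compl h0.symm h3)) And).qmap Not
      have dG' : DependsOn (fun ω => ¬ G ω) (Deep 2) :=
        (((dD _ rfl).qmap₂ (dD _ rfl) And).qmap₂ (dD _ rfl) And).qmap Not
      have pG : γ ^ 3 ≤ Pr N G := by
        have f1 : Sub1 (2, 1, 0) ⊆ (Sub1 (2, 3, 2))ᶜ := sub1_compl rfl (by decide)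
        have f2 : Sub1 (2, 2, 1) ⊆ (Sub1 (2, 3, 2))ᶜ := sub1_compl rfl (by decide)
        have f3 : Sub1 (2, 1, 0) ⊆ (Sub1 (2, 2, 1))ᶜ := sub1_compl rfl (by decide)
        rw [Pr_and_indep ((eA (2, 1, 0)).and (eA (2, 2, 1))) (eA (2, 3, 2))
          (((dA _).mono f1).qmap₂ ((dA _).mono f2) And) (dA _),
          Pr_and_indep (eA (2, 1, 0)) (eA (2, 2, 1)) ((dA _).mono f3) (dA _), pow_succ, pow_two]
        have := Pr_nonneg (N := N) (A (2, 1, 0))
        have := Pr_nonneg (N := N) (A (2, 2, 1))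
        gcongr
        exacts [pA _, pA _, pA _]
      have pG1 := Pr_le_one (N := N) eG
      have eT : Elem fun _ : Om => True := Elem.const _
      have t0' := term_le hN hθ0 hC0.le (by omega) ih (c := (2, 0, 0)) rfl eT
        (fun _ _ _ => rfl) (fun _ _ _ => rfl)
      have t3 := term_le hN hθ0 hC0.le (by omega) ih (c := (2, 3, 3)) rfl eT
        (fun _ _ _ => rfl) (fun _ _ _ => rfl)
      have t1 := term_le hN hθ0 hC0.le (by omega) ih (c := (2, 1, 1)) rfl eG.not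
        (dG _ rfl (by decide) (by decide) (by decide)) dG'
      have t2 := term_le hN hθ0 hC0.le (by omega) ih (c := (2, 2, 2)) rfl eG.not
        (dG _ rfl (by decide) (by decide) (by decide)) dG'
      rw [Pr_true fun _ => trivial] at t0' t3
      rw [Pr_not eG] at t1 t2
      have n0 := eT.ind.mul (elem_Dc k (2, 0, 0)).cast
      have n3 := eT.ind.mul (elem_Dc k (2, 3, 3)).cast
      have n1 := eG.not.ind.mul (elem_Dc k (2, 1, 1)).cast
      have n2 := eG.not.ind.mul (elem_Dc k (2, 2, 2)).cast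
      have n4 := eG.ind.cmul (B / 4)
      have main := E_mono (N := N) (elem_dc k).cast ((((n0.add n3).add n1).add n2).add n4)
        fun ω => by
          rw [ind_pos trivial]
          by_cases h : G ω
          · rw [ind_pos h, ind_neg (not_not.2 h)]
            have b1 : (dc ω k : ℝ) ≤ _ := Nat.cast_le.2 (route_b ω k)
            obtain ⟨⟨b2, b3⟩, b4⟩ := h
            simp only [A] at b2 b3 b4
            push_cast at b1
            linarith
          · rw [ind_pos h, ind_neg h]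
            have b1 : (dc ω k : ℝ) ≤ _ := Nat.cast_le.2 (route_a ω k)
            push_cast at b1
            linarith
      rw [E_add (((n0.add n3).add n1).add n2) n4, E_add ((n0.add n3).add n1) n2,
        E_add (n0.add n3) n1, E_add n0 n3, E_cmul (B / 4)] at main
      change fm N k ≤ _ + B / 4 * Pr N G at main
      rw [← hBd] at t0' t1 t2 t3
      have hB0 : 0 < B := by linarith
      have c1 : B * (1 / (1 + θ)) ^ 2 ≤ B * ((1 + δ) / 4) := by gcongr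
      have c2 := mul_le_mul_of_nonneg_left c1 (show 0 ≤ 1 - Pr N G by linarith)
      have c3 : 4 ≤ B * δ := by
        have : 4 / δ ≤ B := by
          have : (0 : ℝ) < 2 ^ (t0 * N + 2 * N) := by positivity
          linarith
        rwa [div_le_iff₀ hδ0] at this
      have c4 : B * (8 * δ) ≤ B * Pr N G := by gcongr; linarith
      have c5 : 0 ≤ B * δ * Pr N G := by have := Pr_nonneg (N := N) G; positivity
      nlinarith
  refine ⟨2 * C / κ, by positivity, fun k => ?_⟩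
  have := Hκ N hN k
  rw [div_mul_eq_mul_div, le_div_iff₀ hκ]
  linarith [key k]

lemma b_up : ∃ θ : ℝ, θ < 1 ∧ ∀ (l : ℕ) (b : ℝ), 1 ≤ l → (∀ J : ℕ, ∃ t0 : ℕ,
    ∀ᶠ N in (UF : Filter ℕ), ∀ k, t0 * N ≤ k → Pr N (Dev k (N / l) J b 1) ≤ 1 / 4) → b ≤ θ / l := by
  obtain ⟨θ, hθ0, hθ, Ha⟩ := a_up
  obtain ⟨κ, hκ, Hκ⟩ := dc_low (1 / 4) (by norm_num)
  obtain ⟨K, hK, HK⟩ := Ph1.X_tail (η := 1 / 4) (by norm_num)
  refine ⟨θ, hθ, fun l b hl H => ?_⟩
  by_contra hcon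
  have hgap : 0 < b - θ / l := by linarith [not_le.1 hcon]
  obtain ⟨J, hJ⟩ := exists_nat_gt ((2 - Real.log (κ / K)) / (b - θ / l))
  rw [div_lt_iff₀ hgap] at hJ
  obtain ⟨t, Ht⟩ := H J
  obtain ⟨N, h, hN⟩ := (Ht.and (Ph2.ev_ge 2)).exists
  obtain ⟨C, hC, Ha⟩ := Ha N hN
  have step : ∀ k, t * N ≤ k → Real.log (a N k) + (J * b - 1 + Real.log (κ / K)) ≤
      Real.log (a N (k + J * (N / l))) := by
    intro k hk
    by_contra hc
    set k' := k + J * (N / l) with hk'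
    have e1 := elem_Dev k (N / l) J b 1
    have e2 : Elem (fun ω => (dc ω k : ℝ) < κ * a N k) :=
      (elem_dc k).map fun n : ℕ => (n : ℝ) < κ * a N k
    have e3 : Elem (fun ω => K * a N k' < (X ω k' : ℝ)) :=
      (elem_X k').map fun n : ℕ => K * a N k' < (n : ℝ)
    have c1 := Pr_le_add (N := N) (e2.or e3) e2 e3 fun _ h => h
    have c2 := Pr_le_add (N := N) (A := fun _ => True) (Elem.const _) e1 (e2.or e3) (by
      intro ω _
      by_contra hh
      simp only [not_or, not_lt, Dev, not_exists, not_and] at hh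
      obtain ⟨a1, a2, a3⟩ := hh
      have a4 := (abs_le.1 (a1 J (Finset.self_mem_range_succ J))).1
      have a6 : (dc ω k' : ℝ) ≤ X ω k' := by exact_mod_cast d_le_X c00 c11
      have a7 : (1 : ℝ) ≤ dc ω k' := by exact_mod_cast one_le_dc k'
      have a8 := Ph1.a_pos N k
      have a9 := Ph1.a_pos N k'
      have b1 := Real.log_le_log (by positivity) a2
      have b2 := Real.log_le_log (by positivity) (a6.trans a3)
      rw [Real.log_mul hκ.ne' a8.ne'] at b1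
      rw [Real.log_mul hK.ne' a9.ne'] at b2
      rw [Real.log_div hκ.ne' hK.ne'] at hc
      rw [← hk'] at a4
      exact hc (by linarith))
    rw [Pr_true fun _ => trivial] at c2
    linarith [h k hk, Hκ N hN k, HK N hN k']
  have iter : ∀ i : ℕ, i * (J * b - 1 + Real.log (κ / K)) ≤
      Real.log (a N (t * N + i * (J * (N / l)))) := by
    intro i
    induction i with
    | zero => simpa using Real.log_natCast_nonneg _
    | succ i ih =>
      have := step (t * N + i * (J * (N / l))) (by omega)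
      rw [show t * N + (i + 1) * (J * (N / l)) = t * N + i * (J * (N / l)) + J * (N / l) by ring]
      push_cast
      linarith
  obtain ⟨i, hi⟩ := exists_nat_gt (Real.log C + θ * q N * (t * N : ℕ))
  have h1 := (iter i).trans (Real.log_le_log (Ph1.a_pos _ _) (Ha _))
  rw [Real.log_mul hC.ne' (Real.exp_pos _).ne', Real.log_exp, Nat.cast_add, Nat.cast_mul i,
    Nat.cast_mul J] at h1
  have h2 := mul_le_mul_of_nonneg_left (q_div hN hl).1 (show 0 ≤ θ * i * J by positivity)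
  have h3 := mul_le_mul_of_nonneg_left hJ.le (show (0 : ℝ) ≤ i by positivity)
  have h4 : θ * i * J * (1 / l) = i * (J * (θ / l)) := by ring
  nlinarith

end Pool.Agent.P.MP_8c7dae_pr.Reg

namespace Pool.Agent.P.MP_8c7dae_pr.Reg

open DePo

theorem geo_pow : ∃ c0 θ : ℝ, 0 < c0 ∧ θ < 1 ∧ ∀ l : ℕ, 1 ≤ l → ∃ b : ℝ, c0 / l ≤ b ∧ b ≤ θ / l ∧
    ∀ (J : ℕ) (δ η : ℝ), 0 < δ → 0 < η →
      ∃ t0 : ℕ, ∀ᶠ N in (UF : Filter ℕ), ∀ k, t0 * N ≤ k → Pr N (Dev k (N / l) J b δ) ≤ η := by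
  obtain ⟨c, hc, -, hdec⟩ := a_decay
  obtain ⟨κ, hκ, Hκ⟩ := dc_low (1 / 4) (by norm_num)
  obtain ⟨K, hK, HK⟩ := Ph1.X_tail (η := 1 / 4) (by norm_num)
  obtain ⟨θ, hθ, Hθ⟩ := b_up
  refine ⟨c / 2, θ, by positivity, hθ, fun l hl => ?_⟩
  obtain ⟨b, -, H⟩ := dev_small l hl
  refine ⟨b, ?_, Hθ l b hl fun J => H J 1 (1 / 4) one_pos (by norm_num), H⟩
  by_contra hcon
  have hgap : 0 < c / 2 / l - b := by linarith [not_le.1 hcon]
  obtain ⟨J, hJ⟩ := exists_nat_gt ((1 - Real.log (κ / (2 * K))) / (c / 2 / l - b))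
  rw [div_lt_iff₀ hgap] at hJ
  obtain ⟨t, Ht⟩ := H J 1 (1 / 4) one_pos (by norm_num)
  obtain ⟨N, h, hN, hN'⟩ := (Ht.and ((Ph2.ev_ge 2).and (Ph2.ev_ge l))).exists
  set k := t * N
  set k' := k + J * (N / l) with hk'
  have e1 := elem_Dev k (N / l) J b 1
  have e2 : Elem (fun ω => (dc ω k' : ℝ) < κ * a N k') :=
    (elem_dc k').map fun n : ℕ => (n : ℝ) < κ * a N k'
  have e3 : Elem (fun ω => K * a N k < (X ω k : ℝ)) := (elem_X k).map fun n : ℕ => K * a N k < (n : ℝ)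
  have c1 := Pr_le_add (N := N) (e2.or e3) e2 e3 fun _ h => h
  have c2 := Pr_le_add (N := N) (A := fun _ => True) (Elem.const _) e1 (e2.or e3) (by
    intro ω _
    by_contra hh
    simp only [not_or, not_lt, Dev, not_exists, not_and] at hh
    obtain ⟨a1, a2, a3⟩ := hh
    have a4 := (abs_le.1 (a1 J (Finset.self_mem_range_succ J))).2
    have a5 := hdec N hN k' (J * (N / l)) (by omega)
    rw [show k' - J * (N / l) = k by omega] at a5
    have a6 : (dc ω k : ℝ) ≤ X ω k := by exact_mod_cast d_le_X c00 c11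
    have a7 : (1 : ℝ) ≤ dc ω k := by exact_mod_cast one_le_dc k
    have a8 := Ph1.a_pos N k'
    have a9 : κ / (2 * K) * dc ω k ≤ Real.exp (-(c * q N) * (J * (N / l) : ℕ)) * dc ω k' := by
      rw [div_mul_eq_mul_div, div_le_iff₀ (by positivity)]
      have := Real.exp_pos (-(c * q N) * (J * (N / l) : ℕ))
      calc κ * dc ω k ≤ κ * (K * (2 * Real.exp (-(c * q N) * (J * (N / l) : ℕ)) * a N k')) := by
            gcongr
            exact a6.trans (a3.trans (by gcongr))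
        _ = Real.exp (-(c * q N) * (J * (N / l) : ℕ)) * (κ * a N k') * (2 * K) := by ring
        _ ≤ _ := by gcongr
    have b1 := Real.log_le_log (by positivity) a9
    rw [Real.log_mul (by positivity) (by positivity), Real.log_mul (Real.exp_pos _).ne'
      (by have := mul_pos hκ a8; linarith), Real.log_exp] at b1
    have b2 := (q_div hN hl).2.2 hN'
    push_cast at b1
    have b3 : c * J * (1 / l) ≤ c * J * (2 * (((N / l : ℕ) : ℝ) * q N)) :=
      mul_le_mul_of_nonneg_left b2 (by positivity)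
    have b4 : c * J * (1 / l) = 2 * (J * (c / 2 / l)) := by ring
    rw [← hk'] at a4
    nlinarith)
  rw [Pr_true fun _ => trivial] at c2
  linarith [h k le_rfl, Hκ N hN k', HK N hN k]

end Pool.Agent.P.MP_8c7dae_pr.Reg

/-! Regular variation of the normalising sequence. -/


namespace Pool.Agent.P.MP_8c7dae_pr.Reg

open DePo

lemma grid_close {ω : Om} {N l T k j G : ℕ} {β L : ℝ} (hN : 2 ≤ N) (hl : 1 ≤ l)
    (hN' : l * (2 * l * (T + 1) + 2) ≤ N) (h0 : 0 ≤ β) (h1 : β ≤ 1) (hL : L ≤ T)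
    (hj : j ∈ Finset.Icc k (k + N / l)) (hG : |(G : ℝ) * q N - L / 3| ≤ 1 / l)
    (hD : ¬ Dev k (N / l) (2 * l * (T + 1) + 2) (β * (1 / l)) (1 / l) ω) :
    |Real.log (dc ω (j + G)) - Real.log (dc ω j) - β * L / 3| ≤ 5 / l := by
  obtain ⟨j1, j2⟩ := Finset.mem_Icc.1 hj
  have hlN : l ≤ N := le_trans (Nat.le_mul_of_pos_right _ (by omega)) hN'
  obtain ⟨u1, u2, u3⟩ := q_div hN hl
  have u3 := u3 hlN
  set D := N / l with hDd
  have hD0 : 0 < D := (Nat.le_div_iff_mul_le (by omega)).2 (by omega)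
  set i := (j + G - k) / D with hi
  have i1 : i * D ≤ j + G - k := Nat.div_mul_le_self _ _
  have i2 : j + G - k < D * (i + 1) := Nat.lt_mul_div_succ _ hD0
  have hq := q_pos hN
  have hl' : (1 : ℝ) ≤ l := by exact_mod_cast hl
  set e : ℝ := 1 / l with he
  have he0 : 0 < e := by positivity
  have he1 : e ≤ 1 := by rw [he, div_le_one (by linarith)]; exact hl'
  have hel : e * l = 1 := by rw [he]; field_simp
  set u : ℝ := D * q N with hu
  obtain ⟨g1, g2⟩ := abs_le.1 hG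
  have r1 : i * u ≤ u + G * q N := by
    have : (i : ℝ) * D ≤ D + G := by exact_mod_cast (by omega)
    have := mul_le_mul_of_nonneg_right this hq.le
    rw [hu]; linarith
  have r2 : G * q N ≤ (i + 1) * u := by
    have : (G : ℝ) ≤ D * (i + 1) := by exact_mod_cast (by omega)
    have := mul_le_mul_of_nonneg_right this hq.le
    rw [hu]; linarith
  have hT : (0 : ℝ) ≤ T := by positivity
  have r3 : i + 1 ≤ 2 * l * (T + 1) + 2 := by
    by_contra hc
    have a1 : (2 * l * (T + 1) + 2 : ℝ) ≤ i := by exact_mod_cast (by omega)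
    have a2 : 0 ≤ (i : ℝ) - 1 := by nlinarith
    have a3 := mul_le_mul_of_nonneg_left u3 a2
    have a4 := mul_le_mul_of_nonneg_right a1 he0.le
    have a5 : (2 * l * (T + 1) + 2 : ℝ) * e = 2 * (T + 1) * (e * l) + 2 * e := by ring
    rw [hel] at a5
    nlinarith
  have r4 : ((i : ℝ) + 1) * q N ≤ e := by
    have a1 : (l : ℝ) * (i + 1) ≤ N := by
      exact_mod_cast (Nat.mul_le_mul_left l r3).trans hN'
    have a2 := mul_le_mul_of_nonneg_right a1 (mul_pos hq he0).le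
    have a3 : (l : ℝ) * (i + 1) * (q N * e) = (i + 1) * q N * (e * l) := by ring
    have a4 : (N : ℝ) * (q N * e) = (q N * N) * e := by ring
    rw [a3, a4, hel, q_mul hN] at a2
    linarith
  have hi0 : (0 : ℝ) ≤ i := by positivity
  have s1 : ((i : ℝ) + 1) * e ≤ L / 3 + 4 * e := by
    have := mul_le_mul_of_nonneg_left u2 (show (0 : ℝ) ≤ i + 1 by linarith)
    nlinarith
  have s2 : L / 3 - 3 * e ≤ ((i : ℝ) - 1) * e := by
    have := mul_le_mul_of_nonneg_left u1 (show (0 : ℝ) ≤ i + 1 by linarith)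
    nlinarith
  have s3 := mul_le_mul_of_nonneg_left s1 h0
  have s4 := mul_le_mul_of_nonneg_left s2 h0
  have s5 : β * e ≤ e := mul_le_of_le_one_left he0.le h1
  simp only [Dev, not_exists, not_and, not_lt, Finset.mem_range] at hD
  have d1 := (abs_le.1 (hD i (by omega))).1
  have d2 := (abs_le.1 (hD (i + 1) (by omega))).2
  have d3 := (abs_le.1 (hD 1 (by omega))).2
  have mono : ∀ a b : ℕ, a ≤ b → Real.log (dc ω a) ≤ Real.log (dc ω b) := fun a b h =>
    Real.log_le_log (by exact_mod_cast one_le_dc a) (by exact_mod_cast d_mono h c00 c11)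
  have m1 := mono (k + i * D) (j + G) (by omega)
  have m2 := mono (j + G) (k + (i + 1) * D) (by rw [mul_comm (i + 1)]; omega)
  have m3 := mono k j j1
  have m4 := mono j (k + 1 * D) (by omega)
  push_cast at d2 d3
  rw [show (5 : ℝ) / l = 5 * e by rw [he]; ring, abs_le]
  constructor <;> nlinarith

theorem depo_pow : ∃ c0 θ : ℝ, 0 < c0 ∧ θ < 1 ∧ ∀ l : ℕ, 1 ≤ l → ∃ β : ℝ, c0 ≤ β ∧ β ≤ θ ∧
    ∀ (T : ℕ) (η : ℝ), 0 < η → ∃ n0 : ℕ, ∀ n n' : ℕ, n0 ≤ n → n ≤ n' →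
      Real.log n' - Real.log n ≤ T → Pι.real {ι | 5 / (l : ℝ) <
        |Real.log (Mc n' ι) - Real.log (Mc n ι) - β * (Real.log n' - Real.log n) / 3|} ≤ η := by
  obtain ⟨c0, θ, hc0, hθ, H⟩ := geo_pow
  refine ⟨c0, θ, hc0, hθ, fun l hl => ?_⟩
  obtain ⟨b, b1, b2, H⟩ := H l hl
  have hl' : (0 : ℝ) < l := by exact_mod_cast hl
  have c1 : c0 ≤ b * l := (div_le_iff₀ hl').1 b1
  have c2 : b * l ≤ θ := (le_div_iff₀ hl').1 b2
  refine ⟨b * l, c1, c2, fun T η hη => ?_⟩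
  obtain ⟨γ, hγ, hw⟩ := win2 hl (ε := 1 / l) (by positivity)
  obtain ⟨t0, H⟩ := H (2 * l * (T + 1) + 2) (1 / l) (η * γ) (by positivity) (by positivity)
  obtain ⟨n0, hw⟩ := hw t0
  refine ⟨n0, fun n n' h1 h2 h3 => ?_⟩
  obtain ⟨N, H, ⟨k, hk, Γ, hΓ, hΓ'⟩, hN, hN'⟩ := (H.and (((hw n n' h1 h2).filter_mono UF_le).and
    ((Ph2.ev_ge 2).and (Ph2.ev_ge (l * (2 * l * (T + 1) + 2)))))).exists
  refine le_of_mul_le_mul_right (le_trans ?_ (H k hk)) hγ
  refine (mul_le_mul_of_nonneg_left hΓ measureReal_nonneg).trans (main_lb hN n' _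
    (fun ι ι' h => by rw [Mc_congr h le_rfl, Mc_congr h h2]; exact id) Γ
    (elem_Dev _ _ _ _ _) fun ι ω r hr hι he => ?_)
  by_contra hD
  have := grid_close (ω := ω) (β := b * l) hN hl hN' (hc0.le.trans c1) (c2.trans hθ.le) h3 (hΓ' r hr).1 (hΓ' r hr).2
    (by rwa [mul_assoc b, mul_one_div_cancel hl'.ne', mul_one])
  rw [← tm_gap _ (by omega), he.dc_eq le_rfl, he.dc_eq h2] at this
  exact absurd hι (not_lt.2 this)

variable {Ω : Type} [MeasurableSpace Ω] (P : Measure Ω) [IsProbabilityMeasure P]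

lemma three {A B C : Set Ω} (h : P.real A + P.real B + P.real C < 1) :
    ∃ ω, ω ∉ A ∧ ω ∉ B ∧ ω ∉ C := by
  by_contra hc
  have e : A ∪ B ∪ C = univ := eq_univ_of_forall fun ω => by
    by_contra h'
    simp only [mem_union, not_or] at h'
    exact hc ⟨ω, h'.1.1, h'.1.2, h'.2⟩
  have h1 := measureReal_union_le (μ := P) (A ∪ B) C
  have h2 := measureReal_union_le (μ := P) A B
  rw [e, probReal_univ] at h1
  linarith

lemma drift (ξ : ℕ → Ω → ℝ) (η : Ω → ℝ) (α : ℕ → ℝ) {c0 θ : ℝ}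
    (hα : ∀ ε, 0 < ε → ∀ᶠ m in atTop, P.real {ω | ε < |ξ m ω - α m - η ω|} ≤ ε)
    (H : ∀ l : ℕ, 1 ≤ l → ∃ β : ℝ, c0 ≤ β ∧ β ≤ θ ∧
      ∀ (T : ℕ) (η : ℝ), 0 < η → ∃ n0 : ℕ, ∀ n n' : ℕ, n0 ≤ n → n ≤ n' →
        Real.log n' - Real.log n ≤ T → P.real {ι | 5 / (l : ℝ) <
          |ξ n' ι - ξ n ι - β * (Real.log n' - Real.log n) / 3|} ≤ η) :
    ∃ β : ℝ, c0 ≤ β ∧ β ≤ θ ∧ ∀ (T : ℕ) (δ : ℝ), 0 < δ → ∃ n0 : ℕ, ∀ n n' : ℕ, n0 ≤ n → n0 ≤ n' →
      |Real.log n' - Real.log n| ≤ T →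
        |α n' - α n - β / 3 * (Real.log n' - Real.log n)| ≤ δ := by
  choose β h1 h2 H using fun l : ℕ => H (l + 1) (by omega)
  obtain ⟨b, hb, φ, hφ, hlim⟩ := (isCompact_Icc (a := c0) (b := θ)).tendsto_subseq
    (x := β) fun l => ⟨h1 l, h2 l⟩
  refine ⟨b, hb.1, hb.2, fun T δ hδ => ?_⟩
  have t1 := (Metric.tendsto_nhds.1 hlim) (δ / 4 / (T + 1)) (by positivity)
  have t2 : ∀ᶠ i in atTop, 5 / ((φ i + 1 : ℕ) : ℝ) < δ / 4 := by
    have := (tendsto_const_div_atTop_nhds_zero_nat (5 : ℝ)).comp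
      ((tendsto_add_atTop_nat 1).comp hφ.tendsto_atTop)
    exact this.eventually (gt_mem_nhds (by positivity))
  obtain ⟨i, a1, a2⟩ := (t1.and t2).exists
  obtain ⟨n0, H⟩ := H (φ i) T (1 / 4) (by norm_num)
  set ε := min (δ / 4) (1 / 4) with hε
  obtain ⟨n1, hn1⟩ := eventually_atTop.1 (hα ε (lt_min (by positivity) (by norm_num)))
  have e1 : ε ≤ δ / 4 := min_le_left _ _
  have e2 : ε ≤ 1 / 4 := min_le_right _ _
  have key : ∀ n n' : ℕ, n0 + n1 ≤ n → n ≤ n' → |Real.log n' - Real.log n| ≤ T →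
      |α n' - α n - b / 3 * (Real.log n' - Real.log n)| ≤ δ := by
    intro n n' hn hn' hT
    obtain ⟨ω, w1, w2, w3⟩ := three P (lt_of_le_of_lt (add_le_add (add_le_add
      (H n n' (by omega) hn' ((le_abs_self _).trans hT)) (hn1 n (by omega))) (hn1 n' (by omega)))
      (by linarith))
    simp only [mem_ofPred_eq, not_lt] at w1 w2 w3
    simp only [Function.comp_apply, Real.dist_eq] at a1
    set L := Real.log n' - Real.log n
    have f1 : |(β (φ i) - b) * L| ≤ δ / 4 := by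
      rw [abs_mul]
      calc _ ≤ δ / 4 / (T + 1) * (T + 1) :=
            mul_le_mul a1.le (by linarith) (abs_nonneg _) (by positivity)
        _ = _ := by field_simp
    rw [abs_le] at w1 w2 w3 f1 ⊢
    constructor <;> linarith [w1.1, w1.2, w2.1, w2.2, w3.1, w3.2, f1.1, f1.2]
  refine ⟨n0 + n1, fun n n' hn hn' hT => ?_⟩
  rcases le_total n n' with h | h
  · exact key n n' hn h hT
  · have := key n' n hn' h (by rwa [abs_sub_comm])
    rw [← abs_neg]
    convert this using 2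
    ring

lemma reg_var {α : ℕ → ℝ} {a : ℝ}
    (h : ∀ (T : ℕ) (δ : ℝ), 0 < δ → ∃ n0 : ℕ, ∀ n n' : ℕ, n0 ≤ n → n0 ≤ n' →
      |Real.log n' - Real.log n| ≤ T → |α n' - α n - a * (Real.log n' - Real.log n)| ≤ δ)
    {t : ℝ} (ht : 0 < t) :
    Tendsto (fun n : ℕ => Real.exp (α ⌊t * n⌋₊) / Real.exp (α n)) atTop (𝓝 (t ^ a)) := by
  have h1 : Tendsto (fun n : ℕ => (⌊t * n⌋₊ : ℝ) / n) atTop (𝓝 t) :=
    (tendsto_nat_floor_mul_div_atTop ht.le).comp tendsto_natCast_atTop_atTop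
  have h2 : Tendsto (fun n : ℕ => ⌊t * n⌋₊) atTop atTop :=
    tendsto_nat_floor_atTop.comp (tendsto_natCast_atTop_atTop.const_mul_atTop ht)
  have h3 : Tendsto (fun n : ℕ => Real.log (⌊t * n⌋₊ : ℝ) - Real.log n) atTop (𝓝 (Real.log t)) := by
    refine ((Real.continuousAt_log ht.ne').tendsto.comp h1).congr' ?_
    filter_upwards [h2.eventually_ge_atTop 1, eventually_ge_atTop 1] with n a1 a2
    exact Real.log_div (by positivity) (by positivity)
  obtain ⟨T, hT⟩ := exists_nat_gt |Real.log t|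
  have h4 : Tendsto (fun n : ℕ => α ⌊t * n⌋₊ - α n - a * (Real.log (⌊t * n⌋₊ : ℝ) - Real.log n))
      atTop (𝓝 0) := by
    refine Metric.tendsto_nhds.2 fun δ hδ => ?_
    obtain ⟨n0, hn0⟩ := h T (δ / 2) (by positivity)
    filter_upwards [h2.eventually_ge_atTop n0, eventually_ge_atTop n0,
      h3.abs.eventually (gt_mem_nhds hT)] with n a1 a2 a3
    rw [Real.dist_eq, sub_zero]
    linarith [hn0 n _ a2 a1 a3.le]
  have h5 := (Real.continuous_exp.tendsto _).comp (h4.add (h3.const_mul a))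
  rw [Real.rpow_def_of_pos ht, mul_comm, ← zero_add (a * Real.log t)]
  refine h5.congr fun n => ?_
  simp only [Function.comp_apply]
  rw [← Real.exp_sub]
  congr 1
  ring

end Pool.Agent.P.MP_8c7dae_pr.Reg

/-! Uniform estimates for the whole distance function. -/


namespace Pool.Agent.P.MP_8c7dae_pr.Reg

open DePo

/-- logarithm of the distance plus the corner to corner distance -/
noncomputable def lg (A : Set Cell) (x y : Pt) : ℝ :=
  Real.log ((dS A {x} {y} : ℝ) + dS A {(0, 0)} {(1, 1)})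

lemma one_dir2 {ω : Om} {k k' β j j' : ℕ} {A A' a1 a2 g κ Cβ η1 η2 m b : ℝ} (hA : 0 < A)
    (hA' : 0 < A') (hg : 0 < g) (hκ : 0 < κ) (hCβ : 0 < Cβ) (ha2 : 0 < a2) (h1 : A ≤ Cβ * a1)
    (hη1 : η1 ≤ g * κ / Cβ) (hη2 : η2 ≤ g * κ) (hm : m ≤ Real.exp b) (hb : 0 ≤ b)
    (l1 : ¬ (dc ω k : ℝ) < κ * a1) (l2 : ¬ (dc ω k' : ℝ) < κ * a2)
    (g1 : ¬ BadEv k k' A A' (1 + g) η1 ω)
    (g2 : ¬ ∃ x ∈ Q, ∃ y ∈ Q, η2 * a2 < |(d ω (k' + β) x y : ℝ) - m * d ω k' x y|)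
    (hj : k ≤ j) (hj' : j' ≤ k' + β) {x y : Pt} (hx : x ∈ Q) (hy : y ∈ Q) :
    lg (TQ ω j') x y - lg (TQ ω j) x y - (Real.log A' - Real.log A) ≤ 5 * g + b := by
  unfold BadEv at g1
  push Not at l1 l2 g1 g2
  have pos : ∀ i, (0 : ℝ) < (d ω i x y : ℝ) + dc ω i := fun i => by
    have : (1 : ℝ) ≤ dc ω i := by exact_mod_cast one_le_dc i
    positivity
  have mono : ∀ i i', i ≤ i' → (d ω i x y : ℝ) + dc ω i ≤ (d ω i' x y : ℝ) + dc ω i' :=
    fun i i' h => add_le_add (by exact_mod_cast d_mono h hx hy) (by exact_mod_cast d_mono h c00 c11)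
  refine Ph2.log_le_of (pos j') (pos j) hA hA' ?_
  have s1 : (dc ω k' : ℝ) / A' ≤ (1 + g) * ((dc ω k : ℝ) / A) + η1 := g1 _ c00 _ c11
  have s1' := g1 _ hx _ hy
  have s2 : (dc ω (k' + β) : ℝ) - m * dc ω k' ≤ η2 * a2 := (abs_le.1 (g2 _ c00 _ c11)).2
  have s2' := (abs_le.1 (g2 _ hx _ hy)).2
  have s3 := mono _ _ hj
  have s4 := mono _ _ hj'
  have t1 : η1 ≤ g * ((dc ω k : ℝ) / A) := by
    refine hη1.trans ?_
    rw [mul_div_assoc]
    refine mul_le_mul_of_nonneg_left ?_ hg.le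
    rw [div_le_div_iff₀ hCβ hA]
    have := mul_le_mul_of_nonneg_left h1 hκ.le
    have := mul_le_mul_of_nonneg_left l1 hCβ.le
    linarith
  have t2 : η2 * a2 ≤ g * dc ω k' := by
    have := mul_le_mul_of_nonneg_right hη2 ha2.le
    have := mul_le_mul_of_nonneg_left l2 hg.le
    linarith
  have e1 : 1 + 3 * g ≤ Real.exp (3 * g) := by linarith [Real.add_one_le_exp (3 * g)]
  have e2 : m + 2 * g ≤ Real.exp (2 * g + b) := by
    rw [Real.exp_add]
    have := Real.add_one_le_exp (2 * g)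
    have := Real.one_le_exp hb
    nlinarith
  have z1 : 0 ≤ g * ((d ω k x y : ℝ) / A) := by positivity
  have z2 : 0 ≤ g * (d ω k' x y : ℝ) := by positivity
  have u1 : ((d ω k' x y : ℝ) + dc ω k') / A' ≤
      Real.exp (3 * g) * (((d ω j x y : ℝ) + dc ω j) / A) := by
    calc ((d ω k' x y : ℝ) + dc ω k') / A' ≤ (1 + 3 * g) * (((d ω k x y : ℝ) + dc ω k) / A) := by
          rw [add_div, add_div]; linarith
      _ ≤ _ := by have := (pos k).le; gcongr
  have u2 : (d ω j' x y : ℝ) + dc ω j' ≤ Real.exp (2 * g + b) * ((d ω k' x y : ℝ) + dc ω k') := by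
    calc (d ω j' x y : ℝ) + dc ω j' ≤ (m + 2 * g) * ((d ω k' x y : ℝ) + dc ω k') := by linarith
      _ ≤ _ := by have := (pos k').le; gcongr
  rw [← mul_div_assoc, div_le_div_iff₀ hA' hA] at u1
  calc ((d ω j' x y : ℝ) + dc ω j') * A
        ≤ Real.exp (2 * g + b) * ((d ω k' x y : ℝ) + dc ω k') * A := by gcongr
    _ = Real.exp (2 * g + b) * (((d ω k' x y : ℝ) + dc ω k') * A) := by ring
    _ ≤ Real.exp (2 * g + b) * (Real.exp (3 * g) * ((d ω j x y : ℝ) + dc ω j) * A') := by gcongr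
    _ = Real.exp (2 * g + b) * Real.exp (3 * g) * (((d ω j x y : ℝ) + dc ω j) * A') := by ring
    _ = _ := by rw [← Real.exp_add]; congr 2; ring

/-- two distance functions are not proportional up to `ε` -/
def Far (A B : Set Cell) (c ε : ℝ) : Prop := ∃ x ∈ Q, ∃ y ∈ Q, ε < |lg B x y - lg A x y - c|

lemma elem_Far (k k' D : ℕ) (c ε : ℝ) : Elem (fun ω => ∃ j ∈ Finset.Icc k (k + D),
    ∃ j' ∈ Finset.Icc k' (k' + D), Far (TQ ω j) (TQ ω j') c ε) :=
  Elem.ex _ fun j _ => Elem.ex _ fun j' _ => (elem_TQ j).map₂ (elem_TQ j') fun A B => Far A B c ε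

open Ph2 in
theorem geo_all (ε : ℝ) (hε : 0 < ε) : ∃ l : ℕ, 1 ≤ l ∧ ∀ η : ℝ, 0 < η → ∃ t0 : ℕ,
    ∀ᶠ N in (UF : Filter ℕ), ∀ k k' : ℕ, t0 * N ≤ k → t0 * N ≤ k' → ∃ c : ℝ,
      Pr N (fun ω => ∃ j ∈ Finset.Icc k (k + N / l), ∃ j' ∈ Finset.Icc k' (k' + N / l),
        Far (TQ ω j) (TQ ω j') c ε) ≤ η := by
  obtain ⟨n, hn⟩ := exists_nat_ge (6 / ε)
  have hl : (1 : ℝ) / (n + 1 : ℕ) ≤ ε / 6 := by
    rw [div_le_iff₀ hε] at hn
    rw [div_le_div_iff₀ (by positivity) (by norm_num)]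
    push_cast
    nlinarith
  refine ⟨n + 1, by omega, fun η hη => ?_⟩
  set l := n + 1
  have hg : 0 < ε / 6 := by positivity
  set g := ε / 6 with hgd
  obtain ⟨A, Cβ, hCβ, HA, H2⟩ := phase2 g hg
  obtain ⟨m, -, hm, H1⟩ := phase1 l (by omega)
  obtain ⟨κ, hκ, Hκ⟩ := dc_low (η / 6) (by positivity)
  set η1 : ℝ := min (η / 6) (g * κ / Cβ)
  set η2 : ℝ := min (η / 6) (g * κ)
  obtain ⟨t1, Ht1⟩ := H2 η1 (lt_min (by positivity) (by positivity))
  obtain ⟨t2, Ht2⟩ := H1 η2 (lt_min (by positivity) (by positivity))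
  refine ⟨t1 + t2, ?_⟩
  filter_upwards [Ht1, Ht2, ev_ge 2] with N h1 h2 hN k k' hk hk'
  rw [add_mul] at hk hk'
  refine ⟨Real.log (A N k') - Real.log (A N k), ?_⟩
  have eL : ∀ j, Elem (fun ω => (dc ω j : ℝ) < κ * a N j) := fun j =>
    (elem_dc j).map fun n : ℕ => (n : ℝ) < κ * a N j
  have eC := fun j => elem_close j (j + N / l) m (η2 * a N j)
  have eB := fun j j' => elem_BadEv j j' (A N j) (A N j') (1 + g) η1
  have eM := elem_Far k k' (N / l) (Real.log (A N k') - Real.log (A N k)) ε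
  have b1 := Hκ N hN k
  have b2 := Hκ N hN k'
  have b3 := (h1 k k' (by omega) (by omega)).trans (min_le_left _ _)
  have b4 := (h1 k' k (by omega) (by omega)).trans (min_le_left _ _)
  have b5 := (h2 k (by omega)).trans (min_le_left _ _)
  have b6 := (h2 k' (by omega)).trans (min_le_left _ _)
  have c1 := Pr_le_add (N := N) ((eL k).or (eL k')) (eL k) (eL k') fun _ h => h
  have c2 := Pr_le_add (N := N) ((eB k k').or (eB k' k)) (eB k k') (eB k' k) fun _ h => h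
  have c3 := Pr_le_add (N := N) ((eC k).or (eC k')) (eC k) (eC k') fun _ h => h
  have c4 := Pr_le_add (N := N) (((eB k k').or (eB k' k)).or ((eC k).or (eC k')))
    ((eB k k').or (eB k' k)) ((eC k).or (eC k')) fun _ h => h
  have c5 := Pr_le_add (N := N) eM ((eL k).or (eL k'))
    (((eB k k').or (eB k' k)).or ((eC k).or (eC k'))) (by
      rintro ω ⟨j, hj, j', hj', x, hx, y, hy, hb⟩
      by_contra hcon
      simp only [not_or] at hcon
      obtain ⟨⟨l1, l2⟩, ⟨g1, g2⟩, g3, g4⟩ := hcon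
      rw [Finset.mem_Icc] at hj hj'
      have pA := (HA N hN k).1
      have pA' := (HA N hN k').1
      have d1 := one_dir2 pA pA' hg hκ hCβ (Ph1.a_pos N k') (HA N hN k).2 (min_le_right _ _)
        (min_le_right _ _) hm (by positivity) l1 l2 g1 g4 hj.1 hj'.2 hx hy
      have d2 := one_dir2 pA' pA hg hκ hCβ (Ph1.a_pos N k) (HA N hN k').2 (min_le_right _ _)
        (min_le_right _ _) hm (by positivity) l2 l1 g2 g3 hj'.1 hj.2 hx hy
      refine absurd hb (not_lt.2 (abs_le.2 ⟨?_, ?_⟩)) <;> linarith)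
  linarith

/-- the tiles of the discrete chain -/
def TN (n : ℕ) (ι : Iota) : Set Cell := cellSet (cfg ι n)

lemma TN_congr {ι ι' : Iota} {n j : ℕ} (h : ∀ i < n, ι i = ι' i) (hj : j ≤ n) :
    TN j ι = TN j ι' := by
  rw [TN, TN, cfg_congr fun i hi => h i (by omega)]

lemma TN_eq {ω : Om} {ι : Iota} {r : ℕ → ℕ} {n j : ℕ} (h : Ev ι r n ω) (hj : j ≤ n) :
    TQ ω (tm r (j + 1)) = TN j ι := by
  rw [h.at (by omega), TN, cellSet_cfg]

lemma exists_TN (n : ℕ) (ι : Iota) : ∃ ω, TN n ι = TQ ω (tm (fun _ => 0) (n + 1)) := by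
  obtain ⟨ω, h⟩ := exists_Ev ι (fun _ => 0) n
  exact ⟨ω, (TN_eq h le_rfl).symm⟩

theorem depo_all (ε : ℝ) (hε : 0 < ε) : ∃ n0 : ℕ, ∀ n n' : ℕ, n0 ≤ n → n ≤ n' → ∃ c : ℝ,
    Pι.real {ι | Far (TN n ι) (TN n' ι) c ε} ≤ ε := by
  obtain ⟨l, hl, H⟩ := geo_all ε hε
  obtain ⟨γ, hγ, hw⟩ := win hl
  obtain ⟨t0, H⟩ := H (ε * γ) (by positivity)
  obtain ⟨n0, hw⟩ := hw t0
  refine ⟨n0, fun n n' h1 h2 => ?_⟩
  obtain ⟨N, H, ⟨k, k', hk, hk', Γ, hΓ, hΓ'⟩, hN⟩ :=
    (H.and (((hw n n' h1 h2).filter_mono UF_le).and (Ph2.ev_ge 2))).exists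
  obtain ⟨c, hc⟩ := H k k' hk hk'
  refine ⟨c, le_of_mul_le_mul_right (le_trans ?_ hc) hγ⟩
  refine (mul_le_mul_of_nonneg_left hΓ measureReal_nonneg).trans (main_lb hN n' _
    (fun ι ι' h => by rw [TN_congr h le_rfl, TN_congr h h2]; exact id) Γ
    (elem_Far _ _ _ _ _) fun ι ω r hr hι he => ?_)
  refine ⟨_, (hΓ' r hr).1, _, (hΓ' r hr).2, ?_⟩
  rwa [TN_eq he le_rfl, TN_eq he h2]

/-- transfer of a one time estimate to the discrete chain -/
lemma transfer : ∃ γ : ℝ, 0 < γ ∧ ∀ (B : Set Cell → Prop) (η : ℝ) (t0 : ℕ),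
    (∀ N, 2 ≤ N → ∀ k, t0 * N ≤ k → ∃ A : Om → Prop, Elem A ∧ Pr N A ≤ η * γ ∧
      ∀ ω j, k ≤ j → j ≤ k + N → B (TQ ω j) → A ω) →
    ∀ᶠ n in atTop, Pι.real {ι | B (TN n ι)} ≤ η := by
  obtain ⟨γ, hγ, hw⟩ := win (le_refl 1)
  refine ⟨γ, hγ, fun B η t0 H => ?_⟩
  obtain ⟨n0, hw⟩ := hw t0
  filter_upwards [eventually_ge_atTop n0] with n hn
  obtain ⟨N, ⟨k, k', hk, -, Γ, hΓ, hΓ'⟩, hN⟩ :=
    ((hw n n hn le_rfl).and (eventually_ge_atTop 2)).exists
  simp only [Nat.div_one, Finset.mem_Icc] at hΓ'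
  obtain ⟨A, hA, h1, h2⟩ := H N hN k hk
  refine le_of_mul_le_mul_right (le_trans ?_ h1) hγ
  refine (mul_le_mul_of_nonneg_left hΓ measureReal_nonneg).trans (main_lb hN n _
    (fun ι ι' h => by rw [TN_congr h le_rfl]; exact id) Γ hA fun ι ω r hr hι he => ?_)
  exact h2 ω _ (hΓ' r hr).1.1 (hΓ' r hr).1.2 (by rwa [TN_eq he le_rfl])

theorem sep {ρ η : ℝ} (hρ : 0 < ρ) (hη : 0 < η) : ∃ κ : ℝ, 0 < κ ∧ ∀ᶠ n in atTop,
    Pι.real {ι | ∃ x ∈ Q, ∃ y ∈ Q, ρ ≤ dist x y ∧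
      (dS (TN n ι) {x} {y} : ℝ) < κ * dS (TN n ι) {(0, 0)} {(1, 1)}} ≤ η := by
  obtain ⟨γ, hγ, H⟩ := transfer
  obtain ⟨κ, hκ, -, hLB⟩ := LB_prob {root} hρ (show 0 < η * γ / 2 by positivity)
  obtain ⟨K, hK, HK⟩ := Ph1.X_tail (η := η * γ / 2) (by positivity)
  obtain ⟨V, hV, HV⟩ := Ph1.a_grow4
  refine ⟨κ / (K * V), by positivity, H (fun A => ∃ x ∈ Q, ∃ y ∈ Q, ρ ≤ dist x y ∧
    (dS A {x} {y} : ℝ) < κ / (K * V) * dS A {(0, 0)} {(1, 1)}) η 0 fun N hN k _ => ?_⟩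
  have e1 := (elem_LBs k {root} ρ (κ * a N k)).not
  have e2 : Elem (fun ω => K * a N (k + N) < (X ω (k + N) : ℝ)) :=
    (elem_X _).map fun n : ℕ => K * a N (k + N) < (n : ℝ)
  refine ⟨_, e1.or e2, ?_, ?_⟩
  · linarith [Pr_le_add (N := N) (e1.or e2) e1 e2 fun _ h => h, hLB N hN k, HK N hN (k + N)]
  · rintro ω j h1 h2 ⟨x, hx, y, hy, a1, a2⟩
    by_contra hc
    simp only [not_or, not_not, not_lt] at hc
    have b1 := hc.1 _ _ _ (d_spec (ω := ω) (k := k) hx hy) a1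
    have b2 : (d ω k x y : ℝ) ≤ d ω j x y := by exact_mod_cast d_mono h1 hx hy
    have b3 : (dc ω j : ℝ) ≤ X ω (k + N) := by
      exact_mod_cast (d_le_X c00 c11).trans (X_mono h2)
    have b4 := HV N hN k (k + N) (by omega)
    have b5 : κ / (K * V) * dc ω j ≤ κ * a N k := by
      calc _ ≤ κ / (K * V) * (K * (V * a N k)) := by
            gcongr
            exact b3.trans (hc.2.trans (by gcongr))
        _ = _ := by field_simp
    exact absurd a2 (not_lt.2 (b5.trans (b1.trans b2)))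

theorem modul {ε η : ℝ} (hε : 0 < ε) (hη : 0 < η) : ∃ ρ : ℝ, 0 < ρ ∧ ∀ᶠ n in atTop,
    Pι.real {ι | ∃ x ∈ Q, ∃ y ∈ Q, dist x y ≤ ρ ∧
      ε * dS (TN n ι) {(0, 0)} {(1, 1)} < (dS (TN n ι) {x} {y} : ℝ)} ≤ η := by
  obtain ⟨γ, hγ, H⟩ := transfer
  obtain ⟨κ, hκ, Hκ⟩ := dc_low (η * γ / 2) (by positivity)
  obtain ⟨V, hV, HV⟩ := Ph1.a_grow4
  set θ := ε * κ / (2 * V) with hθ
  have hθ0 : 0 < θ := by positivity
  obtain ⟨m, hm⟩ := Mx_small (η := η * γ / 2 * θ ^ 2) (by positivity)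
  obtain ⟨t0, hm⟩ := hm m le_rfl
  refine ⟨1 / 2 ^ m, by positivity, H (fun A => ∃ x ∈ Q, ∃ y ∈ Q, dist x y ≤ 1 / 2 ^ m ∧
    ε * dS A {(0, 0)} {(1, 1)} < (dS A {x} {y} : ℝ)) η t0 fun N hN k hk => ?_⟩
  have e1 : Elem (fun ω => (dc ω k : ℝ) < κ * a N k) :=
    (elem_dc k).map fun n : ℕ => (n : ℝ) < κ * a N k
  have e2 : Elem (fun ω => θ * a N (k + N) < (Mx ω (k + N) m : ℝ)) :=
    (elem_Mx _ _).map fun n : ℕ => θ * a N (k + N) < (n : ℝ)
  have ha := Ph1.a_pos N (k + N)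
  refine ⟨_, e1.or e2, ?_, ?_⟩
  · have h1 := Pr_le_E_div (N := N) e2 ((elem_Mx (k + N) m).cast.pow 2)
      (t := (θ * a N (k + N)) ^ 2) (by positivity) (fun ω => by positivity)
      (fun ω hω => pow_le_pow_left₀ (by positivity) hω.le 2)
    have h2 : E N (fun ω => (Mx ω (k + N) m : ℝ) ^ 2) / (θ * a N (k + N)) ^ 2 ≤ η * γ / 2 := by
      rw [div_le_iff₀ (by positivity)]
      exact (hm N hN (k + N) (by omega)).trans (le_of_eq (by ring))
    linarith [Pr_le_add (N := N) (e1.or e2) e1 e2 fun _ h => h, Hκ N hN k]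
  · rintro ω j h1 h2 ⟨x, hx, y, hy, a1, a2⟩
    by_contra hc
    simp only [not_or, not_lt] at hc
    have b1 : (d ω j x y : ℝ) ≤ 2 * Mx ω (k + N) m := by
      have := reach_near_one (ω := ω) (k := k + N) (m := m) hx hy
        (by rwa [le_div_iff₀ (by positivity), mul_comm] at a1)
      exact_mod_cast (d_mono h2 hx hy).trans (d_le this)
    have b2 : (dc ω k : ℝ) ≤ dc ω j := by exact_mod_cast d_mono h1 c00 c11
    have b4 := HV N hN k (k + N) (by omega)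
    have b5 : 2 * (Mx ω (k + N) m : ℝ) ≤ ε * dc ω j := by
      calc _ ≤ 2 * (θ * (V * a N k)) := by
            gcongr
            exact hc.2.trans (by gcongr)
        _ = ε * (κ * a N k) := by rw [hθ]; field_simp
        _ ≤ _ := by gcongr; exact hc.1.trans b2
    exact absurd a2 (not_lt.2 (b1.trans b5))

end Pool.Agent.P.MP_8c7dae_pr.Reg

/-! The limiting random metric. -/


namespace Pool.Agent.P.MP_8c7dae_pr.Reg

open DePo

section abstract

variable {Ω I : Type} [MeasurableSpace Ω] (P : Measure Ω) [IsProbabilityMeasure P]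

lemma sum_half {B : ℕ → Set Ω} {C : ℝ} (hC : 0 ≤ C) (h : ∀ j, P.real (B j) ≤ C * (1 / 2) ^ j) :
    ∑' j, P (B j) ≤ ENNReal.ofReal (C * 2) := by
  rw [← tsum_geometric_two, ← tsum_mul_left, ENNReal.ofReal_tsum_of_nonneg (fun _ => by positivity)
    (summable_geometric_two.mul_left C)]
  refine ENNReal.tsum_le_tsum fun j => ?_
  rw [← ofReal_measureReal]
  exact ENNReal.ofReal_le_ofReal (h j)

theorem exists_lim2 (S : Set I) (ξ : ℕ → Ω → I → ℝ) (hm : ∀ n i, Measurable fun ω => ξ n ω i)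
    (hCC : ∀ ε : ℝ, 0 < ε → ∃ n0 : ℕ, ∀ n n' : ℕ, n0 ≤ n → n ≤ n' → ∃ c : ℝ,
      P.real {ω | ∃ i ∈ S, ε < |ξ n' ω i - ξ n ω i - c|} ≤ ε) :
    ∃ η : Ω → I → ℝ, (∀ i, Measurable fun ω => η ω i) ∧ ∀ ε, 0 < ε → ∀ᶠ m in atTop, ∃ c,
      P.real {ω | ∃ i ∈ S, ε < |ξ m ω i - c - η ω i|} ≤ ε := by
  choose N hN using fun j : ℕ => hCC ((1 / 2) ^ j) (by positivity)
  let n : ℕ → ℕ := fun j => ∑ i ∈ Finset.range (j + 1), N i
  have hn : ∀ j, N j ≤ n j := fun j =>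
    Finset.single_le_sum (f := N) (fun _ _ => Nat.zero_le _) (Finset.self_mem_range_succ j)
  have hn' : ∀ j, n j ≤ n (j + 1) := fun j => by
    simp only [n]; rw [Finset.sum_range_succ _ (j + 1)]; omega
  choose C hC using fun j => hN j (n j) (n (j + 1)) (hn j) (hn' j)
  let η : ℕ → Ω → I → ℝ := fun j ω i => ξ (n j) ω i - ∑ t ∈ Finset.range j, C t
  refine ⟨fun ω i => limsup (fun j => η j ω i) atTop,
    fun i => Measurable.limsup fun j => (hm _ i).sub measurable_const, fun ε hε => ?_⟩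
  obtain ⟨j, hj⟩ := ((tendsto_pow_atTop_nhds_zero_of_lt_one (r := (1 : ℝ) / 2) (by norm_num)
    (by norm_num)).eventually (gt_mem_nhds (show (0 : ℝ) < ε / 3 by positivity))).exists
  filter_upwards [eventually_ge_atTop (n j)] with m hm'
  obtain ⟨c, hc⟩ := hN j (n j) m (hn j) hm'
  refine ⟨c + ∑ t ∈ Finset.range j, C t, ?_⟩
  set B : ℕ → Set Ω := fun t => {ω | ∃ i ∈ S, ((1 : ℝ) / 2) ^ (j + t) <
    |ξ (n (j + t + 1)) ω i - ξ (n (j + t)) ω i - C (j + t)|} with hB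
  have h1 : P.real (⋃ t, B t) ≤ (1 / 2) ^ j * 2 :=
    ENNReal.toReal_le_of_le_ofReal (by positivity) ((measure_iUnion_le _).trans
      (sum_half P (by positivity) fun t => by rw [← pow_add]; exact hC (j + t)))
  have hs : {ω | ∃ i ∈ S, ε < |ξ m ω i - (c + ∑ t ∈ Finset.range j, C t) -
      limsup (fun j => η j ω i) atTop|} ⊆
      {ω | ∃ i ∈ S, ((1 : ℝ) / 2) ^ j < |ξ m ω i - ξ (n j) ω i - c|} ∪ ⋃ t, B t := by
    rintro ω ⟨i, hi, hω⟩
    by_contra hc'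
    simp only [mem_union, mem_iUnion, hB, mem_ofPred_eq, not_or, not_exists, not_and, not_lt] at hc'
    have a1 : ∀ t, dist (η (t + j) ω i) (η (t + 1 + j) ω i) ≤ (1 / 2) ^ j * (1 / 2) ^ t := fun t => by
      have := hc'.2 t i hi
      rw [dist_comm, Real.dist_eq, show t + 1 + j = j + t + 1 by omega, add_comm t j, ← pow_add]
      simp only [η, Finset.sum_range_succ]
      refine le_trans (le_of_eq ?_) this
      congr 1
      ring
    obtain ⟨L, hL⟩ := cauchySeq_tendsto_of_complete (cauchySeq_of_le_geometric (1 / 2) _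
      (by norm_num) (f := fun t => η (t + j) ω i) a1)
    have a2 := dist_le_of_le_geometric_of_tendsto₀ (1 / 2) _ (by norm_num) a1 hL
    rw [((tendsto_add_atTop_iff_nat (f := fun t => η t ω i) j).1 hL).limsup_eq] at hω
    simp only [zero_add, Real.dist_eq, η] at a2
    rw [show ∀ t : ℝ, t / (1 - 1 / 2) = t * 2 from fun t => by norm_num; ring] at a2
    have a3 := hc'.1 i hi
    have := abs_add_le (ξ m ω i - ξ (n j) ω i - c) (ξ (n j) ω i - ∑ t ∈ Finset.range j, C t - L)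
    rw [show ξ m ω i - ξ (n j) ω i - c + (ξ (n j) ω i - ∑ t ∈ Finset.range j, C t - L) =
      ξ m ω i - (c + ∑ t ∈ Finset.range j, C t) - L by ring] at this
    linarith
  have := (measureReal_mono hs).trans (measureReal_union_le (μ := P) _ _)
  linarith

lemma subseq {B : ℕ → ℕ → Set Ω} (h : ∀ j, ∀ᶠ m in atTop, P.real (B j m) ≤ (1 / 2) ^ j) :
    ∃ m : ℕ → ℕ, Tendsto m atTop atTop ∧ ∀ᵐ ω ∂P, ∀ᶠ j in atTop, ω ∉ B j (m j) := by
  choose m h1 h2 using fun j => ((h j).and (eventually_ge_atTop j)).exists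
  exact ⟨m, tendsto_atTop_mono h2 tendsto_id, ae_eventually_notMem (ne_top_of_le_ne_top
    ENNReal.ofReal_ne_top (sum_half P zero_le_one fun j => by rw [one_mul]; exact h1 j))⟩

lemma ae_of_small {p : Ω → Prop} (h : ∀ η : ℝ, 0 < η → ∃ E : ℕ → Set Ω,
    (∀ᶠ j in atTop, P.real (E j) ≤ η) ∧ ∀ᵐ ω ∂P, (∃ᶠ j in atTop, ω ∉ E j) → p ω) :
    ∀ᵐ ω ∂P, p ω := by
  rw [ae_iff, ← measureReal_eq_zero_iff]
  refine le_antisymm (le_of_forall_pos_le_add fun η hη => ?_) measureReal_nonneg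
  obtain ⟨E, h1, h2⟩ := h η hη
  rw [zero_add]
  refine ENNReal.toReal_le_of_le_ofReal hη.le (le_trans (measure_mono_ae
    (t := ⋃ J, ⋂ j ≥ J, E j) ?_) ?_)
  · filter_upwards [h2] with ω hω hp
    have : ∀ᶠ j in atTop, ω ∈ E j := by
      by_contra hc
      exact hp (hω (not_eventually.1 hc))
    obtain ⟨J, hJ⟩ := eventually_atTop.1 this
    exact mem_iUnion.2 ⟨J, mem_iInter₂.2 hJ⟩
  · rw [Monotone.measure_iUnion fun J J' hJ => biInter_subset_biInter_left fun j hj => hJ.trans hj]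
    refine iSup_le fun J => ?_
    obtain ⟨j, a1, a2⟩ := (h1.and (eventually_ge_atTop J)).exists
    refine (measure_mono (biInter_subset_of_mem (s := {j | j ≥ J}) a2)).trans ?_
    rw [← ofReal_measureReal]
    exact ENNReal.ofReal_le_ofReal a1

end abstract

lemma Reach_split {A : Set Cell} {n : ℕ} {x y : Pt} (h : Reach A n x y) :
    ∀ k ≤ n, ∃ z, Reach A k x z ∧ Reach A (n - k) z y := by
  induction h with
  | refl n x => exact fun k _ => ⟨x, .refl _ _, .refl _ _⟩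
  | @step n x y z v h hv hy hz ih =>
    intro k hk
    rcases hk.eq_or_lt with rfl | hk
    · exact ⟨z, h.step hv hy hz, .refl _ _⟩
    · obtain ⟨w, a1, a2⟩ := ih k (by omega)
      exact ⟨w, a1, by rw [show n + 1 - k = n - k + 1 by omega]; exact a2.step hv hy hz⟩

lemma d_mid {ω : Om} {k : ℕ} {x y : Pt} (hx : x ∈ Q) (hy : y ∈ Q) :
    ∃ z ∈ Q, 2 * d ω k x z ≤ d ω k x y ∧ 2 * d ω k z y ≤ d ω k x y + 1 := by
  obtain ⟨z, a1, a2⟩ := Reach_split (d_spec (ω := ω) (k := k) hx hy) (d ω k x y / 2)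
    (Nat.div_le_self _ _)
  have b1 := d_le a1
  have b2 := d_le a2
  refine ⟨z, ?_, by omega, by omega⟩
  by_cases h : x = z
  · exact h ▸ hx
  · exact a1.mem_Q h

lemma dS_self (A : Set Cell) (x : Pt) : dS A {x} {x} = 0 :=
  Nat.le_zero.1 (dS_le rfl rfl (Reach.refl 0 x))

lemma Q_eq : Q = Icc (0 : ℝ) 1 ×ˢ Icc (0 : ℝ) 1 := by
  ext p; simp only [mem_Q, mem_prod, mem_Icc, and_assoc]

section det

variable {ω : ℕ → Om} {k : ℕ → ℕ} {a : ℕ → ℝ} {D : Pt → Pt → ℝ}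

lemma lim_pt (h : ∀ᶠ j in atTop, ∀ x ∈ Q, ∀ y ∈ Q,
    |(d (ω j) (k j) x y : ℝ) / a j - D x y| ≤ (1 / 2) ^ j) {x y : Pt} (hx : x ∈ Q) (hy : y ∈ Q) :
    Tendsto (fun j => (d (ω j) (k j) x y : ℝ) / a j) atTop (𝓝 (D x y)) := by
  rw [tendsto_iff_dist_tendsto_zero]
  exact squeeze_zero' (Eventually.of_forall fun _ => dist_nonneg) (h.mono fun j hj => hj x hx y hy)
    (tendsto_pow_atTop_nhds_zero_of_lt_one (by norm_num) (by norm_num))

lemma lim_metric (ha : ∀ j, 0 < a j) (h : ∀ᶠ j in atTop, ∀ x ∈ Q, ∀ y ∈ Q,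
    |(d (ω j) (k j) x y : ℝ) / a j - D x y| ≤ (1 / 2) ^ j) :
    (∀ x ∈ Q, D x x = 0) ∧ (∀ x ∈ Q, ∀ y ∈ Q, D x y = D y x) ∧
      ∀ x ∈ Q, ∀ y ∈ Q, ∀ z ∈ Q, D x z ≤ D x y + D y z := by
  refine ⟨fun x hx => tendsto_nhds_unique (lim_pt h hx hx) ?_,
    fun x hx y hy => tendsto_nhds_unique (lim_pt h hx hy) ?_,
    fun x hx y hy z hz => le_of_tendsto_of_tendsto' (lim_pt h hx hz)
      ((lim_pt h hx hy).add (lim_pt h hy hz)) fun j => ?_⟩
  · simp [d, dS_self]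
  · simpa only [d_symm hx hy] using lim_pt h hy hx
  · rw [← add_div]
    exact div_le_div_of_nonneg_right (by exact_mod_cast d_triangle hx hy hz) (ha j).le

lemma lim_mid (ha : ∀ j, 0 < a j) (h : ∀ᶠ j in atTop, ∀ x ∈ Q, ∀ y ∈ Q,
    |(d (ω j) (k j) x y : ℝ) / a j - D x y| ≤ (1 / 2) ^ j)
    (hc : ∀ ε : ℝ, 0 < ε → ∃ ρ : ℝ, 0 < ρ ∧ ∀ x ∈ Q, ∀ y ∈ Q, dist x y ≤ ρ → D x y ≤ ε)
    {x y : Pt} (hx : x ∈ Q) (hy : y ∈ Q) : ∃ z ∈ Q, D x z = D x y / 2 ∧ D z y = D x y / 2 := by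
  obtain ⟨-, m2, m3⟩ := lim_metric ha h
  choose z hz h1 h2 using fun j => d_mid (ω := ω j) (k := k j) hx hy
  obtain ⟨w, hw, φ, hφ, hl⟩ := (show IsCompact Q from Q_eq ▸ isCompact_Icc.prod isCompact_Icc
    ).tendsto_subseq hz
  have key : D x w ≤ D x y / 2 ∧ D w y ≤ D x y / 2 := by
    have : ∀ ε : ℝ, 0 < ε → D x w ≤ D x y / 2 + ε ∧ D w y ≤ D x y / 2 + ε := by
      intro ε hε
      obtain ⟨ρ, hρ, hc⟩ := hc (ε / 4) (by positivity)
      have t1 := (tendsto_pow_atTop_nhds_zero_of_lt_one (r := (1 : ℝ) / 2) (by norm_num)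
        (by norm_num)).eventually (gt_mem_nhds (show (0 : ℝ) < ε / 8 by positivity))
      obtain ⟨i, ⟨a1, a2⟩, a3⟩ := ((hφ.tendsto_atTop.eventually (h.and t1)).and
        (Metric.tendsto_nhds.1 hl ρ hρ)).exists
      set j := φ i
      have b1 := hc _ (hz j) _ hw a3.le
      have hp : ((min ρ 1, 0) : Pt) ∈ Q := by simp [mem_Q, hρ.le]
      have b2 := hc _ c00 _ hp (by simp [Prod.dist_eq, hρ.le, abs_of_pos (lt_min hρ one_pos)])
      have b3 : (1 : ℝ) ≤ d (ω j) (k j) (0, 0) (min ρ 1, 0) := by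
        have : d (ω j) (k j) (0, 0) (min ρ 1, 0) ≠ 0 := fun e => by
          have := d_spec (ω := ω j) (k := k j) c00 hp
          rw [e] at this
          exact (lt_min hρ one_pos).ne (congrArg Prod.fst this.eq_of_zero)
        exact_mod_cast Nat.one_le_iff_ne_zero.2 this
      have b4 := div_le_div_of_nonneg_right b3 (ha j).le
      have c1 : 2 * (d (ω j) (k j) x (z j) : ℝ) ≤ d (ω j) (k j) x y := by exact_mod_cast h1 j
      have c2 : 2 * (d (ω j) (k j) (z j) y : ℝ) ≤ d (ω j) (k j) x y + 1 := by exact_mod_cast h2 j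
      have c3 := div_le_div_of_nonneg_right c1 (ha j).le
      have c4 := div_le_div_of_nonneg_right c2 (ha j).le
      rw [mul_div_assoc] at c3 c4
      rw [add_div] at c4
      have e1 := abs_le.1 (a1 _ c00 _ hp)
      have e2 := abs_le.1 (a1 _ hx _ hy)
      have e3 := abs_le.1 (a1 _ hx _ (hz j))
      have e4 := abs_le.1 (a1 _ (hz j) _ hy)
      have f1 := m3 _ hx _ (hz j) _ hw
      have f2 := m3 _ hw _ (hz j) _ hy
      rw [m2 _ hw _ (hz j)] at f2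
      constructor <;> linarith [e1.1, e1.2, e2.1, e2.2, e3.1, e3.2, e4.1, e4.2]
    exact ⟨le_of_forall_pos_le_add fun ε hε => (this ε hε).1,
      le_of_forall_pos_le_add fun ε hε => (this ε hε).2⟩
  have := m3 _ hx _ hw _ hy
  exact ⟨w, hw, by linarith [key.1, key.2], by linarith [key.1, key.2]⟩

end det

end Pool.Agent.P.MP_8c7dae_pr.Reg

/-! The scaling limit of the whole distance function. -/


namespace Pool.Agent.P.MP_8c7dae_pr.Reg

open DePo

lemma measurable_TN (n : ℕ) (f : Set Cell → ℝ) : Measurable fun ι => f (TN n ι) := by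
  have : (fun ι => f (TN n ι)) = (fun a : (j : Fin n) → Fin (3 * j + 3 + 1) => f (TN n (exI a))) ∘
      fun (ι : Iota) (j : Fin n) => ι j := funext fun ι => congrArg f (TN_congr (exI_res ι) le_rfl)
  rw [this]
  exact (measurable_of_countable _).comp (measurable_pi_lambda _ fun j => measurable_pi_apply _)

lemma lg_self (n : ℕ) (ι : Iota) : lg (TN n ι) (0, 0) (0, 0) = Real.log (Mc n ι) := by
  rw [lg, dS_self, Nat.cast_zero, zero_add]; rfl

lemma Mc_pos (n : ℕ) (ι : Iota) : (0 : ℝ) < Mc n ι := by exact_mod_cast one_le_Mc n ι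

lemma div_eq (n : ℕ) (ι : Iota) (x y : Pt) (c : ℝ) : (dS (TN n ι) {x} {y} : ℝ) / Real.exp c =
    Real.exp (lg (TN n ι) x y - c) - Real.exp (lg (TN n ι) (0, 0) (0, 0) - c) := by
  have h := Mc_pos n ι
  have h' : (0 : ℝ) < (dS (TN n ι) {x} {y} : ℝ) + Mc n ι := by positivity
  rw [lg_self, Real.exp_sub, Real.exp_sub, Real.exp_log h, lg]
  change _ = Real.exp (Real.log ((dS (TN n ι) {x} {y} : ℝ) + Mc n ι)) / _ - _
  rw [Real.exp_log h']
  ring

lemma lg_le (n : ℕ) : ∃ B : ℝ, ∀ ι, ∀ x ∈ Q, ∀ y ∈ Q, lg (TN n ι) x y ≤ B := by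
  refine ⟨2 ^ tm (fun _ => 0) (n + 1) + 2 ^ tm (fun _ => 0) (n + 1), fun ι x hx y hy => ?_⟩
  obtain ⟨ω, h⟩ := exists_TN n ι
  rw [h]
  refine (Real.log_le_self (by positivity)).trans (add_le_add ?_ ?_)
  · exact_mod_cast d_le (reach_two_pow _ x hx y hy)
  · exact_mod_cast d_le (reach_two_pow _ _ c00 _ c11)

lemma exp_close {u v B s : ℝ} (h : |u - v| ≤ s) (hs : s ≤ 1) (hv : v ≤ B) :
    |Real.exp u - Real.exp v| ≤ Real.exp B * (2 * s) := by
  have h1 := Real.abs_exp_sub_one_le (h.trans hs)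
  rw [show Real.exp u - Real.exp v = Real.exp v * (Real.exp (u - v) - 1) by
    rw [mul_sub, ← Real.exp_add]; simp, abs_mul, abs_of_pos (Real.exp_pos v)]
  exact mul_le_mul (Real.exp_le_exp.2 hv) (by linarith) (abs_nonneg _) (Real.exp_pos B).le

lemma unif {η : Iota → Pt × Pt → ℝ} {α : ℕ → ℝ} (hα : ∀ ε, 0 < ε → ∀ᶠ m in atTop,
    Pι.real {ω | ∃ i ∈ Q ×ˢ Q, ε < |lg (TN m ω) i.1 i.2 - α m - η ω i|} ≤ ε) {ε δ : ℝ}
    (hε : 0 < ε) (hδ : 0 < δ) : ∀ᶠ m in atTop, Pι.real {ω | ∃ x ∈ Q, ∃ y ∈ Q,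
      ε < |(dS (TN m ω) {x} {y} : ℝ) / Real.exp (α m) -
        (Real.exp (η ω (x, y)) - Real.exp (η ω ((0, 0), (0, 0))))|} ≤ δ := by
  obtain ⟨m0, h0⟩ := (hα (min 1 (δ / 2)) (by positivity)).exists
  obtain ⟨B, hB⟩ := lg_le m0
  set s := min (min 1 (δ / 2)) (ε / (4 * Real.exp (B - α m0 + 1))) with hs
  have s1 : s ≤ 1 := (min_le_left _ _).trans (min_le_left _ _)
  have s2 : s ≤ δ / 2 := (min_le_left _ _).trans (min_le_right _ _)
  have s3 : s * (4 * Real.exp (B - α m0 + 1)) ≤ ε := by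
    rw [← le_div_iff₀ (by positivity)]; exact min_le_right _ _
  filter_upwards [hα s (by positivity)] with m h1
  refine le_trans ((measureReal_mono ?_).trans (measureReal_union_le _ _))
    ((add_le_add (h0.trans (min_le_right _ _)) (h1.trans s2)).trans (by linarith))
  rintro ω ⟨x, hx, y, hy, h⟩
  by_contra hc
  simp only [mem_union, mem_ofPred_eq, not_or, not_exists, not_and, not_lt] at hc
  have key : ∀ i ∈ Q ×ˢ Q, |Real.exp (lg (TN m ω) i.1 i.2 - α m) - Real.exp (η ω i)| ≤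
      Real.exp (B - α m0 + 1) * (2 * s) := fun i hi => exp_close (hc.2 i hi) s1 (by
    have := (abs_le.1 ((hc.1 i hi).trans (min_le_left _ _))).1
    linarith [hB ω _ hi.1 _ hi.2])
  have k1 := abs_le.1 (key (x, y) ⟨hx, hy⟩)
  have k2 := abs_le.1 (key ((0, 0), (0, 0)) ⟨c00, c00⟩)
  rw [div_eq] at h
  refine absurd h (not_lt.2 (abs_le.2 ⟨?_, ?_⟩)) <;> linarith [k1.1, k1.2, k2.1, k2.2]

lemma nondeg {η : Iota → ℝ} {α : ℕ → ℝ} (hα : ∀ ε, 0 < ε → ∀ᶠ m in atTop,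
    Pι.real {ω | ε < |Real.log (Mc m ω) - α m - η ω|} ≤ ε) (c : ℝ) :
    ¬ ∀ᵐ ω ∂Pι, Real.exp (η ω) = c := by
  intro h2
  have h3 : ∀ᵐ ω ∂Pι, η ω = Real.log c := by
    filter_upwards [h2] with ω hω
    rw [← hω, Real.log_exp]
  obtain ⟨ε, hε, n0, h4⟩ := depo_ND (fun N k => a N k)
    (fun N k => by exact_mod_cast one_le_a N k) dc_low X_small
  obtain ⟨m, h5, h6⟩ := ((hα (ε / 2) (by positivity)).and (eventually_ge_atTop n0)).exists
  have h7 : Pι.real {ω | ε < |Real.log (Mc m ω) - (α m + Real.log c)|} ≤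
      Pι.real {ω | ε / 2 < |Real.log (Mc m ω) - α m - η ω|} := by
    refine ENNReal.toReal_mono (measure_ne_top _ _) (measure_mono_ae ?_)
    filter_upwards [h3] with ω hω h
    change ε / 2 < _
    have h' : ε < |Real.log (Mc m ω) - (α m + Real.log c)| := h
    rw [hω, sub_sub]; linarith
  linarith [h4 m h6 (α m + Real.log c)]

theorem metric_limit : ∃ α : ℝ, 0 < α ∧ α < 1 / 3 ∧ ∃ a : ℕ → ℝ, (∀ n, 0 < a n) ∧
    (∀ t : ℝ, 0 < t → Tendsto (fun n : ℕ => a ⌊t * n⌋₊ / a n) atTop (𝓝 (t ^ α))) ∧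
    ∃ D : Iota → Pt → Pt → ℝ, (∀ x y, Measurable fun ω => D ω x y) ∧
      (∀ ε δ : ℝ, 0 < ε → 0 < δ → ∀ᶠ n in atTop, Pι.real {ω | ∃ x ∈ Q, ∃ y ∈ Q,
        ε < |(dS (TN n ω) {x} {y} : ℝ) / a n - D ω x y|} ≤ δ) ∧
      (∀ᵐ ω ∂Pι, (∀ x ∈ Q, D ω x x = 0) ∧ (∀ x ∈ Q, ∀ y ∈ Q, D ω x y = D ω y x) ∧
        (∀ x ∈ Q, ∀ y ∈ Q, ∀ z ∈ Q, D ω x z ≤ D ω x y + D ω y z) ∧
        (∀ ρ : ℝ, 0 < ρ → ∃ κ : ℝ, 0 < κ ∧ ∀ x ∈ Q, ∀ y ∈ Q, ρ ≤ dist x y → κ ≤ D ω x y) ∧
        (∀ ε : ℝ, 0 < ε → ∃ ρ : ℝ, 0 < ρ ∧ ∀ x ∈ Q, ∀ y ∈ Q, dist x y ≤ ρ → D ω x y ≤ ε) ∧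
        ∀ x ∈ Q, ∀ y ∈ Q, ∃ z ∈ Q, D ω x z = D ω x y / 2 ∧ D ω z y = D ω x y / 2) ∧
      ∀ c : ℝ, ¬ ∀ᵐ ω ∂Pι, D ω (0, 0) (1, 1) = c := by
  obtain ⟨η, hη, h1⟩ := exists_lim2 Pι (Q ×ˢ Q) (fun n ω i => lg (TN n ω) i.1 i.2)
    (fun n i => measurable_TN n fun A => lg A i.1 i.2) fun ε hε => by
      obtain ⟨n0, h⟩ := depo_all ε hε
      refine ⟨n0, fun n n' a1 a2 => ?_⟩
      obtain ⟨c, hc⟩ := h n n' a1 a2
      refine ⟨c, le_trans (measureReal_mono ?_) hc⟩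
      rintro ω ⟨i, hi, h⟩
      exact ⟨_, hi.1, _, hi.2, h⟩
  obtain ⟨α, hα⟩ := Lim.diag (fun ε m c => Pι.real {ω | ∃ i ∈ Q ×ˢ Q,
      ε < |lg (TN m ω) i.1 i.2 - c - η ω i|} ≤ ε)
    (fun ε ε' m c _ h2 h3 => le_trans (measureReal_mono (by
      rintro ω ⟨i, hi, hω⟩
      exact ⟨i, hi, lt_of_le_of_lt h2 hω⟩)) (h3.trans h2)) h1
  have hα0 : ∀ ε, 0 < ε → ∀ᶠ m in atTop,
      Pι.real {ω | ε < |Real.log (Mc m ω) - α m - η ω ((0, 0), (0, 0))|} ≤ ε := fun ε hε =>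
    (hα ε hε).mono fun m h => le_trans (measureReal_mono (by
      intro ω hω
      exact ⟨((0, 0), (0, 0)), ⟨c00, c00⟩, by rwa [lg_self]⟩)) h
  obtain ⟨c0, θ, hc0, hθ, H⟩ := depo_pow
  obtain ⟨β, b1, b2, H⟩ := drift Pι (fun n ω => Real.log (Mc n ω)) _ α hα0 H
  set D : Iota → Pt → Pt → ℝ := fun ω x y =>
    Real.exp (η ω (x, y)) - Real.exp (η ω ((0, 0), (0, 0))) with hD
  obtain ⟨m, hm, hae⟩ := subseq Pι (B := fun j m => {ω | ∃ x ∈ Q, ∃ y ∈ Q, ((1 : ℝ) / 2) ^ j <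
      |(dS (TN m ω) {x} {y} : ℝ) / Real.exp (α m) - D ω x y|} ∪
      {ω | ((1 : ℝ) / 2) ^ (j + 1) < |Real.log (Mc m ω) - α m - η ω ((0, 0), (0, 0))|}) fun j => by
    filter_upwards [unif hα (ε := (1 / 2) ^ j) (δ := (1 / 2) ^ (j + 1)) (by positivity)
      (by positivity), hα0 ((1 / 2) ^ (j + 1)) (by positivity)] with m a1 a2
    refine (measureReal_union_le _ _).trans ((add_le_add a1 a2).trans (le_of_eq (by ring)))
  have good : ∀ᵐ ω ∂Pι, D ω (0, 0) (1, 1) = Real.exp (η ω ((0, 0), (0, 0))) ∧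
      ∃ (w : ℕ → Om) (k : ℕ → ℕ), (∀ j, TN (m j) ω = TQ (w j) (k j)) ∧ ∀ᶠ j in atTop,
        ∀ x ∈ Q, ∀ y ∈ Q, |(d (w j) (k j) x y : ℝ) / Real.exp (α (m j)) - D ω x y| ≤ (1 / 2) ^ j := by
    filter_upwards [hae] with ω hω
    simp only [mem_union, mem_ofPred_eq, not_or, not_exists, not_and, not_lt] at hω
    choose w hw using fun j => exists_TN (m j) ω
    have a1 : ∀ᶠ j in atTop, ∀ x ∈ Q, ∀ y ∈ Q, |(d (w j) (tm (fun _ => 0) (m j + 1)) x y : ℝ) /
        Real.exp (α (m j)) - D ω x y| ≤ (1 / 2) ^ j :=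
      hω.mono fun j hj => by simpa only [hw j, d] using hj.1
    refine ⟨tendsto_nhds_unique (lim_pt a1 c00 c11) ?_, w, _, hw, a1⟩
    have a2 : Tendsto (fun j => Real.log (Mc (m j) ω) - α (m j)) atTop
        (𝓝 (η ω ((0, 0), (0, 0)))) := by
      rw [tendsto_iff_dist_tendsto_zero]
      exact squeeze_zero' (Eventually.of_forall fun _ => dist_nonneg) (hω.mono fun j hj => hj.2)
        ((tendsto_add_atTop_iff_nat 1).2
          (tendsto_pow_atTop_nhds_zero_of_lt_one (by norm_num) (by norm_num)))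
    refine ((Real.continuous_exp.tendsto _).comp a2).congr fun j => ?_
    rw [Function.comp_apply, Real.exp_sub, Real.exp_log (Mc_pos _ _), d, ← hw j]
    rfl
  have hsep : ∀ r : ℕ, ∀ᵐ ω ∂Pι, ∃ κ : ℝ, 0 < κ ∧ ∀ x ∈ Q, ∀ y ∈ Q,
      1 / ((r : ℝ) + 1) ≤ dist x y → κ ≤ D ω x y := fun r => ae_of_small Pι fun δ hδ => by
    obtain ⟨κ, hκ, h⟩ := sep (ρ := 1 / ((r : ℝ) + 1)) (by positivity) hδ
    refine ⟨_, hm.eventually h, ?_⟩
    filter_upwards [good] with ω ⟨g1, w, k, g2, g3⟩ hf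
    refine ⟨κ * D ω (0, 0) (1, 1), mul_pos hκ (g1 ▸ Real.exp_pos _), fun x hx y hy hxy => ?_⟩
    refine le_of_tendsto_of_tendsto_of_frequently ((lim_pt g3 c00 c11).const_mul κ)
      (lim_pt g3 hx hy) (hf.mono fun j hj => ?_)
    simp only [not_exists, not_and, not_lt, g2 j] at hj
    rw [← mul_div_assoc]
    exact div_le_div_of_nonneg_right (hj x hx y hy hxy) (Real.exp_pos _).le
  have hmod : ∀ r : ℕ, ∀ᵐ ω ∂Pι, ∃ ρ : ℝ, 0 < ρ ∧ ∀ x ∈ Q, ∀ y ∈ Q, dist x y ≤ ρ →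
      D ω x y ≤ 1 / ((r : ℝ) + 1) * D ω (0, 0) (1, 1) := fun r => ae_of_small Pι fun δ hδ => by
    obtain ⟨ρ, hρ, h⟩ := modul (ε := 1 / ((r : ℝ) + 1)) (by positivity) hδ
    refine ⟨_, hm.eventually h, ?_⟩
    filter_upwards [good] with ω ⟨g1, w, k, g2, g3⟩ hf
    refine ⟨ρ, hρ, fun x hx y hy hxy => ?_⟩
    refine le_of_tendsto_of_tendsto_of_frequently (lim_pt g3 hx hy)
      ((lim_pt g3 c00 c11).const_mul _) (hf.mono fun j hj => ?_)
    simp only [not_exists, not_and, not_lt, g2 j] at hj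
    rw [← mul_div_assoc]
    exact div_le_div_of_nonneg_right (hj x hx y hy hxy) (Real.exp_pos _).le
  refine ⟨β / 3, by linarith, by linarith, fun n => Real.exp (α n), fun n => Real.exp_pos _,
    fun t ht => reg_var H ht, D, fun x y => (hη _).exp.sub (hη _).exp,
    fun ε δ hε hδ => unif hα hε hδ, ?_, fun c h => nondeg hα0 c ?_⟩
  · filter_upwards [good, ae_all_iff.2 hsep, ae_all_iff.2 hmod] with ω ⟨g1, w, k, g2, g3⟩ g4 g5
    obtain ⟨m1, m2, m3⟩ := lim_metric (fun j => Real.exp_pos _) g3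
    have hc : ∀ ε : ℝ, 0 < ε → ∃ ρ : ℝ, 0 < ρ ∧ ∀ x ∈ Q, ∀ y ∈ Q, dist x y ≤ ρ → D ω x y ≤ ε := by
      intro ε hε
      have hp : 0 < D ω (0, 0) (1, 1) := g1 ▸ Real.exp_pos _
      obtain ⟨r, hr⟩ := exists_nat_one_div_lt (div_pos hε hp)
      obtain ⟨ρ, hρ, h⟩ := g5 r
      exact ⟨ρ, hρ, fun x hx y hy hxy => (h x hx y hy hxy).trans ((lt_div_iff₀ hp).1 hr).le⟩
    refine ⟨m1, m2, m3, fun ρ hρ => ?_, hc,
      fun x hx y hy => lim_mid (fun j => Real.exp_pos _) g3 hc hx hy⟩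
    obtain ⟨r, hr⟩ := exists_nat_one_div_lt hρ
    obtain ⟨κ, hκ, h⟩ := g4 r
    exact ⟨κ, hκ, fun x hx y hy hxy => h x hx y hy (hr.le.trans hxy)⟩
  · filter_upwards [good, h] with ω g1 g2
    rw [← g1.1, g2]

theorem bridge2 (L : List (ℕ × ℕ × ℕ)) {x y : Pt} (hxy : x ≠ y) :
    sInf {m : ℕ | ∃ S : Finset (ℕ × ℕ × ℕ),
        (∀ s ∈ S, s ∈ L) ∧ S.card = m ∧ IsConnected (⋃ s ∈ S, sqN s) ∧
        (∃ s ∈ S, x ∈ sqN s) ∧ (∃ s ∈ S, y ∈ sqN s)} = dS (cellSet L) {x} {y} := by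
  set A := {m : ℕ | ∃ S : Finset (ℕ × ℕ × ℕ),
        (∀ s ∈ S, s ∈ L) ∧ S.card = m ∧ IsConnected (⋃ s ∈ S, sqN s) ∧
        (∃ s ∈ S, x ∈ sqN s) ∧ (∃ s ∈ S, y ∈ sqN s)} with hA
  rw [dS]
  set B := {n | ∃ x' ∈ ({x} : Set Pt), ∃ y' ∈ ({y} : Set Pt), Reach (cellSet L) n x' y'} with hB
  have h1 : A ⊆ B := by
    rintro _ ⟨S, a1, rfl, a3, a4, a5⟩
    exact ⟨_, rfl, _, rfl, Bridge.reach a1 a3 a4 a5⟩
  have h2 : ∀ n ∈ B, ∃ m ∈ A, m ≤ n := by
    rintro n ⟨_, rfl, _, rfl, h⟩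
    rcases Bridge.family h with h | ⟨S, a1, a2, a3, a4, a5⟩
    · exact absurd h hxy
    · exact ⟨_, ⟨S, a1, rfl, a3, a4, a5⟩, a2⟩
  rcases B.eq_empty_or_nonempty with h | h
  · have hA0 : A = ∅ := subset_empty_iff.1 (h ▸ h1)
    rw [h, hA0]
  · obtain ⟨m, m1, m2⟩ := h2 _ (Nat.sInf_mem h)
    exact le_antisymm ((Nat.sInf_le m1).trans m2) (Nat.sInf_le (h1 (Nat.sInf_mem ⟨m, m1⟩)))

end Pool.Agent.P.MP_8c7dae_pr.Reg
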