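import Pool.Agent.P.MP_8c7dae_pr.Defs2

open MeasureTheory Set

namespace Pool.Agent.P.MP_8c7dae_pr

open Classical in
/-- a fixed geodesic -/
noncomputable def geo (A : Set Cell) (I J : Set Pt) : (ℕ → Pt) × (ℕ → Cell) :=
  if h : Conn A I J then (h.geod.choose, h.geod.choose_spec.choose) else (fun _ => 0, fun _ => root)

lemma geo_spec {A : Set Cell} {I J : Set Pt} (h : Conn A I J) :
    Geod A I J (geo A I J).1 (geo A I J).2 := by
  unfold geo
  rw [dif_pos h]
  exact h.geod.choose_spec.choose_spec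

lemma conn_of_pos {A : Set Cell} {I J : Set Pt} (h : 0 < dS A I J) : Conn A I J := by
  by_contra hc
  have : {n | ∃ x ∈ I, ∃ y ∈ J, Reach A n x y} = ∅ := by
    ext n; simp only [mem_ofPred_eq, mem_empty_iff_false, iff_false]
    exact fun h => hc ⟨n, h⟩
  rw [dS, this] at h
  simp at h

lemma geo_mem {A : Set Cell} {I J : Set Pt} {j : ℕ} (h : j < dS A I J) : (geo A I J).2 j ∈ A :=
  ((geo_spec (conn_of_pos (by omega))).1 j (Nat.zero_le _) h).1

/-- number of steps of the geodesic whose tile has the property `P` -/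
noncomputable def cnt (A : Set Cell) (I J : Set Pt) (P : Cell → Prop) : ℝ :=
  ∑ j ∈ Finset.range (dS A I J), ind (P ((geo A I J).2 j))

lemma cnt_nonneg (A : Set Cell) (I J : Set Pt) (P : Cell → Prop) : 0 ≤ cnt A I J P :=
  Finset.sum_nonneg fun _ _ => ind_nonneg _

lemma cnt_true (A : Set Cell) (I J : Set Pt) : cnt A I J (fun _ => True) = dS A I J := by
  simp [cnt, ind]

lemma cnt_eq_sum {A : Set Cell} {I J : Set Pt} {F : Finset Cell} (hF : ∀ v ∈ A, v ∈ F)
    (P : Cell → Prop) : cnt A I J P = ∑ w ∈ F, ind (P w) * cnt A I J (fun u => u = w) := by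
  classical
  unfold cnt
  simp only [Finset.mul_sum]
  rw [Finset.sum_comm]
  refine Finset.sum_congr rfl fun j hj => ?_
  rw [Finset.sum_eq_single ((geo A I J).2 j)]
  · rw [ind_pos rfl, mul_one]
  · intro w _ hw; rw [ind_neg (Ne.symm hw), mul_zero]
  · intro h; exact absurd (hF _ (geo_mem (Finset.mem_range.1 hj))) h

lemma cnt_eq_zero {A : Set Cell} {I J : Set Pt} {w : Cell} (h : w ∉ A) :
    cnt A I J (fun u => u = w) = 0 :=
  Finset.sum_eq_zero fun _ hj => ind_neg fun e => h (e ▸ geo_mem (Finset.mem_range.1 hj))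

lemma dS_le_add_cnt {A B : Set Cell} {I J : Set Pt} (hC : Conn A I J) (P : Cell → Prop)
    (h : ∀ u ∈ A, ∀ x ∈ sq u, ∀ y ∈ sq u, Reach B 2 x y ∧ (¬ P u → Reach B 1 x y)) :
    (dS B I J : ℝ) ≤ dS A I J + cnt A I J P := by
  classical
  have hg := geo_spec hC
  have := reach_of_steps (B := B) (p := (geo A I J).1)
    (c := fun j => if P ((geo A I J).2 j) then 2 else 1) (n := dS A I J) fun j hj => by
      obtain ⟨h1, h2, h3⟩ := hg.1 j (Nat.zero_le _) hj
      split_ifs with hp
      · exact (h _ h1 _ h2 _ h3).1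
      · exact (h _ h1 _ h2 _ h3).2 hp
  have h2 := dS_le hg.2.1 hg.2.2 this
  refine le_trans (Nat.cast_le.2 h2) (le_of_eq ?_)
  rw [cnt, ← cnt_true, cnt, ← Finset.sum_add_distrib, Nat.cast_sum]
  refine Finset.sum_congr rfl fun j _ => ?_
  unfold ind
  split_ifs <;> norm_num

variable {ω : Om} {k N : ℕ}

lemma S_update_of_not {v w : Cell} (h : ¬ (Below v w ∧ v.1 < w.1)) (s : ℕ) :
    S (Function.update ω v s) w = S ω w :=
  dep_S w fun u hu => Function.update_of_ne (by rintro rfl; exact h hu) _ _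

lemma S_update_self (v : Cell) (s : ℕ) : S (Function.update ω v s) v = S ω v :=
  S_update_of_not (fun h => lt_irrefl _ h.2) s

lemma S_update_below {v w : Cell} (h : Below v w) (hlt : v.1 < w.1) (s : ℕ) :
    S (Function.update ω v s) w + ω v = S ω w + s := by
  classical
  unfold S
  have hm : v.1 ∈ Finset.range w.1 := Finset.mem_range.2 hlt
  rw [← Finset.add_sum_erase _ _ hm, ← Finset.add_sum_erase _ _ hm, h.2, Function.update_self]
  have : ∑ m ∈ (Finset.range w.1).erase v.1, (Function.update ω v s (anc m w) + 1) =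
      ∑ m ∈ (Finset.range w.1).erase v.1, (ω (anc m w) + 1) :=
    Finset.sum_congr rfl fun m hm => by
      rw [Function.update_of_ne]
      exact fun e => (Finset.mem_erase.1 hm).1 (congrArg Prod.fst e)
  rw [this]; omega

lemma T_update {w : Cell} {s : ℕ} (h1 : k ≤ S ω w + ω w) (h2 : k ≤ S ω w + s) :
    T (Function.update ω w s) k = T ω k := by
  ext v
  simp only [T, mem_ofPred_eq]
  by_cases hb : Below w v ∧ w.1 < v.1
  · have a1 := S_ge (ω := ω) hb.1 hb.2
    have a2 := S_update_below (ω := ω) hb.1 hb.2 s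
    omega
  · rw [S_update_of_not hb]
    by_cases e : v = w
    · subst e; rw [Function.update_self]; omega
    · rw [Function.update_of_ne e]

/-- determined by the history up to time `k` -/
def Adapted {β : Type*} (k : ℕ) (H : Om → β) : Prop :=
  ∀ ω w s, k ≤ S ω w + ω w → k ≤ S ω w + s → H (Function.update ω w s) = H ω

lemma Adapted.mono {β : Type*} {k k' : ℕ} {H : Om → β} (h : Adapted k H) (hk : k ≤ k') :
    Adapted k' H := fun ω w s h1 h2 => h ω w s (by omega) (by omega)

lemma Adapted.map {β γ : Type*} {H : Om → β} (h : Adapted k H) (g : β → γ) :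
    Adapted k (fun ω => g (H ω)) := fun ω w s h1 h2 => by simp only [h ω w s h1 h2]

lemma TR_update {R : Finset Cell} {w : Cell} {s : ℕ} (h1 : k ≤ S ω w + ω w) (h2 : k ≤ S ω w + s) :
    TR (Function.update ω w s) k R = TR ω k R := by simp only [TR, T_update h1 h2]

lemma adapted_TR (k : ℕ) (R : Finset Cell) : Adapted k (fun ω => TR ω k R) :=
  fun _ _ _ h1 h2 => TR_update h1 h2

lemma elem_cnt (k : ℕ) (R : Finset Cell) (I J : Set Pt) (P : Cell → Prop) :
    Elem (fun ω => cnt (TR ω k R) I J P) := (elem_TR k R).map fun A => cnt A I J P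

lemma elem_split (w : Cell) (k : ℕ) : Elem (fun ω => S ω w + ω w = k) := by
  have := (elem_S_min w (k + 1)).map₂ (Elem.coord w (k + 1)) (fun s t => s + t = k)
  convert this using 2
  omega

lemma elem_cnt_split (k : ℕ) (R : Finset Cell) (I J : Set Pt) (P : Cell → Prop) :
    Elem (fun ω => cnt (TR ω k R) I J (fun w => P w ∧ S ω w + ω w = k)) := by
  simp only [fun ω => cnt_eq_sum (I := I) (J := J)
    (fun v (hv : v ∈ TR ω k R) => mem_cells_of_TR hv) (fun w => P w ∧ S ω w + ω w = k)]
  exact Elem.sum _ fun w _ => (((Elem.const _).and (elem_split w k)).map ind).map₂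
    (elem_cnt k R I J _) (· * ·)

lemma pw_update {s : Set Cell} {w : Cell} (hw : w ∈ s) (ω' ω₀ : Om) (t : ℕ) :
    pw s (Function.update ω' w t) ω₀ = Function.update (pw s ω' ω₀) w t := by
  funext v
  by_cases e : v = w
  · subst e; rw [pw_mem hw]; simp
  · rw [Function.update_of_ne e]
    by_cases hv : v ∈ s
    · rw [pw_mem hv, pw_mem hv, Function.update_of_ne e]
    · rw [pw_not hv, pw_not hv]

lemma Res_cnt_split (hN : 2 ≤ N) (R : Finset Cell) (I J : Set Pt) {H : Om → ℝ} (hH : Nice H)
    {s : Set Cell} {P : Cell → Prop} (hP : ∀ w, P w → w ∈ s)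
    (hA : ∀ ω w t, P w → w ∈ T ω k → k ≤ S ω w + t → H (Function.update ω w t) = H ω) (ω₀ : Om) :
    Res N s (fun ω => H ω * cnt (TR ω k R) I J (fun w => P w ∧ S ω w + ω w = k)) ω₀ =
      q N * Res N s (fun ω => H ω * cnt (TR ω k R) I J P) ω₀ := by
  have e1 : ∀ ω, H ω * cnt (TR ω k R) I J (fun w => P w ∧ S ω w + ω w = k) =
      ∑ w ∈ cells k R, ind (P w) * (H ω * cnt (TR ω k R) I J (fun u => u = w) *
        ind (S ω w + ω w = k)) := fun ω => by
    rw [cnt_eq_sum (fun v hv => mem_cells_of_TR hv), Finset.mul_sum]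
    exact Finset.sum_congr rfl fun w _ => by rw [ind_and]; ring
  have e2 : ∀ ω, H ω * cnt (TR ω k R) I J P =
      ∑ w ∈ cells k R, ind (P w) * (H ω * cnt (TR ω k R) I J (fun u => u = w)) := fun ω => by
    rw [cnt_eq_sum (fun v hv => mem_cells_of_TR hv), Finset.mul_sum]
    exact Finset.sum_congr rfl fun w _ => by ring
  have n1 : ∀ w, Nice (fun ω => H ω * cnt (TR ω k R) I J (fun u => u = w)) := fun w =>
    hH.mul (elem_cnt k R I J _).nice
  simp only [e1, e2]
  rw [Res_sum _ fun w _ => ((n1 w).mul (elem_split w k).ind).cmul _,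
    Res_sum _ fun w _ => (n1 w).cmul _, Finset.mul_sum]
  refine Finset.sum_congr rfl fun w _ => ?_
  rw [Res_cmul, Res_cmul]
  by_cases hw : P w
  swap
  · rw [ind_neg hw]; simp
  rw [ind_pos hw, one_mul, one_mul]
  unfold Res
  have hs := hP w hw
  rw [← E_split hN ((n1 w).pw s ω₀) w (t := fun ω' => k - S (pw s ω' ω₀) w)
    (measurable_const.sub ((measurable_S w).comp (measurable_pw_left s ω₀)))]
  · refine E_congr fun ω' => ?_
    beta_reduce
    by_cases ha : w ∈ TR (pw s ω' ω₀) k R
    · have := ha.1.1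
      congr 2
      rw [pw_mem hs]
      exact propext (by omega)
    · rw [cnt_eq_zero ha]; simp
  · intro ω' t
    rw [pw_update hs, S_update_self]
  · intro ω' h
    rw [cnt_eq_zero, mul_zero]
    intro ha
    have := ha.1.2
    rw [pw_mem hs] at this
    omega
  · intro ω' t ht
    rw [pw_update hs, pw_update hs]
    set ω := pw s ω' ω₀
    by_cases hS : S ω w ≤ k
    · set ω₁ := Function.update ω w (k - S ω w)
      have hS1 : S ω₁ w = S ω w := S_update_self _ _
      have a1 : w ∈ T ω₁ k := ⟨by omega, by rw [hS1]; simp only [ω₁, Function.update_self]; omega⟩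
      have e : Function.update ω w t = Function.update ω₁ w t := by simp [ω₁]
      rw [e, hA ω₁ w t hw a1 (by omega), TR_update (ω := ω₁) a1.2 (by omega)]
    · rw [cnt_eq_zero, cnt_eq_zero, mul_zero, mul_zero]
      · intro ha; have := ha.1.1; rw [S_update_self] at this; omega
      · intro ha; have := ha.1.1; rw [S_update_self] at this; omega

lemma dS_step {R : Finset Cell} {I J : Set Pt} (hC : Conn (TR ω k R) I J) :
    (dS (TR ω (k + 1) R) I J : ℝ) ≤ dS (TR ω k R) I J +
      cnt (TR ω k R) I J (fun w => True ∧ S ω w + ω w = k) := by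
  refine dS_le_add_cnt hC _ fun u hu x hx y hy => ?_
  have := (step_tile hu.1 hx hy).mono (B := TR ω (k + 1) R) fun w hw =>
    ⟨hw.1, by rw [hw.2.anc_eq (Nat.zero_le _)]; exact hu.2⟩
  refine ⟨this.mono_n (by split_ifs <;> omega), fun hp => ?_⟩
  rwa [if_neg (by simpa using hp)] at this

lemma elem_dS (k : ℕ) (R : Finset Cell) (I J : Set Pt) : Elem (fun ω => dS (TR ω k R) I J) :=
  (elem_TR k R).map fun A => dS A I J

/-- one step lemma -/
lemma E_step (hN : 2 ≤ N) {R : Finset Cell} {I J : Set Pt} (hC : ∀ ω k, Conn (TR ω k R) I J)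
    {H : Om → ℝ} (hH : Nice H) (h0 : ∀ ω, 0 ≤ H ω) (hA : Adapted k H) (w : ℕ) :
    E N (fun ω => H ω * dS (TR ω (k + w) R) I J) ≤
      (1 + q N) ^ w * E N (fun ω => H ω * dS (TR ω k R) I J) := by
  induction w with
  | zero => simp
  | succ w ih =>
    have hq := q_pos hN
    have h1 := Res_cnt_split (k := k + w) hN R I J hH (s := univ) (P := fun _ => True)
      (fun _ _ => trivial) (fun ω u t _ h1 h2 => hA.mono (Nat.le_add_right k w) ω u t h1.2 h2)
      (fun _ => 0)
    simp only [Res, pw_univ, cnt_true] at h1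
    have n1 := hH.mul (elem_dS (k + w) R I J).cast
    have n2 := hH.mul (elem_cnt_split (k + w) R I J (fun _ => True)).nice
    have h2 := E_mono (N := N) (hH.mul (elem_dS (k + (w + 1)) R I J).cast) (n1.add n2) fun ω => by
      rw [← mul_add]
      exact mul_le_mul_of_nonneg_left (dS_step (hC ω _)) (h0 ω)
    rw [E_add n1 n2, h1] at h2
    calc _ ≤ _ := h2
      _ = (1 + q N) * E N (fun ω => H ω * dS (TR ω (k + w) R) I J) := by ring
      _ ≤ (1 + q N) * ((1 + q N) ^ w * E N (fun ω => H ω * dS (TR ω k R) I J)) :=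
        mul_le_mul_of_nonneg_left ih (by linarith)
      _ = _ := by ring

lemma one_add_q_pow_le (hN : 2 ≤ N) (w : ℕ) : (1 + q N) ^ w ≤ Real.exp (q N * w) := by
  have h1 : 1 + q N ≤ Real.exp (q N) := by have := Real.add_one_le_exp (q N); linarith
  refine (pow_le_pow_left₀ (by linarith [q_pos hN]) h1 _).trans (le_of_eq ?_)
  rw [← Real.exp_nat_mul, mul_comm]

/-- advancing the subtree of `v` -/
lemma mem_T_dec {v w : Cell} {r : ℕ} (hr : r ≤ ω v) (hv : S ω v ≤ k) (hb : Below v w) :
    w ∈ T (Function.update ω v (ω v - r)) k ↔ w ∈ T ω (k + r) := by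
  simp only [T, mem_ofPred_eq]
  rcases hb.1.eq_or_lt with e | hlt
  · have := hb.eq_of_fst e.ge
    subst this
    rw [S_update_self, Function.update_self]
    omega
  · have := S_update_below (ω := ω) hb hlt (ω v - r)
    rw [Function.update_of_ne (by rintro rfl; exact lt_irrefl _ hlt)]
    omega

lemma mem_T_update_not {v w : Cell} (hb : ¬ Below v w) (s : ℕ) :
    w ∈ T (Function.update ω v s) k ↔ w ∈ T ω k := by
  simp only [T, mem_ofPred_eq]
  rw [S_update_of_not (fun h => hb h.1), Function.update_of_ne (by rintro rfl; exact hb (Below.refl _))]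

lemma TQ_dec {r : ℕ} (hr : r ≤ ω root) :
    TQ (Function.update ω root (ω root - r)) k = TQ ω (k + r) := by
  ext w
  rw [mem_TQ, mem_TQ]
  exact and_congr_left fun hb => mem_T_dec hr (by simp) hb

end Pool.Agent.P.MP_8c7dae_pr
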