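import Pool.Agent.P.MP_8c7dae_pr.Dens

open MeasureTheory Set Filter

namespace Pool.Agent.P.MP_8c7dae_pr

open CoverAux DensAux

namespace StructAux

lemma emb_blk {l r : Cell} (hr : r ∈ blk root) : r.1 = 0 ∧ (emb l).g r ∈ blk l := by
  obtain ⟨r0, r1, r2⟩ := r
  obtain ⟨h0, h1, h2, h3, h4⟩ := mem_blk.1 hr
  simp only [root] at h0 h1 h2 h3 h4
  subst h0
  refine ⟨rfl, mem_blk.2 ?_⟩
  simp only [emb, pow_zero, mul_one]
  omega

lemma blk_emb {l c : Cell} (hc : c ∈ blk l) : ∃ r ∈ blk root, (emb l).g r = c := by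
  obtain ⟨c0, c1, c2⟩ := c
  obtain ⟨h0, h1, h2, h3, h4⟩ := mem_blk.1 hc
  simp only at h0 h1 h2 h3 h4
  refine ⟨(0, c1 - l.2.1, c2 - l.2.2), mem_blk.2 ?_, ?_⟩
  · simp only [root, true_and]; omega
  · simp [emb, h0]

lemma dep_TR_emb (j : ℕ) (l : Cell) :
    DependsOn (fun ω => TR (pull (emb l) ω) j (blk root)) (Sub (blk l)) :=
  dep_pull (dep_TR j (blk root)) (emb l) fun _ hv =>
    ⟨_, (emb_blk hv).2, ((emb l).below_iff _ _).2 (below_anc (Nat.zero_le _))⟩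

lemma mem_subs {h : ℕ} {b b' l : Cell} (hl : l ∈ subs h b b') :
    l.1 = b.1 + h ∧ ∀ c ∈ blk l, (∃ c0 ∈ blk b, Below c0 c) ∧ c ∉ blk b' := by
  classical
  obtain ⟨h1, h2⟩ := Finset.mem_filter.1 hl
  obtain ⟨c0, hc0, h3⟩ := Finset.mem_biUnion.1 h1
  exact ⟨by rw [(mem_desc.1 h3).1, (mem_blk.1 hc0).1], h2⟩

lemma card_subs (h : ℕ) (b b' : Cell) : (subs h b b').card ≤ 4 * 4 ^ h := by
  classical
  exact (Finset.card_filter_le _ _).trans (card_bi h b)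

lemma sub_compl {h : ℕ} {b b' l : Cell} (e : b'.1 = b.1 + h) (hl : l ∈ subs h b b') :
    Sub (blk l) ⊆ (Sub (blk b'))ᶜ := by
  rintro v ⟨c, hc, hv⟩
  obtain ⟨h1, h2⟩ := mem_subs hl
  refine sub1_compl (fun c' hc' => ?_) (h2 c hc).2 hv
  rw [(mem_blk.1 hc).1, h1, (mem_blk.1 hc').1, e]

lemma sub_sub {h : ℕ} {b b' l : Cell} (hl : l ∈ subs h b b') : Sub (blk l) ⊆ Sub (blk b) := by
  rintro v ⟨c, hc, hv⟩
  obtain ⟨c0, h1, h2⟩ := ((mem_subs hl).2 c hc).1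
  exact ⟨c0, h1, h2.trans hv⟩

lemma dep_all {ι : Type*} (t : Finset ι) {f : ι → Om → Prop} {s : Set Cell}
    (h : ∀ i ∈ t, DependsOn (f i) s) : DependsOn (fun ω => ∀ i ∈ t, f i ω) s :=
  fun _ _ e => propext (forall₂_congr fun i hi => iff_of_eq (h i hi e))

lemma dep_ex {ι : Type*} (t : Finset ι) {f : ι → Om → Prop} {s : Set Cell}
    (h : ∀ i ∈ t, DependsOn (f i) s) : DependsOn (fun ω => ∃ i ∈ t, f i ω) s :=
  fun _ _ e => propext (exists_congr fun i => and_congr_right fun hi => iff_of_eq (h i hi e))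

lemma Res_or_le {N : ℕ} {A B : Om → Prop} (hA : Elem A) (hB : Elem B) (s : Set Cell) (ω : Om) :
    Res N s (fun ω => ind (A ω ∨ B ω)) ω ≤
      Res N s (fun ω => ind (A ω)) ω + Res N s (fun ω => ind (B ω)) ω := by
  rw [← Res_add hA.ind hB.ind]
  exact Res_mono (hA.or hB).ind (hA.ind.add hB.ind) (fun ω => ind_or_le _ _) s ω

lemma Res_ex_le {N : ℕ} {ι : Type*} (t : Finset ι) {A : ι → Om → Prop} (hA : ∀ i ∈ t, Elem (A i))
    {s : Set Cell} {ω : Om} {ε : ℝ} (hε : 0 ≤ ε) {m : ℕ} (hm : t.card ≤ m)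
    (h : ∀ i ∈ t, Res N s (fun ω => ind (A i ω)) ω ≤ ε) :
    Res N s (fun ω => ind (∃ i ∈ t, A i ω)) ω ≤ m * ε := by
  refine (Res_mono (Elem.ex t hA).ind (Nice.sum t fun i hi => (hA i hi).ind)
    (fun ω => ind_ex_le t _) s ω).trans ?_
  rw [Res_sum t fun i hi => (hA i hi).ind]
  refine (Finset.sum_le_card_nsmul t _ ε h).trans ?_
  rw [nsmul_eq_mul]
  exact mul_le_mul_of_nonneg_right (by exact_mod_cast hm) hε

/-- some cell at relative depth `h` is born late -/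
def Inc (N h w : ℕ) (c0 : Cell) (ω : Om) : Prop := ¬ ∀ c ∈ desc h c0, Srel ω c0.1 c ≤ w * N

/-- the lower bound fails -/
def NLB (N : ℕ) (κ : ℝ) (j : ℕ) (ω : Om) : Prop := ¬ LBs (TR ω j (blk root)) (1 / 128) (κ * a N j)

/-- the local event fails -/
def NG (N t1 : ℕ) (G : ℕ → Om → Prop) (j : ℕ) (ω : Om) : Prop := t1 * N ≤ j ∧ ¬ G j ω

/-- the local bad event -/
def Ev (N k h w t1 : ℕ) (κ : ℝ) (G : ℕ → Om → Prop) (b b' : Cell) (ω : Om) : Prop :=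
  (∃ c0 ∈ blk b, Inc N h w c0 ω) ∨ ∃ l ∈ subs h b b', ∃ c ∈ blk l,
    NLB N κ (k - S ω c) (pull (emb l) ω) ∨ NG N t1 G (k - S ω c) (pull (emb c) ω)

variable {N k h w t1 : ℕ} {κ ε : ℝ} {G : ℕ → Om → Prop} {b b' : Cell}

lemma elem_Inc (c0 : Cell) : Elem (Inc N h w c0) :=
  (Elem.all _ fun c _ => elem_Srel_le c0.1 c _).not

lemma elem_NLB (j : ℕ) : Elem (NLB N κ j) := (elem_LBs j _ _ _).not

lemma elem_NG (hG : ∀ j, Elem (G j)) (j : ℕ) : Elem (NG N t1 G j) :=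
  (Elem.const _).and (hG j).not

lemma elem_Ev (hG : ∀ j, Elem (G j)) : Elem (Ev N k h w t1 κ G b b') :=
  (Elem.ex _ fun c0 _ => elem_Inc c0).or (Elem.ex _ fun l _ => Elem.ex _ fun c _ =>
    (Elem.aged elem_NLB (emb l) c k).or (Elem.aged (elem_NG hG) (emb c) c k))

lemma dep_NLB (j : ℕ) (l : Cell) :
    DependsOn (fun ω => NLB N κ j (pull (emb l) ω)) (Sub (blk l)) :=
  (dep_TR_emb j l).qmap fun A => ¬ LBs A (1 / 128) (κ * a N j)

lemma dep_NG (hG : ∀ j, DependsOn (G j) (Sub1 root)) (j : ℕ) {l c : Cell} (hc : c ∈ blk l) :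
    DependsOn (fun ω => NG N t1 G j (pull (emb c) ω)) (Sub (blk l)) :=
  ((dep_pull_sub1 (hG j) (emb c)).mono (t := Sub (blk l))
    fun v hv => ⟨c, hc, by rw [emb_root] at hv; exact hv⟩).qmap fun P => t1 * N ≤ j ∧ ¬ P

lemma dep_Ev (hG : ∀ j, DependsOn (G j) (Sub1 root)) (e : b'.1 = b.1 + h) :
    DependsOn (Ev N k h w t1 κ G b b') (Sub (blk b'))ᶜ := by
  refine DependsOn.qmap₂ (dep_ex _ fun c0 hc0 => ?_) (dep_ex _ fun l hl => dep_ex _ fun c hc => ?_)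
    Or
  · refine (dep_all _ fun c hc => ?_).qmap Not
    refine (dep_Srel_sub c0.1 fun c' hc' => ?_).qmap fun s => s ≤ w * N
    rw [(mem_desc.1 hc).1, (mem_blk.1 hc0).1, (mem_blk.1 hc').1, e]
  · have hφ : DependsOn (fun ω => k - S ω c) (Sub (blk b'))ᶜ :=
      (dep_S_sub fun c' hc' => by
        rw [(mem_blk.1 hc).1, (mem_subs hl).1, (mem_blk.1 hc').1, e]).qmap fun s => k - s
    exact (dep_aged (F := fun j ω => NLB N κ j (pull (emb l) ω))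
      (fun j => (dep_NLB j l).mono (sub_compl e hl)) hφ).qmap₂
      (dep_aged (F := fun j ω => NG N t1 G j (pull (emb c) ω))
        (fun j => (dep_NG hG j hc).mono (sub_compl e hl)) hφ) Or

lemma Res_Ev (hGe : ∀ j, Elem (G j)) (hG : ∀ j, DependsOn (G j) (Sub1 root)) (hε : 0 ≤ ε)
    (h1 : ∀ c, Pr N (Inc N h w c) ≤ ε) (h2 : ∀ j, Pr N (NLB N κ j) ≤ ε)
    (h3 : ∀ j, t1 * N ≤ j → Pr N (fun ω => ¬ G j ω) ≤ ε) (ω : Om) :
    Res N (Sub (blk b)) (fun ω => ind (Ev N k h w t1 κ G b b' ω)) ω ≤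
      (4 : ℕ) * ε + (4 * 4 ^ h : ℕ) * ((4 : ℕ) * (ε + ε)) := by
  have e1 := fun l c => Elem.aged (elem_NLB (N := N) (κ := κ)) (emb l) c k
  have e2 := fun c => Elem.aged (elem_NG (N := N) (t1 := t1) hGe) (emb c) c k
  refine (Res_or_le (Elem.ex _ fun c0 _ => elem_Inc c0) (Elem.ex _ fun l _ => Elem.ex _ fun c _ =>
    (e1 l c).or (e2 c)) _ ω).trans (add_le_add ?_ ?_)
  · refine Res_ex_le _ (fun c0 _ => elem_Inc c0) hε (card_blk b) fun c0 hc0 => ?_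
    have : DependsOn (Inc N h w c0) (Sub (blk b)) :=
      (dep_all _ fun c hc => ((dep_Srel c0.1 c).mono fun v hv =>
        (⟨c0, hc0, (mem_desc.1 hc).2.of_le hv.1 hv.2.1⟩ : v ∈ Sub (blk b))).qmap
          fun s => s ≤ w * N).qmap Not
    rw [Res_of_dep (dep_ind this)]
    exact h1 c0
  · refine Res_ex_le _ (fun l _ => Elem.ex _ fun c _ => (e1 l c).or (e2 c)) (by positivity)
      (card_subs h b b') fun l hl => Res_ex_le _ (fun c _ => (e1 l c).or (e2 c)) (by positivity)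
        (card_blk l) fun c hc => ?_
    have hφ : DependsOn (fun ω => k - S ω c) (Sub (blk l))ᶜ :=
      (dep_S_sub fun c' hc' => by rw [(mem_blk.1 hc).1, (mem_blk.1 hc').1]).qmap fun s => k - s
    refine (Res_or_le (e1 l c) (e2 c) _ ω).trans (add_le_add ?_ ?_)
    · refine Res_le_of_subset (e1 l c).ind (sub_sub hl) (fun ω => ?_) ω
      rw [Res_aged (F := fun j ω => ind (NLB N κ j ω)) (fun j => (elem_NLB j).ind) (emb l)
        (fun j => dep_ind (dep_NLB j l)) hφ]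
      exact h2 _
    · refine Res_le_of_subset (e2 c).ind (sub_sub hl) (fun ω => ?_) ω
      rw [Res_aged (F := fun j ω => ind (NG N t1 G j ω)) (fun j => (elem_NG hGe j).ind) (emb c)
        (fun j => dep_ind (dep_NG hG j hc)) hφ]
      by_cases ht : t1 * N ≤ k - S ω c
      · exact (Pr_mono (elem_NG hGe _) (hGe _).not fun ω h => h.2).trans (h3 _ ht)
      · exact (Pr_false fun ω h => ht h.1).trans_le hε

lemma exists_desc_root {c : Cell} (hc : Below root c) {M : ℕ} (hM : c.1 ≤ M) :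
    ∃ u ∈ desc M root, Below c u := by
  have h1 : (desc (M - c.1) c).Nonempty := by
    refine Finset.Nonempty.image ?_ _
    exact ⟨(0, 0), by simp⟩
  obtain ⟨u, hu⟩ := h1
  obtain ⟨h2, h3⟩ := mem_desc.1 hu
  exact ⟨u, mem_desc.2 ⟨by simp only [root]; omega, hc.trans h3⟩, h3⟩

lemma near_one {x : ℝ} (h0 : 0 ≤ x) (h1 : x ≤ 1) (M : ℕ) :
    ∃ i ∈ Finset.range (2 ^ M + 1), 2 ^ M * |x - i / 2 ^ M| ≤ 1 := by
  have hp := two_pow_pos' M
  have h2 : 0 ≤ 2 ^ M * x := by positivity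
  refine ⟨⌊2 ^ M * x⌋₊, Finset.mem_range.2 (Nat.lt_succ_of_le (Nat.floor_le_of_le ?_)), ?_⟩
  · push_cast; nlinarith
  · rw [← abs_of_pos hp, ← abs_mul, abs_of_pos hp, mul_sub, mul_div_cancel₀ _ hp.ne', abs_le]
    constructor <;> linarith [Nat.floor_le h2, Nat.lt_floor_add_one (2 ^ M * x)]

lemma exists_grid {p : Pt} (hp : p ∈ Q) (M : ℕ) : ∃ z ∈ grid M, 2 ^ M * dist p z ≤ 1 := by
  obtain ⟨h1, h2, h3, h4⟩ := mem_Q.1 hp
  obtain ⟨i, hi, h5⟩ := near_one h1 h2 M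
  obtain ⟨j, hj, h6⟩ := near_one h3 h4 M
  refine ⟨_, Finset.mem_image.2 ⟨(i, j), Finset.mem_product.2 ⟨hi, hj⟩, rfl⟩, ?_⟩
  rw [Prod.dist_eq, mul_max_of_nonneg _ _ (two_pow_pos' M).le]
  exact max_le h5 h6

lemma LB_transfer {ω : Om} {l c : Cell} {x : ℝ}
    (h : LBs (TR (pull (emb l) ω) (k - S ω c) (blk root)) (1 / 128) x) :
    LBs {u | u ∈ TQ ω k ∧ ∃ c' ∈ blk l, Below c' u ∧ S ω c' ≤ S ω c} (1 / (128 * 2 ^ l.1)) x := by
  intro n p p' hr hd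
  refine h n _ _ (Reach.down (k := k) (emb l) ?_ hr) ?_
  · rintro u ⟨hu, c', hc', hb, hs⟩
    obtain ⟨r, hr, rfl⟩ := blk_emb hc'
    have h1 := S_mono (ω := ω) hb
    have h2 : S ω u ≤ k := hu.1.1
    exact ⟨hu.1, r, hr, (emb_blk (l := l) hr).1, hb, by omega⟩
  · rw [Sim.dist_φ, emb_s]
    have hp := two_pow_pos' l.1
    rw [div_le_iff₀ (by positivity)] at hd
    linarith

end StructAux

open StructAux

theorem struct : ∃ h : ℕ, ∃ κ K p2 C : ℝ, 0 < κ ∧ 0 < K ∧ 0 < p2 ∧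
    ∀ (G : ℕ → ℕ → Om → Prop) (t1 : ℕ), (∀ N j, Elem (G N j)) →
      (∀ N j, DependsOn (G N j) (Sub1 root)) →
      (∀ N, 2 ≤ N → ∀ j, t1 * N ≤ j → Pr N (fun ω => ¬ G N j ω) ≤ p2) →
      ∀ (D H : ℕ) (η : ℝ), 0 < η → ∃ w : ℕ, ∀ N, 2 ≤ N → ∀ k kY : ℕ, (w + t1) * N ≤ k →
        ∃ Bad : Om → Prop, Elem Bad ∧ Pr N Bad ≤ C / 2 ^ D + η ∧ ∀ ω, ¬ Bad ω →
          (∀ c ∈ desc (D + D * h + H) root, S ω c ≤ w * N) ∧
          ∀ (p : ℕ → Pt) (v : ℕ → Cell) (n : ℕ), IsCh (TQ ω k) p v 0 n → ∀ τ ≤ n,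
            1 < 2 ^ D * dist (p τ) (p 0) → 1 < 2 ^ D * dist (p τ) (p n) →
            ∃ J ⊆ Finset.range D, D ≤ 2 * J.card ∧
              ∀ j ∈ J, GoodInt N ω k kY v n τ (G N) κ K (D + j * h) h := by
  classical
  obtain ⟨h, h6, p1, K0, C, hp1, hK0, hd⟩ := density
  obtain ⟨U, -, hU⟩ := a_grow
  obtain ⟨ε, hε⟩ : ∃ ε : ℝ, ε = p1 / (4 + 32 * 4 ^ h) := ⟨_, rfl⟩
  have hε0 : 0 < ε := by rw [hε]; positivity
  have hε1 : ((4 : ℕ) : ℝ) * ε + (4 * 4 ^ h : ℕ) * ((4 : ℕ) * (ε + ε)) ≤ p1 := by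
    rw [hε]; push_cast; apply le_of_eq; field_simp; ring
  obtain ⟨w2, hw2⟩ := exists_comp h hε0
  obtain ⟨κ, hκ, -, hLB⟩ := LB_prob (blk root) (by norm_num : (0 : ℝ) < 1 / 128) hε0
  have hex := Real.exp_pos (U + w2)
  refine ⟨h, κ, K0 + Real.exp (U + w2), ε, C, hκ, by linarith, hε0,
    fun G t1 hGe hG hGp D H η hη => ?_⟩
  obtain ⟨w, hw⟩ := exists_comp (D + D * h + H) hη
  refine ⟨w, fun N hN k kY hk => ?_⟩
  have hel : Elem fun ω => ∃ z ∈ grid (D + D * h + 5), D < 2 * ((Finset.range D).filter fun j =>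
      K0 < Yb N ω kY (ll (D + j * h) z) ∨ Ev N k h w2 t1 κ (G N)
        (ll (D + j * h) z) (ll (D + j * h + h) z) ω).card := Elem.ex _ fun z _ =>
    Elem.of_finset (Finset.range D) (fun j _ => ((elem_Yb N kY (ll (D + j * h) z)).map
      fun y => K0 < y).or (elem_Ev (N := N) (k := k) (h := h) (w := w2) (t1 := t1) (κ := κ)
        (b := ll (D + j * h) z) (b' := ll (D + j * h + h) z) (hGe N))) fun ω ω' hω => by
        rw [Finset.filter_congr fun j hj => iff_of_eq (hω j hj)]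
  have hel2 := elem_Inc (N := N) (h := D + D * h + H) (w := w) root
  refine ⟨_, hel.or hel2, (Pr_le_add (hel.or hel2) hel hel2 fun ω h => h).trans
    (add_le_add ?_ (hw N hN root)), fun ω hω => ?_⟩
  · convert hd N hN kY D (Ev N k h w2 t1 κ (G N)) (fun b b' => elem_Ev (hGe N))
      (fun b b' e => dep_Ev (hG N) e) fun b b' _ ω =>
        (Res_Ev (hGe N) (hG N) hε0.le (hw2 N hN) (hLB N hN) (hGp N hN) ω).trans hε1
  obtain ⟨hω1, hω2⟩ := not_or.1 hω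
  have hc : ∀ c ∈ desc (D + D * h + H) root, S ω c ≤ w * N := fun c hc => by
    rw [S_eq_Srel]; exact not_not.1 hω2 c hc
  have hkw : w * N + t1 * N ≤ k := by rwa [← add_mul]
  have hS : ∀ c, Below root c → c.1 ≤ D + D * h + H → S ω c ≤ w * N := fun c h1 h2 => by
    obtain ⟨u, hu, h3⟩ := exists_desc_root h1 h2
    exact (S_mono h3).trans (hc u hu)
  refine ⟨hc, fun p v n hch τ hτ hx hy => ?_⟩
  have hτn : τ < n := lt_of_le_of_ne hτ fun e => by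
    rw [e, dist_self, mul_zero] at hy; linarith
  have hvr : ∀ j < n, Below root (v j) := fun j hj => (mem_TQ.1 (hch j (Nat.zero_le _) hj).1).2
  have hdeep : ∀ j < n, D + D * h ≤ (v j).1 := fun j hj => by
    by_contra hlt
    obtain ⟨u, hu, h3⟩ := exists_desc_root (hvr j hj) (M := D + D * h + H) (by omega)
    have h4 := S_ge (ω := ω) h3 (by rw [(mem_desc.1 hu).1]; simp only [root]; omega)
    have h5 := (mem_TQ.1 (hch j (Nat.zero_le _) hj).1).1.2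
    have h7 := hc u hu
    omega
  obtain ⟨z, hz, hzd⟩ := exists_grid ((hvr τ hτn).sq_sub (hch τ (Nat.zero_le _) hτn).2.1)
    (D + D * h + 5)
  have hcard := not_lt.1 fun hlt => hω1 ⟨z, hz, hlt⟩
  refine ⟨(Finset.range D).filter fun j => ¬ (K0 < Yb N ω kY (ll (D + j * h) z) ∨
    Ev N k h w2 t1 κ (G N) (ll (D + j * h) z) (ll (D + j * h + h) z) ω),
    Finset.filter_subset _ _, ?_, fun j hj => ?_⟩
  · have := Finset.card_filter_add_card_filter_not (s := Finset.range D) fun j =>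
      K0 < Yb N ω kY (ll (D + j * h) z) ∨
        Ev N k h w2 t1 κ (G N) (ll (D + j * h) z) (ll (D + j * h + h) z) ω
    rw [Finset.card_range] at this
    omega
  obtain ⟨hj1, hj2⟩ := Finset.mem_filter.1 hj
  obtain ⟨hY, hE⟩ := not_or.1 hj2
  obtain ⟨hE1, hE2⟩ := not_or.1 hE
  have hjD : j + 1 ≤ D := Finset.mem_range.1 hj1
  have hi : D + j * h + h ≤ D + D * h := by nlinarith
  have hpow : ∀ x : ℝ, 0 ≤ x → 1 < 2 ^ D * x → 1 ≤ 2 ^ (D + j * h) * x := fun x h0 h1 =>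
    h1.le.trans (mul_le_mul_of_nonneg_right (pow_le_pow_right₀ (by norm_num) (by omega)) h0)
  obtain ⟨lo, hi', cm, cp, g1, g2, g3, g4, g5, g6, g7, g8, g9, g10⟩ := local_interval (TQ ω k)
    (S ω) p v n hch (D + j * h) h h6 (fun t ht => hi.trans (hdeep t ht)) z τ hτ
    (by
      have h1 : (2 : ℝ) ^ (D + j * h + 5) ≤ 2 ^ (D + D * h + 5) :=
        pow_le_pow_right₀ (by norm_num) (by omega)
      have h2 := (mul_le_mul_of_nonneg_right h1 dist_nonneg).trans hzd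
      rw [pow_add] at h2
      linarith)
    (hpow _ dist_nonneg hx) (hpow _ dist_nonneg hy) (fun c => κ * a N (k - S ω c))
    (fun c => t1 * N ≤ k - S ω c → G N (k - S ω c) (pull (emb c) ω)) fun l hl c hc => by
      obtain ⟨h1, h2⟩ := not_or.1 fun h => hE2 ⟨l, hl, c, hc, h⟩
      refine ⟨fun ht => by_contra fun hn => h2 ⟨ht, hn⟩, ?_⟩
      have h3 := LB_transfer (not_not.1 h1)
      rwa [(mem_subs hl).1] at h3
  have hX : ∀ c ∈ blk (ll (D + j * h) z),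
      (Xh ω kY c : ℝ) ≤ (K0 + Real.exp (U + w2)) * a N (kY - S ω c) := fun c hc => by
    have h1 : yc N kY c ω ≤ Yb N ω kY (ll (D + j * h) z) :=
      Finset.single_le_sum (f := fun u => yc N kY u ω) (fun u _ => yc_nonneg N kY u ω) hc
    have h2 := a_pos N (kY - S ω c)
    rw [← div_le_iff₀ (by linarith)]
    exact h1.trans ((not_lt.1 hY).trans (by linarith))
  have hside : ∀ (lo hi : ℕ) (e : Cell), hi ≤ n → (∃ c j1 j2, lo ≤ j1 ∧ j1 ≤ j2 ∧ j2 < hi ∧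
      c.1 = D + j * h + h ∧ (t1 * N ≤ k - S ω c → G N (k - S ω c) (pull (emb c) ω)) ∧
      Below c (v j1) ∧ Below c (v j2) ∧ κ * a N (k - S ω c) ≤ ((j2 + 1 - j1 : ℕ) : ℝ) ∧
      ∃ c0 ∈ blk (ll (D + j * h) z), Below c0 c ∧ S ω c0 ≤ S ω e) →
      Side N ω k v (G N) κ (K0 + Real.exp (U + w2)) (D + j * h + h) lo hi e := by
    rintro lo hi e hn ⟨c, j1, j2, s1, s2, s3, s4, s5, s6, s7, s8, c0, s9, s10, s11⟩
    have h1 := hS c ((hvr j1 (by omega)).of_le s6 (Nat.zero_le _)) (by omega)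
    refine ⟨c, j1, j2, s1, s2, s3, s4, s5 (by omega), s6, s7, s8, ?_⟩
    have h2 : Srel ω c0.1 c ≤ w2 * N := not_not.1 (fun h => hE1 ⟨c0, s9, h⟩) c
      (mem_desc.2 ⟨by rw [s4, (mem_blk.1 s9).1]; rfl, s10⟩)
    have h3 := S_below (ω := ω) s10
    have h4 : (a N (k - S ω e) : ℝ) ≤ a N (k - S ω c + w2 * N) := by
      exact_mod_cast a_mono N (by omega)
    have h5 := hU N hN (k - S ω c) (w2 * N)
    rw [show q N * ((w2 * N : ℕ) : ℝ) = w2 by
      push_cast; rw [mul_left_comm, q_mul hN, mul_one]] at h5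
    have h7 := a_pos N (k - S ω c)
    nlinarith
  exact ⟨lo, hi', _, cm, cp, rfl, g1, g2, g3, g4, g5, g6, g7, g8, hX cm g4, hX cp g5,
    hside lo τ cm hτ g9, hside τ hi' cp g3 g10⟩

end Pool.Agent.P.MP_8c7dae_pr
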