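import Pool.Agent.P.MP_8c7dae_pr.Prob

open MeasureTheory Set

namespace Pool.Agent.P.MP_8c7dae_pr

/-- birth time counted from depth `i` -/
def Srel (ω : Om) (i : ℕ) (v : Cell) : ℕ := ∑ m ∈ Finset.Ico i v.1, (ω (anc m v) + 1)

/-- internal diameter of the cell `c` at time `k` -/
noncomputable def Xh (ω : Om) (k : ℕ) (c : Cell) : ℕ := X (pull (emb c) ω) (k - S ω c)

/-- largest internal diameter of a depth `m` cell of the unit square -/
noncomputable def Mx (ω : Om) (k m : ℕ) : ℕ := (desc m root).sup (Xh ω k)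

variable {ω : Om} {k : ℕ}

lemma S_below {c v : Cell} (h : Below c v) : S ω v = S ω c + Srel ω c.1 v := by
  unfold S Srel
  rw [Finset.range_eq_Ico, Finset.range_eq_Ico,
    ← Finset.sum_Ico_consecutive _ (Nat.zero_le c.1) h.1]
  congr 1
  refine Finset.sum_congr rfl fun m hm => ?_
  rw [h.anc_eq (Finset.mem_Ico.1 hm).2.le]

lemma S_eq_Srel (v : Cell) : S ω v = Srel ω 0 v := by
  unfold S Srel; rw [Finset.range_eq_Ico]

lemma S_zero {v : Cell} (h : v.1 = 0) : S ω v = 0 := by simp [S, h]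

@[simp] lemma S_root : S ω root = 0 := S_zero rfl

lemma S_ge {c v : Cell} (h : Below c v) (hlt : c.1 < v.1) : S ω c + ω c + 1 ≤ S ω v := by
  rw [S_below h, add_assoc]
  refine Nat.add_le_add_left ?_ _
  have := Finset.single_le_sum (f := fun m => ω (anc m v) + 1) (s := Finset.Ico c.1 v.1)
    (fun _ _ => Nat.zero_le _) (a := c.1) (Finset.mem_Ico.2 ⟨le_rfl, hlt⟩)
  simp only [h.2] at this
  exact this

lemma S_mono {c v : Cell} (h : Below c v) : S ω c ≤ S ω v := by rw [S_below h]; omega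

lemma fst_le_S (v : Cell) : v.1 ≤ S ω v := by
  unfold S
  have := Finset.card_nsmul_le_sum (Finset.range v.1) (fun m => ω (anc m v) + 1) 1
    (fun _ _ => by omega)
  simpa using this

lemma S_child {c v : Cell} (h : v ∈ desc 1 c) : S ω v = S ω c + ω c + 1 := by
  rw [mem_desc] at h
  rw [S_below h.2, Srel, h.1, Nat.Ico_succ_singleton, Finset.sum_singleton, h.2.2, add_assoc]

lemma anc_succ_mem_desc {m : ℕ} {v : Cell} (h : m + 1 ≤ v.1) :
    anc (m + 1) v ∈ desc 1 (anc m v) := by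
  rw [mem_desc]
  exact ⟨rfl, (below_anc (by omega)).anc_below (by simp) h⟩

lemma exists_alive {v : Cell} (h : k ≤ S ω v + ω v) : ∃ w, Below w v ∧ w ∈ T ω k := by
  obtain ⟨m, -, hm, h1, h2⟩ := exists_last (P := fun m => S ω (anc m v) ≤ k) (Nat.zero_le v.1)
    (by rw [S_zero rfl]; exact Nat.zero_le _)
  refine ⟨anc m v, below_anc hm, h1, ?_⟩
  rcases hm.eq_or_lt with e | hlt
  · rw [e, anc_self]; exact h
  · have := h2 (m + 1) (by omega) hlt
    rw [S_child (anc_succ_mem_desc hlt)] at this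
    omega

lemma alive_unique {v w : Cell} (hv : v ∈ T ω k) (hw : w ∈ T ω k) (h : Below v w) : v = w := by
  rcases h.1.eq_or_lt with e | hlt
  · exact h.eq_of_fst e.ge
  · have := S_ge (ω := ω) h hlt
    have h1 := hv.2
    have h2 := hw.1
    omega

lemma below_of_alive {c v w : Cell} (hc : S ω c ≤ k) (hw : w ∈ T ω k) (h1 : Below c v)
    (h2 : Below w v) : Below c w := by
  by_cases h : c.1 ≤ w.1
  · exact h1.of_le h2 h
  · have := S_ge (ω := ω) (h2.of_le h1 (by omega)) (by omega)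
    have := hw.2
    omega

lemma exists_tile {c : Cell} {p : Pt} (hp : p ∈ sq c) (hc : S ω c ≤ k) :
    ∃ v, Below c v ∧ v ∈ T ω k ∧ p ∈ sq v := by
  obtain ⟨u, hu, hpu⟩ := exists_desc_mem k hp
  rw [mem_desc] at hu
  have := fst_le_S (ω := ω) u
  obtain ⟨w, hw, hw'⟩ := exists_alive (ω := ω) (k := k) (v := u) (by omega)
  exact ⟨w, below_of_alive hc hw' hu.2 hw, hw', hw.sq_sub hpu⟩

lemma Srel_pull (σ : Sim) (i : ℕ) (v : Cell) :
    Srel (pull σ ω) i v = Srel ω (i + σ.s) (σ.g v) := by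
  unfold Srel
  rw [σ.fst, ← Finset.sum_Ico_add']
  refine Finset.sum_congr rfl fun m hm => ?_
  rw [σ.anc_g _ _ (Finset.mem_Ico.1 hm).2.le]
  rfl

lemma S_pull (σ : Sim) (v : Cell) :
    S ω (σ.g v) = S ω (σ.g (anc 0 v)) + S (pull σ ω) v := by
  rw [S_below ((σ.below_iff _ _).2 (below_anc (Nat.zero_le v.1))), S_eq_Srel (ω := pull σ ω),
    Srel_pull, σ.fst]
  rfl

lemma S_pull_zero (σ : Sim) (hs : σ.s = 0) (v : Cell) : S (pull σ ω) v = S ω (σ.g v) := by
  rw [S_pull, S_zero (v := σ.g (anc 0 v)) (by rw [σ.fst, hs]; rfl), zero_add]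

lemma mem_TR {R : Finset Cell} {v : Cell} :
    v ∈ TR ω k R ↔ (S ω v ≤ k ∧ k ≤ S ω v + ω v) ∧ anc 0 v ∈ R := Iff.rfl

lemma mem_TQ {v : Cell} : v ∈ TQ ω k ↔ v ∈ T ω k ∧ Below root v := by
  simp [TQ, TR, below_root_iff]

lemma TR_coarsen {R : Finset Cell} {v : Cell} (hR : anc 0 v ∈ R) (h : k ≤ S ω v + ω v) :
    ∃ w ∈ TR ω k R, Below w v := by
  obtain ⟨w, h1, h2⟩ := exists_alive h
  exact ⟨w, ⟨h2, by rwa [← h1.anc_eq (Nat.zero_le _)]⟩, h1⟩

lemma Reach.time {R : Finset Cell} {k k' n : ℕ} (hk : k ≤ k') {x y : Pt}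
    (h : Reach (TR ω k' R) n x y) : Reach (TR ω k R) n x y :=
  h.push idS fun _ hv => TR_coarsen hv.2 (hk.trans hv.1.2)

/-- chains of an array of age at least the true age transfer to the true configuration -/
lemma Reach.up (σ : Sim) {R R' : Finset Cell} {j n : ℕ} {x y : Pt}
    (hR : ∀ r ∈ R, anc 0 (σ.g r) ∈ R' ∧ k ≤ S ω (σ.g r) + j)
    (h : Reach (TR (pull σ ω) j R) n x y) : Reach (TR ω k R') n (σ.ψ x) (σ.ψ y) :=
  h.push σ fun v hv => by
    obtain ⟨h1, h2⟩ := hR _ hv.2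
    refine TR_coarsen ?_ ?_
    · rwa [((σ.below_iff _ _).2 (below_anc (Nat.zero_le v.1))).anc_eq (Nat.zero_le _)]
    · have := hv.1.2
      rw [S_pull]
      change k ≤ _ + pull σ ω v
      omega

/-- chains of the true configuration transfer to an array of smaller age -/
lemma Reach.down (σ : Sim) {A : Set Cell} {R : Finset Cell} {j n : ℕ} {x y : Pt}
    (hA : ∀ w ∈ A, w ∈ T ω k ∧ ∃ r ∈ R, r.1 = 0 ∧ Below (σ.g r) w ∧ S ω (σ.g r) + j ≤ k)
    (h : Reach A n x y) : Reach (TR (pull σ ω) j R) n (σ.φ x) (σ.φ y) :=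
  h.pullback σ fun w hw => by
    obtain ⟨h1, r, hr, hr0, h2, h3⟩ := hA w hw
    obtain ⟨u, rfl, hu⟩ := σ.exists_of_below h2
    have e : anc 0 u = r := by have := hu.2; rwa [hr0] at this
    refine ⟨u, rfl, TR_coarsen (by rwa [e]) ?_⟩
    have := h1.2
    rw [S_pull, e] at this
    change j ≤ _ + ω (σ.g u)
    omega

/-! ### one step -/

lemma step_tile {v : Cell} (hv : v ∈ T ω k) {x y : Pt} (hx : x ∈ sq v) (hy : y ∈ sq v) :
    Reach {w | w ∈ T ω (k + 1) ∧ Below v w} (if S ω v + ω v = k then 2 else 1) x y := by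
  split_ifs with h
  · obtain ⟨c, hc, hxc⟩ := exists_desc_mem 1 hx
    obtain ⟨c', hc', hyc⟩ := exists_desc_mem 1 hy
    have al : ∀ u ∈ desc 1 v, u ∈ {w | w ∈ T ω (k + 1) ∧ Below v w} := fun u hu =>
      ⟨⟨by rw [S_child hu]; omega, by rw [S_child hu]; omega⟩, (mem_desc.1 hu).2⟩
    exact (Reach.one (al c hc) hxc (centre_mem hc)).trans
      (Reach.one (al c' hc') (centre_mem hc') hyc)
  · have h1 := hv.1
    have h2 := hv.2
    exact Reach.one ⟨⟨by omega, by omega⟩, Below.refl v⟩ hx hy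

lemma reach_of_steps {B : Set Cell} {p : ℕ → Pt} {c : ℕ → ℕ} {n : ℕ}
    (h : ∀ j < n, Reach B (c j) (p j) (p (j + 1))) :
    Reach B (∑ j ∈ Finset.range n, c j) (p 0) (p n) := by
  induction n with
  | zero => exact Reach.refl _ _
  | succ n ih =>
    rw [Finset.sum_range_succ]
    exact (ih fun j hj => h j (by omega)).trans (h n (by omega))

lemma Reach.double {R : Finset Cell} {n : ℕ} {x y : Pt} (h : Reach (TR ω k R) n x y) :
    Reach (TR ω (k + 1) R) (2 * n) x y := by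
  induction h with
  | refl n x => exact Reach.refl _ _
  | step _ hv hy hz ih =>
    have := (step_tile hv.1 hy hz).mono (B := TR ω (k + 1) R) fun w hw =>
      ⟨hw.1, by rw [hw.2.anc_eq (Nat.zero_le _)]; exact hv.2⟩
    refine (ih.trans this).mono_n ?_
    split_ifs <;> omega

/-! ### diameters -/

lemma root_mem_TQ_zero : root ∈ TQ ω 0 := mem_TQ.2 ⟨⟨by simp, by simp⟩, Below.refl _⟩

lemma reach_two_pow (k : ℕ) : ∀ x ∈ Q, ∀ y ∈ Q, Reach (TQ ω k) (2 ^ k) x y := by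
  intro x hx y hy
  induction k with
  | zero => exact Reach.one root_mem_TQ_zero hx hy
  | succ k ih => rw [pow_succ']; exact ih.double

lemma X_spec {x y : Pt} (hx : x ∈ Q) (hy : y ∈ Q) : Reach (TQ ω k) (X ω k) x y :=
  Nat.sInf_mem (s := {n | ∀ x ∈ Q, ∀ y ∈ Q, Reach (TQ ω k) n x y}) ⟨_, reach_two_pow k⟩ x hx y hy

lemma X_le {n : ℕ} (h : ∀ x ∈ Q, ∀ y ∈ Q, Reach (TQ ω k) n x y) : X ω k ≤ n := Nat.sInf_le h

lemma X_zero_le : X ω 0 ≤ 1 := X_le (reach_two_pow 0)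

lemma c00 : ((0, 0) : Pt) ∈ Q := by simp [mem_Q]
lemma c11 : ((1, 1) : Pt) ∈ Q := by simp [mem_Q]
lemma c10 : ((1, 0) : Pt) ∈ Q := by simp [mem_Q]

lemma one_le_X : 1 ≤ X ω k := by
  by_contra h
  have h0 : X ω k = 0 := by omega
  have := X_spec (ω := ω) (k := k) c00 c11
  rw [h0] at this
  simpa using this.eq_of_zero

lemma X_mono {k k' : ℕ} (h : k ≤ k') : X ω k ≤ X ω k' :=
  X_le fun _ hx _ hy => (X_spec hx hy).time h

lemma conn_TQ {I J : Set Pt} {x y : Pt} (hx : x ∈ Q) (hy : y ∈ Q) (hI : x ∈ I) (hJ : y ∈ J) :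
    Conn (TQ ω k) I J := ⟨_, x, hI, y, hJ, X_spec hx hy⟩

lemma d_spec {x y : Pt} (hx : x ∈ Q) (hy : y ∈ Q) : Reach (TQ ω k) (d ω k x y) x y := by
  obtain ⟨x', rfl, y', rfl, h⟩ := (conn_TQ (ω := ω) (k := k) (I := {x}) (J := {y}) hx hy rfl rfl).spec
  exact h

lemma d_le {x y : Pt} {n : ℕ} (h : Reach (TQ ω k) n x y) : d ω k x y ≤ n := dS_le rfl rfl h

lemma d_le_X {x y : Pt} (hx : x ∈ Q) (hy : y ∈ Q) : d ω k x y ≤ X ω k := d_le (X_spec hx hy)

lemma d_mono {k k' : ℕ} (h : k ≤ k') {x y : Pt} (hx : x ∈ Q) (hy : y ∈ Q) :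
    d ω k x y ≤ d ω k' x y := d_le ((d_spec hx hy).time h)

lemma d_triangle {x y z : Pt} (hx : x ∈ Q) (hy : y ∈ Q) (hz : z ∈ Q) :
    d ω k x z ≤ d ω k x y + d ω k y z := d_le ((d_spec hx hy).trans (d_spec hy hz))

lemma d_symm {x y : Pt} (hx : x ∈ Q) (hy : y ∈ Q) : d ω k x y = d ω k y x :=
  le_antisymm (d_le (d_spec hy hx).symm) (d_le (d_spec hx hy).symm)

lemma conn_Test : Conn (TQ ω k) L0 L1 := conn_TQ c00 c10 rfl rfl

lemma Test_le_X : Test ω k ≤ X ω k := dS_le (x := (0, 0)) (y := (1, 0)) rfl rfl (X_spec c00 c10)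

lemma Test_mono {k k' : ℕ} (h : k ≤ k') : Test ω k ≤ Test ω k' := by
  obtain ⟨x, hx, y, hy, hr⟩ := (conn_Test (ω := ω) (k := k')).spec
  exact dS_le hx hy (hr.time h)

lemma root_mem_col : root ∈ col := by decide

lemma TQ_sub_col : TQ ω k ⊆ TR ω k col := fun _ hv =>
  ⟨hv.1, by rw [Finset.mem_singleton.1 hv.2]; exact root_mem_col⟩

lemma conn_Z : Conn (TR ω k col) L0 L1 :=
  ⟨_, (0, 0), rfl, (1, 0), rfl, (X_spec c00 c10).mono TQ_sub_col⟩

lemma Z_mono {k k' : ℕ} (h : k ≤ k') : Z ω k ≤ Z ω k' := by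
  obtain ⟨x, hx, y, hy, hr⟩ := (conn_Z (ω := ω) (k := k')).spec
  exact dS_le hx hy (hr.time h)

lemma one_le_dS_L {A : Set Cell} (h : Conn A L0 L1) : 1 ≤ dS A L0 L1 := by
  by_contra h1
  have h0 : dS A L0 L1 = 0 := by omega
  obtain ⟨x, hx, y, hy, hr⟩ := h.spec
  rw [h0] at hr
  have := hr.eq_of_zero
  subst this
  have h1 : x.1 = 0 := hx
  have h2 : x.1 = 1 := hy
  linarith

lemma one_le_Z : 1 ≤ Z ω k := one_le_dS_L conn_Z
lemma one_le_Test : 1 ≤ Test ω k := one_le_dS_L conn_Test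

lemma Z_le_X : Z ω k ≤ X ω k :=
  dS_le (x := (0, 0)) (y := (1, 0)) rfl rfl ((X_spec c00 c10).mono TQ_sub_col)

lemma one_le_Xh (c : Cell) : 1 ≤ Xh ω k c := one_le_X

lemma Xh_le_one {c : Cell} (h : k ≤ S ω c) : Xh ω k c ≤ 1 := by
  unfold Xh
  rw [Nat.sub_eq_zero_of_le h]
  exact X_zero_le

lemma Sim.φ_mem_Q (σ : Sim) {x : Pt} (hx : x ∈ sq (σ.g root)) : σ.φ x ∈ Q :=
  (σ.mem_sq' _ _).2 hx

lemma Sim.ψ_mem (σ : Sim) {x : Pt} (hx : x ∈ Q) : σ.ψ x ∈ sq (σ.g root) :=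
  (σ.mem_sq _ _).2 hx

/-- chains inside a born cell -/
lemma Reach.up_below (σ : Sim) (hc : S ω (σ.g root) ≤ k) {n : ℕ} {x y : Pt}
    (h : Reach (TQ (pull σ ω) (k - S ω (σ.g root))) n x y) :
    Reach {w | w ∈ T ω k ∧ Below (σ.g root) w} n (σ.ψ x) (σ.ψ y) :=
  h.push σ fun v hv => by
    rw [mem_TQ] at hv
    have e : anc 0 v = root := (below_root_iff v).1 hv.2
    refine ⟨σ.g v, ⟨?_, (σ.below_iff _ _).2 hv.2⟩, Below.refl _⟩
    have h1 := hv.1.1
    have h2 := hv.1.2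
    have h3 := S_pull (ω := ω) σ v
    rw [e] at h3
    change _ ≤ _ + ω (σ.g v) at h2
    exact ⟨by omega, by omega⟩

lemma reach_Xh_below {c : Cell} (hc : S ω c ≤ k) {x y : Pt} (hx : x ∈ sq c) (hy : y ∈ sq c) :
    Reach {w | w ∈ T ω k ∧ Below c w} (Xh ω k c) x y := by
  have := Reach.up_below (ω := ω) (k := k) (emb c) (by simpa using hc)
    (X_spec ((emb c).φ_mem_Q (x := x) (by simpa using hx)) ((emb c).φ_mem_Q (x := y) (by simpa using hy)))
  simpa [(emb c).right_inv, Xh] using this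

lemma reach_Xh {R : Finset Cell} {c : Cell} (hR : anc 0 c ∈ R) {x y : Pt} (hx : x ∈ sq c)
    (hy : y ∈ sq c) : Reach (TR ω k R) (Xh ω k c) x y := by
  have := Reach.up (ω := ω) (k := k) (emb c) (R := {root}) (R' := R) (j := k - S ω c)
    (fun r hr => by rw [Finset.mem_singleton.1 hr, emb_root]; exact ⟨hR, by omega⟩)
    (X_spec ((emb c).φ_mem_Q (x := x) (by simpa using hx)) ((emb c).φ_mem_Q (x := y) (by simpa using hy)))
  simpa [(emb c).right_inv, Xh] using this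

lemma reach_Xh_Q {c : Cell} (hc : Below root c) {x y : Pt} (hx : x ∈ sq c)
    (hy : y ∈ sq c) : Reach (TQ ω k) (Xh ω k c) x y :=
  reach_Xh (by rw [(below_root_iff c).1 hc]; simp) hx hy

lemma X_pull_le (σ : Sim) (hr : σ.g root = root) : X (pull σ ω) k ≤ X ω k := by
  refine X_le fun x hx y hy => ?_
  have h := X_spec (ω := ω) (k := k) (x := σ.ψ x) (y := σ.ψ y) (by simpa [hr, Q] using σ.ψ_mem hx)
    (by simpa [hr, Q] using σ.ψ_mem hy)
  have := h.down (ω := ω) (k := k) σ (R := {root}) (j := k) (fun w hw => by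
    rw [mem_TQ] at hw
    exact ⟨hw.1, root, by simp, rfl, by rw [hr]; exact hw.2, by simp [hr]⟩)
  rwa [σ.left_inv, σ.left_inv] at this

lemma X_pull_ge (σ : Sim) (hr : σ.g root = root) : X ω k ≤ X (pull σ ω) k := by
  refine X_le fun x hx y hy => ?_
  have h := X_spec (ω := pull σ ω) (k := k) (σ.φ_mem_Q (x := x) (by rw [hr]; exact hx))
    (σ.φ_mem_Q (x := y) (by rw [hr]; exact hy))
  have := h.up (ω := ω) (k := k) σ (R' := {root}) (fun r hr' => by
    rw [Finset.mem_singleton.1 hr', hr]; exact ⟨by simp [root, anc], by omega⟩)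
  rwa [σ.right_inv, σ.right_inv] at this

lemma X_pull_eq (σ : Sim) (hr : σ.g root = root) : X (pull σ ω) k = X ω k :=
  le_antisymm (X_pull_le σ hr) (X_pull_ge σ hr)

lemma X_embo (c : Cell) (o : Bool) : X (pull (embo c o) ω) k = X (pull (emb c) ω) k := by
  rw [embo, pull_comp, X_pull_eq _ (ori_root o)]

lemma pull_emb_emb (c u : Cell) : pull (emb u) (pull (emb c) ω) = pull (emb ((emb c).g u)) ω := by
  funext v
  simp only [pull, emb]
  congr 1
  ext
  · simp only; ring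
  · simp only; ring
  · simp only; ring

@[simp] lemma pull_emb_root : pull (emb root) ω = ω := by
  funext v
  simp [pull, emb, root]

@[simp] lemma Xh_root : Xh ω k root = X ω k := by simp [Xh]

lemma Xh_pull {c u : Cell} (hu : Below root u) :
    Xh (pull (emb c) ω) (k - S ω c) u = Xh ω k ((emb c).g u) := by
  unfold Xh
  rw [pull_emb_emb, S_pull (emb c) u, (below_root_iff u).1 hu, emb_root, Nat.sub_sub]

lemma desc_eq_image (σ : Sim) (h : ℕ) (c : Cell) :
    desc h (σ.g c) = (desc h c).image σ.g := by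
  ext w
  rw [Finset.mem_image]
  constructor
  · intro hw
    obtain ⟨v, rfl, -⟩ := σ.exists_of_below (mem_desc.1 hw).2
    exact ⟨v, (σ.mem_desc h c v).1 hw, rfl⟩
  · rintro ⟨v, hv, rfl⟩
    exact (σ.mem_desc h c v).2 hv

lemma reach_sum_desc {R : Finset Cell} (h : ℕ) : ∀ {c : Cell}, anc 0 c ∈ R → ∀ {x y : Pt},
    x ∈ sq c → y ∈ sq c → Reach (TR ω k R) (∑ u ∈ desc h c, Xh ω k u) x y := by
  classical
  induction h with
  | zero =>
    intro c hR x y hx hy
    refine (reach_Xh hR hx hy).mono_n ?_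
    exact Finset.single_le_sum (f := Xh ω k) (fun _ _ => Nat.zero_le _)
      (mem_desc.2 ⟨rfl, Below.refl c⟩)
  | succ h ih =>
    intro c hR x y hx hy
    obtain ⟨c1, h1, hx1⟩ := exists_desc_mem 1 hx
    obtain ⟨c2, h2, hy2⟩ := exists_desc_mem 1 hy
    have sub : ∀ u ∈ desc 1 c, desc h u ⊆ desc (h + 1) c := fun u hu v hv => by
      rw [mem_desc] at hu hv ⊢
      exact ⟨by omega, hu.2.trans hv.2⟩
    have hR' : ∀ u ∈ desc 1 c, anc 0 u ∈ R := fun u hu => by
      rwa [(mem_desc.1 hu).2.anc_eq (Nat.zero_le _)]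
    by_cases e : c1 = c2
    · subst e
      exact (ih (hR' c1 h1) hx1 hy2).mono_n (Finset.sum_le_sum_of_subset (sub c1 h1))
    · refine ((ih (hR' c1 h1) hx1 (centre_mem h1)).trans
        (ih (hR' c2 h2) (centre_mem h2) hy2)).mono_n ?_
      rw [← Finset.sum_union]
      · exact Finset.sum_le_sum_of_subset (Finset.union_subset (sub c1 h1) (sub c2 h2))
      · rw [Finset.disjoint_left]
        intro v hv1 hv2
        exact e ((mem_desc.1 hv1).2.unique (mem_desc.1 hv2).2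
          (by rw [(mem_desc.1 h1).1, (mem_desc.1 h2).1]))

lemma X_le_sum_desc (h : ℕ) : X ω k ≤ ∑ u ∈ desc h root, Xh ω k u :=
  X_le fun _ hx _ hy => reach_sum_desc h (by simp [anc, root]) hx hy

lemma Xh_le_sum_desc (h : ℕ) (c : Cell) : Xh ω k c ≤ ∑ u ∈ desc h c, Xh ω k u := by
  classical
  have e := desc_eq_image (emb c) h root
  rw [emb_root] at e
  rw [e, Finset.sum_image fun x _ y _ hh => (emb c).inj hh]
  refine (X_le_sum_desc h).trans (le_of_eq ?_)
  exact Finset.sum_congr rfl fun u hu => Xh_pull (mem_desc.1 hu).2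

lemma Xh_le_Mx {m : ℕ} {c : Cell} (hc : c ∈ desc m root) : Xh ω k c ≤ Mx ω k m :=
  Finset.le_sup (f := Xh ω k) hc

lemma reach_near_one {m : ℕ} {x y : Pt} (hx : x ∈ Q) (hy : y ∈ Q) (h : 2 ^ m * dist x y ≤ 1) :
    Reach (TQ ω k) (2 * Mx ω k m) x y := by
  have hp := two_pow_pos' m
  have key : ∀ s t : ℝ, 0 ≤ s → s ≤ 1 → 0 ≤ t → t ≤ 1 → 2 ^ m * |s - t| ≤ 1 →
      ∃ a a' : ℤ, ∃ e : ℝ, (0 ≤ a ∧ a < 2 ^ m) ∧ (0 ≤ a' ∧ a' < 2 ^ m) ∧
        ((a : ℝ) ≤ 2 ^ m * s ∧ 2 ^ m * s ≤ a + 1) ∧ ((a' : ℝ) ≤ 2 ^ m * t ∧ 2 ^ m * t ≤ a' + 1) ∧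
        ((a : ℝ) ≤ 2 ^ m * e ∧ 2 ^ m * e ≤ a + 1) ∧ ((a' : ℝ) ≤ 2 ^ m * e ∧ 2 ^ m * e ≤ a' + 1) := by
    intro s t s0 s1 t0 t1 hst
    wlog hle : s ≤ t generalizing s t
    · obtain ⟨a, a', e, h1, h2, h3, h4, h5, h6⟩ := this t s t0 t1 s0 s1
        (by rwa [abs_sub_comm]) (le_of_not_ge hle)
      exact ⟨a', a, e, h2, h1, h4, h3, h6, h5⟩
    rw [abs_sub_comm, abs_of_nonneg (by linarith)] at hst
    obtain ⟨a, a1, a2, a3, a4⟩ := exists_int_near 0 (2 ^ m) Nat.one_le_two_pow (2 ^ m * s)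
      (by simp; positivity) (by push_cast; nlinarith)
    push_cast at a2
    by_cases ht : 2 ^ m * t ≤ a + 1
    · exact ⟨a, a, s, ⟨a1, by linarith⟩, ⟨a1, by linarith⟩, ⟨a3, a4⟩, ⟨by nlinarith, ht⟩,
        ⟨a3, a4⟩, ⟨a3, a4⟩⟩
    · push Not at ht
      have h1 : ((a + 1 : ℤ) : ℝ) < ((2 ^ m : ℤ) : ℝ) := by push_cast; nlinarith
      have h2 : a + 1 < 2 ^ m := by exact_mod_cast h1
      refine ⟨a, a + 1, (a + 1) / 2 ^ m, ⟨a1, by linarith⟩, ⟨by linarith, h2⟩, ⟨a3, a4⟩,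
        ⟨by push_cast; linarith, by push_cast; nlinarith⟩, ?_, ?_⟩ <;>
        rw [mul_div_cancel₀ _ hp.ne'] <;> push_cast <;> constructor <;> linarith
  rw [mem_Q] at hx hy
  rw [Prod.dist_eq, mul_max_of_nonneg _ _ hp.le, max_le_iff, Real.dist_eq, Real.dist_eq] at h
  obtain ⟨a, a', e, h1, h2, h3, h4, h5, h6⟩ := key _ _ hx.1 hx.2.1 hy.1 hy.2.1 h.1
  obtain ⟨b, b', f, g1, g2, g3, g4, g5, g6⟩ := key _ _ hx.2.2.1 hx.2.2.2 hy.2.2.1 hy.2.2.2 h.2
  have mem : ∀ a b : ℤ, (0 ≤ a ∧ a < 2 ^ m) → (0 ≤ b ∧ b < 2 ^ m) → (m, a, b) ∈ desc m root := by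
    intro a b ha hb
    rw [mem_desc, below_iff]
    simp [root, ha, hb]
  have m1 := mem a b h1 g1
  have m2 := mem a' b' h2 g2
  have r1 := reach_Xh_Q (ω := ω) (k := k) (mem_desc.1 m1).2 (x := x) (y := (e, f))
    ⟨h3.1, h3.2, g3.1, g3.2⟩ ⟨h5.1, h5.2, g5.1, g5.2⟩
  have r2 := reach_Xh_Q (ω := ω) (k := k) (mem_desc.1 m2).2 (x := (e, f)) (y := y)
    ⟨h6.1, h6.2, g6.1, g6.2⟩ ⟨h4.1, h4.2, g4.1, g4.2⟩
  refine (r1.trans r2).mono_n ?_
  have := Xh_le_Mx (ω := ω) (k := k) m1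
  have := Xh_le_Mx (ω := ω) (k := k) m2
  omega

lemma convex_Q : Convex ℝ Q := by
  have : Q = Icc (0 : ℝ) 1 ×ˢ Icc (0 : ℝ) 1 := by
    ext p; simp only [mem_Q, mem_prod, mem_Icc]; tauto
  rw [this]
  exact (convex_Icc _ _).prod (convex_Icc _ _)

lemma reach_near {m : ℕ} (s : ℕ) {x y : Pt} (hx : x ∈ Q) (hy : y ∈ Q)
    (h : 2 ^ m * dist x y ≤ s) : Reach (TQ ω k) (2 * s * Mx ω k m) x y := by
  rcases Nat.eq_zero_or_pos s with rfl | hs
  · have hp := two_pow_pos' m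
    have : dist x y = 0 := le_antisymm (by simp only [Nat.cast_zero] at h; nlinarith) dist_nonneg
    rw [dist_eq_zero.1 this]; exact Reach.refl _ _
  have hs' : (0 : ℝ) < s := by exact_mod_cast hs
  let p : ℕ → Pt := fun j => AffineMap.lineMap x y ((j : ℝ) / s)
  have hp : ∀ j ≤ s, p j ∈ Q := fun j hj =>
    convex_Q.lineMap_mem hx hy ⟨by positivity, by
      rw [div_le_one hs']; exact_mod_cast hj⟩
  have := reach_of_steps (B := TQ ω k) (p := p) (c := fun _ => 2 * Mx ω k m) (n := s)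
    fun j hj => reach_near_one (hp j hj.le) (hp (j + 1) hj) (by
      simp only [p, dist_lineMap_lineMap, Real.dist_eq]
      have : |(j : ℝ) / s - ((j + 1 : ℕ) : ℝ) / s| = 1 / s := by
        push_cast
        rw [← sub_div, abs_div, abs_of_pos hs']; simp
      rw [this, mul_left_comm, one_div, inv_mul_le_iff₀ hs', mul_one]
      exact h)
  simp only [p, Nat.cast_zero, zero_div, AffineMap.lineMap_apply_zero, div_self hs'.ne',
    AffineMap.lineMap_apply_one, Finset.sum_const, Finset.card_range, smul_eq_mul] at this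
  exact this.mono_n (by ring_nf; exact le_rfl)

/-! ### elementary functions of the tree -/

lemma elem_Srel_min (i : ℕ) (c : Cell) (K : ℕ) : Elem (fun ω => min (Srel ω i c) K) := by
  classical
  refine ⟨(Finset.Ico i c.1).image (fun m => anc m c), K, fun ω ω' h => ?_⟩
  have h' : ∀ m ∈ Finset.Ico i c.1, min (ω (anc m c)) K = min (ω' (anc m c)) K := fun m hm =>
    h _ (Finset.mem_image_of_mem _ hm)
  simp only [Srel]
  generalize Finset.Ico i c.1 = s at h'
  induction s using Finset.induction_on with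
  | empty => simp
  | insert m s hm ih =>
    rw [Finset.sum_insert hm, Finset.sum_insert hm]
    have := ih fun l hl => h' l (by simp [hl])
    have := h' m (by simp)
    omega

lemma elem_S_min (c : Cell) (K : ℕ) : Elem (fun ω => min (S ω c) K) := by
  simpa only [S_eq_Srel] using elem_Srel_min 0 c K

lemma elem_age (c : Cell) (k : ℕ) : Elem (fun ω => k - S ω c) := by
  have := (elem_S_min c k).map (fun t => k - t)
  convert this using 2
  omega

lemma elem_S_le (c : Cell) (K : ℕ) : Elem (fun ω => S ω c ≤ K) := by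
  have := (elem_S_min c (K + 1)).map (fun t => t ≤ K)
  convert this using 2
  omega

lemma elem_Srel_le (i : ℕ) (c : Cell) (K : ℕ) : Elem (fun ω => Srel ω i c ≤ K) := by
  have := (elem_Srel_min i c (K + 1)).map (fun t => t ≤ K)
  convert this using 2
  omega

lemma elem_alive (v : Cell) (k : ℕ) : Elem (fun ω => v ∈ T ω k) := by
  have := (elem_S_min v (k + 1)).map₂ (Elem.coord v (k + 1)) (fun s t => s ≤ k ∧ k ≤ s + t)
  convert this using 2
  simp only [T, mem_ofPred_eq]; omega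

/-- cells of depth at most `k` under the roots `R` -/
def cells (k : ℕ) (R : Finset Cell) : Finset Cell :=
  (Finset.range (k + 1)).biUnion fun m => R.biUnion fun r => desc m r

lemma mem_cells_of_TR {R : Finset Cell} {v : Cell} (hv : v ∈ TR ω k R) : v ∈ cells k R := by
  have := fst_le_S (ω := ω) v
  have h1 := hv.1.1
  simp only [cells, Finset.mem_biUnion, Finset.mem_range]
  exact ⟨v.1, by omega, _, hv.2, mem_desc.2 ⟨by simp, below_anc (Nat.zero_le _)⟩⟩

lemma elem_TR (k : ℕ) (R : Finset Cell) : Elem (fun ω => TR ω k R) := by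
  refine Elem.of_finset (cells k R) (fun v _ => elem_alive v k) fun ω ω' h => ?_
  ext v
  constructor
  · intro hv; exact ⟨(h v (mem_cells_of_TR hv)) ▸ hv.1, hv.2⟩
  · intro hv; exact ⟨(h v (mem_cells_of_TR hv)).symm ▸ hv.1, hv.2⟩

lemma elem_TQ (k : ℕ) : Elem (fun ω => TQ ω k) := elem_TR k _

lemma elem_X (k : ℕ) : Elem (fun ω => X ω k) :=
  (elem_TQ k).map fun A => sInf {n | ∀ x ∈ Q, ∀ y ∈ Q, Reach A n x y}

lemma elem_d (k : ℕ) (x y : Pt) : Elem (fun ω => d ω k x y) :=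
  (elem_TQ k).map fun A => dS A {x} {y}

lemma elem_dc (k : ℕ) : Elem (fun ω => dc ω k) := elem_d k _ _

lemma elem_Z (k : ℕ) : Elem (fun ω => Z ω k) := (elem_TR k col).map fun A => dS A L0 L1

lemma elem_Test (k : ℕ) : Elem (fun ω => Test ω k) := (elem_TQ k).map fun A => dS A L0 L1

/-- a functional of the array seen from `σ` at the age of the cell `c` -/
lemma Elem.aged {β : Type*} {F : ℕ → Om → β} (hF : ∀ j, Elem (F j)) (σ : Sim) (c : Cell)
    (k : ℕ) : Elem (fun ω => F (k - S ω c) (MP_8c7dae_pr.pull σ ω)) :=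
  (elem_age c k).dep (F := fun j ω => F j (MP_8c7dae_pr.pull σ ω)) fun j => (hF j).pull σ

lemma elem_Xh (k : ℕ) (c : Cell) : Elem (fun ω => Xh ω k c) :=
  Elem.aged (F := fun j ω => X ω j) elem_X (emb c) c k

lemma elem_Mx (k m : ℕ) : Elem (fun ω => Mx ω k m) :=
  Elem.sup _ fun c _ => elem_Xh k c

lemma measurable_Srel (i : ℕ) (c : Cell) : Measurable (fun ω : Om => Srel ω i c) := by
  unfold Srel; fun_prop

lemma measurable_S (c : Cell) : Measurable (fun ω : Om => S ω c) := by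
  unfold S; fun_prop

/-! ### dependence -/

lemma dep_Srel (i : ℕ) (c : Cell) :
    DependsOn (fun ω => Srel ω i c) {v | Below v c ∧ i ≤ v.1 ∧ v.1 < c.1} := by
  intro ω ω' h
  refine Finset.sum_congr rfl fun m hm => ?_
  rw [Finset.mem_Ico] at hm
  rw [h _ ⟨below_anc hm.2.le, hm.1, hm.2⟩]

lemma dep_S (c : Cell) : DependsOn (fun ω => S ω c) {v | Below v c ∧ v.1 < c.1} := by
  simp only [S_eq_Srel]
  exact (dep_Srel 0 c).mono fun v hv => ⟨hv.1, hv.2.2⟩

lemma dep_S_deep {c : Cell} {D : ℕ} (h : c.1 ≤ D) : DependsOn (fun ω => S ω c) (Deep D)ᶜ :=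
  (dep_S c).mono fun v hv => by
    have := hv.2
    simp only [Deep, mem_compl_iff, mem_ofPred_eq]; omega

lemma dep_TR (k : ℕ) (R : Finset Cell) : DependsOn (fun ω => TR ω k R) {v | anc 0 v ∈ R} := by
  intro ω ω' h
  have key : ∀ v, anc 0 v ∈ R → (v ∈ T ω k ↔ v ∈ T ω' k) := fun v hv => by
    have e : S ω v = S ω' v := dep_S v fun u hu => h u (by
      show anc 0 u ∈ R
      rwa [← hu.1.anc_eq (Nat.zero_le _)])
    simp only [T, mem_ofPred_eq, e, h v hv]
  ext v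
  exact ⟨fun hv => ⟨(key v hv.2).1 hv.1, hv.2⟩, fun hv => ⟨(key v hv.2).2 hv.1, hv.2⟩⟩

lemma dep_TQ (k : ℕ) : DependsOn (fun ω => TQ ω k) (Sub1 root) :=
  (dep_TR k _).mono fun v hv => (below_root_iff v).2 (Finset.mem_singleton.1 hv)

lemma _root_.DependsOn.qmap {β γ : Type*} {f : Om → β} {s : Set Cell} (h : DependsOn f s)
    (g : β → γ) : DependsOn (fun ω => g (f ω)) s := fun _ _ hh => by simp only [h hh]

lemma _root_.DependsOn.qmap₂ {β γ δ : Type*} {f : Om → β} {g : Om → γ} {s : Set Cell}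
    (hf : DependsOn f s) (hg : DependsOn g s) (F : β → γ → δ) :
    DependsOn (fun ω => F (f ω) (g ω)) s := fun _ _ hh => by simp only [hf hh, hg hh]

lemma dep_X (k : ℕ) : DependsOn (fun ω => X ω k) (Sub1 root) :=
  (dep_TQ k).qmap fun A => sInf {n | ∀ x ∈ Q, ∀ y ∈ Q, Reach A n x y}

lemma dep_Test (k : ℕ) : DependsOn (fun ω => Test ω k) (Sub1 root) :=
  (dep_TQ k).qmap fun A => dS A L0 L1

lemma dep_pull {β : Type*} {f : Om → β} {s t : Set Cell} (h : DependsOn f s) (σ : Sim)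
    (hst : ∀ v ∈ s, σ.g v ∈ t) : DependsOn (fun ω => f (pull σ ω)) t :=
  fun _ _ hh => h fun v hv => hh _ (hst v hv)

lemma dep_pull_sub1 {β : Type*} {f : Om → β} (h : DependsOn f (Sub1 root)) (σ : Sim) :
    DependsOn (fun ω => f (pull σ ω)) (Sub1 (σ.g root)) :=
  dep_pull h σ fun _ hv => (σ.below_iff _ _).2 hv

lemma dep_pull_deep {β : Type*} (f : Om → β) (σ : Sim) {D : ℕ} (hD : D ≤ σ.s) :
    DependsOn (fun ω => f (pull σ ω)) (Deep D) :=
  dep_pull (dependsOn_univ f) σ fun v _ => by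
    simp only [Deep, mem_ofPred_eq, σ.fst]; omega

lemma dep_coord (v : Cell) : DependsOn (fun ω : Om => ω v) {v} := fun _ _ h => h v rfl

variable {N : ℕ}

/-- conditional expectation of an aged functional -/
lemma Res_aged {F : ℕ → Om → ℝ} (hF : ∀ j, Nice (F j)) (σ : Sim) {s : Set Cell}
    (hd : ∀ j, DependsOn (fun ω => F j (pull σ ω)) s) {φ : Om → ℕ} (hφ : DependsOn φ sᶜ)
    (ω : Om) : Res N s (fun ω => F (φ ω) (pull σ ω)) ω = E N (F (φ ω)) := by
  rw [Res_freeze (F := fun j ω => F j (pull σ ω)) hφ hd, E_pull (hF _)]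

/-! ### tails of birth times -/

lemma Eν_exp_le (hN : 2 ≤ N) {x : ℝ} (hx : 0 ≤ x) :
    Eν N (fun t => Real.exp (-(x * q N) * (t + 1 : ℕ))) ≤ 1 / (1 + x) := by
  have hq := q_pos hN
  have hb : Bd (fun t : ℕ => Real.exp (-(x * q N) * (t + 1 : ℕ))) := ⟨1, fun t => by
    rw [abs_of_pos (Real.exp_pos _), Real.exp_le_one_iff]
    have : (0 : ℝ) ≤ (t + 1 : ℕ) := by positivity
    have : 0 ≤ x * q N := by positivity
    nlinarith⟩
  have h := Eν_succ hN hb
  have e : (fun t : ℕ => Real.exp (-(x * q N) * (t + 1 + 1 : ℕ))) =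
      fun t : ℕ => Real.exp (-(x * q N)) * Real.exp (-(x * q N) * (t + 1 : ℕ)) := by
    funext t; rw [← Real.exp_add]; congr 1; push_cast; ring
  rw [e] at h
  unfold Eν at h ⊢
  rw [integral_const_mul] at h
  set y := ∫ t, Real.exp (-(x * q N) * ((t + 1 : ℕ) : ℝ)) ∂ν N
  have y0 : 0 ≤ y := integral_nonneg fun _ => (Real.exp_pos _).le
  simp only [zero_add, Nat.cast_one, mul_one] at h
  have h1 : Real.exp (x * q N) * Real.exp (-(x * q N)) = 1 := by rw [← Real.exp_add]; simp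
  have h2 := Real.add_one_le_exp (x * q N)
  have h3 : Real.exp (x * q N) * y = q N + (1 - q N) * y := by
    linear_combination (q N + (1 - q N) * y) * h1 + Real.exp (x * q N) * h
  rw [le_div_iff₀ (by linarith)]
  have : q N * (y * (1 + x)) ≤ q N * 1 := by nlinarith
  exact le_of_mul_le_mul_left this hq

lemma nice_exp_Srel {x : ℝ} (hx : 0 ≤ x) (i : ℕ) (v : Cell) :
    Nice (fun ω => Real.exp (-x * (Srel ω i v : ℝ))) :=
  Nice.of_nat (measurable_Srel i v) (g := fun t => Real.exp (-x * (t : ℝ))) (C := 1) fun t => by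
    rw [abs_of_pos (Real.exp_pos _), Real.exp_le_one_iff]
    have : (0 : ℝ) ≤ t := by positivity
    nlinarith

lemma nice_exp_S {x : ℝ} (hx : 0 ≤ x) (v : Cell) :
    Nice (fun ω => Real.exp (-x * (S ω v : ℝ))) := by
  simpa only [S_eq_Srel] using nice_exp_Srel hx 0 v

lemma E_exp_Srel (hN : 2 ≤ N) {x : ℝ} (hx : 0 ≤ x) (i : ℕ) (v : Cell) :
    E N (fun ω => Real.exp (-(x * q N) * (Srel ω i v : ℝ))) ≤ (1 / (1 + x)) ^ (v.1 - i) := by
  have hq := q_pos hN
  have e : (fun ω : Om => Real.exp (-(x * q N) * (Srel ω i v : ℝ))) = fun ω =>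
      ∏ m ∈ Finset.Ico i v.1, Real.exp (-(x * q N) * (ω (anc m v) + 1 : ℕ)) := by
    funext ω
    rw [← Real.exp_sum, ← Finset.mul_sum, Srel, Nat.cast_sum]
  rw [e, E_prod_indep (s := fun m => {anc m v})
    (f := fun m ω => Real.exp (-(x * q N) * (ω (anc m v) + 1 : ℕ)))]
  · rw [← Nat.card_Ico, ← Finset.prod_const]
    refine Finset.prod_le_prod (fun _ _ => E_nonneg fun _ => (Real.exp_pos _).le) fun m _ => ?_
    rw [E_coord (φ := fun t => Real.exp (-(x * q N) * (t + 1 : ℕ)))]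
    exact Eν_exp_le hN hx
  · intro m _
    refine Nice.of_nat (f := fun ω => ω (anc m v)) (by fun_prop)
      (g := fun t => Real.exp (-(x * q N) * (t + 1 : ℕ))) (C := 1) fun t => ?_
    rw [abs_of_pos (Real.exp_pos _), Real.exp_le_one_iff]
    have : (0 : ℝ) ≤ (t + 1 : ℕ) := by positivity
    have : 0 ≤ x * q N := by positivity
    nlinarith
  · intro m _
    exact (dep_coord _).qmap fun t => Real.exp (-(x * q N) * (t + 1 : ℕ))
  · intro m _ l _ hml
    rw [Set.disjoint_singleton]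
    exact fun h => hml (congrArg Prod.fst h)

lemma E_exp_S (hN : 2 ≤ N) {x : ℝ} (hx : 0 ≤ x) (v : Cell) :
    E N (fun ω => Real.exp (-(x * q N) * (S ω v : ℝ))) ≤ (1 / (1 + x)) ^ v.1 := by
  simpa only [S_eq_Srel, Nat.sub_zero] using E_exp_Srel hN hx 0 v

lemma Pr_S_le (hN : 2 ≤ N) {x : ℝ} (hx : 0 ≤ x) (v : Cell) (j : ℕ) :
    Pr N (fun ω => S ω v ≤ j) ≤ Real.exp (x * q N * j) * (1 / (1 + x)) ^ v.1 := by
  have hq := q_pos hN
  have h := Pr_le_E_div (N := N) (elem_S_le v j) (nice_exp_S (x := x * q N) (by positivity) v)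
    (Real.exp_pos (-(x * q N) * j)) (fun _ => (Real.exp_pos _).le) fun ω hω => by
      rw [Real.exp_le_exp]
      have : (S ω v : ℝ) ≤ j := by exact_mod_cast hω
      have : 0 ≤ x * q N := by positivity
      nlinarith
  refine h.trans ?_
  rw [div_eq_mul_inv, ← Real.exp_neg, mul_comm]
  exact mul_le_mul (le_of_eq (by congr 1; ring)) (E_exp_S hN hx v)
    (E_nonneg fun _ => (Real.exp_pos _).le) (Real.exp_pos _).le

lemma one_sub_q_pow_le (hN : 2 ≤ N) (w : ℕ) : (1 - q N) ^ (w * N) ≤ Real.exp (-w) := by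
  have h1 : 1 - q N ≤ Real.exp (-q N) := by have := Real.add_one_le_exp (-q N); linarith
  refine (pow_le_pow_left₀ (by linarith [q_le hN]) h1 _).trans (le_of_eq ?_)
  rw [← Real.exp_nat_mul]
  congr 1
  push_cast
  linear_combination (-(w : ℝ)) * q_mul hN

lemma one_sub_q_pow_ge (hN : 2 ≤ N) (w : ℕ) : (1 / 4 : ℝ) ^ w ≤ (1 - q N) ^ (w * N) := by
  rw [mul_comm, pow_mul]
  refine pow_le_pow_left₀ (by norm_num) ?_ _
  have hq := q_pos hN
  have hq2 := q_le hN
  have h1 : Real.exp (-(2 * Real.log 2) * q N) ≤ 1 - q N := by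
    have hc := convexOn_exp.2 (mem_univ (0 : ℝ)) (mem_univ (-Real.log 2))
      (show 0 ≤ 1 - 2 * q N by linarith) (show 0 ≤ 2 * q N by linarith) (by ring)
    simp only [smul_eq_mul, mul_zero, zero_add, Real.exp_zero, mul_one, Real.exp_neg,
      Real.exp_log (show (0 : ℝ) < 2 by norm_num)] at hc
    calc Real.exp (-(2 * Real.log 2) * q N) = Real.exp (2 * q N * -Real.log 2) := by ring_nf
      _ ≤ _ := hc
      _ = 1 - q N := by ring
  refine le_trans (le_of_eq ?_) (pow_le_pow_left₀ (Real.exp_pos _).le h1 N)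
  rw [← Real.exp_nat_mul, show (N : ℝ) * (-(2 * Real.log 2) * q N) = -(2 * Real.log 2) by
    linear_combination (-(2 * Real.log 2)) * q_mul hN, Real.exp_neg,
    show 2 * Real.log 2 = Real.log 4 by
      rw [show (4 : ℝ) = 2 ^ 2 by norm_num, Real.log_pow]; norm_num,
    Real.exp_log (by norm_num)]
  norm_num

lemma Pr_Srel_gt (hN : 2 ≤ N) (i : ℕ) (v : Cell) (w : ℕ) :
    Pr N (fun ω => ¬ Srel ω i v ≤ (v.1 - i) * w * N) ≤ (v.1 - i : ℕ) * Real.exp (-w) := by
  have := Pr_le_card (N := N) (Finset.Ico i v.1) (elem_Srel_le i v ((v.1 - i) * w * N)).not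
    (B := fun m ω => w * N ≤ ω (anc m v)) (fun m _ => Elem.coord_ge _ _) (fun ω hω => by
      by_contra hc
      push Not at hc
      refine hω ?_
      have := Finset.sum_le_card_nsmul (Finset.Ico i v.1) (fun m => ω (anc m v) + 1) (w * N)
        (fun m hm => hc m hm)
      simpa [Srel, mul_assoc] using this)
    (ε := Real.exp (-w)) fun m _ => by rw [Pr_coord_ge hN]; exact one_sub_q_pow_le hN w
  simpa using this

/-- completeness: all descendants at relative depth `h` are born within `w N` steps -/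
lemma exists_comp (h : ℕ) {ε : ℝ} (hε : 0 < ε) : ∃ w : ℕ, ∀ N, 2 ≤ N → ∀ c : Cell,
    Pr N (fun ω => ¬ ∀ u ∈ desc h c, Srel ω c.1 u ≤ w * N) ≤ ε := by
  obtain ⟨w, hw⟩ : ∃ w : ℕ, (4 : ℝ) ^ h * (h * Real.exp (-w)) ≤ ε := by
    obtain ⟨w, hw⟩ := exists_nat_ge (4 ^ h * h / ε)
    refine ⟨w, ?_⟩
    have h1 := Real.add_one_le_exp (w : ℝ)
    rw [div_le_iff₀ hε] at hw
    rw [Real.exp_neg, ← mul_assoc, ← div_eq_mul_inv, div_le_iff₀ (Real.exp_pos _)]
    nlinarith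
  refine ⟨h * w, fun N hN c => ?_⟩
  refine (Pr_le_card (desc h c) (Elem.all _ fun u _ => elem_Srel_le _ _ _).not
    (B := fun u ω => ¬ Srel ω c.1 u ≤ h * w * N) (fun u _ => (elem_Srel_le _ _ _).not)
    (fun ω hω => by push Not at hω ⊢; exact hω) (ε := h * Real.exp (-w)) fun u hu => ?_).trans ?_
  · have := Pr_Srel_gt hN c.1 u w
    rwa [(mem_desc.1 hu).1, Nat.add_sub_cancel_left] at this
  · refine le_trans (mul_le_mul_of_nonneg_right ?_ (by positivity)) hw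
    exact_mod_cast card_desc h c

end Pool.Agent.P.MP_8c7dae_pr
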