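import Pool.Agent.P.MP_8c7dae_pr.Step

open MeasureTheory Set

namespace Pool.Agent.P.MP_8c7dae_pr

variable {N : ℕ}

def Sub0 (c : Cell) : Set Cell := {v | Below c v ∧ v ≠ c}

lemma Bd.sub {φ ψ : ℕ → ℝ} (h1 : Bd φ) (h2 : Bd ψ) : Bd (fun t => φ t - ψ t) := by
  obtain ⟨C, hC⟩ := h1
  obtain ⟨D, hD⟩ := h2
  exact ⟨C + D, fun t => (abs_sub _ _).trans (add_le_add (hC t) (hD t))⟩

lemma Bd.mul {φ ψ : ℕ → ℝ} (h1 : Bd φ) (h2 : Bd ψ) : Bd (fun t => φ t * ψ t) := by
  obtain ⟨C, hC⟩ := h1
  obtain ⟨D, hD⟩ := h2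
  refine ⟨C * D, fun t => ?_⟩
  rw [abs_mul]
  exact mul_le_mul (hC t) (hD t) (abs_nonneg _) ((abs_nonneg _).trans (hC t))

lemma Bd.const (c : ℝ) : Bd (fun _ => c) := ⟨|c|, fun _ => le_rfl⟩

lemma Bd.sq {φ : ℕ → ℝ} (h : Bd φ) : Bd (fun t => φ t ^ 2) := by
  simpa [pow_two] using h.mul h

lemma bd_min (A : ℕ) : Bd (fun t => ((min t A : ℕ) : ℝ)) :=
  ⟨A, fun t => by rw [Nat.abs_cast]; exact_mod_cast min_le_right _ _⟩

lemma Eν_sub {φ ψ : ℕ → ℝ} (h1 : Bd φ) (h2 : Bd ψ) :
    Eν N (fun t => φ t - ψ t) = Eν N φ - Eν N ψ := integral_sub (h1.int N) (h2.int N)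

lemma Eν_add {φ ψ : ℕ → ℝ} (h1 : Bd φ) (h2 : Bd ψ) :
    Eν N (fun t => φ t + ψ t) = Eν N φ + Eν N ψ := integral_add (h1.int N) (h2.int N)

lemma Eν_cmul (c : ℝ) (φ : ℕ → ℝ) : Eν N (fun t => c * φ t) = c * Eν N φ :=
  integral_const_mul _ _

lemma Eν_var {φ : ℕ → ℝ} (h : Bd φ) (m : ℝ) :
    Eν N (fun t => (φ t - m) ^ 2) = Eν N (fun t => φ t ^ 2) - 2 * m * Eν N φ + m ^ 2 := by
  have e : (fun t => (φ t - m) ^ 2) = fun t => (φ t ^ 2 - (2 * m) * φ t) + m ^ 2 := by
    funext t; ring
  rw [e, Eν_add (h.sq.sub ((Bd.const _).mul h)) (Bd.const _), Eν_sub h.sq ((Bd.const _).mul h),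
    Eν_cmul, Eν_const]

lemma Eν_sq_le {φ : ℕ → ℝ} (h : Bd φ) : (Eν N φ) ^ 2 ≤ Eν N (fun t => φ t ^ 2) := by
  have h0 : 0 ≤ Eν N (fun t => (φ t - Eν N φ) ^ 2) := integral_nonneg fun _ => sq_nonneg _
  rw [Eν_var h] at h0
  nlinarith

lemma var_one (hN : 2 ≤ N) (A : ℕ) : ∀ {φ ψ : ℕ → ℝ}, Bd φ → Bd ψ → (∀ t, A ≤ t → φ t = φ A) →
    (∀ r < A, |Eν N (fun t => φ (t + r) - φ (t + (r + 1)))| ≤ q N * Eν N (fun t => ψ (t + (r + 1)))) →
    Eν N (fun t => (φ t - Eν N φ) ^ 2) ≤ q N * Eν N (fun t => ((min t A : ℕ) : ℝ) * ψ t ^ 2) := by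
  have hq := q_pos hN
  have hq2 := q_le hN
  induction A with
  | zero =>
    intro φ ψ _ _ h0 _
    have : φ = fun _ => φ 0 := funext fun t => h0 t (Nat.zero_le _)
    rw [this]; simp
  | succ A ih =>
    intro φ ψ h1 h2 h0 h
    have b1 := h1.shift (· + 1)
    have b2 := h2.shift (· + 1)
    have ih' := ih b1 b2 (fun t ht => by rw [h0 (t + 1) (by omega)]) (fun r hr => by
      simpa only [add_assoc] using h (r + 1) (by omega))
    have s0 := h 0 (by omega)
    simp only [add_zero, zero_add] at s0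
    rw [Eν_sub h1 b1] at s0
    have s1 := Eν_succ hN h1
    have s2 := Eν_succ hN h1.sq
    have s3 := Eν_succ hN ((bd_min (A + 1)).mul h2.sq)
    have e3 : (fun t => ((min (t + 1) (A + 1) : ℕ) : ℝ) * ψ (t + 1) ^ 2) =
        fun t => ((min t A : ℕ) : ℝ) * ψ (t + 1) ^ 2 + ψ (t + 1) ^ 2 := by
      funext t
      rw [show min (t + 1) (A + 1) = min t A + 1 by omega]; push_cast; ring
    rw [e3, Eν_add ((bd_min A).mul b2.sq) b2.sq] at s3
    have s4 := Eν_sq_le (N := N) b2
    rw [Eν_var h1, s3, s2]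
    rw [Eν_var b1] at ih'
    simp only [Nat.zero_min, Nat.cast_zero, zero_mul, mul_zero, zero_add]
    set m1 := Eν N fun t => φ (t + 1)
    set m := Eν N φ
    set y := Eν N fun t => ψ (t + 1)
    set y2 := Eν N fun t => ψ (t + 1) ^ 2
    set z := Eν N fun t => ((min t A : ℕ) : ℝ) * ψ (t + 1) ^ 2
    set u := Eν N fun t => φ (t + 1) ^ 2
    have e : m - m1 = q N * (φ 0 - m1) := by rw [s1]; ring
    rw [e, abs_mul, abs_of_pos hq] at s0
    have s5 : |φ 0 - m1| ≤ y := le_of_mul_le_mul_left s0 hq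
    have s6 : (φ 0 - m1) ^ 2 ≤ y2 := by
      have := sq_le_sq' (by linarith [abs_le.1 s5]) (abs_le.1 s5).2
      linarith
    have s7 : q N * φ 0 ^ 2 + (1 - q N) * u - 2 * m * m + m ^ 2 =
        (1 - q N) * (u - 2 * m1 * m1 + m1 ^ 2) + q N * (1 - q N) * (φ 0 - m1) ^ 2 := by
      rw [s1]; ring
    rw [s7]
    have h1q : 0 ≤ 1 - q N := by linarith
    have t1 := mul_le_mul_of_nonneg_left ih' h1q
    have t2 := mul_le_mul_of_nonneg_left s6 (mul_nonneg hq.le h1q)
    nlinarith

lemma E_sq_sub_Res {f : Om → ℝ} (hf : Nice f) {s t : Set Cell} (hst : s ⊆ t) :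
    E N (fun ω => (f ω - Res N t f ω) ^ 2) = E N (fun ω => (f ω - Res N s f ω) ^ 2) +
      E N (fun ω => (Res N s f ω - Res N t f ω) ^ 2) := by
  have n1 := hf.res N s
  have n2 := hf.res N t
  have hd : DependsOn (fun ω => Res N s f ω - Res N t f ω) sᶜ :=
    (Res_dep f s).qmap₂ ((Res_dep f t).mono (compl_subset_compl.2 hst)) (· - ·)
  have h0 : E N (fun ω => (Res N s f ω - Res N t f ω) * (f ω - Res N s f ω)) = 0 := by
    rw [E_mul_Res (n1.sub n2) (hf.sub n1) hd]
    have z : ∀ ω, Res N s (fun ω => f ω - Res N s f ω) ω = 0 := fun ω => by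
      rw [Res_sub hf n1, Res_of_compl (G := Res N s f) (Res_dep f s), sub_self]
    simp only [z, mul_zero, E_const]
  rw [← E_add ((hf.sub n1).pow 2) ((n1.sub n2).pow 2), ← add_zero (E N fun ω => _ + _),
    ← mul_zero 2, ← h0, ← E_cmul, ← E_add (((hf.sub n1).pow 2).add ((n1.sub n2).pow 2))
      (((n1.sub n2).mul (hf.sub n1)).cmul 2)]
  exact E_congr fun ω => by ring

lemma var_decomp {f : Om → ℝ} (hf : Nice f) {F : Finset Cell} (hd : DependsOn f F)
    (U : Finset Cell) : (∀ v ∈ U, ∀ w ∈ F, Below v w → w ∈ U) →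
    E N (fun ω => (f ω - Res N U f ω) ^ 2) ≤
      ∑ v ∈ U, E N (fun ω => (Res N (Sub0 v) f ω - Res N (Sub1 v) f ω) ^ 2) := by
  classical
  induction U using Finset.induction_on_min_value (fun v : Cell => v.1) with
  | empty =>
    intro _
    have : ∀ ω, Res N ((∅ : Finset Cell) : Set Cell) f ω = f ω := fun ω =>
      Res_of_compl (by simpa using dependsOn_univ f) ω
    simp only [this]
    simp
  | insert v U hv hmin ih =>
    intro hU
    have hU' : ∀ u ∈ U, ∀ w ∈ F, Below u w → w ∈ U := fun u hu w hw hb => by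
      rcases Finset.mem_insert.1 (hU u (by simp [hu]) w hw hb) with rfl | h
      · exact absurd (hb.eq_of_fst (hmin u hu) ▸ hu) hv
      · exact h
    rw [Finset.sum_insert hv, E_sq_sub_Res hf (s := U) (by simp), add_comm]
    refine add_le_add ?_ (ih hU')
    have n0 := hf.res N (Sub0 v)
    have n1 := hf.res N (Sub1 v)
    have e : ∀ ω, Res N U f ω - Res N ((insert v U : Finset Cell) : Set Cell) f ω =
        Res N U (fun ω => Res N (Sub0 v) f ω - Res N (Sub1 v) f ω) ω := fun ω => by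
      rw [Res_sub n0 n1, Res_Res hf, Res_Res hf]
      congr 1
      · refine Res_congr_set hd (fun w hw => ?_) ω
        refine ⟨Or.inl, fun h => h.elim id fun h => ?_⟩
        rcases Finset.mem_insert.1 (hU v (by simp) w hw h.1) with e | h'
        · exact absurd e h.2
        · exact h'
      · refine Res_congr_set hd (fun w hw => ?_) ω
        simp only [Finset.coe_insert, mem_insert_iff, Finset.mem_coe, mem_union]
        constructor
        · rintro (rfl | h)
          · exact Or.inr (Below.refl _)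
          · exact Or.inl h
        · rintro (h | h)
          · exact Or.inr h
          · simpa using hU v (by simp) w hw h
    simp only [e]
    rw [← E_Res ((n0.sub n1).pow 2) U]
    exact E_mono (((n0.sub n1).res N _).pow 2) (((n0.sub n1).pow 2).res N _)
      fun ω => Res_sq_le (n0.sub n1) _ ω

lemma dep_TR_cells (k : ℕ) (R : Finset Cell) : DependsOn (fun ω => TR ω k R) (cells k R) := by
  have key : ∀ ω ω' : Om, (∀ v ∈ (cells k R : Set Cell), ω v = ω' v) → TR ω k R ⊆ TR ω' k R := by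
    intro ω ω' h v hv
    have hc := mem_cells_of_TR hv
    have e : S ω v = S ω' v := dep_S v fun u hu => h u (by
      have h1 := fst_le_S (ω := ω) v
      have h2 := hv.1.1
      have h3 := hu.2
      simp only [cells, Finset.coe_biUnion, Finset.mem_coe, Finset.mem_range, mem_iUnion]
      exact ⟨u.1, by omega, anc 0 v, hv.2, mem_desc.2 ⟨by simp,
        by rw [hu.1.anc_eq (Nat.zero_le _)]; exact below_anc (Nat.zero_le _)⟩⟩)
    refine ⟨?_, hv.2⟩
    have := hv.1
    simp only [T, mem_ofPred_eq] at this ⊢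
    rwa [← e, ← h v hc]
  exact fun ω ω' h => Subset.antisymm (key ω ω' h) (key ω' ω fun v hv => (h v hv).symm)

lemma S_le_of_le {ω ω' : Om} (h : ∀ v, ω' v ≤ ω v) (v : Cell) : S ω' v ≤ S ω v :=
  Finset.sum_le_sum fun _ _ => Nat.add_le_add_right (h _) 1

lemma dS_anti {ω ω' : Om} (h : ∀ v, ω' v ≤ ω v) {k : ℕ} {R : Finset Cell} {I J : Set Pt}
    (hC : Conn (TR ω' k R) I J) : dS (TR ω k R) I J ≤ dS (TR ω' k R) I J := by
  obtain ⟨x, hx, y, hy, hr⟩ := hC.spec
  refine dS_le hx hy (hr.push idS fun v hv => TR_coarsen hv.2 ?_)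
  have := hv.1.2
  have := S_le_of_le h v
  have := h v
  change k ≤ S ω v + ω v
  omega

lemma pw_Sub0_update (v : Cell) (ω' ω : Om) (t : ℕ) :
    pw (Sub0 v) ω' (Function.update ω v t) = Function.update (pw (Sub0 v) ω' ω) v t := by
  funext w
  by_cases e : w = v
  · subst e; rw [pw_not (fun h => h.2 rfl)]; simp
  · rw [Function.update_of_ne e]
    by_cases hw : w ∈ Sub0 v
    · rw [pw_mem hw, pw_mem hw]
    · rw [pw_not hw, pw_not hw, Function.update_of_ne e]

lemma Res_Sub1 {f : Om → ℝ} (hf : Nice f) (v : Cell) (ω : Om) :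
    Res N (Sub1 v) f ω = Eν N (fun t => Res N (Sub0 v) f (Function.update ω v t)) := by
  rw [← Res_single, Res_Res hf]
  congr 1
  ext w
  simp only [Sub1, Sub0, mem_ofPred_eq, mem_union, mem_singleton_iff]
  constructor
  · intro h; by_cases e : w = v
    · exact Or.inl e
    · exact Or.inr ⟨h, e⟩
  · rintro (rfl | h)
    · exact Below.refl _
    · exact h.1

section
variable {k : ℕ} {R : Finset Cell} {I J : Set Pt} {g w : ℕ → ℝ}

lemma var_cell (hN : 2 ≤ N) (hC : ∀ ω k, Conn (TR ω k R) I J)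
    (hg : ∀ n n', n ≤ n' → 0 ≤ g n' - g n ∧ g n' - g n ≤ ((n' : ℝ) - n) * w n)
    (hw : ∀ n, 0 ≤ w n) (v : Cell) :
    E N (fun ω => (Res N (Sub0 v) (fun ω => g (dS (TR ω k R) I J)) ω -
      Res N (Sub1 v) (fun ω => g (dS (TR ω k R) I J)) ω) ^ 2) ≤
    q N * E N (fun ω => ((min (ω v) (k - S ω v) : ℕ) : ℝ) *
      (w (dS (TR ω k R) I J) * cnt (TR ω k R) I J (Below v)) ^ 2) := by
  have hq := q_pos hN
  have hq2 := q_le hN
  set f : Om → ℝ := fun ω => g (dS (TR ω k R) I J) with hfd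
  set π : Om → ℝ := fun ω => w (dS (TR ω k R) I J) * cnt (TR ω k R) I J (Below v) with hπd
  have ef : Elem f := (elem_dS k R I J).map g
  have ew : Elem (fun ω => w (dS (TR ω k R) I J)) := (elem_dS k R I J).map w
  have eπ : Elem π := ew.map₂ (elem_cnt k R I J _) (· * ·)
  have hf := ef.nice
  have hπ := eπ.nice
  have n0 := hf.res N (Sub0 v)
  have n1 := hf.res N (Sub1 v)
  have nπ := hπ.res N (Sub0 v)
  have em : Elem (fun ω : Om => ((min (ω v) (k - S ω v) : ℕ) : ℝ)) := by
    have := (Elem.coord v k).map₂ (elem_age v k) (fun a b => ((min a b : ℕ) : ℝ))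
    convert this using 3
    omega
  have hm := em.nice
  have dm : DependsOn (fun ω : Om => ((min (ω v) (k - S ω v) : ℕ) : ℝ)) (Sub0 v)ᶜ := by
    refine ((dep_coord v).mono ?_).qmap₂ ((dep_S v).mono ?_) (fun a b => ((min a (k - b) : ℕ) : ℝ))
    · rintro _ rfl h; exact h.2 rfl
    · intro u hu h
      have := h.1.1
      have := hu.2
      omega
  rw [E_mul_Res hm (hπ.pow 2) dm]
  refine le_trans ?_ (mul_le_mul_of_nonneg_left (E_mono (hm.mul (nπ.pow 2))
    (hm.mul ((hπ.pow 2).res N _)) fun ω => mul_le_mul_of_nonneg_left (Res_sq_le hπ _ ω)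
      (Nat.cast_nonneg _)) hq.le)
  rw [← E_Res ((n0.sub n1).pow 2) {v}, ← E_Res (hm.mul (nπ.pow 2)) {v}, ← E_cmul]
  refine E_mono (((n0.sub n1).pow 2).res N _) (((hm.mul (nπ.pow 2)).res N _).cmul _) fun ω => ?_
  rw [Res_single, Res_single]
  have e1 : ∀ t, Res N (Sub1 v) f (Function.update ω v t) = Res N (Sub1 v) f ω := fun t =>
    Res_dep f _ fun u hu => Function.update_of_ne (by rintro rfl; exact hu (Below.refl _)) _ _
  simp only [e1, Function.update_self, S_update_self]
  rw [Res_Sub1 hf]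
  refine var_one hN (k - S ω v) (n0.bd_update v ω) (nπ.bd_update v ω) (fun t ht => ?_)
    fun r hr => ?_
  · unfold Res
    refine E_congr fun ω' => ?_
    rw [pw_Sub0_update, pw_Sub0_update]
    have hS : S (pw (Sub0 v) ω' ω) v = S ω v := dep_pw_compl (G := fun ω => S ω v)
      ((dep_S v).mono fun u hu h => by have := h.1.1; have := hu.2; omega) _ _
    set ω₁ := Function.update (pw (Sub0 v) ω' ω) v (k - S ω v)
    have e : Function.update (pw (Sub0 v) ω' ω) v t = Function.update ω₁ v t := by simp [ω₁]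
    have hS1 : S ω₁ v = S ω v := by rw [S_update_self, hS]
    simp only [hfd]
    rw [e, TR_update (ω := ω₁) (by rw [hS1]; simp only [ω₁, Function.update_self]; omega)
      (by omega)]
  · have hp : 0 < (1 - q N) ^ (r + 1) := pow_pos (by linarith) _
    have ei := (Elem.coord_ge v (r + 1)).ind
    have nd := ei.mul ((ef.dec v 1).nice.sub hf)
    have a1 : Res N (Sub1 v) (fun ω => ind (r + 1 ≤ ω v) *
        (f (Function.update ω v (ω v - 1)) - f ω)) ω = (1 - q N) ^ (r + 1) *
        Eν N (fun t => Res N (Sub0 v) f (Function.update ω v (t + r)) -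
          Res N (Sub0 v) f (Function.update ω v (t + (r + 1)))) := by
      rw [Res_Sub1 nd, Eν_shift hN (r + 1) ((nd.res N _).bd_update v ω)]
      · congr 2
        funext t
        unfold Res
        rw [← E_sub (hf.pw _ _) (hf.pw _ _)]
        refine E_congr fun ω' => ?_
        simp only [pw_Sub0_update, Function.update_self, Function.update_idem]
        rw [ind_pos (by omega), one_mul]
        rfl
      · intro t ht
        unfold Res
        simp only [pw_Sub0_update, Function.update_self]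
        rw [ind_neg (by omega)]; simp
    have a2 : Res N (Sub1 v) (fun ω => ind (r + 1 ≤ ω v) * π ω) ω = (1 - q N) ^ (r + 1) *
        Eν N (fun t => Res N (Sub0 v) π (Function.update ω v (t + (r + 1)))) := by
      rw [Res_Sub1 (ei.mul hπ), Eν_shift hN (r + 1) (((ei.mul hπ).res N _).bd_update v ω)]
      · congr 2
        funext t
        unfold Res
        refine E_congr fun ω' => ?_
        simp only [pw_Sub0_update, Function.update_self]
        rw [ind_pos (by omega), one_mul]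
      · intro t ht
        unfold Res
        simp only [pw_Sub0_update, Function.update_self]
        rw [ind_neg (by omega)]; simp
    have eS : Elem (fun ω₁ => r < k - S ω₁ v) := (elem_age v k).map (r < ·)
    have nH := (ei.mul eS.ind).mul ew.nice
    have a3 := Res_cnt_split (k := k) hN R I J nH (s := Sub1 v) (P := Below v)
      (fun _ h => h) (fun ω₁ u t hu h1 h2 => by
        rw [TR_update h1.2 h2, S_update_of_not (fun h => by have := hu.1; have := h.2; omega)]
        by_cases e : u = v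
        · subst e
          by_cases hr' : r < k - S ω₁ u
          · have := h1.2
            rw [Function.update_self, ind_pos (show r + 1 ≤ t by omega),
              ind_pos (show r + 1 ≤ ω₁ u by omega)]
          · rw [ind_neg hr']; simp
        · rw [Function.update_of_ne (Ne.symm e)]) ω
    have hS : ∀ ω', S (pw (Sub1 v) ω' ω) v = S ω v := fun ω' => dep_pw_compl (G := fun ω => S ω v)
      ((dep_S v).mono fun u hu h => by have := h.1; have := hu.2; omega) _ _
    have a4 : Res N (Sub1 v) (fun ω => ind (r + 1 ≤ ω v) * ind (r < k - S ω v) *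
        w (dS (TR ω k R) I J) * cnt (TR ω k R) I J (Below v)) ω =
        Res N (Sub1 v) (fun ω => ind (r + 1 ≤ ω v) * π ω) ω := by
      unfold Res
      refine E_congr fun ω' => ?_
      simp only [hS, ind_pos hr, hπd]; ring
    have a5 : 0 ≤ Res N (Sub1 v) (fun ω => ind (r + 1 ≤ ω v) *
        (f (Function.update ω v (ω v - 1)) - f ω)) ω :=
      Res_nonneg (fun ω₁ => mul_nonneg (ind_nonneg _) (hg _ _ (dS_anti (fun u => by
        by_cases e : u = v
        · subst e; simp
        · rw [Function.update_of_ne e]) (hC _ _))).1) _ _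
    have a6 : Res N (Sub1 v) (fun ω => ind (r + 1 ≤ ω v) *
        (f (Function.update ω v (ω v - 1)) - f ω)) ω ≤
        Res N (Sub1 v) (fun ω => ind (r + 1 ≤ ω v) * ind (r < k - S ω v) *
          w (dS (TR ω k R) I J) * cnt (TR ω k R) I J (fun u => Below v u ∧ S ω u + ω u = k)) ω := by
      unfold Res
      refine E_mono (nd.pw _ _) ((nH.mul (elem_cnt_split k R I J _).nice).pw _ _) fun ω' => ?_
      have hS' := hS ω'
      set ω₁ := pw (Sub1 v) ω' ω
      beta_reduce
      by_cases h1 : r + 1 ≤ ω₁ v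
      swap
      · rw [ind_neg h1]; simp
      rw [ind_pos h1, hS', ind_pos hr, one_mul, one_mul, one_mul]
      have hle : ∀ u, Function.update ω₁ v (ω₁ v - 1) u ≤ ω₁ u := fun u => by
        by_cases e : u = v
        · subst e; simp
        · rw [Function.update_of_ne e]
      refine (hg _ _ (dS_anti hle (hC _ _))).2.trans ?_
      rw [mul_comm]
      refine mul_le_mul_of_nonneg_left ?_ (hw _)
      rw [sub_le_iff_le_add']
      refine dS_le_add_cnt (hC _ _) _ fun u hu x hx y hy => ?_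
      by_cases hb : Below v u
      · have := (step_tile hu.1 hx hy).mono (B := TR (Function.update ω₁ v (ω₁ v - 1)) k R)
          fun z hz => ⟨(mem_T_dec (by omega) (by omega) (hb.trans hz.2)).2 hz.1,
            by rw [hz.2.anc_eq (Nat.zero_le _)]; exact hu.2⟩
        refine ⟨this.mono_n (by split_ifs <;> omega), fun hp => ?_⟩
        rwa [if_neg (fun h => hp ⟨hb, h⟩)] at this
      · have : Reach (TR (Function.update ω₁ v (ω₁ v - 1)) k R) 1 x y :=
          Reach.one ⟨(mem_T_update_not hb _).2 hu.1, hu.2⟩ hx hy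
        exact ⟨this.mono_n (by omega), fun _ => this⟩
    rw [a3, a4, a2, a1] at a6
    rw [a1] at a5
    rw [abs_of_nonneg (le_of_mul_le_mul_left (by simpa using a5) hp)]
    exact le_of_mul_le_mul_left (by linarith) hp

lemma min_le_sum_alive (ω : Om) (v : Cell) (k : ℕ) :
    ((min (ω v) (k - S ω v) : ℕ) : ℝ) ≤ ∑ j ∈ Finset.range k, ind (v ∈ T ω j) := by
  have h : Finset.Ico (S ω v) (S ω v + min (ω v) (k - S ω v)) ⊆ Finset.range k := fun j hj => by
    rw [Finset.mem_Ico] at hj; rw [Finset.mem_range]; omega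
  refine le_trans (le_of_eq ?_) (Finset.sum_le_sum_of_subset_of_nonneg h fun _ _ _ => ind_nonneg _)
  rw [Finset.sum_congr rfl fun j hj => ind_pos (A := v ∈ T ω j) (by
    rw [Finset.mem_Ico] at hj; exact ⟨hj.1, by omega⟩)]
  simp

/-- variance lemma -/
theorem variance (hN : 2 ≤ N) (D : ℕ) (hC : ∀ ω k, Conn (TR ω k R) I J)
    (hg : ∀ n n', n ≤ n' → 0 ≤ g n' - g n ∧ g n' - g n ≤ ((n' : ℝ) - n) * w n)
    (hw : ∀ n, 0 ≤ w n) :
    E N (fun ω => (g (dS (TR ω k R) I J) -
      Res N (Deep D) (fun ω => g (dS (TR ω k R) I J)) ω) ^ 2) ≤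
    q N * ∑ j ∈ Finset.range k, E N (fun ω => ∑ v ∈ (cells k R).filter (fun v => D ≤ v.1),
      ind (v ∈ T ω j) * (w (dS (TR ω k R) I J) * cnt (TR ω k R) I J (Below v)) ^ 2) := by
  have hf := ((elem_dS k R I J).map g).nice
  have hd : DependsOn (fun ω => g (dS (TR ω k R) I J)) (cells k R) :=
    (dep_TR_cells k R).qmap fun A => g (dS A I J)
  have h1 := var_decomp (N := N) hf hd ((cells k R).filter (fun v => D ≤ v.1))
    fun v hv u hu hb => by
      rw [Finset.mem_filter] at hv ⊢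
      exact ⟨hu, hv.2.trans hb.1⟩
  have e : ∀ ω, Res N (((cells k R).filter (fun v => D ≤ v.1) : Finset Cell) : Set Cell)
      (fun ω => g (dS (TR ω k R) I J)) ω = Res N (Deep D) (fun ω => g (dS (TR ω k R) I J)) ω :=
    fun ω => Res_congr_set hd (fun v hv => by
      simp only [Finset.coe_filter, mem_ofPred_eq, Deep]
      exact ⟨fun h => h.2, fun h => ⟨hv, h⟩⟩) ω
  simp only [e] at h1
  refine h1.trans ?_
  have nπ : ∀ v, Nice (fun ω => (w (dS (TR ω k R) I J) * cnt (TR ω k R) I J (Below v)) ^ 2) :=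
    fun v => (((elem_dS k R I J).map w).nice.mul (elem_cnt k R I J _).nice).pow 2
  simp only [fun j => E_sum (N := N) ((cells k R).filter (fun v => D ≤ v.1))
    (fun v _ => (elem_alive v j).ind.mul (nπ v))]
  rw [Finset.sum_comm, Finset.mul_sum]
  refine Finset.sum_le_sum fun v _ => (var_cell hN hC hg hw v).trans ?_
  refine mul_le_mul_of_nonneg_left ?_ (q_pos hN).le
  rw [← E_sum _ fun j _ => (elem_alive v j).ind.mul (nπ v)]
  have em : Elem (fun ω : Om => ((min (ω v) (k - S ω v) : ℕ) : ℝ)) := by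
    have := (Elem.coord v k).map₂ (elem_age v k) (fun a b => ((min a b : ℕ) : ℝ))
    convert this using 3
    omega
  refine E_mono (em.nice.mul (nπ v)) (Nice.sum _ fun j _ => (elem_alive v j).ind.mul (nπ v))
    fun ω => ?_
  rw [← Finset.sum_mul]
  exact mul_le_mul_of_nonneg_right (min_le_sum_alive ω v k) (sq_nonneg _)

/-- the steps under `v` are at most the diameter of `v` -/
lemma cnt_le_Xh {ω : Om} (v : Cell) : cnt (TR ω k R) I J (Below v) ≤ Xh ω k v := by
  classical
  set A := TR ω k R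
  by_cases h : ∃ j < dS A I J, Below v ((geo A I J).2 j)
  swap
  · push Not at h
    rw [cnt, Finset.sum_eq_zero fun j hj => ind_neg (h j (Finset.mem_range.1 hj))]
    positivity
  obtain ⟨j, hj, hb⟩ := h
  have hg := geo_spec (conn_of_pos (A := A) (I := I) (J := J) (by omega))
  obtain ⟨s, -, s2, s3, s4⟩ := exists_first (P := fun j => Below v ((geo A I J).2 j))
    (Nat.zero_le j) hb
  obtain ⟨e, e1, e2, e3, e4⟩ := exists_last (P := fun j => Below v ((geo A I J).2 j))
    (show j ≤ dS A I J - 1 by omega) hb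
  obtain ⟨m1, m2, -⟩ := hg.1 s (Nat.zero_le _) (by omega)
  obtain ⟨-, -, m3⟩ := hg.1 e (Nat.zero_le _) (by omega)
  have hR : anc 0 v ∈ R := by rw [← s3.anc_eq (Nat.zero_le _)]; exact m1.2
  have := hg.le (i := s) (j := e + 1) (by omega) (by omega)
    (reach_Xh hR (s3.sq_sub m2) (e3.sq_sub m3))
  have h2 : cnt A I J (Below v) ≤ ∑ j ∈ Finset.Ico s (e + 1), (1 : ℝ) := by
    rw [cnt, ← Finset.sum_subset (s₁ := Finset.Ico s (e + 1))]
    · exact Finset.sum_le_sum fun _ _ => ind_le_one _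
    · intro t ht; rw [Finset.mem_Ico] at ht; rw [Finset.mem_range]; omega
    · intro t ht ht'
      rw [Finset.mem_Ico] at ht'; rw [Finset.mem_range] at ht
      by_cases hs : t < s
      · exact ind_neg (s4 t (Nat.zero_le _) hs)
      · exact ind_neg (e4 t (by omega) (by omega))
  refine h2.trans ?_
  simp only [Finset.sum_const, Nat.card_Ico, nsmul_eq_mul, mul_one]
  exact_mod_cast (by omega : e + 1 - s ≤ Xh ω k v)

/-- cells alive at one time are disjoint -/
lemma sum_cnt_le {ω : Om} (F : Finset Cell) (j : ℕ) (A : Set Cell) :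
    ∑ v ∈ F, ind (v ∈ T ω j) * cnt A I J (Below v) ≤ dS A I J := by
  classical
  simp only [cnt, Finset.mul_sum]
  rw [Finset.sum_comm]
  refine le_trans (Finset.sum_le_sum (g := fun _ => (1 : ℝ)) fun t _ => ?_) (by simp)
  by_cases h : ∃ v ∈ F, v ∈ T ω j ∧ Below v ((geo A I J).2 t)
  · obtain ⟨v, hv, h1, h2⟩ := h
    rw [Finset.sum_eq_single v, ind_pos h1, ind_pos h2, one_mul]
    · intro u _ huv
      rw [← ind_and]
      refine ind_neg fun h => huv ?_
      rcases le_total u.1 v.1 with hl | hl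
      · exact alive_unique h.1 h1 (h.2.of_le h2 hl)
      · exact (alive_unique h1 h.1 (h2.of_le h.2 hl)).symm
    · intro h; exact absurd hv h
  · push Not at h
    rw [Finset.sum_eq_zero fun v hv => by rw [← ind_and]; exact ind_neg fun hh => h v hv hh.1 hh.2]
    norm_num

lemma sum_cnt_sq_le {ω : Om} (F : Finset Cell) (j : ℕ) {t : ℝ} (ht : 0 < t) (p : ℕ) :
    ∑ v ∈ F, ind (v ∈ T ω j) * cnt (TR ω k R) I J (Below v) ^ 2 ≤
      dS (TR ω k R) I J * t + (∑ v ∈ F, ind (v ∈ T ω j) * (Xh ω k v : ℝ) ^ (p + 2)) / t ^ p := by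
  refine le_trans ?_ (add_le_add (mul_le_mul_of_nonneg_right (sum_cnt_le (ω := ω) F j _) ht.le)
    le_rfl)
  rw [Finset.sum_mul, Finset.sum_div, ← Finset.sum_add_distrib]
  refine Finset.sum_le_sum fun v _ => ?_
  rw [mul_assoc, mul_div_assoc, ← mul_add]
  refine mul_le_mul_of_nonneg_left ?_ (ind_nonneg _)
  have h0 := cnt_nonneg (TR ω k R) I J (Below v)
  have h1 := cnt_le_Xh (k := k) (R := R) (I := I) (J := J) (ω := ω) v
  set L := cnt (TR ω k R) I J (Below v)
  set x := (Xh ω k v : ℝ)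
  by_cases hx : x ≤ t
  · have : 0 ≤ x ^ (p + 2) / t ^ p := by have := h0.trans h1; positivity
    nlinarith
  · push Not at hx
    have h2 : x ^ 2 ≤ x ^ (p + 2) / t ^ p := by
      rw [le_div_iff₀ (pow_pos ht p), pow_add, mul_comm]
      exact mul_le_mul_of_nonneg_right (pow_le_pow_left₀ ht.le hx.le p) (sq_nonneg _)
    have h3 : L ^ 2 ≤ x ^ 2 := pow_le_pow_left₀ h0 h1 2
    nlinarith

end

end Pool.Agent.P.MP_8c7dae_pr
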